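import Pool.Agent.MP_3827f0_nt.H92.Defs

/-! The places of the algebraic closure of the rationals. -/

set_option autoImplicit false

namespace Pool.Agent.MP_3827f0_nt.H92

namespace AdelAux

open MeasureTheory Polynomial

/-- The field of algebraic numbers. -/
abbrev Kb : Type := AlgebraicClosure ℚ

instance algK : Algebra.IsAlgebraic ℚ Kb := AlgebraicClosure.isAlgebraic ℚ

instance closK : IsAlgClosure ℚ Kb := ⟨inferInstance, algK⟩

instance galK : IsGalois ℚ Kb := IsAlgClosure.isGalois ℚ Kb

/-- The absolute Galois group. -/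
def Gl : Type := Kb ≃ₐ[ℚ] Kb

noncomputable instance : Group Gl := inferInstanceAs (Group (Kb ≃ₐ[ℚ] Kb))
noncomputable instance : TopologicalSpace Gl := inferInstanceAs (TopologicalSpace (Kb ≃ₐ[ℚ] Kb))
instance : IsTopologicalGroup Gl := inferInstanceAs (IsTopologicalGroup (Kb ≃ₐ[ℚ] Kb))
instance : CompactSpace Gl := inferInstanceAs (CompactSpace (Kb ≃ₐ[ℚ] Kb))
noncomputable instance : MeasurableSpace Gl := borel Gl
instance : BorelSpace Gl := ⟨rfl⟩

/-- The automorphism given by the inverse of a group element. -/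
noncomputable def act (s : Gl) : Kb ≃ₐ[ℚ] Kb := AlgEquiv.symm s

theorem act_mul (s t : Gl) (x : Kb) : act (t * s) x = act s (act t x) := rfl

theorem exists_act (σ : Kb ≃ₐ[ℚ] Kb) : ∃ t : Gl, act t = σ :=
  ⟨σ.symm, σ.symm_symm⟩

theorem act_lc (x : Kb) : IsLocallyConstant fun s : Gl => act s x := by
  have h1 : IsLocallyConstant fun s : Kb ≃ₐ[ℚ] Kb => s x := by
    rw [IsLocallyConstant.iff_eventually_eq]
    intro s
    have ho := stabilizer_isOpen_of_isIntegral (K := ℚ) (L := Kb) x
    have hc : Continuous fun t : Kb ≃ₐ[ℚ] Kb => s⁻¹ * t := continuous_const.mul continuous_id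
    have hm : (fun t : Kb ≃ₐ[ℚ] Kb => s⁻¹ * t) ⁻¹'
        (MulAction.stabilizer (Kb ≃ₐ[ℚ] Kb) x : Set (Kb ≃ₐ[ℚ] Kb)) ∈ nhds s := by
      apply (ho.preimage hc).mem_nhds
      simp
    filter_upwards [hm] with t ht
    have h2 : (s⁻¹ * t) x = x := ht
    have h3 : t = s * (s⁻¹ * t) := by group
    rw [h3, AlgEquiv.mul_apply, h2]
  have h2 : Continuous fun s : Kb ≃ₐ[ℚ] Kb => s⁻¹ := continuous_inv
  exact h1.comp_continuous h2

/-- Haar probability measure. -/
noncomputable def nu : Measure Gl := Measure.haarMeasure ⊤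

instance : IsProbabilityMeasure nu := ⟨by
  have := Measure.haarMeasure_self (G := Gl) (K₀ := ⊤)
  simpa [nu] using this⟩

instance : nu.IsMulLeftInvariant := by unfold nu; infer_instance

theorem meas_act (φ : Kb → ℝ) (x : Kb) : Measurable fun s : Gl => φ (act s x) :=
  ((act_lc x).comp φ).continuous.measurable

theorem int_act (φ : Kb → ℝ) (x : Kb) : Integrable (fun s : Gl => φ (act s x)) nu :=
  ((act_lc x).comp φ).continuous.integrable_of_hasCompactSupport
    (HasCompactSupport.of_compactSpace _)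

/-- A complex embedding. -/
noncomputable def ioC : Kb →ₐ[ℚ] ℂ := IsAlgClosed.lift

/-- A p-adic embedding. -/
noncomputable def ioP (p : ℕ) [_root_.Fact p.Prime] : Kb →ₐ[ℚ] PadicAlgCl p := IsAlgClosed.lift

/-- The absolute value pulled back along a field map. -/
noncomputable def pull {L : Type} [NormedField L] (φ : Kb →+* L) : AbsoluteValue Kb ℝ where
  toFun x := ‖φ x‖
  map_mul' x y := by simp
  nonneg' x := norm_nonneg _
  eq_zero' x := by simp
  add_le' x y := by simpa using norm_add_le _ _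

theorem pull_apply {L : Type} [NormedField L] (φ : Kb →+* L) (x : Kb) : pull φ x = ‖φ x‖ := rfl

/-- One place above each place of the rationals. -/
noncomputable def v0 : Option Nat.Primes → AbsoluteValue Kb ℝ
  | none => pull (ioC : Kb →+* ℂ)
  | some p => haveI : _root_.Fact p.1.Prime := ⟨p.2⟩; pull (ioP p.1 : Kb →+* PadicAlgCl p.1)

/-- Composition of an absolute value with an automorphism. -/
noncomputable def tw (v : AbsoluteValue Kb ℝ) (σ : Kb ≃ₐ[ℚ] Kb) : AbsoluteValue Kb ℝ where
  toFun x := v (σ x)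
  map_mul' x y := by simp
  nonneg' x := v.nonneg _
  eq_zero' x := by simp
  add_le' x y := by simpa using v.add_le _ _

theorem tw_apply (v : AbsoluteValue Kb ℝ) (σ : Kb ≃ₐ[ℚ] Kb) (x : Kb) : tw v σ x = v (σ x) := rfl

theorem v0_na (p : Nat.Primes) : IsNonarchimedean (v0 (some p)) := by
  intro x y
  have : _root_.Fact p.1.Prime := ⟨p.2⟩
  simp only [v0, pull_apply, map_add]
  exact PadicAlgCl.isNonarchimedean p.1 _ _

theorem v0_nat (p : Nat.Primes) (n : ℕ) :
    haveI : _root_.Fact p.1.Prime := ⟨p.2⟩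
    v0 (some p) (n : Kb) = ‖(n : ℚ_[p.1])‖ := by
  have : _root_.Fact p.1.Prime := ⟨p.2⟩
  simp only [v0, pull_apply, map_natCast]
  rw [← PadicAlgCl.norm_extends, map_natCast]

theorem v0_nat_one (p : Nat.Primes) (n : ℕ) (h : ¬ p.1 ∣ n) : v0 (some p) (n : Kb) = 1 := by
  have : _root_.Fact p.1.Prime := ⟨p.2⟩
  rw [v0_nat]
  exact Padic.norm_natCast_eq_one_iff.mpr ((Nat.Prime.coprime_iff_not_dvd p.2).mpr h)

theorem na_sum_le (v : AbsoluteValue Kb ℝ) (hv : IsNonarchimedean v) {ι : Type} (s : Finset ι)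
    (f : ι → Kb) (c : ℝ) (hc : 0 ≤ c) (h : ∀ i ∈ s, v (f i) ≤ c) : v (∑ i ∈ s, f i) ≤ c := by
  classical
  induction s using Finset.induction_on with
  | empty => simpa using hc
  | insert a s ha ih =>
    rw [Finset.sum_insert ha]
    refine (hv _ _).trans (max_le (h a (by simp)) (ih fun i hi => h i (by simp [hi])))

theorem na_int_le (v : AbsoluteValue Kb ℝ) (hv : IsNonarchimedean v) (n : ℤ) : v (n : Kb) ≤ 1 := by
  have h1 : ∀ m : ℕ, v (m : Kb) ≤ 1 := by
    intro m
    induction m with
    | zero => simp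
    | succ m ih =>
      push_cast
      exact (hv _ _).trans (max_le ih (by simp))
  obtain ⟨m, rfl | rfl⟩ := Int.eq_nat_or_neg n
  · simpa using h1 m
  · simpa using h1 m

theorem na_integral_le (v : AbsoluteValue Kb ℝ) (hv : IsNonarchimedean v) {x : Kb}
    (hx : IsIntegral ℤ x) : v x ≤ 1 := by
  obtain ⟨f, hm, hf⟩ := hx
  by_contra hlt
  push Not at hlt
  rw [Polynomial.eval₂_eq_sum_range, Finset.sum_range_succ, hm.coeff_natDegree, map_one, one_mul,
    add_eq_zero_iff_eq_neg] at hf
  rcases Nat.eq_zero_or_pos f.natDegree with h0 | h0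
  · rw [h0] at hf
    simp at hf
  · have h1 := na_sum_le v hv (Finset.range f.natDegree)
      (fun i => algebraMap ℤ Kb (f.coeff i) * x ^ i) (v x ^ (f.natDegree - 1)) (by positivity)
      (fun i hi => by
        rw [map_mul, map_pow]
        have hi' : i ≤ f.natDegree - 1 := by
          have := Finset.mem_range.mp hi
          omega
        calc v (algebraMap ℤ Kb (f.coeff i)) * v x ^ i ≤ 1 * v x ^ i := by
              gcongr
              simpa using na_int_le v hv (f.coeff i)
          _ ≤ v x ^ (f.natDegree - 1) := by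
              rw [one_mul]
              exact pow_le_pow_right₀ hlt.le hi')
    rw [hf, AbsoluteValue.map_neg, map_pow] at h1
    have h2 : v x ^ (f.natDegree - 1) < v x ^ f.natDegree := pow_lt_pow_right₀ hlt (by omega)
    linarith

theorem exists_den (x : Kb) : ∃ m : ℕ, m ≠ 0 ∧ IsIntegral ℤ ((m : Kb) * x) := by
  have hx : IsAlgebraic ℤ x :=
    (IsFractionRing.isAlgebraic_iff ℤ ℚ Kb).mpr (Algebra.IsAlgebraic.isAlgebraic x)
  obtain ⟨y, hy, h⟩ := hx.exists_integral_multiple
  refine ⟨y.natAbs, by simpa using hy, ?_⟩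
  rw [zsmul_eq_mul] at h
  rcases Int.natAbs_eq y with h1 | h1
  · rw [h1] at h
    simpa using h
  · rw [h1] at h
    simpa using h.neg

theorem le_one_of_not_dvd (p : Nat.Primes) (σ : Kb ≃ₐ[ℚ] Kb) {x : Kb} {m : ℕ}
    (hm : IsIntegral ℤ ((m : Kb) * x)) (h : ¬ p.1 ∣ m) : v0 (some p) (σ x) ≤ 1 := by
  have h1 : IsIntegral ℤ ((m : Kb) * σ x) := by
    have := hm.map ((σ : Kb →+* Kb).toIntAlgHom)
    simpa using this
  have h2 := na_integral_le _ (v0_na p) h1
  rwa [map_mul, v0_nat_one p m h, one_mul] at h2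

/-- Almost all places are trivial on the conjugates of x. -/
theorem exists_support (x : Kb) : ∃ T : Finset (Option Nat.Primes),
    ∀ i ∉ T, ∀ σ : Kb ≃ₐ[ℚ] Kb, Real.log (v0 i (σ x)) = 0 := by
  classical
  by_cases hx : x = 0
  · exact ⟨∅, fun i _ σ => by simp [hx]⟩
  obtain ⟨m, hm0, hm⟩ := exists_den x
  obtain ⟨k, hk0, hk⟩ := exists_den x⁻¹
  have hfin : {p : Nat.Primes | p.1 ∣ m * k}.Finite := by
    apply Set.Finite.of_finite_image (f := fun p : Nat.Primes => p.1) _ Subtype.val_injective.injOn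
    apply (Set.finite_le_nat (m * k)).subset
    rintro _ ⟨p, hp, rfl⟩
    exact Nat.le_of_dvd (Nat.pos_of_ne_zero (mul_ne_zero hm0 hk0)) hp
  refine ⟨insert none (hfin.toFinset.image some), fun i hi σ => ?_⟩
  cases i with
  | none => simp at hi
  | some p =>
    have hp : ¬ p.1 ∣ m * k := by simpa using hi
    have h1 := le_one_of_not_dvd p σ hm fun h => hp (h.mul_right k)
    have h2 := le_one_of_not_dvd p σ hk fun h => hp (h.mul_left m)
    have h3 : 0 < v0 (some p) (σ x) := (v0 (some p)).pos (by simpa using hx)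
    rw [map_inv₀, map_inv₀, inv_le_one₀ h3] at h2
    rw [le_antisymm h1 h2, Real.log_one]

/-- The index space. -/
abbrev Om : Type := Option Nat.Primes × Gl

/-- The sigma algebra. -/
noncomputable abbrev msO : MeasurableSpace Om :=
  @Prod.instMeasurableSpace _ _ ⊤ (inferInstanceAs (MeasurableSpace Gl))

attribute [local instance] msO

/-- The measure. -/
noncomputable def mu : Measure Om := Measure.sum fun i => nu.map (Prod.mk i)

theorem meas_mk (i : Option Nat.Primes) : Measurable (Prod.mk i : Gl → Om) := by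
  let : MeasurableSpace (Option Nat.Primes) := ⊤
  exact measurable_prodMk_left

theorem meas_of (f : Om → ℝ) (h : ∀ i, Measurable fun s => f (i, s)) : Measurable f := by
  let : MeasurableSpace (Option Nat.Primes) := ⊤
  have : MeasurableSingletonClass (Option Nat.Primes) := ⟨fun _ => trivial⟩
  exact measurable_from_prod_countable_right h

theorem int_of (f : Om → ℝ) (h : ∀ i, Measurable fun s => f (i, s))
    (hi : ∀ i, Integrable (fun s => f (i, s)) nu) (T : Finset (Option Nat.Primes))
    (hT : ∀ i ∉ T, ∀ s, f (i, s) = 0) :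
    Integrable f mu ∧ ∫ ω, f ω ∂mu = ∑ i ∈ T, ∫ s, f (i, s) ∂nu := by
  have hm := meas_of f h
  have h1 : Integrable f mu := by
    apply integrable_sum_measure
    · intro i
      exact (integrable_map_measure hm.aestronglyMeasurable (meas_mk i).aemeasurable).mpr (hi i)
    · apply summable_of_ne_finset_zero (s := T)
      intro i hi
      rw [integral_map (meas_mk i).aemeasurable hm.norm.aestronglyMeasurable]
      simp [hT i hi]
  refine ⟨h1, ?_⟩
  unfold mu at h1 ⊢
  rw [integral_sum_measure h1, tsum_eq_sum (s := T)]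
  · refine Finset.sum_congr rfl fun i _ => ?_
    rw [integral_map (meas_mk i).aemeasurable hm.aestronglyMeasurable]
  · intro i hi
    rw [integral_map (meas_mk i).aemeasurable hm.aestronglyMeasurable]
    simp [hT i hi]

/-- The absolute value at a point of the index space. -/
noncomputable def vv (ω : Om) : AbsoluteValue Kb ℝ := tw (v0 ω.1) (act ω.2)

theorem lg_spec (x : Kb) (T : Finset (Option Nat.Primes))
    (hT : ∀ i ∉ T, ∀ σ : Kb ≃ₐ[ℚ] Kb, Real.log (v0 i (σ x)) = 0) :
    Integrable (fun ω => Real.log (vv ω x)) mu ∧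
      ∫ ω, Real.log (vv ω x) ∂mu = ∑ i ∈ T, ∫ s, Real.log (v0 i (act s x)) ∂nu :=
  int_of (fun ω => Real.log (vv ω x)) (fun i => meas_act (fun y => Real.log (v0 i y)) x)
    (fun i => int_act (fun y => Real.log (v0 i y)) x) T (fun i hi s => hT i hi (act s))

theorem int_lg (x : Kb) : Integrable (fun ω => Real.log (vv ω x)) mu := by
  obtain ⟨T, hT⟩ := exists_support x
  exact (lg_spec x T hT).1

/-- The total degree of an element. -/
noncomputable def J (x : Kb) : ℝ := ∫ ω, Real.log (vv ω x) ∂mu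

theorem J_mul {x y : Kb} (hx : x ≠ 0) (hy : y ≠ 0) : J (x * y) = J x + J y := by
  unfold J
  rw [← integral_add (int_lg x) (int_lg y)]
  refine integral_congr_ae (Filter.Eventually.of_forall fun ω => ?_)
  simp only [map_mul]
  exact Real.log_mul ((vv ω).ne_zero hx) ((vv ω).ne_zero hy)

theorem J_one : J 1 = 0 := by simp [J]

theorem J_neg (x : Kb) : J (-x) = J x := by simp [J]

theorem J_conj (σ : Kb ≃ₐ[ℚ] Kb) (x : Kb) : J (σ x) = J x := by
  obtain ⟨T, hT⟩ := exists_support x
  have hT' : ∀ i ∉ T, ∀ τ : Kb ≃ₐ[ℚ] Kb, Real.log (v0 i (τ (σ x))) = 0 :=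
    fun i hi τ => hT i hi (τ * σ)
  unfold J
  rw [(lg_spec x T hT).2, (lg_spec (σ x) T hT').2]
  refine Finset.sum_congr rfl fun i _ => ?_
  obtain ⟨t, rfl⟩ := exists_act σ
  rw [← integral_mul_left_eq_self (fun s => Real.log (v0 i (act s x))) t]
  simp only [act_mul]

theorem J_prime (p : ℕ) (hp : p.Prime) : J (p : Kb) = 0 := by
  classical
  have : _root_.Fact p.Prime := ⟨hp⟩
  have hT : ∀ i ∉ ({none, some ⟨p, hp⟩} : Finset (Option Nat.Primes)), ∀ σ : Kb ≃ₐ[ℚ] Kb,
      Real.log (v0 i (σ (p : Kb))) = 0 := by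
    intro i hi σ
    cases i with
    | none => simp at hi
    | some q =>
      rw [map_natCast, v0_nat_one, Real.log_one]
      intro hd
      apply hi
      have : q = ⟨p, hp⟩ := Subtype.ext ((Nat.prime_dvd_prime_iff_eq q.2 hp).mp hd)
      simp [this]
  unfold J
  rw [(lg_spec _ _ hT).2, Finset.sum_pair (by simp)]
  simp only [map_natCast, integral_const, probReal_univ, one_smul]
  rw [v0_nat]
  simp [v0, pull_apply]

theorem J_nat (n : ℕ) (hn : n ≠ 0) : J (n : Kb) = 0 := by
  induction n using induction_on_primes with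
  | zero => exact absurd rfl hn
  | one => simpa using J_one
  | prime_mul p a hp ih =>
    have ha : a ≠ 0 := fun h => hn (by simp [h])
    push_cast
    rw [J_mul (by exact_mod_cast hp.ne_zero) (by exact_mod_cast ha), J_prime p hp, ih ha, add_zero]

theorem J_rat (q : ℚ) (hq : q ≠ 0) : J (algebraMap ℚ Kb q) = 0 := by
  have hd : (q.den : Kb) ≠ 0 := by exact_mod_cast q.den_ne_zero
  have hq' : algebraMap ℚ Kb q ≠ 0 := by simpa using hq
  have h1 : algebraMap ℚ Kb q * (q.den : Kb) = (q.num : Kb) := by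
    have := congrArg (algebraMap ℚ Kb) (Rat.mul_den_eq_num q)
    rwa [map_mul, map_natCast, map_intCast] at this
  have h2 : J (q.num : Kb) = 0 := by
    have hn : q.num.natAbs ≠ 0 := by simpa using hq
    rcases Int.natAbs_eq q.num with h | h
    · rw [h]
      simpa using J_nat _ hn
    · rw [h, Int.cast_neg, J_neg]
      simpa using J_nat _ hn
  have h3 := J_mul hq' hd
  rw [h1, h2, J_nat _ q.den_ne_zero] at h3
  linarith

theorem J_prod (s : Multiset Kb) (c : ℝ) (h : ∀ y ∈ s, y ≠ 0 ∧ J y = c) :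
    s.prod ≠ 0 ∧ J s.prod = s.card * c := by
  induction s using Multiset.induction_on with
  | empty => simpa using J_one
  | cons a s ih =>
    have h1 := h a (by simp)
    have h2 := ih fun y hy => h y (by simp [hy])
    rw [Multiset.prod_cons, J_mul h1.1 h2.1, h1.2, h2.2, Multiset.card_cons]
    refine ⟨mul_ne_zero h1.1 h2.1, ?_⟩
    push_cast
    ring

theorem J_zero (x : Kb) (hx : x ≠ 0) : J x = 0 := by
  have hi : IsIntegral ℚ x := Algebra.IsIntegral.isIntegral x
  set f := (minpoly ℚ x).map (algebraMap ℚ Kb) with hf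
  have hm : f.Monic := (minpoly.monic hi).map _
  have hs : f.Splits := IsAlgClosed.splits f
  have hroots : ∀ y ∈ f.roots, y ≠ 0 ∧ J y = J x := by
    intro y hy
    have h1 : aeval y (minpoly ℚ x) = 0 := by
      have := (mem_roots hm.ne_zero).mp hy
      rwa [IsRoot.def, hf, eval_map_algebraMap] at this
    have h2 : minpoly ℚ y = minpoly ℚ x :=
      (minpoly.eq_of_irreducible_of_monic (minpoly.irreducible hi) h1 (minpoly.monic hi)).symm
    obtain ⟨σ, hσ⟩ := (Normal.minpoly_eq_iff_mem_orbit Kb).mp h2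
    have h3 : y = σ x := hσ.symm
    rw [h3, J_conj]
    exact ⟨by simpa using hx, rfl⟩
  obtain ⟨h0, h1⟩ := J_prod f.roots (J x) hroots
  have h2 : f.coeff 0 = (-1) ^ f.natDegree * f.roots.prod :=
    hs.coeff_zero_eq_prod_roots_of_monic hm
  have h3 : f.coeff 0 = algebraMap ℚ Kb ((minpoly ℚ x).coeff 0) := by rw [hf, coeff_map]
  have h4 : J (f.coeff 0) = 0 := by
    rw [h3]
    exact J_rat _ (minpoly.coeff_zero_ne_zero hi hx)
  have h5 : J (f.coeff 0) = J f.roots.prod := by
    rw [h2]
    rcases neg_one_pow_eq_or Kb f.natDegree with h | h <;> rw [h]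
    · rw [one_mul]
    · rw [neg_one_mul, J_neg]
  have h6 : (0 : ℝ) < f.roots.card := by
    rw [← hs.natDegree_eq_card_roots, hf, natDegree_map]
    exact_mod_cast minpoly.natDegree_pos hi
  rw [← h5, h4] at h1
  rcases mul_eq_zero.mp h1.symm with h | h
  · exact absurd h h6.ne'
  · exact h

/-- The archimedean indicator. -/
def aa (ω : Om) : ℝ := match ω.1 with
  | none => 1
  | some _ => 0

theorem aa_spec : Measurable aa ∧ Integrable aa mu ∧ ∫ ω, aa ω ∂mu = 1 := by
  have hm : ∀ i, Measurable fun s : Gl => aa (i, s) := fun i => by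
    cases i <;> exact measurable_const
  have h := int_of aa hm (fun i => by cases i <;> exact integrable_const _) {none}
    (fun i hi s => by
      cases i with
      | none => simp at hi
      | some p => rfl)
  refine ⟨meas_of aa hm, h.1, ?_⟩
  rw [h.2]
  simp [aa]

/-- The adelic structure. -/
noncomputable def adel : Adelic Kb where
  Ω := Om
  ms := msO
  μ := mu
  v := vv
  a := aa
  place ω := by
    obtain ⟨i, s⟩ := ω
    cases i with
    | none =>
      exact Or.inr ⟨rfl, (ioC : Kb →+* ℂ).comp (act s : Kb →+* Kb), fun x => rfl⟩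
    | some p =>
      refine Or.inl ⟨rfl, fun x y => ?_⟩
      simp only [vv, tw_apply, map_add]
      exact v0_na p _ _
  meas_a := aa_spec.1
  int_a := aa_spec.2.1
  sum_a := aa_spec.2.2
  meas_v x := meas_of (fun ω => vv ω x) fun i => meas_act (fun y => v0 i y) x
  int_v := int_lg
  prod_v := J_zero

end AdelAux

theorem nonempty_adelic : Nonempty (Adelic (AlgebraicClosure ℚ)) := ⟨AdelAux.adel⟩

end Pool.Agent.MP_3827f0_nt.H92
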