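import Pool.Agent.MP_3827f0_nt.H92.AlgR

/-! Algebra of binary forms and homogeneous maps. -/

set_option autoImplicit false
set_option linter.unusedVariables false

namespace Pool.Agent.MP_3827f0_nt.H92

open MvPolynomial

section Field
variable {K K' : Type} [Field K] [Field K']

lemma vec_ne_zero_iff {X : V K} : X ≠ 0 ↔ X 0 ≠ 0 ∨ X 1 ≠ 0 := by
  constructor
  · intro h
    by_contra h'
    push Not at h'
    apply h
    funext i
    fin_cases i
    · exact h'.1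
    · exact h'.2
  · rintro (h | h) rfl <;> exact h rfl

lemma wedge_eq_zero_iff {X Y : V K} (hY : Y ≠ 0) : wedge X Y = 0 ↔ ∃ t : K, X = t • Y := by
  constructor
  · intro h
    unfold wedge at h
    rcases vec_ne_zero_iff.1 hY with h0 | h1
    · refine ⟨X 0 / Y 0, ?_⟩
      funext i
      fin_cases i
      · simp [h0]
      · simp only [Fin.mk_one, Fin.isValue, Pi.smul_apply, smul_eq_mul]
        field_simp
        linear_combination -h
    · refine ⟨X 1 / Y 1, ?_⟩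
      funext i
      fin_cases i
      · simp only [Fin.zero_eta, Fin.isValue, Pi.smul_apply, smul_eq_mul]
        field_simp
        linear_combination h
      · simp [h1]
  · rintro ⟨t, rfl⟩
    rw [wedge_smul_left, wedge_self, mul_zero]
lemma exists_smul_of_wedge {X Y : V K} (hX : X ≠ 0) (hY : Y ≠ 0) (h : wedge X Y = 0) :
    ∃ t : K, t ≠ 0 ∧ X = t • Y := by
  obtain ⟨t, ht⟩ := (wedge_eq_zero_iff hY).1 h
  refine ⟨t, ?_, ht⟩
  rintro rfl
  exact hX (by rw [ht, zero_smul])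
lemma wedge_trans {X Y Z : V K} (hY : Y ≠ 0) (h : wedge X Y = 0) (h' : wedge Y Z = 0) :
    wedge X Z = 0 := by
  obtain ⟨t, rfl⟩ := (wedge_eq_zero_iff hY).1 h
  rw [wedge_smul_left, h', mul_zero]
lemma wedge_symm {X Y : V K} (h : wedge X Y = 0) : wedge Y X = 0 := by
  rw [wedge_comm, h, neg_zero]
lemma wedge_ne_symm {X Y : V K} (h : wedge X Y ≠ 0) : wedge Y X ≠ 0 := fun h' => h (wedge_symm h')
lemma ne_zero_of_wedge_left {X Y : V K} (h : wedge X Y ≠ 0) : X ≠ 0 := by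
  rintro rfl; exact h (wedge_zero_left _)
lemma ne_zero_of_wedge_right {X Y : V K} (h : wedge X Y ≠ 0) : Y ≠ 0 := by
  rintro rfl; exact h (wedge_zero_right _)
lemma aff_ne_zero (z : K) : (![z, 1] : V K) ≠ 0 := vec_ne_zero_iff.2 (Or.inr (by simp))
lemma exists_wedge_one {X : V K} (hX : X ≠ 0) : ∃ W, wedge X W = 1 := by
  rcases vec_ne_zero_iff.1 hX with h0 | h1
  · exact ⟨![0, (X 0)⁻¹], by simp [wedge, h0]⟩
  · exact ⟨![-(X 1)⁻¹, 0], by simp [wedge, h1]⟩
lemma exists_aff {X : V K} (h : X 1 ≠ 0) : X = X 1 • ![X 0 / X 1, 1] := by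
  funext i
  fin_cases i
  · simp only [Fin.zero_eta, Fin.isValue, Pi.smul_apply, Matrix.cons_val_zero, smul_eq_mul]
    field_simp
  · simp
lemma mapV_ne_zero (φ : K →+* K') {X : V K} (hX : X ≠ 0) : mapV φ X ≠ 0 := by
  rw [vec_ne_zero_iff] at hX ⊢
  simpa [mapV] using hX
lemma mulVec_ne_zero {M : Mat K} (hM : M.det ≠ 0) {Z : V K} (hZ : Z ≠ 0) : M.mulVec Z ≠ 0 := by
  obtain ⟨W, hW⟩ := exists_wedge_one hZ
  refine ne_zero_of_wedge_left (Y := M.mulVec W) ?_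
  rw [wedge_mulVec, hW, mul_one]
  exact hM
lemma eq_zero_of_wedge {Z X W : V K} (hXW : wedge X W ≠ 0) (h1 : wedge Z X = 0)
    (h2 : wedge Z W = 0) : Z = 0 := by
  have h := wedge_three X W Z
  rw [wedge_symm h2, h1, zero_smul, zero_smul, add_zero, add_zero] at h
  exact (smul_eq_zero.1 h).resolve_left hXW
lemma Hom.wedge_app {d : ℕ} {F : PM K} (hF : Hom d F) {X Y : V K} (h : wedge X Y = 0)
    (hX : X ≠ 0) (hY : Y ≠ 0) : wedge (app F X) (app F Y) = 0 := by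
  obtain ⟨t, rfl⟩ := (wedge_eq_zero_iff hY).1 h
  rw [hF.app_smul, wedge_smul_left, wedge_self, mul_zero]
lemma Hom.wedge_iter {d : ℕ} {F : PM K} (hF : Hom d F) (n : ℕ) {X Y : V K} (h : wedge X Y = 0)
    (hX : X ≠ 0) (hY : Y ≠ 0) : wedge ((app F)^[n] X) ((app F)^[n] Y) = 0 := by
  obtain ⟨t, rfl⟩ := (wedge_eq_zero_iff hY).1 h
  rw [hF.iter_smul, wedge_smul_left, wedge_self, mul_zero]
lemma Nondeg.conj {F : PM K} (hF : Nondeg F) {M : Mat K} (hM : M.det ≠ 0) :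
    Nondeg (conj M F) := fun Z h => by
  by_contra hZ
  rw [app_conj] at h
  refine mulVec_ne_zero (M := M.adjugate) ?_ (hF.app_ne (mulVec_ne_zero hM hZ)) h
  rw [Matrix.det_adjugate]
  exact pow_ne_zero _ hM
lemma Nondeg.smul {F : PM K} (hF : Nondeg F) {c : K} (hc : c ≠ 0) : Nondeg (c • F) :=
  fun Z h => hF Z (by rw [app_smulF] at h; exact (smul_eq_zero.1 h).resolve_left hc)

/-- Three distinct points can be moved to infinity, zero and one. -/
lemma exists_frame [IsAlgClosed K] {A B E : V K} (hAB : wedge A B ≠ 0) (hAE : wedge A E ≠ 0)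
    (hBE : wedge B E ≠ 0) : ∃ M : Mat K, M.det = 1 ∧ wedge (M.mulVec ![1, 0]) A = 0 ∧
      wedge (M.mulVec ![0, 1]) B = 0 ∧ wedge (M.mulVec ![1, 1]) E = 0 := by
  have hEA : wedge E A ≠ 0 := wedge_ne_symm hAE
  obtain ⟨s, hs⟩ := IsAlgClosed.exists_eq_mul_self (wedge B E * wedge E A * wedge A B)⁻¹
  refine ⟨!![s * wedge B E * A 0, s * wedge E A * B 0; s * wedge B E * A 1, s * wedge E A * B 1],
    ?_, ?_, ?_, ?_⟩
  · rw [Matrix.det_fin_two_of]
    have h : (s * s) * (wedge B E * wedge E A * wedge A B) = 1 := by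
      rw [← hs]; exact inv_mul_cancel₀ (mul_ne_zero (mul_ne_zero hBE hEA) hAB)
    rw [← h]
    conv_rhs => rw [show wedge A B = A 0 * B 1 - A 1 * B 0 from rfl]
    ring
  · simp [wedge, mulVec_apply]; ring
  · simp [wedge, mulVec_apply]; ring
  · simp [wedge, mulVec_apply]; ring

/-- A point off a finite set of points. -/
lemma exists_aff_off [Infinite K] (S : Finset (V K)) (hS : ∀ s ∈ S, s ≠ 0) :
    ∃ z : K, ∀ s ∈ S, wedge ![z, 1] s ≠ 0 := by
  classical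
  obtain ⟨z, hz⟩ := Infinite.exists_notMem_finset (S.image fun s => s 0 / s 1)
  refine ⟨z, fun s hs h => ?_⟩
  simp only [wedge, Matrix.cons_val_zero, Matrix.cons_val_one, Matrix.cons_val_fin_one,
    one_mul] at h
  by_cases h1 : s 1 = 0
  · rw [h1, mul_zero, zero_sub, neg_eq_zero] at h
    rcases vec_ne_zero_iff.1 (hS s hs) with h' | h'
    · exact h' h
    · exact h' h1
  · apply hz
    refine Finset.mem_image.2 ⟨s, hs, ?_⟩
    field_simp
    linear_combination -h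

lemma deh_ne_zero_of {n : ℕ} {p : MvPolynomial (Fin 2) K} (hp : p.IsHomogeneous n)
    (h0 : ∃ Z, eval Z p ≠ 0) : deh p ≠ 0 := by
  intro h
  obtain ⟨Z, hZ⟩ := h0
  apply hZ
  rw [← homogenize_deh hp, h, Polynomial.homogenize_zero, map_zero]

/-- Division of a form by a linear form. -/
lemma IsForm.div {n : ℕ} {φ : V K → K} (h : IsForm (n + 1) φ) {A : V K} (hA : A ≠ 0)
    (h0 : φ A = 0) : ∃ ψ, IsForm n ψ ∧ ∀ Z, φ Z = H92.wedge Z A * ψ Z := by
  obtain ⟨p, hp, e⟩ := h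
  by_cases h1 : A 1 = 0
  · have hA0 : A 0 ≠ 0 := (vec_ne_zero_iff.1 hA).resolve_right (not_not.2 h1)
    have hAe : A = A 0 • ![1, 0] := by
      funext i; fin_cases i <;> simp [h1]
    have htop : (deh p).coeff (n + 1) = 0 := by
      rw [coeff_deh_top hp]
      rw [e, hAe, eval_smul_of_hom hp] at h0
      exact (mul_eq_zero.1 h0).resolve_left (pow_ne_zero _ hA0)
    have hdeg : (deh p).natDegree ≤ n := by
      rw [Polynomial.natDegree_le_iff_coeff_eq_zero]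
      intro N hN
      rcases Nat.eq_or_lt_of_le (Nat.succ_le_of_lt hN) with h' | h'
      · rw [← h']; exact htop
      · exact Polynomial.coeff_eq_zero_of_natDegree_lt ((natDegree_deh_le hp).trans_lt h')
    have hpe : p = X 1 * (deh p).homogenize n := by
      conv_lhs => rw [← homogenize_deh hp, ← one_mul (deh p), add_comm n 1]
      rw [Polynomial.homogenize_mul _ _ (by simp) hdeg]
      simp
    refine ⟨fun Z => -(A 0)⁻¹ * eval Z ((deh p).homogenize n),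
      IsForm.const_mul ⟨_, Polynomial.isHomogeneous_homogenize _, fun _ => rfl⟩ _, fun Z => ?_⟩
    rw [e]
    conv_lhs => rw [hpe]
    simp only [map_mul, eval_X, H92.wedge, h1]
    field_simp
    ring
  · have hr : (deh p).IsRoot (A 0 / A 1) := by
      rw [Polynomial.IsRoot, eval_deh]
      rw [e, exists_aff h1, eval_smul_of_hom hp] at h0
      exact (mul_eq_zero.1 h0).resolve_left (pow_ne_zero _ h1)
    obtain ⟨q, hq⟩ := Polynomial.dvd_iff_isRoot.2 hr
    have hdeg : q.natDegree ≤ n := by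
      by_cases hq0 : q = 0
      · simp [hq0]
      · have := natDegree_deh_le hp
        rw [hq, Polynomial.natDegree_mul (Polynomial.X_sub_C_ne_zero _) hq0,
          Polynomial.natDegree_X_sub_C] at this
        omega
    have hpe : p = (X 0 - C (A 0 / A 1) * X 1) * q.homogenize n := by
      conv_lhs => rw [← homogenize_deh hp, hq, add_comm n 1]
      rw [Polynomial.homogenize_mul _ _ (by simp) hdeg]
      simp [Polynomial.homogenize_sub]
    refine ⟨fun Z => (A 1)⁻¹ * eval Z (q.homogenize n),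
      IsForm.const_mul ⟨_, Polynomial.isHomogeneous_homogenize _, fun _ => rfl⟩ _, fun Z => ?_⟩
    rw [e]
    conv_lhs => rw [hpe]
    simp only [map_mul, map_sub, eval_X, eval_C, H92.wedge]
    field_simp

lemma IsForm.exists_root [IsAlgClosed K] {n : ℕ} (hn : 0 < n) {φ : V K → K} (h : IsForm n φ) :
    ∃ Z, Z ≠ 0 ∧ φ Z = 0 := by
  obtain ⟨p, hp, e⟩ := h
  by_cases htop : eval ![1, 0] p = 0
  · exact ⟨![1, 0], vec_ne_zero_iff.2 (Or.inl (by simp)), by rw [e, htop]⟩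
  · rw [← coeff_deh_top hp] at htop
    have hdeg : (deh p).degree ≠ 0 := by
      have := Polynomial.le_degree_of_ne_zero htop
      intro h0
      rw [h0] at this
      exact absurd (by exact_mod_cast this : n ≤ 0) (by omega)
    obtain ⟨z, hz⟩ := IsAlgClosed.exists_root _ hdeg
    exact ⟨![z, 1], aff_ne_zero z, by rw [e, ← eval_deh]; exact hz⟩

lemma IsForm.zero_const {φ : V K → K} (h : IsForm 0 φ) (Z W : V K) : φ Z = φ W := by
  obtain ⟨p, hp, e⟩ := h
  rw [e, e, eval_eq_sum_mo hp, eval_eq_sum_mo hp]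
  simp

lemma IsForm.factor' [IsAlgClosed K] {n : ℕ} {φ : V K → K} (h : IsForm n φ) (h0 : ∃ Z, φ Z ≠ 0) :
    ∃ (c : K) (A : Fin n → V K), c ≠ 0 ∧ (∀ i, A i ≠ 0) ∧ ∀ Z, φ Z = c * ∏ i, H92.wedge Z (A i) := by
  induction n generalizing φ with
  | zero =>
    obtain ⟨W, hW⟩ := h0
    exact ⟨φ W, fun i => i.elim0, hW, fun i => i.elim0, fun Z => by simp [h.zero_const Z W]⟩
  | succ n ih =>
    obtain ⟨A, hA, hA0⟩ := h.exists_root (Nat.succ_pos n)
    obtain ⟨ψ, hψ, e⟩ := h.div hA hA0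
    obtain ⟨c, B, hc, hB, e'⟩ := ih hψ (by
      obtain ⟨Z, hZ⟩ := h0
      exact ⟨Z, fun h' => hZ (by rw [e, h', mul_zero])⟩)
    refine ⟨c, Fin.cons A B, hc, fun i => ?_, fun Z => ?_⟩
    · refine Fin.cases ?_ (fun j => ?_) i
      · simpa using hA
      · simpa using hB j
    · rw [e, e', Fin.prod_univ_succ]
      simp only [Fin.cons_zero, Fin.cons_succ]
      ring
lemma IsForm.factor [IsAlgClosed K] {n : ℕ} (hn : 0 < n) {φ : V K → K} (h : IsForm n φ)
    (h0 : ∃ Z, φ Z ≠ 0) :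
    ∃ A : Fin n → V K, (∀ i, A i ≠ 0) ∧ ∀ Z, φ Z = ∏ i, H92.wedge Z (A i) := by
  obtain ⟨c, A, hc, hA, e⟩ := h.factor' h0
  obtain ⟨s, hs⟩ := IsAlgClosed.exists_pow_nat_eq c hn
  have hs0 : s ≠ 0 := by
    rintro rfl
    rw [zero_pow hn.ne'] at hs
    exact hc hs.symm
  refine ⟨fun i => s • A i, fun i => smul_ne_zero hs0 (hA i), fun Z => ?_⟩
  simp only [wedge_smul_right, Finset.prod_mul_distrib, Finset.prod_const, Finset.card_univ,
    Fintype.card_fin, hs, e]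
lemma IsForm.roots [IsAlgClosed K] {n : ℕ} {φ : V K → K} (h : IsForm n φ) (h0 : ∃ Z, φ Z ≠ 0) :
    ∃ S : Finset (V K), S.card ≤ n ∧ (∀ s ∈ S, s ≠ 0 ∧ φ s = 0) ∧
      ∀ Z, φ Z = 0 → ∃ s ∈ S, H92.wedge Z s = 0 := by
  classical
  obtain ⟨c, A, hc, hA, e⟩ := h.factor' h0
  refine ⟨Finset.univ.image A, Finset.card_image_le.trans (by simp), fun s hs => ?_,
    fun Z hZ => ?_⟩
  · obtain ⟨i, -, rfl⟩ := Finset.mem_image.1 hs
    refine ⟨hA i, ?_⟩
    rw [e, Finset.prod_eq_zero (Finset.mem_univ i) (wedge_self _), mul_zero]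
  · rw [e] at hZ
    obtain ⟨i, -, hi⟩ := Finset.prod_eq_zero_iff.1 ((mul_eq_zero.1 hZ).resolve_left hc)
    exact ⟨A i, Finset.mem_image_of_mem _ (Finset.mem_univ i), hi⟩
lemma IsForm.aff_roots [IsAlgClosed K] {n : ℕ} {φ : V K → K} (h : IsForm n φ)
    (h0 : ∃ Z, φ Z ≠ 0) : ∃ S : Finset K, S.card ≤ n ∧ ∀ z, φ ![z, 1] = 0 ↔ z ∈ S := by
  classical
  obtain ⟨p, hp, e⟩ := h
  have hne : deh p ≠ 0 := deh_ne_zero_of hp (by simpa only [e] using h0)
  refine ⟨(deh p).roots.toFinset, (Multiset.toFinset_card_le _).trans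
    ((Polynomial.card_roots' _).trans (natDegree_deh_le hp)), fun z => ?_⟩
  rw [Multiset.mem_toFinset, Polynomial.mem_roots hne, Polynomial.IsRoot, eval_deh, e]

variable {d : ℕ} {F : PM K}

lemma exists_wedge_app_ne [IsAlgClosed K] (hd : 0 < d) (hF : Hom d F) (hN : Nondeg F) {Y : V K}
    (hY : Y ≠ 0) : ∃ Z, wedge (app F Z) Y ≠ 0 := by
  by_contra h
  push Not at h
  obtain ⟨W, hW⟩ := exists_wedge_one hY
  obtain ⟨Z, hZ, h0⟩ := (hF.isForm_wedge W).exists_root hd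
  exact hZ (hN Z (eq_zero_of_wedge (by rw [hW]; exact one_ne_zero) (h Z) h0))
lemma app_surj [IsAlgClosed K] (hd : 0 < d) (hF : Hom d F) (hN : Nondeg F) {Y : V K}
    (hY : Y ≠ 0) : ∃ Z, Z ≠ 0 ∧ app F Z = Y := by
  obtain ⟨Z, hZ, h0⟩ := (hF.isForm_wedge Y).exists_root hd
  obtain ⟨t, ht, e⟩ := exists_smul_of_wedge (hN.app_ne hZ) hY h0
  obtain ⟨s, hs⟩ := IsAlgClosed.exists_pow_nat_eq t⁻¹ hd
  have hs0 : s ≠ 0 := by
    rintro rfl
    rw [zero_pow hd.ne'] at hs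
    exact inv_ne_zero ht hs.symm
  refine ⟨s • Z, smul_ne_zero hs0 hZ, ?_⟩
  rw [hF.app_smul, hs, e, smul_smul, inv_mul_cancel₀ ht, one_smul]
lemma exists_fact [IsAlgClosed K] (hd : 0 < d) (hF : Hom d F) (hN : Nondeg F) {Y : V K}
    (hY : Y ≠ 0) : ∃ (Ys : Fin d → V K) (lam : Fin d → K), Fact d F Y Ys lam ∧
      (∀ j, Ys j ≠ 0) ∧ ∀ j, lam j ≠ 0 := by
  obtain ⟨Ys, hYs, e⟩ := (hF.isForm_wedge Y).factor hd (exists_wedge_app_ne hd hF hN hY)
  have h : ∀ j, ∃ t : K, t ≠ 0 ∧ app F (Ys j) = t • Y := fun j =>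
    exists_smul_of_wedge (hN.app_ne (hYs j)) hY
      ((e _).trans (Finset.prod_eq_zero (Finset.mem_univ j) (wedge_self _)))
  choose lam h1 h2 using h
  exact ⟨Ys, lam, ⟨e, h2⟩, hYs, h1⟩
/-- The points of a finite set have finitely many preimages under the n-th iterate. -/
lemma exists_preimages [IsAlgClosed K] (hd : 0 < d) (hF : Hom d F) (hN : Nondeg F) (n : ℕ)
    (S : Finset (V K)) (hS : ∀ s ∈ S, s ≠ 0) : ∃ T : Finset (V K), T.card ≤ S.card * d ^ n ∧
      (∀ t ∈ T, t ≠ 0) ∧ ∀ Z, (∃ s ∈ S, wedge ((app F)^[n] Z) s = 0) → ∃ t ∈ T, wedge Z t = 0 := by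
  classical
  have h : ∀ s : V K, ∃ T : Finset (V K), s ≠ 0 → T.card ≤ d ^ n ∧ (∀ t ∈ T, t ≠ 0) ∧
      ∀ Z, wedge ((app F)^[n] Z) s = 0 → ∃ t ∈ T, wedge Z t = 0 := by
    intro s
    by_cases hs : s = 0
    · exact ⟨∅, fun h => absurd hs h⟩
    · obtain ⟨T, h1, h2, h3⟩ := ((hF.itr n).isForm_wedge s).roots
        (exists_wedge_app_ne (pow_pos hd n) (hF.itr n) (hN.itr n) hs)
      exact ⟨T, fun _ => ⟨h1, fun t ht => (h2 t ht).1, fun Z hZ => h3 Z (by rwa [app_itr])⟩⟩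
  choose T hT using h
  refine ⟨S.biUnion T, ?_, fun t ht => ?_, fun Z ⟨s, hs, hZ⟩ => ?_⟩
  · exact Finset.card_biUnion_le_card_mul _ _ _ fun s hs => (hT s (hS s hs)).1
  · obtain ⟨s, hs, ht⟩ := Finset.mem_biUnion.1 ht
    exact (hT s (hS s hs)).2.1 t ht
  · obtain ⟨t, ht, h0⟩ := (hT s (hS s hs)).2.2 Z hZ
    exact ⟨t, Finset.mem_biUnion.2 ⟨s, hs, ht⟩, h0⟩
lemma Fact.prod_eq_aux {Y Y' : V K} {Ys Ys' : Fin d → V K} {lam lam' : Fin d → K}
    (hYY : wedge Y Y' ≠ 0) (h : Fact d F Y Ys lam) (h' : Fact d F Y' Ys' lam') :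
    ∏ j, lam j = ∏ j, lam' j := by
  have e1 : (∏ j, lam j) * wedge Y Y' ^ d = ∏ j, ∏ k, wedge (Ys j) (Ys' k) := by
    rw [← Finset.prod_congr rfl fun j _ => h'.1 (Ys j)]
    simp only [h.2, wedge_smul_left, Finset.prod_mul_distrib, Finset.prod_const, Finset.card_univ,
      Fintype.card_fin]
  have e2 : (∏ j, lam' j) * wedge Y' Y ^ d = ∏ k, ∏ j, wedge (Ys' k) (Ys j) := by
    rw [← Finset.prod_congr rfl fun j _ => h.1 (Ys' j)]
    simp only [h'.2, wedge_smul_left, Finset.prod_mul_distrib, Finset.prod_const, Finset.card_univ,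
      Fintype.card_fin]
  have e3 : ∏ k, ∏ j, wedge (Ys' k) (Ys j) = (-1) ^ d * ∏ j, ∏ k, wedge (Ys j) (Ys' k) := by
    rw [Finset.prod_comm]
    have : ∀ j k, wedge (Ys' k) (Ys j) = (-1) * wedge (Ys j) (Ys' k) := fun j k => by
      rw [wedge_comm]; ring
    simp only [this, Finset.prod_mul_distrib, Finset.prod_const, Finset.card_univ,
      Fintype.card_fin]
    congr 1
    rcases Nat.even_or_odd d with hd | hd
    · rw [hd.neg_one_pow, one_pow]
    · rw [hd.neg_one_pow, hd.neg_one_pow]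
  rw [e3, ← e1, wedge_comm Y' Y, neg_pow] at e2
  have hne : (-1 : K) ^ d * wedge Y Y' ^ d ≠ 0 :=
    mul_ne_zero (pow_ne_zero _ (by simp)) (pow_ne_zero _ hYY)
  apply mul_right_cancel₀ hne
  linear_combination -e2
lemma Fact.prod_eq [IsAlgClosed K] {Y Y' : V K} {Ys Ys' : Fin d → V K} {lam lam' : Fin d → K}
    (hY : Y ≠ 0) (hY' : Y' ≠ 0) (hd : 0 < d) (hF : Hom d F) (hN : Nondeg F)
    (h : Fact d F Y Ys lam) (h' : Fact d F Y' Ys' lam') : ∏ j, lam j = ∏ j, lam' j := by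
  by_cases hYY : wedge Y Y' = 0
  · obtain ⟨W, hW⟩ := exists_wedge_one hY
    have hW0 : wedge Y W ≠ 0 := by rw [hW]; exact one_ne_zero
    have hW1 : wedge Y' W ≠ 0 := fun h0 => hW0 (wedge_trans hY' hYY h0)
    obtain ⟨Ws, mu, hm, -, -⟩ := exists_fact hd hF hN (ne_zero_of_wedge_right hW0)
    rw [h.prod_eq_aux hW0 hm, h'.prod_eq_aux hW1 hm]
  · exact h.prod_eq_aux hYY h'
lemma Fact.nondeg (hF : Hom d F) {Y : V K} (hY : Y ≠ 0) {Ys : Fin d → V K} {lam : Fin d → K}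
    (h : Fact d F Y Ys lam) (hl : ∀ j, lam j ≠ 0) : Nondeg F := fun Z hZ => by
  by_contra hZ0
  have h1 := h.1 Z
  rw [hZ, wedge_zero_left] at h1
  obtain ⟨j, -, hj⟩ := Finset.prod_eq_zero_iff.1 h1.symm
  obtain ⟨t, ht⟩ := (wedge_eq_zero_iff hZ0).1 (wedge_symm hj)
  have h2 := h.2 j
  rw [ht, hF.app_smul, hZ, smul_zero] at h2
  exact smul_ne_zero (hl j) hY h2.symm
lemma ne_zero_of_prod_eq_one {lam : Fin d → K} (h : ∏ j, lam j = 1) (j : Fin d) : lam j ≠ 0 :=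
  fun h0 => by
    rw [Finset.prod_eq_zero (Finset.mem_univ j) h0] at h
    exact zero_ne_one h
lemma Normal.nondeg (h : Normal d F) (hd : 0 < d) : Nondeg F := by
  obtain ⟨Ys, lam, hf, h1⟩ := h.2 _ (aff_ne_zero (0 : K))
  exact hf.nondeg h.1 (aff_ne_zero 0) (ne_zero_of_prod_eq_one h1)
lemma normal_of_fact [IsAlgClosed K] (hd : 0 < d) (hF : Hom d F) {Y : V K} (hY : Y ≠ 0)
    {Ys : Fin d → V K} {lam : Fin d → K} (h : Fact d F Y Ys lam) (h1 : ∏ j, lam j = 1) :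
    Normal d F := by
  have hN := h.nondeg hF hY (ne_zero_of_prod_eq_one h1)
  refine ⟨hF, fun W hW => ?_⟩
  obtain ⟨Ws, mu, hm, -, -⟩ := exists_fact hd hF hN hW
  exact ⟨Ws, mu, hm, (hm.prod_eq hW hY hd hF hN h).trans h1⟩
lemma Normal.prod_eq_one [IsAlgClosed K] (h : Normal d F) (hd : 0 < d) {Y : V K} (hY : Y ≠ 0)
    {Ys : Fin d → V K} {lam : Fin d → K} (hf : Fact d F Y Ys lam) : ∏ j, lam j = 1 := by
  obtain ⟨Ws, mu, hm, h1⟩ := h.2 Y hY
  exact (hf.prod_eq hY hY hd h.1 (h.nondeg hd) hm).trans h1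
lemma exists_normal [IsAlgClosed K] (hd : 0 < d) (hF : Hom d F) (hN : Nondeg F) :
    ∃ c : K, c ≠ 0 ∧ Normal d (c • F) := by
  obtain ⟨Ys, lam, hf, -, hl⟩ := exists_fact hd hF hN (aff_ne_zero (0 : K))
  have hL : ∏ j, lam j ≠ 0 := Finset.prod_ne_zero_iff.2 fun j _ => hl j
  have hpos : 0 < 2 * d * d := by positivity
  obtain ⟨s, hs⟩ := IsAlgClosed.exists_pow_nat_eq (∏ j, lam j)⁻¹ hpos
  have hs0 : s ≠ 0 := by
    rintro rfl
    rw [zero_pow hpos.ne'] at hs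
    exact inv_ne_zero hL hs.symm
  refine ⟨s ^ d, pow_ne_zero _ hs0, normal_of_fact hd (hF.smul _) (aff_ne_zero (0 : K))
    (Ys := fun j => s • Ys j) (lam := fun j => s ^ (2 * d) * lam j) ⟨fun Z => ?_, fun j => ?_⟩ ?_⟩
  · simp only [app_smulF, wedge_smul_left, wedge_smul_right, hf.1, Finset.prod_mul_distrib,
      Finset.prod_const, Finset.card_univ, Fintype.card_fin]
  · rw [app_smulF, hF.app_smul, hf.2, smul_smul, smul_smul, two_mul, pow_add]
  · rw [Finset.prod_mul_distrib, Finset.prod_const, Finset.card_univ, Fintype.card_fin, ← pow_mul,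
      hs, inv_mul_cancel₀ hL]
lemma Normal.conj [IsAlgClosed K] (h : Normal d F) (hd : 0 < d) {M : Mat K} (hM : M.det = 1) :
    Normal d (conj M F) := by
  refine ⟨h.1.conj M, fun Y hY => ?_⟩
  have hM0 : M.det ≠ 0 := by rw [hM]; exact one_ne_zero
  have hadj : ∀ Z, M.mulVec (M.adjugate.mulVec Z) = Z := fun Z => by
    rw [Matrix.mulVec_mulVec, Matrix.mul_adjugate, hM, one_smul, Matrix.one_mulVec]
  have hadj' : ∀ Z, M.adjugate.mulVec (M.mulVec Z) = Z := fun Z => by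
    rw [Matrix.mulVec_mulVec, Matrix.adjugate_mul, hM, one_smul, Matrix.one_mulVec]
  have hw : ∀ X Y, wedge (M.mulVec X) (M.mulVec Y) = wedge X Y := fun X Y => by
    rw [wedge_mulVec, hM, one_mul]
  obtain ⟨Ys, lam, hf, h1⟩ := h.2 _ (mulVec_ne_zero hM0 hY)
  refine ⟨fun j => M.adjugate.mulVec (Ys j), lam, ⟨fun Z => ?_, fun j => ?_⟩, h1⟩
  · rw [← hw, mulVec_app_conj hM, hf.1]
    exact Finset.prod_congr rfl fun j _ => by rw [← hw Z, hadj]
  · rw [app_conj, hadj, hf.2, Matrix.mulVec_smul, hadj']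
lemma prod_wedge_mapF [Infinite K] {n : ℕ} (φ : K →+* K') (p : MvPolynomial (Fin 2) K)
    (A : Fin n → V K) (h : ∀ Z, eval Z p = ∏ j, wedge Z (A j)) (Z : V K') :
    eval Z (map φ p) = ∏ j, wedge Z (mapV φ (A j)) := by
  have hp : p = ∏ j, (C (A j 1) * X 0 - C (A j 0) * X 1) := by
    apply MvPolynomial.funext
    intro W
    rw [h, map_prod]
    refine Finset.prod_congr rfl fun j _ => ?_
    simp only [wedge, map_sub, map_mul, eval_C, eval_X]
    ring
  rw [hp, map_prod, map_prod]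
  refine Finset.prod_congr rfl fun j _ => ?_
  simp only [wedge, mapV, map_sub, map_mul, map_C, map_X, eval_C, eval_X]
  ring
lemma Fact.mapF [Infinite K] (φ : K →+* K') {Y : V K} {Ys : Fin d → V K} {lam : Fin d → K}
    (h : Fact d F Y Ys lam) :
    Fact d (mapF φ F) (mapV φ Y) (fun j => mapV φ (Ys j)) fun j => φ (lam j) := by
  refine ⟨fun Z => ?_, fun j => ?_⟩
  · rw [← prod_wedge_mapF φ (C (Y 1) * F 0 - C (Y 0) * F 1) Ys (fun W => ?_) Z]
    · simp only [wedge, app, H92.mapF, mapV, map_sub, map_mul, map_C, eval_C]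
      ring
    · rw [← h.1]
      simp only [wedge, app, map_sub, map_mul, eval_C]
      ring
  · rw [app_mapF, h.2, mapV_smul]
lemma Normal.mapF [IsAlgClosed K] [IsAlgClosed K'] (h : Normal d F) (hd : 0 < d) (φ : K →+* K') :
    Normal d (mapF φ F) := by
  obtain ⟨Ys, lam, hf, h1⟩ := h.2 _ (aff_ne_zero (0 : K))
  refine normal_of_fact hd (h.1.mapF φ) (mapV_ne_zero φ (aff_ne_zero (0 : K))) (hf.mapF φ) ?_
  rw [← map_prod, h1, map_one]
lemma Nondeg.mapF [IsAlgClosed K] (hd : 0 < d) (hF : Hom d F) (hN : Nondeg F) (φ : K →+* K') :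
    Nondeg (mapF φ F) := by
  obtain ⟨Ys, lam, hf, -, hl⟩ := exists_fact hd hF hN (aff_ne_zero (0 : K))
  exact (hf.mapF φ).nondeg (hF.mapF φ) (mapV_ne_zero φ (aff_ne_zero (0 : K)))
    fun j => (map_ne_zero φ).2 (hl j)
lemma Nondeg.of_mapF (φ : K →+* K') (h : Nondeg (H92.mapF φ F)) : Nondeg F := fun Z hZ => by
  by_contra h0
  refine h.app_ne (mapV_ne_zero φ h0) ?_
  rw [app_mapF, hZ]
  funext i
  simp [mapV]
lemma Normal.of_mapF [IsAlgClosed K] [IsAlgClosed K'] (hd : 0 < d) (hF : Hom d F) (φ : K →+* K')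
    (h : Normal d (H92.mapF φ F)) : Normal d F := by
  have hN : Nondeg F := (h.nondeg hd).of_mapF φ
  obtain ⟨Ys, lam, hf, -, -⟩ := exists_fact hd hF hN (aff_ne_zero (0 : K))
  refine normal_of_fact hd hF (aff_ne_zero (0 : K)) hf ?_
  have := h.prod_eq_one hd (mapV_ne_zero φ (aff_ne_zero (0 : K))) (hf.mapF φ)
  rw [← map_prod] at this
  exact φ.injective (this.trans (map_one φ).symm)
lemma jac_factor_mapF [Infinite K] {n : ℕ} (φ : K →+* K') (A : Fin n → V K)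
    (h : ∀ Z, jac F Z = ∏ j, wedge Z (A j)) (Z : V K') :
    jac (mapF φ F) Z = ∏ j, wedge Z (mapV φ (A j)) := by
  rw [jac, jacP_mapF]
  exact prod_wedge_mapF φ (jacP F) A h Z
lemma isCoprime_deh [IsAlgClosed K] (hN : Nondeg F) : IsCoprime (deh (F 0)) (deh (F 1)) := by
  rw [Polynomial.isCoprime_iff_aeval_ne_zero_of_isAlgClosed K K]
  intro z
  by_contra h
  push Not at h
  refine hN.app_ne (aff_ne_zero z) ?_
  funext i
  fin_cases i
  · simpa [app, eval_deh] using h.1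
  · simpa [app, eval_deh] using h.2
lemma exists_jac_ne [IsAlgClosed K] [CharZero K] (hd : 0 < d) (hF : Hom d F) (hN : Nondeg F) :
    ∃ Z, jac F Z ≠ 0 := by
  by_contra h
  push Not at h
  have hw : Polynomial.wronskian (deh (F 0)) (deh (F 1)) = 0 := by
    apply Polynomial.funext
    intro z
    have h1 := h ![z, 1]
    rw [jac_aff hF] at h1
    have h2 := (mul_eq_zero.1 h1).resolve_left (by exact_mod_cast hd.ne')
    simp only [wr, Polynomial.wronskian, Polynomial.eval_sub, Polynomial.eval_mul,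
      Polynomial.eval_zero] at h2 ⊢
    linear_combination -h2
  obtain ⟨h0, h1⟩ := (isCoprime_deh hN).wronskian_eq_zero_iff.1 hw
  have key : ∀ i, Polynomial.derivative (deh (F i)) = 0 → eval ![1, 0] (F i) = 0 := fun i hi => by
    rw [← coeff_deh_top (hF i)]
    apply Polynomial.coeff_eq_zero_of_natDegree_lt
    rw [Polynomial.derivative_eq_zero.1 hi]
    exact hd
  refine hN.app_ne (Z := ![1, 0]) (vec_ne_zero_iff.2 (Or.inl (by simp))) ?_
  funext i
  fin_cases i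
  · exact key 0 h0
  · exact key 1 h1
lemma exists_jac_factor [IsAlgClosed K] [CharZero K] (hd : 2 ≤ d) (hF : Hom d F) (hN : Nondeg F) :
    ∃ Cs : Fin (2 * d - 2) → V K, (∀ j, Cs j ≠ 0) ∧ ∀ Z, jac F Z = ∏ j, wedge Z (Cs j) :=
  hF.isForm_jac.factor (by omega) (exists_jac_ne (by omega) hF hN)
lemma deh_ne_zero [IsAlgClosed K] (hd : 0 < d) (hF : Hom d F) (hN : Nondeg F) (i : Fin 2) :
    deh (F i) ≠ 0 := by
  refine deh_ne_zero_of (hF i) ?_
  fin_cases i
  · obtain ⟨Z, hZ⟩ := exists_wedge_app_ne hd hF hN (aff_ne_zero (0 : K))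
    exact ⟨Z, by simpa [wedge, app] using hZ⟩
  · obtain ⟨Z, hZ⟩ := exists_wedge_app_ne hd hF hN (Y := ![1, 0])
      (vec_ne_zero_iff.2 (Or.inl (by simp)))
    exact ⟨Z, by simpa [wedge, app] using hZ⟩

end Field

end Pool.Agent.MP_3827f0_nt.H92
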