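import Pool.Agent.MP_3827f0_nt.H92.Defs

/-! Algebra of binary forms and homogeneous maps over a ring. -/

set_option autoImplicit false

namespace Pool.Agent.MP_3827f0_nt.H92

open MvPolynomial

section Ring
variable {R S : Type} [CommRing R] [CommRing S]

@[simp] lemma wedge_self (X : V R) : wedge X X = 0 := by unfold wedge; ring
lemma wedge_comm (X Y : V R) : wedge X Y = - wedge Y X := by unfold wedge; ring
@[simp] lemma wedge_zero_left (X : V R) : wedge 0 X = 0 := by simp [wedge]
@[simp] lemma wedge_zero_right (X : V R) : wedge X 0 = 0 := by simp [wedge]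
lemma wedge_smul_left (t : R) (X Y : V R) : wedge (t • X) Y = t * wedge X Y := by
  simp only [wedge, Pi.smul_apply, smul_eq_mul]; ring
lemma wedge_smul_right (t : R) (X Y : V R) : wedge X (t • Y) = t * wedge X Y := by
  simp only [wedge, Pi.smul_apply, smul_eq_mul]; ring
lemma wedge_add_left (X X' Y : V R) : wedge (X + X') Y = wedge X Y + wedge X' Y := by
  simp only [wedge, Pi.add_apply]; ring
lemma wedge_add_right (X Y Y' : V R) : wedge X (Y + Y') = wedge X Y + wedge X Y' := by
  simp only [wedge, Pi.add_apply]; ring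
lemma mulVec_apply (M : Mat R) (X : V R) (i : Fin 2) :
    M.mulVec X i = M i 0 * X 0 + M i 1 * X 1 := by
  simp [Matrix.mulVec, dotProduct, Fin.sum_univ_two]
lemma wedge_mulVec (M : Mat R) (X Y : V R) :
    wedge (M.mulVec X) (M.mulVec Y) = M.det * wedge X Y := by
  simp only [wedge, mulVec_apply, Matrix.det_fin_two]; ring
lemma wedge_three (X Y Z : V R) : wedge X Y • Z + wedge Y Z • X + wedge Z X • Y = 0 := by
  funext i
  fin_cases i <;> simp [wedge] <;> ring
lemma wedge_aff (x y : R) : wedge ![x, 1] ![y, 1] = x - y := by simp [wedge]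
lemma wedge_mapV (φ : R →+* S) (X Y : V R) : wedge (mapV φ X) (mapV φ Y) = φ (wedge X Y) := by
  simp [wedge, mapV]
lemma mapV_aff (φ : R →+* S) (x y : R) : mapV φ ![x, y] = ![φ x, φ y] := by
  funext i; fin_cases i <;> simp [mapV]
lemma mapV_smul (φ : R →+* S) (t : R) (X : V R) : mapV φ (t • X) = φ t • mapV φ X := by
  funext i; simp [mapV]

lemma eval_bind (G : PM R) (p : MvPolynomial (Fin 2) R) (Z : V R) :
    eval Z (bind₁ G p) = eval (app G Z) p := by
  have := eval₂Hom_bind₁ (RingHom.id R) Z G p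
  have h2 : eval Z (bind₁ G p) = eval (fun i => eval Z (G i)) p := by simpa using this
  exact h2

lemma app_comp (F G : PM R) (Z : V R) : app (comp F G) Z = app F (app G Z) := by
  funext i; exact eval_bind G (F i) Z
lemma app_lin (M : Mat R) (Z : V R) : app (lin M) Z = M.mulVec Z := by
  funext i; simp [app, lin, mulVec_apply, Fin.sum_univ_two]
lemma app_itr (F : PM R) (n : ℕ) (Z : V R) : app (itr F n) Z = (app F)^[n] Z := by
  induction n with
  | zero => funext i; simp [app, itr]
  | succ n ih => rw [itr, app_comp, ih, Function.iterate_succ_apply']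
lemma app_conj (M : Mat R) (F : PM R) (Z : V R) :
    app (conj M F) Z = M.adjugate.mulVec (app F (M.mulVec Z)) := by
  rw [conj, app_comp, app_comp, app_lin, app_lin]
lemma mulVec_app_conj {M : Mat R} (hM : M.det = 1) (F : PM R) (Z : V R) :
    M.mulVec (app (conj M F) Z) = app F (M.mulVec Z) := by
  rw [app_conj, Matrix.mulVec_mulVec, Matrix.mul_adjugate, hM, one_smul, Matrix.one_mulVec]
lemma mulVec_iter_conj {M : Mat R} (hM : M.det = 1) (F : PM R) (n : ℕ) (Z : V R) :
    M.mulVec ((app (conj M F))^[n] Z) = (app F)^[n] (M.mulVec Z) := by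
  induction n with
  | zero => rfl
  | succ n ih => rw [Function.iterate_succ_apply', Function.iterate_succ_apply',
      mulVec_app_conj hM, ih]
lemma app_smulF (c : R) (F : PM R) (Z : V R) : app (c • F) Z = c • app F Z := by
  funext i; simp [app, smul_eval]
lemma eval_map_mapV (φ : R →+* S) (p : MvPolynomial (Fin 2) R) (Z : V R) :
    eval (mapV φ Z) (map φ p) = φ (eval Z p) := by
  rw [eval_map, ← eval₂_id, eval₂_comp_left]
  rfl
lemma app_mapF (φ : R →+* S) (F : PM R) (Z : V R) :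
    app (mapF φ F) (mapV φ Z) = mapV φ (app F Z) := by
  funext i; exact eval_map_mapV φ (F i) Z
lemma iter_mapF (φ : R →+* S) (F : PM R) (n : ℕ) (Z : V R) :
    (app (mapF φ F))^[n] (mapV φ Z) = mapV φ ((app F)^[n] Z) := by
  induction n with
  | zero => rfl
  | succ n ih => rw [Function.iterate_succ_apply', Function.iterate_succ_apply', ih, app_mapF]
lemma jacP_mapF (φ : R →+* S) (F : PM R) : jacP (mapF φ F) = map φ (jacP F) := by
  simp [jacP, mapF, pderiv_map]
lemma jac_mapF (φ : R →+* S) (F : PM R) (Z : V R) :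
    jac (mapF φ F) (mapV φ Z) = φ (jac F Z) := by
  rw [jac, jacP_mapF, eval_map_mapV]; rfl
lemma mapF_mapF {T : Type} [CommRing T] (φ : R →+* S) (ψ : S →+* T) (F : PM R) :
    mapF ψ (mapF φ F) = mapF (ψ.comp φ) F := by
  funext i; simp [mapF, map_map]
lemma mapF_comp (φ : R →+* S) (F G : PM R) :
    mapF φ (comp F G) = comp (mapF φ F) (mapF φ G) := by
  funext i; simp only [mapF, comp, map_bind₁]; rfl
lemma mapF_lin (φ : R →+* S) (M : Mat R) : mapF φ (lin M) = lin (M.map φ) := by
  funext i; simp [mapF, lin]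
lemma mapF_conj (φ : R →+* S) (M : Mat R) (F : PM R) :
    mapF φ (conj M F) = conj (M.map φ) (mapF φ F) := by
  rw [conj, conj, mapF_comp, mapF_comp, mapF_lin, mapF_lin]
  congr 2
  exact φ.map_adjugate M
lemma mapF_smul (φ : R →+* S) (c : R) (F : PM R) : mapF φ (c • F) = φ c • mapF φ F := by
  funext i; simp [mapF, smul_eq_C_mul]

lemma degree_two (m : Fin 2 →₀ ℕ) : m.degree = m 0 + m 1 := by
  rw [Finsupp.degree_eq_sum, Fin.sum_univ_two]

lemma mo_zero (d k : ℕ) : mo d k 0 = k := by simp [mo]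
lemma mo_one (d k : ℕ) : mo d k 1 = d - k := by simp [mo]

lemma hom_sum {d : ℕ} {p : MvPolynomial (Fin 2) R} (hp : p.IsHomogeneous d) {m : Fin 2 →₀ ℕ}
    (hm : coeff m p ≠ 0) : m 0 + m 1 = d := by
  by_contra h
  exact hm (hp.coeff_eq_zero (by rw [degree_two]; exact h))

lemma exists_mo {d : ℕ} {p : MvPolynomial (Fin 2) R} (hp : p.IsHomogeneous d) {m : Fin 2 →₀ ℕ}
    (hm : coeff m p ≠ 0) : ∃ k ≤ d, m = mo d k := by
  have h := hom_sum hp hm
  refine ⟨m 0, by omega, ?_⟩
  ext i
  fin_cases i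
  · simp [mo]
  · simp [mo]; omega

lemma eq_sum_mo {d : ℕ} {p : MvPolynomial (Fin 2) R} (hp : p.IsHomogeneous d) :
    p = ∑ k ∈ Finset.range (d + 1), monomial (mo d k) (coeff (mo d k) p) := by
  classical
  ext m
  rw [coeff_sum]
  simp only [coeff_monomial]
  by_cases hm : coeff m p = 0
  · rw [hm]
    refine (Finset.sum_eq_zero fun k _ => ?_).symm
    split_ifs with h
    · rw [h, hm]
    · rfl
  · obtain ⟨k, hk, rfl⟩ := exists_mo hp hm
    rw [Finset.sum_eq_single k]
    · simp
    · intro j _ hj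
      rw [if_neg]
      intro h
      apply hj
      have := congrArg (fun m : Fin 2 →₀ ℕ => m 0) h
      simpa [mo_zero] using this
    · intro h
      exact absurd (Finset.mem_range.2 (by omega)) h

lemma eval_eq_sum_mo {d : ℕ} {p : MvPolynomial (Fin 2) R} (hp : p.IsHomogeneous d) (Z : V R) :
    eval Z p = ∑ k ∈ Finset.range (d + 1), coeff (mo d k) p * Z 0 ^ k * Z 1 ^ (d - k) := by
  conv_lhs => rw [eq_sum_mo hp]
  rw [map_sum]
  refine Finset.sum_congr rfl fun k _ => ?_
  rw [eval_monomial, Finsupp.prod_fintype _ _ (by simp), Fin.prod_univ_two, mo_zero, mo_one,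
    mul_assoc]

lemma eval_smul_of_hom {d : ℕ} {p : MvPolynomial (Fin 2) R} (hp : p.IsHomogeneous d) (t : R)
    (Z : V R) : eval (t • Z) p = t ^ d * eval Z p := by
  rw [eval_eq_sum_mo hp, eval_eq_sum_mo hp, Finset.mul_sum]
  refine Finset.sum_congr rfl fun k hk => ?_
  have hk' : k ≤ d := by have := Finset.mem_range.1 hk; omega
  have : t ^ d = t ^ k * t ^ (d - k) := by rw [← pow_add]; congr 1; omega
  simp only [Pi.smul_apply, smul_eq_mul, mul_pow, this]
  ring
lemma Hom.app_smul {d : ℕ} {F : PM R} (hF : Hom d F) (t : R) (Z : V R) :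
    app F (t • Z) = t ^ d • app F Z := by
  funext i; exact eval_smul_of_hom (hF i) t Z
lemma Hom.iter_smul {d : ℕ} {F : PM R} (hF : Hom d F) (n : ℕ) (t : R) (Z : V R) :
    (app F)^[n] (t • Z) = t ^ d ^ n • (app F)^[n] Z := by
  induction n with
  | zero => simp
  | succ n ih => rw [Function.iterate_succ_apply', Function.iterate_succ_apply', ih,
      hF.app_smul, ← pow_mul, ← pow_succ]
lemma hom_bind {d e : ℕ} {p : MvPolynomial (Fin 2) R} {G : PM R} (hp : p.IsHomogeneous d)
    (hG : Hom e G) : (bind₁ G p).IsHomogeneous (d * e) := by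
  rw [mul_comm]
  exact hp.aeval G hG
lemma Hom.comp {d e : ℕ} {F G : PM R} (hF : Hom d F) (hG : Hom e G) : Hom (d * e) (comp F G) :=
  fun i => hom_bind (hF i) hG
lemma hom_lin (M : Mat R) : Hom 1 (lin M) := fun _ =>
  IsHomogeneous.sum _ _ _ fun _ _ => isHomogeneous_C_mul_X _ _
lemma Hom.itr {d : ℕ} {F : PM R} (hF : Hom d F) (n : ℕ) : Hom (d ^ n) (itr F n) := by
  induction n with
  | zero => intro i; exact isHomogeneous_X R i
  | succ n ih => rw [pow_succ']; exact hF.comp ih
lemma Hom.conj {d : ℕ} {F : PM R} (hF : Hom d F) (M : Mat R) : Hom d (conj M F) := by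
  have := (hom_lin M.adjugate).comp (hF.comp (hom_lin M))
  rwa [one_mul, mul_one] at this
lemma Hom.mapF {d : ℕ} {F : PM R} (hF : Hom d F) (φ : R →+* S) : Hom d (mapF φ F) :=
  fun i => (hF i).map φ
lemma Hom.smul {d : ℕ} {F : PM R} (hF : Hom d F) (c : R) : Hom d (c • F) := fun i => by
  have := (hF i).C_mul c
  simpa [smul_eq_C_mul] using this
lemma Hom.jacP {d : ℕ} {F : PM R} (hF : Hom d F) : (jacP F).IsHomogeneous (2 * d - 2) := by
  have h : 2 * d - 2 = (d - 1) + (d - 1) := by omega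
  rw [h]
  exact ((hF 0).pderiv.mul (hF 1).pderiv).sub ((hF 0).pderiv.mul (hF 1).pderiv)

lemma Nondeg.comp {F G : PM R} (hF : Nondeg F) (hG : Nondeg G) : Nondeg (comp F G) :=
  fun Z h => hG Z (hF _ (by rwa [app_comp] at h))
lemma Nondeg.app_ne {F : PM R} (hF : Nondeg F) {Z : V R} (hZ : Z ≠ 0) : app F Z ≠ 0 :=
  fun h => hZ (hF Z h)
lemma Nondeg.iter_ne {F : PM R} (hF : Nondeg F) (n : ℕ) {Z : V R} (hZ : Z ≠ 0) :
    (app F)^[n] Z ≠ 0 := by
  induction n with
  | zero => exact hZ
  | succ n ih => rw [Function.iterate_succ_apply']; exact hF.app_ne ih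
lemma Nondeg.itr {F : PM R} (hF : Nondeg F) (n : ℕ) : Nondeg (itr F n) := fun Z h => by
  by_contra hZ
  exact hF.iter_ne n hZ (by rwa [app_itr] at h)

lemma pderiv_bind (G : PM R) (p : MvPolynomial (Fin 2) R) (i : Fin 2) :
    pderiv i (bind₁ G p) = bind₁ G (pderiv 0 p) * pderiv i (G 0) +
      bind₁ G (pderiv 1 p) * pderiv i (G 1) := by
  induction p using MvPolynomial.induction_on with
  | C a => simp
  | add p q hp hq => simp only [map_add, hp, hq]; ring
  | mul_X p n hp =>
    fin_cases n <;> simp [hp] <;> ring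

lemma jac_comp (F G : PM R) (Z : V R) : jac (comp F G) Z = jac F (app G Z) * jac G Z := by
  simp only [jac, jacP, comp, pderiv_bind, map_sub, map_mul, map_add, eval_bind]
  ring
lemma jac_lin (M : Mat R) (Z : V R) : jac (lin M) Z = M.det := by
  simp [jac, jacP, lin, Fin.sum_univ_two, Matrix.det_fin_two]
lemma jac_conj (M : Mat R) (F : PM R) (Z : V R) :
    jac (conj M F) Z = M.det ^ 2 * jac F (M.mulVec Z) := by
  rw [conj, jac_comp, jac_comp, jac_lin, jac_lin, app_lin, Matrix.det_adjugate]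
  simp only [Fintype.card_fin]
  ring
lemma jac_smulF (c : R) (F : PM R) (Z : V R) : jac (c • F) Z = c ^ 2 * jac F Z := by
  simp only [jac, jacP, Pi.smul_apply, Derivation.map_smul, map_sub, map_mul, smul_eval]
  ring

lemma eval_deh (p : MvPolynomial (Fin 2) R) (z : R) : (deh p).eval z = eval ![z, 1] p := by
  induction p using MvPolynomial.induction_on with
  | C a => simp [deh]
  | add p q hp hq => simp only [deh, map_add, Polynomial.eval_add] at *; rw [hp, hq]
  | mul_X p n hp =>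
    simp only [deh, map_mul, Polynomial.eval_mul] at *
    rw [hp]
    fin_cases n <;> simp
lemma deh_eq_sum {d : ℕ} {p : MvPolynomial (Fin 2) R} (hp : p.IsHomogeneous d) :
    deh p = ∑ k ∈ Finset.range (d + 1), Polynomial.monomial k (coeff (mo d k) p) := by
  conv_lhs => rw [eq_sum_mo hp]
  rw [deh, map_sum]
  refine Finset.sum_congr rfl fun k _ => ?_
  rw [aeval_monomial, Finsupp.prod_fintype _ _ (by simp), Fin.prod_univ_two, mo_zero, mo_one]
  simp [Polynomial.C_mul_X_pow_eq_monomial]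
lemma coeff_deh' {d : ℕ} {p : MvPolynomial (Fin 2) R} (hp : p.IsHomogeneous d) (k : ℕ) :
    (deh p).coeff k = if k ≤ d then coeff (mo d k) p else 0 := by
  rw [deh_eq_sum hp, Polynomial.finsetSum_coeff]
  simp only [Polynomial.coeff_monomial]
  rw [Finset.sum_ite_eq']
  simp
lemma natDegree_deh_le {d : ℕ} {p : MvPolynomial (Fin 2) R} (hp : p.IsHomogeneous d) :
    (deh p).natDegree ≤ d := by
  rw [Polynomial.natDegree_le_iff_coeff_eq_zero]
  intro N hN
  rw [coeff_deh' hp, if_neg (by omega)]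
lemma coeff_deh {d : ℕ} {p : MvPolynomial (Fin 2) R} (hp : p.IsHomogeneous d) {k : ℕ}
    (hk : k ≤ d) : (deh p).coeff k = coeff (mo d k) p := by
  rw [coeff_deh' hp, if_pos hk]
lemma coeff_deh_top {d : ℕ} {p : MvPolynomial (Fin 2) R} (hp : p.IsHomogeneous d) :
    (deh p).coeff d = eval ![1, 0] p := by
  rw [coeff_deh hp le_rfl, eval_eq_sum_mo hp, Finset.sum_eq_single d]
  · simp
  · intro k hk hkd
    have : d - k ≠ 0 := by have := Finset.mem_range.1 hk; omega
    simp [this]
  · simp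
lemma homogenize_deh {d : ℕ} {p : MvPolynomial (Fin 2) R} (hp : p.IsHomogeneous d) :
    (deh p).homogenize d = p :=
  Polynomial.homogenize_eq_of_isHomogeneous hp rfl
lemma derivative_deh (p : MvPolynomial (Fin 2) R) :
    Polynomial.derivative (deh p) = deh (pderiv 0 p) := by
  induction p using MvPolynomial.induction_on with
  | C a => simp [deh]
  | add p q hp hq => simp only [deh, map_add] at *; rw [hp, hq]
  | mul_X p n hp =>
    simp only [deh, map_mul, Polynomial.derivative_mul] at *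
    rw [hp]
    fin_cases n
    · simp; ring
    · simp
lemma euler {d : ℕ} {p : MvPolynomial (Fin 2) R} (hp : p.IsHomogeneous d) :
    X 0 * pderiv 0 p + X 1 * pderiv 1 p = C (d : R) * p := by
  have := hp.sum_X_mul_pderiv
  rw [Fin.sum_univ_two] at this
  rw [this]
  simp
lemma deh_pderiv_one {d : ℕ} {p : MvPolynomial (Fin 2) R} (hp : p.IsHomogeneous d) :
    deh (pderiv 1 p) = Polynomial.C (d : R) * deh p - Polynomial.X * deh (pderiv 0 p) := by
  have := congrArg deh (euler hp)
  simp only [deh, map_add, map_mul, aeval_X, aeval_C] at this ⊢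
  simp only [Matrix.cons_val_zero, Matrix.cons_val_one, Matrix.cons_val_fin_one, one_mul,
    Polynomial.algebraMap_apply, Algebra.algebraMap_self, RingHom.id_apply] at this
  linear_combination this
lemma deh_jacP {d : ℕ} {F : PM R} (hF : Hom d F) :
    deh (jacP F) = Polynomial.C (d : R) * wr (deh (F 0)) (deh (F 1)) := by
  have h0 := deh_pderiv_one (hF 0)
  have h1 := deh_pderiv_one (hF 1)
  rw [wr, derivative_deh, derivative_deh]
  simp only [deh, jacP, map_sub, map_mul] at *
  rw [h0, h1]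
  ring
lemma jac_aff {d : ℕ} {F : PM R} (hF : Hom d F) (z : R) :
    jac F ![z, 1] = d * (wr (deh (F 0)) (deh (F 1))).eval z := by
  rw [jac, ← eval_deh, deh_jacP hF]
  simp

lemma IsForm.const (c : R) : IsForm 0 fun _ : V R => c :=
  ⟨C c, isHomogeneous_C _ _, fun Z => by simp⟩
lemma IsForm.wedge (A : V R) : IsForm 1 fun Z => wedge Z A :=
  ⟨C (A 1) * X 0 - C (A 0) * X 1, (isHomogeneous_C_mul_X _ _).sub (isHomogeneous_C_mul_X _ _),
    fun Z => by simp [H92.wedge]; ring⟩
lemma IsForm.mul {m n : ℕ} {φ ψ : V R → R} (h : IsForm m φ) (h' : IsForm n ψ) :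
    IsForm (m + n) fun Z => φ Z * ψ Z := by
  obtain ⟨p, hp, e⟩ := h
  obtain ⟨q, hq, e'⟩ := h'
  exact ⟨p * q, hp.mul hq, fun Z => by simp [e, e']⟩
lemma IsForm.add {n : ℕ} {φ ψ : V R → R} (h : IsForm n φ) (h' : IsForm n ψ) :
    IsForm n fun Z => φ Z + ψ Z := by
  obtain ⟨p, hp, e⟩ := h
  obtain ⟨q, hq, e'⟩ := h'
  exact ⟨p + q, hp.add hq, fun Z => by simp [e, e']⟩
lemma IsForm.sub {n : ℕ} {φ ψ : V R → R} (h : IsForm n φ) (h' : IsForm n ψ) :
    IsForm n fun Z => φ Z - ψ Z := by
  obtain ⟨p, hp, e⟩ := h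
  obtain ⟨q, hq, e'⟩ := h'
  exact ⟨p - q, hp.sub hq, fun Z => by simp [e, e']⟩
lemma IsForm.const_mul {n : ℕ} {φ : V R → R} (h : IsForm n φ) (c : R) :
    IsForm n fun Z => c * φ Z := by
  have := (IsForm.const c).mul h
  rwa [zero_add] at this
lemma IsForm.pow {n : ℕ} {φ : V R → R} (h : IsForm n φ) (k : ℕ) :
    IsForm (n * k) fun Z => φ Z ^ k := by
  obtain ⟨p, hp, e⟩ := h
  exact ⟨p ^ k, hp.pow k, fun Z => by simp [e]⟩
lemma IsForm.prod {ι : Type} (s : Finset ι) {n : ι → ℕ} {φ : ι → V R → R}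
    (h : ∀ i ∈ s, IsForm (n i) (φ i)) : IsForm (∑ i ∈ s, n i) fun Z => ∏ i ∈ s, φ i Z := by
  classical
  induction s using Finset.induction_on with
  | empty => simpa using IsForm.const (1 : R)
  | insert a s ha ih =>
    simp only [Finset.sum_insert ha, Finset.prod_insert ha]
    exact (h a (Finset.mem_insert_self _ _)).mul
      (ih fun i hi => h i (Finset.mem_insert_of_mem hi))
lemma IsForm.comp {n d : ℕ} {φ : V R → R} {F : PM R} (h : IsForm n φ) (hF : Hom d F) :
    IsForm (n * d) fun Z => φ (app F Z) := by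
  obtain ⟨p, hp, e⟩ := h
  exact ⟨bind₁ F p, hom_bind hp hF, fun Z => by simp only [e, eval_bind]⟩
lemma IsForm.smul_eq {n : ℕ} {φ : V R → R} (h : IsForm n φ) (t : R) (Z : V R) :
    φ (t • Z) = t ^ n * φ Z := by
  obtain ⟨p, hp, e⟩ := h
  rw [e, e, eval_smul_of_hom hp]
lemma Hom.isForm_wedge {d : ℕ} {F : PM R} (hF : Hom d F) (Y : V R) :
    IsForm d fun Z => wedge (app F Z) Y := by
  have := (IsForm.wedge Y).comp hF
  rwa [one_mul] at this
lemma Hom.isForm_jac {d : ℕ} {F : PM R} (hF : Hom d F) : IsForm (2 * d - 2) (jac F) :=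
  ⟨_, hF.jacP, fun _ => rfl⟩

end Ring

end Pool.Agent.MP_3827f0_nt.H92
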