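import Pool.Agent.MP_3827f0_nt.H92.CFatAux

/-! The set where the escape rate is harmonic: local statements. -/

set_option autoImplicit false

namespace Pool.Agent.MP_3827f0_nt.H92

open Metric Filter Topology CFatAux

variable {d : ℕ} {F : PM ℂ} {G : V ℂ → ℝ} {Z : V ℂ}

lemma Fat.congr {G' : V ℂ → ℝ} (h : Fat G Z) (hZ : Z ≠ 0) {c : ℝ}
    (e : ∀ W, W ≠ 0 → G' W = G W + c) : Fat G' Z := by
  obtain ⟨f, hf, he⟩ := h
  refine ⟨fun W => f W + c, hf.add analyticAt_const, ?_⟩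
  filter_upwards [he, eventually_ne_nhds hZ] with W h1 h2
  rw [e W h2, h1]; simp

lemma Fat.mulVec {M : Mat ℂ} (h : Fat G (M.mulVec Z)) : Fat (fun W => G (M.mulVec W)) Z := by
  obtain ⟨f, hf, he⟩ := h
  have hM : AnalyticAt ℂ (fun W : V ℂ => M.mulVec W) Z :=
    (LinearMap.toContinuousLinearMap (Matrix.mulVecLin M)).analyticAt Z
  exact ⟨fun W => f (M.mulVec W), AnalyticAt.comp (f := fun W : V ℂ => M.mulVec W) hf hM,
    hM.continuousAt.eventually he⟩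

lemma Dyn.fat_wedge (h : Dyn d F G) (hZ : Z ≠ 0) {W : V ℂ} (hW : W ≠ 0) (e : wedge Z W = 0)
    (hf : Fat G Z) : Fat G W := by
  obtain ⟨t, ht, rfl⟩ := exists_smul_of_wedge hZ hW e
  obtain ⟨f, hf, he⟩ := hf
  have hM : AnalyticAt ℂ (fun X : V ℂ => t • X) W := analyticAt_id.fun_const_smul
  refine ⟨fun X => f (t • X) - Real.log ‖t‖,
    (AnalyticAt.comp (f := fun X : V ℂ => t • X) hf hM).sub analyticAt_const, ?_⟩
  filter_upwards [hM.continuousAt.eventually he, eventually_ne_nhds hW] with X h1 h2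
  rw [h.esc.2.1 t X ht h2] at h1
  rw [Complex.sub_re, Complex.ofReal_re, ← h1]; ring

lemma Dyn.fat_open (h : Dyn d F G) (hZ : Z ≠ 0) (hf : Fat G Z) :
    ∃ δ : ℝ, 0 < δ ∧ ∀ W, W ≠ 0 → dlt W Z < δ → Fat G W := by
  obtain ⟨f, hf, he⟩ := hf
  have hU : {W | Fat G W} ∈ 𝓝 Z := by
    filter_upwards [hf.eventually_analyticAt, he.eventually_nhds] with W h1 h2
    exact ⟨f, h1, h2⟩
  obtain ⟨δ, hδ, h1⟩ := exists_near hZ hU
  refine ⟨δ, hδ, fun W hW hd => ?_⟩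
  obtain ⟨t, ht, h2⟩ := h1 W hW hd
  exact h.fat_wedge (smul_ne_zero ht hW) hW (by rw [wedge_smul_left, wedge_self, mul_zero]) h2

lemma Fat.harmAt {s : ℂ → V ℂ} {z : ℂ} (hs : AnalyticAt ℂ s z) (h : Fat G (s z)) :
    HarmAt (fun w => G (s w)) z := by
  obtain ⟨f, hf, he⟩ := h
  exact ⟨fun w => f (s w), hf.comp hs, hs.continuousAt.eventually he⟩

namespace CFatAux

lemma fat_of_line (h : Dyn d F G) {W₀ : V ℂ} (hW : wedge Z W₀ = 1)
    (hh : HarmAt (fun τ : ℂ => G (Z + τ • W₀)) 0) : Fat G Z := by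
  obtain ⟨f, hf, he⟩ := hh
  have ha : AnalyticAt ℂ (fun W => wedge W W₀) Z := analyticAt_wedge' analyticAt_id analyticAt_const
  have hb : AnalyticAt ℂ (fun W => wedge W Z) Z := analyticAt_wedge' analyticAt_id analyticAt_const
  have hφ : AnalyticAt ℂ (fun W => - wedge W Z / wedge W W₀) Z :=
    hb.neg.div ha (by rw [hW]; exact one_ne_zero)
  have h0 : - wedge Z Z / wedge Z W₀ = 0 := by simp
  have hl : AnalyticAt ℂ (fun W => Complex.log (wedge W W₀)) Z :=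
    ha.clog (by rw [hW]; exact Complex.one_mem_slitPlane)
  refine ⟨fun W => f (- wedge W Z / wedge W W₀) + Complex.log (wedge W W₀),
    (hf.comp_of_eq hφ h0).add hl, ?_⟩
  have h1 : Tendsto (fun W => - wedge W Z / wedge W W₀) (𝓝 Z) (𝓝 0) := by
    have := hφ.continuousAt.tendsto
    rwa [h0] at this
  filter_upwards [h1.eventually he,
    ha.continuousAt.eventually_ne (by rw [hW]; exact one_ne_zero)] with W h2 h3
  rw [Complex.add_re, ← h2, Complex.log_re, ← h.esc.2.1 _ _ h3 (line_ne hW _), ← decomp' hW h3]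

end CFatAux

lemma Dyn.fat_of_harmAt (h : Dyn d F G) {s : ℂ → V ℂ} {z : ℂ} (hs : AnalyticAt ℂ s z)
    (hd : wedge (s z) (deriv s z) ≠ 0) (hh : HarmAt (fun w => G (s w)) z) : Fat G (s z) := by
  have hZ : s z ≠ 0 := fun h0 => hd (by rw [h0, wedge_zero_left])
  obtain ⟨W₀, hW⟩ := exists_wedge_one hZ
  have ha : AnalyticAt ℂ (fun w => wedge (s w) W₀) z := analyticAt_wedge hs analyticAt_const
  have hb : AnalyticAt ℂ (fun w => wedge (s w) (s z)) z := analyticAt_wedge hs analyticAt_const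
  have h1 : wedge (s z) W₀ ≠ 0 := by rw [hW]; exact one_ne_zero
  have hφ : AnalyticAt ℂ (fun w => - wedge (s w) (s z) / wedge (s w) W₀) z := hb.neg.div ha h1
  have hs' := hs.differentiableAt.hasDerivAt
  have hφ' := ((hasDerivAt_wedge hs' (s z)).fun_neg.fun_div (hasDerivAt_wedge hs' W₀) h1).deriv
  refine fat_of_line h hW ?_
  have h2 := HarmAt.of_comp (u := fun τ : ℂ => G (s z + τ • W₀)) hφ (by
    rw [hφ', hW, wedge_self, wedge_comm]
    simpa using hd) ((hh.sub (harmAt_log_norm ha h1)).congr (by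
    filter_upwards [ha.continuousAt.eventually_ne h1] with w h3
    have := h.esc.2.1 _ _ h3 (line_ne hW (- wedge (s w) (s z) / wedge (s w) W₀))
    rw [← decomp' hW h3] at this
    rw [this]; ring))
  simpa using h2

/-- Two parallel curves give escape rates that differ by a harmonic function. -/
lemma Dyn.harmAt_sub (h : Dyn d F G) {s t : ℂ → V ℂ} {z : ℂ} (hs : AnalyticAt ℂ s z)
    (ht : AnalyticAt ℂ t z) (hs0 : s z ≠ 0) (ht0 : t z ≠ 0)
    (e : ∀ᶠ w in 𝓝 z, wedge (s w) (t w) = 0) : HarmAt (fun w => G (s w) - G (t w)) z := by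
  obtain ⟨W₀, hW⟩ := exists_wedge_one ht0
  have ha : AnalyticAt ℂ (fun w => wedge (t w) W₀) z := analyticAt_wedge ht analyticAt_const
  have hb : AnalyticAt ℂ (fun w => wedge (s w) W₀) z := analyticAt_wedge hs analyticAt_const
  have h1 : wedge (t z) W₀ ≠ 0 := by rw [hW]; exact one_ne_zero
  have h2 : wedge (s z) W₀ ≠ 0 := by
    obtain ⟨c, hc, e'⟩ := exists_smul_of_wedge hs0 ht0 e.self_of_nhds
    rw [e', wedge_smul_left]
    exact mul_ne_zero hc h1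
  refine ((harmAt_log_norm hb h2).sub (harmAt_log_norm ha h1)).congr ?_
  filter_upwards [e, hs.continuousAt.eventually_ne hs0, ht.continuousAt.eventually_ne ht0,
    ha.continuousAt.eventually_ne h1] with w h3 h4 h5 h6
  obtain ⟨c, hc, e'⟩ := exists_smul_of_wedge h4 h5 h3
  rw [e', wedge_smul_left, h.esc.2.1 c _ hc h5, norm_mul,
    Real.log_mul (norm_ne_zero_iff.2 hc) (norm_ne_zero_iff.2 h6)]
  ring

/-- Bounded lifts of the iterates on a disc where G is harmonic. -/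
theorem Dyn.exists_lifts (h : Dyn d F G) {s : ℂ → V ℂ} {c : ℂ} {r : ℝ}
    (hs : DifferentiableOn ℂ s (ball c r)) (hs0 : ∀ z ∈ ball c r, s z ≠ 0)
    (hh : ∀ z ∈ ball c r, HarmAt (fun w => G (s w)) z) :
    ∃ (t : ℂ → ℂ) (B : ℝ), 0 < B ∧ DifferentiableOn ℂ t (ball c r) ∧ (∀ z ∈ ball c r, t z ≠ 0) ∧
      ∀ n : ℕ, ∀ z ∈ ball c r, B⁻¹ ≤ ‖(app F)^[n] (t z • s z)‖ ∧ ‖(app F)^[n] (t z • s z)‖ ≤ B := by
  obtain ⟨f, hf, he⟩ := harm_ball hh
  obtain ⟨C, hC⟩ := h.esc.1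
  refine ⟨fun z => Complex.exp (- f z), Real.exp C, Real.exp_pos C, hf.neg.cexp,
    fun z _ => Complex.exp_ne_zero _, fun n z hz => ?_⟩
  have h0 : Complex.exp (- f z) • s z ≠ 0 := smul_ne_zero (Complex.exp_ne_zero _) (hs0 z hz)
  have h1 : G (Complex.exp (- f z) • s z) = 0 := by
    rw [h.esc.2.1 _ _ (Complex.exp_ne_zero _) (hs0 z hz), Complex.norm_exp, Real.log_exp, he z hz]
    simp
  have h2 := h.nondeg.iter_ne n h0
  have h3 := hC _ h2
  rw [h.iter n h0, h1, mul_zero, zero_sub, abs_neg, abs_le] at h3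
  have h4 := norm_pos_iff.2 h2
  rw [← Real.exp_neg]
  exact ⟨(Real.le_log_iff_exp_le h4).1 h3.1, (Real.log_le_iff_le_exp h4).1 h3.2⟩

theorem Dyn.equicont (h : Dyn d F G) (hZ : Z ≠ 0) (hf : Fat G Z) {ε : ℝ} (hε : 0 < ε) :
    ∃ δ : ℝ, 0 < δ ∧ ∀ W, W ≠ 0 → dlt W Z < δ →
      ∀ n : ℕ, dlt ((app F)^[n] W) ((app F)^[n] Z) < ε := by
  obtain ⟨W₀, hW⟩ := exists_wedge_one hZ
  have h1 : HarmAt (fun τ : ℂ => G (Z + τ • W₀)) 0 :=
    Fat.harmAt (analyticAt_line Z W₀ 0) (by simpa using hf)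
  obtain ⟨r, hr, h2⟩ := Metric.eventually_nhds_iff_ball.1 h1.eventually
  have hs : DifferentiableOn ℂ (fun τ : ℂ => Z + τ • W₀) (ball 0 r) :=
    fun τ _ => (analyticAt_line Z W₀ τ).differentiableAt.differentiableWithinAt
  obtain ⟨t, B, hB, ht, ht0, hb⟩ := h.exists_lifts hs (fun τ _ => line_ne hW τ) h2
  obtain ⟨δ, hδ, h3⟩ := near_line hW (ε := min r (ε * r / (4 * B * B))) (by positivity)
  refine ⟨δ, hδ, fun W hW0 hd n => ?_⟩
  obtain ⟨a, τ, ha, hτ, rfl⟩ := h3 W hW0 hd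
  have hτr : τ ∈ ball (0 : ℂ) r := by simpa using hτ.trans_le (min_le_left _ _)
  have hτ2 := hτ.trans_le (min_le_right _ _)
  have h0r : (0 : ℂ) ∈ ball (0 : ℂ) r := mem_ball_self hr
  set E : ℂ → V ℂ := fun z => (app F)^[n] (t z • (Z + z • W₀)) with hE
  have hEd : DifferentiableOn ℂ E (ball 0 r) := fun z hz =>
    (analyticAt_iter F n _).differentiableAt.comp_differentiableWithinAt z
      ((ht z hz).smul (hs z hz))
  have h4 := Complex.dist_le_div_mul_dist_of_mapsTo_ball (R₂ := 2 * B) hEd (fun z hz => by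
    rw [mem_closedBall, dist_eq_norm]
    linarith [norm_sub_le (E z) (E 0), (hb n z hz).2, (hb n 0 h0r).2]) hτr
  have e1 : dlt ((app F)^[n] (a • (Z + τ • W₀))) ((app F)^[n] Z) = dlt (E τ) (E 0) := by
    simp only [hE, h.hom.iter_smul, zero_smul, add_zero]
    rw [dlt_smul_left (pow_ne_zero _ ha), dlt_smul_left (pow_ne_zero _ (ht0 τ hτr)),
      dlt_comm _ (_ • _), dlt_smul_left (pow_ne_zero _ (ht0 0 h0r)), dlt_comm]
  have b1 : B⁻¹ ≤ ‖E τ‖ := (hb n τ hτr).1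
  have b0 : B⁻¹ ≤ ‖E 0‖ := (hb n 0 h0r).1
  have p1 : 0 < ‖E τ‖ := (inv_pos.2 hB).trans_le b1
  have p0 : 0 < ‖E 0‖ := (inv_pos.2 hB).trans_le b0
  have e2 : wedge (E τ) (E 0) = wedge (E τ - E 0) (E 0) := by
    simp only [wedge, Pi.sub_apply]; ring
  rw [e1, dlt, e2, div_lt_iff₀ (by positivity)]
  refine (norm_wedge_le _ _).trans_lt ?_
  rw [dist_eq_norm, dist_zero_right] at h4
  rw [lt_div_iff₀ (by positivity)] at hτ2
  rw [div_mul_eq_mul_div, le_div_iff₀ hr] at h4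
  rw [inv_le_iff_one_le_mul₀ hB] at b1
  have h5 : 2 * ‖E τ - E 0‖ < ε * ‖E τ‖ := by
    refine lt_of_mul_lt_mul_right (a := r * B) ?_ (by positivity)
    have := mul_le_mul_of_nonneg_left b1 (mul_pos hε hr).le
    have := mul_le_mul_of_nonneg_right h4 hB.le
    nlinarith
  nlinarith

namespace CFatAux

lemma norm_eq_of_eventually {β γ : ℂ → ℂ} {c τ : ℂ} {r : ℝ}
    (hβ : DifferentiableOn ℂ β (ball c r)) (hγ : DifferentiableOn ℂ γ (ball c r))
    (hτ : τ ∈ ball c r) (h0 : γ τ ≠ 0) (e : ∀ᶠ w in 𝓝 τ, ‖β w‖ = ‖γ w‖) :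
    ∀ w ∈ ball c r, ‖β w‖ = ‖γ w‖ := by
  have aβ := hβ.analyticOnNhd isOpen_ball
  have aγ := hγ.analyticOnNhd isOpen_ball
  have hne := (aγ τ hτ).continuousAt.eventually_ne h0
  have h1 : ∀ᶠ w in 𝓝 τ, ‖β w / γ w‖ = 1 := by
    filter_upwards [e, hne] with w h1 h2
    rw [norm_div, h1, div_self (norm_ne_zero_iff.2 h2)]
  have h2 := Complex.eventually_eq_of_isLocalMax_norm (f := fun w => β w / γ w) (c := τ)
    (((aβ τ hτ).div (aγ τ hτ) h0).eventually_analyticAt.mono fun w hw => hw.differentiableAt)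
    (by
      filter_upwards [h1] with w hw
      exact (hw.trans h1.self_of_nhds.symm).le)
  have h3 : Set.EqOn β (fun w => β τ / γ τ * γ w) (ball c r) :=
    aβ.eqOn_of_preconnected_of_eventuallyEq (analyticOnNhd_const.mul aγ)
      (convex_ball c r).isPreconnected hτ (by
        filter_upwards [h2, hne] with w h4 h5
        rw [← h4, div_mul_cancel₀ _ h5])
  intro w hw
  rw [h3 hw, norm_mul, h1.self_of_nhds, one_mul]

lemma harm_of_eq {β : ℂ → ℂ} {u : ℂ → ℝ} {c : ℂ} {r : ℝ} (hr : 0 < r)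
    (hβ : DifferentiableOn ℂ β (ball c r)) (h : ∀ w ∈ ball c r, ‖β w‖ = Real.exp (u w)) :
    HarmAt u c := by
  have hc := mem_ball_self (x := c) hr
  refine (harmAt_log_norm (hβ.analyticOnNhd isOpen_ball c hc)
    (norm_pos_iff.1 (by rw [h c hc]; exact Real.exp_pos _))).congr ?_
  filter_upwards [ball_mem_nhds c hr] with w hw
  rw [h w hw, Real.log_exp]

lemma harm_of_lt {α β γ : ℂ → ℂ} {u : ℂ → ℝ} {c τ : ℂ} {r : ℝ} (hr : 0 < r)
    (hα : DifferentiableOn ℂ α (ball c r)) (hβ : DifferentiableOn ℂ β (ball c r))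
    (hγ : DifferentiableOn ℂ γ (ball c r))
    (h1 : ∀ w ∈ ball c r, max ‖α w‖ ‖β w‖ = Real.exp (u w))
    (h2 : ∀ w ∈ ball c r, max ‖α w‖ ‖γ w‖ = Real.exp (u w))
    (h3 : ∀ w ∈ ball c r, max ‖β w‖ ‖γ w‖ = Real.exp (u w))
    (hτ : τ ∈ ball c r) (hlt : ‖α τ‖ < ‖β τ‖) : HarmAt u c := by
  have hm := isOpen_ball.mem_nhds hτ
  have h4 : ∀ᶠ w in 𝓝 τ, ‖γ w‖ = ‖β w‖ := by
    filter_upwards [hm, (hα.continuousOn.continuousAt hm).norm.eventually_lt
      (hβ.continuousOn.continuousAt hm).norm hlt] with w hw h5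
    have h6 := (h2 w hw).trans (h1 w hw).symm
    rw [max_eq_right h5.le] at h6
    rcases le_total ‖α w‖ ‖γ w‖ with h7 | h7
    · rwa [max_eq_right h7] at h6
    · rw [max_eq_left h7] at h6
      exact absurd h6 h5.ne
  have h5 := norm_eq_of_eventually hγ hβ hτ
    (norm_pos_iff.1 ((norm_nonneg _).trans_lt hlt)) h4
  refine harm_of_eq hr hβ fun w hw => ?_
  rw [← h3 w hw, h5 w hw, max_self]

lemma three_max {α β γ : ℂ → ℂ} {u : ℂ → ℝ} {c : ℂ} {r : ℝ} (hr : 0 < r)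
    (hα : DifferentiableOn ℂ α (ball c r)) (hβ : DifferentiableOn ℂ β (ball c r))
    (hγ : DifferentiableOn ℂ γ (ball c r))
    (h1 : ∀ w ∈ ball c r, max ‖α w‖ ‖β w‖ = Real.exp (u w))
    (h2 : ∀ w ∈ ball c r, max ‖α w‖ ‖γ w‖ = Real.exp (u w))
    (h3 : ∀ w ∈ ball c r, max ‖β w‖ ‖γ w‖ = Real.exp (u w)) : HarmAt u c := by
  by_cases h : ∀ w ∈ ball c r, ‖α w‖ = ‖β w‖
  · refine harm_of_eq hr hβ fun w hw => ?_
    rw [← h1 w hw, h w hw, max_self]
  · push Not at h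
    obtain ⟨τ, hτ, hne⟩ := h
    rcases hne.lt_or_gt with hlt | hlt
    · exact harm_of_lt hr hα hβ hγ h1 h2 h3 hτ hlt
    · exact harm_of_lt hr hβ hα hγ (fun w hw => (max_comm _ _).trans (h1 w hw)) h3 h2 hτ hlt

lemma tendsto_div (h : Dyn d F G) (K : ℝ) :
    Tendsto (fun n : ℕ => K / (d : ℝ) ^ n) atTop (𝓝 0) :=
  tendsto_const_nhds.div_atTop (tendsto_pow_atTop_atTop_of_one_lt
    (by exact_mod_cast (show 1 < d from h.two)))

lemma tendsto_log (h : Dyn d F G) (hZ : Z ≠ 0) :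
    Tendsto (fun n : ℕ => Real.log ‖(app F)^[n] Z‖ / (d : ℝ) ^ n) atTop (𝓝 (G Z)) := by
  obtain ⟨C, -, hC⟩ := h.approx
  rw [tendsto_iff_dist_tendsto_zero]
  refine squeeze_zero (fun _ => dist_nonneg) (fun n => ?_) (tendsto_div h C)
  rw [dist_comm, Real.dist_eq]
  exact hC n Z hZ

lemma log_max_le {A B : V ℂ} (hAB : wedge A B ≠ 0) : ∃ K : ℝ, ∀ X : V ℂ, X ≠ 0 →
    |Real.log (max ‖wedge X A‖ ‖wedge X B‖) - Real.log ‖X‖| ≤ K := by
  have hab := norm_pos_iff.2 hAB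
  have hA : 0 < ‖A‖ := norm_pos_iff.2 fun h0 => hAB (by rw [h0, wedge_zero_left])
  have hB := norm_nonneg B
  refine ⟨|Real.log (2 * (‖A‖ + ‖B‖))| + |Real.log ((‖A‖ + ‖B‖) / ‖wedge A B‖)|, fun X hX => ?_⟩
  have hx := norm_pos_iff.2 hX
  set m := max ‖wedge X A‖ ‖wedge X B‖ with hm
  have h1 : m ≤ 2 * (‖A‖ + ‖B‖) * ‖X‖ :=
    max_le ((norm_wedge_le _ _).trans (by nlinarith)) ((norm_wedge_le _ _).trans (by nlinarith))
  have h2 : ‖X‖ ≤ (‖A‖ + ‖B‖) / ‖wedge A B‖ * m := by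
    have h3 := norm_three A B X
    rw [wedge_comm A X, norm_neg] at h3
    rw [div_mul_eq_mul_div, le_div_iff₀ hab]
    have := mul_le_mul_of_nonneg_right (le_max_left ‖wedge X A‖ ‖wedge X B‖) hB
    have := mul_le_mul_of_nonneg_right (le_max_right ‖wedge X A‖ ‖wedge X B‖) hA.le
    nlinarith
  have hq : 0 < (‖A‖ + ‖B‖) / ‖wedge A B‖ := by positivity
  have hm0 : 0 < m := (pos_iff_pos_of_mul_pos (hx.trans_le h2)).1 hq
  have h3 := Real.log_le_log hm0 h1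
  have h4 := Real.log_le_log hx h2
  rw [Real.log_mul (by positivity) hx.ne'] at h3
  rw [Real.log_mul hq.ne' hm0.ne'] at h4
  have := le_abs_self (Real.log (2 * (‖A‖ + ‖B‖)))
  have := le_abs_self (Real.log ((‖A‖ + ‖B‖) / ‖wedge A B‖))
  have := abs_nonneg (Real.log (2 * (‖A‖ + ‖B‖)))
  have := abs_nonneg (Real.log ((‖A‖ + ‖B‖) / ‖wedge A B‖))
  rw [abs_le]
  constructor <;> linarith

lemma max_lim (h : Dyn d F G) (hZ : Z ≠ 0) {A B : V ℂ} (hAB : wedge A B ≠ 0) {U : Filter ℕ}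
    [U.NeBot] (hU : U ≤ atTop) {a b : ℝ}
    (h0 : ∀ᶠ n in U, wedge ((app F)^[n] Z) A ≠ 0 ∧ wedge ((app F)^[n] Z) B ≠ 0)
    (ha : Tendsto (fun n : ℕ => Real.exp (Real.log ‖wedge ((app F)^[n] Z) A‖ / (d : ℝ) ^ n)) U
      (𝓝 a))
    (hb : Tendsto (fun n : ℕ => Real.exp (Real.log ‖wedge ((app F)^[n] Z) B‖ / (d : ℝ) ^ n)) U
      (𝓝 b)) : max a b = Real.exp (G Z) := by
  obtain ⟨K, hK⟩ := log_max_le hAB
  have hd : (0 : ℝ) < d := by exact_mod_cast (show 0 < d from lt_of_lt_of_le two_pos h.two)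
  have h1 : Tendsto (fun n : ℕ => Real.log (max ‖wedge ((app F)^[n] Z) A‖
      ‖wedge ((app F)^[n] Z) B‖) / (d : ℝ) ^ n) atTop (𝓝 (G Z)) := by
    refine (tendsto_log h hZ).congr_dist (squeeze_zero (fun _ => dist_nonneg) (fun n => ?_)
      (tendsto_div h K))
    rw [dist_comm, Real.dist_eq, ← sub_div, abs_div, abs_of_pos (pow_pos hd n)]
    exact div_le_div_of_nonneg_right (hK _ (h.nondeg.iter_ne n hZ)) (pow_pos hd n).le
  refine tendsto_nhds_unique ((ha.max hb).congr' ?_)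
    ((Real.continuous_exp.tendsto _).comp (h1.mono_left hU))
  filter_upwards [h0] with n hn
  have p1 := norm_pos_iff.2 hn.1
  have p2 := norm_pos_iff.2 hn.2
  rcases le_total ‖wedge ((app F)^[n] Z) A‖ ‖wedge ((app F)^[n] Z) B‖ with h2 | h2
  · simp only [Function.comp, max_eq_right h2]
    exact max_eq_right (Real.exp_le_exp.2
      (div_le_div_of_nonneg_right (Real.log_le_log p1 h2) (pow_pos hd n).le))
  · simp only [Function.comp, max_eq_left h2]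
    exact max_eq_left (Real.exp_le_exp.2
      (div_le_div_of_nonneg_right (Real.log_le_log p2 h2) (pow_pos hd n).le))

lemma exists_root_lim (h : Dyn d F G) {s : ℂ → V ℂ} {c : ℂ} {r R : ℝ}
    (hs : DifferentiableOn ℂ s (ball c r)) (hs0 : ∀ z ∈ ball c r, s z ≠ 0)
    (hR : ∀ z ∈ ball c r, G (s z) ≤ R) (U : Ultrafilter ℕ) (A : V ℂ)
    (h0 : ∀ᶠ n in (U : Filter ℕ), ∀ z ∈ ball c r, wedge ((app F)^[n] (s z)) A ≠ 0) :
    ∃ α : ℂ → ℂ, DifferentiableOn ℂ α (ball c r) ∧ ∀ z ∈ ball c r, Tendsto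
      (fun n : ℕ => Real.exp (Real.log ‖wedge ((app F)^[n] (s z)) A‖ / (d : ℝ) ^ n)) U
      (𝓝 ‖α z‖) := by
  obtain ⟨C, hC0, hC⟩ := h.approx
  have hd : (1 : ℝ) ≤ d := by exact_mod_cast (show 1 ≤ d from le_trans one_le_two h.two)
  have key (n : ℕ) : ∃ f : ℂ → ℂ, (∀ z ∈ ball c r, wedge ((app F)^[n] (s z)) A ≠ 0) →
      DifferentiableOn ℂ f (ball c r) ∧ ∀ z ∈ ball c r,
        ‖f z‖ = Real.exp (Real.log ‖wedge ((app F)^[n] (s z)) A‖ / (d : ℝ) ^ n) := by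
    by_cases hn : ∀ z ∈ ball c r, wedge ((app F)^[n] (s z)) A ≠ 0
    · obtain ⟨g, hg, he⟩ := exists_log_ball (f := fun z => wedge ((app F)^[n] (s z)) A)
        (fun z hz => (analyticAt_wedge ((analyticAt_iter F n _).comp
          (hs.analyticOnNhd isOpen_ball z hz))
          analyticAt_const).differentiableAt.differentiableWithinAt) hn
      refine ⟨fun z => Complex.exp (g z / (((d : ℝ) ^ n : ℝ) : ℂ)),
        fun _ => ⟨(hg.div_const _).cexp, fun z hz => ?_⟩⟩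
      rw [Complex.norm_exp, Complex.div_ofReal_re, ← he z hz, Complex.norm_exp, Real.log_exp]
    · exact ⟨0, fun h' => absurd h' hn⟩
  choose f hf using key
  obtain ⟨α, hα, -, hl⟩ := exists_ulim U (f := f) (c := c) (r := r)
    (B := Real.exp (|Real.log (2 * ‖A‖)| + R + C)) (by
    filter_upwards [h0] with n hn
    refine ⟨(hf n hn).1, fun z hz => ?_⟩
    rw [(hf n hn).2 z hz, Real.exp_le_exp]
    have hp : (1 : ℝ) ≤ (d : ℝ) ^ n := one_le_pow₀ hd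
    have hA : 0 < ‖A‖ := norm_pos_iff.2 fun h1 => hn z hz (by rw [h1, wedge_zero_right])
    have hx := norm_pos_iff.2 (h.nondeg.iter_ne n (hs0 z hz))
    have h1 := Real.log_le_log (norm_pos_iff.2 (hn z hz))
      ((norm_wedge_le ((app F)^[n] (s z)) A).trans_eq (by ring :
        _ = 2 * ‖A‖ * ‖(app F)^[n] (s z)‖))
    rw [Real.log_mul (by positivity) hx.ne'] at h1
    have h2 := (abs_le.1 (hC n _ (hs0 z hz))).1
    have h3 : C / (d : ℝ) ^ n ≤ C := div_le_self hC0.le hp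
    have h4 : Real.log (2 * ‖A‖) / (d : ℝ) ^ n ≤ |Real.log (2 * ‖A‖)| :=
      (div_le_div_of_nonneg_right (le_abs_self _) (by linarith)).trans
        (div_le_self (abs_nonneg _) hp)
    have h5 := div_le_div_of_nonneg_right h1 (show (0 : ℝ) ≤ (d : ℝ) ^ n by linarith)
    rw [add_div] at h5
    linarith [hR z hz])
  refine ⟨α, hα, fun z hz => ?_⟩
  obtain ⟨r', h1, h2⟩ := exists_between (mem_ball.1 hz)
  refine ((hl r' h2).tendsto_at (mem_ball.2 h1)).norm.congr' ?_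
  filter_upwards [h0] with n hn
  exact (hf n hn).2 z hz

end CFatAux

/-- Three omitted values. -/
theorem Dyn.fat_of_omit (h : Dyn d F G) (hZ : Z ≠ 0) {A B E : V ℂ} (hAB : wedge A B ≠ 0)
    (hAE : wedge A E ≠ 0) (hBE : wedge B E ≠ 0) {δ : ℝ} (hδ : 0 < δ)
    (ho : ∃ᶠ n in atTop, ∀ W, W ≠ 0 → dlt W Z < δ → wedge ((app F)^[n] W) A ≠ 0 ∧
      wedge ((app F)^[n] W) B ≠ 0 ∧ wedge ((app F)^[n] W) E ≠ 0) : Fat G Z := by
  obtain ⟨W₀, hW⟩ := exists_wedge_one hZ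
  have hc : ContinuousAt (fun τ : ℂ => G (Z + τ • W₀)) 0 :=
    (h.continuousAt (line_ne hW 0)).comp (f := fun τ : ℂ => Z + τ • W₀)
      (analyticAt_line Z W₀ 0).continuousAt
  obtain ⟨r, hr, h2⟩ := Metric.eventually_nhds_iff_ball.1 ((line_dlt hZ W₀ hδ).and
    (hc.eventually_lt continuousAt_const (lt_add_one (G (Z + (0 : ℂ) • W₀)))))
  have hs : DifferentiableOn ℂ (fun τ : ℂ => Z + τ • W₀) (ball 0 r) :=
    fun τ _ => (analyticAt_line Z W₀ τ).differentiableAt.differentiableWithinAt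
  have := frequently_iff_neBot.1 ho
  obtain ⟨U, hU⟩ := Ultrafilter.exists_le (atTop ⊓ 𝓟 {n : ℕ | ∀ W, W ≠ 0 → dlt W Z < δ →
    wedge ((app F)^[n] W) A ≠ 0 ∧ wedge ((app F)^[n] W) B ≠ 0 ∧ wedge ((app F)^[n] W) E ≠ 0})
  have hU1 := (le_inf_iff.1 hU).1
  have hU2 : ∀ᶠ n in (U : Filter ℕ), ∀ τ ∈ ball (0 : ℂ) r,
      wedge ((app F)^[n] (Z + τ • W₀)) A ≠ 0 ∧ wedge ((app F)^[n] (Z + τ • W₀)) B ≠ 0 ∧
      wedge ((app F)^[n] (Z + τ • W₀)) E ≠ 0 := by
    filter_upwards [le_principal_iff.1 (le_inf_iff.1 hU).2] with n hn τ hτ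
    exact hn _ (line_ne hW τ) (h2 τ hτ).1
  obtain ⟨α, hα, lα⟩ := exists_root_lim h hs (fun τ _ => line_ne hW τ)
    (fun τ hτ => (h2 τ hτ).2.le) U A (hU2.mono fun n hn τ hτ => (hn τ hτ).1)
  obtain ⟨β, hβ, lβ⟩ := exists_root_lim h hs (fun τ _ => line_ne hW τ)
    (fun τ hτ => (h2 τ hτ).2.le) U B (hU2.mono fun n hn τ hτ => (hn τ hτ).2.1)
  obtain ⟨γ, hγ, lγ⟩ := exists_root_lim h hs (fun τ _ => line_ne hW τ)
    (fun τ hτ => (h2 τ hτ).2.le) U E (hU2.mono fun n hn τ hτ => (hn τ hτ).2.2)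
  refine fat_of_line h hW (three_max hr hα hβ hγ (fun τ hτ => ?_) (fun τ hτ => ?_) fun τ hτ => ?_)
  · exact max_lim h (line_ne hW τ) hAB hU1
      (hU2.mono fun n hn => ⟨(hn τ hτ).1, (hn τ hτ).2.1⟩) (lα τ hτ) (lβ τ hτ)
  · exact max_lim h (line_ne hW τ) hAE hU1
      (hU2.mono fun n hn => ⟨(hn τ hτ).1, (hn τ hτ).2.2⟩) (lα τ hτ) (lγ τ hτ)
  · exact max_lim h (line_ne hW τ) hBE hU1
      (hU2.mono fun n hn => ⟨(hn τ hτ).2.1, (hn τ hτ).2.2⟩) (lβ τ hτ) (lγ τ hτ)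

/-- At most one of four values is taken. -/
theorem Dyn.fat_of_four (h : Dyn d F G) (hZ : Z ≠ 0) (A : Fin 4 → V ℂ)
    (hA : ∀ i j, i ≠ j → wedge (A i) (A j) ≠ 0) {δ : ℝ} (hδ : 0 < δ)
    (ho : ∃ᶠ n in atTop, ∀ W W', W ≠ 0 → W' ≠ 0 → dlt W Z < δ → dlt W' Z < δ → ∀ i j,
      wedge ((app F)^[n] W) (A i) = 0 → wedge ((app F)^[n] W') (A j) = 0 → i = j) :
    Fat G Z := by
  have h1 : ∃ᶠ n in atTop, ∃ k : Fin 4, ∀ i, i ≠ k → ∀ W, W ≠ 0 → dlt W Z < δ →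
      wedge ((app F)^[n] W) (A i) ≠ 0 := by
    refine ho.mono fun n hn => ?_
    by_cases h2 : ∃ k W, W ≠ 0 ∧ dlt W Z < δ ∧ wedge ((app F)^[n] W) (A k) = 0
    · obtain ⟨k, W', a, b, c⟩ := h2
      exact ⟨k, fun i hi W a' b' c' => hi (hn W W' a' a b' b i k c' c)⟩
    · exact ⟨0, fun i _ W a b c => h2 ⟨i, W, a, b, c⟩⟩
  obtain ⟨k, hk⟩ := frequently_exists.1 h1
  have hne (i j : Fin 3) (hij : i ≠ j) := hA _ _ (k.succAbove_right_injective.ne hij)
  exact h.fat_of_omit hZ (hne 0 1 (by decide)) (hne 0 2 (by decide)) (hne 1 2 (by decide)) hδ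
    (hk.mono fun n hn W a b => ⟨hn _ (k.succAbove_ne _) W a b, hn _ (k.succAbove_ne _) W a b,
      hn _ (k.succAbove_ne _) W a b⟩)

theorem Dyn.fat_app_iff (h : Dyn d F G) (hZ : Z ≠ 0) : Fat G (app F Z) ↔ Fat G Z := by
  have hd : 0 < d := lt_of_lt_of_le two_pos h.two
  constructor
  · rintro ⟨f, hf, he⟩
    refine ⟨fun W => f (app F W) / ((d : ℝ) : ℂ),
      (hf.comp (analyticAt_app F Z)).div_const, ?_⟩
    filter_upwards [(analyticAt_app F Z).continuousAt.eventually he, eventually_ne_nhds hZ]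
      with W h1 h2
    have : (d : ℝ) ≠ 0 := by exact_mod_cast hd.ne'
    rw [Complex.div_ofReal_re, ← h1, h.esc.2.2 W h2, mul_div_cancel_left₀ _ this]
  · intro hf
    set A : Fin 4 → V ℂ := fun i => ![((i : ℕ) : ℂ), 1] with hA0
    have hA (i j : Fin 4) (hij : i ≠ j) : wedge (A i) (A j) ≠ 0 := by
      rw [hA0, wedge_aff, sub_ne_zero]
      exact fun e => hij (Fin.ext (Nat.cast_injective e))
    have hA1 (i : Fin 4) : A i ≠ 0 := aff_ne_zero _
    obtain ⟨p, hp⟩ := Finite.exists_min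
      fun p : Fin 4 × Fin 4 => if p.1 = p.2 then 1 else dlt (A p.1) (A p.2)
    set ε := (if p.1 = p.2 then 1 else dlt (A p.1) (A p.2)) with hε0
    have hε : 0 < ε := by
      rw [hε0]
      split_ifs with h1
      · exact one_pos
      · exact (dlt_nonneg _ _).lt_of_ne' fun e => hA _ _ h1 ((dlt_eq_zero_iff (hA1 _) (hA1 _)).1 e)
    obtain ⟨δ, hδ, h1⟩ := h.equicont hZ hf (half_pos hε)
    obtain ⟨c, hc, h2⟩ := exists_pre_near hd h.hom h.nondeg
    have key (n : ℕ) (Y : V ℂ) (i : Fin 4) (hY : Y ≠ 0) (hY' : dlt Y (app F Z) < c * δ ^ d)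
        (e : wedge ((app F)^[n] Y) (A i) = 0) : dlt (A i) ((app F)^[n + 1] Z) < ε / 2 := by
      obtain ⟨W, hW, e1, e2⟩ := h2 Z Y hZ hY
      rw [dlt_comm] at hY'
      have h3 : dlt W Z < δ :=
        lt_of_pow_lt_pow_left₀ d hδ.le (lt_of_mul_lt_mul_left (e2.trans_lt hY') hc.le)
      have h4 := h.hom.wedge_iter n e1 (h.nondeg.app_ne hW) hY
      rw [← Function.iterate_succ_apply] at h4
      rw [← dlt_congr (h.nondeg.iter_ne n hY) (hA1 i) e,
        ← dlt_congr (h.nondeg.iter_ne _ hW) (h.nondeg.iter_ne n hY) h4]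
      exact h1 W hW h3 _
    refine h.fat_of_four (h.nondeg.app_ne hZ) A hA (δ := c * δ ^ d) (by positivity)
      (Frequently.of_forall fun n W W' a a' b b' i j e e' => ?_)
    by_contra hij
    have h3 := hp (i, j)
    simp only [if_neg hij] at h3
    have h4 := dlt_triangle (X := A i) (Y := A j) (h.nondeg.iter_ne (n + 1) hZ)
    rw [dlt_comm ((app F)^[n + 1] Z)] at h4
    linarith [key n W i a b e, key n W' j a' b' e']

theorem Dyn.fat_iter_iff (h : Dyn d F G) (n : ℕ) (hZ : Z ≠ 0) :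
    Fat G ((app F)^[n] Z) ↔ Fat G Z := by
  induction n with
  | zero => rfl
  | succ n ih => rw [Function.iterate_succ_apply', h.fat_app_iff (h.nondeg.iter_ne n hZ), ih]

end Pool.Agent.MP_3827f0_nt.H92
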