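import Pool.Agent.MP_3827f0_nt.H92.Defs

/-! Harmonic functions, limits of holomorphic maps, linearization. -/

set_option autoImplicit false

namespace Pool.Agent.MP_3827f0_nt.H92

open Metric Filter Topology

variable {u u' : ℂ → ℝ} {z c : ℂ} {r : ℝ}

lemma harmAt_const (a : ℝ) (z : ℂ) : HarmAt (fun _ => a) z :=
  ⟨fun _ => (a : ℂ), analyticAt_const, Eventually.of_forall fun _ => by simp⟩

lemma HarmAt.congr (h : HarmAt u z) (e : ∀ᶠ w in 𝓝 z, u' w = u w) : HarmAt u' z := by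
  obtain ⟨f, hf, hu⟩ := h
  exact ⟨f, hf, (e.and hu).mono fun w hw => hw.1.trans hw.2⟩

lemma HarmAt.add (h : HarmAt u z) (h' : HarmAt u' z) : HarmAt (fun w => u w + u' w) z := by
  obtain ⟨f, hf, hu⟩ := h
  obtain ⟨g, hg, hu'⟩ := h'
  exact ⟨fun w => f w + g w, hf.add hg, (hu.and hu').mono fun w hw => by
    simp [hw.1, hw.2]⟩

lemma HarmAt.sub (h : HarmAt u z) (h' : HarmAt u' z) : HarmAt (fun w => u w - u' w) z := by
  obtain ⟨f, hf, hu⟩ := h
  obtain ⟨g, hg, hu'⟩ := h'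
  exact ⟨fun w => f w - g w, hf.sub hg, (hu.and hu').mono fun w hw => by
    simp [hw.1, hw.2]⟩

lemma HarmAt.neg (h : HarmAt u z) : HarmAt (fun w => - u w) z := by
  obtain ⟨f, hf, hu⟩ := h
  exact ⟨fun w => - f w, hf.neg, hu.mono fun w hw => by simp [hw]⟩

lemma HarmAt.const_mul (h : HarmAt u z) (a : ℝ) : HarmAt (fun w => a * u w) z := by
  obtain ⟨f, hf, hu⟩ := h
  exact ⟨fun w => (a : ℂ) * f w, analyticAt_const.mul hf, hu.mono fun w hw => by simp [hw]⟩

lemma HarmAt.comp {f : ℂ → ℂ} (hf : AnalyticAt ℂ f z) (h : HarmAt u (f z)) :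
    HarmAt (fun w => u (f w)) z := by
  obtain ⟨g, hg, hu⟩ := h
  exact ⟨fun w => g (f w), hg.comp hf, hf.continuousAt.tendsto.eventually hu⟩

lemma HarmAt.eventually (h : HarmAt u z) : ∀ᶠ w in 𝓝 z, HarmAt u w := by
  obtain ⟨f, hf, hu⟩ := h
  filter_upwards [hf.eventually_analyticAt, hu.eventually_nhds] with w h1 h2
  exact ⟨f, h1, h2⟩

lemma harmAt_log_norm {f : ℂ → ℂ} (hf : AnalyticAt ℂ f z) (h0 : f z ≠ 0) :
    HarmAt (fun w => Real.log ‖f w‖) z := by
  have hq : AnalyticAt ℂ (fun w => f w / f z) z := hf.div analyticAt_const h0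
  refine ⟨fun w => Complex.log (f w / f z) + (Real.log ‖f z‖ : ℂ), ?_, ?_⟩
  · refine AnalyticAt.add (hq.clog ?_) analyticAt_const
    simp [div_self h0]
  · filter_upwards [hf.continuousAt.eventually_ne h0] with w hw
    have h1 : ‖f w‖ ≠ 0 := by simpa using hw
    have h2 : ‖f z‖ ≠ 0 := by simpa using h0
    rw [Complex.add_re, Complex.log_re, Complex.ofReal_re, norm_div, Real.log_div h1 h2]
    ring

/-- A local inverse. -/
lemma exists_local_inverse {f : ℂ → ℂ} (hf : AnalyticAt ℂ f z) (hd : deriv f z ≠ 0) :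
    ∃ g : ℂ → ℂ, AnalyticAt ℂ g (f z) ∧ g (f z) = z ∧ deriv g (f z) = (deriv f z)⁻¹ ∧
      (∀ᶠ w in 𝓝 z, g (f w) = w) ∧ ∀ᶠ w in 𝓝 (f z), f (g w) = w :=
  ⟨hf.hasStrictDerivAt.localInverse _ _ _ hd, hf.analyticAt_localInverse hd,
    HasStrictFDerivAt.localInverse_apply_image ..,
    (hf.hasStrictDerivAt.to_localInverse hd).hasDerivAt.deriv,
    hf.hasStrictDerivAt.eventually_left_inverse hd,
    hf.hasStrictDerivAt.eventually_right_inverse hd⟩

/-- Descent along a local isomorphism. -/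
lemma HarmAt.of_comp {f : ℂ → ℂ} (hf : AnalyticAt ℂ f z) (hd : deriv f z ≠ 0)
    (h : HarmAt (fun w => u (f w)) z) : HarmAt u (f z) := by
  obtain ⟨g, hg, hgz, -, -, hr⟩ := exists_local_inverse hf hd
  have h' : HarmAt (fun w => u (f w)) (g (f z)) := by rw [hgz]; exact h
  exact (HarmAt.comp hg h').congr (hr.mono fun w hw => by simp only [hw])

namespace CHarmAux

lemma harmonic (h : HarmAt u z) : InnerProductSpace.HarmonicAt u z := by
  obtain ⟨f, hf, hu⟩ := h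
  exact (InnerProductSpace.harmonicAt_congr_nhds (f₂ := fun w => (f w).re) hu).2 hf.harmonicAt_re

lemma cont (h : HarmAt u z) : ContinuousAt u z := by
  obtain ⟨f, hf, hu⟩ := h
  exact (Complex.continuous_re.continuousAt.comp hf.continuousAt).congr
    (hu.mono fun w hw => hw.symm)

/-- Cauchy estimate on a closed disc inside the domain. -/
lemma cauchy {E : Type} [NormedAddCommGroup E] [NormedSpace ℂ E] {f : ℂ → E} {B h : ℝ}
    (hf : DifferentiableOn ℂ f (ball c r)) (hh : 0 < h) (hs : closedBall z h ⊆ ball c r)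
    (hB : ∀ w ∈ closedBall z h, ‖f w‖ ≤ B) : ‖deriv f z‖ ≤ B / h := by
  refine Complex.norm_deriv_le_of_forall_mem_sphere_norm_le hh ?_
    fun w hw => hB w (sphere_subset_closedBall hw)
  refine DifferentiableOn.diffContOnCl ?_
  rw [closure_ball z hh.ne']
  exact hf.mono hs

lemma lip {E : Type} [NormedAddCommGroup E] [NormedSpace ℂ E] {f : ℂ → E} {B s : ℝ}
    (hf : DifferentiableOn ℂ f (ball c r)) (hB : ∀ w ∈ ball c r, ‖f w‖ ≤ B) (hs : s < r)
    {x y : ℂ} (hx : x ∈ ball c s) (hy : y ∈ ball c s) :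
    ‖f y - f x‖ ≤ B / (r - s) * ‖y - x‖ := by
  have hsub : ∀ w ∈ ball c s, closedBall w (r - s) ⊆ ball c r := fun w hw => by
    refine closedBall_subset_ball' ?_
    have := mem_ball.1 hw
    linarith
  refine (convex_ball c s).norm_image_sub_le_of_norm_deriv_le (𝕜 := ℂ) (fun w hw => ?_)
    (fun w hw => ?_) hx hy
  · exact hf.differentiableAt (isOpen_ball.mem_nhds (ball_subset_ball hs.le hw))
  · exact cauchy hf (by linarith) (hsub w hw) fun v hv => hB v (hsub w hw hv)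

end CHarmAux

lemma harm_ball (h : ∀ z ∈ ball c r, HarmAt u z) :
    ∃ f : ℂ → ℂ, DifferentiableOn ℂ f (ball c r) ∧ ∀ z ∈ ball c r, u z = (f z).re := by
  obtain ⟨F, hF, hu⟩ := InnerProductSpace.HarmonicOnNhd.exists_analyticOnNhd_ball_re_eq
    (f := u) (z := c) (R := r) fun z hz => CHarmAux.harmonic (h z hz)
  exact ⟨F, hF.differentiableOn, fun z hz => (hu hz).symm⟩

lemma harm_univ (h : ∀ z, HarmAt u z) :
    ∃ f : ℂ → ℂ, Differentiable ℂ f ∧ ∀ z, u z = (f z).re := by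
  obtain ⟨F, hF, hu⟩ := InnerProductSpace.HarmonicOnNhd.exists_analyticOnNhd_univ_re_eq
    (f := u) fun z _ => CHarmAux.harmonic (h z)
  exact ⟨F, differentiableOn_univ.1 hF.differentiableOn, fun z => (congrFun hu z).symm⟩

lemma exists_log_ball {f : ℂ → ℂ} (hf : DifferentiableOn ℂ f (ball c r))
    (h0 : ∀ z ∈ ball c r, f z ≠ 0) :
    ∃ g : ℂ → ℂ, DifferentiableOn ℂ g (ball c r) ∧ ∀ z ∈ ball c r, Complex.exp (g z) = f z := by
  rcases le_or_gt r 0 with hr | hr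
  · exact ⟨0, differentiableOn_const 0, by simp [ball_eq_empty.2 hr]⟩
  have hq : DifferentiableOn ℂ (fun w => deriv f w / f w) (ball c r) :=
    (hf.deriv isOpen_ball).div hf h0
  obtain ⟨g, hgc, hg⟩ := hq.isExactOn_ball.with_val_at c (Complex.log (f c))
  have hgd : DifferentiableOn ℂ g (ball c r) := fun w hw =>
    (hg w hw).differentiableAt.differentiableWithinAt
  refine ⟨g, hgd, fun w hw => ?_⟩
  have hD : ∀ v ∈ ball c r, HasDerivAt (fun v => f v * Complex.exp (- g v)) 0 v := fun v hv => by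
    have h1 := (hf.differentiableAt (isOpen_ball.mem_nhds hv)).hasDerivAt
    have h2 := h1.fun_mul (hg v hv).fun_neg.cexp
    refine h2.congr_deriv ?_
    have := h0 v hv
    field_simp
    ring
  have hc : c ∈ ball c r := mem_ball_self hr
  have he := isOpen_ball.is_const_of_deriv_eq_zero (𝕜 := ℂ) (convex_ball c r).isPreconnected
    (fun v hv => (hD v hv).differentiableAt.differentiableWithinAt)
    (fun v hv => (hD v hv).deriv) hw hc
  simp only [hgc, Complex.exp_neg, Complex.exp_log (h0 c hc), mul_inv_cancel₀ (h0 c hc)] at he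
  have := Complex.exp_ne_zero (g w)
  field_simp at he
  exact he.symm

/-- Montel theorem along an ultrafilter. -/
theorem exists_ulim {ι E : Type} [NormedAddCommGroup E] [NormedSpace ℂ E] [ProperSpace E]
    (U : Ultrafilter ι) {f : ι → ℂ → E} {B : ℝ}
    (hf : ∀ᶠ k in (U : Filter ι), DifferentiableOn ℂ (f k) (ball c r) ∧ ∀ z ∈ ball c r, ‖f k z‖ ≤ B) :
    ∃ g : ℂ → E, DifferentiableOn ℂ g (ball c r) ∧ (∀ z ∈ ball c r, ‖g z‖ ≤ B) ∧
      ∀ s < r, TendstoUniformlyOn f g U (ball c s) := by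
  have hex : ∀ z, ∃ y : E, z ∈ ball c r → ‖y‖ ≤ B ∧ Tendsto (fun k => f k z) U (𝓝 y) := by
    intro z
    by_cases hz : z ∈ ball c r
    · have hle : (U.map fun k => f k z : Filter E) ≤ 𝓟 (closedBall (0 : E) B) := by
        rw [le_principal_iff]
        exact hf.mono fun k hk => mem_closedBall_zero_iff.2 (hk.2 z hz)
      obtain ⟨y, hy, hU⟩ := (isCompact_closedBall (0 : E) B).ultrafilter_le_nhds
        (U.map fun k => f k z) hle
      exact ⟨y, fun _ => ⟨mem_closedBall_zero_iff.1 hy, hU⟩⟩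
    · exact ⟨0, fun h => (hz h).elim⟩
  choose g hg using hex
  have hunif : ∀ s < r, TendstoUniformlyOn f g U (ball c s) := by
    intro s hs
    rw [Metric.tendstoUniformlyOn_iff]
    intro ε hε
    have hsub : ball c s ⊆ ball c r := ball_subset_ball hs.le
    set K : ℝ := |B / (r - s)| + 1 with hK
    have hK0 : 0 < K := by positivity
    have hKle : B / (r - s) ≤ K := (le_abs_self _).trans (by linarith)
    have hgl : ∀ x ∈ ball c s, ∀ y ∈ ball c s, ‖g y - g x‖ ≤ B / (r - s) * ‖y - x‖ := by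
      intro x hx y hy
      refine le_of_tendsto (((hg y (hsub hy)).2.sub (hg x (hsub hx)).2).norm) ?_
      exact hf.mono fun k hk => CHarmAux.lip hk.1 hk.2 hs hx hy
    have htb : TotallyBounded (ball c s) :=
      (isCompact_closedBall c s).totallyBounded.subset ball_subset_closedBall
    obtain ⟨T, hT, hTf, hcov⟩ := Metric.finite_approx_of_totallyBounded htb (ε / (3 * K))
      (by positivity)
    have hev : ∀ᶠ k in (U : Filter ι), ∀ y ∈ T, dist (f k y) (g y) < ε / 3 :=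
      (hTf.eventually_all).2 fun y hy =>
        Metric.tendsto_nhds.1 (hg y (hsub (hT hy))).2 _ (by positivity)
    filter_upwards [hf, hev] with k hk hkT x hx
    obtain ⟨y, hy, hxy⟩ := Set.mem_iUnion₂.1 (hcov hx)
    have h1 := hgl y (hT hy) x hx
    have h2 := CHarmAux.lip hk.1 hk.2 hs (hT hy) hx
    have h3 := hkT y hy
    have h4 : B / (r - s) * ‖x - y‖ ≤ ε / 3 := by
      have h5 : ‖x - y‖ ≤ ε / (3 * K) := by
        rw [← dist_eq_norm]; exact (mem_ball.1 hxy).le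
      calc B / (r - s) * ‖x - y‖ ≤ K * ‖x - y‖ := by gcongr
        _ ≤ K * (ε / (3 * K)) := by gcongr
        _ = ε / 3 := by field_simp
    rw [dist_eq_norm] at h3 ⊢
    have e : g x - f k x = (g x - g y) - (f k y - g y) - (f k x - f k y) := by abel
    rw [e]
    have := norm_sub_le ((g x - g y) - (f k y - g y)) (f k x - f k y)
    have := norm_sub_le (g x - g y) (f k y - g y)
    linarith
  refine ⟨g, fun z hz => ?_, fun z hz => (hg z hz).1, hunif⟩
  obtain ⟨s, hzs, hs⟩ := exists_between (mem_ball.1 hz)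
  have hd : DifferentiableOn ℂ g (ball c s) :=
    (hunif s hs).tendstoLocallyUniformlyOn.differentiableOn
      (hf.mono fun k hk => hk.1.mono (ball_subset_ball hs.le)) isOpen_ball
  exact (hd.differentiableAt (isOpen_ball.mem_nhds (mem_ball.2 hzs))).differentiableWithinAt

/-- Uniform limits of harmonic functions are harmonic. -/
theorem harm_limit {ι : Type} {l : Filter ι} [l.NeBot] {w : ι → ℂ → ℝ}
    (hw : ∀ᶠ k in l, ∀ z ∈ ball c r, HarmAt (w k) z) (hl : TendstoUniformlyOn w u l (ball c r)) :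
    ∀ z ∈ ball c r, HarmAt u z := by
  intro z hz
  have h1 := Metric.tendstoUniformlyOn_iff.1 hl 1 one_pos
  obtain ⟨k0, hk0, hk1⟩ := (hw.and h1).exists
  have hb : ∀ᶠ x in 𝓝 z, x ∈ ball c r ∧ w k0 x < w k0 z + 1 :=
    (isOpen_ball.eventually_mem hz).and
      ((CHarmAux.cont (hk0 z hz)).eventually_lt continuousAt_const (by linarith))
  obtain ⟨ρ, hρ, hball⟩ := Metric.eventually_nhds_iff_ball.1 hb
  have hex : ∀ k, ∃ f : ℂ → ℂ, (∀ x ∈ ball c r, HarmAt (w k) x) →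
      DifferentiableOn ℂ f (ball c r) ∧ ∀ x ∈ ball c r, w k x = (f x).re := fun k => by
    by_cases hk : ∀ x ∈ ball c r, HarmAt (w k) x
    · obtain ⟨f, hf⟩ := harm_ball hk
      exact ⟨f, fun _ => hf⟩
    · exact ⟨0, fun h => (hk h).elim⟩
  choose f hf using hex
  have hsub : ball z ρ ⊆ ball c r := fun x hx => (hball x hx).1
  have hU := Ultrafilter.of_le l
  have hev : ∀ᶠ k in (Ultrafilter.of l : Filter ι),
      DifferentiableOn ℂ (fun x => Complex.exp (f k x)) (ball z ρ) ∧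
      ∀ x ∈ ball z ρ, ‖Complex.exp (f k x)‖ ≤ Real.exp (w k0 z + 3) := by
    filter_upwards [hU hw, hU h1] with k hk hk'
    refine ⟨((hf k hk).1.mono hsub).cexp, fun x hx => ?_⟩
    rw [Complex.norm_exp, ← (hf k hk).2 x (hsub hx)]
    have a1 := hk' x (hsub hx)
    have a2 := hk1 x (hsub hx)
    have a3 := (hball x hx).2
    rw [Real.dist_eq, abs_lt] at a1 a2
    exact Real.exp_le_exp.2 (by linarith [a1.1, a2.2])
  obtain ⟨E, hE, -, hlim⟩ := exists_ulim (Ultrafilter.of l) hev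
  have hn : ∀ x ∈ ball z (ρ / 2), ‖E x‖ = Real.exp (u x) := fun x hx => by
    have hx' := hsub (ball_subset_ball (half_le_self hρ.le) hx)
    have t1 := ((hlim (ρ / 2) (half_lt_self hρ)).tendsto_at hx).norm
    have t2 := (Real.continuous_exp.tendsto _).comp ((hl.tendsto_at hx').mono_left hU)
    refine tendsto_nhds_unique_of_eventuallyEq t1 t2 ?_
    filter_upwards [hU hw] with k hk
    simp only [Function.comp]
    rw [Complex.norm_exp, ← (hf k hk).2 x hx']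
  have hz' : z ∈ ball z (ρ / 2) := mem_ball_self (half_pos hρ)
  have hE0 : E z ≠ 0 := by
    rw [← norm_ne_zero_iff, hn z hz']; exact (Real.exp_pos _).ne'
  refine (harmAt_log_norm (hE.analyticAt (ball_mem_nhds z hρ)) hE0).congr ?_
  filter_upwards [isOpen_ball.eventually_mem hz'] with x hx
  rw [hn x hx, Real.log_exp]

/-- A differential inequality that a bounded holomorphic function cannot satisfy. -/
theorem dini {j k : ℕ} (hjk : j < k) (c : ℂ) {r : ℝ} (hr : 0 < r) : ∃ Λ : ℝ, ∀ t : ℂ → ℂ,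
    DifferentiableOn ℂ t (ball c r) → (∀ z ∈ ball c r, ‖t z‖ ≤ 1) →
    (∀ z ∈ ball c r, Λ * ‖t z‖ ^ j ≤ ‖deriv t z‖ ^ k) → ∀ z ∈ ball c r, t z = 0 := by
  obtain ⟨n, rfl⟩ : ∃ n, k = n + 1 := ⟨k - 1, by omega⟩
  set q : ℝ := 2 ^ (n + 1) with hq
  have hq1 : 1 < q := one_lt_pow₀ one_lt_two (by omega)
  have hq0 : 0 < q := by linarith
  refine ⟨2 * q ^ (n + 3) / r ^ (n + 1), fun t ht hb hd => ?_⟩
  have hrad : ∀ m : ℕ, r / 2 + r / 2 ^ (m + 2) < r := fun m => by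
    have : r / 2 ^ (m + 2) < r / 2 := by
      refine div_lt_div_of_pos_left hr two_pos ?_
      calc (2 : ℝ) < 2 ^ 2 := by norm_num
        _ ≤ 2 ^ (m + 2) := pow_le_pow_right₀ one_le_two (by omega)
    linarith
  have key : ∀ m : ℕ, ∀ z ∈ closedBall c (r / 2 + r / 2 ^ (m + 2)), ‖t z‖ ≤ q⁻¹ ^ m := by
    intro m
    induction m with
    | zero => exact fun z hz => by simpa using hb z (closedBall_subset_ball (hrad 0) hz)
    | succ m ih =>
      intro z hz
      have hh : 0 < r / 2 ^ (m + 3) := by positivity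
      have hsub : closedBall z (r / 2 ^ (m + 3)) ⊆ closedBall c (r / 2 + r / 2 ^ (m + 2)) := by
        refine closedBall_subset_closedBall' ?_
        have h1 := mem_closedBall.1 hz
        have h2 : r / 2 ^ (m + 2) = r / 2 ^ (m + 3) + r / 2 ^ (m + 1 + 2) := by
          field_simp; ring
        linarith
      have hc := CHarmAux.cauchy ht hh (hsub.trans (closedBall_subset_ball (hrad m)))
        fun v hv => ih v (hsub hv)
      by_contra hlt
      push Not at hlt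
      have hi0 : 0 < q⁻¹ ^ (m + 1) := by positivity
      have hi1 : q⁻¹ ^ (m + 1) ≤ 1 := pow_le_one₀ (by positivity) (inv_le_one_of_one_le₀ hq1.le)
      have h1 : (q⁻¹ ^ (m + 1)) ^ n ≤ ‖t z‖ ^ j :=
        (pow_le_pow_of_le_one hi0.le hi1 (by omega)).trans (pow_le_pow_left₀ hi0.le hlt.le j)
      have h2 := hd z (closedBall_subset_ball (hrad (m + 1)) hz)
      have h3 : ‖deriv t z‖ ^ (n + 1) ≤ (q⁻¹ ^ m / (r / 2 ^ (m + 3))) ^ (n + 1) :=
        pow_le_pow_left₀ (norm_nonneg _) hc _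
      have h4 : 2 * q ^ (n + 3) / r ^ (n + 1) * (q⁻¹ ^ (m + 1)) ^ n ≤
          (q⁻¹ ^ m / (r / 2 ^ (m + 3))) ^ (n + 1) :=
        le_trans (mul_le_mul_of_nonneg_left h1 (by positivity)) (h2.trans h3)
      have h5 : ((2 : ℝ) ^ (m + 3)) ^ (n + 1) = q ^ (m + 3) := by
        rw [hq, ← pow_mul, ← pow_mul, mul_comm]
      have h6 : (q⁻¹ ^ m / (r / 2 ^ (m + 3))) ^ (n + 1) =
          q ^ (n + 3) / r ^ (n + 1) * (q⁻¹ ^ (m + 1)) ^ n := by
        rw [div_pow, div_pow, h5]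
        simp only [inv_pow]
        field_simp
        ring
      rw [h6] at h4
      have h7 : 0 < q ^ (n + 3) / r ^ (n + 1) * (q⁻¹ ^ (m + 1)) ^ n := by positivity
      have h8 : 2 * q ^ (n + 3) / r ^ (n + 1) * (q⁻¹ ^ (m + 1)) ^ n =
          2 * (q ^ (n + 3) / r ^ (n + 1) * (q⁻¹ ^ (m + 1)) ^ n) := by ring
      linarith
  have hz0 : ∀ z ∈ ball c (r / 2), t z = 0 := fun z hz => by
    have hlim : Tendsto (fun m : ℕ => q⁻¹ ^ m) atTop (𝓝 0) :=
      tendsto_pow_atTop_nhds_zero_of_lt_one (by positivity) (inv_lt_one_of_one_lt₀ hq1)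
    refine norm_le_zero_iff.1 (ge_of_tendsto' hlim fun m => key m z ?_)
    refine closedBall_subset_closedBall ?_ (ball_subset_closedBall hz)
    have : 0 < r / 2 ^ (m + 2) := by positivity
    linarith
  exact fun z hz => (ht.analyticOnNhd isOpen_ball).eqOn_zero_of_preconnected_of_eventuallyEq_zero
    (convex_ball c r).isPreconnected (mem_ball_self hr)
    (Filter.eventually_of_mem (ball_mem_nhds c (half_pos hr)) hz0) hz

namespace CHarmAux

/-- Quadratic remainder of a germ that fixes the origin. -/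
lemma quad {ψ : ℂ → ℂ} (hψ : AnalyticAt ℂ ψ 0) (h0 : ψ 0 = 0) :
    ∃ C : ℝ, 0 < C ∧ ∀ᶠ w in 𝓝 (0 : ℂ), ‖ψ w - deriv ψ 0 * w‖ ≤ C * ‖w‖ ^ 2 := by
  have h1 : AnalyticAt ℂ (dslope ψ 0) 0 := by
    obtain ⟨p, hp⟩ := hψ
    exact hp.has_fpower_series_dslope_fslope.analyticAt
  have h2 : AnalyticAt ℂ (dslope (dslope ψ 0) 0) 0 := by
    obtain ⟨p, hp⟩ := h1
    exact hp.has_fpower_series_dslope_fslope.analyticAt
  refine ⟨‖dslope (dslope ψ 0) 0 0‖ + 1, by positivity, ?_⟩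
  filter_upwards [h2.continuousAt.norm.eventually_lt continuousAt_const (lt_add_one _)] with w hw
  have e1 := sub_smul_dslope ψ 0 w
  have e2 := sub_smul_dslope (dslope ψ 0) 0 w
  rw [dslope_same] at e2
  simp only [sub_zero, smul_eq_mul, h0] at e1 e2
  have e : ψ w - deriv ψ 0 * w = dslope (dslope ψ 0) 0 w * w ^ 2 := by
    linear_combination -e1 - w * e2
  rw [e, norm_mul, norm_pow]
  gcongr

/-- The Koenigs coordinate. -/
lemma coord {ψ : ℂ → ℂ} (hψ : AnalyticAt ℂ ψ 0) (hx : ψ 0 = 0)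
    (h0 : deriv ψ 0 ≠ 0) (h1 : ‖deriv ψ 0‖ < 1) :
    ∃ κ : ℂ → ℂ, AnalyticAt ℂ κ 0 ∧ κ 0 = 0 ∧ deriv κ 0 = 1 ∧
      ∀ᶠ w in 𝓝 (0 : ℂ), κ (ψ w) = deriv ψ 0 * κ w := by
  set μ := deriv ψ 0 with hμ
  have hm0 : 0 < ‖μ‖ := norm_pos_iff.2 h0
  obtain ⟨θ, hθ1, hθ2⟩ : ∃ θ : ℝ, ‖μ‖ < θ ∧ θ ^ 2 < ‖μ‖ := by
    have : ‖μ‖ < √‖μ‖ := Real.lt_sqrt_of_sq_lt (by nlinarith)
    obtain ⟨θ, a, b⟩ := exists_between this
    exact ⟨θ, a, (Real.lt_sqrt (by linarith)).1 b⟩
  have hθ0 : 0 < θ := by linarith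
  have hθ3 : θ < 1 := by nlinarith
  obtain ⟨C, hC, hq⟩ := quad hψ hx
  have hsm : ∀ᶠ w in 𝓝 (0 : ℂ), C * ‖w‖ < θ - ‖μ‖ :=
    (continuousAt_const.mul continuous_norm.continuousAt).eventually_lt continuousAt_const
      (by simpa using hθ1)
  obtain ⟨ρ, hρ, hb⟩ := Metric.eventually_nhds_iff_ball.1
    (hq.and (hsm.and hψ.eventually_analyticAt))
  have hcon : ∀ w ∈ ball (0 : ℂ) ρ, ‖ψ w‖ ≤ θ * ‖w‖ := fun w hw => by
    obtain ⟨a, b, -⟩ := hb w hw
    have e : ψ w = (ψ w - μ * w) + μ * w := by ring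
    have := norm_add_le (ψ w - μ * w) (μ * w)
    rw [← e, norm_mul] at this
    nlinarith [norm_nonneg w]
  have hmaps : ∀ w ∈ ball (0 : ℂ) ρ, ψ w ∈ ball (0 : ℂ) ρ := fun w hw => by
    have a := hcon w hw
    rw [mem_ball_zero_iff] at hw ⊢
    nlinarith [norm_nonneg w]
  have hit : ∀ n : ℕ, ∀ w ∈ ball (0 : ℂ) ρ,
      ψ^[n] w ∈ ball (0 : ℂ) ρ ∧ ‖ψ^[n] w‖ ≤ θ ^ n * ‖w‖ := by
    intro n w hw
    induction n with
    | zero => exact ⟨hw, by simp⟩
    | succ n ih =>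
      rw [Function.iterate_succ_apply']
      refine ⟨hmaps _ ih.1, (hcon _ ih.1).trans ?_⟩
      rw [pow_succ', mul_assoc]
      gcongr
      exact ih.2
  have hdψ : DifferentiableOn ℂ ψ (ball 0 ρ) := fun w hw =>
    (hb w hw).2.2.differentiableAt.differentiableWithinAt
  have hdit : ∀ n : ℕ, DifferentiableOn ℂ ψ^[n] (ball 0 ρ) := fun n => hdψ.iterate hmaps n
  set d : ℕ → ℂ → ℂ := fun n w => ψ^[n + 1] w / μ ^ (n + 1) - ψ^[n] w / μ ^ n with hd
  set a : ℝ := θ ^ 2 / ‖μ‖ with ha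
  have ha0 : 0 ≤ a := by positivity
  have ha1 : a < 1 := (div_lt_one hm0).2 hθ2
  have hdle : ∀ n : ℕ, ∀ w ∈ ball (0 : ℂ) ρ, ‖d n w‖ ≤ C / ‖μ‖ * ‖w‖ ^ 2 * a ^ n := by
    intro n w hw
    have e : d n w = (ψ (ψ^[n] w) - μ * ψ^[n] w) / μ ^ (n + 1) := by
      simp only [hd, Function.iterate_succ_apply']
      field_simp
      ring
    rw [e, norm_div, norm_pow]
    have h2 := (hb _ (hit n w hw).1).1
    have h3 : ‖ψ^[n] w‖ ^ 2 ≤ (θ ^ n * ‖w‖) ^ 2 := by
      gcongr; exact (hit n w hw).2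
    calc ‖ψ (ψ^[n] w) - μ * ψ^[n] w‖ / ‖μ‖ ^ (n + 1)
        ≤ C * (θ ^ n * ‖w‖) ^ 2 / ‖μ‖ ^ (n + 1) := by
          gcongr
          exact h2.trans (by gcongr)
      _ = C / ‖μ‖ * ‖w‖ ^ 2 * a ^ n := by
          rw [ha, div_pow, ← pow_mul]; field_simp; ring
  have hgeo : ∀ b : ℝ, Summable fun n : ℕ => b * a ^ n := fun b =>
    (summable_geometric_of_lt_one ha0 ha1).mul_left b
  have hdk : DifferentiableOn ℂ (fun w => ∑' n, d n w) (ball 0 ρ) := by
    refine Complex.differentiableOn_tsum_of_summable_norm (hgeo (C / ‖μ‖ * ρ ^ 2))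
      (fun n => ((hdit (n + 1)).div_const _).sub ((hdit n).div_const _)) isOpen_ball
      fun n w hw => (hdle n w hw).trans ?_
    have := (mem_ball_zero_iff.1 hw).le
    gcongr
  have hsum : ∀ w ∈ ball (0 : ℂ) ρ, Summable fun n => d n w := fun w hw =>
    Summable.of_norm_bounded (hgeo _) fun n => hdle n w hw
  have hlim : ∀ w ∈ ball (0 : ℂ) ρ,
      Tendsto (fun n => ψ^[n] w / μ ^ n) atTop (𝓝 (w + ∑' n, d n w)) := fun w hw => by
    refine ((hsum w hw).hasSum.tendsto_sum_nat.const_add w).congr fun n => ?_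
    rw [Finset.sum_range_sub (fun n => ψ^[n] w / μ ^ n)]
    simp
  have hbd : ∀ w ∈ ball (0 : ℂ) ρ, ‖∑' n, d n w‖ ≤ C / ‖μ‖ * ‖w‖ ^ 2 * (1 - a)⁻¹ := fun w hw =>
    tsum_of_norm_bounded ((hasSum_geometric_of_lt_one ha0 ha1).mul_left _) fun n => hdle n w hw
  have hz : ∑' n, d n 0 = 0 := by
    simpa using hbd 0 (mem_ball_self hρ)
  have hder : HasDerivAt (fun w => ∑' n, d n w) 0 0 := by
    rw [hasDerivAt_iff_isLittleO]
    have b1 : (fun w => ∑' n, d n w) =O[𝓝 0] fun w : ℂ => ‖w - 0‖ ^ 2 := by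
      refine Asymptotics.IsBigO.of_bound (C / ‖μ‖ * (1 - a)⁻¹) ?_
      filter_upwards [ball_mem_nhds (0 : ℂ) hρ] with w hw
      refine (hbd w hw).trans (le_of_eq ?_)
      simp only [sub_zero, norm_pow, norm_norm]
      ring
    simpa [hz] using b1.trans_isLittleO (Asymptotics.isLittleO_pow_sub_sub (0 : ℂ) one_lt_two)
  refine ⟨fun w => w + ∑' n, d n w,
    analyticAt_id.add (hdk.analyticAt (ball_mem_nhds 0 hρ)), by simp [hz], ?_, ?_⟩
  · simpa using ((hasDerivAt_id' (0 : ℂ)).fun_add hder).deriv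
  · filter_upwards [ball_mem_nhds (0 : ℂ) hρ] with w hw
    have t1 := hlim _ (hmaps w hw)
    have t2 := ((hlim w hw).comp (tendsto_add_atTop_nat 1)).const_mul μ
    refine tendsto_nhds_unique t1 (t2.congr fun n => ?_)
    simp only [Function.comp, Function.iterate_succ_apply]
    field_simp
    ring

end CHarmAux

/-- Koenigs linearization. -/
theorem koenigs {φ : ℂ → ℂ} {x : ℂ} (hφ : AnalyticAt ℂ φ x) (hx : φ x = x)
    (h0 : deriv φ x ≠ 0) (h1 : ‖deriv φ x‖ < 1) {R : ℝ} (hR : 0 < R) :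
    ∃ (r : ℝ) (L : ℂ → ℂ), 0 < r ∧ L 0 = x ∧ DifferentiableOn ℂ L (ball 0 r) ∧
      Set.InjOn L (ball 0 r) ∧ (∀ ζ ∈ ball (0 : ℂ) r, deriv L ζ ≠ 0) ∧
      Set.MapsTo L (ball 0 r) (ball x R) ∧
      ∀ ζ ∈ ball (0 : ℂ) r, L (deriv φ x * ζ) = φ (L ζ) := by
  set ψ : ℂ → ℂ := fun w => φ (x + w) - x with hψd
  have hφ' : AnalyticAt ℂ φ (x + 0) := by simpa using hφ
  have hψ : AnalyticAt ℂ ψ 0 :=
    (AnalyticAt.comp (f := fun w => x + w) hφ' (analyticAt_const.add analyticAt_id)).sub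
      analyticAt_const
  have hψ0 : ψ 0 = 0 := by simp [hψd, hx]
  have hdψ : deriv ψ 0 = deriv φ x := by
    simp only [hψd]
    rw [deriv_sub_const, deriv_comp_const_add, add_zero]
  obtain ⟨κ, hκ, hκ0, hκ1, hκe⟩ := CHarmAux.coord hψ hψ0 (hdψ ▸ h0) (hdψ ▸ h1)
  obtain ⟨g, hg, hg0, hg1, hl, hr⟩ := exists_local_inverse hκ (by simp [hκ1])
  rw [hκ0] at hg hg0 hg1 hr
  rw [hκ1, inv_one] at hg1
  rw [hdψ] at hκe
  have tg : Tendsto g (𝓝 0) (𝓝 0) := by simpa [hg0] using hg.continuousAt.tendsto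
  have tψ : Tendsto ψ (𝓝 0) (𝓝 0) := by simpa [hψ0] using hψ.continuousAt.tendsto
  have e1 : ∀ᶠ ζ in 𝓝 (0 : ℂ), deriv g ζ ≠ 0 :=
    hg.deriv.continuousAt.eventually_ne (by simp [hg1])
  have e2 : ∀ᶠ ζ in 𝓝 (0 : ℂ), g ζ ∈ ball (0 : ℂ) R := tg.eventually (ball_mem_nhds 0 hR)
  have e3 : ∀ᶠ ζ in 𝓝 (0 : ℂ), g (deriv φ x * ζ) = ψ (g ζ) := by
    filter_upwards [(tψ.comp tg).eventually hl, tg.eventually hκe, hr] with ζ a b c
    simp only [Function.comp] at a
    rw [← a, b, c]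
  obtain ⟨r, hr0, hb⟩ := Metric.eventually_nhds_iff_ball.1
    (hg.eventually_analyticAt.and (hr.and (e1.and (e2.and e3))))
  refine ⟨r, fun ζ => x + g ζ, hr0, by simp [hg0], fun ζ hζ => ?_, fun a ha b hb' hab => ?_,
    fun ζ hζ => ?_, fun ζ hζ => ?_, fun ζ hζ => ?_⟩
  · exact ((hb ζ hζ).1.differentiableAt.const_add x).differentiableWithinAt
  · have : g a = g b := add_left_cancel hab
    rw [← (hb a ha).2.1, ← (hb b hb').2.1, this]
  · rw [deriv_const_add]; exact (hb ζ hζ).2.2.1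
  · have := (hb ζ hζ).2.2.2.1
    rw [mem_ball_zero_iff] at this
    simpa [mem_ball, dist_eq_norm] using this
  · simp only [(hb ζ hζ).2.2.2.2, hψd]
    ring

end Pool.Agent.MP_3827f0_nt.H92
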