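import Pool.Agent.MP_3827f0_nt.H92.Esc
import Pool.Agent.MP_3827f0_nt.H92.CHarm

/-! Analytic curves in the plane and the chordal distance. -/

set_option autoImplicit false

namespace Pool.Agent.MP_3827f0_nt.H92

open Metric Filter Topology

variable {d : ℕ} {F : PM ℂ} {G : V ℂ → ℝ} {Z : V ℂ}

lemma analyticAt_app (F : PM ℂ) (Z : V ℂ) : AnalyticAt ℂ (app F) Z :=
  AnalyticAt.pi fun i => AnalyticOnNhd.eval_mvPolynomial (F i) Z (Set.mem_univ _)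

lemma analyticAt_iter (F : PM ℂ) (n : ℕ) (Z : V ℂ) : AnalyticAt ℂ (app F)^[n] Z := by
  induction n with
  | zero => exact analyticAt_id
  | succ n ih =>
    rw [Function.iterate_succ']
    exact (analyticAt_app F _).comp ih

namespace CFatAux

lemma analyticAt_wedge' {E : Type} [NormedAddCommGroup E] [NormedSpace ℂ E] {s t : E → V ℂ}
    {z : E} (hs : AnalyticAt ℂ s z) (ht : AnalyticAt ℂ t z) :
    AnalyticAt ℂ (fun w => wedge (s w) (t w)) z :=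
  ((analyticAt_pi_iff.1 hs 0).mul (analyticAt_pi_iff.1 ht 1)).sub
    ((analyticAt_pi_iff.1 hs 1).mul (analyticAt_pi_iff.1 ht 0))

lemma hasDerivAt_wedge {s : ℂ → V ℂ} {z : ℂ} {s' : V ℂ} (hs : HasDerivAt s s' z) (Y : V ℂ) :
    HasDerivAt (fun w => wedge (s w) Y) (wedge s' Y) z :=
  ((hasDerivAt_pi.1 hs 0).mul_const (Y 1)).sub ((hasDerivAt_pi.1 hs 1).mul_const (Y 0))

lemma hasDerivAt_eval {s : ℂ → V ℂ} {z : ℂ} {s' : V ℂ} (hs : HasDerivAt s s' z)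
    (p : MvPolynomial (Fin 2) ℂ) :
    HasDerivAt (fun w => MvPolynomial.eval (s w) p)
      (∑ i, MvPolynomial.eval (s z) (MvPolynomial.pderiv i p) * s' i) z := by
  induction p using MvPolynomial.induction_on with
  | C a => simpa using hasDerivAt_const z a
  | add p q hp hq => simpa [add_mul, Finset.sum_add_distrib, add_add_add_comm] using hp.fun_add hq
  | mul_X p j hp =>
    have h := hp.fun_mul (hasDerivAt_pi.1 hs j)
    simp only [map_mul, MvPolynomial.eval_X]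
    refine h.congr_deriv ?_
    fin_cases j <;> simp [MvPolynomial.pderiv_X, Pi.single_apply] <;> ring

lemma norm_wedge_le (X Y : V ℂ) : ‖wedge X Y‖ ≤ 2 * (‖X‖ * ‖Y‖) := by
  have h (i j : Fin 2) : ‖X i * Y j‖ ≤ ‖X‖ * ‖Y‖ := by
    rw [norm_mul]
    exact mul_le_mul (norm_le_pi_norm X i) (norm_le_pi_norm Y j) (norm_nonneg _) (norm_nonneg _)
  have := norm_sub_le (X 0 * Y 1) (X 1 * Y 0)
  unfold wedge
  linarith [h 0 1, h 1 0]

lemma norm_three (X Y W : V ℂ) :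
    ‖wedge X Y‖ * ‖W‖ ≤ ‖wedge W Y‖ * ‖X‖ + ‖wedge X W‖ * ‖Y‖ := by
  have e : wedge X Y • W = wedge W Y • X + wedge X W • Y := by
    ext i
    fin_cases i <;> simp [wedge] <;> ring
  rw [← norm_smul, e, ← norm_smul, ← norm_smul]
  exact norm_add_le _ _

lemma decomp {Z W₀ : V ℂ} (h : wedge Z W₀ = 1) (W : V ℂ) :
    W = wedge W W₀ • Z - wedge W Z • W₀ := by
  have h' : Z 0 * W₀ 1 - Z 1 * W₀ 0 = 1 := h
  ext i
  fin_cases i
  · simp only [wedge, Fin.zero_eta, Pi.sub_apply, Pi.smul_apply, smul_eq_mul]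
    linear_combination (-(W 0)) * h'
  · simp only [wedge, Fin.mk_one, Pi.sub_apply, Pi.smul_apply, smul_eq_mul]
    linear_combination (-(W 1)) * h'

lemma decomp' {Z W₀ : V ℂ} (h : wedge Z W₀ = 1) {W : V ℂ} (ha : wedge W W₀ ≠ 0) :
    W = wedge W W₀ • (Z + (- wedge W Z / wedge W W₀) • W₀) := by
  rw [smul_add, smul_smul, mul_div_cancel₀ _ ha, neg_smul, ← sub_eq_add_neg]
  exact decomp h W

lemma wedge_line {Z W₀ : V ℂ} (h : wedge Z W₀ = 1) (τ : ℂ) : wedge (Z + τ • W₀) W₀ = 1 := by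
  rw [wedge_add_left, wedge_smul_left, wedge_self, h]; simp

lemma line_ne {Z W₀ : V ℂ} (h : wedge Z W₀ = 1) (τ : ℂ) : Z + τ • W₀ ≠ 0 := by
  intro h0
  have := wedge_line h τ
  rw [h0, wedge_zero_left] at this
  exact zero_ne_one this

lemma analyticAt_line (Z W₀ : V ℂ) (τ : ℂ) : AnalyticAt ℂ (fun t : ℂ => Z + t • W₀) τ :=
  analyticAt_const.add (analyticAt_id.smul analyticAt_const)

end CFatAux

open CFatAux

lemma analyticAt_wedge {s t : ℂ → V ℂ} {z : ℂ} (hs : AnalyticAt ℂ s z) (ht : AnalyticAt ℂ t z) :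
    AnalyticAt ℂ (fun w => wedge (s w) (t w)) z := analyticAt_wedge' hs ht

lemma analyticAt_aff {f : ℂ → ℂ} {z : ℂ} (hf : AnalyticAt ℂ f z) :
    AnalyticAt ℂ (fun w => (![f w, 1] : V ℂ)) z := by
  refine AnalyticAt.pi fun i => ?_
  fin_cases i
  · simpa using hf
  · simpa using analyticAt_const

lemma deriv_wedge_const {s : ℂ → V ℂ} {z : ℂ} (hs : DifferentiableAt ℂ s z) (Y : V ℂ) :
    deriv (fun w => wedge (s w) Y) z = wedge (deriv s z) Y :=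
  (hasDerivAt_wedge hs.hasDerivAt Y).deriv

/-- The chain rule for the Wronskian of a curve in the plane. -/
lemma wedge_deriv_app (hF : Hom d F) {s : ℂ → V ℂ} {z : ℂ} (hs : DifferentiableAt ℂ s z) :
    (d : ℂ) * wedge (app F (s z)) (deriv (fun w => app F (s w)) z) =
      jac F (s z) * wedge (s z) (deriv s z) := by
  have h1 : HasDerivAt (fun w => app F (s w))
      (fun k => ∑ i, MvPolynomial.eval (s z) (MvPolynomial.pderiv i (F k)) * deriv s z i) z :=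
    hasDerivAt_pi.2 fun k => hasDerivAt_eval hs.hasDerivAt (F k)
  have h2 (k : Fin 2) : ∑ i, s z i * MvPolynomial.eval (s z) (MvPolynomial.pderiv i (F k)) =
      d * MvPolynomial.eval (s z) (F k) := by
    have := congrArg (MvPolynomial.eval (s z)) (hF k).sum_X_mul_pderiv
    simpa using this
  rw [h1.deriv]
  have e0 := h2 0
  have e1 := h2 1
  simp only [Fin.sum_univ_two] at e0 e1
  simp only [wedge, app, jac, jacP, Fin.sum_univ_two, map_sub, map_mul]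
  linear_combination
    (-(MvPolynomial.eval (s z) (MvPolynomial.pderiv 0 (F 1)) * deriv s z 0 +
      MvPolynomial.eval (s z) (MvPolynomial.pderiv 1 (F 1)) * deriv s z 1)) * e0 +
    (MvPolynomial.eval (s z) (MvPolynomial.pderiv 0 (F 0)) * deriv s z 0 +
      MvPolynomial.eval (s z) (MvPolynomial.pderiv 1 (F 0)) * deriv s z 1) * e1

lemma dlt_nonneg (X Y : V ℂ) : 0 ≤ dlt X Y := by
  unfold dlt; positivity

lemma dlt_comm (X Y : V ℂ) : dlt X Y = dlt Y X := by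
  unfold dlt; rw [wedge_comm, norm_neg, mul_comm]

lemma dlt_smul_left {t : ℂ} (ht : t ≠ 0) (X Y : V ℂ) : dlt (t • X) Y = dlt X Y := by
  unfold dlt
  rw [wedge_smul_left, norm_mul, norm_smul, mul_assoc, mul_div_mul_left _ _ (norm_ne_zero_iff.2 ht)]

lemma dlt_eq_zero_iff {X Y : V ℂ} (hX : X ≠ 0) (hY : Y ≠ 0) : dlt X Y = 0 ↔ wedge X Y = 0 := by
  unfold dlt
  simp [hX, hY]

lemma dlt_congr {X X' : V ℂ} (hX : X ≠ 0) (hX' : X' ≠ 0) (h : wedge X X' = 0) (Y : V ℂ) :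
    dlt X Y = dlt X' Y := by
  obtain ⟨t, ht, rfl⟩ := exists_smul_of_wedge hX hX' h
  exact dlt_smul_left ht _ _

lemma dlt_triangle {X Y W : V ℂ} (hW : W ≠ 0) : dlt X Y ≤ dlt X W + dlt W Y := by
  by_cases hX : X = 0
  · subst hX
    have := dlt_nonneg W Y
    simpa [dlt] using this
  by_cases hY : Y = 0
  · subst hY
    have := dlt_nonneg X W
    simpa [dlt] using this
  have a := norm_pos_iff.2 hX
  have b := norm_pos_iff.2 hY
  have c := norm_pos_iff.2 hW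
  have h := norm_three X Y W
  unfold dlt
  rw [div_add_div _ _ (by positivity) (by positivity), div_le_div_iff₀ (by positivity)
    (by positivity)]
  have : 0 < ‖X‖ * ‖Y‖ * ‖W‖ := by positivity
  nlinarith [mul_le_mul_of_nonneg_left h this.le]

lemma continuousAt_dlt {X Y : V ℂ} (hX : X ≠ 0) (hY : Y ≠ 0) :
    ContinuousAt (fun p : V ℂ × V ℂ => dlt p.1 p.2) (X, Y) := by
  unfold dlt wedge
  refine ContinuousAt.div (by fun_prop) (by fun_prop) ?_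
  exact mul_ne_zero (norm_ne_zero_iff.2 hX) (norm_ne_zero_iff.2 hY)

namespace CFatAux

lemma near_line {Z W₀ : V ℂ} (h : wedge Z W₀ = 1) {ε : ℝ} (hε : 0 < ε) : ∃ δ : ℝ, 0 < δ ∧
    ∀ W, W ≠ 0 → dlt W Z < δ → ∃ a τ : ℂ, a ≠ 0 ∧ ‖τ‖ < ε ∧ W = a • (Z + τ • W₀) := by
  have hZ : Z ≠ 0 := by simpa using line_ne h 0
  have hz := norm_pos_iff.2 hZ
  have hw := norm_nonneg W₀
  refine ⟨min (1 / (2 * ‖Z‖ * (‖W₀‖ + 1))) (ε / (2 * ‖Z‖ * ‖Z‖)), by positivity,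
    fun W hW hd => ?_⟩
  have hW' := norm_pos_iff.2 hW
  have h1 := hd.trans_le (min_le_left _ _)
  have h2 := hd.trans_le (min_le_right _ _)
  unfold dlt at h1 h2
  rw [div_lt_div_iff₀ (by positivity) (by positivity)] at h1 h2
  have h3 : ‖W‖ ≤ ‖wedge W W₀‖ * ‖Z‖ + ‖wedge W Z‖ * ‖W₀‖ := by
    rw [← norm_smul, ← norm_smul]
    exact (congrArg norm (decomp h W)).trans_le (norm_sub_le _ _)
  have hb := norm_nonneg (wedge W Z)
  have h4 : ‖wedge W Z‖ * (2 * (‖W₀‖ + 1)) < ‖W‖ := by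
    refine lt_of_mul_lt_mul_right (a := ‖Z‖) ?_ hz.le
    nlinarith
  have h5 : ‖W‖ ≤ 2 * (‖wedge W W₀‖ * ‖Z‖) := by nlinarith
  have h6 : 0 < ‖wedge W W₀‖ := by
    by_contra hc
    have : ‖wedge W W₀‖ = 0 := le_antisymm (not_lt.1 hc) (norm_nonneg _)
    rw [this] at h5
    linarith
  have ha := norm_pos_iff.1 h6
  refine ⟨_, _, ha, ?_, decomp' h ha⟩
  rw [norm_div, norm_neg, div_lt_iff₀ h6]
  refine lt_of_mul_lt_mul_right (a := 2 * ‖Z‖ * ‖Z‖) ?_ (by positivity)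
  have := mul_le_mul_of_nonneg_left h5 (mul_pos hε hz).le
  nlinarith

lemma line_dlt (hZ : Z ≠ 0) (W₀ : V ℂ) {δ : ℝ} (hδ : 0 < δ) :
    ∀ᶠ τ in 𝓝 (0 : ℂ), dlt (Z + τ • W₀) Z < δ := by
  have h1 : ContinuousAt (fun τ : ℂ => (Z + τ • W₀, Z)) 0 := by fun_prop
  have h2 := ContinuousAt.comp_of_eq (continuousAt_dlt hZ hZ) h1 (by simp)
  refine h2.eventually_lt continuousAt_const ?_
  simpa [dlt] using hδ

lemma norm_prod_le {n : ℕ} (X : V ℂ) (A : Fin n → V ℂ) :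
    ‖∏ j, wedge X (A j)‖ ≤ (2 * ‖X‖) ^ n * ∏ j, ‖A j‖ := by
  rw [norm_prod]
  refine (Finset.prod_le_prod (g := fun j => (2 * ‖X‖) * ‖A j‖) (fun _ _ => norm_nonneg _)
    fun j _ => ?_).trans_eq ?_
  · rw [mul_assoc]; exact norm_wedge_le _ _
  · rw [Finset.prod_mul_distrib]; simp

lemma norm_le_wedge (Y : V ℂ) : ‖Y‖ = max ‖wedge ![0, 1] Y‖ ‖wedge ![1, 0] Y‖ := by
  rw [norm_V]; simp [wedge]

lemma exists_upper (hd : 0 < d) (hF : Hom d F) (hN : Nondeg F) :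
    ∃ C : ℝ, 0 < C ∧ ∀ Z, ‖app F Z‖ ≤ C * ‖Z‖ ^ d := by
  have key (e : V ℂ) (he : e ≠ 0) : ∃ C : ℝ, 0 ≤ C ∧ ∀ Z, ‖wedge e (app F Z)‖ ≤ C * ‖Z‖ ^ d := by
    obtain ⟨Ys, lam, hf, -, -⟩ := exists_fact hd hF hN he
    refine ⟨2 ^ d * ∏ j, ‖Ys j‖, by positivity, fun Z => ?_⟩
    rw [wedge_comm, norm_neg, hf.1]
    refine (norm_prod_le Z Ys).trans_eq ?_
    ring
  obtain ⟨C₁, h₁, k₁⟩ := key ![0, 1] (by simp)
  obtain ⟨C₂, h₂, k₂⟩ := key ![1, 0] (by simp)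
  refine ⟨C₁ + C₂ + 1, by positivity, fun Z => ?_⟩
  have : 0 ≤ ‖Z‖ ^ d := by positivity
  rw [norm_le_wedge]
  refine max_le ((k₁ Z).trans ?_) ((k₂ Z).trans ?_) <;> nlinarith

lemma exists_lower (hd : 0 < d) (hF : Hom d F) (hN : Nondeg F) :
    ∃ K : ℝ, 0 < K ∧ ∀ (Y : V ℂ) (Ys : Fin d → V ℂ),
      (∀ Z, wedge (app F Z) Y = ∏ j, wedge Z (Ys j)) → ‖Y‖ ≤ K * ∏ j, ‖Ys j‖ := by
  obtain ⟨X₁, -, h₁⟩ := app_surj hd hF hN (Y := ![0, 1]) (by simp)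
  obtain ⟨X₂, -, h₂⟩ := app_surj hd hF hN (Y := ![1, 0]) (by simp)
  refine ⟨(2 * ‖X₁‖) ^ d + (2 * ‖X₂‖) ^ d + 1, by positivity, fun Y Ys hf => ?_⟩
  have p : 0 ≤ ∏ j, ‖Ys j‖ := by positivity
  have p₁ : 0 ≤ (2 * ‖X₁‖) ^ d := by positivity
  have p₂ : 0 ≤ (2 * ‖X₂‖) ^ d := by positivity
  rw [norm_le_wedge, ← h₁, ← h₂, hf, hf]
  refine max_le ((norm_prod_le _ _).trans ?_) ((norm_prod_le _ _).trans ?_) <;> nlinarith

end CFatAux

/-- Points close to Z in the chordal distance have representatives close to Z. -/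
lemma exists_near (hZ : Z ≠ 0) {U : Set (V ℂ)} (hU : U ∈ 𝓝 Z) : ∃ δ : ℝ, 0 < δ ∧
    ∀ W, W ≠ 0 → dlt W Z < δ → ∃ t : ℂ, t ≠ 0 ∧ t • W ∈ U := by
  obtain ⟨W₀, h⟩ := exists_wedge_one hZ
  have h1 : ∀ᶠ τ in 𝓝 (0 : ℂ), Z + τ • W₀ ∈ U :=
    (analyticAt_line Z W₀ 0).continuousAt.eventually_mem (by simpa using hU)
  obtain ⟨ε, hε, h2⟩ := Metric.eventually_nhds_iff.1 h1
  obtain ⟨δ, hδ, h3⟩ := near_line h hε
  refine ⟨δ, hδ, fun W hW hd => ?_⟩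
  obtain ⟨a, τ, ha, hτ, rfl⟩ := h3 W hW hd
  refine ⟨a⁻¹, inv_ne_zero ha, ?_⟩
  rw [smul_smul, inv_mul_cancel₀ ha, one_smul]
  exact h2 (by simpa using hτ)

/-- Chordal balls around a finite point lie in small discs. -/
lemma exists_near_aff (x : ℂ) {ε : ℝ} (hε : 0 < ε) : ∃ δ : ℝ, 0 < δ ∧
    ∀ W : V ℂ, W ≠ 0 → dlt W ![x, 1] < δ → ∃ z ∈ ball x ε, wedge W ![z, 1] = 0 := by
  obtain ⟨δ, hδ, h3⟩ := near_line (Z := ![x, 1]) (W₀ := ![-1, 0]) (by simp [wedge]) hε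
  refine ⟨δ, hδ, fun W hW hd => ?_⟩
  obtain ⟨a, τ, -, hτ, rfl⟩ := h3 W hW hd
  refine ⟨x - τ, by simpa [mem_ball, dist_eq_norm] using hτ, ?_⟩
  simp [wedge]
  ring

/-- Quantitative openness. -/
theorem exists_pre_near (hd : 0 < d) (hF : Hom d F) (hN : Nondeg F) : ∃ c : ℝ, 0 < c ∧
    ∀ Z Y : V ℂ, Z ≠ 0 → Y ≠ 0 →
      ∃ W, W ≠ 0 ∧ wedge (app F W) Y = 0 ∧ c * dlt W Z ^ d ≤ dlt (app F Z) Y := by
  obtain ⟨C, hC, hup⟩ := exists_upper hd hF hN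
  obtain ⟨K, hK, hlo⟩ := exists_lower hd hF hN
  refine ⟨1 / (C * K), by positivity, fun Z Y hZ hY => ?_⟩
  obtain ⟨Ys, lam, hf, h0, -⟩ := exists_fact hd hF hN hY
  have : Nonempty (Fin d) := ⟨⟨0, hd⟩⟩
  obtain ⟨j₀, hj⟩ := Finite.exists_min fun j => dlt (Ys j) Z
  refine ⟨Ys j₀, h0 j₀, by rw [hf.2, wedge_smul_left, wedge_self, mul_zero], ?_⟩
  have hz := norm_pos_iff.2 hZ
  have hy := norm_pos_iff.2 hY
  have hfz := norm_pos_iff.2 (hN.app_ne hZ)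
  have hm := dlt_nonneg (Ys j₀) Z
  have h1 : (dlt (Ys j₀) Z * ‖Z‖) ^ d * ∏ j, ‖Ys j‖ ≤ ‖wedge (app F Z) Y‖ := by
    rw [hf.1, norm_prod]
    refine le_of_eq_of_le ?_ (Finset.prod_le_prod (f := fun j => dlt (Ys j₀) Z * ‖Z‖ * ‖Ys j‖)
      (fun _ _ => by positivity) fun j _ => ?_)
    · rw [Finset.prod_mul_distrib]; simp
    · have := hj j
      have hj' := norm_pos_iff.2 (h0 j)
      rw [dlt_comm (Ys j), dlt.eq_1 Z, le_div_iff₀ (by positivity)] at this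
      linarith
  have h2 := hlo Y Ys hf.1
  have h3 := hup Z
  rw [dlt.eq_1 (app F Z), le_div_iff₀ (by positivity)]
  refine le_trans ?_ h1
  have h4 : ‖app F Z‖ * ‖Y‖ ≤ C * ‖Z‖ ^ d * (K * ∏ j, ‖Ys j‖) :=
    mul_le_mul h3 h2 hy.le (by positivity)
  refine (mul_le_mul_of_nonneg_left h4 (by positivity)).trans_eq ?_
  rw [mul_pow]
  field_simp

end Pool.Agent.MP_3827f0_nt.H92
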