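import Pool.Agent.MP_3827f0_nt.H92.CGlobAux

/-! The orbifold function of a rigid pair. -/

set_option autoImplicit false

namespace Pool.Agent.MP_3827f0_nt.H92

open Metric Filter Topology

variable {d : ℕ} {F F' : PM ℂ} {G : V ℂ → ℝ}

namespace CGlobAux

/-- The lift of level m of the Poincare map. -/
noncomputable def Lm (D : Lin F G) (m : ℕ) (z : ℂ) : V ℂ :=
  app (itr F (D.N * m)) ![D.L (D.μ ^ m * z), 1]

/-- The domain of the lift of level m. -/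
def In (D : Lin F G) (m : ℕ) (z : ℂ) : Prop := D.μ ^ m * z ∈ ball (0 : ℂ) D.r

variable (D : Lin F G)

lemma In.succ {D : Lin F G} {m : ℕ} {z : ℂ} (h : In D m z) : In D (m + 1) z := by
  rw [In, mem_ball_zero_iff] at h ⊢
  rw [pow_succ', mul_assoc, norm_mul]
  exact lt_of_le_of_lt (mul_le_of_le_one_left (norm_nonneg _) D.μ_lt.le) h

lemma In.mono {D : Lin F G} {m m' : ℕ} {z : ℂ} (h : In D m z) (hm : m ≤ m') : In D m' z := by
  induction hm with
  | refl => exact h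
  | step _ ih => exact ih.succ

lemma In.eventually {D : Lin F G} {m : ℕ} {z : ℂ} (h : In D m z) : ∀ᶠ w in 𝓝 z, In D m w :=
  (by fun_prop : ContinuousAt (fun w => D.μ ^ m * w) z).eventually (isOpen_ball.mem_nhds h)

lemma exists_In (R : ℝ) : ∃ m, ∀ z : ℂ, ‖z‖ ≤ R → In D m z := by
  have h1 : Tendsto (fun m : ℕ => ‖D.μ‖ ^ m * R) atTop (𝓝 (0 * R)) :=
    (tendsto_pow_atTop_nhds_zero_of_lt_one (norm_nonneg _) D.μ_lt).mul_const R
  rw [zero_mul] at h1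
  obtain ⟨m, hm⟩ := (h1.eventually (gt_mem_nhds D.r_pos)).exists
  refine ⟨m, fun z hz => ?_⟩
  rw [In, mem_ball_zero_iff, norm_mul, norm_pow]
  exact lt_of_le_of_lt (mul_le_mul_of_nonneg_left hz (by positivity)) hm

lemma an_L {ζ : ℂ} (h : ζ ∈ ball (0 : ℂ) D.r) : AnalyticAt ℂ D.L ζ :=
  D.diff.analyticAt (isOpen_ball.mem_nhds h)

lemma In.an_L {D : Lin F G} {m : ℕ} {z : ℂ} (h : In D m z) :
    AnalyticAt ℂ (fun w => D.L (D.μ ^ m * w)) z :=
  AnalyticAt.comp (f := fun w => D.μ ^ m * w) (CGlobAux.an_L D h) (by fun_prop)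

lemma In.an {D : Lin F G} {m : ℕ} {z : ℂ} (h : In D m z) : AnalyticAt ℂ (Lm D m) z :=
  an_app _ (analyticAt_aff h.an_L)

lemma In.ord_L {D : Lin F G} {m : ℕ} {z : ℂ} (h : In D m z) :
    ord (fun w => ![D.L (D.μ ^ m * w), 1]) z = 1 := by
  rw [ord_comp (s := fun w => ![D.L w, 1]) (g := fun w => D.μ ^ m * w) (by fun_prop)
    (by simpa using fun h => absurd h D.μ_ne)]
  exact ord_aff (CGlobAux.an_L D h) (D.der _ h)

lemma Lm_zero (z : ℂ) : Lm D 0 z = ![D.L z, 1] := by simp [Lm, app_itr]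

/-- The level used for the point z. -/
noncomputable def lev (z : ℂ) : ℕ := (exists_In D ‖z‖).choose

lemma in_lev (z : ℂ) : In D (lev D z) z := (exists_In D ‖z‖).choose_spec z le_rfl

/-- The Poincare map. -/
noncomputable def Lam (z : ℂ) : V ℂ := Lm D (lev D z) z

/-- The local degree of the Poincare map. -/
noncomputable def deg (z : ℂ) : ℕ := (ord (Lm D (lev D z)) z).toNat

/-- Maps that multiply the escape rate and respect the Julia set. -/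
structure Adm (G : V ℂ → ℝ) (e : ℕ) (A : PM ℂ) : Prop where
  pos : 0 < e
  hom : Hom e A
  nd : Nondeg A
  esc : ∃ α β : ℝ, 0 < α ∧ ∀ Z, Z ≠ 0 → G (app A Z) = α * G Z + β
  fat : ∀ Z, Z ≠ 0 → (Fat G (app A Z) ↔ Fat G Z)

section

variable (h : Dyn d F G)
include h

lemma d_pos : 0 < d := lt_of_lt_of_le two_pos h.two

lemma adm_itr (k : ℕ) : Adm G (d ^ k) (itr F k) :=
  ⟨pow_pos (d_pos h) k, h.hom.itr k, h.nondeg.itr k,
    ⟨(d : ℝ) ^ k, 0, pow_pos (by exact_mod_cast d_pos h) k, fun Z hZ => by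
      rw [app_itr, h.iter k hZ, add_zero]⟩,
    fun Z hZ => by rw [app_itr]; exact h.fat_iter_iff k hZ⟩

lemma adm_self : Adm G d F :=
  ⟨d_pos h, h.hom, h.nondeg, ⟨d, 0, by exact_mod_cast d_pos h, fun Z hZ => by
    rw [h.esc.2.2 Z hZ, add_zero]⟩, fun Z hZ => h.fat_app_iff hZ⟩

omit h in
lemma adm_other {c : ℝ} (h' : Dyn d F' fun Z => G Z + c) : Adm G d F' := by
  have key : ∀ Z, Z ≠ 0 → (Fat (fun Z => G Z + c) Z ↔ Fat G Z) := fun Z hZ =>
    ⟨fun hf => hf.congr hZ (c := -c) fun W _ => by ring, fun hf => hf.congr hZ fun W _ => rfl⟩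
  refine ⟨d_pos h', h'.hom, h'.nondeg, ⟨d, d * c - c, by exact_mod_cast d_pos h', fun Z hZ => ?_⟩,
    fun Z hZ => ?_⟩
  · have := h'.esc.2.2 Z hZ
    simp only at this
    linarith
  · rw [← key _ (h'.nondeg.app_ne hZ), ← key Z hZ]
    exact h'.fat_app_iff hZ

lemma Lm_ne (m : ℕ) (z : ℂ) : Lm D m z ≠ 0 := (h.nondeg.itr _).app_ne (aff_ne_zero _)

lemma Lam_ne (z : ℂ) : Lam D z ≠ 0 := Lm_ne D h _ z

lemma Lm_succ {m : ℕ} {z : ℂ} (hz : In D m z) : wedge (Lm D (m + 1) z) (Lm D m z) = 0 := by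
  rw [Lm, Lm, app_itr, app_itr, Nat.mul_succ, Function.iterate_add_apply, pow_succ', mul_assoc]
  exact h.hom.wedge_iter _ (D.eqv _ hz) (h.nondeg.iter_ne _ (aff_ne_zero _)) (aff_ne_zero _)

lemma Lm_mono {m m' : ℕ} {z : ℂ} (hz : In D m z) (hm : m ≤ m') :
    wedge (Lm D m' z) (Lm D m z) = 0 := by
  induction hm with
  | refl => exact wedge_self _
  | step hm ih => exact wedge_trans (Lm_ne D h _ z) (Lm_succ D h (hz.mono hm)) ih

lemma Lm_par {m m' : ℕ} {z : ℂ} (hz : In D m z) (hz' : In D m' z) :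
    wedge (Lm D m z) (Lm D m' z) = 0 := by
  rcases le_total m m' with hm | hm
  · exact par_symm (Lm_mono D h hz hm)
  · exact Lm_mono D h hz' hm

lemma Lam_par {m : ℕ} {z : ℂ} (hz : In D m z) : wedge (Lam D z) (Lm D m z) = 0 :=
  Lm_par D h (in_lev D z) hz

omit h in
lemma ord_Lm_of_ram {m e : ℕ} {z : ℂ} (hz : In D m z)
    (he : Ram (itr F (D.N * m)) ![D.L (D.μ ^ m * z), 1] e) : ord (Lm D m) z = e := by
  have := ord_app (s := fun w => ![D.L (D.μ ^ m * w), 1]) (analyticAt_aff hz.an_L) he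
  rw [hz.ord_L, mul_one] at this
  exact this

lemma ord_Lm {m : ℕ} {z : ℂ} (hz : In D m z) : ord (Lm D m) z = deg D z := by
  have A := adm_itr h (D.N * lev D z)
  obtain ⟨e, -, -, he⟩ := exists_ram A.pos A.hom A.nd (aff_ne_zero (D.L (D.μ ^ lev D z * z)))
  have h1 := ord_Lm_of_ram D (in_lev D z) he
  rw [deg, h1, ENat.toNat_natCast, ← h1]
  refine ord_congr hz.an (in_lev D z).an (Lm_ne D h _ _) (Lm_ne D h _ _) ?_
  filter_upwards [hz.eventually, (in_lev D z).eventually] with w w1 w2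
  exact Lm_par D h w1 w2

lemma deg_eq {m e : ℕ} {z : ℂ} (hz : In D m z)
    (he : Ram (itr F (D.N * m)) ![D.L (D.μ ^ m * z), 1] e) : deg D z = e := by
  have := (ord_Lm D h hz).symm.trans (ord_Lm_of_ram D hz he)
  exact_mod_cast this

lemma deg_pos (z : ℂ) : 0 < deg D z := by
  have A := adm_itr h (D.N * lev D z)
  obtain ⟨e, h0, -, he⟩ := exists_ram A.pos A.hom A.nd (aff_ne_zero (D.L (D.μ ^ lev D z * z)))
  rwa [deg_eq D h (in_lev D z) he]

lemma deg_eq_one {m : ℕ} {z : ℂ} (hz : In D m z)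
    (hj : jac (itr F (D.N * m)) ![D.L (D.μ ^ m * z), 1] ≠ 0) : deg D z = 1 := by
  have A := adm_itr h (D.N * m)
  obtain ⟨e, -, -, he⟩ := exists_ram A.pos A.hom A.nd (aff_ne_zero (D.L (D.μ ^ m * z)))
  rw [deg_eq D h hz he]
  exact (he.eq_one_iff A.pos A.hom A.nd (aff_ne_zero _)).2 hj

lemma deg_ball {z : ℂ} (hz : z ∈ ball (0 : ℂ) D.r) : deg D z = 1 :=
  deg_eq D h (m := 0) (by simpa [In] using hz) (ram_id _ F)

lemma app_Lam_par {e : ℕ} {A : PM ℂ} (hA : Adm G e A) {m : ℕ} {z : ℂ} (hz : In D m z) :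
    wedge (app A (Lam D z)) (app A (Lm D m z)) = 0 :=
  hA.hom.wedge_app (Lam_par D h hz) (Lam_ne D h z) (Lm_ne D h m z)

lemma par_iff {e e' : ℕ} {A B : PM ℂ} (hA : Adm G e A) (hB : Adm G e' B) {m m' : ℕ} {z z' : ℂ}
    (hz : In D m z) (hz' : In D m' z') :
    wedge (app A (Lam D z)) (app B (Lam D z')) = 0 ↔
      wedge (app A (Lm D m z)) (app B (Lm D m' z')) = 0 :=
  ⟨fun e => wedge_trans (hA.nd.app_ne (Lam_ne D h z)) (par_symm (app_Lam_par D h hA hz))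
      (wedge_trans (hB.nd.app_ne (Lam_ne D h z')) e (app_Lam_par D h hB hz')),
    fun e => wedge_trans (hA.nd.app_ne (Lm_ne D h m z)) (app_Lam_par D h hA hz)
      (wedge_trans (hB.nd.app_ne (Lm_ne D h m' z')) e (par_symm (app_Lam_par D h hB hz')))⟩

lemma ord_app_Lm {e : ℕ} {A : PM ℂ} (hA : Adm G e A) {m k : ℕ} {z : ℂ} (hz : In D m z)
    (hk : Ram A (Lam D z) k) : ord (fun w => app A (Lm D m w)) z = (k * deg D z : ℕ) := by
  rw [ord_app hz.an (hk.of_wedge hA.hom hA.nd (Lam_ne D h z) (Lm_ne D h m z) (Lam_par D h hz)),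
    ord_Lm D h hz, Nat.cast_mul]

/-- Comparison of local degrees along an affine symmetry. -/
lemma deg_aff {e e' : ℕ} {A B : PM ℂ} (hA : Adm G e A) (hB : Adm G e' B) {p q : ℂ} (hp : p ≠ 0)
    (hpar : ∀ z, wedge (app A (Lam D z)) (app B (Lam D (p * z + q))) = 0) {z : ℂ} {k k' : ℕ}
    (hk : Ram A (Lam D z) k) (hk' : Ram B (Lam D (p * z + q)) k') :
    k * deg D z = k' * deg D (p * z + q) := by
  have h1 := ord_app_Lm D h hA (in_lev D z) hk
  have h2 := ord_app_Lm D h hB (in_lev D (p * z + q)) hk'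
  rw [← ord_comp (g := fun w => p * w + q) (an_aff p q z) (by rwa [deriv_aff])] at h2
  have h3 := ord_congr (an_app A (in_lev D z).an)
    (AnalyticAt.comp (f := fun w => p * w + q) (an_app B (in_lev D (p * z + q)).an) (an_aff p q z))
    (hA.nd.app_ne (Lm_ne D h _ _)) (hB.nd.app_ne (Lm_ne D h _ _)) (by
      filter_upwards [(in_lev D z).eventually, (an_aff p q z).continuousAt.eventually
        (in_lev D (p * z + q)).eventually] with w w1 w2
      exact (par_iff D h hA hB w1 w2).1 (hpar w))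
  have := h1.symm.trans (h3.trans h2)
  exact_mod_cast this

omit h in
lemma eta_mem (j : ℕ) : D.μ ^ j * D.θ 0 ∈ ball (0 : ℂ) D.r :=
  In.mono (D := D) (m := 0) (by simpa [In] using D.θ_mem) (Nat.zero_le j)

omit h in
lemma in_zero {z : ℂ} (hz : z ∈ ball (0 : ℂ) D.r) : In D 0 z := by simpa [In] using hz

lemma Lam_ball {z : ℂ} (hz : z ∈ ball (0 : ℂ) D.r) : wedge (Lam D z) ![D.L z, 1] = 0 :=
  Lm_zero D z ▸ Lam_par D h (in_zero D hz)

lemma eta_jul (j : ℕ) : ¬ Fat G (Lam D (D.μ ^ j * D.θ 0)) := by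
  intro hf
  obtain ⟨c, hc, h1, -, h3⟩ := D.sym h j
  have h4 := h.fat_wedge (Lam_ne D h _) (aff_ne_zero _) (Lam_ball D h (eta_mem D j)) hf
  have h5 : AnalyticAt ℂ (fun ζ => (![D.L (D.μ ^ j * D.θ ζ), 1] : V ℂ)) 0 :=
    analyticAt_aff (AnalyticAt.comp (f := fun ζ => D.μ ^ j * D.θ ζ) (an_L D (eta_mem D j)) h1)
  have h6 := ((Fat.harmAt h5 h4).sub h3).const_mul c⁻¹
  refine D.not_harm h (h6.congr (Eventually.of_forall fun w => ?_))
  field_simp
  ring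

lemma exists_eta (S : Finset (V ℂ)) (hS : ∀ s ∈ S, s ≠ 0) :
    ∃ j : ℕ, ∀ s ∈ S, wedge (Lam D (D.μ ^ j * D.θ 0)) s ≠ 0 := by
  have hfin : {j : ℕ | ∃ s ∈ S, wedge (Lam D (D.μ ^ j * D.θ 0)) s = 0}.Finite := by
    refine (S.finite_toSet.biUnion fun s hs => Set.Subsingleton.finite
      (s := {j : ℕ | wedge (Lam D (D.μ ^ j * D.θ 0)) s = 0}) fun i hi j hj => ?_).subset
      fun j ⟨s, hs, hj⟩ => Set.mem_biUnion hs hj
    have h1 := wedge_trans (Lam_ne D h _) (par_symm (Lam_ball D h (eta_mem D i)))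
      (wedge_trans (Lam_ne D h _) (wedge_trans (hS s hs) hi (par_symm hj))
        (Lam_ball D h (eta_mem D j)))
    rw [wedge_aff, sub_eq_zero] at h1
    have h2 := mul_right_cancel₀ D.θ_ne (D.inj (eta_mem D i) (eta_mem D j) h1)
    have h3 := congrArg norm h2
    rw [norm_pow, norm_pow] at h3
    exact pow_right_injective₀ (norm_pos_iff.2 D.μ_ne) D.μ_lt.ne h3
  obtain ⟨j, hj⟩ := hfin.infinite_compl.nonempty
  exact ⟨j, fun s hs e => hj ⟨s, hs, e⟩⟩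

omit h in
lemma exists_crit {e : ℕ} {A : PM ℂ} (hA : Adm G e A) : ∃ S : Finset (V ℂ), (∀ s ∈ S, s ≠ 0) ∧
    ∀ Z, jac A Z = 0 → ∃ s ∈ S, wedge Z s = 0 := by
  obtain ⟨S, -, h1, h2⟩ := hA.hom.isForm_jac.roots (exists_jac_ne hA.pos hA.hom hA.nd)
  exact ⟨S, fun s hs => (h1 s hs).1, h2⟩

/-- Points of the Julia set off a finite set are regular values of the Poincare map. -/
lemma exists_reg : ∃ C : Finset (V ℂ), (∀ s ∈ C, s ≠ 0) ∧ ∀ Y, Y ≠ 0 → ¬ Fat G Y →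
    (∀ s ∈ C, wedge Y s ≠ 0) → ∃ η, wedge (Lam D η) Y = 0 ∧ deg D η = 1 := by
  classical
  have h0 : (0 : ℂ) ∈ ball (0 : ℂ) D.r := mem_ball_self D.r_pos
  obtain ⟨δ, hδ, hc⟩ := exists_cover (s := fun w => ![D.L w, 1]) (analyticAt_aff (an_L D h0))
    (aff_ne_zero _) (by rw [ord_aff (an_L D h0) (D.der _ h0)]; exact ENat.one_ne_top)
    (isOpen_ball.mem_nhds h0)
  obtain ⟨n₀, hn⟩ := (h.itr D.N_pos).jul_cover (aff_ne_zero _) D.jul hδ
  choose S hS0 hS using fun n => exists_crit (adm_itr h (D.N * n))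
  refine ⟨(Finset.range (n₀ + 1)).biUnion fun n => (S n).image (app (itr F (D.N * n))), ?_,
    fun Y hY hJ hC => ?_⟩
  · intro s hs
    obtain ⟨n, -, hs⟩ := Finset.mem_biUnion.1 hs
    obtain ⟨t, ht, rfl⟩ := Finset.mem_image.1 hs
    exact (h.nondeg.itr _).app_ne (hS0 n t ht)
  obtain ⟨n, hn₀, W, hW, hd, hp⟩ := hn Y hY hJ
  obtain ⟨ζ, hζ, hw⟩ := hc W hW hd
  have e1 : (app (itr F D.N))^[n] W = app (itr F (D.N * n)) W := by
    rw [show app (itr F D.N) = (app F)^[D.N] from funext (app_itr F D.N), app_itr,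
      Function.iterate_mul]
  have e2 : D.μ ^ n * (ζ / D.μ ^ n) = ζ := mul_div_cancel₀ _ (pow_ne_zero n D.μ_ne)
  have A := adm_itr h (D.N * n)
  have hI : In D n (ζ / D.μ ^ n) := by rwa [In, e2]
  have h1 : wedge (app (itr F (D.N * n)) ![D.L ζ, 1]) Y = 0 :=
    wedge_trans (A.nd.app_ne hW) (A.hom.wedge_app (par_symm hw) (aff_ne_zero _) hW) (e1 ▸ hp)
  refine ⟨ζ / D.μ ^ n, wedge_trans (Lm_ne D h n _) (Lam_par D h hI) (by rwa [Lm, e2]),
    deg_eq_one D h hI fun hj => ?_⟩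
  rw [e2] at hj
  obtain ⟨s, hs, h2⟩ := hS n _ hj
  exact hC _ (Finset.mem_biUnion.2 ⟨n, Finset.mem_range.2 (Nat.lt_succ_of_le hn₀),
    Finset.mem_image_of_mem _ hs⟩) (wedge_trans (A.nd.app_ne (aff_ne_zero _)) (par_symm h1)
      (A.hom.wedge_app h2 (aff_ne_zero _) (hS0 n s hs)))

omit h in
lemma norm_aff_le (p q : ℂ) {R : ℝ} {z : ℂ} (hz : z ∈ ball (0 : ℂ) R) :
    ‖p * z + q‖ ≤ ‖p‖ * R + ‖q‖ := by
  refine (norm_add_le _ _).trans ?_
  rw [norm_mul]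
  gcongr
  exact (mem_ball_zero_iff.1 hz).le

omit h in
lemma ident {f : ℂ → ℂ} {R : ℝ} (hf : ∀ z ∈ ball (0 : ℂ) R, AnalyticAt ℂ f z) {z₀ z : ℂ}
    (h0 : z₀ ∈ ball (0 : ℂ) R) (hz : z ∈ ball (0 : ℂ) R) (h1 : ∀ᶠ w in 𝓝 z₀, f w = 0) : f z = 0 :=
  AnalyticOnNhd.eqOn_zero_of_preconnected_of_eventuallyEq_zero hf (convex_ball 0 R).isPreconnected
    h0 h1 hz

omit h in
lemma ram_one {e : ℕ} {A : PM ℂ} (hA : Adm G e A) {Z : V ℂ} (hZ : Z ≠ 0) (hj : jac A Z ≠ 0) :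
    Ram A Z 1 := by
  obtain ⟨k, -, -, hk⟩ := exists_ram hA.pos hA.hom hA.nd hZ
  rwa [(hk.eq_one_iff hA.pos hA.hom hA.nd hZ).2 hj] at hk

/-- The transfer lemma. -/
lemma transfer (hR : Rigid (fun ζ => G ![D.L ζ, 1]) D.r) {e e' : ℕ} {A B : PM ℂ} (hA : Adm G e A)
    (hB : Adm G e' B) (j : ℕ) {η : ℂ} (rA : Ram A (Lam D (D.μ ^ j * D.θ 0)) 1)
    (rB : Ram B (Lam D η) 1) (hη : deg D η = 1)
    (hp : wedge (app A (Lam D (D.μ ^ j * D.θ 0))) (app B (Lam D η)) = 0) :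
    ∃ p q : ℂ, p ≠ 0 ∧ p * (D.μ ^ j * D.θ 0) + q = η ∧
      ∀ z, wedge (app A (Lam D z)) (app B (Lam D (p * z + q))) = 0 := by
  have I0 := in_zero D (eta_mem D j)
  have I1 := in_lev D η
  set m := lev D η
  have o0 := ord_app_Lm D h hA I0 rA
  have o1 := ord_app_Lm D h hB I1 rB
  rw [deg_ball D h (eta_mem D j)] at o0
  rw [hη] at o1
  obtain ⟨g, g1, g2, g3, g4⟩ := exists_germ (an_app A I0.an) (an_app B I1.an)
    (hA.nd.app_ne (Lm_ne D h _ _)) (hB.nd.app_ne (Lm_ne D h _ _)) ((par_iff D h hA hB I0 I1).1 hp)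
    o0 o1
  obtain ⟨c, hc, hΘ⟩ := D.sym h j
  obtain ⟨a, b, hab⟩ := hR c _ hc (eta_mem D j) hΘ
  obtain ⟨t1, t2, t3⟩ := hΘ
  have ha : a ≠ 0 := by
    rwa [Filter.EventuallyEq.deriv_eq hab, deriv_aff] at t2
  have hb : b = D.μ ^ j * D.θ 0 := by simpa using hab.self_of_nhds.symm
  have u1 : AnalyticAt ℂ (fun ζ => g (D.μ ^ j * D.θ ζ)) 0 :=
    AnalyticAt.comp (f := fun ζ => D.μ ^ j * D.θ ζ) g1 t1
  obtain ⟨α, β, hα, eA⟩ := hA.esc
  obtain ⟨α', β', hα', eB⟩ := hB.esc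
  have hd : (0 : ℝ) < (d : ℝ) ^ (D.N * m) := pow_pos (by exact_mod_cast d_pos h) _
  have hS : Sym (fun ζ => G ![D.L ζ, 1]) (α * c / (α' * (d : ℝ) ^ (D.N * m)))
      fun ζ => D.μ ^ m * g (D.μ ^ j * D.θ ζ) := by
    refine ⟨analyticAt_const.mul u1, ?_, ?_⟩
    · have := deriv_comp 0 (h := fun ζ => D.μ ^ j * D.θ ζ) g1.differentiableAt t1.differentiableAt
      rw [Function.comp_def] at this
      rw [deriv_const_mul _ u1.differentiableAt, this]
      exact mul_ne_zero (pow_ne_zero _ D.μ_ne) (mul_ne_zero g3 t2)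
    · have v1 : AnalyticAt ℂ (fun ζ => app A (Lm D 0 (D.μ ^ j * D.θ ζ))) 0 :=
        AnalyticAt.comp (f := fun ζ => D.μ ^ j * D.θ ζ) (an_app A I0.an) t1
      have v2 : AnalyticAt ℂ (fun ζ => app B (Lm D m (g (D.μ ^ j * D.θ ζ)))) 0 :=
        AnalyticAt.comp (f := fun ζ => g (D.μ ^ j * D.θ ζ)) (an_app B (g2 ▸ I1.an)) u1
      have v3 := h.harmAt_sub v1 v2 (hA.nd.app_ne (Lm_ne D h _ _)) (hB.nd.app_ne (Lm_ne D h _ _))
        (t1.continuousAt.eventually g4)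
      have v4 := ((t3.const_mul α).sub v3).const_mul (α' * (d : ℝ) ^ (D.N * m))⁻¹
      refine (v4.add (harmAt_const ((β - β') / (α' * (d : ℝ) ^ (D.N * m))) 0)).congr
        (Eventually.of_forall fun w => ?_)
      simp only
      rw [eA _ (Lm_ne D h _ _), eB _ (Lm_ne D h _ _), Lm_zero, Lm, app_itr,
        h.iter _ (aff_ne_zero _)]
      field_simp
      ring
  obtain ⟨a', b', hab'⟩ := hR _ _ (by positivity) (by simpa only [g2, In] using I1) hS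
  have hμ := pow_ne_zero m D.μ_ne
  have hg : ∀ᶠ w in 𝓝 (D.μ ^ j * D.θ 0),
      g w = a' / (a * D.μ ^ m) * w + (b' - a' * b / a) / D.μ ^ m := by
    have h1 : Tendsto (fun w => (w - b) / a) (𝓝 (D.μ ^ j * D.θ 0)) (𝓝 0) := by
      have : ContinuousAt (fun w => (w - b) / a) (D.μ ^ j * D.θ 0) := by fun_prop
      simpa [ContinuousAt, hb] using this
    filter_upwards [h1.eventually hab, h1.eventually hab'] with w w1 w2
    have w3 : a * ((w - b) / a) + b = w := by field_simp; ring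
    rw [w1, w3] at w2
    rw [← mul_right_inj' hμ, w2]
    field_simp
    ring
  set p := a' / (a * D.μ ^ m)
  set q := (b' - a' * b / a) / D.μ ^ m
  refine ⟨p, q, ?_, by rw [← hg.self_of_nhds, g2], fun z => ?_⟩
  · rwa [Filter.EventuallyEq.deriv_eq hg, deriv_aff] at g3
  set R := ‖z‖ + ‖D.μ ^ j * D.θ 0‖ + 1
  obtain ⟨k, hk⟩ := exists_In D (max R (‖p‖ * R + ‖q‖))
  have k1 : ∀ w ∈ ball (0 : ℂ) R, In D k w := fun w hw =>
    hk w ((mem_ball_zero_iff.1 hw).le.trans (le_max_left _ _))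
  have k2 : ∀ w ∈ ball (0 : ℂ) R, In D k (p * w + q) := fun w hw =>
    hk _ ((norm_aff_le p q hw).trans (le_max_right _ _))
  have hz : z ∈ ball (0 : ℂ) R := mem_ball_zero_iff.2 (by
    have := norm_nonneg (D.μ ^ j * D.θ 0); simp only [R]; linarith)
  have h0 : D.μ ^ j * D.θ 0 ∈ ball (0 : ℂ) R := mem_ball_zero_iff.2 (by
    have := norm_nonneg z; simp only [R]; linarith)
  refine (par_iff D h hA hB (k1 z hz) (k2 z hz)).2 (ident
    (f := fun w => wedge (app A (Lm D k w)) (app B (Lm D k (p * w + q))))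
    (fun w hw => analyticAt_wedge (an_app A (k1 w hw).an) (AnalyticAt.comp (f := fun w => p * w + q)
      (an_app B (k2 w hw).an) (an_aff p q w))) h0 hz ?_)
  filter_upwards [g4, hg, I0.eventually, g1.continuousAt.eventually (g2 ▸ I1.eventually),
    isOpen_ball.mem_nhds h0] with w w1 w2 w3 w4 w5
  rw [w2] at w1 w4
  exact (par_iff D h hA hB (k1 w w5) (k2 w w5)).1 ((par_iff D h hA hB w3 w4).2 w1)

/-- An admissible map lifts to an affine map. -/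
lemma exists_aff_lift (hR : Rigid (fun ζ => G ![D.L ζ, 1]) D.r) {e : ℕ} {A : PM ℂ}
    (hA : Adm G e A) : ∃ p q : ℂ, p ≠ 0 ∧
      ∀ z, wedge (app A (Lam D z)) (app (itr F 0) (Lam D (p * z + q))) = 0 := by
  classical
  obtain ⟨C, hC0, hC⟩ := exists_reg D h
  obtain ⟨S, hS0, hS⟩ := exists_crit hA
  obtain ⟨T, -, hT0, hT⟩ := exists_preimages hA.pos hA.hom hA.nd 1 C hC0
  obtain ⟨j, hj⟩ := exists_eta D h (S ∪ T) fun s hs =>
    (Finset.mem_union.1 hs).elim (hS0 s) (hT0 s)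
  obtain ⟨η, h1, h2⟩ := hC (app A (Lam D (D.μ ^ j * D.θ 0))) (hA.nd.app_ne (Lam_ne D h _))
    (fun hf => eta_jul D h j ((hA.fat _ (Lam_ne D h _)).1 hf)) fun s hs e => by
      obtain ⟨t, ht, h3⟩ := hT _ ⟨s, hs, e⟩
      exact hj t (Finset.mem_union_right _ ht) h3
  obtain ⟨p, q, hp, -, h3⟩ := transfer D h hR hA (adm_itr h 0) j
    (ram_one hA (Lam_ne D h _) fun hz => by
      obtain ⟨s, hs, h3⟩ := hS _ hz
      exact hj s (Finset.mem_union_left _ hs) h3) (ram_id _ F) h2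
    (by rw [app_itr]; exact par_symm h1)
  exact ⟨p, q, hp, h3⟩

/-- The fibre lemma. -/
lemma fibre (hR : Rigid (fun ζ => G ![D.L ζ, 1]) D.r) {e : ℕ} {A : PM ℂ} (hA : Adm G e A)
    (η : ℂ) {Y : V ℂ} (hY : wedge (app A Y) (app A (Lam D η)) = 0) :
    ∃ p q : ℂ, p ≠ 0 ∧ (∀ z, wedge (app A (Lam D z)) (app A (Lam D (p * z + q))) = 0) ∧
      wedge Y (Lam D (p * η + q)) = 0 := by
  classical
  obtain ⟨C, hC0, hC⟩ := exists_reg D h
  obtain ⟨S, hS0, hS⟩ := exists_crit hA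
  have hU : ∀ s ∈ C ∪ S, s ≠ 0 := fun s hs => (Finset.mem_union.1 hs).elim (hC0 s) (hS0 s)
  obtain ⟨T, -, hT0, hT⟩ := exists_preimages hA.pos hA.hom hA.nd 1 ((C ∪ S).image (app A))
    fun s hs => by
      obtain ⟨t, ht, rfl⟩ := Finset.mem_image.1 hs
      exact hA.nd.app_ne (hU t ht)
  obtain ⟨j, hj⟩ := exists_eta D h T hT0
  set η₀ := D.μ ^ j * D.θ 0
  have hY0 : app A (Lam D η₀) ≠ 0 := hA.nd.app_ne (Lam_ne D h _)
  have off : ∀ Z, Z ≠ 0 → wedge (app A Z) (app A (Lam D η₀)) = 0 → ∀ s ∈ C ∪ S, wedge Z s ≠ 0 := by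
    intro Z hZ h1 s hs h2
    obtain ⟨t, ht, h3⟩ := hT (Lam D η₀) ⟨_, Finset.mem_image_of_mem _ hs,
      wedge_trans (hA.nd.app_ne hZ) (par_symm h1) (hA.hom.wedge_app h2 hZ (hU s hs))⟩
    exact hj t ht h3
  have reg : ∀ Z, Z ≠ 0 → wedge (app A Z) (app A (Lam D η₀)) = 0 → jac A Z ≠ 0 := by
    intro Z hZ h1 hz
    obtain ⟨s, hs, h3⟩ := hS _ hz
    exact off Z hZ h1 s (Finset.mem_union_right _ hs) h3
  obtain ⟨Ys, lam, hf, hYs, -⟩ := exists_fact hA.pos hA.hom hA.nd hY0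
  have hp : ∀ i, wedge (app A (Ys i)) (app A (Lam D η₀)) = 0 := fun i => by
    rw [hf.2 i, wedge_smul_left, wedge_self, mul_zero]
  have hsep := hf.sep hA.pos hA.hom hA.nd hY0 fun i => reg _ (hYs i) (hp i)
  have key : ∀ i, ∃ p q : ℂ, p ≠ 0 ∧ wedge (Lam D (p * η₀ + q)) (Ys i) = 0 ∧
      ∀ z, wedge (app A (Lam D z)) (app A (Lam D (p * z + q))) = 0 := fun i => by
    obtain ⟨η₁, h1, h2⟩ := hC (Ys i) (hYs i) (fun hf => eta_jul D h j ((hA.fat _ (Lam_ne D h _)).1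
      (h.fat_wedge (hA.nd.app_ne (hYs i)) hY0 (hp i) ((hA.fat _ (hYs i)).2 hf))))
      fun s hs => off _ (hYs i) (hp i) s (Finset.mem_union_left _ hs)
    have h3 : wedge (app A (Lam D η₁)) (app A (Lam D η₀)) = 0 :=
      wedge_trans (hA.nd.app_ne (hYs i)) (hA.hom.wedge_app h1 (Lam_ne D h _) (hYs i)) (hp i)
    obtain ⟨p, q, h4, h5, h6⟩ := transfer D h hR hA hA j
      (ram_one hA (Lam_ne D h _) (reg _ (Lam_ne D h _) (wedge_self _)))
      (ram_one hA (Lam_ne D h _) (reg _ (Lam_ne D h _) h3)) h2 (par_symm h3)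
    exact ⟨p, q, h4, h5 ▸ h1, h6⟩
  choose p q hp0 hpq hall using key
  set R := ‖η‖ + ‖η₀‖ + 1
  have hz : η ∈ ball (0 : ℂ) R := mem_ball_zero_iff.2 (by
    have := norm_nonneg η₀; simp only [R]; linarith)
  have h0 : η₀ ∈ ball (0 : ℂ) R := mem_ball_zero_iff.2 (by
    have := norm_nonneg η; simp only [R]; linarith)
  have hRpos : 0 ≤ R := by positivity
  obtain ⟨k, hk⟩ := exists_In D (max R (∑ i, (‖p i‖ * R + ‖q i‖)))
  have k1 : ∀ w ∈ ball (0 : ℂ) R, In D k w := fun w hw =>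
    hk w ((mem_ball_zero_iff.1 hw).le.trans (le_max_left _ _))
  have k2 : ∀ i, ∀ w ∈ ball (0 : ℂ) R, In D k (p i * w + q i) := fun i w hw =>
    hk _ ((norm_aff_le _ _ hw).trans ((Finset.single_le_sum
      (f := fun i => ‖p i‖ * R + ‖q i‖) (fun i _ => by positivity) (Finset.mem_univ i)).trans
        (le_max_right _ _)))
  have a2 : ∀ i, ∀ w ∈ ball (0 : ℂ) R, AnalyticAt ℂ (fun w => Lm D k (p i * w + q i)) w :=
    fun i w hw => AnalyticAt.comp (f := fun w => p i * w + q i) (k2 i w hw).an (an_aff _ _ w)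
  obtain ⟨X, hX⟩ := exists_wedge_app_ne hA.pos hA.hom hA.nd (hA.nd.app_ne (Lm_ne D h k η))
  have hid := ident (f := fun w => wedge (app A Y) (app A (Lm D k w)) *
      ∏ i, wedge X (Lm D k (p i * w + q i)) - wedge (app A X) (app A (Lm D k w)) *
      ∏ i, wedge Y (Lm D k (p i * w + q i)))
    (fun w hw => ((analyticAt_wedge analyticAt_const (an_app A (k1 w hw).an)).mul
      (Finset.analyticAt_fun_prod _ fun i _ => analyticAt_wedge analyticAt_const (a2 i w hw))).sub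
      ((analyticAt_wedge analyticAt_const (an_app A (k1 w hw).an)).mul
      (Finset.analyticAt_fun_prod _ fun i _ => analyticAt_wedge analyticAt_const (a2 i w hw))))
    h0 hz (by
      have b1 : ∀ᶠ w in 𝓝 η₀, ∀ i i', i ≠ i' →
          wedge (Lm D k (p i * w + q i)) (Lm D k (p i' * w + q i')) ≠ 0 := by
        simp only [eventually_all]
        intro i i' hii
        refine (analyticAt_wedge (a2 i _ h0) (a2 i' _ h0)).continuousAt.eventually_ne fun e => ?_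
        have c : ∀ i, wedge (Ys i) (Lm D k (p i * η₀ + q i)) = 0 := fun i =>
          wedge_trans (Lam_ne D h _) (par_symm (hpq i)) (Lam_par D h (k2 i _ h0))
        exact hsep i i' hii (wedge_trans (Lm_ne D h _ _) (c i)
          (wedge_trans (Lm_ne D h _ _) e (par_symm (c i'))))
      filter_upwards [b1, isOpen_ball.mem_nhds h0] with w w1 w2
      obtain ⟨c, hc⟩ := prod_of_roots hA.pos hA.hom hA.nd (hA.nd.app_ne (Lm_ne D h k w))
        (fun i => Lm D k (p i * w + q i))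
        (fun i => par_symm ((par_iff D h hA hA (k1 w w2) (k2 i w w2)).1 (hall i w))) w1
        fun i => Lm_ne D h _ _
      rw [hc, hc]; ring)
  have h1 : wedge (app A Y) (app A (Lm D k η)) = 0 :=
    wedge_trans (hA.nd.app_ne (Lam_ne D h η)) hY (app_Lam_par D h hA (k1 η hz))
  rw [h1, zero_mul, zero_sub, neg_eq_zero] at hid
  obtain ⟨i, -, hi⟩ := Finset.prod_eq_zero_iff.1 ((mul_eq_zero.1 hid).resolve_left hX)
  exact ⟨p i, q i, hp0 i, hall i,
    wedge_trans (Lm_ne D h _ _) hi (par_symm (Lam_par D h (k2 i η hz)))⟩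

lemma deg_le (hR : Rigid (fun ζ => G ![D.L ζ, 1]) D.r) {z z' : ℂ}
    (hp : wedge (Lam D z) (Lam D z') = 0) : deg D z' ≤ deg D z := by
  obtain ⟨m, hm⟩ := exists_In D (max ‖z‖ ‖z'‖)
  have I := hm z (le_max_left _ _)
  have I' := hm z' (le_max_right _ _)
  have A := adm_itr h (D.N * m)
  have key : ∀ {z}, In D m z → wedge (app (itr F (D.N * m)) (Lam D (D.μ ^ m * z))) (Lam D z) = 0 ∧
      Ram (itr F (D.N * m)) (Lam D (D.μ ^ m * z)) (deg D z) := by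
    intro z I
    have h1 := Lam_ball D h I
    refine ⟨wedge_trans (Lm_ne D h m z) (A.hom.wedge_app h1 (Lam_ne D h _) (aff_ne_zero _))
      (par_symm (Lam_par D h I)), ?_⟩
    obtain ⟨e, -, -, he⟩ := exists_ram A.pos A.hom A.nd (aff_ne_zero (D.L (D.μ ^ m * z)))
    rw [deg_eq D h I he]
    exact he.of_wedge A.hom A.nd (aff_ne_zero _) (Lam_ne D h _) (par_symm h1)
  obtain ⟨p, q, hp0, h1, h2⟩ := fibre D h hR A (D.μ ^ m * z) (Y := Lam D (D.μ ^ m * z'))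
    (wedge_trans (Lam_ne D h z') (key I').1
      (wedge_trans (Lam_ne D h z) (par_symm hp) (par_symm (key I).1)))
  have h3 := deg_aff D h A A hp0 h1 (key I).2
    ((key I').2.of_wedge A.hom A.nd (Lam_ne D h _) (Lam_ne D h _) h2)
  rw [deg_ball D h I, mul_one] at h3
  rw [h3]
  exact Nat.le_mul_of_pos_right _ (deg_pos D h _)

lemma near (z : ℂ) : ∃ δ : ℝ, 0 < δ ∧ ∀ W, W ≠ 0 → dlt W (Lam D z) < δ →
    ∃ w, wedge W (Lam D w) = 0 ∧ (w ≠ z → deg D w = 1) := by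
  have I := in_lev D z
  have A := adm_itr h (D.N * lev D z)
  obtain ⟨S, -, hS⟩ := A.hom.isForm_jac.aff_roots (exists_jac_ne A.pos A.hom A.nd)
  have h1 : ∀ᶠ w in 𝓝 z, D.L (D.μ ^ lev D z * w) ∉ (S : Set ℂ) \ {D.L (D.μ ^ lev D z * z)} :=
    I.an_L.continuousAt.eventually
      ((S.finite_toSet.sdiff (t := {D.L (D.μ ^ lev D z * z)})).isClosed.isOpen_compl.mem_nhds
        fun h => h.2 rfl)
  obtain ⟨δ, hδ, hc⟩ := exists_cover I.an (Lm_ne D h _ _)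
    (by rw [ord_Lm D h I]; exact ENat.natCast_ne_top _) (inter_mem I.eventually h1)
  refine ⟨δ, hδ, fun W hW hd => ?_⟩
  obtain ⟨w, ⟨w1, w2⟩, w3⟩ := hc W hW hd
  refine ⟨w, wedge_trans (Lm_ne D h _ _) w3 (par_symm (Lam_par D h w1)),
    fun hw => deg_eq_one D h w1 fun hj => w2 ⟨(hS _).1 hj, fun e => hw ?_⟩⟩
  exact mul_left_cancel₀ (pow_ne_zero _ D.μ_ne) (D.inj w1 I e)

end

end CGlobAux

open CGlobAux in
theorem exists_nu (h : Dyn d F G) {c : ℝ} (h' : Dyn d F' fun Z => G Z + c) (D : Lin F G)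
    (hR : Rigid (fun ζ => G ![D.L ζ, 1]) D.r) :
    ∃ (E : Finset (V ℂ)) (ν : V ℂ → ℕ), E.card ≤ 2 ∧ (∀ e ∈ E, e ≠ 0) ∧
      (∀ X Y, X ≠ 0 → Y ≠ 0 → wedge X Y = 0 → ν X = ν Y) ∧
      (∀ H, (H = F ∨ H = F') → ∀ Y, Y ≠ 0 → (∀ e ∈ E, wedge Y e ≠ 0) →
        (∀ e ∈ E, wedge (app H Y) e ≠ 0) ∧ ∀ m, Ram H Y m → ν (app H Y) = m * ν Y) ∧
      ∀ Y, Y ≠ 0 → (∀ e ∈ E, wedge Y e ≠ 0) → 0 < ν Y ∧ ∃ δ : ℝ, 0 < δ ∧
        ∀ W, W ≠ 0 → dlt W Y < δ → wedge W Y ≠ 0 → ν W = 1 := by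
  classical
  let ν : V ℂ → ℕ := fun Y => if hY : ∃ z, wedge Y (Lam D z) = 0 then deg D hY.choose else 0
  have hν : ∀ Y z, Y ≠ 0 → wedge Y (Lam D z) = 0 → ν Y = deg D z := by
    intro Y z hY hz
    have hex : ∃ z, wedge Y (Lam D z) = 0 := ⟨z, hz⟩
    have h1 := wedge_trans hY (par_symm hex.choose_spec) hz
    simp only [ν, dif_pos hex]
    exact le_antisymm (deg_le D h hR (par_symm h1)) (deg_le D h hR h1)
  have lift : ∀ H, Adm G d H → ∀ Y z, Y ≠ 0 → wedge Y (Lam D z) = 0 →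
      ∃ z', wedge (app H Y) (Lam D z') = 0 ∧ ∀ m, Ram H Y m → deg D z' = m * deg D z := by
    intro H hH Y z hY hz
    obtain ⟨p, q, hp, h1⟩ := exists_aff_lift D h hR hH
    refine ⟨p * z + q, wedge_trans (hH.nd.app_ne (Lam_ne D h z))
      (hH.hom.wedge_app hz hY (Lam_ne D h z)) (by simpa [app_itr] using h1 z), fun m hm => ?_⟩
    have := deg_aff D h hH (adm_itr h 0) hp h1 (hm.of_wedge hH.hom hH.nd hY (Lam_ne D h z) hz)
      (ram_id _ F)
    rw [this, one_mul]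
  have iter : ∀ (n : ℕ) (Y : V ℂ), Y ≠ 0 → (∃ z, wedge Y (Lam D z) = 0) →
      ∃ z, wedge ((app F)^[n] Y) (Lam D z) = 0 := by
    intro n Y hY hz
    induction n with
    | zero => exact hz
    | succ n ih =>
      obtain ⟨z, hz⟩ := ih
      obtain ⟨z', h1, -⟩ := lift F (adm_self h) _ z (h.nondeg.iter_ne n hY) hz
      exact ⟨z', by rwa [Function.iterate_succ_apply']⟩
  obtain ⟨δ, hδ, hn⟩ := near D h 0
  have hJ : ¬ Fat G (Lam D 0) := fun hf => D.jul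
    (h.fat_wedge (Lam_ne D h 0) (aff_ne_zero _) (Lam_ball D h (mem_ball_self D.r_pos)) hf)
  obtain ⟨E, hE, hE0, hom⟩ := h.omitted (Lam_ne D h 0) hJ hδ
  have him : ∀ Y, Y ≠ 0 → ((∀ e ∈ E.filter fun e => ¬ ∃ z, wedge e (Lam D z) = 0, wedge Y e ≠ 0) ↔
      ∃ z, wedge Y (Lam D z) = 0) := by
    intro Y hY
    refine ⟨fun h1 => ?_, fun ⟨z, hz⟩ e he h1 => (Finset.mem_filter.1 he).2
      ⟨z, wedge_trans hY (par_symm h1) hz⟩⟩
    by_contra hc
    obtain ⟨e, he, h2⟩ := (hom Y hY).1 fun n W hW hd h2 => by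
      obtain ⟨w, hw, -⟩ := hn W hW hd
      obtain ⟨z, hz⟩ := iter n W hW ⟨w, hw⟩
      exact hc ⟨z, wedge_trans (h.nondeg.iter_ne n hW) (par_symm h2) hz⟩
    exact h1 e (Finset.mem_filter.2 ⟨he, fun ⟨z, hz⟩ => hc ⟨z, wedge_trans (hE0 e he) h2 hz⟩⟩) h2
  refine ⟨E.filter fun e => ¬ ∃ z, wedge e (Lam D z) = 0, ν, (Finset.card_filter_le _ _).trans hE,
    fun e he => hE0 e (Finset.mem_filter.1 he).1, fun X Y hX hY hXY => ?_,
    fun H hH Y hY h1 => ?_, fun Y hY h1 => ?_⟩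
  · by_cases hz : ∃ z, wedge Y (Lam D z) = 0
    · obtain ⟨z, hz⟩ := hz
      rw [hν Y z hY hz, hν X z hX (wedge_trans hY hXY hz)]
    · have hz' : ¬ ∃ z, wedge X (Lam D z) = 0 := fun ⟨z, h1⟩ =>
        hz ⟨z, wedge_trans hX (par_symm hXY) h1⟩
      simp only [ν, dif_neg hz, dif_neg hz']
  · have hA : Adm G d H := by
      rcases hH with rfl | rfl
      exacts [adm_self h, adm_other h']
    obtain ⟨z, hz⟩ := (him Y hY).1 h1
    obtain ⟨z', h2, h3⟩ := lift H hA Y z hY hz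
    exact ⟨(him _ (hA.nd.app_ne hY)).2 ⟨z', h2⟩, fun m hm => by
      rw [hν _ z' (hA.nd.app_ne hY) h2, hν Y z hY hz, h3 m hm]⟩
  · obtain ⟨z, hz⟩ := (him Y hY).1 h1
    obtain ⟨ε, hε, h2⟩ := near D h z
    refine ⟨hν Y z hY hz ▸ deg_pos D h z, ε, hε, fun W hW hd hne => ?_⟩
    obtain ⟨w, h3, h4⟩ := h2 W hW (by
      rwa [dlt_comm, ← dlt_congr hY (Lam_ne D h z) hz, dlt_comm])
    rw [hν W w hW h3]
    refine h4 fun e => hne ?_
    exact wedge_trans (Lam_ne D h z) (e ▸ h3) (par_symm hz)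

end Pool.Agent.MP_3827f0_nt.H92
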