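import Pool.Agent.MP_3827f0_nt.H92.CLin

/-! Local degrees of holomorphic curves in the plane. -/

set_option autoImplicit false

namespace Pool.Agent.MP_3827f0_nt.H92

open Metric Filter Topology

namespace CGlobAux

/-- The local degree of a curve. -/
noncomputable def ord (s : ℂ → V ℂ) (z : ℂ) : ℕ∞ := analyticOrderAt (fun w => wedge (s w) (s z)) z

variable {s t : ℂ → V ℂ} {z : ℂ}

lemma par_symm {X Y : V ℂ} (h : wedge X Y = 0) : wedge Y X = 0 := by
  rw [wedge_comm, h, neg_zero]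

lemma exists_ne {X : V ℂ} (hX : X ≠ 0) : ∃ W, wedge X W ≠ 0 := by
  obtain ⟨W, hW⟩ := exists_wedge_one hX
  exact ⟨W, by rw [hW]; exact one_ne_zero⟩

lemma ne_of_par {X Y W : V ℂ} (hX : X ≠ 0) (h : wedge X Y = 0) (hY : wedge Y W ≠ 0) :
    wedge X W ≠ 0 := fun h' => hY (wedge_trans hX (par_symm h) h')

lemma an_wedge (hs : AnalyticAt ℂ s z) (Y : V ℂ) : AnalyticAt ℂ (fun w => wedge (s w) Y) z :=
  analyticAt_wedge hs analyticAt_const

lemma order_unit {f g : ℂ → ℂ} (hf : AnalyticAt ℂ f z) (hg : AnalyticAt ℂ g z) (h0 : g z ≠ 0) :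
    analyticOrderAt (fun w => f w * g w) z = analyticOrderAt f z := by
  have := analyticOrderAt_mul hf hg
  rw [hg.analyticOrderAt_eq_zero.2 h0, add_zero] at this
  exact this

lemma order_wedge (hs : AnalyticAt ℂ s z) (h0 : s z ≠ 0) {Y : V ℂ} (hY : Y ≠ 0)
    (h : wedge (s z) Y = 0) : analyticOrderAt (fun w => wedge (s w) Y) z = ord s z := by
  obtain ⟨c, hc, e⟩ := exists_smul_of_wedge h0 hY h
  rw [ord, ← order_unit (an_wedge hs Y) (analyticAt_const (v := c)) hc]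
  congr 1
  funext w
  rw [e, wedge_smul_right, mul_comm]

lemma ord_congr (hs : AnalyticAt ℂ s z) (ht : AnalyticAt ℂ t z) (hs0 : s z ≠ 0) (ht0 : t z ≠ 0)
    (h : ∀ᶠ w in 𝓝 z, wedge (s w) (t w) = 0) : ord s z = ord t z := by
  obtain ⟨X, hX⟩ := exists_ne hs0
  have hz := h.self_of_nhds
  have hX' : wedge (t z) X ≠ 0 := ne_of_par ht0 (par_symm hz) hX
  rw [← order_wedge ht ht0 hs0 (par_symm hz), ord,
    ← order_unit (an_wedge hs (s z)) (an_wedge ht X) hX',
    ← order_unit (an_wedge ht (s z)) (an_wedge hs X) hX]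
  refine analyticOrderAt_congr (h.mono fun w hw => ?_)
  simp only [wedge] at hw ⊢
  linear_combination (s z 1 * X 0 - s z 0 * X 1) * hw * (-1)

lemma ord_comp {g : ℂ → ℂ} (hg : AnalyticAt ℂ g z) (hg' : deriv g z ≠ 0) :
    ord (fun w => s (g w)) z = ord s (g z) :=
  analyticOrderAt_comp_of_deriv_ne_zero (f := fun w => wedge (s w) (s (g z))) hg hg'

lemma an_aff (p q z : ℂ) : AnalyticAt ℂ (fun w => p * w + q) z := by fun_prop

lemma deriv_aff (p q z : ℂ) : deriv (fun w => p * w + q) z = p := by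
  simp

lemma an_form {n : ℕ} {ψ : V ℂ → ℂ} (h : IsForm n ψ) (Z : V ℂ) : AnalyticAt ℂ ψ Z := by
  obtain ⟨p, -, hp⟩ := h
  have h1 := analyticAt_app (fun _ => p) Z
  have h2 : ψ = fun W => app (fun _ => p) W 0 := funext hp
  rw [h2]
  exact analyticAt_pi_iff.1 h1 0

lemma an_app (A : PM ℂ) (hs : AnalyticAt ℂ s z) : AnalyticAt ℂ (fun w => app A (s w)) z :=
  (analyticAt_app A (s z)).comp hs

lemma ord_app {A : PM ℂ} {e : ℕ} (hs : AnalyticAt ℂ s z) (h : Ram A (s z) e) :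
    ord (fun w => app A (s w)) z = e * ord s z := by
  obtain ⟨m, ψ, hψ, h0, h⟩ := h
  have h1 : AnalyticAt ℂ (fun w => ψ (s w)) z := (an_form hψ _).comp hs
  have h2 := analyticOrderAt_pow (an_wedge hs (s z)) e
  rw [ord, ord, ← nsmul_eq_mul, ← h2,
    ← order_unit ((an_wedge hs (s z)).pow e) h1 h0]
  congr 1
  funext w
  exact h (s w)

lemma ord_aff {f : ℂ → ℂ} (hf : AnalyticAt ℂ f z) (hd : deriv f z ≠ 0) :
    ord (fun w => ![f w, 1]) z = 1 := by
  simp only [ord, wedge_aff]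
  exact hf.analyticOrderAt_sub_eq_one_of_deriv_ne_zero hd

/-- Two vectors with the same chart coordinate are parallel. -/
lemma par_of_chart {X Y W W' : V ℂ} (hXY : wedge Y X ≠ 0) (hW : wedge W X ≠ 0)
    (hW' : wedge W' X ≠ 0) (h : wedge W Y / wedge W X = wedge W' Y / wedge W' X) :
    wedge W W' = 0 := by
  rw [div_eq_div_iff hW hW'] at h
  refine (mul_eq_zero.1 (?_ : wedge Y X * wedge W W' = 0)).resolve_left hXY
  simp only [wedge] at h ⊢
  linear_combination h

lemma order_chart (hs : AnalyticAt ℂ s z) (h0 : s z ≠ 0) {X Y : V ℂ} (hY : Y ≠ 0)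
    (h : wedge (s z) Y = 0) (hX : wedge (s z) X ≠ 0) :
    analyticOrderAt (fun w => wedge (s w) Y / wedge (s w) X) z = ord s z := by
  rw [← order_wedge hs h0 hY h,
    ← order_unit (an_wedge hs Y) ((an_wedge hs X).inv hX) (inv_ne_zero hX)]
  simp only [div_eq_mul_inv]
  rfl

/-- The open mapping theorem for curves. -/
lemma exists_cover (hs : AnalyticAt ℂ s z) (h0 : s z ≠ 0) (ho : ord s z ≠ ⊤) {U : Set ℂ}
    (hU : U ∈ 𝓝 z) : ∃ δ : ℝ, 0 < δ ∧ ∀ W, W ≠ 0 → dlt W (s z) < δ →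
      ∃ w ∈ U, wedge W (s w) = 0 := by
  obtain ⟨X, hX⟩ := exists_ne h0
  have hf : AnalyticAt ℂ (fun w => wedge (s w) (s z) / wedge (s w) X) z :=
    (an_wedge hs _).div (an_wedge hs X) hX
  have h1 := hf.eventually_constant_or_nhds_le_map_nhds.resolve_left fun hc => ho (by
    rw [← order_chart hs h0 h0 (wedge_self _) hX, analyticOrderAt_eq_top]
    simpa using hc)
  have h2 : ∀ᶠ w in 𝓝 z, wedge (s w) X ≠ 0 := (an_wedge hs X).continuousAt.eventually_ne hX
  have h3 := h1 (image_mem_map (inter_mem hU h2))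
  have c1 : ∀ Y : V ℂ, Continuous fun W : V ℂ => wedge W Y := fun Y => by
    unfold wedge; fun_prop
  have h4 : ContinuousAt (fun W : V ℂ => wedge W (s z) / wedge W X) (s z) :=
    (c1 _).continuousAt.div (c1 _).continuousAt hX
  obtain ⟨δ, hδ, h5⟩ := exists_near h0
    (inter_mem (h4.preimage_mem_nhds h3) ((c1 X).continuousAt.eventually_ne hX))
  refine ⟨δ, hδ, fun W hW hd => ?_⟩
  obtain ⟨c, hc, ⟨w, ⟨hw, hw'⟩, e⟩, h6⟩ := h5 W hW hd
  refine ⟨w, hw, ?_⟩
  have := par_of_chart hX h6 hw' e.symm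
  rw [wedge_smul_left] at this
  exact (mul_eq_zero.1 this).resolve_left hc

/-- Two immersed curves through the same point differ by a local change of parameter. -/
lemma exists_germ {z' : ℂ} (hs : AnalyticAt ℂ s z) (ht : AnalyticAt ℂ t z') (hs0 : s z ≠ 0)
    (ht0 : t z' ≠ 0) (h : wedge (s z) (t z') = 0) (os : ord s z = 1) (ot : ord t z' = 1) :
    ∃ g : ℂ → ℂ, AnalyticAt ℂ g z ∧ g z = z' ∧ deriv g z ≠ 0 ∧
      ∀ᶠ w in 𝓝 z, wedge (s w) (t (g w)) = 0 := by
  obtain ⟨X, hX⟩ := exists_ne hs0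
  have hX' : wedge (t z') X ≠ 0 := ne_of_par ht0 (par_symm h) hX
  have hf : AnalyticAt ℂ (fun w => wedge (s w) (s z) / wedge (s w) X) z :=
    (an_wedge hs _).div (an_wedge hs X) hX
  have hf' : AnalyticAt ℂ (fun w => wedge (t w) (s z) / wedge (t w) X) z' :=
    (an_wedge ht _).div (an_wedge ht X) hX'
  have key : ∀ {f : ℂ → ℂ} {x : ℂ}, AnalyticAt ℂ f x → analyticOrderAt f x = 1 → deriv f x ≠ 0 := by
    intro f x hf h1
    simpa using ((analyticOrderAt_eq_nat_iff_iteratedDeriv_eq_zero hf (n := 1)).1 h1).2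
  have d1 := key hf (by rw [order_chart hs hs0 hs0 (wedge_self _) hX, os])
  have d2 := key hf' (by rw [order_chart ht ht0 hs0 (par_symm h) hX', ot])
  obtain ⟨g, g1, g2, g3, -, g5⟩ := exists_local_inverse hf' d2
  have e : wedge (t z') (s z) / wedge (t z') X = wedge (s z) (s z) / wedge (s z) X := by
    rw [par_symm h, wedge_self, zero_div, zero_div]
  simp only [e] at g1 g2 g3 g5
  have a1 : AnalyticAt ℂ (fun w => g (wedge (s w) (s z) / wedge (s w) X)) z :=
    AnalyticAt.comp (f := fun w => wedge (s w) (s z) / wedge (s w) X) g1 hf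
  refine ⟨_, a1, g2, ?_, ?_⟩
  · have := deriv_comp z (h := fun w => wedge (s w) (s z) / wedge (s w) X) g1.differentiableAt
      hf.differentiableAt
    rw [Function.comp_def] at this
    rw [this, g3]
    exact mul_ne_zero (inv_ne_zero d2) d1
  · have b1 := hf.continuousAt.eventually g5
    have b2 : ∀ᶠ w in 𝓝 z, wedge (s w) X ≠ 0 := (an_wedge hs X).continuousAt.eventually_ne hX
    have b3 : ∀ᶠ w in 𝓝 z', wedge (t w) X ≠ 0 := (an_wedge ht X).continuousAt.eventually_ne hX'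
    have b4 : Tendsto (fun w => g (wedge (s w) (s z) / wedge (s w) X)) (𝓝 z) (𝓝 z') := by
      have := a1.continuousAt.tendsto
      rwa [g2] at this
    filter_upwards [b1, b2, b4.eventually b3] with w w1 w2 w3
    exact par_of_chart hX w2 w3 w1.symm

/-- A form of degree `e` with `e` distinct roots. -/
lemma prod_of_roots {e : ℕ} {A : PM ℂ} (he : 0 < e) (hA : Hom e A) (hN : Nondeg A) {Y : V ℂ}
    (hY : Y ≠ 0) (S : Fin e → V ℂ) (hS : ∀ i, wedge (app A (S i)) Y = 0)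
    (hsep : ∀ i j, i ≠ j → wedge (S i) (S j) ≠ 0) (h0 : ∀ i, S i ≠ 0) :
    ∃ c : ℂ, ∀ Z, wedge (app A Z) Y = c * ∏ i, wedge Z (S i) := by
  obtain ⟨Ys, lam, hf, hY0, -⟩ := exists_fact he hA hN hY
  have h1 : ∀ i, ∃ j, wedge (Ys j) (S i) = 0 := fun i => by
    have := hS i
    rw [hf.1, Finset.prod_eq_zero_iff] at this
    obtain ⟨j, -, hj⟩ := this
    exact ⟨j, par_symm hj⟩
  choose σ hσ using h1
  have hinj : Function.Injective σ := fun i j hij => by
    by_contra hne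
    exact hsep i j hne (wedge_trans (hY0 (σ i)) (par_symm (hσ i)) (hij ▸ hσ j))
  choose c _ hc using fun i => exists_smul_of_wedge (hY0 (σ i)) (h0 i) (hσ i)
  refine ⟨∏ i, c i, fun Z => ?_⟩
  rw [hf.1, ← (Finite.injective_iff_bijective.1 hinj).prod_comp fun j => wedge Z (Ys j),
    ← Finset.prod_mul_distrib]
  exact Finset.prod_congr rfl fun i _ => by rw [hc i, wedge_smul_right]

lemma ram_id (X : V ℂ) (F : PM ℂ) : Ram (itr F 0) X 1 :=
  ⟨0, fun _ => 1, IsForm.const 1, one_ne_zero, fun Z => by simp [app_itr]⟩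

end CGlobAux

end Pool.Agent.MP_3827f0_nt.H92
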