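import Pool.Agent.MP_3827f0_nt.H92.Mult
import Pool.Agent.MP_3827f0_nt.H92.CFat

/-! The Julia set: global statements. -/

set_option autoImplicit false

namespace Pool.Agent.MP_3827f0_nt.H92

open Metric Filter Topology

variable {d : ℕ} {F : PM ℂ} {G : V ℂ → ℝ} {Z : V ℂ}

namespace CJulAux

lemma wedge_symm {X Y : V ℂ} (h : wedge X Y = 0) : wedge Y X = 0 := by
  rw [wedge_comm, h, neg_zero]

lemma wedge_ne_symm {X Y : V ℂ} (h : wedge X Y ≠ 0) : wedge Y X ≠ 0 :=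
  fun h' => h (wedge_symm h')

lemma pos (h : Dyn d F G) : 0 < d := lt_of_lt_of_le (by norm_num) h.two

lemma one_le_norm_aff (z : ℂ) : 1 ≤ ‖(![z, 1] : V ℂ)‖ := by
  rw [norm_V]; simp

lemma le_norm_aff (z : ℂ) : ‖z‖ ≤ ‖(![z, 1] : V ℂ)‖ := by
  rw [norm_V]; simp

lemma continuous_wedge (Y : V ℂ) : Continuous fun W : V ℂ => wedge W Y := by
  unfold wedge; fun_prop

lemma isOpen_fat (G : V ℂ → ℝ) : IsOpen {W | Fat G W} := by
  rw [isOpen_iff_mem_nhds]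
  rintro W ⟨g, hg, he⟩
  filter_upwards [hg.eventually_analyticAt, he.eventually_nhds] with X h1 h2
  exact ⟨g, h1, h2⟩

lemma dlt_self' (hZ : Z ≠ 0) : dlt Z Z = 0 := (dlt_eq_zero_iff hZ hZ).2 (wedge_self Z)

/-- Three distinct points off a finite set. -/
lemma exists_three_off (S : Finset (V ℂ)) (hS : ∀ s ∈ S, s ≠ 0) : ∃ A B E : V ℂ,
    wedge A B ≠ 0 ∧ wedge A E ≠ 0 ∧ wedge B E ≠ 0 ∧ A ≠ 0 ∧ B ≠ 0 ∧ E ≠ 0 ∧
    ∀ s ∈ S, wedge A s ≠ 0 ∧ wedge B s ≠ 0 ∧ wedge E s ≠ 0 := by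
  classical
  obtain ⟨e, he⟩ := exists_aff_off S hS
  obtain ⟨b, hb⟩ := exists_aff_off (insert ![e, 1] S) (by
    intro s hs
    rcases Finset.mem_insert.1 hs with rfl | hs
    exacts [aff_ne_zero e, hS s hs])
  obtain ⟨a, ha⟩ := exists_aff_off (insert ![b, 1] (insert ![e, 1] S)) (by
    intro s hs
    rcases Finset.mem_insert.1 hs with rfl | hs
    · exact aff_ne_zero b
    rcases Finset.mem_insert.1 hs with rfl | hs
    exacts [aff_ne_zero e, hS s hs])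
  refine ⟨![a, 1], ![b, 1], ![e, 1], ha _ (by simp), ha _ (by simp), hb _ (by simp),
    aff_ne_zero a, aff_ne_zero b, aff_ne_zero e, fun s hs => ⟨ha _ (by simp [hs]),
      hb _ (by simp [hs]), he _ hs⟩⟩

end CJulAux

open CJulAux

theorem Dyn.exists_jul (h : Dyn d F G) : ∃ Z, Z ≠ 0 ∧ ¬ Fat G Z := by
  by_contra hc
  push Not at hc
  have hh : ∀ z : ℂ, HarmAt (fun w : ℂ => G ![w, 1]) z := fun z =>
    Fat.harmAt (s := fun w : ℂ => ![w, 1]) (analyticAt_aff (f := fun w => w) analyticAt_id)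
      (hc _ (aff_ne_zero z))
  obtain ⟨f, hf, hfe⟩ := harm_univ hh
  obtain ⟨C, hC⟩ := h.esc.1
  have hb : ∀ z : ℂ, ‖Complex.exp (- f z)‖ * ‖(![z, 1] : V ℂ)‖ ≤ Real.exp C := by
    intro z
    have h1 := abs_le.1 (hC _ (aff_ne_zero z))
    have hp : 0 < ‖(![z, 1] : V ℂ)‖ := lt_of_lt_of_le one_pos (one_le_norm_aff z)
    rw [Complex.norm_exp, Complex.neg_re, ← hfe z, ← Real.exp_log hp, ← Real.exp_add]
    exact Real.exp_le_exp.2 (by linarith [h1.1])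
  have hd : Differentiable ℂ fun z => Complex.exp (- f z) := hf.neg.cexp
  have hbd : Bornology.IsBounded (Set.range fun z => Complex.exp (- f z)) := by
    rw [isBounded_iff_forall_norm_le]
    refine ⟨Real.exp C, ?_⟩
    rintro _ ⟨z, rfl⟩
    have := hb z
    nlinarith [one_le_norm_aff z, norm_nonneg (Complex.exp (- f z))]
  have hp : 0 < ‖Complex.exp (- f 0)‖ := norm_pos_iff.2 (Complex.exp_ne_zero _)
  set r : ℝ := Real.exp C / ‖Complex.exp (- f 0)‖ + 1 with hr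
  have hr0 : 0 < r := by positivity
  have h1 := hb (r : ℂ)
  have h2 : Complex.exp (- f (r : ℂ)) = Complex.exp (- f 0) := hd.apply_eq_apply_of_bounded hbd _ _
  have h3 := le_norm_aff (r : ℂ)
  rw [Complex.norm_real, Real.norm_of_nonneg hr0.le] at h3
  rw [h2] at h1
  have h4 : ‖Complex.exp (- f 0)‖ * r = Real.exp C + ‖Complex.exp (- f 0)‖ := by
    rw [hr]; field_simp
  nlinarith

/-- Finite backward invariant sets lie outside the Julia set. -/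
theorem Dyn.fat_of_backward (h : Dyn d F G) (E : Finset (V ℂ)) (hE : ∀ e ∈ E, e ≠ 0)
    (hb : ∀ Z, Z ≠ 0 → ∀ e ∈ E, wedge (app F Z) e = 0 → ∃ e' ∈ E, wedge Z e' = 0) :
    ∀ e ∈ E, Fat G e := by
  intro e₀ he₀
  obtain ⟨T, hTE, hsep, hrep⟩ := exists_reps E hE
  have hT0 : ∀ t ∈ T, t ≠ 0 := fun t ht => hE t (hTE ht)
  obtain ⟨-, c, hc, hprod⟩ := prod_of_backward (pos h) h.hom h.nondeg T hT0 hsep (by
    intro Z hZ e he hw
    obtain ⟨e', he', h1⟩ := hb Z hZ e (hTE he) hw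
    obtain ⟨t, ht, h2⟩ := hrep e' he'
    exact ⟨t, ht, wedge_trans (hE e' he') h1 h2⟩)
  obtain ⟨k, rfl⟩ : ∃ k, d = k + 1 := ⟨d - 1, by have := pos h; omega⟩
  have hk : k ≠ 0 := by have := h.two; omega
  have hc0 : 0 < ‖c‖ := norm_pos_iff.2 hc
  set a : ℝ := ‖c‖ ^ ((k : ℝ)⁻¹) with ha
  have ha0 : 0 < a := Real.rpow_pos_of_pos hc0 _
  have hak : a ^ k = ‖c‖ := Real.rpow_inv_natCast_pow hc0.le hk
  set φ : V ℂ → ℝ := fun W => a * ‖∏ e ∈ T, wedge W e‖ * Real.exp (- (T.card * G W)) with hφ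
  have hφ0 : ∀ W, 0 ≤ φ W := fun W => by simp only [hφ]; positivity
  have hφapp : ∀ W, W ≠ 0 → φ (app F W) = φ W ^ (k + 1) := by
    intro W hW
    simp only [hφ]
    rw [hprod, h.esc.2.2 W hW, norm_mul, norm_pow, mul_pow, mul_pow, ← Real.exp_nat_mul, pow_succ a,
      hak]
    have : -((T.card : ℝ) * (((k + 1 : ℕ) : ℝ) * G W)) = ((k + 1 : ℕ) : ℝ) * -(T.card * G W) := by
      ring
    rw [this]; ring
  have hφsmul : ∀ (t : ℂ) (W : V ℂ), t ≠ 0 → W ≠ 0 → φ (t • W) = φ W := by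
    intro t W ht hW
    have ht0 : 0 < ‖t‖ := norm_pos_iff.2 ht
    simp only [hφ, wedge_smul_left]
    rw [h.esc.2.1 t W ht hW, Finset.prod_mul_distrib, Finset.prod_const, norm_mul, norm_pow,
      mul_add, neg_add, Real.exp_add, Real.exp_neg (T.card * Real.log ‖t‖), Real.exp_nat_mul,
      Real.exp_log ht0]
    field_simp
  have hφw : ∀ W Y : V ℂ, W ≠ 0 → Y ≠ 0 → wedge W Y = 0 → φ W = φ Y := by
    intro W Y hW hY hw
    obtain ⟨t, ht, rfl⟩ := exists_smul_of_wedge hW hY hw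
    exact hφsmul t Y ht hY
  have hφit : ∀ W, W ≠ 0 → φ W ≤ 1 → ∀ n : ℕ, φ ((app F)^[n] W) ≤ φ W := by
    intro W hW h1 n
    induction n with
    | zero => exact le_rfl
    | succ n ih =>
      rw [Function.iterate_succ_apply', hφapp _ (h.nondeg.iter_ne n hW)]
      exact (pow_le_of_le_one (hφ0 _) (ih.trans h1) (Nat.succ_ne_zero k)).trans ih
  have hφpos : ∀ W, (∀ s ∈ T, wedge W s ≠ 0) → 0 < φ W := by
    intro W hW
    have : 0 < ‖∏ e ∈ T, wedge W e‖ := norm_pos_iff.2 (Finset.prod_ne_zero_iff.2 hW)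
    simp only [hφ]; positivity
  have he0 := hE e₀ he₀
  have hφe : φ e₀ = 0 := by
    obtain ⟨t, ht, h1⟩ := hrep e₀ he₀
    simp only [hφ]
    rw [Finset.prod_eq_zero ht h1]; simp
  have hφc : ContinuousAt φ e₀ := by
    have h1 : Continuous fun W : V ℂ => ∏ e ∈ T, wedge W e :=
      continuous_finsetProd _ fun e _ => continuous_wedge e
    exact (continuousAt_const.mul h1.norm.continuousAt).mul
      (Real.continuous_exp.continuousAt.comp (continuousAt_const.mul (h.continuousAt he0)).neg)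
  obtain ⟨A, B, E', hAB, hAE, hBE, hA, hB, hE', hoff⟩ := exists_three_off T hT0
  have hA0 := hφpos A fun s hs => (hoff s hs).1
  have hB0 := hφpos B fun s hs => (hoff s hs).2.1
  have hE0 := hφpos E' fun s hs => (hoff s hs).2.2
  set μ : ℝ := min (min 1 (φ A)) (min (φ B) (φ E')) with hμ
  have hμ0 : 0 < μ := by positivity
  have hU : {W | φ W < μ} ∈ 𝓝 e₀ := hφc.eventually_lt continuousAt_const (by rwa [hφe])
  obtain ⟨δ, hδ, hnear⟩ := exists_near he0 hU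
  refine h.fat_of_omit he0 hAB hAE hBE hδ (Frequently.of_forall fun n W hW hWd => ?_)
  obtain ⟨t, ht, h1⟩ := hnear W hW hWd
  have h2 : φ W < μ := by rw [← hφsmul t W ht hW]; exact h1
  have h3 : φ ((app F)^[n] W) < μ :=
    (hφit W hW (h2.le.trans ((min_le_left _ _).trans (min_le_left _ _))) n).trans_lt h2
  have key : ∀ Y, Y ≠ 0 → μ ≤ φ Y → wedge ((app F)^[n] W) Y ≠ 0 := by
    intro Y hY h4 h5
    rw [hφw _ _ (h.nondeg.iter_ne n hW) hY h5] at h3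
    exact absurd h3 (not_lt.2 h4)
  exact ⟨key A hA ((min_le_left _ _).trans (min_le_right _ _)),
    key B hB ((min_le_right _ _).trans (min_le_left _ _)),
    key E' hE' ((min_le_right _ _).trans (min_le_right _ _))⟩

theorem Dyn.jul_infinite (h : Dyn d F G) (S : Finset (V ℂ)) (hS : ∀ s ∈ S, s ≠ 0) :
    ∃ Z, Z ≠ 0 ∧ ¬ Fat G Z ∧ ∀ s ∈ S, wedge Z s ≠ 0 := by
  classical
  by_contra hc
  push Not at hc
  have key : ∀ Z, Z ≠ 0 → ¬ Fat G Z → ∃ s ∈ S.filter (fun s => ¬ Fat G s), wedge Z s = 0 := by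
    intro Z hZ hJ
    obtain ⟨s, hs, h1⟩ := hc Z hZ hJ
    exact ⟨s, Finset.mem_filter.2 ⟨hs, fun hf => hJ (h.fat_wedge (hS s hs) hZ (wedge_symm h1) hf)⟩,
      h1⟩
  have hall := h.fat_of_backward (S.filter fun s => ¬ Fat G s)
    (fun e he => hS e (Finset.mem_filter.1 he).1) (by
      intro Z hZ e he hw
      obtain ⟨he1, he2⟩ := Finset.mem_filter.1 he
      refine key Z hZ fun hf => he2 ?_
      exact h.fat_wedge (h.nondeg.app_ne hZ) (hS e he1) hw ((h.fat_app_iff hZ).2 hf))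
  obtain ⟨Z, hZ, hJ⟩ := h.exists_jul
  obtain ⟨s, hs, -⟩ := key Z hZ hJ
  exact (Finset.mem_filter.1 hs).2 (hall s hs)

/-- The points omitted by the orbit of a neighbourhood of a Julia point. -/
theorem Dyn.omitted (h : Dyn d F G) (hZ : Z ≠ 0) (hJ : ¬ Fat G Z) {δ : ℝ} (hδ : 0 < δ) :
    ∃ E : Finset (V ℂ), E.card ≤ 2 ∧ (∀ e ∈ E, e ≠ 0) ∧ ∀ Y, Y ≠ 0 →
      ((∀ (n : ℕ) (W : V ℂ), W ≠ 0 → dlt W Z < δ → wedge ((app F)^[n] W) Y ≠ 0) ↔
        ∃ e ∈ E, wedge Y e = 0) := by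
  classical
  set O : V ℂ → Prop := fun Y =>
    ∀ (n : ℕ) (W : V ℂ), W ≠ 0 → dlt W Z < δ → wedge ((app F)^[n] W) Y ≠ 0 with hO
  have back : ∀ Y e, Y ≠ 0 → O e → wedge Y e = 0 → O Y :=
    fun Y e hY he hw n W hW hd h1 => he n W hW hd (wedge_trans hY h1 hw)
  change ∃ E : Finset (V ℂ), E.card ≤ 2 ∧ (∀ e ∈ E, e ≠ 0) ∧ ∀ Y, Y ≠ 0 →
    (O Y ↔ ∃ e ∈ E, wedge Y e = 0)
  by_cases h1 : ∃ A, A ≠ 0 ∧ O A
  swap
  · refine ⟨∅, by simp, by simp, fun Y hY => ⟨fun hY' => absurd ⟨Y, hY, hY'⟩ h1, by simp⟩⟩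
  obtain ⟨A, hA, hOA⟩ := h1
  by_cases h2 : ∃ B, B ≠ 0 ∧ O B ∧ wedge B A ≠ 0
  swap
  · push Not at h2
    refine ⟨{A}, by simp, by simpa using hA, fun Y hY => ⟨fun hY' => ⟨A, by simp, h2 Y hY hY'⟩, ?_⟩⟩
    rintro ⟨e, he, hw⟩
    rw [Finset.mem_singleton.1 he] at hw
    exact back Y A hY hOA hw
  obtain ⟨B, hB, hOB, hBA⟩ := h2
  refine ⟨{A, B}, Finset.card_le_two, ?_, fun Y hY => ⟨fun hY' => ?_, ?_⟩⟩
  · intro e he
    rcases Finset.mem_insert.1 he with rfl | he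
    · exact hA
    · rw [Finset.mem_singleton.1 he]; exact hB
  · by_contra hc
    push Not at hc
    exact hJ (h.fat_of_omit hZ (hc B (by simp)) (hc A (by simp)) hBA hδ
      (Frequently.of_forall fun n W hW hd => ⟨hY' n W hW hd, hOB n W hW hd, hOA n W hW hd⟩))
  · rintro ⟨e, he, hw⟩
    rcases Finset.mem_insert.1 he with rfl | he
    · exact back Y _ hY hOA hw
    · rw [Finset.mem_singleton.1 he] at hw
      exact back Y B hY hOB hw

namespace CJulAux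

lemma exists_cover (h : Dyn d F G) (hZ : Z ≠ 0) (hJ : ¬ Fat G Z) {δ : ℝ} (hδ : 0 < δ) {Y : V ℂ}
    (hY : Y ≠ 0) (hYJ : ¬ Fat G Y) :
    ∃ (n : ℕ) (W : V ℂ), W ≠ 0 ∧ dlt W Z < δ ∧ wedge ((app F)^[n] W) Y = 0 := by
  by_contra hc
  push Not at hc
  obtain ⟨E, -, hE, hiff⟩ := h.omitted hZ hJ hδ
  obtain ⟨e, he, hw⟩ := (hiff Y hY).1 hc
  refine hYJ (h.fat_wedge (hE e he) hY (wedge_symm hw) (h.fat_of_backward E hE ?_ e he))
  intro X hX e' he' hw'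
  refine (hiff X hX).1 fun n W hW hd h1 => ?_
  refine (hiff e' (hE e' he')).2 ⟨e', he', wedge_self _⟩ (n + 1) W hW hd ?_
  rw [Function.iterate_succ_apply']
  exact wedge_trans (h.nondeg.app_ne hX) (h.hom.wedge_app h1 (h.nondeg.iter_ne n hW) hX) hw'

lemma isOpen_cover (h : Dyn d F G) (δ : ℝ) (n : ℕ) :
    IsOpen {Y : V ℂ | Y ≠ 0 ∧ ∃ W, W ≠ 0 ∧ dlt W Z < δ ∧ wedge ((app F)^[n] W) Y = 0} := by
  rw [isOpen_iff_mem_nhds]
  rintro Y₀ ⟨hY₀, W₀, hW₀, hd₀, hw₀⟩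
  obtain ⟨c, hc, hpre⟩ := exists_pre_near (pow_pos (pos h) n) (h.hom.itr n) (h.nondeg.itr n)
  have hn := h.nondeg.iter_ne n hW₀
  have hη : 0 < δ - dlt W₀ Z := sub_pos.2 hd₀
  have h1 : ContinuousAt (fun Y : V ℂ => dlt ((app F)^[n] W₀) Y) Y₀ :=
    ContinuousAt.comp (f := fun Y : V ℂ => ((app F)^[n] W₀, Y))
      (g := fun p : V ℂ × V ℂ => dlt p.1 p.2) (continuousAt_dlt hn hY₀) (by fun_prop)
  have h2 : ∀ᶠ Y in 𝓝 Y₀, dlt ((app F)^[n] W₀) Y < c * (δ - dlt W₀ Z) ^ d ^ n :=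
    h1.eventually_lt continuousAt_const (by
      rw [(dlt_eq_zero_iff hn hY₀).2 hw₀]; positivity)
  filter_upwards [h2, isOpen_ne.mem_nhds hY₀] with Y h3 hY
  obtain ⟨W, hW, h4, h5⟩ := hpre W₀ Y hW₀ hY
  rw [app_itr] at h4 h5
  refine ⟨hY, W, hW, ?_, h4⟩
  have h6 : dlt W W₀ ^ d ^ n < (δ - dlt W₀ Z) ^ d ^ n :=
    lt_of_mul_lt_mul_left (h5.trans_lt h3) hc.le
  have h7 := lt_of_pow_lt_pow_left₀ _ hη.le h6
  have h8 := dlt_triangle (X := W) (Y := Z) hW₀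
  linarith

end CJulAux

theorem Dyn.jul_cover (h : Dyn d F G) (hZ : Z ≠ 0) (hJ : ¬ Fat G Z) {δ : ℝ} (hδ : 0 < δ) :
    ∃ n₀ : ℕ, ∀ Y, Y ≠ 0 → ¬ Fat G Y →
      ∃ n ≤ n₀, ∃ W, W ≠ 0 ∧ dlt W Z < δ ∧ wedge ((app F)^[n] W) Y = 0 := by
  have hK : IsCompact (sphere (0 : V ℂ) 1 ∩ {W | Fat G W}ᶜ) :=
    (isCompact_sphere 0 1).inter_right (isOpen_fat G).isClosed_compl
  obtain ⟨t, ht⟩ := hK.elim_finite_subcover
    (fun n : ℕ => {Y : V ℂ | Y ≠ 0 ∧ ∃ W, W ≠ 0 ∧ dlt W Z < δ ∧ wedge ((app F)^[n] W) Y = 0})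
    (fun n => isOpen_cover h δ n) (by
      rintro Y ⟨hY1, hY2⟩
      have hY : Y ≠ 0 := by
        rintro rfl
        simp at hY1
      obtain ⟨n, W, h1⟩ := exists_cover h hZ hJ hδ hY hY2
      exact Set.mem_iUnion.2 ⟨n, hY, W, h1⟩)
  refine ⟨t.sup id, fun Y hY hYJ => ?_⟩
  have hp : 0 < ‖Y‖ := norm_pos_iff.2 hY
  have hs : ((‖Y‖⁻¹ : ℝ) : ℂ) ≠ 0 := by exact_mod_cast (inv_pos.2 hp).ne'
  have hY' : ((‖Y‖⁻¹ : ℝ) : ℂ) • Y ≠ 0 := smul_ne_zero hs hY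
  have hw : wedge (((‖Y‖⁻¹ : ℝ) : ℂ) • Y) Y = 0 := by rw [wedge_smul_left, wedge_self, mul_zero]
  have hmem : ((‖Y‖⁻¹ : ℝ) : ℂ) • Y ∈ sphere (0 : V ℂ) 1 ∩ {W | Fat G W}ᶜ := by
    refine ⟨?_, fun hf => hYJ (h.fat_wedge hY' hY hw hf)⟩
    rw [mem_sphere_zero_iff_norm, norm_smul, Complex.norm_real, Real.norm_of_nonneg (by positivity)]
    field_simp
  obtain ⟨n, hn, -, W, hW, hd, h1⟩ := Set.mem_iUnion₂.1 (ht hmem)
  exact ⟨n, Finset.le_sup (f := id) hn, W, hW, hd, wedge_trans hY' h1 hw⟩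

theorem Dyn.jul_near (h : Dyn d F G) (hZ : Z ≠ 0) (hJ : ¬ Fat G Z) {δ : ℝ} (hδ : 0 < δ)
    (S : Finset (V ℂ)) (hS : ∀ s ∈ S, s ≠ 0) :
    ∃ W, W ≠ 0 ∧ dlt W Z < δ ∧ ¬ Fat G W ∧ ∀ s ∈ S, wedge W s ≠ 0 := by
  classical
  obtain ⟨n₀, hn₀⟩ := h.jul_cover hZ hJ hδ
  obtain ⟨Y, hY, hYJ, hoff⟩ := h.jul_infinite
    ((Finset.range (n₀ + 1) ×ˢ S).image fun p => (app F)^[p.1] p.2) (by
      intro s hs
      obtain ⟨p, hp, rfl⟩ := Finset.mem_image.1 hs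
      exact h.nondeg.iter_ne _ (hS _ (Finset.mem_product.1 hp).2))
  obtain ⟨n, hn, W, hW, hd, hw⟩ := hn₀ Y hY hYJ
  have hWn := h.nondeg.iter_ne n hW
  refine ⟨W, hW, hd, fun hf => hYJ (h.fat_wedge hWn hY hw ((h.fat_iter_iff n hW).2 hf)),
    fun s hs h1 => ?_⟩
  refine hoff ((app F)^[n] s) (Finset.mem_image.2 ⟨(n, s), Finset.mem_product.2
    ⟨Finset.mem_range.2 (Nat.lt_succ_of_le hn), hs⟩, rfl⟩) ?_
  exact wedge_trans hWn (wedge_symm hw) (h.hom.wedge_iter n h1 hW (hS s hs))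

/-- A holomorphic function on a disc that vanishes on the Julia set vanishes. -/
theorem Dyn.eq_zero_of_jul (h : Dyn d F G) {x : ℂ} {R : ℝ} (hR : 0 < R) (hJ : ¬ Fat G ![x, 1])
    {f : ℂ → ℂ} (hf : DifferentiableOn ℂ f (ball x R))
    (h0 : ∀ z ∈ ball x R, ¬ Fat G ![z, 1] → f z = 0) : ∀ z ∈ ball x R, f z = 0 := by
  have han : AnalyticOnNhd ℂ f (ball x R) := hf.analyticOnNhd isOpen_ball
  refine han.eqOn_zero_of_preconnected_of_frequently_eq_zero (convex_ball x R).isPreconnected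
    (mem_ball_self hR) ?_
  rw [(nhdsWithin_hasBasis nhds_basis_ball _).frequently_iff]
  intro ε hε
  obtain ⟨δ, hδ, hnear⟩ := exists_near_aff x (lt_min hε hR)
  obtain ⟨W, hW, hd, hWJ, hoff⟩ := h.jul_near (aff_ne_zero x) hJ hδ {![x, 1]}
    (fun s hs => by rw [Finset.mem_singleton.1 hs]; exact aff_ne_zero x)
  obtain ⟨z, hz, hw⟩ := hnear W hW hd
  refine ⟨z, ⟨ball_subset_ball (min_le_left _ _) hz, ?_⟩,
    h0 z (ball_subset_ball (min_le_right _ _) hz) fun hf' =>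
      hWJ (h.fat_wedge (aff_ne_zero z) hW (wedge_symm hw) hf')⟩
  rintro rfl
  exact hoff _ (Finset.mem_singleton_self _) hw

lemma pt_eq_iff {X Y : V ℂ} (hX : X ≠ 0) (hY : Y ≠ 0) : pt X = pt Y ↔ wedge X Y = 0 := by
  have aux : ∀ W : V ℂ, W ≠ 0 → W 1 = 0 → W 0 ≠ 0 := by
    intro W hW h1 h0
    exact hW (funext fun i => by fin_cases i <;> simp [h0, h1])
  unfold pt wedge
  by_cases h1 : X 1 = 0 <;> by_cases h2 : Y 1 = 0
  · simp [h1, h2]
  · simp [h1, h2, aux X hX h1]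
  · simp [h1, h2, aux Y hY h2]
  · rw [if_neg h1, if_neg h2, OnePoint.coe_eq_coe, div_eq_div_iff h1 h2, sub_eq_zero, mul_comm (X 1)]

lemma pt_surj (p : OnePoint ℂ) : ∃ Z, Z ≠ 0 ∧ pt Z = p := by
  induction p using OnePoint.rec with
  | infty =>
    refine ⟨![1, 0], fun h => ?_, by simp [pt]⟩
    simpa using congrFun h 0
  | coe z => exact ⟨![z, 1], aff_ne_zero z, by simp [pt]⟩

namespace CJulAux

lemma pt_aff (z : ℂ) : pt ![z, 1] = (z : OnePoint ℂ) := by simp [pt]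

lemma mem_nhds_infty (U : Set (OnePoint ℂ)) : U ∈ 𝓝 (OnePoint.infty : OnePoint ℂ) ↔
    OnePoint.infty ∈ U ∧ ∃ R : ℝ, 0 < R ∧ ∀ z : ℂ, R < ‖z‖ → (z : OnePoint ℂ) ∈ U := by
  rw [OnePoint.nhds_infty_eq, mem_sup, mem_pure, mem_map, coclosedCompact_eq_cocompact,
    ← cobounded_eq_cocompact, and_comm, (hasBasis_cobounded_norm (E := ℂ)).mem_iff]
  refine and_congr_right fun _ => ⟨?_, ?_⟩
  · rintro ⟨R, -, hR⟩
    exact ⟨max R 1, by positivity, fun z hz => hR ((le_max_left _ _).trans hz.le)⟩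
  · rintro ⟨R, -, hR⟩
    exact ⟨R + 1, trivial, fun z hz => hR z (lt_of_lt_of_le (lt_add_one R) hz)⟩

lemma continuousAt_pt (hZ : Z ≠ 0) : ContinuousAt pt Z := by
  by_cases h1 : Z 1 = 0
  · have h0 : Z 0 ≠ 0 := fun h0 => hZ (funext fun i => by fin_cases i <;> simp [h0, h1])
    have hp : pt Z = OnePoint.infty := by simp [pt, h1]
    intro U hU
    rw [hp, mem_nhds_infty] at hU
    obtain ⟨hU1, R, hR, hU2⟩ := hU
    have h2 : ∀ᶠ W : V ℂ in 𝓝 Z, R * ‖W 1‖ < ‖W 0‖ :=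
      ContinuousAt.eventually_lt (f := fun W : V ℂ => R * ‖W 1‖) (g := fun W : V ℂ => ‖W 0‖)
        (continuous_const.mul (continuous_apply 1).norm).continuousAt
        (continuous_apply 0).norm.continuousAt (by simpa [h1] using h0)
    rw [mem_map]
    filter_upwards [h2] with W hW
    rw [Set.mem_preimage]
    unfold pt
    split_ifs with h3
    · exact hU1
    · refine hU2 _ ?_
      rw [norm_div, lt_div_iff₀ (norm_pos_iff.2 h3)]
      exact hW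
  · have h2 : ∀ᶠ W : V ℂ in 𝓝 Z, W 1 ≠ 0 :=
      (continuous_apply 1).continuousAt.eventually_ne h1
    have h3 : ContinuousAt (fun W : V ℂ => ((W 0 / W 1 : ℂ) : OnePoint ℂ)) Z :=
      OnePoint.continuous_coe.continuousAt.comp
        (((continuous_apply 0).continuousAt).div (continuous_apply 1).continuousAt h1)
    refine h3.congr ?_
    filter_upwards [h2] with W hW
    simp [pt, hW]

end CJulAux

lemma mem_nhds_pt (hZ : Z ≠ 0) (U : Set (OnePoint ℂ)) :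
    U ∈ 𝓝 (pt Z) ↔ ∃ δ : ℝ, 0 < δ ∧ ∀ W, W ≠ 0 → dlt W Z < δ → pt W ∈ U := by
  constructor
  · intro hU
    obtain ⟨δ, hδ, hnear⟩ := exists_near hZ (continuousAt_pt hZ hU)
    refine ⟨δ, hδ, fun W hW hd => ?_⟩
    obtain ⟨t, ht, h1⟩ := hnear W hW hd
    have h2 : pt (t • W) = pt W := (pt_eq_iff (smul_ne_zero ht hW) hW).2 (by
      rw [wedge_smul_left, wedge_self, mul_zero])
    rw [← h2]; exact h1
  · rintro ⟨δ, hδ, hU⟩
    by_cases h1 : Z 1 = 0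
    · have hp : pt Z = OnePoint.infty := by simp [pt, h1]
      rw [hp, mem_nhds_infty]
      refine ⟨hp ▸ hU Z hZ (by rw [dlt_self' hZ]; exact hδ), δ⁻¹, by positivity, fun z hz => ?_⟩
      rw [← pt_aff]
      refine hU _ (aff_ne_zero z) ?_
      have hZ0 : 0 < ‖Z‖ := norm_pos_iff.2 hZ
      have hz0 : 0 < ‖z‖ := lt_trans (by positivity) hz
      have h2 : ‖wedge ![z, 1] Z‖ ≤ ‖Z‖ := by
        have : wedge ![z, 1] Z = - Z 0 := by simp [wedge, h1]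
        rw [this, norm_neg]; exact norm_le_pi_norm Z 0
      have h3 := le_norm_aff z
      have h4 : 1 < δ * ‖z‖ := by
        rw [inv_lt_iff_one_lt_mul₀' hδ] at hz; exact hz
      unfold dlt
      rw [div_lt_iff₀ (mul_pos (lt_of_lt_of_le hz0 h3) hZ0)]
      have h5 : 1 < δ * ‖(![z, 1] : V ℂ)‖ := h4.trans_le (by gcongr)
      nlinarith
    · have hp : pt Z = ((Z 0 / Z 1 : ℂ) : OnePoint ℂ) := by simp [pt, h1]
      rw [hp, OnePoint.nhds_coe_eq, mem_map]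
      have h2 : ContinuousAt (fun z : ℂ => dlt ![z, 1] Z) (Z 0 / Z 1) :=
        ContinuousAt.comp (f := fun z : ℂ => ((![z, 1] : V ℂ), Z))
          (g := fun p : V ℂ × V ℂ => dlt p.1 p.2) (continuousAt_dlt (aff_ne_zero _) hZ)
          (by fun_prop)
      have h3 : dlt ![Z 0 / Z 1, 1] Z = 0 := (dlt_eq_zero_iff (aff_ne_zero _) hZ).2 (by
        simp [wedge]; field_simp; ring)
      filter_upwards [h2.eventually_lt continuousAt_const (by rw [h3]; exact hδ)] with z hz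
      rw [Set.mem_preimage, ← pt_aff]
      exact hU _ (aff_ne_zero z) hz

/-- The blow up set is the set where the escape rate is not harmonic. -/
theorem Dyn.blowup_iff (h : Dyn d F G) {f : OnePoint ℂ → OnePoint ℂ}
    (hf : ∀ W, W ≠ 0 → f (pt W) = pt (app F W)) (hZ : Z ≠ 0) :
    (∀ U ∈ 𝓝 (pt Z), (⋃ n : ℕ, f^[n] '' U)ᶜ.Finite) ↔ ¬ Fat G Z := by
  classical
  have hit : ∀ (n : ℕ) (W : V ℂ), W ≠ 0 → f^[n] (pt W) = pt ((app F)^[n] W) := by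
    intro n W hW
    induction n with
    | zero => rfl
    | succ n ih =>
      rw [Function.iterate_succ_apply', Function.iterate_succ_apply', ih,
        hf _ (h.nondeg.iter_ne n hW)]
  constructor
  · intro hb hfat
    obtain ⟨δ, hδ, hopen⟩ := h.fat_open hZ hfat
    have hfin := hb (pt '' {W | W ≠ 0 ∧ dlt W Z < δ})
      ((mem_nhds_pt hZ _).2 ⟨δ, hδ, fun W hW hd => ⟨W, ⟨hW, hd⟩, rfl⟩⟩)
    choose rep hrep0 hrep using pt_surj
    obtain ⟨Y, hY, hYJ, hoff⟩ := h.jul_infinite (hfin.toFinset.image rep) (by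
      intro s hs
      obtain ⟨p, -, rfl⟩ := Finset.mem_image.1 hs
      exact hrep0 p)
    have hmem : pt Y ∈ ⋃ n : ℕ, f^[n] '' (pt '' {W | W ≠ 0 ∧ dlt W Z < δ}) := by
      by_contra hc
      refine hoff (rep (pt Y)) (Finset.mem_image_of_mem _ (hfin.mem_toFinset.2 hc)) ?_
      exact (pt_eq_iff hY (hrep0 _)).1 (hrep _).symm
    obtain ⟨n, _, ⟨W, ⟨hW, hd⟩, rfl⟩, h1⟩ := Set.mem_iUnion.1 hmem
    rw [hit n W hW] at h1
    have hWn := h.nondeg.iter_ne n hW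
    exact hYJ (h.fat_wedge hWn hY ((pt_eq_iff hWn hY).1 h1)
      ((h.fat_iter_iff n hW).2 (hopen W hW hd)))
  · intro hJ U hU
    obtain ⟨δ, hδ, hnear⟩ := (mem_nhds_pt hZ U).1 hU
    obtain ⟨E, -, hE, hiff⟩ := h.omitted hZ hJ hδ
    refine (E.finite_toSet.image pt).subset fun p hp => ?_
    obtain ⟨Y, hY, rfl⟩ := pt_surj p
    obtain ⟨e, he, hw⟩ := (hiff Y hY).1 fun n W hW hd h1 => hp (Set.mem_iUnion.2
      ⟨n, pt W, hnear W hW hd, by
        rw [hit n W hW]; exact (pt_eq_iff (h.nondeg.iter_ne n hW) hY).2 h1⟩)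
    exact ⟨e, he, ((pt_eq_iff hY (hE e he)).2 hw).symm⟩

end Pool.Agent.MP_3827f0_nt.H92
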