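import Pool.Agent.MP_3827f0_nt.H92.Mult
import Pool.Agent.MP_3827f0_nt.H92.CFat

/-! Holomorphic inverse branches on discs. -/

set_option autoImplicit false

namespace Pool.Agent.MP_3827f0_nt.H92

open Metric Filter Topology

variable {d : ℕ} {F : PM ℂ} {x : ℂ} {R : ℝ}

namespace CLiftAux

/-- The rational function of a pair of forms. -/
noncomputable def rat (G : PM ℂ) (w : ℂ) : ℂ := (deh (G 0)).eval w / (deh (G 1)).eval w

lemma wedge_app_aff (G : PM ℂ) (w y : ℂ) :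
    wedge (app G ![w, 1]) ![y, 1] = (deh (G 0)).eval w - (deh (G 1)).eval w * y := by
  simp [wedge, app, eval_deh]

lemma den_ne {G : PM ℂ} (hN : Nondeg G) {w y : ℂ} (h : wedge (app G ![w, 1]) ![y, 1] = 0) :
    (deh (G 1)).eval w ≠ 0 := by
  intro hq
  rw [wedge_app_aff, hq] at h
  have hp : (deh (G 0)).eval w = 0 := by simpa using h
  apply aff_ne_zero w
  apply hN
  funext i
  fin_cases i
  · simpa [app, eval_deh] using hp
  · simpa [app, eval_deh] using hq

lemma rat_eq {G : PM ℂ} (hN : Nondeg G) {w y : ℂ} (h : wedge (app G ![w, 1]) ![y, 1] = 0) :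
    rat G w = y := by
  have hq := den_ne hN h
  rw [wedge_app_aff] at h
  unfold rat
  field_simp
  linear_combination h

lemma wedge_rat {G : PM ℂ} {w : ℂ} (hq : (deh (G 1)).eval w ≠ 0) :
    wedge (app G ![w, 1]) ![rat G w, 1] = 0 := by
  rw [wedge_app_aff]
  unfold rat
  field_simp
  ring

lemma hasStrictDerivAt_rat (G : PM ℂ) {w : ℂ} (hq : (deh (G 1)).eval w ≠ 0) :
    HasStrictDerivAt (rat G)
      ((wr (deh (G 0)) (deh (G 1))).eval w / ((deh (G 1)).eval w) ^ 2) w := by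
  have h := ((deh (G 0)).hasStrictDerivAt w).div ((deh (G 1)).hasStrictDerivAt w) hq
  have e : (wr (deh (G 0)) (deh (G 1))).eval w =
      (Polynomial.derivative (deh (G 0))).eval w * (deh (G 1)).eval w -
        (deh (G 0)).eval w * (Polynomial.derivative (deh (G 1))).eval w := by
    simp [wr]
  rw [e]
  exact h

/-- A continuous solution of f (h w) = s w is differentiable when f is unramified. -/
lemma diff_of_cont {f h s : ℂ → ℂ} {z f' : ℂ} (hf : HasStrictDerivAt f f' (h z)) (hf' : f' ≠ 0)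
    (hc : ContinuousAt h z) (hs : DifferentiableAt ℂ s z) (e : ∀ᶠ w in 𝓝 z, f (h w) = s w) :
    DifferentiableAt ℂ h z := by
  have h1 := hc.eventually (hf.eventually_left_inverse hf')
  have h2 : DifferentiableAt ℂ (hf.localInverse f f' (h z) hf') (s z) := by
    rw [← e.self_of_nhds]
    exact (hf.to_localInverse hf').hasDerivAt.differentiableAt
  refine (h2.comp z hs).congr_of_eventuallyEq ?_
  filter_upwards [h1, e] with w a b
  simp only [Function.comp]
  rw [← b, a]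

/-- The finite values different from the image of infinity. -/
def TT (F : PM ℂ) : Set ℂ := {y | wedge (app F ![1, 0]) ![y, 1] ≠ 0}

/-- Their finite preimages. -/
def EE (F : PM ℂ) : Set ℂ := {w | (deh (F 1)).eval w ≠ 0 ∧ rat F w ∈ TT F}

/-- The restricted map. -/
noncomputable def gg (F : PM ℂ) (w : EE F) : TT F := ⟨rat F w, w.2.2⟩

lemma isOpen_TT (F : PM ℂ) : IsOpen (TT F) := by
  have : Continuous fun y : ℂ => wedge (app F ![1, 0]) ![y, 1] := by
    simp only [wedge, Matrix.cons_val_one, Matrix.cons_val_zero]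
    fun_prop
  exact isOpen_ne_fun this continuous_const

lemma isOpen_EE (F : PM ℂ) : IsOpen (EE F) := by
  rw [isOpen_iff_mem_nhds]
  intro w hw
  have h1 : ∀ᶠ v in 𝓝 w, (deh (F 1)).eval v ≠ 0 :=
    (deh (F 1)).continuous.continuousAt.eventually_ne hw.1
  have h2 : ∀ᶠ v in 𝓝 w, rat F v ∈ TT F :=
    (hasStrictDerivAt_rat F hw.1).hasDerivAt.continuousAt.eventually
      ((isOpen_TT F).mem_nhds hw.2)
  exact h1.and h2

lemma continuous_gg (F : PM ℂ) : Continuous (gg F) := by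
  refine Continuous.subtype_mk ?_ _
  rw [continuous_iff_continuousAt]
  intro w
  exact ContinuousAt.comp (f := fun w : EE F => (w : ℂ))
    (hasStrictDerivAt_rat F w.2.1).hasDerivAt.continuousAt continuous_subtype_val.continuousAt

lemma aff_of_wedge (hF : Hom d F) {W : V ℂ} (hW : W ≠ 0) {y : ℂ} (hy : y ∈ TT F)
    (h0 : wedge (app F W) ![y, 1] = 0) :
    W 1 ≠ 0 ∧ wedge (app F ![W 0 / W 1, 1]) ![y, 1] = 0 := by
  have h1 : W 1 ≠ 0 := by
    intro h1
    have h00 : W 0 ≠ 0 := by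
      intro h00
      apply hW
      funext i
      fin_cases i
      · simpa using h00
      · simpa using h1
    have e : W = W 0 • ![1, 0] := by
      funext i
      fin_cases i
      · simp
      · simpa using h1
    rw [e, hF.app_smul, wedge_smul_left] at h0
    exact mul_ne_zero (pow_ne_zero _ h00) hy h0
  refine ⟨h1, ?_⟩
  rw [exists_aff h1, hF.app_smul, wedge_smul_left] at h0
  exact (mul_eq_zero.mp h0).resolve_left (pow_ne_zero _ h1)

lemma isClosedMap_gg (hF : Hom d F) (hN : Nondeg F) : IsClosedMap (gg F) := by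
  intro C hC
  rw [← isSeqClosed_iff_isClosed]
  intro yn y hyn hlim
  choose wn hwC hwy using hyn
  have hne : ∀ n, ‖(![(wn n : ℂ), 1] : V ℂ)‖ ≠ 0 := fun n => norm_ne_zero_iff.mpr (aff_ne_zero _)
  let Zn : ℕ → V ℂ := fun n => ((‖(![(wn n : ℂ), 1] : V ℂ)‖⁻¹ : ℝ) : ℂ) • ![(wn n : ℂ), 1]
  have hZ : ∀ n, Zn n ∈ sphere (0 : V ℂ) 1 := by
    intro n
    simp only [Zn, mem_sphere_iff_norm, sub_zero, norm_smul, Complex.norm_real, norm_inv, norm_norm]
    exact inv_mul_cancel₀ (hne n)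
  obtain ⟨Z, hZs, φ, hφ, hZl⟩ := (isCompact_sphere (0 : V ℂ) 1).tendsto_subseq hZ
  have hZ0 : Z ≠ 0 := by
    intro h
    rw [h] at hZs
    simp at hZs
  have hyl : Tendsto (fun n => ((yn (φ n) : TT F) : ℂ)) atTop (𝓝 (y : ℂ)) :=
    (continuous_subtype_val.tendsto y).comp (hlim.comp hφ.tendsto_atTop)
  have hw0 : ∀ n, wedge (app F (Zn n)) ![(yn n : ℂ), 1] = 0 := by
    intro n
    have e : ((yn n : TT F) : ℂ) = rat F (wn n) := by rw [← hwy n]; rfl
    simp only [Zn]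
    rw [hF.app_smul, wedge_smul_left, e, wedge_rat (wn n).2.1, mul_zero]
  have hFl : Tendsto (fun n => app F (Zn (φ n))) atTop (𝓝 (app F Z)) :=
    (analyticAt_app F Z).continuousAt.tendsto.comp hZl
  have h0 : wedge (app F Z) ![(y : ℂ), 1] = 0 := by
    have t : Tendsto (fun n => wedge (app F (Zn (φ n))) ![(yn (φ n) : ℂ), 1]) atTop
        (𝓝 (wedge (app F Z) ![(y : ℂ), 1])) := by
      simp only [wedge, Matrix.cons_val_one, Matrix.cons_val_zero]
      exact ((((continuous_apply 0).tendsto _).comp hFl).mul tendsto_const_nhds).sub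
        ((((continuous_apply 1).tendsto _).comp hFl).mul hyl)
    simp only [hw0] at t
    exact (tendsto_nhds_unique tendsto_const_nhds t).symm
  obtain ⟨h1, h2⟩ := aff_of_wedge hF hZ0 y.2 h0
  have hr := rat_eq hN h2
  have hE : Z 0 / Z 1 ∈ EE F := ⟨den_ne hN h2, by rw [hr]; exact y.2⟩
  refine ⟨⟨Z 0 / Z 1, hE⟩, ?_, Subtype.ext hr⟩
  refine hC.mem_of_tendsto (f := fun n => wn (φ n)) (b := atTop) ?_
    (Eventually.of_forall fun n => hwC _)
  rw [tendsto_subtype_rng]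
  have t : Tendsto (fun n => Zn (φ n) 0 / Zn (φ n) 1) atTop (𝓝 (Z 0 / Z 1)) :=
    (((continuous_apply 0).tendsto _).comp hZl).div (((continuous_apply 1).tendsto _).comp hZl) h1
  refine t.congr fun n => ?_
  have hc : ((‖(![(wn (φ n) : ℂ), 1] : V ℂ)‖⁻¹ : ℝ) : ℂ) ≠ 0 := by
    exact_mod_cast inv_ne_zero (hne (φ n))
  simp only [Zn, Pi.smul_apply, Matrix.cons_val_one, Matrix.cons_val_zero, smul_eq_mul]
  field_simp

/-- Regular values. -/
def RR (F : PM ℂ) : Set (TT F) :=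
  {y | ∀ Z, Crit F Z → wedge (app F Z) ![(y : ℂ), 1] ≠ 0}

lemma wr_ne (hF : Hom d F) {w y : ℂ} (h : wedge (app F ![w, 1]) ![y, 1] = 0)
    (hy : ∀ Z, Crit F Z → wedge (app F Z) ![y, 1] ≠ 0) :
    (wr (deh (F 0)) (deh (F 1))).eval w ≠ 0 := by
  intro e
  exact hy _ ⟨aff_ne_zero w, by rw [jac_aff hF, e, mul_zero]⟩ h

lemma isCoveringMapOn_gg (hF : Hom d F) (hN : Nondeg F) : IsCoveringMapOn (gg F) (RR F) := by
  refine (isClosedMap_gg hF hN).isCoveringMapOn_of_isLocalHomeomorphOn (fun y _ => ?_) ?_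
  · obtain ⟨S, -, hS⟩ := (hF.isForm_wedge ![(y : ℂ), 1]).aff_roots ⟨_, y.2⟩
    refine (S.finite_toSet.preimage Subtype.val_injective.injOn).subset fun w hw => ?_
    have e : rat F w = y := congrArg Subtype.val hw
    refine (hS _).mp ?_
    rw [← e]
    exact wedge_rat w.2.1
  · have hT : IsLocalHomeomorph (Subtype.val : TT F → ℂ) :=
      (isOpen_TT F).isOpenEmbedding_subtypeVal.isLocalHomeomorph
    have hE : IsLocalHomeomorph (Subtype.val : EE F → ℂ) :=
      (isOpen_EE F).isOpenEmbedding_subtypeVal.isLocalHomeomorph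
    refine IsLocalHomeomorphOn.of_comp_left (g := (Subtype.val : TT F → ℂ)) ?_
      hT.isLocalHomeomorphOn fun w _ => (continuous_gg F).continuousAt
    have hr : IsLocalHomeomorphOn (rat F)
        {w | (deh (F 1)).eval w ≠ 0 ∧ (wr (deh (F 0)) (deh (F 1))).eval w ≠ 0} := by
      intro w hw
      exact ⟨_, ((hasStrictDerivAt_rat F hw.1).hasStrictFDerivAt_equiv
        (div_ne_zero hw.2 (pow_ne_zero _ hw.1))).mem_toOpenPartialHomeomorph_source, by simp⟩
    exact hr.comp hE.isLocalHomeomorphOn fun w hw => ⟨w.2.1, wr_ne hF (wedge_rat w.2.1) hw⟩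

end CLiftAux

open CLiftAux

/-- Lifting a holomorphic map that misses the critical values and the image of infinity. -/
theorem exists_lift (hd : 0 < d) (hF : Hom d F) (hN : Nondeg F) {s : ℂ → ℂ}
    (hs : DifferentiableOn ℂ s (ball x R))
    (hV : ∀ Z, (Crit F Z ∨ Z = ![1, 0]) → ∀ z ∈ ball x R, wedge (app F Z) ![s z, 1] ≠ 0)
    {z₀ : ℂ} (hz : z₀ ∈ ball x R) {W : V ℂ} (hW : W ≠ 0) (h0 : wedge (app F W) ![s z₀, 1] = 0) :
    ∃ h : ℂ → ℂ, DifferentiableOn ℂ h (ball x R) ∧ wedge W ![h z₀, 1] = 0 ∧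
      ∀ z ∈ ball x R, wedge (app F ![h z, 1]) ![s z, 1] = 0 := by
  classical
  have _ := hd
  have hT : ∀ z ∈ ball x R, s z ∈ TT F := fun z hz => hV _ (Or.inr rfl) z hz
  obtain ⟨h1, h2⟩ := aff_of_wedge hF hW (hT z₀ hz) h0
  have hr := rat_eq hN h2
  have hE : W 0 / W 1 ∈ EE F := ⟨den_ne hN h2, by rw [hr]; exact hT z₀ hz⟩
  have : ContractibleSpace (ball x R) := (convex_ball x R).contractibleSpace ⟨z₀, hz⟩
  have : LocallyPathConnectedSpace (ball x R) := isOpen_ball.locallyPathConnectedSpace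
  let f : C(ball x R, TT F) := ⟨fun z => ⟨s z, hT z z.2⟩,
    (continuousOn_iff_continuous_domRestrict.mp hs.continuousOn).subtype_mk _⟩
  obtain ⟨L, ⟨hL0, hL⟩, -⟩ := (isCoveringMapOn_gg hF hN).existsUnique_continuousMap_lifts f
    (a₀ := ⟨z₀, hz⟩) (e₀ := ⟨W 0 / W 1, hE⟩) (Subtype.ext hr)
    (fun a Z hZ => hV Z (Or.inl hZ) a a.2)
  let h : ℂ → ℂ := fun z => if hz : z ∈ ball x R then (L ⟨z, hz⟩ : ℂ) else 0
  have hh : ∀ z : ball x R, h z = L z := fun z => dif_pos z.2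
  have hc : ContinuousOn h (ball x R) := by
    rw [continuousOn_iff_continuous_domRestrict]
    have : (ball x R).domRestrict h = fun z => (L z : ℂ) := funext hh
    rw [this]
    exact continuous_subtype_val.comp L.continuous
  have hq : ∀ z ∈ ball x R, (deh (F 1)).eval (h z) ≠ 0 := fun z hz => by
    rw [hh ⟨z, hz⟩]
    exact (L ⟨z, hz⟩).2.1
  have he : ∀ z ∈ ball x R, rat F (h z) = s z := fun z hz => by
    rw [hh ⟨z, hz⟩]
    exact congrArg Subtype.val (congrFun hL ⟨z, hz⟩)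
  have hw : ∀ z ∈ ball x R, wedge (app F ![h z, 1]) ![s z, 1] = 0 := fun z hz => by
    rw [← he z hz]
    exact wedge_rat (hq z hz)
  refine ⟨h, fun z hz => ?_, ?_, hw⟩
  · have hb : ball x R ∈ 𝓝 z := isOpen_ball.mem_nhds hz
    refine (diff_of_cont (hasStrictDerivAt_rat F (hq z hz))
      (div_ne_zero ?_ (pow_ne_zero _ (hq z hz)))
      (hc.continuousAt hb) (hs.differentiableAt hb) ?_).differentiableWithinAt
    · exact wr_ne hF (hw z hz) fun Z hZ => hV Z (Or.inl hZ) z hz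
    · filter_upwards [hb] with w hw' using he w hw'
  · rw [hh ⟨z₀, hz⟩, hL0]
    simp only [wedge, Matrix.cons_val_one, Matrix.cons_val_zero]
    field_simp
    ring

namespace CLiftAux

lemma br_wedge {n : ℕ} {h : ℂ → ℂ} (hb : Br F n x R h) {z : ℂ} (hz : z ∈ ball x R) :
    wedge (app (itr F n) ![h z, 1]) ![z, 1] = 0 := by
  rw [app_itr]
  exact hb.2 z hz

lemma br_mul (hN : Nondeg F) {n : ℕ} {h : ℂ → ℂ} (hb : Br F n x R h) {z : ℂ}
    (hz : z ∈ ball x R) :
    (wr (deh (itr F n 0)) (deh (itr F n 1))).eval (h z) / ((deh (itr F n 1)).eval (h z)) ^ 2 *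
      deriv h z = 1 := by
  have hB : ball x R ∈ 𝓝 z := isOpen_ball.mem_nhds hz
  have h1 := (hasStrictDerivAt_rat (itr F n)
    (den_ne (hN.itr n) (br_wedge hb hz))).hasDerivAt.comp z (hb.1.differentiableAt hB).hasDerivAt
  have h2 : HasDerivAt (rat (itr F n) ∘ h) 1 z := by
    refine (hasDerivAt_id z).congr_of_eventuallyEq ?_
    filter_upwards [hB] with w hw using rat_eq (hN.itr n) (br_wedge hb hw)
  exact h1.unique h2

lemma br_succ (hF : Hom d F) (hN : Nondeg F) {n : ℕ} {h k : ℂ → ℂ} (hb : Br F n x R h)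
    (hk : DifferentiableOn ℂ k (ball x R))
    (e : ∀ z ∈ ball x R, wedge (app F ![k z, 1]) ![h z, 1] = 0) : Br F (n + 1) x R k := by
  refine ⟨hk, fun z hz => ?_⟩
  rw [Function.iterate_succ_apply]
  exact wedge_trans (hN.iter_ne n (aff_ne_zero _))
    (hF.wedge_iter n (e z hz) (hN.app_ne (aff_ne_zero _)) (aff_ne_zero _)) (hb.2 z hz)

lemma ne_zero_of {Z : V ℂ} (hZ : Crit F Z ∨ Z = ![1, 0]) : Z ≠ 0 := by
  rcases hZ with hZ | rfl
  · exact hZ.1
  · intro h
    simpa using congrFun h 0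

lemma eq_of_wedge {A : V ℂ} (hA : A ≠ 0) {y y' : ℂ} (h : wedge A ![y, 1] = 0)
    (h' : wedge A ![y', 1] = 0) : y = y' := by
  have h1 : wedge ![y, 1] A = 0 := by rw [wedge_comm, h, neg_zero]
  have := wedge_trans hA h1 h'
  rw [wedge_aff] at this
  exact sub_eq_zero.mp this

end CLiftAux

lemma Br.deriv_ne (hF : Hom d F) (hN : Nondeg F) {n : ℕ} {h : ℂ → ℂ} (hb : Br F n x R h) {z : ℂ}
    (hz : z ∈ ball x R) : deriv h z ≠ 0 := by
  have _ := hF
  intro e
  have := br_mul hN hb hz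
  rw [e, mul_zero] at this
  exact zero_ne_one this

/-- Two branches of the same iterate that meet are equal. -/
theorem Br.eqOn (hF : Hom d F) (hN : Nondeg F) {n : ℕ} {h h' : ℂ → ℂ} (hb : Br F n x R h)
    (hb' : Br F n x R h') {z z' : ℂ} (hz : z ∈ ball x R) (hz' : z' ∈ ball x R) (e : h z = h' z') :
    Set.EqOn h h' (ball x R) := by
  have _ := hF
  have hzz : z = z' := by
    rw [← rat_eq (hN.itr n) (br_wedge hb hz), e, rat_eq (hN.itr n) (br_wedge hb' hz')]
  subst hzz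
  have hB : ball x R ∈ 𝓝 z := isOpen_ball.mem_nhds hz
  have hf := hasStrictDerivAt_rat (itr F n) (den_ne (hN.itr n) (br_wedge hb hz))
  have hf' := left_ne_zero_of_mul_eq_one (br_mul hN hb hz)
  have hl := hf.eventually_left_inverse hf'
  have h1 := (hb.1.continuousOn.continuousAt hB).eventually hl
  have h2 : ∀ᶠ w in 𝓝 z,
      HasStrictDerivAt.localInverse _ _ _ hf hf' (rat (itr F n) (h' w)) = h' w := by
    have t : Tendsto h' (𝓝 z) (𝓝 (h z)) := by
      rw [e]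
      exact hb'.1.continuousOn.continuousAt hB
    exact t.eventually hl
  refine (hb.1.analyticOnNhd isOpen_ball).eqOn_of_preconnected_of_eventuallyEq
    (hb'.1.analyticOnNhd isOpen_ball) (convex_ball x R).isPreconnected hz ?_
  filter_upwards [hB, h1, h2] with w hw a b
  rw [rat_eq (hN.itr n) (br_wedge hb hw)] at a
  rw [rat_eq (hN.itr n) (br_wedge hb' hw)] at b
  rw [← a, b]

/-- Extension of a branch to a given point of the backward orbit. -/
theorem Br.extend (hd : 0 < d) (hF : Hom d F) (hN : Nondeg F) {n : ℕ} {h : ℂ → ℂ}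
    (hb : Br F n x R h) (m : ℕ)
    (hV : ∀ Z, (Crit F Z ∨ Z = ![1, 0]) → ∀ k < m, ∀ z ∈ ball x R,
      wedge ((app F)^[k + 1] Z) ![h z, 1] ≠ 0)
    {z₀ : ℂ} (hz : z₀ ∈ ball x R) {W : V ℂ} (hW : W ≠ 0)
    (h0 : wedge ((app F)^[m] W) ![h z₀, 1] = 0) :
    ∃ φ : ℂ → ℂ, Br F (m + n) x R φ ∧ wedge W ![φ z₀, 1] = 0 ∧
      ∀ z ∈ ball x R, wedge ((app F)^[m] ![φ z, 1]) ![h z, 1] = 0 := by
  induction m generalizing n h with
  | zero => exact ⟨h, by simpa using hb, h0, fun z _ => wedge_self _⟩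
  | succ m ih =>
    rw [Function.iterate_succ_apply'] at h0
    obtain ⟨k, hk, hk0, hke⟩ := exists_lift hd hF hN hb.1
      (fun Z hZ z hz => hV Z hZ 0 (Nat.succ_pos m) z hz) hz (hN.iter_ne m hW) h0
    obtain ⟨φ, hφ, hφ0, hφe⟩ := ih (br_succ hF hN hb hk hke) (fun Z hZ j hj z hz e => by
      refine hV Z hZ (j + 1) (by omega) z hz ?_
      rw [Function.iterate_succ_apply']
      exact wedge_trans (hN.app_ne (aff_ne_zero _))
        (hF.wedge_app e (hN.iter_ne _ (ne_zero_of hZ)) (aff_ne_zero _)) (hke z hz)) hk0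
    refine ⟨φ, by rwa [show m + 1 + n = m + (n + 1) by ring], hφ0, fun z hz => ?_⟩
    rw [Function.iterate_succ_apply']
    exact wedge_trans (hN.app_ne (aff_ne_zero _))
      (hF.wedge_app (hφe z hz) (hN.iter_ne _ (aff_ne_zero _)) (aff_ne_zero _)) (hke z hz)

namespace CLiftAux

lemma exists_crit_set (hd : 2 ≤ d) (hF : Hom d F) (hN : Nondeg F) : ∃ C : Finset (V ℂ),
    (∀ c ∈ C, c ≠ 0) ∧ ∀ Z, (Crit F Z ∨ Z = ![1, 0]) → ∃ c ∈ C, wedge Z c = 0 := by
  classical
  obtain ⟨Cs, h0, hC⟩ := exists_jac_factor hd hF hN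
  refine ⟨insert ![1, 0] (Finset.univ.image Cs), fun c hc => ?_, fun Z hZ => ?_⟩
  · rcases Finset.mem_insert.mp hc with rfl | hc
    · exact ne_zero_of (F := F) (Or.inr rfl)
    · obtain ⟨j, -, rfl⟩ := Finset.mem_image.mp hc
      exact h0 j
  · rcases hZ with hZ | rfl
    · have := hZ.2
      rw [hC, Finset.prod_eq_zero_iff] at this
      obtain ⟨j, -, hj⟩ := this
      exact ⟨Cs j, Finset.mem_insert_of_mem (Finset.mem_image_of_mem _ (Finset.mem_univ j)), hj⟩
    · exact ⟨_, Finset.mem_insert_self _ _, wedge_self _⟩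

/-- A branch whose image misses the critical values has d children. -/
lemma children (hd : 0 < d) (hF : Hom d F) (hN : Nondeg F) (hR : 0 < R) {n : ℕ} {h : ℂ → ℂ}
    (hb : Br F n x R h)
    (hV : ∀ Z, (Crit F Z ∨ Z = ![1, 0]) → ∀ z ∈ ball x R, wedge (app F Z) ![h z, 1] ≠ 0) :
    ∃ T : Finset ℂ, T.card = d ∧ ∀ w ∈ T, wedge (app F ![w, 1]) ![h x, 1] = 0 ∧
      ∃ k, Br F (n + 1) x R k ∧ k x = w := by
  classical
  have hx : x ∈ ball x R := mem_ball_self hR
  obtain ⟨Ys, lam, hf, hY, -⟩ := exists_fact hd hF hN (aff_ne_zero (h x))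
  have h0 : ∀ j, wedge (app F (Ys j)) ![h x, 1] = 0 := fun j => by
    rw [hf.2 j, wedge_smul_left, wedge_self, mul_zero]
  have hsep := Fact.sep hd hF hN (aff_ne_zero (h x)) hf
    fun j e => hV _ (Or.inl ⟨hY j, e⟩) x hx (h0 j)
  choose k hk hk0 hke using fun j => exists_lift hd hF hN hb.1 hV hx (hY j) (h0 j)
  refine ⟨Finset.univ.image fun j => k j x, ?_, fun w hw => ?_⟩
  · rw [Finset.card_image_of_injective, Finset.card_univ, Fintype.card_fin]
    intro i j e
    by_contra hij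
    apply hsep i j hij
    refine wedge_trans (aff_ne_zero _) (hk0 i) ?_
    have e' : k i x = k j x := e
    rw [e', wedge_comm, hk0 j, neg_zero]
  · obtain ⟨j, -, rfl⟩ := Finset.mem_image.mp hw
    exact ⟨hke j x hx, k j, br_succ hF hN hb (hk j) (hke j), rfl⟩

/-- One step of the count. -/
lemma step (hd : 0 < d) (hF : Hom d F) (hN : Nondeg F) (hR : 0 < R) {n : ℕ} (B : Finset ℂ)
    (hB : ∀ y ∈ B, ∃ h, Br F n x R h ∧ h x = y ∧
      ∀ Z, (Crit F Z ∨ Z = ![1, 0]) → ∀ z ∈ ball x R, wedge (app F Z) ![h z, 1] ≠ 0) :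
    ∃ B' : Finset ℂ, B'.card = B.card * d ∧ ∀ w ∈ B', ∃ k, Br F (n + 1) x R k ∧ k x = w := by
  classical
  have : ∀ y, ∃ T : Finset ℂ, y ∈ B → T.card = d ∧ ∀ w ∈ T, wedge (app F ![w, 1]) ![y, 1] = 0 ∧
      ∃ k, Br F (n + 1) x R k ∧ k x = w := by
    intro y
    by_cases hy : y ∈ B
    · obtain ⟨h, hb, rfl, hV⟩ := hB y hy
      obtain ⟨T, hT⟩ := children hd hF hN hR hb hV
      exact ⟨T, fun _ => hT⟩
    · exact ⟨∅, fun h => absurd h hy⟩
  choose T hT using this
  refine ⟨B.biUnion T, ?_, fun w hw => ?_⟩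
  · rw [Finset.card_biUnion, Finset.sum_congr rfl fun y hy => (hT y hy).1, Finset.sum_const,
      smul_eq_mul]
    intro y hy y' hy' hne
    refine Finset.disjoint_left.mpr fun w hw hw' => hne ?_
    exact eq_of_wedge (hN.app_ne (aff_ne_zero w)) ((hT y hy).2 w hw).1 ((hT y' hy').2 w hw').1
  · obtain ⟨y, hy, hw⟩ := Finset.mem_biUnion.mp hw
    exact ((hT y hy).2 w hw).2

/-- At most card C branches meet the critical values. -/
lemma prune (hF : Hom d F) (hN : Nondeg F) (hR : 0 < R) {C : Finset (V ℂ)} (hC0 : ∀ c ∈ C, c ≠ 0)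
    (hC : ∀ Z, (Crit F Z ∨ Z = ![1, 0]) → ∃ c ∈ C, wedge Z c = 0) {n : ℕ} (B : Finset ℂ)
    (hB : ∀ y ∈ B, ∃ h, Br F n x R h ∧ h x = y) :
    ∃ B' : Finset ℂ, B.card ≤ B'.card + C.card ∧ ∀ y ∈ B', ∃ h, Br F n x R h ∧ h x = y ∧
      ∀ Z, (Crit F Z ∨ Z = ![1, 0]) → ∀ z ∈ ball x R, wedge (app F Z) ![h z, 1] ≠ 0 := by
  classical
  let bad : ℂ → V ℂ → Prop := fun y c => ∃ h, Br F n x R h ∧ h x = y ∧
    ∃ z ∈ ball x R, wedge (app F c) ![h z, 1] = 0
  refine ⟨B.filter fun y => ¬ ∃ c ∈ C, bad y c, ?_, fun y hy => ?_⟩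
  · rw [← Finset.card_filter_add_card_filter_not (s := B) (fun y => ∃ c ∈ C, bad y c), add_comm]
    refine Nat.add_le_add_left ?_ _
    refine Finset.card_le_card_of_forall_subsingleton bad (fun y hy => ?_) fun c hc => ?_
    · exact (Finset.mem_filter.mp hy).2
    · rintro y ⟨-, h, hb, rfl, z, hz, e⟩ y' ⟨-, h', hb', rfl, z', hz', e'⟩
      exact hb.eqOn hF hN hb' hz hz' (eq_of_wedge (hN.app_ne (hC0 c hc)) e e') (mem_ball_self hR)
  · obtain ⟨hy, hg⟩ := Finset.mem_filter.mp hy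
    obtain ⟨h, hb, hx⟩ := hB y hy
    refine ⟨h, hb, hx, fun Z hZ z hz e => hg ?_⟩
    obtain ⟨c, hc, hw⟩ := hC Z hZ
    refine ⟨c, hc, h, hb, hx, z, hz, wedge_trans (hN.app_ne (ne_zero_of hZ)) ?_ e⟩
    refine hF.wedge_app ?_ (hC0 c hc) (ne_zero_of hZ)
    rw [wedge_comm, hw, neg_zero]

end CLiftAux

/-- The count of Lyubich: many branches on discs off a finite set. -/
theorem exists_many_br (hd : 2 ≤ d) (hF : Hom d F) (hN : Nondeg F) : ∃ S : Finset ℂ,
    ∀ (x : ℂ) (R : ℝ), 0 < R → (∀ s ∈ S, s ∉ ball x R) → ∀ n : ℕ,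
      ∃ (B : Finset ℂ) (k : ℂ → ℂ → ℂ), d ^ n ≤ 2 * B.card ∧
        ∀ y ∈ B, Br F n x R (k y) ∧ k y x = y := by
  classical
  have hd0 : 0 < d := by omega
  obtain ⟨C, hC0, hC⟩ := exists_crit_set hd hF hN
  obtain ⟨M, hM⟩ : ∃ M : ℕ, 4 * C.card ≤ d ^ M := ⟨_, (Nat.lt_pow_self (by omega : 1 < d)).le⟩
  refine ⟨(Finset.range M ×ˢ C).image
    fun p => (app F)^[p.1 + 1] p.2 0 / (app F)^[p.1 + 1] p.2 1, fun x R hR hS => ?_⟩
  have h1 : ∀ n ≤ M, ∃ B : Finset ℂ, B.card = d ^ n ∧ ∀ y ∈ B, ∃ h, Br F n x R h ∧ h x = y := by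
    intro n
    induction n with
    | zero =>
      refine fun _ => ⟨{x}, by simp, fun y hy => ⟨id, ⟨differentiableOn_id, fun z _ => ?_⟩, ?_⟩⟩
      · exact wedge_self _
      · exact (Finset.mem_singleton.mp hy).symm
    | succ n ih =>
      intro hn
      obtain ⟨B, hB, hBb⟩ := ih (by omega)
      obtain ⟨B', hB', hb'⟩ := step hd0 hF hN hR B (n := n) (x := x) fun y hy => by
        obtain ⟨h, hb, hx⟩ := hBb y hy
        refine ⟨h, hb, hx, fun Z hZ z hz e => hS z ?_ hz⟩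
        obtain ⟨c, hc, hw⟩ := hC Z hZ
        have hZ0 := ne_zero_of hZ
        have e1 : wedge ((app F)^[n + 1] Z) ![z, 1] = 0 := by
          rw [Function.iterate_succ_apply]
          exact wedge_trans (hN.iter_ne n (aff_ne_zero _))
            (hF.wedge_iter n e (hN.app_ne hZ0) (aff_ne_zero _)) (hb.2 z hz)
        have e2 : wedge ((app F)^[n + 1] c) ![z, 1] = 0 := by
          refine wedge_trans (hN.iter_ne _ hZ0) (hF.wedge_iter _ ?_ (hC0 c hc) hZ0) e1
          rw [wedge_comm, hw, neg_zero]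
        refine Finset.mem_image.mpr ⟨(n, c), Finset.mem_product.mpr
          ⟨Finset.mem_range.mpr (by omega), hc⟩, ?_⟩
        obtain ⟨t, ht, e3⟩ := exists_smul_of_wedge (hN.iter_ne _ (hC0 c hc)) (aff_ne_zero z) e2
        simp only [e3, Pi.smul_apply, Matrix.cons_val_one, Matrix.cons_val_zero, smul_eq_mul]
        field_simp
      exact ⟨B', by rw [hB', hB, pow_succ], hb'⟩
  have h2 : ∀ n, M ≤ n → ∃ B : Finset ℂ, d ^ n + 4 * C.card ≤ 2 * B.card ∧
      ∀ y ∈ B, ∃ h, Br F n x R h ∧ h x = y := by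
    intro n hn
    induction n, hn using Nat.le_induction with
    | base =>
      obtain ⟨B, hB, hb⟩ := h1 M le_rfl
      exact ⟨B, by omega, hb⟩
    | succ n _ ih =>
      obtain ⟨B, hB, hb⟩ := ih
      obtain ⟨B', hB', hb'⟩ := prune hF hN hR hC0 hC B hb
      obtain ⟨B'', hB'', hb''⟩ := step hd0 hF hN hR B' hb'
      refine ⟨B'', ?_, hb''⟩
      rw [hB'', pow_succ]
      have a : d ^ n + 2 * C.card ≤ 2 * B'.card := by omega
      nlinarith [Nat.mul_le_mul_right d a, Nat.mul_le_mul_left (2 * C.card) hd]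
  intro n
  have h3 : ∃ B : Finset ℂ, d ^ n ≤ 2 * B.card ∧ ∀ y ∈ B, ∃ h, Br F n x R h ∧ h x = y := by
    rcases le_total n M with hn | hn
    · obtain ⟨B, hB, hb⟩ := h1 n hn
      exact ⟨B, by omega, hb⟩
    · obtain ⟨B, hB, hb⟩ := h2 n hn
      exact ⟨B, by omega, hb⟩
  obtain ⟨B, hB, hb⟩ := h3
  choose! k hk using hb
  exact ⟨B, k, hB, hk⟩

end Pool.Agent.MP_3827f0_nt.H92
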