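import Pool.Agent.MP_3827f0_nt.H92.CLinAux

/-! A linearized repelling point, and symmetries from a second map. -/

set_option autoImplicit false

namespace Pool.Agent.MP_3827f0_nt.H92

open Metric

variable {d : ℕ} {F F' : PM ℂ} {G : V ℂ → ℝ}

/-- Branches of high order on a disc that meets the Julia set are almost constant. -/
theorem Dyn.shrink (h : Dyn d F G) {x : ℂ} {R : ℝ} (hR : 0 < R) (hJ : ¬ Fat G ![x, 1]) {s ε : ℝ}
    (hs : s < R) (hε : 0 < ε) : ∃ n₀ : ℕ, ∀ n, n₀ ≤ n → ∀ k, Br F n x R k →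
      ∀ z ∈ ball x s, dlt ![k z, 1] ![k x, 1] < ε := CLinAux.shrink h hR hJ hs hε

namespace CLinAux

open Filter Topology

/-- Two contracting branches give a linearized point. -/
lemma lin_of_two (h : Dyn d F G) {x : ℂ} {ρ : ℝ} (hρ : 0 < ρ) (hJ : ¬ Fat G ![x, 1]) {N : ℕ}
    (hN : 0 < N) {φ ψ : ℂ → ℂ} (hφ : Br F N x ρ φ) (hψ : Br F N x ρ ψ)
    (mφ : Set.MapsTo φ (ball x ρ) (ball x (ρ / 8))) (mψ : Set.MapsTo ψ (ball x ρ) (ball x (ρ / 8)))
    (hne : φ x ≠ ψ x) : ∃ D : Lin F G, Set.MapsTo D.L (ball 0 D.r) (ball x ρ) := by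
  have hsub : closedBall x (ρ / 2) ⊆ ball x ρ := closedBall_subset_ball (by linarith)
  have hsub8 : ball x (ρ / 8) ⊆ closedBall x (ρ / 2) :=
    ball_subset_closedBall.trans (closedBall_subset_closedBall (by linarith))
  have hsub8' : ball x (ρ / 8) ⊆ ball x ρ := hsub8.trans hsub
  have hder : ∀ z ∈ closedBall x (ρ / 2), ‖deriv φ z‖ ≤ 1 / 2 := by
    intro z hz
    have hb : ball z (ρ / 2) ⊆ ball x ρ := ball_subset_ball' (by
      have := mem_closedBall.1 hz; linarith)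
    have := Complex.norm_deriv_le_div_of_mapsTo_ball (f := φ) (c := z) (R₁ := ρ / 2) (R₂ := ρ / 4)
      (hφ.1.mono hb) (fun w hw => by
        have h1 := mem_ball.1 (mφ (hb hw))
        have h2 := mem_ball.1 (mφ (hsub hz))
        have h3 := dist_triangle_right (φ w) (φ z) x
        exact mem_closedBall.2 (by linarith)) (by linarith)
    refine this.trans (le_of_eq ?_)
    field_simp; ring
  have hlip : ∀ z ∈ closedBall x (ρ / 2), ∀ w ∈ closedBall x (ρ / 2),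
      ‖φ w - φ z‖ ≤ 1 / 2 * ‖w - z‖ := fun z hz w hw =>
    (convex_closedBall x (ρ / 2)).norm_image_sub_le_of_norm_deriv_le
      (fun y hy => (an_of_diff hφ.1 (hsub hy)).differentiableAt) hder hz hw
  set A : Set ℂ := closedBall x (ρ / 2) ∩ {z | ¬ Fat G ![z, 1]} with hA
  have hAc : IsComplete A := (isClosed_closedBall.inter isClosed_jul).isComplete
  have hAm : Set.MapsTo φ A A := fun z hz =>
    ⟨hsub8 (mφ (hsub hz.1)), fun hf => hz.2 (br_fat h hφ (hsub hz.1) hf)⟩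
  have hcon : ContractingWith (1 / 2) (hAm.restrict φ A A) := by
    refine ⟨by norm_num, LipschitzWith.of_dist_le_mul fun z w => ?_⟩
    have := hlip w.1 w.2.1 z.1 z.2.1
    simpa [Subtype.dist_eq, dist_eq_norm] using this
  obtain ⟨x₀, hx₀, hfix, -, -⟩ := ContractingWith.exists_fixedPoint' hAc hAm hcon
    (x := x) ⟨mem_closedBall_self (by linarith), hJ⟩ (edist_ne_top _ _)
  have hfix' : φ x₀ = x₀ := hfix
  have hx₀ρ : x₀ ∈ ball x ρ := hsub hx₀.1
  have hne₀ : ψ x₀ ≠ x₀ := by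
    intro e
    exact hne (Br.eqOn h.hom h.nondeg hφ hψ hx₀ρ hx₀ρ (hfix'.trans e.symm) (mem_ball_self hρ))
  obtain ⟨r, L, hr, hL0, hLd, hLi, hLder, hLm, hLe⟩ := koenigs (an_of_diff hφ.1 hx₀ρ) hfix'
    (hφ.deriv_ne h.hom h.nondeg hx₀ρ) ((hder x₀ hx₀.1).trans_lt (by norm_num))
    (R := ρ / 2) (by linarith)
  have hLm' : Set.MapsTo L (ball 0 r) (ball x ρ) := hLm.mono_right (ball_subset_ball' (by
    have := mem_closedBall.1 hx₀.1; linarith))
  have hLa : AnalyticAt ℂ L 0 := an_of_diff hLd (mem_ball_self hr)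
  obtain ⟨g, hga, hg0, -, -, hgL⟩ := exists_local_inverse hLa (hLder 0 (mem_ball_self hr))
  rw [hL0] at hga hg0 hgL
  have hit : ∀ j : ℕ, Br F ((j + 1) * N) x ρ (fun z => φ^[j] (ψ z)) ∧
      Set.MapsTo (fun z => φ^[j] (ψ z)) (ball x ρ) (ball x (ρ / 8)) ∧
      φ^[j] (ψ x₀) ≠ x₀ ∧ ‖φ^[j] (ψ x₀) - x₀‖ ≤ (1 / 2) ^ j * ‖ψ x₀ - x₀‖ := by
    intro j
    induction j with
    | zero => exact ⟨by simpa using hψ, by simpa using mψ, by simpa using hne₀, by simp⟩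
    | succ j ih =>
      obtain ⟨i1, i2, i3, i4⟩ := ih
      simp only [Function.iterate_succ_apply']
      refine ⟨?_, fun z hz => mφ (hsub8' (i2 hz)), fun e => i3 ?_, ?_⟩
      · rw [add_mul (j + 1), one_mul]
        exact br_comp h hφ i1 (i2.mono_right hsub8')
      · exact br_inj h hφ (hsub8' (i2 hx₀ρ)) hx₀ρ (e.trans hfix'.symm)
      · have := hlip x₀ hx₀.1 _ (hsub8 (i2 hx₀ρ))
        rw [hfix'] at this
        refine this.trans ?_
        rw [pow_succ]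
        nlinarith [i4]
  have hlim : Tendsto (fun j : ℕ => φ^[j] (ψ x₀)) atTop (𝓝 x₀) := by
    rw [tendsto_iff_norm_sub_tendsto_zero]
    refine squeeze_zero (fun j => norm_nonneg _) (fun j => (hit j).2.2.2) ?_
    simpa using (tendsto_pow_atTop_nhds_zero_of_lt_one (r := (1 / 2 : ℝ)) (by norm_num)
      (by norm_num)).mul_const ‖ψ x₀ - x₀‖
  have hgm : ∀ᶠ w in 𝓝 x₀, g w ∈ ball (0 : ℂ) r :=
    hga.continuousAt.eventually (by rw [hg0]; exact ball_mem_nhds 0 hr)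
  obtain ⟨j, hj1, hj2, hj3⟩ := (hlim.eventually
    (hga.eventually_analyticAt.and (hgL.eventually_nhds.and hgm))).exists
  obtain ⟨i1, i2, i3, -⟩ := hit j
  set χ : ℂ → ℂ := fun z => φ^[j] (ψ z) with hχ
  have hχa : AnalyticAt ℂ χ (L 0) := by rw [hL0]; exact an_of_diff i1.1 hx₀ρ
  have hχL : AnalyticAt ℂ (fun ζ => χ (L ζ)) 0 := hχa.comp hLa
  have hθa : AnalyticAt ℂ (fun ζ => g (χ (L ζ))) 0 :=
    AnalyticAt.comp (g := g) (by simp only [hL0]; exact hj1) hχL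
  have hθe : ∀ᶠ ζ in 𝓝 (0 : ℂ), L (g (χ (L ζ))) = χ (L ζ) :=
    hχL.continuousAt.eventually (by simp only [hL0]; exact hj2)
  have hθm : g (χ (L 0)) ∈ ball (0 : ℂ) r := by rw [hL0]; exact hj3
  have hμ : ∀ ζ ∈ ball (0 : ℂ) r, wedge ((app F)^[N] ![L (deriv φ x₀ * ζ), 1]) ![L ζ, 1] = 0 := by
    intro ζ hζ
    rw [hLe ζ hζ]
    exact hφ.2 _ (hLm' hζ)
  refine ⟨⟨N, hN, r, hr, L, deriv φ x₀, hφ.deriv_ne h.hom h.nondeg hx₀ρ,
    (hder x₀ hx₀.1).trans_lt (by norm_num), hLd, hLi, hLder, hμ, by rw [hL0]; exact hx₀.2,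
    fun ζ => g (χ (L ζ)), hθa, ?_, ?_, hθm, (j + 1) * N, ?_⟩, hLm'⟩
  · intro e
    have e1 : deriv (fun ζ => L (g (χ (L ζ)))) 0 = 0 := by
      have := (an_of_diff hLd hθm).differentiableAt.hasDerivAt.comp (0 : ℂ)
        hθa.differentiableAt.hasDerivAt
      rw [e, mul_zero] at this
      exact this.deriv
    have e2 : deriv (fun ζ => χ (L ζ)) 0 = deriv χ (L 0) * deriv L 0 :=
      (hχa.differentiableAt.hasDerivAt.comp (0 : ℂ) hLa.differentiableAt.hasDerivAt).deriv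
    rw [Filter.EventuallyEq.deriv_eq hθe, e2, hL0] at e1
    exact mul_ne_zero (i1.deriv_ne h.hom h.nondeg hx₀ρ) (hLder 0 (mem_ball_self hr)) e1
  · intro e
    have := hθe.self_of_nhds
    rw [e, hL0] at this
    exact i3 this.symm
  · filter_upwards [hθe, ball_mem_nhds 0 hr] with ζ h1 h2
    rw [h1]
    exact i1.2 _ (hLm' h2)

/-- The forward images of the critical points and of infinity, up to a given time. -/
lemma exists_bad (h : Dyn d F G) (m : ℕ) : ∃ T : Finset (V ℂ), (∀ t ∈ T, t ≠ 0) ∧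
    ∀ Z, (Crit F Z ∨ Z = ![1, 0]) → ∀ k < m, ∃ t ∈ T, wedge ((app F)^[k + 1] Z) t = 0 := by
  classical
  obtain ⟨Cs, hC0, hC⟩ := exists_jac_factor h.two h.hom h.nondeg
  have h10 : (![1, 0] : V ℂ) ≠ 0 := fun e => by simpa using congrFun e 0
  refine ⟨((insert ![1, 0] (Finset.univ.image Cs)) ×ˢ Finset.range m).image
    fun p => (app F)^[p.2 + 1] p.1, ?_, ?_⟩
  · intro t ht
    obtain ⟨⟨Z, k⟩, hp, rfl⟩ := Finset.mem_image.1 ht
    refine h.nondeg.iter_ne _ ?_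
    rcases Finset.mem_insert.1 (Finset.mem_product.1 hp).1 with e | e
    · exact e ▸ h10
    · obtain ⟨j, -, e⟩ := Finset.mem_image.1 e
      exact e ▸ hC0 j
  · rintro Z (hZ | rfl) k hk
    · have := hZ.2
      rw [hC, Finset.prod_eq_zero_iff] at this
      obtain ⟨j, -, hj⟩ := this
      exact ⟨_, Finset.mem_image.2 ⟨(Cs j, k), by simp [hk], rfl⟩,
        h.hom.wedge_iter _ hj hZ.1 (hC0 j)⟩
    · exact ⟨_, Finset.mem_image.2 ⟨(![1, 0], k), by simp [hk], rfl⟩, wedge_self _⟩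

end CLinAux

open CLinAux Filter Topology in
theorem Dyn.exists_lin (h : Dyn d F G) : ∃ (D : Lin F G) (x : ℂ) (R : ℝ), 0 < R ∧
    Set.MapsTo D.L (ball 0 D.r) (ball x R) ∧ ∀ n : ℕ, ∃ k, Br F n x R k := by
  classical
  have hd0 : 0 < d := by have := h.two; omega
  obtain ⟨S, hS⟩ := exists_many_br h.two h.hom h.nondeg
  have h10 : (![1, 0] : V ℂ) ≠ 0 := fun e => by simpa using congrFun e 0
  obtain ⟨Z, hZ, hZJ, hZS⟩ := h.jul_infinite (insert ![1, 0] (S.image fun s => ![s, 1])) (by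
    intro s hs
    rcases Finset.mem_insert.1 hs with e | e
    · exact e ▸ h10
    · obtain ⟨j, -, e⟩ := Finset.mem_image.1 e
      exact e ▸ aff_ne_zero j)
  have hZ1 : Z 1 ≠ 0 := by
    have := hZS _ (Finset.mem_insert_self _ _)
    simpa [wedge] using this
  set x := Z 0 / Z 1 with hx
  have hZx : wedge Z ![x, 1] = 0 := by simp [wedge, hx]; field_simp; ring
  have hJ : ¬ Fat G ![x, 1] := fun hf =>
    hZJ (h.fat_wedge (aff_ne_zero x) hZ (wedge_symm hZx) hf)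
  have hxS : x ∉ (S : Set ℂ) := fun hs =>
    hZS _ (Finset.mem_insert_of_mem (Finset.mem_image_of_mem _ hs)) hZx
  obtain ⟨R, hR, hRS⟩ := Metric.isOpen_iff.1 S.finite_toSet.isClosed.isOpen_compl x hxS
  have hB := hS x R hR fun s hs hb => hRS hb hs
  have hxR : x ∈ ball x R := mem_ball_self hR
  obtain ⟨δ, hδ, hδ'⟩ := exists_near_aff x (ε := R / 2 / 8) (by linarith)
  obtain ⟨n₀, hn₀⟩ := h.jul_cover (aff_ne_zero x) hJ (half_pos hδ)
  obtain ⟨T, hT0, hT⟩ := exists_bad h n₀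
  obtain ⟨n₁, hn₁⟩ := h.shrink hR hJ (s := R / 2) (by linarith) (half_pos hδ)
  set N := n₁ + 2 * (T.card + (n₀ + 1)) + 1 with hN
  obtain ⟨B, k, hBc, hBk⟩ := hB N
  have hcard : T.card + (n₀ + 1) < B.card := by
    have h1 : N < 2 ^ N := Nat.lt_two_pow_self
    have h2 : 2 ^ N ≤ d ^ N := Nat.pow_le_pow_left h.two N
    omega
  have hdisj : ∀ y ∈ B, ∀ y' ∈ B, ∀ z ∈ ball x R, ∀ z' ∈ ball x R, k y z = k y' z' → y = y' := by
    intro y hy y' hy' z hz z' hz' e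
    have := Br.eqOn h.hom h.nondeg (hBk y hy).1 (hBk y' hy').1 hz hz' e hxR
    rwa [(hBk y hy).2, (hBk y' hy').2] at this
  set bad : ℂ → Prop := fun y => ∃ t ∈ T, ∃ z ∈ ball x R, wedge t ![k y z, 1] = 0 with hbad
  have hbc : (B.filter bad).card ≤ T.card := by
    refine Finset.card_le_card_of_forall_subsingleton
      (fun y t => ∃ z ∈ ball x R, wedge t ![k y z, 1] = 0)
      (fun y hy => (Finset.mem_filter.1 hy).2) fun t ht => ?_
    rintro y ⟨hy, z, hz, e⟩ y' ⟨hy', z', hz', e'⟩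
    exact hdisj y (Finset.mem_filter.1 hy).1 y' (Finset.mem_filter.1 hy').1 z hz z' hz'
      (aff_inj (hT0 t ht) e e')
  have hgc : (Finset.range (n₀ + 1)).card < (B.filter fun y => ¬ bad y).card := by
    have := Finset.card_filter_add_card_filter_not (s := B) bad
    rw [Finset.card_range]
    omega
  have hcov : ∀ y : ℂ, ∃ n ≤ n₀, y ∈ B → ∃ W, W ≠ 0 ∧ dlt W ![x, 1] < δ / 2 ∧
      wedge ((app F)^[n] W) ![y, 1] = 0 := by
    intro y
    by_cases hy : y ∈ B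
    · have : ¬ Fat G ![y, 1] := fun hf =>
        hJ (br_fat h (hBk y hy).1 hxR (by rwa [(hBk y hy).2]))
      obtain ⟨n, hn, hW⟩ := hn₀ _ (aff_ne_zero y) this
      exact ⟨n, hn, fun _ => hW⟩
    · exact ⟨0, Nat.zero_le _, fun hy' => absurd hy' hy⟩
  choose n hn hW using hcov
  obtain ⟨y, hy, y', hy', hyy, hnn⟩ := Finset.exists_ne_map_eq_of_card_lt_of_maps_to hgc
    (f := n) fun y _ => Finset.mem_range.2 (Nat.lt_succ_of_le (hn y))
  have hext : ∀ y ∈ B.filter fun y => ¬ bad y, ∃ φ, Br F (n y + N) x R φ ∧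
      Set.MapsTo φ (ball x (R / 2)) (ball x (R / 2 / 8)) ∧
      wedge ((app F)^[n y] ![φ x, 1]) ![y, 1] = 0 := by
    intro y hy
    obtain ⟨hy, hb⟩ := Finset.mem_filter.1 hy
    obtain ⟨W, hW0, hWd, hWe⟩ := hW y hy
    obtain ⟨φ, h1, h2, h3⟩ := Br.extend hd0 h.hom h.nondeg (hBk y hy).1 (n y)
      (fun Z hZ j hj z hz e => by
        obtain ⟨t, ht, e'⟩ := hT Z hZ j (lt_of_lt_of_le hj (hn y))
        have hZ0 : Z ≠ 0 := by
          rcases hZ with hZ | rfl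
          · exact hZ.1
          · exact h10
        exact hb ⟨t, ht, z, hz, wedge_trans (h.nondeg.iter_ne _ hZ0) (wedge_symm e') e⟩)
      hxR hW0 (by rwa [(hBk y hy).2])
    refine ⟨φ, h1, fun z hz => ?_, by have := h3 x hxR; rwa [(hBk y hy).2] at this⟩
    have a1 := hn₁ (n y + N) (by omega) φ h1 z hz
    have a2 : dlt ![φ x, 1] ![x, 1] = dlt W ![x, 1] :=
      (dlt_congr hW0 (aff_ne_zero _) h2 _).symm
    have a3 := dlt_triangle (X := ![φ z, 1]) (Y := ![x, 1]) (aff_ne_zero (φ x))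
    obtain ⟨w, hw, e⟩ := hδ' _ (aff_ne_zero (φ z)) (by linarith)
    rw [wedge_aff, sub_eq_zero] at e
    rwa [e]
  obtain ⟨φ, p1, p2, p3⟩ := hext y hy
  obtain ⟨ψ, q1, q2, q3⟩ := hext y' hy'
  rw [← hnn] at q1 q3
  obtain ⟨D, hD⟩ := lin_of_two h (half_pos hR) hJ (N := n y + N) (by omega)
    (br_mono p1 (by linarith)) (br_mono q1 (by linarith)) p2 q2 fun e => hyy (by
      rw [← e] at q3
      exact aff_inj (h.nondeg.iter_ne _ (aff_ne_zero _)) p3 q3)
  refine ⟨D, x, R, hR, hD.mono_right (ball_subset_ball (by linarith)), fun m => ?_⟩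
  obtain ⟨B', k', hc', hk'⟩ := hB m
  have : 0 < B'.card := by
    have := Nat.pow_pos (n := m) hd0
    omega
  obtain ⟨y, hy⟩ := Finset.card_pos.1 this
  exact ⟨k' y, (hk' y hy).1⟩

lemma Lin.continuousOn (D : Lin F G) (h : Dyn d F G) :
    ContinuousOn (fun ζ => G ![D.L ζ, 1]) (ball 0 D.r) :=
  h.continuous_aff.comp_continuousOn D.diff.continuousOn

namespace CLinAux

open Filter Topology

lemma pow_mul_mem (D : Lin F G) (j : ℕ) {ζ : ℂ} (hζ : ζ ∈ ball (0 : ℂ) D.r) :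
    D.μ ^ j * ζ ∈ ball (0 : ℂ) D.r := by
  rw [mem_ball_zero_iff] at hζ ⊢
  rw [norm_mul, norm_pow]
  exact (mul_le_of_le_one_left (norm_nonneg _)
    (pow_le_one₀ (norm_nonneg _) D.μ_lt.le)).trans_lt hζ

lemma eqv_pow (D : Lin F G) (h : Dyn d F G) (j : ℕ) {ζ : ℂ} (hζ : ζ ∈ ball (0 : ℂ) D.r) :
    wedge ((app F)^[j * D.N] ![D.L (D.μ ^ j * ζ), 1]) ![D.L ζ, 1] = 0 := by
  induction j with
  | zero => simp
  | succ j ih =>
    rw [add_mul, one_mul, Function.iterate_add_apply, pow_succ', mul_assoc]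
    have h1 := h.hom.wedge_iter (j * D.N) (D.eqv _ (pow_mul_mem D j hζ))
      (h.nondeg.iter_ne _ (aff_ne_zero _)) (aff_ne_zero _)
    exact wedge_trans (h.nondeg.iter_ne _ (aff_ne_zero _)) h1 ih

lemma harm_of_eqv (h : Dyn d F G) {a b : ℂ → ℂ} {z : ℂ} (ha : AnalyticAt ℂ a z)
    (hb : AnalyticAt ℂ b z) {n : ℕ}
    (e : ∀ᶠ w in 𝓝 z, wedge ((app F)^[n] ![a w, 1]) ![b w, 1] = 0) :
    HarmAt (fun w => (d : ℝ) ^ n * G ![a w, 1] - G ![b w, 1]) z := by
  have := h.harmAt_sub (s := fun w => (app F)^[n] ![a w, 1]) (t := fun w => ![b w, 1])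
    ((analyticAt_iter F n _).comp (analyticAt_aff ha)) (analyticAt_aff hb)
    (h.nondeg.iter_ne _ (aff_ne_zero _)) (aff_ne_zero _) e
  refine this.congr (Eventually.of_forall fun w => ?_)
  simp only [h.iter n (aff_ne_zero _)]

end CLinAux

open CLinAux Filter Topology in
lemma Lin.scale (D : Lin F G) (h : Dyn d F G) : ∀ ζ ∈ ball (0 : ℂ) D.r,
    HarmAt (fun ξ => (d : ℝ) ^ D.N * G ![D.L (D.μ * ξ), 1] - G ![D.L ξ, 1]) ζ := by
  intro ζ hζ
  have hm : D.μ * ζ ∈ ball (0 : ℂ) D.r := by simpa using pow_mul_mem D 1 hζ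
  refine harm_of_eqv h (a := fun ξ => D.L (D.μ * ξ))
    (AnalyticAt.comp (g := D.L) (an_of_diff D.diff hm) (analyticAt_const.mul analyticAt_id))
    (an_of_diff D.diff hζ) ?_
  filter_upwards [isOpen_ball.mem_nhds hζ] with w hw using D.eqv w hw

open CLinAux Filter Topology in
lemma Lin.not_harm (D : Lin F G) (h : Dyn d F G) : ¬ HarmAt (fun ζ => G ![D.L ζ, 1]) 0 :=
  fun hh => D.jul (fat_of_harm h (HarmAt.of_comp (u := fun w => G ![w, 1])
    (an_of_diff D.diff (mem_ball_self D.r_pos)) (D.der 0 (mem_ball_self D.r_pos)) hh))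

open CLinAux Filter Topology in
lemma Lin.sym (D : Lin F G) (h : Dyn d F G) (j : ℕ) :
    ∃ c : ℝ, 0 < c ∧ Sym (fun ζ => G ![D.L ζ, 1]) c fun ζ => D.μ ^ j * D.θ ζ := by
  obtain ⟨n, hn⟩ := D.θ_eqv
  have hd : (0 : ℝ) < (d : ℝ) ^ (n + j * D.N) := by
    have := h.two
    have : (0 : ℝ) < d := by exact_mod_cast (by omega)
    positivity
  have ha : AnalyticAt ℂ (fun ζ => D.μ ^ j * D.θ ζ) 0 := analyticAt_const.mul D.θ_an
  refine ⟨((d : ℝ) ^ (n + j * D.N))⁻¹, inv_pos.2 hd, ha, ?_, ?_⟩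
  · rw [deriv_const_mul _ D.θ_an.differentiableAt]
    exact mul_ne_zero (pow_ne_zero _ D.μ_ne) D.θ_der
  · have := harm_of_eqv h (a := fun ζ => D.L (D.μ ^ j * D.θ ζ)) (b := D.L) (n := n + j * D.N)
      (AnalyticAt.comp (g := D.L) (an_of_diff D.diff (pow_mul_mem D j D.θ_mem)) ha)
      (an_of_diff D.diff (mem_ball_self D.r_pos)) (by
        filter_upwards [hn, D.θ_an.continuousAt.eventually (isOpen_ball.mem_nhds D.θ_mem)]
          with ζ h1 h2
        rw [Function.iterate_add_apply]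
        exact wedge_trans (h.nondeg.iter_ne _ (aff_ne_zero _))
          (h.hom.wedge_iter n (eqv_pow D h j h2) (h.nondeg.iter_ne _ (aff_ne_zero _))
            (aff_ne_zero _)) h1)
    refine (this.const_mul ((d : ℝ) ^ (n + j * D.N))⁻¹).congr (Eventually.of_forall fun w => ?_)
    field_simp

end Pool.Agent.MP_3827f0_nt.H92
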