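import Pool.Agent.MP_3827f0_nt.H92.CJul
import Pool.Agent.MP_3827f0_nt.H92.CLift

/-! Auxiliary lemmas on curves in the plane, lifts of branches and the shrinking lemma. -/

set_option autoImplicit false

namespace Pool.Agent.MP_3827f0_nt.H92

open Metric Filter Topology

namespace CLinAux

variable {d : ℕ} {F : PM ℂ} {G : V ℂ → ℝ}

lemma an_of_diff {E : Type} [NormedAddCommGroup E] [NormedSpace ℂ E] [CompleteSpace E]
    {f : ℂ → E} {x z : ℂ} {R : ℝ} (hf : DifferentiableOn ℂ f (ball x R)) (hz : z ∈ ball x R) :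
    AnalyticAt ℂ f z := hf.analyticAt (isOpen_ball.mem_nhds hz)

lemma aff_inj {a b : ℂ} {W : V ℂ} (hW : W ≠ 0) (ha : wedge W ![a, 1] = 0)
    (hb : wedge W ![b, 1] = 0) : a = b := by
  have h1 : wedge (![a, 1] : V ℂ) W = 0 := by rw [wedge_comm, ha, neg_zero]
  have h2 := wedge_trans hW h1 hb
  rw [wedge_aff] at h2
  exact sub_eq_zero.1 h2

lemma wedge_symm {X Y : V ℂ} (h : wedge X Y = 0) : wedge Y X = 0 := by
  rw [wedge_comm, h, neg_zero]

lemma hasDerivAt_aff {f : ℂ → ℂ} {f' z : ℂ} (hf : HasDerivAt f f' z) :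
    HasDerivAt (fun w => (![f w, 1] : V ℂ)) ![f', 0] z := by
  rw [hasDerivAt_pi]
  intro i
  fin_cases i
  · simpa using hf
  · simpa using hasDerivAt_const z (1 : ℂ)

lemma fat_eventually {Z : V ℂ} (h : Fat G Z) : ∀ᶠ W in 𝓝 Z, Fat G W := by
  obtain ⟨f, hf, e⟩ := h
  filter_upwards [hf.eventually_analyticAt, e.eventually_nhds] with W h1 h2
  exact ⟨f, h1, h2⟩

lemma continuous_aff : Continuous fun z : ℂ => (![z, 1] : V ℂ) := by
  refine continuous_pi fun i => ?_
  fin_cases i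
  · simpa using continuous_id'
  · simpa using continuous_const

lemma isClosed_jul : IsClosed {z : ℂ | ¬ Fat G ![z, 1]} := by
  rw [← isOpen_compl_iff, isOpen_iff_mem_nhds]
  intro z hz
  have hz' : Fat G ![z, 1] := by simpa using hz
  have := continuous_aff.continuousAt.eventually (fat_eventually hz')
  filter_upwards [this] with w hw
  simpa using hw

lemma fat_of_harm (h : Dyn d F G) {z : ℂ} (hh : HarmAt (fun w => G ![w, 1]) z) :
    Fat G ![z, 1] := by
  have ha : AnalyticAt ℂ (fun w : ℂ => (![w, 1] : V ℂ)) z := analyticAt_aff analyticAt_id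
  refine h.fat_of_harmAt ha ?_ hh
  rw [(hasDerivAt_aff (hasDerivAt_id' z)).deriv]
  simp [wedge]

/-- A curve with vanishing Wronskian is locally a constant point. -/
lemma proj_const_near {g : ℂ → V ℂ} {p : ℂ} (hg : AnalyticAt ℂ g p) (h0 : g p ≠ 0)
    (hw : ∀ᶠ z in 𝓝 p, wedge (g z) (deriv g z) = 0) :
    ∀ᶠ z in 𝓝 p, wedge (g z) (g p) = 0 := by
  obtain ⟨W, hW⟩ := exists_wedge_one h0
  have ha : AnalyticAt ℂ (fun z => wedge (g z) (g p)) p := analyticAt_wedge hg analyticAt_const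
  have hb : AnalyticAt ℂ (fun z => wedge (g z) W) p := analyticAt_wedge hg analyticAt_const
  have hb0 : ∀ᶠ z in 𝓝 p, wedge (g z) W ≠ 0 :=
    hb.continuousAt.eventually_ne (by rw [hW]; exact one_ne_zero)
  have key : ∀ᶠ z in 𝓝 p, HasDerivAt (fun z => wedge (g z) (g p) / wedge (g z) W) 0 z := by
    filter_upwards [hw, hb0, hg.eventually_analyticAt, ha.eventually_analyticAt,
      hb.eventually_analyticAt] with z h1 h2 h3 h4 h5
    have e := h4.differentiableAt.hasDerivAt.div h5.differentiableAt.hasDerivAt h2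
    rw [deriv_wedge_const h3.differentiableAt, deriv_wedge_const h3.differentiableAt] at e
    refine e.congr_deriv ?_
    rw [div_eq_zero_iff]
    left
    simp only [wedge] at h1 ⊢
    linear_combination -(g p 0 * W 1 - g p 1 * W 0) * h1
  obtain ⟨ε, hε, hb⟩ := Metric.eventually_nhds_iff_ball.1 (key.and hb0)
  filter_upwards [ball_mem_nhds p hε] with z hz
  have := (convex_ball p ε).norm_image_sub_le_of_norm_deriv_le (C := 0)
    (f := fun z => wedge (g z) (g p) / wedge (g z) W)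
    (fun y hy => (hb y hy).1.differentiableAt) (fun y hy => by rw [(hb y hy).1.deriv]; simp)
    (mem_ball_self hε) hz
  simp only [wedge_self, zero_div, sub_zero, zero_mul, norm_le_zero_iff, div_eq_zero_iff] at this
  exact this.resolve_right (hb z hz).2

lemma proj_const {g : ℂ → V ℂ} {x : ℂ} {R : ℝ} (hR : 0 < R) (hg : DifferentiableOn ℂ g (ball x R))
    (h0 : g x ≠ 0) (hw : ∀ z ∈ ball x R, wedge (g z) (deriv g z) = 0) :
    ∀ z ∈ ball x R, wedge (g z) (g x) = 0 := by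
  have h1 := proj_const_near (an_of_diff hg (mem_ball_self hR)) h0
    (by filter_upwards [ball_mem_nhds x hR] with z hz using hw z hz)
  have ha : AnalyticOnNhd ℂ (fun z => wedge (g z) (g x)) (ball x R) :=
    fun z hz => analyticAt_wedge (an_of_diff hg hz) analyticAt_const
  intro z hz
  exact ha.eqOn_zero_of_preconnected_of_eventuallyEq_zero (convex_ball x R).isPreconnected
    (mem_ball_self hR) h1 hz

lemma br_inj (h : Dyn d F G) {n : ℕ} {x : ℂ} {R : ℝ} {k : ℂ → ℂ} (hk : Br F n x R k) :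
    Set.InjOn k (ball x R) := by
  intro z hz w hw e
  have h1 := hk.2 z hz
  have h2 := hk.2 w hw
  rw [← e] at h2
  exact aff_inj (h.nondeg.iter_ne n (aff_ne_zero _)) h1 h2

lemma br_mono {n : ℕ} {x : ℂ} {R R' : ℝ} {k : ℂ → ℂ} (hk : Br F n x R k) (hR : R' ≤ R) :
    Br F n x R' k :=
  ⟨hk.1.mono (ball_subset_ball hR), fun z hz => hk.2 z (ball_subset_ball hR hz)⟩

lemma br_comp (h : Dyn d F G) {n m : ℕ} {x : ℂ} {R : ℝ} {k k' : ℂ → ℂ} (hk : Br F n x R k)
    (hk' : Br F m x R k') (hm : Set.MapsTo k' (ball x R) (ball x R)) :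
    Br F (m + n) x R (fun z => k (k' z)) := by
  refine ⟨hk.1.comp hk'.1 hm, fun z hz => ?_⟩
  rw [Function.iterate_add_apply]
  have h1 := h.hom.wedge_iter m (hk.2 _ (hm hz)) (h.nondeg.iter_ne n (aff_ne_zero _))
    (aff_ne_zero _)
  exact wedge_trans (h.nondeg.iter_ne m (aff_ne_zero _)) h1 (hk'.2 z hz)

lemma br_fat (h : Dyn d F G) {n : ℕ} {x : ℂ} {R : ℝ} {k : ℂ → ℂ} (hk : Br F n x R k) {z : ℂ}
    (hz : z ∈ ball x R) (hf : Fat G ![k z, 1]) : Fat G ![z, 1] :=
  h.fat_wedge (h.nondeg.iter_ne n (aff_ne_zero _)) (aff_ne_zero _) (hk.2 z hz)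
    ((h.fat_iter_iff n (aff_ne_zero _)).2 hf)

/-- A branch lifts to an exact inverse branch on vectors. -/
lemma br_lift (h : Dyn d F G) {n : ℕ} {x : ℂ} {R : ℝ} {k : ℂ → ℂ} (hk : Br F n x R k) :
    ∃ E : ℂ → V ℂ, DifferentiableOn ℂ E (ball x R) ∧ ∀ z ∈ ball x R,
      (app F)^[n] (E z) = ![z, 1] ∧ E z ≠ 0 ∧ wedge (E z) ![k z, 1] = 0 := by
  have hs : ∀ z ∈ ball x R, AnalyticAt ℂ (fun w => (app F)^[n] ![k w, 1]) z := fun z hz =>
    (analyticAt_iter F n _).comp (analyticAt_aff (an_of_diff hk.1 hz))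
  have hl : DifferentiableOn ℂ (fun w => (app F)^[n] ![k w, 1] 1) (ball x R) := fun z hz =>
    ((differentiableAt_pi.1 (hs z hz).differentiableAt) 1).differentiableWithinAt
  have he : ∀ z ∈ ball x R, (app F)^[n] ![k z, 1] 1 ≠ 0 ∧
      (app F)^[n] ![k z, 1] = (app F)^[n] ![k z, 1] 1 • ![z, 1] := by
    intro z hz
    obtain ⟨t, ht, e⟩ := exists_smul_of_wedge (h.nondeg.iter_ne n (aff_ne_zero (k z)))
      (aff_ne_zero z) (hk.2 z hz)
    have : (app F)^[n] ![k z, 1] 1 = t := by rw [e]; simp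
    rw [this]
    exact ⟨ht, e⟩
  obtain ⟨ψ, hψ, eψ⟩ := exists_log_ball hl fun z hz => (he z hz).1
  have hd : ((d : ℂ) ^ n) ≠ 0 := pow_ne_zero _ (by have := h.two; exact_mod_cast (by omega))
  refine ⟨fun z => Complex.exp (-ψ z / (d : ℂ) ^ n) • ![k z, 1], ?_, fun z hz => ⟨?_, ?_, ?_⟩⟩
  · refine DifferentiableOn.smul ((hψ.neg.div_const _).cexp) fun z hz => ?_
    exact (analyticAt_aff (an_of_diff hk.1 hz)).differentiableAt.differentiableWithinAt
  · rw [h.hom.iter_smul, (he z hz).2, ← eψ z hz, ← Complex.exp_nat_mul, smul_smul,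
      ← Complex.exp_add]
    have : ((d ^ n : ℕ) : ℂ) * (-ψ z / (d : ℂ) ^ n) + ψ z = 0 := by
      push_cast; field_simp; ring
    rw [this, Complex.exp_zero, one_smul]
  · exact smul_ne_zero (Complex.exp_ne_zero _) (aff_ne_zero _)
  · rw [wedge_smul_left, wedge_self, mul_zero]

/-- Vectors with bounded escape rate have norms bounded above and below. -/
lemma norm_bounds (h : Dyn d F G) (M : ℝ) : ∃ b B : ℝ, 0 < b ∧ ∀ Z : V ℂ, Z ≠ 0 → |G Z| ≤ M →
    b ≤ ‖Z‖ ∧ ‖Z‖ ≤ B := by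
  obtain ⟨C, hC⟩ := h.esc.1
  refine ⟨Real.exp (-(M + C)), Real.exp (M + C), Real.exp_pos _, fun Z hZ hM => ?_⟩
  have h1 := abs_le.1 (hC Z hZ)
  have h2 := abs_le.1 hM
  have hp : 0 < ‖Z‖ := norm_pos_iff.2 hZ
  constructor
  · rw [← Real.exp_log hp]; exact Real.exp_le_exp.2 (by linarith)
  · rw [← Real.exp_log hp]; exact Real.exp_le_exp.2 (by linarith)

lemma bdd_aff (h : Dyn d F G) (x : ℂ) (R : ℝ) : ∃ M : ℝ, 0 ≤ M ∧ ∀ z ∈ ball x R,
    |G ![z, 1]| ≤ M := by
  obtain ⟨M, hM⟩ := (isCompact_closedBall x R).exists_bound_of_continuousOn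
    h.continuous_aff.continuousOn
  exact ⟨max M 0, le_max_right _ _, fun z hz =>
    (hM z (ball_subset_closedBall hz)).trans (le_max_left _ _)⟩

/-- Limits of curves with bounded escape rate. -/
lemma exists_limit (h : Dyn d F G) (U : Ultrafilter ℕ) {x : ℂ} {R M : ℝ} {E : ℕ → ℂ → V ℂ}
    (hE : ∀ n, DifferentiableOn ℂ (E n) (ball x R))
    (h0 : ∀ n, ∀ z ∈ ball x R, E n z ≠ 0 ∧ |G (E n z)| ≤ M) :
    ∃ g : ℂ → V ℂ, DifferentiableOn ℂ g (ball x R) ∧
      (∀ s < R, TendstoUniformlyOn E g U (ball x s)) ∧ ∀ z ∈ ball x R, g z ≠ 0 ∧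
        Tendsto (fun n => E n z) U (𝓝 (g z)) ∧ Tendsto (fun n => G (E n z)) U (𝓝 (G (g z))) := by
  obtain ⟨b, B, hb, hB⟩ := norm_bounds h M
  obtain ⟨g, hg, -, hu⟩ := exists_ulim U (f := E) (B := B) (c := x) (r := R)
    (Eventually.of_forall fun n => ⟨hE n, fun z hz => (hB _ (h0 n z hz).1 (h0 n z hz).2).2⟩)
  refine ⟨g, hg, hu, fun z hz => ?_⟩
  obtain ⟨s, hs1, hs2⟩ := exists_between (mem_ball.1 hz)
  have ht : Tendsto (fun n => E n z) U (𝓝 (g z)) := (hu s hs2).tendsto_at (mem_ball.2 hs1)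
  have hz0 : g z ≠ 0 := by
    have : b ≤ ‖g z‖ := ge_of_tendsto ht.norm
      (Eventually.of_forall fun n => (hB _ (h0 n z hz).1 (h0 n z hz).2).1)
    exact norm_pos_iff.1 (hb.trans_le this)
  exact ⟨hz0, ht, (h.continuousAt hz0).tendsto.comp ht⟩

theorem shrink (h : Dyn d F G) {x : ℂ} {R : ℝ} (hR : 0 < R) (hJ : ¬ Fat G ![x, 1]) {s ε : ℝ}
    (hs : s < R) (hε : 0 < ε) : ∃ n₀ : ℕ, ∀ n, n₀ ≤ n → ∀ k, Br F n x R k →
      ∀ z ∈ ball x s, dlt ![k z, 1] ![k x, 1] < ε := by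
  by_contra hc
  push Not at hc
  choose n hn k hk z hz hlt using hc
  choose E hE hE' using fun j => br_lift h (hk j)
  obtain ⟨M, hM0, hM⟩ := bdd_aff h x R
  have hd1 : (1 : ℝ) < d := by have := h.two; exact_mod_cast (by omega)
  have hGE : ∀ j, ∀ w ∈ ball x R, G (E j w) = G ![w, 1] / (d : ℝ) ^ n j := by
    intro j w hw
    have := h.iter (n j) (hE' j w hw).2.1
    rw [(hE' j w hw).1] at this
    rw [this]; field_simp
  obtain ⟨g, hg, hu, hg'⟩ := exists_limit h (hyperfilter ℕ) (M := M) hE fun j w hw =>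
    ⟨(hE' j w hw).2.1, by
      rw [hGE j w hw, abs_div, abs_of_pos (by positivity : (0 : ℝ) < (d : ℝ) ^ n j)]
      exact (div_le_self (abs_nonneg _) (one_le_pow₀ hd1.le)).trans (hM w hw)⟩
  have hnt : Tendsto n (hyperfilter ℕ) atTop :=
    tendsto_atTop_mono hn (Nat.hyperfilter_le_atTop)
  have hG0 : ∀ w ∈ ball x R, G (g w) = 0 := by
    intro w hw
    have h1 := (hg' w hw).2.2
    have h2 : Tendsto (fun j => G (E j w)) (hyperfilter ℕ) (𝓝 0) := by
      simp only [hGE _ w hw]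
      exact ((tendsto_pow_atTop_atTop_of_one_lt hd1).comp hnt).const_div_atTop _
    exact tendsto_nhds_unique h1 h2
  have hW : ∀ w ∈ ball x R, wedge (g w) (deriv g w) = 0 := by
    refine h.eq_zero_of_jul hR hJ (fun w hw => ?_) fun w hw hJw => ?_
    · exact (analyticAt_wedge (an_of_diff hg hw)
        (an_of_diff hg hw).deriv).differentiableAt.differentiableWithinAt
    · by_contra hne
      have hf : Fat G (g w) := by
        refine h.fat_of_harmAt (an_of_diff hg hw) hne ((harmAt_const 0 w).congr ?_)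
        filter_upwards [isOpen_ball.mem_nhds hw] with y hy using hG0 y hy
      obtain ⟨j, hj⟩ := ((hg' w hw).2.1.eventually (fat_eventually hf)).exists
      have := (h.fat_iter_iff (n j) (hE' j w hw).2.1).2 hj
      rw [(hE' j w hw).1] at this
      exact hJw this
  have hP := proj_const hR hg (hg' x (mem_ball_self hR)).1 hW
  obtain ⟨y, hy, hzy⟩ := (isCompact_closedBall x s).ultrafilter_le_nhds
    (Ultrafilter.map z (hyperfilter ℕ)) (by
      rw [Ultrafilter.coe_map, le_principal_iff, mem_map]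
      exact Eventually.of_forall fun j => ball_subset_closedBall (hz j))
  obtain ⟨s', hs1, hs2⟩ := exists_between hs
  have hy' : y ∈ ball x s' := closedBall_subset_ball hs1 hy
  have hyR : y ∈ ball x R := ball_subset_ball hs2.le hy'
  have hzt : Tendsto z (hyperfilter ℕ) (𝓝[ball x s'] y) :=
    tendsto_nhdsWithin_iff.2 ⟨hzy, Eventually.of_forall fun j => ball_subset_ball hs1.le (hz j)⟩
  have h1 : Tendsto (fun j => E j (z j)) (hyperfilter ℕ) (𝓝 (g y)) :=
    (hu s' hs2).tendsto_comp (an_of_diff hg hyR).continuousAt.continuousWithinAt hzt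
  have h2 := (continuousAt_dlt (hg' y hyR).1 (hg' x (mem_ball_self hR)).1).tendsto.comp
    (h1.prodMk_nhds (hg' x (mem_ball_self hR)).2.1)
  rw [(dlt_eq_zero_iff (hg' y hyR).1 (hg' x (mem_ball_self hR)).1).2 (hP y hyR)] at h2
  obtain ⟨j, hj⟩ := (h2.eventually (gt_mem_nhds hε)).exists
  have hzj : z j ∈ ball x R := ball_subset_ball hs.le (hz j)
  have e : dlt (E j (z j)) (E j x) = dlt ![k j (z j), 1] ![k j x, 1] := by
    rw [dlt_congr (hE' j _ hzj).2.1 (aff_ne_zero _) (hE' j _ hzj).2.2, dlt_comm,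
      dlt_congr (hE' j _ (mem_ball_self hR)).2.1 (aff_ne_zero _) (hE' j _ (mem_ball_self hR)).2.2,
      dlt_comm]
  simp only [Function.comp] at hj
  rw [e] at hj
  exact absurd hj (not_lt.2 (hlt j))

end CLinAux

end Pool.Agent.MP_3827f0_nt.H92
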