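import Pool.Agent.MP_3827f0_nt.H92.Mult

/-! Normalized representatives of points and a counting lemma for preimages. -/

set_option autoImplicit false

namespace Pool.Agent.MP_3827f0_nt.H92

namespace COrbAux

open Classical

variable {K : Type} [Field K] {X Y : V K} {d : ℕ} {F : PM K}

/-- The normalized vector on the line through Z. -/
noncomputable def nr (Z : V K) : V K := if Z 1 = 0 then ![1, 0] else ![Z 0 / Z 1, 1]

lemma nr_ne (Z : V K) : nr Z ≠ 0 := by
  unfold nr
  split_ifs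
  · intro h
    simpa using congrFun h 0
  · exact aff_ne_zero _

lemma wedge_nr (Z : V K) : wedge (nr Z) Z = 0 := by
  unfold nr wedge
  split_ifs with h
  · simp [h]
  · simp only [Matrix.cons_val_zero, Matrix.cons_val_one]
    field_simp
    ring

lemma wedge_symm (h : wedge X Y = 0) : wedge Y X = 0 := by rw [wedge_comm, h, neg_zero]

lemma nr_eq (hX : X ≠ 0) (hY : Y ≠ 0) (h : wedge X Y = 0) : nr X = nr Y := by
  obtain ⟨t, ht, rfl⟩ := exists_smul_of_wedge hX hY h
  unfold nr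
  simp only [Pi.smul_apply, smul_eq_mul, mul_eq_zero, ht, false_or, mul_div_mul_left _ _ ht]

lemma nr_nr (hX : X ≠ 0) : nr (nr X) = nr X := nr_eq (nr_ne X) hX (wedge_nr X)

lemma wedge_of_nr (h : nr X = nr Y) : wedge X Y = 0 :=
  wedge_trans (nr_ne X) (wedge_symm (wedge_nr X)) (h ▸ wedge_nr Y)

lemma wedge_congr (hX : X ≠ 0) (hY : Y ≠ 0) (h : wedge X Y = 0) (e : V K) :
    wedge X e = 0 ↔ wedge Y e = 0 :=
  ⟨fun h' => wedge_trans hX (wedge_symm h) h', fun h' => wedge_trans hY h h'⟩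

lemma ram_pos {e : ℕ} (h : Ram F X e) : 0 < e := (Mult.eq_zero_iff h).1 (wedge_self _)

/-- If all preimages of the points of T are regular and lie in S then S is large. -/
lemma card_le [IsAlgClosed K] [CharZero K] (hd : 0 < d) (hF : Hom d F) (hN : Nondeg F)
    (S T : Finset (V K)) (hT : ∀ Y ∈ T, nr Y = Y)
    (h : ∀ Y ∈ T, ∀ Z, Z ≠ 0 → wedge (app F Z) Y = 0 → jac F Z ≠ 0 ∧ nr Z ∈ S) :
    d * T.card ≤ S.card := by
  refine le_trans ?_ (Finset.card_filter_le S fun a => nr (app F a) ∈ T)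
  refine Finset.mul_card_image_le_card_of_maps_to (f := fun a => nr (app F a))
    (fun a ha => (Finset.mem_filter.1 ha).2) d fun Y hY => ?_
  have hY0 : Y ≠ 0 := hT Y hY ▸ nr_ne Y
  obtain ⟨Ys, lam, hf, h1, h2⟩ := exists_fact hd hF hN hY0
  have hw : ∀ j, wedge (app F (Ys j)) Y = 0 := fun j => by
    rw [hf.2 j, wedge_smul_left, wedge_self, mul_zero]
  have sep := Fact.sep hd hF hN hY0 hf fun j => (h Y hY _ (h1 j) (hw j)).1
  have e : ∀ j, nr (app F (nr (Ys j))) = Y := fun j => by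
    rw [← hT Y hY]
    exact nr_eq (hN.app_ne (nr_ne _)) hY0 (wedge_trans (hN.app_ne (h1 j))
      (hF.wedge_app (wedge_nr _) (nr_ne _) (h1 j)) (hw j))
  conv_lhs => rw [← Fintype.card_fin d, ← Finset.card_univ]
  refine Finset.card_le_card_of_injOn (fun j => nr (Ys j)) (fun j _ => ?_) fun i _ j _ hij => ?_
  · simp only [Finset.coe_filter, Finset.mem_filter, Set.mem_ofPred_eq]
    exact ⟨⟨(h Y hY _ (h1 j) (hw j)).2, by rw [e j]; exact hY⟩, e j⟩
  · by_contra hne
    exact sep i j hne (wedge_of_nr hij)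

end COrbAux

end Pool.Agent.MP_3827f0_nt.H92
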