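import Pool.Agent.MP_3827f0_nt.H92.CJul
import Pool.Agent.MP_3827f0_nt.H92.COrbAux

/-! From the orbifold function to the exceptional conditions. -/

set_option autoImplicit false

namespace Pool.Agent.MP_3827f0_nt.H92

namespace COrbAux

open Classical Filter Topology

variable {d : ℕ} {F F' H : PM ℂ} {G : V ℂ → ℝ} {E : Finset (V ℂ)} {ν : V ℂ → ℕ}

lemma fin_sig (hν : ∀ X Y, X ≠ 0 → Y ≠ 0 → wedge X Y = 0 → ν X = ν Y)
    (hloc : ∀ Y, Y ≠ 0 → (∀ e ∈ E, wedge Y e ≠ 0) → 0 < ν Y ∧ ∃ δ : ℝ, 0 < δ ∧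
      ∀ W, W ≠ 0 → dlt W Y < δ → wedge W Y ≠ 0 → ν W = 1) {η : ℝ} (hη : 0 < η) :
    {Y : V ℂ | nr Y = Y ∧ ν Y ≠ 1 ∧ ∀ e ∈ E, η * ‖Y‖ ≤ ‖wedge Y e‖}.Finite := by
  set Kc := {W : V ℂ | ‖W‖ = 1 ∧ ∀ e ∈ E, η ≤ ‖wedge W e‖} with hKc
  have hK : IsCompact Kc := by
    refine (isCompact_sphere (0 : V ℂ) 1).of_isClosed_subset ?_ fun W hW => by simpa using hW.1
    have : Kc = {W : V ℂ | ‖W‖ = 1} ∩ ⋂ e ∈ E, {W : V ℂ | η ≤ ‖wedge W e‖} := by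
      ext W
      simp [hKc]
    rw [this]
    refine (isClosed_eq continuous_norm continuous_const).inter
      (isClosed_biInter fun e _ => isClosed_le continuous_const ?_)
    unfold wedge
    fun_prop
  have h0 : ∀ W ∈ Kc, W ≠ 0 := fun W hW e => by
    have := hW.1
    rw [e, norm_zero] at this
    exact zero_ne_one this
  have hU : ∀ Y ∈ Kc, ∃ U ∈ 𝓝 Y, ∀ W ∈ U, W ≠ 0 → ν W ≠ 1 → wedge W Y = 0 := by
    intro Y hY
    obtain ⟨-, δ, hδ, h⟩ := hloc Y (h0 Y hY) fun e he e0 => by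
      have := hY.2 e he
      rw [e0, norm_zero] at this
      exact absurd hη (not_lt.2 this)
    have hc : ContinuousAt (fun W => dlt W Y) Y :=
      ContinuousAt.comp (f := fun W : V ℂ => (W, Y)) (g := fun p : V ℂ × V ℂ => dlt p.1 p.2)
        (continuousAt_dlt (h0 Y hY) (h0 Y hY)) (continuousAt_id.prodMk continuousAt_const)
    refine ⟨{W | dlt W Y < δ}, hc.eventually_lt continuousAt_const ?_, fun W hW hW0 h1 => ?_⟩
    · rw [(dlt_eq_zero_iff (h0 Y hY) (h0 Y hY)).2 (wedge_self Y)]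
      exact hδ
    · by_contra hne
      exact h1 (h W hW0 hW hne)
  choose! U hU1 hU2 using hU
  obtain ⟨t, ht, hc⟩ := hK.elim_nhds_subcover U hU1
  refine (t.finite_toSet.image nr).subset ?_
  rintro Y ⟨h1, h2, h3⟩
  have hY0 : Y ≠ 0 := h1 ▸ nr_ne Y
  have hn : 0 < ‖Y‖ := norm_pos_iff.2 hY0
  have hn' : ((‖Y‖ : ℂ))⁻¹ ≠ 0 := inv_ne_zero (by exact_mod_cast hn.ne')
  set W : V ℂ := ((‖Y‖ : ℂ))⁻¹ • Y with hW
  have hWK : W ∈ Kc := by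
    refine ⟨by rw [hW, norm_smul, norm_inv, Complex.norm_real, norm_norm, inv_mul_cancel₀ hn.ne'],
      fun e he => ?_⟩
    rw [hW, wedge_smul_left, norm_mul, norm_inv, Complex.norm_real, norm_norm, ← div_eq_inv_mul,
      le_div_iff₀ hn]
    exact h3 e he
  have hWY : wedge W Y = 0 := by rw [hW, wedge_smul_left, wedge_self, mul_zero]
  obtain ⟨s, hs, hWs⟩ := Set.mem_iUnion₂.1 (hc hWK)
  have := hU2 s (ht s hs) W hWs (h0 W hWK) (by rwa [hν W Y (h0 W hWK) hY0 hWY])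
  refine ⟨s, hs, ?_⟩
  rw [← h1]
  exact (nr_eq hY0 (h0 s (ht s hs)) (wedge_trans (h0 W hWK) (wedge_symm hWY) this)).symm

/-- The orbifold weights of level k. -/
noncomputable def wgt (E : Finset (V ℂ)) (ν : V ℂ → ℕ) (k : ℕ) (X : V ℂ) : ℕ :=
  if ∃ e ∈ E, wedge X e = 0 then k else k - k / ν X

lemma wgt_on {k : ℕ} {X e : V ℂ} (he : e ∈ E) (h : wedge X e = 0) : wgt E ν k X = k :=
  if_pos ⟨e, he, h⟩

lemma wgt_off {k : ℕ} {X : V ℂ} (h : ∀ e ∈ E, wedge X e ≠ 0) : wgt E ν k X = k - k / ν X :=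
  if_neg fun ⟨e, he, h'⟩ => h e he h'

/-- The hypotheses for one map. -/
structure Dat (d : ℕ) (H : PM ℂ) (E : Finset (V ℂ)) (ν : V ℂ → ℕ) : Prop where
  two : 2 ≤ d
  hom : Hom d H
  nd : Nondeg H
  ne : ∀ e ∈ E, e ≠ 0
  sep : ∀ s ∈ E, ∀ t ∈ E, s ≠ t → wedge s t ≠ 0
  inv : ∀ X Y, X ≠ 0 → Y ≠ 0 → wedge X Y = 0 → ν X = ν Y
  off : ∀ Y, Y ≠ 0 → (∀ e ∈ E, wedge Y e ≠ 0) → ∀ e ∈ E, wedge (app H Y) e ≠ 0
  rel : ∀ Y, Y ≠ 0 → (∀ e ∈ E, wedge Y e ≠ 0) → ∀ m, Ram H Y m → ν (app H Y) = m * ν Y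
  pos : ∀ Y, Y ≠ 0 → (∀ e ∈ E, wedge Y e ≠ 0) → 0 < ν Y

lemma Dat.back (D : Dat d H E ν) : (∀ e ∈ E, ∃ e' ∈ E, wedge (app H e) e' = 0) ∧ ∃ c : ℂ, c ≠ 0 ∧
    ∀ Z, ∏ e ∈ E, wedge (app H Z) e = c * (∏ e ∈ E, wedge Z e) ^ d := by
  refine prod_of_backward (by have := D.two; omega) D.hom D.nd E D.ne D.sep fun Z hZ e he h => ?_
  by_contra hc
  push Not at hc
  exact D.off Z hZ hc e he h

lemma Dat.wgt_congr (D : Dat d H E ν) (k : ℕ) (X Y : V ℂ) (hX : X ≠ 0) (hY : Y ≠ 0)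
    (h : wedge X Y = 0) : wgt E ν k X = wgt E ν k Y := by
  simp only [wgt, wedge_congr hX hY h, D.inv X Y hX hY h]

lemma Dat.wgt_rel (D : Dat d H E ν) {k : ℕ}
    (hk : ∀ Y, Y ≠ 0 → (∀ e ∈ E, wedge Y e ≠ 0) → ν Y ∣ k) (X : V ℂ) (hX : X ≠ 0) (m : ℕ)
    (hm : Ram H X m) : m * wgt E ν k (app H X) = k * (m - 1) + wgt E ν k X := by
  have m0 := ram_pos hm
  by_cases h : ∃ e ∈ E, wedge X e = 0
  · obtain ⟨e, he, h⟩ := h
    obtain ⟨e', he', h'⟩ := D.back.1 e he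
    rw [wgt_on he h, wgt_on he' (wedge_trans (D.nd.app_ne (D.ne e he))
      (D.hom.wedge_app h hX (D.ne e he)) h')]
    obtain ⟨m, rfl⟩ : ∃ n, m = n + 1 := ⟨m - 1, by omega⟩
    rw [Nat.add_sub_cancel]
    ring
  · push Not at h
    have h' := D.off X hX h
    obtain ⟨q, hq⟩ := hk _ (D.nd.app_ne hX) h'
    have p := D.pos X hX h
    rw [wgt_off h, wgt_off h', D.rel X hX h m hm]
    rw [D.rel X hX h m hm] at hq
    have e1 : k / (m * ν X) = q := by rw [hq, Nat.mul_div_cancel_left _ (Nat.mul_pos m0 p)]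
    have e2 : k / ν X = m * q := by
      rw [hq, show m * ν X * q = ν X * (m * q) by ring, Nat.mul_div_cancel_left _ p]
    have l2 : m * q ≤ k := e2 ▸ Nat.div_le_self _ _
    have l1 : q ≤ k := e1 ▸ Nat.div_le_self _ _
    rw [e1, e2]
    zify [l1, l2, Nat.succ_le_of_lt m0]
    ring

variable {Sg : Finset (V ℂ)}
  (hSg : ∀ Y, Y ∈ Sg ↔ nr Y = Y ∧ ν Y ≠ 1 ∧ ∀ e ∈ E, wedge Y e ≠ 0)
include hSg

lemma sg_ne {s : V ℂ} (hs : s ∈ Sg) : s ≠ 0 := ((hSg s).1 hs).1 ▸ nr_ne s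

lemma Dat.nr_mem (D : Dat d H E ν) {X : V ℂ} (hX : X ≠ 0) (h : ∀ e ∈ E, wedge X e ≠ 0)
    (h1 : ν X ≠ 1) : nr X ∈ Sg ∧ ν (nr X) = ν X := by
  have e := D.inv _ _ (nr_ne X) hX (wedge_nr X)
  refine ⟨(hSg _).2 ⟨nr_nr hX, by rwa [e], fun e he => ?_⟩, e⟩
  rw [Ne, wedge_congr (nr_ne X) hX (wedge_nr X)]
  exact h e he

lemma Dat.ne_union (D : Dat d H E ν) : ∀ s ∈ E ∪ Sg, s ≠ 0 := fun s hs =>
  (Finset.mem_union.1 hs).elim (D.ne s) (sg_ne hSg)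

lemma Dat.sep_union (D : Dat d H E ν) : ∀ s ∈ E ∪ Sg, ∀ t ∈ E ∪ Sg, s ≠ t → wedge s t ≠ 0 := by
  intro s hs t ht hne
  rcases Finset.mem_union.1 hs with hs | hs <;> rcases Finset.mem_union.1 ht with ht | ht
  · exact D.sep s hs t ht hne
  · exact fun h => ((hSg t).1 ht).2.2 s hs (wedge_symm h)
  · exact ((hSg s).1 hs).2.2 t ht
  · intro h
    exact hne (by rw [← ((hSg s).1 hs).1, ← ((hSg t).1 ht).1,
      nr_eq (sg_ne hSg hs) (sg_ne hSg ht) h])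

lemma Dat.wgt_zero (D : Dat d H E ν) (k : ℕ) (X : V ℂ) (hX : X ≠ 0)
    (h : ∀ s ∈ E ∪ Sg, wedge X s ≠ 0) : wgt E ν k X = 0 := by
  have h' : ∀ e ∈ E, wedge X e ≠ 0 := fun e he => h e (Finset.mem_union_left _ he)
  have h1 : ν X = 1 := by
    by_contra h1
    exact h _ (Finset.mem_union_right _ (D.nr_mem hSg hX h' h1).1) (wedge_symm (wedge_nr X))
  rw [wgt_off h', h1, Nat.div_one, Nat.sub_self]

lemma Dat.prod_pos (D : Dat d H E ν) : 0 < ∏ s ∈ Sg, ν s :=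
  Finset.prod_pos fun s hs => D.pos s (sg_ne hSg hs) ((hSg s).1 hs).2.2

lemma Dat.dvd_prod (D : Dat d H E ν) (Y : V ℂ) (hY : Y ≠ 0) (h : ∀ e ∈ E, wedge Y e ≠ 0) :
    ν Y ∣ ∏ s ∈ Sg, ν s := by
  by_cases h1 : ν Y = 1
  · rw [h1]; exact one_dvd _
  · obtain ⟨a, b⟩ := D.nr_mem hSg hY h h1
    rw [← b]
    exact Finset.dvd_prod_of_mem ν a

lemma Dat.weights (D : Dat d H E ν) {k : ℕ}
    (hk : ∀ Y, Y ≠ 0 → (∀ e ∈ E, wedge Y e ≠ 0) → ν Y ∣ k) :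
    ∑ s ∈ E ∪ Sg, wgt E ν k s = 2 * k ∧ ∃ c : ℂ, c ≠ 0 ∧ ∀ Z,
      ∏ s ∈ E ∪ Sg, wedge (app H Z) s ^ wgt E ν k s =
      c * jac H Z ^ k * ∏ s ∈ E ∪ Sg, wedge Z s ^ wgt E ν k s :=
  eq_of_weights D.two D.hom D.nd k _ (D.ne_union hSg) (D.sep_union hSg) _ (D.wgt_congr k)
    (D.wgt_zero hSg k) (D.wgt_rel hk)

lemma Dat.bounds (D : Dat d H E ν) {k : ℕ} (k0 : 0 < k)
    (hk : ∀ Y, Y ≠ 0 → (∀ e ∈ E, wedge Y e ≠ 0) → ν Y ∣ k) {s : V ℂ} (hs : s ∈ Sg) :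
    wgt E ν k s < k ∧ k ≤ 2 * wgt E ν k s ∧ (k = 2 * wgt E ν k s → ν s = 2) := by
  obtain ⟨-, h1, h2⟩ := (hSg s).1 hs
  have p := D.pos s (sg_ne hSg hs) h2
  obtain ⟨q, hq⟩ := hk s (sg_ne hSg hs) h2
  have e : k / ν s = q := by rw [hq, Nat.mul_div_cancel_left _ p]
  have q0 : 0 < q := Nat.pos_of_ne_zero fun h => by rw [h, mul_zero] at hq; omega
  obtain ⟨n, hn⟩ : ∃ n, ν s = n + 2 := ⟨ν s - 2, by omega⟩
  rw [wgt_off h2, e, hn]
  rw [hn, add_mul] at hq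
  refine ⟨by omega, by omega, fun h => ?_⟩
  have : n * q = 0 := by omega
  rcases Nat.mul_eq_zero.1 this with h | h <;> omega

lemma Dat.orb (D : Dat d H E ν) (hE : E = ∅) : Orb H (∏ s ∈ Sg, ν s) := by
  refine orb_of_weights D.two D.hom D.nd (D.prod_pos hSg) _ (D.ne_union hSg) (D.sep_union hSg) _
    (D.wgt_congr _) (D.wgt_zero hSg _) (D.wgt_rel (D.dvd_prod hSg)) fun s hs => ?_
  rw [hE, Finset.empty_union] at hs
  exact (D.bounds hSg (D.prod_pos hSg) (D.dvd_prod hSg) hs).1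

lemma Dat.two_pts (D : Dat d H E ν) {e : V ℂ} (hE : E = {e}) :
    ∃ A B, A ≠ B ∧ Sg = {A, B} ∧ ν A = 2 ∧ ν B = 2 := by
  have he : e ∈ E := hE ▸ Finset.mem_singleton_self e
  have hn : e ∉ Sg := fun h => ((hSg e).1 h).2.2 e he (wedge_self e)
  have k0 := D.prod_pos hSg
  have hk := D.dvd_prod hSg
  generalize ∏ s ∈ Sg, ν s = k at k0 hk
  have h1 := (D.weights hSg hk).1
  have e1 : E ∪ Sg = insert e Sg := by rw [hE, Finset.singleton_union]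
  rw [e1, Finset.sum_insert hn, wgt_on he (wedge_self e)] at h1
  have h2 : Sg.card • k ≤ ∑ s ∈ Sg, 2 * wgt E ν k s :=
    Finset.card_nsmul_le_sum _ _ _ fun s hs => (D.bounds hSg k0 hk hs).2.1
  rw [← Finset.mul_sum, smul_eq_mul] at h2
  have h3 : Sg.card ≤ 2 := by
    by_contra h3
    have : 3 * k ≤ Sg.card * k := Nat.mul_le_mul_right _ (by omega)
    omega
  have h4 : Sg.card = 0 ∨ Sg.card = 1 ∨ Sg.card = 2 := by omega
  rcases h4 with h4 | h4 | h4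
  · rw [Finset.card_eq_zero.1 h4, Finset.sum_empty] at h1
    omega
  · obtain ⟨A, hA⟩ := Finset.card_eq_one.1 h4
    have := (D.bounds hSg k0 hk (hA ▸ Finset.mem_singleton_self A)).1
    rw [hA, Finset.sum_singleton] at h1
    omega
  · obtain ⟨A, B, hAB, h⟩ := Finset.card_eq_two.1 h4
    have a := D.bounds hSg k0 hk (s := A) (by simp [h])
    have b := D.bounds hSg k0 hk (s := B) (by simp [h])
    rw [h, Finset.sum_pair hAB] at h1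
    exact ⟨A, B, hAB, h, a.2.2 (by omega), b.2.2 (by omega)⟩

lemma Dat.cheb (D : Dat d H E ν) {e A B : V ℂ} (hE : E = {e}) (hAB : A ≠ B) (h : Sg = {A, B})
    (hA : ν A = 2) (hB : ν B = 2) : ChebAt H A B e := by
  have he : e ∈ E := hE ▸ Finset.mem_singleton_self e
  have hn : e ∉ Sg := fun h => ((hSg e).1 h).2.2 e he (wedge_self e)
  obtain ⟨-, c, -, hc⟩ := D.weights hSg (k := 2) fun Y hY hY' => by
    by_cases h1 : ν Y = 1
    · rw [h1]; exact one_dvd _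
    · obtain ⟨a, b⟩ := D.nr_mem hSg hY hY' h1
      rw [h, Finset.mem_insert, Finset.mem_singleton] at a
      rcases a with a | a
      · rw [← b, a, hA]
      · rw [← b, a, hB]
  have e1 : E ∪ Sg = insert e Sg := by rw [hE, Finset.singleton_union]
  have wA : wgt E ν 2 A = 1 := by rw [wgt_off ((hSg A).1 (by simp [h])).2.2, hA]
  have wB : wgt E ν 2 B = 1 := by rw [wgt_off ((hSg B).1 (by simp [h])).2.2, hB]
  refine ⟨c, fun Z => ?_⟩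
  have := hc Z
  rw [e1, Finset.prod_insert hn, Finset.prod_insert hn, h, Finset.prod_pair hAB,
    Finset.prod_pair hAB, wA, wB, wgt_on he (wedge_self e)] at this
  linear_combination this

omit hSg in
/-- With one exceptional point the singular set of the orbifold is finite. -/
lemma Dat.fin_one (h : Dyn d F G) {e : V ℂ} (D : Dat d F {e} ν)
    (hloc : ∀ Y, Y ≠ 0 → (∀ e' ∈ ({e} : Finset (V ℂ)), wedge Y e' ≠ 0) → 0 < ν Y ∧ ∃ δ : ℝ, 0 < δ ∧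
      ∀ W, W ≠ 0 → dlt W Y < δ → wedge W Y ≠ 0 → ν W = 1) :
    {Y : V ℂ | nr Y = Y ∧ ν Y ≠ 1 ∧ ∀ e' ∈ ({e} : Finset (V ℂ)), wedge Y e' ≠ 0}.Finite := by
  have d0 : 0 < d := by have := D.two; omega
  have d1 : (1 : ℝ) < d := by exact_mod_cast D.two
  obtain ⟨-, c, c0, hc⟩ := D.back
  simp only [Finset.prod_singleton] at hc
  obtain ⟨⟨C, hC⟩, hs, -⟩ := h.esc
  set κ : ℝ := Real.log ‖c‖ / (d - 1) with hκ
  set u : V ℂ → ℝ := fun Z => G Z - Real.log ‖wedge Z e‖ - κ with hu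
  have u1 : ∀ Z, Z ≠ 0 → wedge Z e ≠ 0 → u (app F Z) = d * u Z := by
    intro Z hZ he
    have : (d : ℝ) - 1 ≠ 0 := by linarith
    simp only [hu, h.esc.2.2 Z hZ, hc, norm_mul, norm_pow]
    rw [Real.log_mul (norm_ne_zero_iff.2 c0) (pow_ne_zero _ (norm_ne_zero_iff.2 he)), Real.log_pow,
      hκ]
    field_simp
    ring
  have u2 : ∀ X Y, X ≠ 0 → Y ≠ 0 → wedge X Y = 0 → wedge Y e ≠ 0 → u X = u Y := by
    intro X Y hX hY hXY he
    obtain ⟨t, ht, rfl⟩ := exists_smul_of_wedge hX hY hXY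
    simp only [hu, hs t Y ht hY, wedge_smul_left, norm_mul]
    rw [Real.log_mul (norm_ne_zero_iff.2 ht) (norm_ne_zero_iff.2 he)]
    ring
  have u3 : ∀ T : ℝ, {Y : V ℂ | nr Y = Y ∧ ν Y ≠ 1 ∧ wedge Y e ≠ 0 ∧ u Y ≤ T}.Finite := by
    intro T
    refine (fin_sig D.inv hloc (Real.exp_pos (-(T + C + κ)))).subset ?_
    rintro Y ⟨h1, h2, h3, h4⟩
    have hY0 : Y ≠ 0 := h1 ▸ nr_ne Y
    refine ⟨h1, h2, fun e' he' => ?_⟩
    rw [Finset.mem_singleton.1 he', ← Real.exp_log (norm_pos_iff.2 hY0), ← Real.exp_add,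
      ← Real.exp_log (norm_pos_iff.2 h3), Real.exp_le_exp]
    have := (abs_le.1 (hC Y hY0)).1
    simp only [hu] at h4
    linarith
  obtain ⟨Cs, hCs, hj⟩ := exists_jac_factor D.two D.hom D.nd
  set T : ℝ := 1 + ∑ j, |u (Cs j)| with hT
  have T0 : 0 < T := add_pos_of_pos_of_nonneg one_pos (Finset.sum_nonneg fun _ _ => abs_nonneg _)
  have hreg : ∀ Z, Z ≠ 0 → wedge Z e ≠ 0 → T ≤ u Z → jac F Z ≠ 0 := by
    intro Z hZ he hle h0
    rw [hj, Finset.prod_eq_zero_iff] at h0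
    obtain ⟨j, -, h0⟩ := h0
    have h1 := u2 _ _ (hCs j) hZ (wedge_symm h0) he
    have h2 := Finset.single_le_sum (f := fun j => |u (Cs j)|) (fun _ _ => abs_nonneg _)
      (Finset.mem_univ j)
    have h3 := le_abs_self (u (Cs j))
    linarith
  have hfin : ∀ j : ℕ, {Y : V ℂ | nr Y = Y ∧ ν Y ≠ 1 ∧ wedge Y e ≠ 0 ∧ T * d ^ j ≤ u Y ∧
      u Y < T * d ^ (j + 1)}.Finite := fun j =>
    (u3 (T * d ^ (j + 1))).subset fun Y hY => ⟨hY.1, hY.2.1, hY.2.2.1, hY.2.2.2.2.le⟩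
  have step : ∀ j, d * (hfin (j + 1)).toFinset.card ≤ (hfin j).toFinset.card := by
    intro j
    refine card_le d0 D.hom D.nd _ _ (fun Y hY => ((hfin _).mem_toFinset.1 hY).1)
      fun Y hY Z hZ hw => ?_
    obtain ⟨h1, h2, h3, h4, h5⟩ := (hfin _).mem_toFinset.1 hY
    have hY0 : Y ≠ 0 := h1 ▸ nr_ne Y
    have hFZ := D.nd.app_ne hZ
    have hZe : wedge Z e ≠ 0 := fun h0 => h3 ((wedge_congr hFZ hY0 hw e).1 (by
      rw [hc, h0, zero_pow d0.ne', mul_zero]))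
    have e1 : u Y = d * u Z := by rw [← u1 Z hZ hZe, u2 _ _ hFZ hY0 hw h3]
    have l1 : T * d ^ j ≤ u Z := by
      refine le_of_mul_le_mul_left ?_ (zero_lt_one.trans d1)
      rw [← e1]
      exact le_of_eq_of_le (by ring) h4
    have l2 : u Z < T * d ^ (j + 1) := by
      refine lt_of_mul_lt_mul_left ?_ (zero_lt_one.trans d1).le
      rw [← e1]
      exact lt_of_lt_of_eq h5 (by ring)
    have hjz := hreg Z hZ hZe (le_trans (le_mul_of_one_le_right T0.le (one_le_pow₀ d1.le)) l1)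
    refine ⟨hjz, (hfin j).mem_toFinset.2 ?_⟩
    obtain ⟨m, -, -, hm⟩ := exists_ram d0 D.hom D.nd hZ
    have m1 := (hm.eq_one_iff d0 D.hom D.nd hZ).2 hjz
    have e2 := D.rel Z hZ (by simpa using hZe) m hm
    rw [m1, one_mul, D.inv _ _ hFZ hY0 hw] at e2
    have e3 := u2 _ _ (nr_ne Z) hZ (wedge_nr Z) hZe
    refine ⟨nr_nr hZ, by rwa [D.inv _ _ (nr_ne Z) hZ (wedge_nr Z), ← e2], ?_, by rwa [e3],
      by rwa [e3]⟩
    rwa [Ne, wedge_congr (nr_ne Z) hZ (wedge_nr Z)]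
  have pw : ∀ j, d ^ j * (hfin j).toFinset.card ≤ (hfin 0).toFinset.card := by
    intro j
    induction j with
    | zero => simp
    | succ j ih =>
      rw [pow_succ, mul_assoc]
      exact (Nat.mul_le_mul_left _ (step j)).trans ih
  refine (u3 (T * d ^ (hfin 0).toFinset.card)).subset ?_
  rintro Y ⟨h1, h2, h3⟩
  have h3' : wedge Y e ≠ 0 := by simpa using h3
  refine ⟨h1, h2, h3', ?_⟩
  by_contra hlt
  rw [not_le, ← lt_div_iff₀' T0] at hlt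
  obtain ⟨j, j1, j2⟩ := exists_nat_pow_near ((one_le_pow₀ d1.le).trans hlt.le) d1
  have hm : Y ∈ (hfin j).toFinset := (hfin j).mem_toFinset.2
    ⟨h1, h2, h3', (le_div_iff₀' T0).1 j1, (div_lt_iff₀' T0).1 j2⟩
  have c1 : 0 < (hfin j).toFinset.card := Finset.card_pos.2 ⟨Y, hm⟩
  have c2 := (pow_lt_pow_iff_right₀ d1).1 (hlt.trans j2)
  have c3 : j < d ^ j := Nat.lt_pow_self D.two
  have c4 := (Nat.le_mul_of_pos_right (d ^ j) c1).trans (pw j)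
  omega

end COrbAux

open COrbAux

variable {d : ℕ} {F F' : PM ℂ} {G : V ℂ → ℝ}

theorem exc_of_nu (h : Dyn d F G) (hF' : Hom d F') (hN' : Nondeg F') (E : Finset (V ℂ))
    (ν : V ℂ → ℕ) (hE : E.card ≤ 2) (hE0 : ∀ e ∈ E, e ≠ 0)
    (hν : ∀ X Y, X ≠ 0 → Y ≠ 0 → wedge X Y = 0 → ν X = ν Y)
    (hrel : ∀ H, (H = F ∨ H = F') → ∀ Y, Y ≠ 0 → (∀ e ∈ E, wedge Y e ≠ 0) →
      (∀ e ∈ E, wedge (app H Y) e ≠ 0) ∧ ∀ m, Ram H Y m → ν (app H Y) = m * ν Y)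
    (hloc : ∀ Y, Y ≠ 0 → (∀ e ∈ E, wedge Y e ≠ 0) → 0 < ν Y ∧ ∃ δ : ℝ, 0 < δ ∧
      ∀ W, W ≠ 0 → dlt W Y < δ → wedge W Y ≠ 0 → ν W = 1) :
    (∃ k, Orb F k ∧ Orb F' k) ∨ Pow d F F' ∨ Cheb F F' := by
  classical
  obtain ⟨T, hT, hsep, hrep⟩ := exists_reps E hE0
  have off : ∀ Y, (∀ e ∈ T, wedge Y e ≠ 0) → ∀ e ∈ E, wedge Y e ≠ 0 := by
    intro Y hY e he h0
    obtain ⟨t, ht, h1⟩ := hrep e he
    exact hY t ht (wedge_trans (hE0 e he) h0 h1)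
  have hloc' := fun Y hY hY' => hloc Y hY (off Y hY')
  have mk : ∀ H, (H = F ∨ H = F') → Hom d H → Nondeg H → Dat d H T ν := fun H hH h1 h2 =>
    ⟨h.two, h1, h2, fun e he => hE0 e (hT he), hsep, hν,
      fun Y hY hY' e he => (hrel H hH Y hY (off Y hY')).1 e (hT he),
      fun Y hY hY' => (hrel H hH Y hY (off Y hY')).2, fun Y hY hY' => (hloc' Y hY hY').1⟩
  have D := mk F (Or.inl rfl) h.hom h.nondeg
  have D' := mk F' (Or.inr rfl) hF' hN'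
  have hc := (Finset.card_le_card hT).trans hE
  have h4 : T.card = 0 ∨ T.card = 1 ∨ T.card = 2 := by omega
  rcases h4 with h4 | h4 | h4
  · have h0 := Finset.card_eq_zero.1 h4
    have hf : {Y : V ℂ | nr Y = Y ∧ ν Y ≠ 1 ∧ ∀ e ∈ T, wedge Y e ≠ 0}.Finite :=
      (fin_sig hν hloc' one_pos).subset fun Y hY => ⟨hY.1, hY.2.1, by simp [h0]⟩
    exact Or.inl ⟨_, D.orb (fun _ => hf.mem_toFinset) h0, D'.orb (fun _ => hf.mem_toFinset) h0⟩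
  · obtain ⟨e, rfl⟩ := Finset.card_eq_one.1 h4
    have hf := D.fin_one h hloc'
    have hSg : ∀ Y, Y ∈ hf.toFinset ↔ nr Y = Y ∧ ν Y ≠ 1 ∧
        ∀ e' ∈ ({e} : Finset (V ℂ)), wedge Y e' ≠ 0 := fun _ => hf.mem_toFinset
    obtain ⟨A, B, hAB, hS, hA, hB⟩ := D.two_pts hSg rfl
    have mA : A ∈ hf.toFinset := by rw [hS]; simp
    have mB : B ∈ hf.toFinset := by rw [hS]; simp
    exact Or.inr (Or.inr ⟨A, B, e,
      D.sep_union hSg A (Finset.mem_union_right _ mA) B (Finset.mem_union_right _ mB) hAB,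
      ((hSg A).1 mA).2.2 e (Finset.mem_singleton_self e),
      ((hSg B).1 mB).2.2 e (Finset.mem_singleton_self e),
      D.cheb hSg rfl hAB hS hA hB, D'.cheb hSg rfl hAB hS hA hB⟩)
  · obtain ⟨A, B, hAB, rfl⟩ := Finset.card_eq_two.1 h4
    obtain ⟨-, c, -, hc⟩ := D.back
    obtain ⟨-, c', -, hc'⟩ := D'.back
    simp only [Finset.prod_pair hAB] at hc hc'
    exact Or.inr (Or.inl ⟨A, B, hsep A (by simp) B (by simp) hAB, ⟨c, hc⟩, ⟨c', hc'⟩⟩)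

end Pool.Agent.MP_3827f0_nt.H92
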