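import Pool.Agent.MP_3827f0_nt.H92.CLin

/-! A relation, or symmetries close to the identity. -/

set_option autoImplicit false

namespace Pool.Agent.MP_3827f0_nt.H92

open Metric

variable {d : ℕ} {F F' : PM ℂ} {G : V ℂ → ℝ}

namespace CWigAux

open Filter Topology CLinAux

lemma an_coord {s : ℂ → V ℂ} {z : ℂ} (hs : AnalyticAt ℂ s z) (i : Fin 2) :
    AnalyticAt ℂ (fun w => s w i) z := (analyticAt_pi_iff.1 hs) i

lemma an_proj (Z : V ℂ) (i : Fin 2) : AnalyticAt ℂ (fun W : V ℂ => W i) Z :=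
  (ContinuousLinearMap.proj (R := ℂ) (φ := fun _ : Fin 2 => ℂ) i).analyticAt Z

/-- A convergent sequence of pairwise different curves with the same escape rate gives
symmetries close to the identity. -/
lemma wiggle_of (h : Dyn d F G) {v : ℂ → ℝ} {c : ℝ} (hc : 0 < c) {ρ₀ : ℝ} (hρ₀ : 0 < ρ₀)
    {S : ℂ → V ℂ} {T : ℕ → ℂ → V ℂ} (hS : DifferentiableOn ℂ S (ball 0 ρ₀))
    (hT : ∀ n, DifferentiableOn ℂ (T n) (ball 0 ρ₀))
    (hu : TendstoUniformlyOn T S (hyperfilter ℕ) (ball 0 ρ₀)) (h1 : S 0 1 ≠ 0)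
    (hW : wedge (S 0) (deriv S 0) ≠ 0)
    (hG : ∀ n, ∀ ζ ∈ ball (0 : ℂ) ρ₀, G (T n ζ) = G (S ζ))
    (hv : HarmAt (fun ζ => G (S ζ) - c * v ζ) 0)
    (hne : ∀ n m, n ≠ m → ¬ ∀ᶠ ζ in 𝓝 (0 : ℂ), wedge (T n ζ) (T m ζ) = 0) : Wiggle v := by
  have hSa : AnalyticAt ℂ S 0 := an_of_diff hS (mem_ball_self hρ₀)
  set s : ℂ → ℂ := fun ζ => S ζ 0 / S ζ 1 with hs
  have hsa : AnalyticAt ℂ s 0 := (an_coord hSa 0).div (an_coord hSa 1) h1
  have hsd : deriv s 0 ≠ 0 := by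
    have hd := hasDerivAt_pi.1 hSa.differentiableAt.hasDerivAt
    have := ((hd 0).div (hd 1) h1).deriv
    rw [hs]
    erw [this]
    refine div_ne_zero (fun e => hW ?_) (pow_ne_zero _ h1)
    simp only [wedge]
    linear_combination -e
  obtain ⟨g, hga, hg0, -, hgs, hsg⟩ := exists_local_inverse hsa hsd
  -- good points in the source
  have hN : ∀ᶠ ζ in 𝓝 (0 : ℂ), ζ ∈ ball (0 : ℂ) ρ₀ ∧ S ζ 1 ≠ 0 ∧
      HarmAt (fun ζ => G (S ζ) - c * v ζ) ζ :=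
    Filter.Eventually.and (ball_mem_nhds 0 hρ₀)
      (((an_coord hSa 1).continuousAt.eventually_ne h1).and hv.eventually)
  set Q : V ℂ → ℂ := fun Z => g (Z 0 / Z 1) with hQ
  have hq : AnalyticAt ℂ (fun Z : V ℂ => Z 0 / Z 1) (S 0) := (an_proj _ 0).div (an_proj _ 1) h1
  have hQa : AnalyticAt ℂ Q (S 0) := AnalyticAt.comp (g := g) hga hq
  have hQ0 : Q (S 0) = 0 := hg0
  have hB : ∀ᶠ Z in 𝓝 (S 0), AnalyticAt ℂ Q Z ∧ Z 1 ≠ 0 ∧ s (Q Z) = Z 0 / Z 1 ∧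
      (Q Z ∈ ball (0 : ℂ) ρ₀ ∧ S (Q Z) 1 ≠ 0 ∧ HarmAt (fun ζ => G (S ζ) - c * v ζ) (Q Z)) :=
    hQa.eventually_analyticAt.and (((an_proj _ 1).continuousAt.eventually_ne h1).and
      ((hq.continuousAt.eventually hsg).and (hQa.continuousAt.eventually (by rwa [hQ0]))))
  obtain ⟨β, hβ, hB⟩ := Metric.nhds_basis_closedBall.eventually_iff.1 hB
  have hUC : UniformContinuousOn Q (closedBall (S 0) β) :=
    (isCompact_closedBall _ _).uniformContinuousOn_of_continuous fun Z hZ =>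
      (hB hZ).1.continuousAt.continuousWithinAt
  have hA : ∀ᶠ ζ in 𝓝 (0 : ℂ), S ζ ∈ ball (S 0) (β / 2) :=
    hSa.continuousAt.eventually (ball_mem_nhds _ (half_pos hβ))
  obtain ⟨ρ, hρ, hP⟩ := Metric.eventually_nhds_iff_ball.1 (hN.and (hA.and hgs))
  refine ⟨ρ, hρ, fun ε hε => ?_⟩
  obtain ⟨δ, hδ, hδ'⟩ := Metric.uniformContinuousOn_iff.1 hUC ε hε
  have hev := Metric.tendstoUniformlyOn_iff.1 hu (min δ (β / 2)) (lt_min hδ (half_pos hβ))
  have hmem : ∀ n, (∀ ζ ∈ ball (0 : ℂ) ρ₀, dist (S ζ) (T n ζ) < min δ (β / 2)) →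
      ∀ ζ ∈ ball (0 : ℂ) ρ, T n ζ ∈ closedBall (S 0) β := by
    intro n hn ζ hζ
    have a1 := (hn ζ (hP ζ hζ).1.1).trans_le (min_le_right _ _)
    have a2 := mem_ball.1 (hP ζ hζ).2.1
    have a3 := dist_triangle_left (T n ζ) (S 0) (S ζ)
    exact mem_closedBall.2 (by linarith)
  have hpar : ∀ n, (∀ ζ ∈ ball (0 : ℂ) ρ₀, dist (S ζ) (T n ζ) < min δ (β / 2)) →
      ∀ ζ ∈ ball (0 : ℂ) ρ, wedge (S (Q (T n ζ))) (T n ζ) = 0 := by
    intro n hn ζ hζ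
    obtain ⟨-, b1, b2, -, b3, -⟩ := hB (hmem n hn ζ hζ)
    have b2' : S (Q (T n ζ)) 0 / S (Q (T n ζ)) 1 = T n ζ 0 / T n ζ 1 := b2
    rw [div_eq_div_iff b3 b1] at b2'
    simp only [wedge]
    linear_combination b2'
  have hinf : {n | ∀ ζ ∈ ball (0 : ℂ) ρ₀, dist (S ζ) (T n ζ) < min δ (β / 2)}.Infinite :=
    fun hf => hf.notMem_hyperfilter hev
  have hex : ∃ n, (∀ ζ ∈ ball (0 : ℂ) ρ₀, dist (S ζ) (T n ζ) < min δ (β / 2)) ∧
      ¬ ∀ᶠ ζ in 𝓝 (0 : ℂ), Q (T n ζ) = ζ := by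
    obtain ⟨n, hn, m, hm, hnm⟩ := hinf.nontrivial
    by_contra hcon
    push Not at hcon
    refine hne n m hnm ?_
    filter_upwards [hcon n hn, hcon m hm, ball_mem_nhds 0 hρ] with ζ e1 e2 hζ
    have p1 := hpar n hn ζ hζ
    have p2 := hpar m hm ζ hζ
    rw [e1] at p1
    rw [e2] at p2
    have hS0 : S ζ ≠ 0 := fun e => (hP ζ hζ).1.2.1 (by rw [e]; rfl)
    exact wedge_trans hS0 (wedge_symm p1) p2
  obtain ⟨n, hn, hne'⟩ := hex
  have hτ : ∀ ζ ∈ ball (0 : ℂ) ρ, AnalyticAt ℂ (fun ξ => Q (T n ξ)) ζ := fun ζ hζ =>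
    AnalyticAt.comp (g := Q) (hB (hmem n hn ζ hζ)).1 (an_of_diff (hT n) (hP ζ hζ).1.1)
  refine ⟨fun ξ => Q (T n ξ), fun ζ hζ => (hτ ζ hζ).differentiableAt.differentiableWithinAt,
    fun ζ hζ => ?_, hne', fun ζ hζ => ?_⟩
  · have e : Q (S ζ) = ζ := (hP ζ hζ).2.2
    have := hδ' _ (hmem n hn ζ hζ) (S ζ)
      (ball_subset_closedBall (ball_subset_ball (by linarith) (hP ζ hζ).2.1))
      (by rw [dist_comm]; exact (hn ζ (hP ζ hζ).1.1).trans_le (min_le_left _ _))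
    rw [e, dist_eq_norm] at this
    exact this.le
  · obtain ⟨-, b1, -, b2, b3, b4⟩ := hB (hmem n hn ζ hζ)
    have c1 : HarmAt (fun ξ => G (S (Q (T n ξ))) - G (T n ξ)) ζ :=
      h.harmAt_sub (s := fun ξ => S (Q (T n ξ))) (t := T n)
        (AnalyticAt.comp (g := S) (an_of_diff hS b2) (hτ ζ hζ))
        (an_of_diff (hT n) (hP ζ hζ).1.1) (fun e => b3 (by rw [e]; rfl))
        (fun e => b1 (by rw [e]; rfl))
        (by filter_upwards [isOpen_ball.mem_nhds hζ] with ξ hξ using hpar n hn ξ hξ)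
    have c2 := HarmAt.comp (u := fun ζ => G (S ζ) - c * v ζ) (hτ ζ hζ) b4
    have c3 := (hP ζ hζ).1.2.2
    refine (((c1.sub c2).add c3).const_mul c⁻¹).congr ?_
    filter_upwards [isOpen_ball.mem_nhds hζ] with ξ hξ
    rw [hG n ξ (hP ξ hξ).1.1]
    field_simp
    ring

end CWigAux

open CWigAux CLinAux Filter Topology in
theorem rel_or_wiggle (h : Dyn d F G) {c : ℝ} (h' : Dyn d F' fun Z => G Z + c) (D : Lin F G)
    {x : ℂ} {R : ℝ} (hL : Set.MapsTo D.L (ball 0 D.r) (ball x R))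
    (hb : ∀ n : ℕ, ∃ k, Br F n x R k) :
    (∃ n k, RelInf F F' n n k) ∨ Wiggle fun ζ => G ![D.L ζ, 1] := by
  choose k hk using hb
  choose E hE hE' using fun n => br_lift h (hk n)
  set a : ℕ → ℂ := fun n => (Real.exp (-(((d : ℝ) ^ n - 1) * c)) : ℝ) with ha
  have ha0 : ∀ n, a n ≠ 0 := fun n => Complex.ofReal_ne_zero.2 (Real.exp_pos _).ne'
  set σ : ℕ → ℂ → V ℂ := fun n z => a n • (app F')^[n] (E n z) with hσ
  have hσd : ∀ n, DifferentiableOn ℂ (σ n) (ball x R) := fun n z hz =>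
    (((analyticAt_iter F' n _).comp (an_of_diff (hE n) hz)).const_smul
      (c := a n)).differentiableAt.differentiableWithinAt
  have hσ0 : ∀ n, ∀ z ∈ ball x R, σ n z ≠ 0 := fun n z hz =>
    smul_ne_zero (ha0 n) (h'.nondeg.iter_ne n (hE' n z hz).2.1)
  have hσG : ∀ n, ∀ z ∈ ball x R, G (σ n z) = G ![z, 1] := by
    intro n z hz
    have e1 := h.esc.2.1 (a n) _ (ha0 n) (h'.nondeg.iter_ne n (hE' n z hz).2.1)
    have e2 := h'.iter n (hE' n z hz).2.1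
    have e3 := h.iter n (hE' n z hz).2.1
    rw [(hE' n z hz).1] at e3
    have e4 : Real.log ‖a n‖ = -(((d : ℝ) ^ n - 1) * c) := by
      rw [ha]
      simp only [Complex.norm_real, Real.norm_eq_abs, abs_of_pos (Real.exp_pos _), Real.log_exp]
    rw [hσ]
    simp only
    rw [e1, e4, e3]
    linarith
  by_cases hrel : ∃ n m, n < m ∧ {z ∈ ball x R | wedge (σ n z) (σ m z) = 0}.Infinite
  · obtain ⟨n, m, hnm, hinf⟩ := hrel
    refine Or.inl ⟨n, m - n, by omega, ?_⟩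
    refine ((hinf.image ((br_inj h (hk m)).mono fun z hz => hz.1))).mono ?_
    rintro _ ⟨z, ⟨hz, hw⟩, rfl⟩
    have e : n + (m - n) = m := by omega
    refine ⟨E n z, (hE' n z hz).2.1, ?_, ?_⟩
    · rw [e, (hE' n z hz).1]
      exact (hk m).2 z hz
    · rw [e]
      simp only [hσ, wedge_smul_left, wedge_smul_right, mul_eq_zero, ha0, false_or] at hw
      exact wedge_trans (h'.nondeg.iter_ne m (hE' m z hz).2.1)
        (h'.hom.wedge_iter m (wedge_symm (hE' m z hz).2.2) (aff_ne_zero _) (hE' m z hz).2.1)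
        (wedge_symm hw)
  right
  have hfin : ∀ n m, n ≠ m → {z ∈ ball x R | wedge (σ n z) (σ m z) = 0}.Finite := by
    intro n m hnm
    by_contra hinf
    rcases lt_or_gt_of_ne hnm with h1 | h1
    · exact hrel ⟨n, m, h1, hinf⟩
    · refine hrel ⟨m, n, h1, Set.Infinite.mono ?_ hinf⟩
      exact fun z hz => ⟨hz.1, wedge_symm hz.2⟩
  obtain ⟨M, -, hM⟩ := bdd_aff h x R
  obtain ⟨g, hg, hu, hg'⟩ := exists_limit h (hyperfilter ℕ) (M := M) hσd fun n z hz =>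
    ⟨hσ0 n z hz, by rw [hσG n z hz]; exact hM z hz⟩
  have hgG : ∀ z ∈ ball x R, G (g z) = G ![z, 1] := by
    intro z hz
    have := (hg' z hz).2.2
    simp only [hσG _ z hz] at this
    exact tendsto_nhds_unique this tendsto_const_nhds
  have h0r : (0 : ℂ) ∈ ball (0 : ℂ) D.r := mem_ball_self D.r_pos
  have hp : D.L 0 ∈ ball x R := hL h0r
  have hga : AnalyticAt ℂ g (D.L 0) := an_of_diff hg hp
  have hnc : ∀ A : V ℂ, A ≠ 0 → ¬ ∀ᶠ z in 𝓝 (D.L 0), wedge (g z) A = 0 := by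
    intro A hA he
    have := h.harmAt_sub (s := g) (t := fun _ => A) hga analyticAt_const (hg' _ hp).1 hA he
    refine D.jul (fat_of_harm h ((this.add (harmAt_const (G A) _)).congr ?_))
    filter_upwards [isOpen_ball.mem_nhds hp] with z hz
    rw [hgG z hz]; ring
  have hw1 : ∀ᶠ z in 𝓝[≠] (D.L 0), wedge (g z) (deriv g z) ≠ 0 :=
    (analyticAt_wedge hga hga.deriv).eventually_eq_zero_or_eventually_ne_zero.resolve_left
      fun e => hnc _ (hg' _ hp).1 (proj_const_near hga (hg' _ hp).1 e)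
  have hw2 : ∀ᶠ z in 𝓝[≠] (D.L 0), g z 1 ≠ 0 :=
    (an_coord hga 1).eventually_eq_zero_or_eventually_ne_zero.resolve_left fun e =>
      hnc ![1, 0] (fun e => by simpa using congrFun e 0) (by
        filter_upwards [e] with z hz
        simp [wedge, hz])
  have hlim : Tendsto (fun j : ℕ => D.L (D.μ ^ j * D.θ 0)) atTop (𝓝[≠] (D.L 0)) := by
    refine tendsto_nhdsWithin_iff.2 ⟨?_, Eventually.of_forall fun j e => ?_⟩
    · refine (an_of_diff D.diff h0r).continuousAt.tendsto.comp ?_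
      simpa using (tendsto_pow_atTop_nhds_zero_of_norm_lt_one D.μ_lt).mul_const (D.θ 0)
    · exact mul_ne_zero (pow_ne_zero _ D.μ_ne) D.θ_ne
        (D.inj (pow_mul_mem D j D.θ_mem) h0r e)
  obtain ⟨j, hj1, hj2⟩ := (hlim.eventually (hw1.and hw2)).exists
  obtain ⟨c', hc', hΘa, hΘd, hΘh⟩ := D.sym h j
  set P : ℂ → ℂ := fun ζ => D.L (D.μ ^ j * D.θ ζ) with hP
  have hm := pow_mul_mem D j D.θ_mem
  have hPa : AnalyticAt ℂ P 0 := AnalyticAt.comp (g := D.L) (an_of_diff D.diff hm) hΘa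
  have hPd : deriv P 0 ≠ 0 := by
    have := (an_of_diff D.diff hm).differentiableAt.hasDerivAt.comp (0 : ℂ)
      hΘa.differentiableAt.hasDerivAt
    rw [show deriv P 0 = _ from this.deriv]
    exact mul_ne_zero (D.der _ hm) hΘd
  have hP0 : P 0 ∈ ball x R := hL hm
  obtain ⟨s, hs1, hs2⟩ := exists_between (mem_ball.1 hP0)
  obtain ⟨ρ₀, hρ₀, hρ⟩ := Metric.eventually_nhds_iff_ball.1 (hPa.eventually_analyticAt.and
    (hPa.continuousAt.eventually (isOpen_ball.mem_nhds (mem_ball.2 hs1))))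
  have hPd' : DifferentiableOn ℂ P (ball 0 ρ₀) := fun ζ hζ =>
    (hρ ζ hζ).1.differentiableAt.differentiableWithinAt
  have hPm : Set.MapsTo P (ball 0 ρ₀) (ball x R) := fun ζ hζ =>
    ball_subset_ball hs2.le (hρ ζ hζ).2
  obtain ⟨q, -, -, -, hq, -⟩ := exists_local_inverse hPa hPd
  refine wiggle_of h hc' hρ₀ (S := fun ζ => g (P ζ)) (T := fun n ζ => σ n (P ζ))
    (hg.comp hPd' hPm) (fun n => (hσd n).comp hPd' hPm)
    (((hu s hs2).comp P).mono fun ζ hζ => (hρ ζ hζ).2) hj2 ?_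
    (fun n ζ hζ => by rw [hσG n _ (hPm hζ), hgG _ (hPm hζ)]) (hΘh.congr ?_) fun n m hnm he => ?_
  · have := (an_of_diff hg hP0).differentiableAt.hasDerivAt.scomp (0 : ℂ)
      hPa.differentiableAt.hasDerivAt
    rw [show deriv (fun ζ => g (P ζ)) 0 = _ from this.deriv, wedge_smul_right]
    exact mul_ne_zero hPd hj1
  · filter_upwards [ball_mem_nhds 0 hρ₀] with ζ hζ
    rw [hgG _ (hPm hζ)]
  · have hN := infinite_of_mem_nhds (0 : ℂ) (he.and (hq.and (ball_mem_nhds 0 hρ₀)))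
    refine (hN.image (f := P) fun a ha b hb e => ?_).mono ?_ (hfin n m hnm)
    · rw [← ha.2.1, ← hb.2.1, e]
    · rintro _ ⟨ζ, hζ, rfl⟩
      exact ⟨hPm hζ.2.2, hζ.1⟩

end Pool.Agent.MP_3827f0_nt.H92
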