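import Pool.Agent.MP_3827f0_nt.H92.CZoomAux

/-! Symmetries close to the identity force an affine structure. -/

set_option autoImplicit false

namespace Pool.Agent.MP_3827f0_nt.H92

open Metric Filter Topology

namespace CZoomAux

/-- A closed subgroup of the plane with arbitrarily small elements contains a line. -/
lemma exists_line (Γ : AddSubgroup ℂ) (hΓ : IsClosed (Γ : Set ℂ)) {b : ℕ → ℂ}
    (hb : ∀ k, b k ∈ Γ) (h0 : ∀ k, b k ≠ 0) (hl : Tendsto b atTop (𝓝 0)) :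
    ∃ u : ℂ, u ≠ 0 ∧ ∀ t : ℝ, (t : ℂ) * u ∈ Γ := by
  have hn : ∀ k, 0 < ‖b k‖ := fun k => norm_pos_iff.2 (h0 k)
  have hs : ∀ k, b k / (‖b k‖ : ℂ) ∈ sphere (0 : ℂ) 1 := fun k => by
    rw [mem_sphere_zero_iff_norm, norm_div, Complex.norm_real, norm_norm, div_self (hn k).ne']
  obtain ⟨u, hu, φ, hφ, hlim⟩ := (isCompact_sphere (0 : ℂ) 1).tendsto_subseq hs
  refine ⟨u, ?_, fun t => ?_⟩
  · rintro rfl
    simp at hu
  have hb0 : Tendsto (fun k => ‖b (φ k)‖) atTop (𝓝 0) := by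
    simpa using (hl.comp hφ.tendsto_atTop).norm
  have ht : Tendsto (fun k => (⌊t / ‖b (φ k)‖⌋ : ℝ) * ‖b (φ k)‖) atTop (𝓝 t) := by
    have h1 : Tendsto (fun k => t - ‖b (φ k)‖) atTop (𝓝 t) := by simpa using hb0.const_sub t
    refine tendsto_of_tendsto_of_tendsto_of_le_of_le h1 tendsto_const_nhds (fun k => ?_) fun k => ?_
    · have := Int.sub_one_lt_floor (t / ‖b (φ k)‖)
      have h2 := mul_lt_mul_of_pos_right this (hn (φ k))
      rw [sub_mul, div_mul_cancel₀ _ (hn (φ k)).ne', one_mul] at h2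
      exact h2.le
    · have := Int.floor_le (t / ‖b (φ k)‖)
      have h2 := mul_le_mul_of_nonneg_right this (hn (φ k)).le
      rwa [div_mul_cancel₀ _ (hn (φ k)).ne'] at h2
  have hc := ((Complex.continuous_ofReal.tendsto t).comp ht).mul hlim
  refine hΓ.mem_of_tendsto hc (Eventually.of_forall fun k => ?_)
  have hne : ((‖b (φ k)‖ : ℝ) : ℂ) ≠ 0 := by exact_mod_cast (hn (φ k)).ne'
  have e : (Complex.ofReal ∘ fun k => (⌊t / ‖b (φ k)‖⌋ : ℝ) * ‖b (φ k)‖) k *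
      ((fun k => b k / (‖b k‖ : ℂ)) ∘ φ) k = ⌊t / ‖b (φ k)‖⌋ • b (φ k) := by
    simp only [Function.comp, zsmul_eq_mul]
    push_cast
    field_simp
  rw [e]
  exact Γ.zsmul_mem (hb _) _

namespace Zm

variable {Z : Zm}

lemma not_contract {m : ℂ} (hm : ‖m‖ < 1) (h : ∀ z, Z.S 1 (fun ξ => m * ξ) z) : False := by
  have hp : ∀ (j : ℕ) z, Z.S 1 (fun ξ => m ^ j * ξ) z := by
    intro j
    induction j with
    | zero => intro z; simpa using Z.S_id z
    | succ j ih =>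
      intro z
      have := S.comp (f := fun ξ => m * ξ) (ih _) (h z)
      rw [one_mul] at this
      exact this.congr (Eventually.of_forall fun w => by ring)
  have hl : TendstoUniformlyOn (fun (j : ℕ) ξ => m ^ j * ξ) (fun _ => (0 : ℂ)) atTop
      (ball 0 1) := by
    rw [Metric.tendstoUniformlyOn_iff]
    intro ε hε
    have t : Tendsto (fun j : ℕ => ‖m ^ j‖) atTop (𝓝 0) := by
      simpa using (tendsto_pow_atTop_nhds_zero_of_norm_lt_one hm).norm
    filter_upwards [t.eventually (gt_mem_nhds hε)] with j hj ξ hξ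
    rw [dist_comm, dist_zero_right, norm_mul]
    exact lt_of_le_of_lt (mul_le_of_le_one_right (norm_nonneg _) (mem_ball_zero_iff.1 hξ).le) hj
  have h1 := S_limit (Z := Z) (l := atTop) (B := 0) (fun _ _ => analyticAt_const)
    (fun _ _ => by simp) (Eventually.of_forall fun j z _ => hp j z) hl 0 (mem_ball_self one_pos)
  have h2 := (S_iff_zero analyticAt_const (by simpa using Z.hr) (by simpa using Z.hr)).1 h1
  refine Z.h0 (((harmAt_const (Z.v 0) 0).sub h2).congr (Eventually.of_forall fun w => ?_))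
  ring

lemma unimod {m : ℂ} (h : ∀ z, Z.S 1 (fun ξ => m * ξ) z) : ‖m‖ = 1 := by
  rcases lt_trichotomy ‖m‖ 1 with h1 | h1 | h1
  · exact (not_contract h1 h).elim
  · exact h1
  · have hm : m ≠ 0 := norm_pos_iff.1 (by linarith)
    refine (not_contract (Z := Z) (m := m⁻¹) ?_ fun z => ?_).elim
    · rw [norm_inv]
      exact inv_lt_one_of_one_lt₀ h1
    · have := S.inv (g := fun ξ => m⁻¹ * ξ) (w := z) (h _) one_ne_zero (by fun_prop)
        (Eventually.of_forall fun ξ => by field_simp)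
      rwa [inv_one] at this

/-- A symmetry that fixes the origin has a derivative of modulus one. -/
lemma fix_unimod {τ : ℂ → ℂ} (h : Z.S 1 τ 0) (h0 : τ 0 = 0) : ‖deriv τ 0‖ = 1 := by
  have hb : ∀ᶠ z in 𝓝 (0 : ℂ), ‖τ z‖ ≤ 1 := by
    have := h.1.continuousAt.norm.eventually (ge_mem_nhds (show ‖τ 0‖ < 1 by simp [h0]))
    exact this
  obtain ⟨ρ, hρ, hh⟩ := Metric.eventually_nhds_iff_ball.1 (h.eventually.and hb)
  refine unimod (Z := Z) fun z => ?_
  have := zoom (Z := Z) (l := atTop) (τ := fun _ : ℕ => τ) (n := fun k => k) (b := 0) hρ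
    tendsto_id (Eventually.of_forall fun _ => hh) (by simp [h0]) tendsto_const_nhds z
  simpa using this

variable (Z)

/-- The group of translations that are symmetries. -/
def Gam : AddSubgroup ℂ where
  carrier := {b | ∀ z, Z.S 1 (fun ξ => ξ + b) z}
  zero_mem' := fun z => by simpa using Z.S_id z
  add_mem' := fun {a b} ha hb z => by
    have := S.comp (f := fun ξ => ξ + a) (hb _) (ha z)
    rw [one_mul] at this
    exact this.congr (Eventually.of_forall fun w => by ring)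
  neg_mem' := fun {a} ha z => by
    have := S.inv (g := fun ξ => ξ + -a) (w := z) (ha _) one_ne_zero (by fun_prop)
      (Eventually.of_forall fun ξ => by ring)
    rwa [inv_one] at this

variable {Z}

lemma mem_Gam {b : ℂ} : b ∈ Z.Gam ↔ ∀ z, Z.S 1 (fun ξ => ξ + b) z := Iff.rfl

lemma Gam_pow {b : ℂ} (hb : b ∈ Z.Gam) (k : ℕ) : Z.μ ^ k * b ∈ Z.Gam := by
  intro z
  have h1 := S.comp (f := fun ξ => (Z.μ ^ k)⁻¹ * ξ) (hb _) (Z.S_pow_inv k z)
  have h2 := S.comp (f := fun ξ => (Z.μ ^ k)⁻¹ * ξ + b) (Z.S_pow k _) h1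
  have e : (Z.D ^ k)⁻¹ * (1 * Z.D ^ k) = 1 := by
    have := pow_ne_zero k Z.hD.ne'
    field_simp
  rw [e] at h2
  refine h2.congr (Eventually.of_forall fun w => ?_)
  have := pow_ne_zero k Z.hμ
  field_simp

lemma Gam_closed : IsClosed (Z.Gam : Set ℂ) := by
  refine isClosed_of_closure_subset fun b hb z => ?_
  have : (𝓝[(Z.Gam : Set ℂ)] b).NeBot := mem_closure_iff_nhdsWithin_neBot.1 hb
  refine S_limit (l := 𝓝[(Z.Gam : Set ℂ)] b) (σ := fun s ξ => ξ + s) (R := ‖z‖ + 1)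
    (B := ‖z‖ + 1 + ‖b‖) (fun _ _ => by fun_prop) (fun ξ hξ => ?_) ?_ ?_ z
    (mem_ball_zero_iff.2 (by linarith))
  · exact (norm_add_le _ _).trans (add_le_add_left (mem_ball_zero_iff.1 hξ).le _)
  · filter_upwards [self_mem_nhdsWithin] with s hs ξ _
    exact hs ξ
  · rw [Metric.tendstoUniformlyOn_iff]
    intro ε hε
    filter_upwards [mem_nhdsWithin_of_mem_nhds (ball_mem_nhds b hε)] with s hs ξ _
    rw [dist_add_left, dist_comm]
    exact hs

/-- Symmetries close to the identity that move the origin. -/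
lemma wiggle_move {c : ℝ} {θ : ℂ → ℂ} (hc : 0 < c) (hθ : Z.S c θ 0) (hd : deriv θ 0 ≠ 0)
    (hθ0 : θ 0 ≠ 0) (hw : Wiggle Z.v) : ∃ ρ : ℝ, 0 < ρ ∧ ∀ ε : ℝ, 0 < ε → ∃ τ : ℂ → ℂ,
      (∀ z ∈ ball (0 : ℂ) ρ, Z.S 1 τ z ∧ ‖τ z - z‖ ≤ ε) ∧ τ 0 ≠ 0 := by
  obtain ⟨ρ₀, hρ₀, hw⟩ := hw
  set ρ₁ : ℝ := min ρ₀ (Z.r / 2) with hρ₁
  have hρ₁0 : 0 < ρ₁ := lt_min hρ₀ (half_pos Z.hr)
  have hw1 : ∀ ε : ℝ, 0 < ε → ∃ τ : ℂ → ℂ, (∀ z ∈ ball (0 : ℂ) ρ₁, Z.S 1 τ z ∧ ‖τ z - z‖ ≤ ε) ∧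
      ¬ ∀ᶠ ζ in 𝓝 (0 : ℂ), τ ζ = ζ := by
    intro ε hε
    obtain ⟨τ, h1, h2, h3, h4⟩ := hw (min ε (Z.r / 2)) (lt_min hε (half_pos Z.hr))
    refine ⟨τ, fun z hz => ?_, h3⟩
    have hz0 : z ∈ ball (0 : ℂ) ρ₀ := ball_subset_ball (min_le_left _ _) hz
    have hz1 : ‖z‖ < Z.r / 2 := lt_of_lt_of_le (mem_ball_zero_iff.1 hz) (min_le_right _ _)
    refine ⟨(S_iff_zero (h1.analyticAt (isOpen_ball.mem_nhds hz0)) (by linarith [Z.hr]) ?_).2 ?_,
      (h2 z hz0).trans (min_le_left _ _)⟩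
    · have h5 := (h2 z hz0).trans (min_le_right _ _)
      have h6 : ‖τ z‖ ≤ ‖τ z - z‖ + ‖z‖ := by simpa using norm_add_le (τ z - z) z
      linarith
    · simpa using h4 z hz0
  obtain ⟨g, hg, hg0, -, hgl, hgr⟩ := exists_local_inverse hθ.1 hd
  have hSg : Z.S c⁻¹ g (θ 0) := S.inv (f := θ) (by rwa [hg0]) hc.ne' hg hgr
  obtain ⟨δ, hδ, hδ'⟩ := Metric.eventually_nhds_iff_ball.1 (hSg.eventually.and hgr)
  have hcg : ContinuousOn g (closedBall (θ 0) (δ / 2)) := fun w hw =>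
    (hδ' w (closedBall_subset_ball (half_lt_self hδ) hw)).1.1.continuousAt.continuousWithinAt
  have huc := (isCompact_closedBall (θ 0) (δ / 2)).uniformContinuousOn_of_continuous hcg
  obtain ⟨ρ₂, hρ₂, hρ₂'⟩ := Metric.eventually_nhds_iff_ball.1 ((hθ.eventually.and hgl).and
    (hθ.1.continuousAt.eventually (ball_mem_nhds (θ 0) (show 0 < δ / 4 by positivity))))
  refine ⟨min ρ₁ ρ₂, lt_min hρ₁0 hρ₂, fun ε hε => ?_⟩
  obtain ⟨η, hη, hη'⟩ := Metric.uniformContinuousOn_iff.1 huc ε hε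
  set K : ℝ := ‖θ 0‖ + δ / 4 with hK
  have hK0 : 0 < K := by positivity
  set η' : ℝ := min (η / 2) (δ / 4) with hη'd
  have hη'0 : 0 < η' := lt_min (half_pos hη) (by positivity)
  obtain ⟨τ, h1, h2⟩ := hw1 (min ε (η' * ρ₁ / K)) (lt_min hε (by positivity))
  by_cases h0 : τ 0 = 0
  swap
  · exact ⟨τ, fun z hz => ⟨(h1 z (ball_subset_ball (min_le_left _ _) hz)).1,
      (h1 z (ball_subset_ball (min_le_left _ _) hz)).2.trans (min_le_left _ _)⟩, h0⟩
  have hsch : ∀ w ∈ ball (0 : ℂ) ρ₁, ‖τ w - w‖ ≤ η' / K * ‖w‖ := fun w hw => by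
    have := Complex.dist_le_div_mul_dist_of_mapsTo_ball (f := fun w => τ w - w) (c := 0)
      (R₂ := η' * ρ₁ / K)
      (fun w hw => ((h1 w hw).1.1.differentiableAt.sub differentiableAt_id).differentiableWithinAt)
      (fun w hw => by
        rw [mem_closedBall, h0, sub_zero, dist_zero_right]
        exact (h1 w hw).2.trans (min_le_right _ _)) hw
    rw [h0, sub_zero, dist_zero_right, dist_zero_right] at this
    refine this.trans (le_of_eq ?_)
    field_simp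
  have han : AnalyticAt ℂ τ 0 := (h1 0 (mem_ball_self hρ₁0)).1.1
  have hne : ∀ᶠ ζ in 𝓝[≠] (0 : ℂ), τ ζ ≠ ζ :=
    (han.eventually_eq_or_eventually_ne analyticAt_id).resolve_left h2
  have hp : Tendsto (fun j : ℕ => Z.μ ^ j * θ 0) atTop (𝓝[≠] 0) := by
    refine tendsto_nhdsWithin_iff.2 ⟨by simpa using Z.tend_pow.mul_const (θ 0),
      Eventually.of_forall fun j => mul_ne_zero (pow_ne_zero _ Z.hμ) hθ0⟩
  have hq : ∀ᶠ j : ℕ in atTop, ‖Z.μ ^ j‖ * K < ρ₁ := by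
    have : Tendsto (fun j : ℕ => ‖Z.μ ^ j‖ * K) atTop (𝓝 0) := by
      simpa using Z.tend_pow.norm.mul_const K
    exact this.eventually (gt_mem_nhds hρ₁0)
  obtain ⟨j, hj1, hj2⟩ := ((hp.eventually hne).and hq).exists
  have hμj : Z.μ ^ j ≠ 0 := pow_ne_zero _ Z.hμ
  set σ : ℂ → ℂ := fun ξ => (Z.μ ^ j)⁻¹ * τ (Z.μ ^ j * ξ) with hσ
  have hσ1 : ∀ w ∈ ball (θ 0) (δ / 4), Z.S 1 σ w ∧ ‖σ w - w‖ ≤ η' := fun w hw => by
    have hwK : ‖w‖ ≤ K := by
      have h3 : ‖w‖ ≤ ‖θ 0‖ + ‖w - θ 0‖ := by simpa using norm_add_le (θ 0) (w - θ 0)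
      have h4 := mem_ball_iff_norm.1 hw
      linarith
    have hin : Z.μ ^ j * w ∈ ball (0 : ℂ) ρ₁ := by
      rw [mem_ball_zero_iff, norm_mul]
      exact lt_of_le_of_lt (mul_le_mul_of_nonneg_left hwK (norm_nonneg _)) hj2
    refine ⟨S.conj j (h1 _ hin).1, ?_⟩
    have e : σ w - w = (Z.μ ^ j)⁻¹ * (τ (Z.μ ^ j * w) - Z.μ ^ j * w) := by
      simp only [hσ]
      field_simp
    rw [e, norm_mul, norm_inv, inv_mul_le_iff₀ (norm_pos_iff.2 hμj)]
    refine (hsch _ hin).trans ?_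
    rw [norm_mul]
    calc η' / K * (‖Z.μ ^ j‖ * ‖w‖) ≤ η' / K * (‖Z.μ ^ j‖ * K) := by gcongr
      _ = _ := by field_simp
  have hσ2 : ∀ w ∈ ball (θ 0) (δ / 4), σ w ∈ closedBall (θ 0) (δ / 2) := fun w hw => by
    have h3 := (hσ1 w hw).2.trans (min_le_right _ _)
    have h4 := mem_ball_iff_norm.1 hw
    have h5 : ‖σ w - θ 0‖ ≤ ‖σ w - w‖ + ‖w - θ 0‖ := by
      simpa using norm_add_le (σ w - w) (w - θ 0)
    rw [mem_closedBall_iff_norm]
    linarith
  refine ⟨fun z => g (σ (θ z)), fun z hz => ?_, fun h => ?_⟩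
  · obtain ⟨⟨a1, a2⟩, a3⟩ := hρ₂' z (ball_subset_ball (min_le_right _ _) hz)
    constructor
    · have b1 := S.comp (hσ1 _ a3).1 a1
      have b2 := S.comp (f := fun ξ => σ (θ ξ))
        (hδ' _ (closedBall_subset_ball (half_lt_self hδ) (hσ2 _ a3))).1 b1
      have e : c⁻¹ * (1 * c) = 1 := by field_simp
      rwa [e] at b2
    · have b3 := hη' _ (hσ2 _ a3) (θ z)
        (ball_subset_closedBall (ball_subset_ball (by linarith) a3))
        (by
          rw [dist_eq_norm]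
          exact lt_of_le_of_lt ((hσ1 _ a3).2.trans (min_le_left _ _)) (half_lt_self hη))
      rw [a2, dist_eq_norm] at b3
      exact b3.le
  · have b4 := (hδ' _ (closedBall_subset_ball (half_lt_self hδ)
      (hσ2 _ (mem_ball_self (by positivity))))).2
    simp only at h
    rw [h] at b4
    apply hj1
    have b5 : Z.μ ^ j * σ (θ 0) = τ (Z.μ ^ j * θ 0) := by
      simp only [hσ]
      field_simp
    rw [← b5, ← b4]

lemma exists_Gam {ρ : ℝ} (hρ : 0 < ρ) (hw : ∀ ε : ℝ, 0 < ε → ∃ τ : ℂ → ℂ,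
    (∀ z ∈ ball (0 : ℂ) ρ, Z.S 1 τ z ∧ ‖τ z - z‖ ≤ ε) ∧ τ 0 ≠ 0) :
    ∃ b, b ≠ 0 ∧ b ∈ Z.Gam := by
  choose τ h1 h2 using fun k : ℕ => hw (1 / ((k : ℝ) + 1)) Nat.one_div_pos_of_nat
  have hε : Tendsto (fun k : ℕ => 1 / ((k : ℝ) + 1)) atTop (𝓝 0) :=
    tendsto_one_div_add_atTop_nhds_zero_nat
  have hε1 : ∀ k : ℕ, 1 / ((k : ℝ) + 1) ≤ 1 := fun k => by
    rw [div_le_one (by positivity)]
    linarith [Nat.cast_nonneg (α := ℝ) k]
  have h3 : ∀ k, ‖τ k 0‖ ≤ 1 / ((k : ℝ) + 1) := fun k => by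
    simpa using (h1 k 0 (mem_ball_self hρ)).2
  have hμ0 : 0 < ‖Z.μ‖ := norm_pos_iff.2 Z.hμ
  choose n hn1 hn2 using fun k => exists_nat_pow_near_of_lt_one (norm_pos_iff.2 (h2 k))
    ((h3 k).trans (hε1 k)) hμ0 Z.hμ1
  have hn : Tendsto n atTop atTop := by
    refine tendsto_atTop.2 fun N => ?_
    filter_upwards [hε.eventually (gt_mem_nhds (pow_pos hμ0 (N + 1)))] with k hk
    have := (pow_lt_pow_iff_right_of_lt_one₀ hμ0 Z.hμ1).1 ((hn1 k).trans ((h3 k).trans_lt hk))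
    omega
  have hmem : ∀ k, (Z.μ ^ n k)⁻¹ * τ k 0 ∈ closedBall (0 : ℂ) 1 \ ball 0 ‖Z.μ‖ := fun k => by
    have hp : 0 < ‖Z.μ‖ ^ n k := pow_pos hμ0 _
    simp only [Set.mem_sdiff, mem_closedBall_zero_iff, mem_ball_zero_iff, norm_mul, norm_inv,
      norm_pow, not_lt]
    constructor
    · rw [inv_mul_le_iff₀ hp, mul_one]
      exact hn2 k
    · rw [le_inv_mul_iff₀ hp, ← pow_succ]
      exact (hn1 k).le
  obtain ⟨b, hb, φ, hφ, hlim⟩ :=
    ((isCompact_closedBall (0 : ℂ) 1).diff isOpen_ball).tendsto_subseq hmem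
  refine ⟨b, ?_, fun z => ?_⟩
  · rintro rfl
    exact hb.2 (mem_ball_self hμ0)
  have hder : Tendsto (fun k => deriv (τ k) 0) atTop (𝓝 1) := by
    rw [tendsto_iff_norm_sub_tendsto_zero]
    have t : Tendsto (fun k : ℕ => 2 * (1 / ((k : ℝ) + 1)) / ρ) atTop (𝓝 0) := by
      simpa using (hε.const_mul 2).div_const ρ
    refine squeeze_zero (fun _ => norm_nonneg _) (fun k => ?_) t
    have := Complex.norm_deriv_le_div_of_mapsTo_ball (f := fun w => τ k w - w) (c := 0)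
      (R₂ := 2 * (1 / ((k : ℝ) + 1)))
      (fun w hw =>
        ((h1 k w hw).1.1.differentiableAt.sub differentiableAt_id).differentiableWithinAt)
      (fun w hw => by
        rw [mem_closedBall, dist_eq_norm]
        linarith [norm_sub_le (τ k w - w) (τ k 0 - 0), (h1 k w hw).2,
          (h1 k 0 (mem_ball_self hρ)).2]) hρ
    have e : deriv (fun w => τ k w - w) 0 = deriv (τ k) 0 - 1 :=
      ((h1 k 0 (mem_ball_self hρ)).1.1.differentiableAt.hasDerivAt.sub (hasDerivAt_id 0)).deriv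
    rwa [e] at this
  have := zoom (Z := Z) (l := atTop) (τ := fun k => τ (φ k)) (n := fun k => n (φ k))
    (B := ρ + 1) hρ (hn.comp hφ.tendsto_atTop)
    (Eventually.of_forall fun k w hw => ⟨(h1 _ w hw).1, by
      have a1 := (h1 (φ k) w hw).2.trans (hε1 _)
      have a2 : ‖τ (φ k) w‖ ≤ ‖τ (φ k) w - w‖ + ‖w‖ := by
        simpa using norm_add_le (τ (φ k) w - w) w
      linarith [mem_ball_zero_iff.1 hw]⟩) hlim (hder.comp hφ.tendsto_atTop) z
  simpa using this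

/-- The group is stable under division by derivatives of symmetries. -/
lemma Gam_div {c : ℝ} {f : ℂ → ℂ} (hc : 0 < c) (hf : Z.S c f 0) (hd : deriv f 0 ≠ 0) {s : ℂ}
    (hs : s ∈ Z.Gam) : (deriv f 0)⁻¹ * s ∈ Z.Gam := by
  obtain ⟨g, hg, hg0, hgd, -, hgr⟩ := exists_local_inverse hf.1 hd
  have hSg : Z.S c⁻¹ g (f 0) := S.inv (f := f) (by rwa [hg0]) hc.ne' hg hgr
  have hb : ∀ᶠ w in 𝓝 (f 0), ‖g w‖ ≤ 1 := by
    have := hg.continuousAt.norm.eventually
      (ge_mem_nhds (show ‖g (f 0)‖ < 1 by simp [hg0]))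
    exact this
  obtain ⟨δ, hδ, hδ'⟩ := Metric.eventually_nhds_iff_ball.1 (hSg.eventually.and hb)
  obtain ⟨ρ, hρ, hρ'⟩ := Metric.eventually_nhds_iff_ball.1 (hf.eventually.and
    (hf.1.continuousAt.eventually (ball_mem_nhds (f 0) (half_pos hδ))))
  have hs0 : Tendsto (fun k : ℕ => Z.μ ^ k * s) atTop (𝓝 0) := by
    simpa using Z.tend_pow.mul_const s
  have hs1 : Tendsto (fun k : ℕ => f 0 + Z.μ ^ k * s) atTop (𝓝 (f 0)) := by
    simpa using hs0.const_add (f 0)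
  intro z
  have := zoom (Z := Z) (l := atTop) (τ := fun (k : ℕ) ξ => g (f ξ + Z.μ ^ k * s))
    (n := fun k => k) (B := 1) (b := (deriv f 0)⁻¹ * s) (m := 1) hρ tendsto_id ?_ ?_ ?_ z
  · simpa using this
  · filter_upwards [hs0.eventually (ball_mem_nhds 0 (half_pos hδ))] with k hk w hw
    obtain ⟨a1, a2⟩ := hρ' w hw
    have a3 : f w + Z.μ ^ k * s ∈ ball (f 0) δ := by
      rw [mem_ball_iff_norm]
      rw [dist_eq_norm] at a2
      rw [dist_zero_right] at hk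
      have e : f w + Z.μ ^ k * s - f 0 = (f w - f 0) + Z.μ ^ k * s := by ring
      rw [e]
      linarith [norm_add_le (f w - f 0) (Z.μ ^ k * s)]
    refine ⟨?_, (hδ' _ a3).2⟩
    have b1 := S.comp (Gam_pow hs k _) a1
    have b2 := S.comp (f := fun ξ => f ξ + Z.μ ^ k * s) (hδ' _ a3).1 b1
    have e : c⁻¹ * (1 * c) = 1 := by field_simp
    rwa [e] at b2
  · have d1 : HasDerivAt (fun t : ℂ => f 0 + t * s) s 0 := by
      simpa using ((hasDerivAt_id (0 : ℂ)).mul_const s).const_add (f 0)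
    have d2 : HasDerivAt g (deriv f 0)⁻¹ (f 0 + 0 * s) := by
      rw [← hgd]
      simpa using hg.differentiableAt.hasDerivAt
    have d3 := (HasDerivAt.comp (0 : ℂ) (h := fun t : ℂ => f 0 + t * s) d2 d1).tendsto_slope_zero
    have hp : Tendsto (fun j : ℕ => Z.μ ^ j) atTop (𝓝[≠] 0) :=
      tendsto_nhdsWithin_iff.2 ⟨Z.tend_pow, Eventually.of_forall fun j => pow_ne_zero _ Z.hμ⟩
    refine (d3.comp hp).congr fun k => ?_
    simp [hg0]
  · have c1 : Tendsto (fun k : ℕ => deriv g (f 0 + Z.μ ^ k * s) * deriv f 0) atTop (𝓝 1) := by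
      have := (hg.deriv.continuousAt.tendsto.comp hs1).mul_const (deriv f 0)
      rwa [hgd, inv_mul_cancel₀ hd] at this
    refine c1.congr' ?_
    filter_upwards [hs1.eventually hg.eventually_analyticAt] with k hk
    exact (HasDerivAt.comp (0 : ℂ) (h := fun ξ => f ξ + Z.μ ^ k * s)
      hk.differentiableAt.hasDerivAt
      (hf.1.differentiableAt.hasDerivAt.add_const _)).deriv.symm

lemma S.shift {c : ℝ} {f : ℂ → ℂ} {a : ℂ} (hf : Z.S c f a) (ha : a ∈ Z.Gam) :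
    Z.S c (fun ξ => f (ξ + a)) 0 := by
  have := S.comp (f := fun ξ => ξ + a) (z := 0) (by simpa using hf) (ha 0)
  rwa [mul_one] at this

lemma norm_deriv_eq {c : ℝ} {f : ℂ → ℂ} {a : ℂ} (hc : 0 < c) (h0 : Z.S c f 0) (hf : Z.S c f a)
    (hd : deriv f a ≠ 0) (ha : a ∈ Z.Gam) (hs : f a - f 0 ∈ Z.Gam) :
    ‖deriv f a‖ = ‖deriv f 0‖ := by
  obtain ⟨g, hg, hg0, hgd, -, hgr⟩ := exists_local_inverse hf.1 hd
  have hSg : Z.S c⁻¹ g (f a) := S.inv (f := f) (by rwa [hg0]) hc.ne' hg hgr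
  have e0 : f 0 + (f a - f 0) = f a := by ring
  have b1 := S.comp (hs _) h0
  have b2 := S.comp (f := fun ξ => f ξ + (f a - f 0)) (g := g) (by simpa only [e0] using hSg) b1
  have b3 := S.comp (f := fun ξ => g (f ξ + (f a - f 0))) (Z.Gam.neg_mem ha _) b2
  have e : 1 * (c⁻¹ * (1 * c)) = 1 := by field_simp
  rw [e] at b3
  have b4 := fix_unimod b3 (by simp only [e0, hg0]; ring)
  have d2 : HasDerivAt g (deriv f a)⁻¹ (f 0 + (f a - f 0)) := by
    rw [← hgd, e0]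
    exact hg.differentiableAt.hasDerivAt
  have d3 := ((HasDerivAt.comp (0 : ℂ) (h := fun ξ => f ξ + (f a - f 0)) d2
    (h0.1.differentiableAt.hasDerivAt.add_const _)).add_const (-a)).deriv
  have d4 : ‖(deriv f a)⁻¹ * deriv f 0‖ = 1 := by rw [← d3]; exact b4
  rw [norm_mul, norm_inv, inv_mul_eq_one₀ (norm_ne_zero_iff.2 hd)] at d4
  exact d4

lemma deriv_const {c : ℝ} {f : ℂ → ℂ} {u : ℂ} (hu : u ≠ 0) (hl : ∀ t : ℝ, (t : ℂ) * u ∈ Z.Gam)
    (hc : 0 < c) (hf : Z.S c f 0) (hd : deriv f 0 ≠ 0) :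
    ∀ᶠ z in 𝓝 (0 : ℂ), deriv f z = deriv f 0 := by
  have hda : AnalyticAt ℂ (deriv f) 0 := hf.1.deriv
  have hev : ∀ᶠ z in 𝓝 (0 : ℂ), Z.S c f z ∧ deriv f z ≠ 0 :=
    hf.eventually.and (hda.continuousAt.eventually_ne hd)
  by_cases hall : ∀ w, w ∈ Z.Gam
  · refine Complex.eventually_eq_of_isLocalMax_norm
      (hda.eventually_analyticAt.mono fun z hz => hz.differentiableAt) ?_
    filter_upwards [hev] with z hz
    exact (norm_deriv_eq hc hf hz.1 hz.2 (hall _) (hall _)).le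
  have hreal : ∀ a, a ∈ Z.Gam → Z.S c f a → deriv f a ≠ 0 → (deriv f a).im = 0 := by
    intro a ha h1 h2
    by_contra him
    apply hall
    intro w
    have e : deriv (fun ξ => f (ξ + a)) 0 = deriv f a := by simp [deriv_comp_add_const]
    have h3 : ∀ t : ℝ, (deriv f a)⁻¹ * ((t : ℂ) * u) ∈ Z.Gam := fun t => by
      have := Gam_div hc (h1.shift ha) (by rwa [e]) (hl t)
      rwa [e] at this
    set p : ℂ := deriv f a with hp
    set q : ℂ := w * p / u with hq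
    have e2 : w = ((q.im / p.im : ℝ) : ℂ) * u +
        p⁻¹ * (((q.re - q.im / p.im * p.re : ℝ) : ℂ) * u) := by
      have e3 : q = ((q.im / p.im : ℝ) : ℂ) * p + ((q.re - q.im / p.im * p.re : ℝ) : ℂ) := by
        apply Complex.ext
        · simp
        · simp
          field_simp
      have e4 : w = q * u / p := by
        rw [hq]
        field_simp
      calc w = q * u / p := e4
        _ = (((q.im / p.im : ℝ) : ℂ) * p + ((q.re - q.im / p.im * p.re : ℝ) : ℂ)) * u / p := by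
          rw [← e3]
        _ = _ := by field_simp
    rw [e2]
    exact Z.Gam.add_mem (hl _) (h3 _)
  have hcu : Tendsto (fun t : ℝ => (t : ℂ) * u) (𝓝 0) (𝓝 0) := by
    have : Continuous fun t : ℝ => (t : ℂ) * u := by fun_prop
    simpa using this.tendsto 0
  have hnear : ∀ᶠ z in 𝓝 (0 : ℂ), deriv f z + deriv f 0 ≠ 0 :=
    (hda.continuousAt.add continuousAt_const).eventually_ne (by
      change deriv f 0 + deriv f 0 ≠ 0
      rw [← two_mul]
      exact mul_ne_zero two_ne_zero hd)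
  obtain ⟨δ, hδ, hδ'⟩ := Metric.eventually_nhds_iff_ball.1 (hcu.eventually (hev.and hnear))
  have hφ : ∀ t ∈ ball (0 : ℝ) δ, HasDerivAt (fun t : ℝ => (f ((t : ℂ) * u) / u).im) 0 t := by
    intro t ht
    obtain ⟨⟨a1, a2⟩, -⟩ := hδ' t ht
    have d1 : HasDerivAt (fun ξ : ℂ => f (ξ * u) / u) (deriv f ((t : ℂ) * u)) (t : ℂ) := by
      have := (HasDerivAt.comp (t : ℂ) (h := fun ξ : ℂ => ξ * u) a1.1.differentiableAt.hasDerivAt
        ((hasDerivAt_id (t : ℂ)).mul_const u)).div_const u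
      rw [one_mul, mul_div_cancel_right₀ _ hu] at this
      exact this
    have d2 := (Complex.imCLM.hasFDerivAt.comp_hasDerivAt t d1.comp_ofReal)
    rw [Complex.imCLM_apply, hreal _ (hl t) a1 a2] at d2
    exact d2
  have hconst : ∀ t ∈ ball (0 : ℝ) δ,
      (f ((t : ℂ) * u) / u).im = (f (((0 : ℝ) : ℂ) * u) / u).im := fun t ht =>
    isOpen_ball.is_const_of_deriv_eq_zero (convex_ball _ _).isPreconnected
      (fun t ht => (hφ t ht).differentiableAt.differentiableWithinAt)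
      (fun t ht => (hφ t ht).deriv) ht (mem_ball_self hδ)
  have hz0 := hreal 0 Z.Gam.zero_mem hf hd
  have heq : ∀ t ∈ ball (0 : ℝ) δ, deriv f ((t : ℂ) * u) = deriv f 0 := by
    intro t ht
    obtain ⟨⟨a1, a2⟩, a3⟩ := hδ' t ht
    have a4 : f ((t : ℂ) * u) - f 0 ∈ Z.Gam := by
      have b1 : ((f ((t : ℂ) * u) - f 0) / u).im = 0 := by
        have := hconst t ht
        rw [Complex.ofReal_zero, zero_mul] at this
        rw [sub_div, Complex.sub_im, this, sub_self]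
      have b2 : (f ((t : ℂ) * u) - f 0) / u = (((f ((t : ℂ) * u) - f 0) / u).re : ℂ) :=
        Complex.ext (by simp) (by rw [b1]; simp)
      have b3 := hl ((f ((t : ℂ) * u) - f 0) / u).re
      rwa [← b2, div_mul_cancel₀ _ hu] at b3
    have a5 := norm_deriv_eq hc hf a1 a2 (hl t) a4
    have a6 := hreal _ (hl t) a1 a2
    have a7 : (deriv f ((t : ℂ) * u) - deriv f 0) * (deriv f ((t : ℂ) * u) + deriv f 0) = 0 := by
      have b1 : ‖deriv f ((t : ℂ) * u)‖ ^ 2 = ‖deriv f 0‖ ^ 2 := by rw [a5]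
      rw [Complex.sq_norm, Complex.sq_norm, Complex.normSq_apply, Complex.normSq_apply, a6,
        hz0] at b1
      apply Complex.ext
      · rw [Complex.mul_re, Complex.sub_re, Complex.add_re, Complex.sub_im, Complex.add_im, a6, hz0,
          Complex.zero_re]
        linarith
      · simp [a6, hz0]
    exact sub_eq_zero.1 ((mul_eq_zero.1 a7).resolve_right a3)
  refine (hda.frequently_eq_iff_eventually_eq analyticAt_const).1 ?_
  have hp : Tendsto (fun t : ℝ => (t : ℂ) * u) (𝓝[≠] 0) (𝓝[≠] 0) := by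
    refine tendsto_nhdsWithin_iff.2 ⟨hcu.mono_left nhdsWithin_le_nhds, ?_⟩
    filter_upwards [self_mem_nhdsWithin] with t ht
    exact mul_ne_zero (by exact_mod_cast ht) hu
  refine hp.frequently (Eventually.frequently ?_)
  filter_upwards [mem_nhdsWithin_of_mem_nhds (ball_mem_nhds (0 : ℝ) hδ)] with t ht
  exact heq t ht

end Zm

end CZoomAux

open CZoomAux CZoomAux.Zm in
theorem rigid_of_wiggle {v : ℂ → ℝ} {r D c : ℝ} {μ : ℂ} {θ : ℂ → ℂ} (hr : 0 < r)
    (hv : ContinuousOn v (ball 0 r)) (hμ : μ ≠ 0) (hμ1 : ‖μ‖ < 1) (hD : 0 < D)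
    (hs : ∀ ζ ∈ ball (0 : ℂ) r, HarmAt (fun ξ => D * v (μ * ξ) - v ξ) ζ) (h0 : ¬ HarmAt v 0)
    (hc : 0 < c) (hθ : Sym v c θ) (hθ0 : θ 0 ≠ 0) (hθr : θ 0 ∈ ball (0 : ℂ) r)
    (hw : Wiggle v) : Rigid v r := by
  let Z : Zm := ⟨v, r, D, μ, hr, hv, hμ, hμ1, hD, hs, h0⟩
  have hS : ∀ {c : ℝ} {f : ℂ → ℂ}, f 0 ∈ ball (0 : ℂ) r → Sym v c f → Z.S c f 0 :=
    fun h1 h2 => (S_iff_zero (Z := Z) h2.1 (by simpa using hr) (mem_ball_zero_iff.1 h1)).2 h2.2.2
  obtain ⟨ρ, hρ, hm⟩ := wiggle_move (Z := Z) hc (hS hθr hθ) hθ.2.1 hθ0 hw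
  obtain ⟨b, hb0, hb⟩ := exists_Gam hρ hm
  obtain ⟨u, hu, hl⟩ := exists_line Z.Gam Gam_closed (b := fun k => Z.μ ^ k * b)
    (Gam_pow hb) (fun k => mul_ne_zero (pow_ne_zero _ hμ) hb0)
    (by simpa using Z.tend_pow.mul_const b)
  intro c' f hc' hf0 hf
  have h1 := deriv_const hu hl hc' (hS hf0 hf) hf.2.1
  obtain ⟨δ, hδ, hδ'⟩ := Metric.eventually_nhds_iff_ball.1 (h1.and hf.1.eventually_analyticAt)
  obtain ⟨a, ha⟩ := isOpen_ball.exists_eq_add_of_deriv_eq (f := f)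
    (g := fun ζ => deriv f 0 * ζ) (convex_ball (0 : ℂ) δ).isPreconnected
    (fun z hz => (hδ' z hz).2.differentiableAt.differentiableWithinAt) (by fun_prop)
    (fun z hz => by
      rw [(hδ' z hz).1]
      simp)
  exact ⟨deriv f 0, a, by
    filter_upwards [ball_mem_nhds (0 : ℂ) hδ] with z hz
    exact ha hz⟩

end Pool.Agent.MP_3827f0_nt.H92
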