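import Pool.Agent.MP_3827f0_nt.H92.CHarm

/-! Germs of symmetries of a function that is self similar up to harmonic functions. -/

set_option autoImplicit false

namespace Pool.Agent.MP_3827f0_nt.H92

open Metric Filter Topology

namespace CZoomAux

/-- A continuous function on a disc that is self similar up to harmonic functions. -/
structure Zm where
  v : ℂ → ℝ
  r : ℝ
  D : ℝ
  μ : ℂ
  hr : 0 < r
  hv : ContinuousOn v (ball 0 r)
  hμ : μ ≠ 0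
  hμ1 : ‖μ‖ < 1
  hD : 0 < D
  hs : ∀ ζ ∈ ball (0 : ℂ) r, HarmAt (fun ξ => D * v (μ * ξ) - v ξ) ζ
  h0 : ¬ HarmAt v 0

namespace Zm

variable (Z : Zm)

/-- The rescaled functions. -/
noncomputable def W (n : ℕ) (ξ : ℂ) : ℝ := Z.D ^ n * Z.v (Z.μ ^ n * ξ)

/-- The germ of f at z multiplies the function by c up to harmonic functions. -/
def S (c : ℝ) (f : ℂ → ℂ) (z : ℂ) : Prop :=
  AnalyticAt ℂ f z ∧ ∀ᶠ n in atTop, HarmAt (fun ξ => Z.W n (f ξ) - c * Z.W n ξ) z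

lemma tend_pow : Tendsto (fun n : ℕ => Z.μ ^ n) atTop (𝓝 0) :=
  tendsto_pow_atTop_nhds_zero_of_norm_lt_one Z.hμ1

lemma small (z : ℂ) : ∀ᶠ n in atTop, ‖Z.μ ^ n * z‖ < Z.r := by
  have h : Tendsto (fun n : ℕ => ‖Z.μ ^ n * z‖) atTop (𝓝 0) := by
    simpa using (Z.tend_pow.mul_const z).norm
  exact h.eventually (gt_mem_nhds Z.hr)

lemma small_mono {n m : ℕ} (h : n ≤ m) {z : ℂ} (hz : ‖Z.μ ^ n * z‖ < Z.r) :
    ‖Z.μ ^ m * z‖ < Z.r := by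
  refine lt_of_le_of_lt ?_ hz
  rw [norm_mul, norm_mul, norm_pow, norm_pow]
  exact mul_le_mul_of_nonneg_right
    (pow_le_pow_of_le_one (norm_nonneg _) Z.hμ1.le h) (norm_nonneg _)

lemma step (n : ℕ) {z : ℂ} (hz : ‖Z.μ ^ n * z‖ < Z.r) :
    HarmAt (fun ξ => Z.W (n + 1) ξ - Z.W n ξ) z := by
  have h1 := Z.hs (Z.μ ^ n * z) (mem_ball_zero_iff.2 hz)
  have h2 : AnalyticAt ℂ (fun ξ : ℂ => Z.μ ^ n * ξ) z := by fun_prop
  have h3 := (HarmAt.comp (f := fun ξ : ℂ => Z.μ ^ n * ξ) h2 h1).const_mul (Z.D ^ n)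
  refine h3.congr (Eventually.of_forall fun w => ?_)
  have : Z.μ ^ (n + 1) * w = Z.μ * (Z.μ ^ n * w) := by ring
  simp only [W, this]
  ring

lemma diff {n m : ℕ} (h : n ≤ m) {z : ℂ} (hz : ‖Z.μ ^ n * z‖ < Z.r) :
    HarmAt (fun ξ => Z.W m ξ - Z.W n ξ) z := by
  induction m, h using Nat.le_induction with
  | base => simpa using harmAt_const 0 z
  | succ m hm ih =>
    refine ((Z.step m (Z.small_mono hm hz)).add ih).congr (Eventually.of_forall fun w => ?_)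
    ring

variable {Z}

lemma S_iff {c : ℝ} {f : ℂ → ℂ} {z : ℂ} (n : ℕ) (hf : AnalyticAt ℂ f z)
    (hz : ‖Z.μ ^ n * z‖ < Z.r) (hfz : ‖Z.μ ^ n * f z‖ < Z.r) :
    Z.S c f z ↔ HarmAt (fun ξ => Z.W n (f ξ) - c * Z.W n ξ) z := by
  have key : ∀ m, n ≤ m →
      HarmAt (fun ξ => (Z.W m (f ξ) - Z.W n (f ξ)) - c * (Z.W m ξ - Z.W n ξ)) z := fun m hm =>
    (HarmAt.comp (u := fun ξ => Z.W m ξ - Z.W n ξ) hf (Z.diff hm hfz)).sub
      ((Z.diff hm hz).const_mul c)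
  constructor
  · rintro ⟨-, h⟩
    obtain ⟨m, hm, hnm⟩ := (h.and (eventually_ge_atTop n)).exists
    refine (hm.sub (key m hnm)).congr (Eventually.of_forall fun w => ?_)
    ring
  · intro h
    refine ⟨hf, ?_⟩
    filter_upwards [eventually_ge_atTop n] with m hm
    refine (h.add (key m hm)).congr (Eventually.of_forall fun w => ?_)
    ring

lemma S_iff_zero {c : ℝ} {f : ℂ → ℂ} {z : ℂ} (hf : AnalyticAt ℂ f z)
    (hz : ‖z‖ < Z.r) (hfz : ‖f z‖ < Z.r) :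
    Z.S c f z ↔ HarmAt (fun ξ => Z.v (f ξ) - c * Z.v ξ) z := by
  rw [S_iff 0 hf (by simpa using hz) (by simpa using hfz)]
  simp [W]

lemma S.congr {c : ℝ} {f g : ℂ → ℂ} {z : ℂ} (h : Z.S c f z) (e : ∀ᶠ w in 𝓝 z, g w = f w) :
    Z.S c g z := by
  refine ⟨h.1.congr (e.mono fun w hw => hw.symm), h.2.mono fun n hn => hn.congr ?_⟩
  filter_upwards [e] with w hw
  rw [hw]

lemma S.comp {c c' : ℝ} {f g : ℂ → ℂ} {z : ℂ} (hg : Z.S c' g (f z)) (hf : Z.S c f z) :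
    Z.S (c' * c) (fun ξ => g (f ξ)) z := by
  refine ⟨hg.1.comp hf.1, ?_⟩
  filter_upwards [hf.2, hg.2] with n h1 h2
  refine ((HarmAt.comp (u := fun ξ => Z.W n (g ξ) - c' * Z.W n ξ) hf.1 h2).add
    (h1.const_mul c')).congr (Eventually.of_forall fun w => ?_)
  ring

lemma S.inv {c : ℝ} {f g : ℂ → ℂ} {w : ℂ} (h : Z.S c f (g w)) (hc : c ≠ 0)
    (hg : AnalyticAt ℂ g w) (e : ∀ᶠ ξ in 𝓝 w, f (g ξ) = ξ) : Z.S c⁻¹ g w := by
  refine ⟨hg, h.2.mono fun n hn => ?_⟩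
  refine ((HarmAt.comp (u := fun ξ => Z.W n (f ξ) - c * Z.W n ξ) hg hn).const_mul
    (-c⁻¹)).congr ?_
  filter_upwards [e] with ξ hξ
  rw [hξ]
  field_simp
  ring

lemma S.eventually {c : ℝ} {f : ℂ → ℂ} {z : ℂ} (h : Z.S c f z) : ∀ᶠ w in 𝓝 z, Z.S c f w := by
  obtain ⟨n, h1, h2⟩ := ((Z.small z).and (Z.small (f z))).exists
  have h3 := (S_iff n h.1 h1 h2).1 h
  have c1 : ContinuousAt (fun w => ‖Z.μ ^ n * w‖) z := by fun_prop
  have c2 : ContinuousAt (fun w => ‖Z.μ ^ n * f w‖) z :=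
    (continuousAt_const.mul h.1.continuousAt).norm
  filter_upwards [h3.eventually, h.1.eventually_analyticAt, c1.eventually (gt_mem_nhds h1),
    c2.eventually (gt_mem_nhds h2)] with w a1 a2 a3 a4
  exact (S_iff n a2 a3 a4).2 a1

variable (Z)

lemma S_id (z : ℂ) : Z.S 1 (fun ξ => ξ) z :=
  ⟨analyticAt_id, Eventually.of_forall fun n => by simpa using harmAt_const 0 z⟩

lemma S_pow (k : ℕ) (z : ℂ) : Z.S (Z.D ^ k)⁻¹ (fun ξ => Z.μ ^ k * ξ) z := by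
  refine ⟨by fun_prop, ?_⟩
  filter_upwards [Z.small z] with n hn
  refine ((Z.diff (Nat.le_add_right n k) hn).const_mul (Z.D ^ k)⁻¹).congr
    (Eventually.of_forall fun w => ?_)
  have e : Z.μ ^ n * (Z.μ ^ k * w) = Z.μ ^ (n + k) * w := by ring
  have := Z.hD.ne'
  simp only [W, e]
  field_simp
  ring

lemma S_pow_inv (k : ℕ) (z : ℂ) : Z.S (Z.D ^ k) (fun ξ => (Z.μ ^ k)⁻¹ * ξ) z := by
  have h := S.inv (g := fun ξ => (Z.μ ^ k)⁻¹ * ξ) (w := z) (Z.S_pow k _)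
    (inv_ne_zero (pow_ne_zero _ Z.hD.ne')) (by fun_prop)
    (Eventually.of_forall fun ξ => by
      have := pow_ne_zero k Z.hμ
      field_simp)
  rwa [inv_inv] at h

variable {Z}

/-- Conjugation by powers of the multiplier. -/
lemma S.conj {τ : ℂ → ℂ} {z : ℂ} (k : ℕ) (h : Z.S 1 τ (Z.μ ^ k * z)) :
    Z.S 1 (fun ξ => (Z.μ ^ k)⁻¹ * τ (Z.μ ^ k * ξ)) z := by
  have h1 := S.comp (f := fun ξ => Z.μ ^ k * ξ) h (Z.S_pow k z)
  have h2 := S.comp (f := fun ξ => τ (Z.μ ^ k * ξ)) (Z.S_pow_inv k _) h1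
  have e : Z.D ^ k * (1 * (Z.D ^ k)⁻¹) = 1 := by
    have := pow_ne_zero k Z.hD.ne'
    field_simp
  rwa [e] at h2

/-- Uniform limits of symmetries are symmetries. -/
lemma S_limit {ι : Type} {l : Filter ι} [l.NeBot] {σ : ι → ℂ → ℂ} {A : ℂ → ℂ} {R B : ℝ}
    (hA : ∀ z ∈ ball (0 : ℂ) R, AnalyticAt ℂ A z) (hB : ∀ z ∈ ball (0 : ℂ) R, ‖A z‖ ≤ B)
    (hσ : ∀ᶠ k in l, ∀ z ∈ ball (0 : ℂ) R, Z.S 1 (σ k) z)
    (hl : TendstoUniformlyOn σ A l (ball 0 R)) : ∀ z ∈ ball (0 : ℂ) R, Z.S 1 A z := by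
  set B' : ℝ := max (B + 1) |R| with hB'
  have hB0 : 0 ≤ B' := le_max_of_le_right (abs_nonneg R)
  obtain ⟨N, hN⟩ := (Z.small (B' : ℂ)).exists
  have hin : ∀ w : ℂ, ‖w‖ ≤ B' → ‖Z.μ ^ N * w‖ < Z.r := fun w hw => by
    refine lt_of_le_of_lt ?_ hN
    rw [norm_mul, norm_mul, Complex.norm_real, Real.norm_of_nonneg hB0]
    exact mul_le_mul_of_nonneg_left hw (norm_nonneg _)
  have hz : ∀ z ∈ ball (0 : ℂ) R, ‖z‖ ≤ B' := fun z hz =>
    ((mem_ball_zero_iff.1 hz).le.trans (le_abs_self R)).trans (le_max_right _ _)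
  have hAz : ∀ z ∈ ball (0 : ℂ) R, ‖A z‖ ≤ B' := fun z hz =>
    ((hB z hz).trans (by linarith)).trans (le_max_left _ _)
  have hcont : ContinuousOn (Z.W N) (closedBall 0 B') := by
    refine continuousOn_const.mul (Z.hv.comp (by fun_prop) fun w hw => ?_)
    exact mem_ball_zero_iff.2 (hin w (mem_closedBall_zero_iff.1 hw))
  have huc := (isCompact_closedBall (0 : ℂ) B').uniformContinuousOn_of_continuous hcont
  have hnear : ∀ᶠ k in l, ∀ z ∈ ball (0 : ℂ) R, ‖σ k z‖ ≤ B' := by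
    filter_upwards [Metric.tendstoUniformlyOn_iff.1 hl 1 one_pos] with k hk z hz
    have h1 := hk z hz
    rw [dist_eq_norm] at h1
    have h2 : ‖σ k z‖ ≤ ‖A z‖ + ‖A z - σ k z‖ := by
      simpa using norm_sub_le (A z) (A z - σ k z)
    exact (h2.trans (by linarith [hB z hz])).trans (le_max_left (B + 1) |R|)
  have hlim : TendstoUniformlyOn (fun k ξ => Z.W N (σ k ξ) - 1 * Z.W N ξ)
      (fun ξ => Z.W N (A ξ) - 1 * Z.W N ξ) l (ball 0 R) := by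
    rw [Metric.tendstoUniformlyOn_iff]
    intro ε hε
    obtain ⟨δ, hδ, hd⟩ := Metric.uniformContinuousOn_iff.1 huc ε hε
    filter_upwards [Metric.tendstoUniformlyOn_iff.1 hl δ hδ, hnear] with k h1 h2 z hz
    rw [dist_sub_right]
    exact hd _ (mem_closedBall_zero_iff.2 (hAz z hz)) _ (mem_closedBall_zero_iff.2 (h2 z hz))
      (h1 z hz)
  have hh := harm_limit (l := l) (w := fun k ξ => Z.W N (σ k ξ) - 1 * Z.W N ξ) ?_ hlim
  · intro z hz'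
    exact (S_iff N (hA z hz') (hin _ (hz z hz')) (hin _ (hAz z hz'))).2 (hh z hz')
  · filter_upwards [hσ, hnear] with k h1 h2 z hz'
    exact (S_iff N (h1 z hz').1 (hin _ (hz z hz')) (hin _ (h2 z hz'))).1 (h1 z hz')

end Zm

/-- Second order Schwarz estimate. -/
lemma taylor {τ : ℂ → ℂ} {ρ B : ℝ} (hd : DifferentiableOn ℂ τ (ball 0 ρ))
    (hB : ∀ z ∈ ball (0 : ℂ) ρ, ‖τ z‖ ≤ B) {w : ℂ} (hw : w ∈ ball (0 : ℂ) ρ) :
    ‖τ w - τ 0 - deriv τ 0 * w‖ ≤ 4 * B * (‖w‖ / ρ) ^ 2 := by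
  have hρ : 0 < ρ := nonempty_ball.mp ⟨_, hw⟩
  have h0 : (0 : ℂ) ∈ ball (0 : ℂ) ρ := mem_ball_self hρ
  have hm : Set.MapsTo τ (ball 0 ρ) (closedBall (τ 0) (2 * B)) := fun z hz => by
    rw [mem_closedBall, dist_eq_norm]
    linarith [norm_sub_le (τ z) (τ 0), hB z hz, hB 0 h0]
  have h1 := Complex.norm_deriv_le_div_of_mapsTo_ball hd hm hρ
  have hda : HasDerivAt τ (deriv τ 0) 0 := (hd.differentiableAt (ball_mem_nhds _ hρ)).hasDerivAt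
  have h2 := Complex.dist_le_mul_div_pow_of_mapsTo_ball_of_isLittleO (n := 1) (R₂ := 4 * B)
    (f := fun z => τ z - deriv τ 0 * z) (c := 0) (hd.sub (by fun_prop)) ?_ ?_ hw
  · rw [dist_eq_norm, dist_zero_right] at h2
    refine le_trans (le_of_eq ?_) h2
    exact congrArg _ (by ring)
  · intro z hz
    rw [mem_closedBall, dist_eq_norm]
    have h3 := hm hz
    rw [mem_closedBall, dist_eq_norm] at h3
    have h4 : ‖deriv τ 0 * z‖ ≤ 2 * B := by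
      rw [norm_mul]
      calc ‖deriv τ 0‖ * ‖z‖ ≤ 2 * B / ρ * ρ :=
            mul_le_mul h1 (mem_ball_zero_iff.1 hz).le (norm_nonneg _) ((norm_nonneg _).trans h1)
        _ = 2 * B := by field_simp
    have e : τ z - deriv τ 0 * z - (τ 0 - deriv τ 0 * 0) = (τ z - τ 0) - deriv τ 0 * z := by ring
    rw [e]
    linarith [norm_sub_le (τ z - τ 0) (deriv τ 0 * z)]
  · have h5 := hda.isLittleO
    simp only [pow_one, Asymptotics.isLittleO_norm_right]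
    refine h5.congr_left fun z => ?_
    simp only [smul_eq_mul]
    ring

namespace Zm

variable {Z : Zm}

/-- Zooming in at the origin. -/
lemma zoom {ι : Type} {l : Filter ι} [l.NeBot] {τ : ι → ℂ → ℂ} {n : ι → ℕ} {ρ B : ℝ} {b m : ℂ}
    (hρ : 0 < ρ) (hn : Tendsto n l atTop)
    (hτ : ∀ᶠ k in l, ∀ z ∈ ball (0 : ℂ) ρ, Z.S 1 (τ k) z ∧ ‖τ k z‖ ≤ B)
    (hb : Tendsto (fun k => (Z.μ ^ n k)⁻¹ * τ k 0) l (𝓝 b))
    (hm : Tendsto (fun k => deriv (τ k) 0) l (𝓝 m)) (z : ℂ) :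
    Z.S 1 (fun ξ => m * ξ + b) z := by
  set R : ℝ := ‖z‖ + 1 with hR
  have hR0 : 0 < R := by positivity
  have hp : Tendsto (fun k => ‖Z.μ ^ n k‖) l (𝓝 0) := by
    simpa using (Z.tend_pow.comp hn).norm
  have hsm : ∀ᶠ k in l, ∀ ξ ∈ ball (0 : ℂ) R, Z.μ ^ n k * ξ ∈ ball (0 : ℂ) ρ := by
    have : Tendsto (fun k => ‖Z.μ ^ n k‖ * R) l (𝓝 0) := by simpa using hp.mul_const R
    filter_upwards [this.eventually (gt_mem_nhds hρ)] with k hk ξ hξ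
    rw [mem_ball_zero_iff, norm_mul]
    exact lt_of_le_of_lt (mul_le_mul_of_nonneg_left (mem_ball_zero_iff.1 hξ).le (norm_nonneg _)) hk
  refine S_limit (l := l) (σ := fun k ξ => (Z.μ ^ n k)⁻¹ * τ k (Z.μ ^ n k * ξ)) (R := R)
    (B := ‖m‖ * R + ‖b‖) (fun _ _ => by fun_prop) (fun ξ hξ => ?_) ?_ ?_ z
    (mem_ball_zero_iff.2 (by linarith))
  · refine (norm_add_le _ _).trans (add_le_add_left ?_ _)
    rw [norm_mul]
    exact mul_le_mul_of_nonneg_left (mem_ball_zero_iff.1 hξ).le (norm_nonneg _)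
  · filter_upwards [hτ, hsm] with k h1 h2 ξ hξ
    exact S.conj _ (h1 _ (h2 ξ hξ)).1
  · rw [Metric.tendstoUniformlyOn_iff]
    intro ε hε
    have t1 : Tendsto (fun k => ‖(Z.μ ^ n k)⁻¹ * τ k 0 - b‖) l (𝓝 0) :=
      tendsto_iff_norm_sub_tendsto_zero.1 hb
    have t2 : Tendsto (fun k => ‖deriv (τ k) 0 - m‖) l (𝓝 0) :=
      tendsto_iff_norm_sub_tendsto_zero.1 hm
    have t3 : Tendsto (fun k => ‖Z.μ ^ n k‖ * (4 * |B| * (R / ρ) ^ 2) +
        (‖deriv (τ k) 0 - m‖ * R + ‖(Z.μ ^ n k)⁻¹ * τ k 0 - b‖)) l (𝓝 0) := by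
      simpa using (hp.mul_const (4 * |B| * (R / ρ) ^ 2)).add ((t2.mul_const R).add t1)
    filter_upwards [t3.eventually (gt_mem_nhds hε), hτ, hsm] with k h1 h2 h3 ξ hξ
    refine lt_of_le_of_lt ?_ h1
    have hq : Z.μ ^ n k ≠ 0 := pow_ne_zero _ Z.hμ
    have hq' : 0 < ‖Z.μ ^ n k‖ := norm_pos_iff.2 hq
    have hξR : ‖ξ‖ ≤ R := (mem_ball_zero_iff.1 hξ).le
    have h4 := taylor (τ := τ k) (B := |B|)
      (fun w hw => (h2 w hw).1.1.differentiableAt.differentiableWithinAt)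
      (fun w hw => (h2 w hw).2.trans (le_abs_self B)) (h3 ξ hξ)
    rw [dist_comm, dist_eq_norm]
    have e : (Z.μ ^ n k)⁻¹ * τ k (Z.μ ^ n k * ξ) - (m * ξ + b) =
        (Z.μ ^ n k)⁻¹ * (τ k (Z.μ ^ n k * ξ) - τ k 0 - deriv (τ k) 0 * (Z.μ ^ n k * ξ)) +
          ((deriv (τ k) 0 - m) * ξ + ((Z.μ ^ n k)⁻¹ * τ k 0 - b)) := by
      field_simp
      ring
    rw [e]
    refine (norm_add_le _ _).trans (add_le_add ?_ ((norm_add_le _ _).trans (add_le_add_left ?_ _)))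
    · rw [norm_mul, norm_inv, inv_mul_le_iff₀ hq']
      refine h4.trans ?_
      rw [norm_mul]
      have : (‖Z.μ ^ n k‖ * ‖ξ‖ / ρ) ^ 2 ≤ (‖Z.μ ^ n k‖ * R / ρ) ^ 2 := by gcongr
      calc 4 * |B| * (‖Z.μ ^ n k‖ * ‖ξ‖ / ρ) ^ 2 ≤ 4 * |B| * (‖Z.μ ^ n k‖ * R / ρ) ^ 2 := by gcongr
        _ = _ := by ring
    · rw [norm_mul]
      exact mul_le_mul_of_nonneg_left hξR (norm_nonneg _)

end Zm

end CZoomAux

end Pool.Agent.MP_3827f0_nt.H92
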