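import Mathlib

/-! Definitions for the uniform bound on common preperiodic points. -/

set_option autoImplicit false

namespace Pool.Agent.MP_3827f0_nt.H92

open MvPolynomial Filter Topology Metric

/-- Vectors in the plane. -/
abbrev V (R : Type) : Type := Fin 2 → R

/-- Pairs of binary polynomials. -/
abbrev PM (R : Type) [CommSemiring R] : Type := Fin 2 → MvPolynomial (Fin 2) R

/-- Two by two matrices. -/
abbrev Mat (R : Type) : Type := Matrix (Fin 2) (Fin 2) R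

section Alg
variable {R S : Type} [CommRing R] [CommRing S]

/-- The determinant of two vectors. -/
def wedge (X Y : V R) : R := X 0 * Y 1 - X 1 * Y 0

/-- The self map of the plane given by a pair of polynomials. -/
noncomputable def app (F : PM R) (Z : V R) : V R := fun i => eval Z (F i)

/-- Both components are forms of degree d. -/
def Hom (d : ℕ) (F : PM R) : Prop := ∀ i, (F i).IsHomogeneous d

/-- No common zero besides the origin. -/
def Nondeg (F : PM R) : Prop := ∀ Z, app F Z = 0 → Z = 0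

/-- The Jacobian determinant as a polynomial. -/
noncomputable def jacP (F : PM R) : MvPolynomial (Fin 2) R :=
  pderiv 0 (F 0) * pderiv 1 (F 1) - pderiv 1 (F 0) * pderiv 0 (F 1)

/-- The Jacobian determinant at a point. -/
noncomputable def jac (F : PM R) (Z : V R) : R := eval Z (jacP F)

/-- Base change of a map. -/
noncomputable def mapF (φ : R →+* S) (F : PM R) : PM S := fun i => map φ (F i)

/-- Base change of a vector. -/
def mapV (φ : R →+* S) (Z : V R) : V S := fun i => φ (Z i)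

/-- Composition. -/
noncomputable def comp (F G : PM R) : PM R := fun i => bind₁ G (F i)

/-- The linear map of a matrix. -/
noncomputable def lin (M : Mat R) : PM R := fun i => ∑ j, C (M i j) * X j

/-- Iterates. -/
noncomputable def itr (F : PM R) : ℕ → PM R
  | 0 => X
  | n + 1 => comp F (itr F n)

/-- Conjugation: the adjugate of M after F after M. -/
noncomputable def conj (M : Mat R) (F : PM R) : PM R := comp (lin M.adjugate) (comp F (lin M))

/-- Dehomogenization p (z, 1). -/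
noncomputable def deh (p : MvPolynomial (Fin 2) R) : Polynomial R := aeval ![Polynomial.X, 1] p

/-- The Wronskian of two polynomials in one variable. -/
noncomputable def wr (P Q : Polynomial R) : Polynomial R :=
  Polynomial.derivative P * Q - P * Polynomial.derivative Q

/-- A function on the plane given by a form of degree n. -/
def IsForm (n : ℕ) (φ : V R → R) : Prop :=
  ∃ p : MvPolynomial (Fin 2) R, p.IsHomogeneous n ∧ ∀ Z, φ Z = eval Z p

/-- The form φ vanishes to order exactly n along the line through X. -/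
def Mult (φ : V R → R) (X : V R) (n : ℕ) : Prop :=
  ∃ (m : ℕ) (ψ : V R → R), IsForm m ψ ∧ ψ X ≠ 0 ∧ ∀ Z, φ Z = wedge Z X ^ n * ψ Z

/-- Local degree e of F at the point X. -/
def Ram (F : PM R) (X : V R) (e : ℕ) : Prop := Mult (fun Z => wedge (app F Z) (app F X)) X e

/-- The preimages Ys of Y, with F (Ys j) = lam j Y. -/
def Fact (d : ℕ) (F : PM R) (Y : V R) (Ys : Fin d → V R) (lam : Fin d → R) : Prop :=
  (∀ Z, wedge (app F Z) Y = ∏ j, wedge Z (Ys j)) ∧ ∀ j, app F (Ys j) = lam j • Y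

/-- A map of degree d with resultant one. -/
def Normal (d : ℕ) (F : PM R) : Prop :=
  Hom d F ∧ ∀ Y, Y ≠ 0 → ∃ (Ys : Fin d → V R) (lam : Fin d → R), Fact d F Y Ys lam ∧ ∏ j, lam j = 1

/-- The line through X is preperiodic. -/
def Preper (F : PM R) (X : V R) : Prop :=
  ∃ m n : ℕ, m < n ∧ wedge ((app F)^[m] X) ((app F)^[n] X) = 0

/-- Critical vectors. -/
def Crit (F : PM R) (Z : V R) : Prop := Z ≠ 0 ∧ jac F Z = 0

/-- Postcritical vectors. -/
def Post (F : PM R) (Y : V R) : Prop := ∃ (Z : V R) (n : ℕ), Crit F Z ∧ Y = (app F)^[n + 1] Z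

/-- Finitely many postcritical points. -/
def PCF (F : PM R) : Prop :=
  ∃ P : Finset (V R), (∀ p ∈ P, p ≠ 0) ∧ ∀ Y, Post F Y → ∃ p ∈ P, wedge Y p = 0

/-- The pairs (z, w) that witness the relation between the iterates. -/
def RelAt (F G : PM R) (n m k : ℕ) (Z : V R) : Prop :=
  ∃ W, W ≠ 0 ∧ wedge ((app F)^[n + k] Z) ((app F)^[n] W) = 0 ∧
    wedge ((app G)^[m + k] Z) ((app G)^[m] W) = 0

/-- The curve given by the iterates n + k, m + k lies in the curve given by n, m. -/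
def Rel (F G : PM R) (n m k : ℕ) : Prop := 0 < k ∧ ∀ Z, Z ≠ 0 → RelAt F G n m k Z

/-- The same for infinitely many points. -/
def RelInf (F G : PM R) (n m k : ℕ) : Prop :=
  0 < k ∧ {z : R | RelAt F G n m k ![z, 1]}.Infinite

open Classical in
/-- An invariant flat metric of finite area. -/
def Orb (F : PM R) (k : ℕ) : Prop :=
  0 < k ∧ ∃ (A : Fin (2 * k) → V R) (c : R), c ≠ 0 ∧ (∀ i, A i ≠ 0) ∧
    (∀ i, (Finset.univ.filter fun j => wedge (A i) (A j) = 0).card < k) ∧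
    ∀ Z, ∏ i, wedge (app F Z) (A i) = c * jac F Z ^ k * ∏ i, wedge Z (A i)

/-- The pair A, B is totally invariant. -/
def PowAt (d : ℕ) (F : PM R) (A B : V R) : Prop :=
  ∃ c : R, ∀ Z, wedge (app F Z) A * wedge (app F Z) B = c * (wedge Z A * wedge Z B) ^ d

/-- Both maps are power maps in one coordinate. -/
def Pow (d : ℕ) (F G : PM R) : Prop :=
  ∃ A B : V R, wedge A B ≠ 0 ∧ PowAt d F A B ∧ PowAt d G A B

/-- The quadratic differential with simple poles at A, B and a double pole at E is invariant. -/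
def ChebAt (F : PM R) (A B E : V R) : Prop :=
  ∃ c : R, ∀ Z, wedge (app F Z) A * wedge (app F Z) B * wedge (app F Z) E ^ 2 =
    c * jac F Z ^ 2 * (wedge Z A * wedge Z B * wedge Z E ^ 2)

/-- Both maps are Chebyshev maps up to sign in one coordinate. -/
def Cheb (F G : PM R) : Prop :=
  ∃ A B E : V R, wedge A B ≠ 0 ∧ wedge A E ≠ 0 ∧ wedge B E ≠ 0 ∧ ChebAt F A B E ∧ ChebAt G A B E

/-- The algebraic conditions of level N. -/
def Cond (d N : ℕ) (F G : PM R) : Prop :=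
  (∃ n ≤ N, ∃ m ≤ N, ∃ k ≤ N, Rel F G n m k) ∨ (∃ k ≤ N, ∃ l ≤ N, Orb F k ∧ Orb G l) ∨
    Pow d F G ∨ Cheb F G

/-- The monomial x^k y^(d-k). -/
noncomputable def mo (d k : ℕ) : Fin 2 →₀ ℕ := Finsupp.single 0 k + Finsupp.single 1 (d - k)

end Alg

section Abs
variable {K : Type} [Field K]

/-- An absolute value that is ultrametric (a = 0) or comes from a complex embedding (a = 1). -/
def Place (v : AbsoluteValue K ℝ) (a : ℝ) : Prop :=
  (a = 0 ∧ IsNonarchimedean v) ∨ (a = 1 ∧ ∃ ι : K →+* ℂ, ∀ x, v x = ‖ι x‖)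

/-- The maximum norm. -/
def nrm (v : AbsoluteValue K ℝ) (Z : V K) : ℝ := max (v (Z 0)) (v (Z 1))

/-- The escape rate. -/
noncomputable def esc (v : AbsoluteValue K ℝ) (d : ℕ) (F : PM K) (Z : V K) : ℝ :=
  limUnder atTop fun n : ℕ => Real.log (nrm v ((app F)^[n] Z)) / (d : ℝ) ^ n

/-- The Green function. -/
noncomputable def grn (v : AbsoluteValue K ℝ) (d : ℕ) (F : PM K) (X Y : V K) : ℝ :=
  - Real.log (v (wedge X Y)) + esc v d F X + esc v d F Y

/-- The local height of the coefficients. -/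
noncomputable def wt (v : AbsoluteValue K ℝ) (d : ℕ) (F : PM K) : ℝ :=
  ∑ i : Fin 2, ∑ k ∈ Finset.range (d + 1), Real.posLog (v (coeff (mo d k) (F i)))

/-- The energy of the first N points. -/
noncomputable def en (v : AbsoluteValue K ℝ) (d : ℕ) (F : PM K) (N : ℕ) (X : ℕ → V K) : ℝ :=
  ∑ j ∈ Finset.range N, ∑ k ∈ Finset.range N, if j = k then 0 else grn v d F (X j) (X k)

/-- A sequence of points of small energy for two maps at once. -/
def Small (v : AbsoluteValue K ℝ) (d : ℕ) (F G : PM K) (X : ℕ → V K) : Prop :=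
  ∀ δ : ℝ, 0 < δ → ∀ N₀ : ℕ, ∃ N, N₀ ≤ N ∧ en v d F N X ≤ δ * (N : ℝ) ^ 2 ∧
    en v d G N X ≤ δ * (N : ℝ) ^ 2

/-- Pairwise distinct points. -/
def Sep (X : ℕ → V K) : Prop := ∀ j k, j ≠ k → wedge (X j) (X k) ≠ 0

/-- A family of places with a product formula. -/
structure Adelic (K : Type) [Field K] where
  Ω : Type
  ms : MeasurableSpace Ω
  μ : MeasureTheory.Measure Ω
  v : Ω → AbsoluteValue K ℝ
  a : Ω → ℝ
  place : ∀ ω, Place (v ω) (a ω)
  meas_a : Measurable a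
  int_a : MeasureTheory.Integrable a μ
  sum_a : ∫ ω, a ω ∂μ = 1
  meas_v : ∀ x, Measurable fun ω => v ω x
  int_v : ∀ x, MeasureTheory.Integrable (fun ω => Real.log (v ω x)) μ
  prod_v : ∀ x, x ≠ 0 → ∫ ω, Real.log (v ω x) ∂μ = 0

/-- Generic limit absolute values and points of height zero in the limit. -/
structure GV (d : ℕ) (F G : PM K) where
  Gen : (AbsoluteValue K ℝ → Prop) → Prop
  Zero : PM K → V K → Prop
  mono : ∀ P Q : AbsoluteValue K ℝ → Prop, (∀ v, P v → Q v) → Gen P → Gen Q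
  inter : ∀ P : ℕ → AbsoluteValue K ℝ → Prop, (∀ n, Gen (P n)) → Gen fun v => ∀ n, P n v
  ex : ∀ P, Gen P → ∃ v, P v
  basic : Gen fun v => IsNonarchimedean v ∧ (∀ n : ℕ, n ≠ 0 → v n = 1) ∧ wt v d F + wt v d G = 1
  zero_app : ∀ H, (H = F ∨ H = G) → ∀ X, X ≠ 0 → Zero H X → Zero H (app H X)
  small : ∀ H H', (H = F ∨ H = G) → (H' = F ∨ H' = G) → ∀ X : ℕ → V K, Sep X →
    (∀ j, Zero H (X j) ∧ Zero H' (X j)) → Gen fun v => Small v d H H' X
  lyap : ∀ H, (H = F ∨ H = G) → ∀ Cs : Fin (2 * d - 2) → V K,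
    (∀ Z, jac H Z = ∏ j, wedge Z (Cs j)) → (Gen fun v => ∑ j, esc v d H (Cs j) ≤ 0) →
    ∀ j, Zero H (Cs j)
  green : ∀ H, (H = F ∨ H = G) → ∀ X Y, wedge X Y ≠ 0 → Zero H X → Zero H Y →
    (Gen fun v => 0 ≤ grn v d H X Y) → Gen fun v => grn v d H X Y ≤ 0

end Abs

section Ultra
variable {K : Type} [Field K]

/-- The free ultrafilter used throughout. -/
noncomputable abbrev uf : Filter ℕ := (hyperfilter ℕ : Filter ℕ)

/-- The ultrapower field. -/
abbrev UP (K : Type) : Type := Germ uf K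

/-- A vector over the ultrapower is represented by a sequence. -/
def RepV (X : V (UP K)) (Xs : ℕ → V K) : Prop := ∀ i, X i = ((fun l => Xs l i : ℕ → K) : UP K)

/-- A map over the ultrapower is represented by a sequence. -/
def RepF (F : PM (UP K)) (Fs : ℕ → PM K) : Prop :=
  ∀ i m, coeff m (F i) = ((fun l => coeff m (Fs l i) : ℕ → K) : UP K)

end Ultra

section Normed
variable {L : Type} [NormedField L]

/-- The norm as an absolute value. -/
noncomputable def nv (L : Type) [NormedField L] : AbsoluteValue L ℝ :=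
  IsAbsoluteValue.toAbsoluteValue (norm : L → ℝ)

/-- G is the escape rate of F. -/
def Esc (d : ℕ) (F : PM L) (G : V L → ℝ) : Prop :=
  (∃ C : ℝ, ∀ Z, Z ≠ 0 → |G Z - Real.log ‖Z‖| ≤ C) ∧
  (∀ (t : L) (Z : V L), t ≠ 0 → Z ≠ 0 → G (t • Z) = G Z + Real.log ‖t‖) ∧
  ∀ Z, Z ≠ 0 → G (app F Z) = d * G Z

/-- A map of degree d at least two together with its escape rate. -/
structure Dyn (d : ℕ) (F : PM L) (G : V L → ℝ) : Prop where
  two : 2 ≤ d
  hom : Hom d F
  nondeg : Nondeg F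
  esc : Esc d F G

/-- Full value group and residue characteristic zero. -/
structure Big (L : Type) [NormedField L] : Prop where
  full : ∀ r : ℝ, 0 < r → ∃ x : L, ‖x‖ = r
  res : ∀ n : ℕ, n ≠ 0 → ‖(n : L)‖ = 1

/-- Chordal distance for the maximum norm. -/
noncomputable def dlt (X Y : V L) : ℝ := ‖wedge X Y‖ / (‖X‖ * ‖Y‖)

/-- Gauss norm on the disc with center a and radius r. -/
noncomputable def gn (p : Polynomial L) (a : L) (r : ℝ) : ℝ :=
  ‖p.leadingCoeff‖ * (p.roots.map fun b => max ‖a - b‖ r).prod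

open Classical in
/-- Number of roots in the closed disc. -/
noncomputable def cnt (p : Polynomial L) (a : L) (r : ℝ) : ℕ :=
  (p.roots.filter fun b => ‖b - a‖ ≤ r).card

/-- A map that is close to a similarity with factor α on a closed disc. -/
def Conf (h : L → L) (a : L) (r : ℝ) (α : L) : Prop :=
  α ≠ 0 ∧ ∃ θ : ℝ, 0 ≤ θ ∧ θ < 1 ∧ ∀ x ∈ closedBall a r, ∀ y ∈ closedBall a r,
    ‖h x - h y - α * (x - y)‖ ≤ θ * ‖α‖ * ‖x - y‖

/-- On the disc, F maps (h z, 1) to a multiple of (k z, 1) of constant size. -/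
def Over (F : V L → V L) (h k : L → L) (a : L) (r : ℝ) : Prop :=
  ∃ c : ℝ, 0 < c ∧ ∀ z ∈ closedBall a r, ∃ t : L, ‖t‖ = c ∧ F ![h z, 1] = t • ![k z, 1]

/-- The supremum of G (z, 1) on a closed disc. -/
noncomputable def usup (G : V L → ℝ) (a : L) (r : ℝ) : ℝ :=
  sSup ((fun z : L => G ![z, 1]) '' closedBall a r)

/-- There are discs on which G (z, 1) is not constant off every finite set. -/
def Spread (G : V L → ℝ) : Prop :=
  ∀ S : Finset L, ∃ (a : L) (r : ℝ), 0 < r ∧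
    (∃ x ∈ closedBall a r, ∃ y ∈ closedBall a r, G ![x, 1] ≠ G ![y, 1]) ∧
    ∀ s ∈ S, s ∉ closedBall a r

/-- In some coordinate G only depends on the sizes of the coordinates. -/
def Axis (G : V L → ℝ) : Prop :=
  ∃ M : Mat L, M.det = 1 ∧ ∀ Z W : V L, Z ≠ 0 → ‖Z 0‖ = ‖W 0‖ → ‖Z 1‖ = ‖W 1‖ →
    G (M.mulVec Z) = G (M.mulVec W)

/-- Good reduction in some coordinate. -/
def Dirac (G : V L → ℝ) : Prop :=
  ∃ (M : Mat L) (c : ℝ), M.det = 1 ∧ ∀ Z : V L, Z ≠ 0 → G (M.mulVec Z) = Real.log ‖Z‖ + c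

/-- An annulus that carries mass and misses the postcritical set. -/
def Gap (F : PM L) (G : V L → ℝ) : Prop :=
  ∃ (M : Mat L) (z₁ z₂ z₃ : L), M.det = 1 ∧ 0 < ‖z₁‖ ∧ ‖z₁‖ < ‖z₂‖ ∧ ‖z₂‖ < ‖z₃‖ ∧
    (Real.log ‖z₃‖ - Real.log ‖z₁‖) * G (M.mulVec ![z₂, 1]) <
      (Real.log ‖z₃‖ - Real.log ‖z₂‖) * G (M.mulVec ![z₁, 1]) +
      (Real.log ‖z₂‖ - Real.log ‖z₁‖) * G (M.mulVec ![z₃, 1]) ∧
    ∀ Y : V L, Post F (M.mulVec Y) → ‖Y 0‖ < ‖z₁‖ * ‖Y 1‖ ∨ ‖z₃‖ * ‖Y 1‖ < ‖Y 0‖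

/-- The Lyapunov exponent is at most zero. -/
def LyapLE (d : ℕ) (F : PM L) (G : V L → ℝ) : Prop :=
  ∀ Cs : Fin (2 * d - 2) → V L, (∀ Z, jac F Z = ∏ j, wedge Z (Cs j)) → ∑ j, G (Cs j) ≤ 0

end Normed

section Cx

/-- Near z the function u is the real part of a holomorphic function. -/
def HarmAt (u : ℂ → ℝ) (z : ℂ) : Prop :=
  ∃ h : ℂ → ℂ, AnalyticAt ℂ h z ∧ ∀ᶠ w in 𝓝 z, u w = (h w).re

/-- Near Z the function G is the real part of a holomorphic function of two variables. -/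
def Fat (G : V ℂ → ℝ) (Z : V ℂ) : Prop :=
  ∃ h : V ℂ → ℂ, AnalyticAt ℂ h Z ∧ ∀ᶠ W in 𝓝 Z, G W = (h W).re

/-- The point of the Riemann sphere with homogeneous coordinates Z. -/
noncomputable def pt (Z : V ℂ) : OnePoint ℂ :=
  if Z 1 = 0 then OnePoint.infty else OnePoint.some (Z 0 / Z 1)

/-- A germ at the origin that multiplies v by c up to a harmonic function. -/
def Sym (v : ℂ → ℝ) (c : ℝ) (θ : ℂ → ℂ) : Prop :=
  AnalyticAt ℂ θ 0 ∧ deriv θ 0 ≠ 0 ∧ HarmAt (fun ζ => v (θ ζ) - c * v ζ) 0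

/-- Symmetries of v arbitrarily close to the identity. -/
def Wiggle (v : ℂ → ℝ) : Prop :=
  ∃ ρ : ℝ, 0 < ρ ∧ ∀ ε : ℝ, 0 < ε → ∃ τ : ℂ → ℂ, DifferentiableOn ℂ τ (ball 0 ρ) ∧
    (∀ ζ ∈ ball (0 : ℂ) ρ, ‖τ ζ - ζ‖ ≤ ε) ∧ ¬ (∀ᶠ ζ in 𝓝 (0 : ℂ), τ ζ = ζ) ∧
    ∀ ζ ∈ ball (0 : ℂ) ρ, HarmAt (fun ξ => v (τ ξ) - v ξ) ζ

/-- All germs of symmetries of v are affine. -/
def Rigid (v : ℂ → ℝ) (r : ℝ) : Prop :=
  ∀ (c : ℝ) (θ : ℂ → ℂ), 0 < c → θ 0 ∈ ball (0 : ℂ) r → Sym v c θ →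
    ∃ a b : ℂ, ∀ᶠ ζ in 𝓝 (0 : ℂ), θ ζ = a * ζ + b

/-- A linearized repelling periodic point in the Julia set with a second backward branch. -/
structure Lin (F : PM ℂ) (G : V ℂ → ℝ) where
  N : ℕ
  N_pos : 0 < N
  r : ℝ
  r_pos : 0 < r
  L : ℂ → ℂ
  μ : ℂ
  μ_ne : μ ≠ 0
  μ_lt : ‖μ‖ < 1
  diff : DifferentiableOn ℂ L (ball 0 r)
  inj : Set.InjOn L (ball 0 r)
  der : ∀ ζ ∈ ball (0 : ℂ) r, deriv L ζ ≠ 0
  eqv : ∀ ζ ∈ ball (0 : ℂ) r, wedge ((app F)^[N] ![L (μ * ζ), 1]) ![L ζ, 1] = 0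
  jul : ¬ Fat G ![L 0, 1]
  θ : ℂ → ℂ
  θ_an : AnalyticAt ℂ θ 0
  θ_der : deriv θ 0 ≠ 0
  θ_ne : θ 0 ≠ 0
  θ_mem : θ 0 ∈ ball (0 : ℂ) r
  θ_eqv : ∃ n : ℕ, ∀ᶠ ζ in 𝓝 (0 : ℂ), wedge ((app F)^[n] ![L (θ ζ), 1]) ![L ζ, 1] = 0

/-- A holomorphic inverse branch of the n-th iterate on a disc. -/
def Br (F : PM ℂ) (n : ℕ) (x : ℂ) (R : ℝ) (h : ℂ → ℂ) : Prop :=
  DifferentiableOn ℂ h (ball x R) ∧ ∀ z ∈ ball x R, wedge ((app F)^[n] ![h z, 1]) ![z, 1] = 0

end Cx

end Pool.Agent.MP_3827f0_nt.H92
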