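import Pool.Agent.MP_3827f0_nt.H92.Defs

/-! Embeddings of fields, the ultrapower field, and large valued fields. -/

set_option autoImplicit false

namespace Pool.Agent.MP_3827f0_nt.H92

open Cardinal

/-- Extension of an embedding of a countable field. -/
theorem exists_emb {K A B : Type} [Field K] [Field A] [Field B] [Countable K] [IsAlgClosed B]
    (ι : K →+* A) (κ : K →+* B) (hAB : Cardinal.mk A ≤ Cardinal.mk B) (hB : ℵ₀ < Cardinal.mk B) :
    ∃ j : A →+* B, ∀ x, j (ι x) = κ x := by
  let := ι.toAlgebra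
  let := κ.toAlgebra
  obtain ⟨s, hs⟩ := exists_isTranscendenceBasis K A
  obtain ⟨t, ht⟩ := exists_isTranscendenceBasis K B
  have h1 : Cardinal.mk B = Cardinal.mk t :=
    IsAlgClosed.cardinal_eq_cardinal_transcendence_basis_of_aleph0_lt' _ ht mk_le_aleph0 hB
  obtain ⟨e⟩ : Nonempty (s ↪ t) :=
    Cardinal.le_def _ _ |>.1 ((mk_set_le s).trans (hAB.trans h1.le))
  have h2 : AlgebraicIndependent K fun i : s => (e i : B) := ht.1.comp e e.injective
  let R := Algebra.adjoin K (Set.range ((↑) : s → A))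
  let f : R →ₐ[K] B := (MvPolynomial.aeval fun i : s => (e i : B)).comp hs.1.aevalEquiv.symm
  have hf : Function.Injective f :=
    (algebraicIndependent_iff_injective_aeval.1 h2).comp hs.1.aevalEquiv.symm.injective
  let : Algebra R B := f.toRingHom.toAlgebra
  have : Algebra.IsAlgebraic R A := hs.isAlgebraic
  have : FaithfulSMul R B := (faithfulSMul_iff_algebraMap_injective R B).2 hf
  let g : A →ₐ[R] B := IsAlgClosed.lift
  refine ⟨g.toRingHom, fun x => ?_⟩
  have h3 := g.commutes (algebraMap K R x)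
  exact h3.trans (f.commutes x)

namespace EmbAux

open Filter Topology Polynomial

lemma eval_map_hom {R S : Type} [CommRing R] [CommRing S] (f : R →+* S) (q : R[X]) (x : R) :
    (q.map f).eval (f x) = f (q.eval x) := by
  rw [eval_map, eval₂_at_apply]

/-- A monic polynomial over the target of a surjection lifts to a monic polynomial. -/
lemma exists_monic {R S : Type} [CommRing R] [Field S] (f : R →+* S) (hf : Function.Surjective f)
    {p : S[X]} (hp : p.Monic) (hi : Irreducible p) :
    ∃ q : R[X], q.map f = p ∧ q.Monic ∧ 0 < q.natDegree := by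
  obtain ⟨q, h1, h2, h3⟩ := lifts_and_natDegree_eq_and_monic
    ((mem_lifts p).2 (map_surjective f hf p)) hp
  exact ⟨q, h1, h3, h2 ▸ hi.natDegree_pos⟩

lemma exists_root {R K : Type} [CommRing R] [Field K] [IsAlgClosed K] (f : R →+* K) {q : R[X]}
    (hq : q.Monic) (h : 0 < q.natDegree) : ∃ x, (q.map f).eval x = 0 :=
  IsAlgClosed.exists_root _
    (natDegree_pos_iff_degree_pos.1 (by rwa [hq.natDegree_map])).ne'

lemma uf_le : uf ≤ atTop := Nat.hyperfilter_le_atTop

lemma card_fun (K : Type) [Countable K] : Cardinal.mk (ℕ → K) ≤ continuum := by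
  rw [← power_def, mk_nat, ← aleph0_power_aleph0]
  exact power_le_power_right mk_le_aleph0

section Big

variable {K : Type} [Field K] (v : AbsoluteValue K ℝ)

/-- Bounded sequences. -/
def Bd : Subring (ℕ → K) where
  carrier := {a | ∃ C, ∀ l, v (a l) ≤ C}
  mul_mem' := by
    rintro a b ⟨C, hC⟩ ⟨D, hD⟩
    exact ⟨C * D, fun l => by
      rw [Pi.mul_apply, map_mul]
      exact mul_le_mul (hC l) (hD l) (v.nonneg _) ((v.nonneg _).trans (hC l))⟩
  one_mem' := ⟨1, fun l => by simp⟩
  add_mem' := by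
    rintro a b ⟨C, hC⟩ ⟨D, hD⟩
    exact ⟨C + D, fun l => (v.add_le _ _).trans (add_le_add (hC l) (hD l))⟩
  zero_mem' := ⟨0, fun l => by simp⟩
  neg_mem' := by
    rintro a ⟨C, hC⟩
    exact ⟨C, fun l => by simpa using hC l⟩

variable {v}

/-- The limit of the absolute values along the ultrafilter. -/
noncomputable def N (a : Bd v) : ℝ := limUnder uf fun l => v (a.1 l)

lemma tends (a : Bd v) : Tendsto (fun l => v (a.1 l)) uf (𝓝 (N a)) := by
  obtain ⟨C, hC⟩ := a.2
  obtain ⟨c, -, hc⟩ := (isCompact_Icc (a := (0 : ℝ)) (b := C)).ultrafilter_le_nhds'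
    ((hyperfilter ℕ).map fun l => v (a.1 l))
    (Ultrafilter.mem_map.2 (univ_mem' fun l => ⟨v.nonneg _, hC l⟩))
  exact tendsto_nhds_limUnder ⟨c, hc⟩

lemma N_eq {a : Bd v} {c : ℝ} (h : Tendsto (fun l => v (a.1 l)) uf (𝓝 c)) : N a = c :=
  tendsto_nhds_unique (tends a) h

lemma N_le {a : Bd v} {c : ℝ} (h : ∀ᶠ l in uf, v (a.1 l) ≤ c) : N a ≤ c :=
  le_of_tendsto (tends a) h

lemma N_nonneg (a : Bd v) : 0 ≤ N a := ge_of_tendsto' (tends a) fun _ => v.nonneg _

lemma N_mul (a b : Bd v) : N (a * b) = N a * N b :=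
  N_eq (by simpa using (tends a).mul (tends b))

lemma N_add (a b : Bd v) : N (a + b) ≤ N a + N b :=
  le_of_tendsto_of_tendsto' (tends (a + b)) ((tends a).add (tends b)) fun _ => v.add_le _ _

lemma N_max (hv : IsNonarchimedean v) (a b : Bd v) : N (a + b) ≤ max (N a) (N b) :=
  le_of_tendsto_of_tendsto' (tends (a + b)) ((tends a).max (tends b)) fun _ => hv _ _

lemma N_neg (a : Bd v) : N (-a) = N a := N_eq (by simpa using tends a)

lemma N_zero : N (0 : Bd v) = 0 := N_eq (by simp)

variable (v)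

/-- Constant sequences. -/
def cst : K →+* Bd v :=
  (Pi.constRingHom ℕ K).codRestrict (Bd v) fun x => ⟨v x, fun _ => le_rfl⟩

lemma N_cst (x : K) : N (cst v x) = v x := N_eq tendsto_const_nhds

/-- Null sequences. -/
def Nul : Ideal (Bd v) where
  carrier := {a | N a = 0}
  add_mem' := fun {a b} ha hb => le_antisymm (by
    have := N_add a b
    rw [show N a = 0 from ha, show N b = 0 from hb, add_zero] at this
    exact this) (N_nonneg _)
  zero_mem' := N_zero
  smul_mem' := fun c a ha => by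
    change N (c * a) = 0
    rw [N_mul, show N a = 0 from ha, mul_zero]

instance : (Nul v).IsMaximal := by
  refine Ideal.isMaximal_iff.2 ⟨fun h => ?_, fun J a hJ ha haJ => ?_⟩
  · have h1 : N (1 : Bd v) = 0 := h
    rw [← map_one (cst v), N_cst, map_one] at h1
    exact one_ne_zero h1
  · have h0 : 0 < N a := lt_of_le_of_ne (N_nonneg a) fun h => ha h.symm
    let b : Bd v := ⟨fun l => if N a / 2 ≤ v (a.1 l) then (a.1 l)⁻¹ else 0, (N a / 2)⁻¹,
      fun l => by
        beta_reduce
        split_ifs with h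
        · rw [map_inv₀]; exact inv_anti₀ (half_pos h0) h
        · rw [map_zero]; positivity⟩
    have h1 : 1 - b * a ∈ Nul v := by
      refine le_antisymm (N_le ?_) (N_nonneg _)
      filter_upwards [(tends a).eventually (lt_mem_nhds (half_lt_self h0))] with l hl
      have h2 : a.1 l ≠ 0 := fun h => by
        rw [h, map_zero] at hl
        exact absurd hl (not_lt.2 (half_pos h0).le)
      have h3 : (1 - b * a).1 l = 0 := by
        change 1 - (if N a / 2 ≤ v (a.1 l) then (a.1 l)⁻¹ else 0) * a.1 l = 0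
        rw [if_pos hl.le, inv_mul_cancel₀ h2, sub_self]
      rw [h3, map_zero]
    simpa using J.add_mem (hJ h1) (J.mul_mem_left b haJ)

/-- The ultralimit field. -/
def LL : Type := Bd v ⧸ Nul v

noncomputable instance : Field (LL v) := Ideal.Quotient.field (Nul v)

/-- The projection to the ultralimit field. -/
noncomputable def pr : Bd v →+* LL v := Ideal.Quotient.mk (Nul v)

lemma pr_surj : Function.Surjective (pr v) := Ideal.Quotient.mk_surjective

variable {v}

lemma pr_eq {a b : Bd v} : pr v a = pr v b ↔ N (a - b) = 0 := Ideal.Quotient.eq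

lemma N_congr {a b : Bd v} (h : pr v a = pr v b) : N a = N b := by
  have key : ∀ {a b : Bd v}, pr v a = pr v b → N a ≤ N b := fun {a b} h => by
    have := N_add (a - b) b
    rwa [pr_eq.1 h, sub_add_cancel, zero_add] at this
  exact le_antisymm (key h) (key h.symm)

/-- The norm of a class. -/
noncomputable def M (x : LL v) : ℝ := N (pr_surj v x).choose

lemma M_pr (a : Bd v) : M (pr v a) = N a := N_congr (pr_surj v _).choose_spec

variable (v) in
/-- The absolute value on the ultralimit field. -/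
noncomputable def W : AbsoluteValue (LL v) ℝ where
  toFun := M
  map_mul' x y := by
    obtain ⟨a, rfl⟩ := pr_surj v x
    obtain ⟨b, rfl⟩ := pr_surj v y
    rw [← map_mul, M_pr, M_pr, M_pr, N_mul]
  nonneg' _ := N_nonneg _
  eq_zero' x := by
    obtain ⟨a, rfl⟩ := pr_surj v x
    change M _ = 0 ↔ _
    rw [M_pr, ← map_zero (pr v), pr_eq, sub_zero]
  add_le' x y := by
    obtain ⟨a, rfl⟩ := pr_surj v x
    obtain ⟨b, rfl⟩ := pr_surj v y
    change M _ ≤ M _ + M _
    rw [← map_add, M_pr, M_pr, M_pr]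
    exact N_add a b

noncomputable instance : NormedField (LL v) := (W v).toNormedField

lemma norm_pr (a : Bd v) : ‖pr v a‖ = N a := M_pr a

lemma ultra (hv : IsNonarchimedean v) : IsUltrametricDist (LL v) :=
  IsUltrametricDist.isUltrametricDist_of_forall_norm_add_le_max_norm fun x y => by
    obtain ⟨a, rfl⟩ := pr_surj v x
    obtain ⟨b, rfl⟩ := pr_surj v y
    rw [← map_add, norm_pr, norm_pr, norm_pr]
    exact N_max hv a b

lemma root_le {q : K[X]} (hq : q.Monic) {x : K} (hx : q.eval x = 0) {C : ℕ → ℝ}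
    (hC : ∀ i, v (q.coeff i) ≤ C i) : v x ≤ max 1 (∑ i ∈ Finset.range q.natDegree, C i) := by
  by_cases h1 : v x ≤ 1
  · exact h1.trans (le_max_left _ _)
  push Not at h1
  refine le_trans ?_ (le_max_right _ _)
  rw [eval_eq_sum_range, Finset.sum_range_succ, hq.coeff_natDegree, one_mul] at hx
  rcases hn : q.natDegree with _ | n
  · simp [hn] at hx
  rw [hn] at hx
  have h2 : v x ^ (n + 1) ≤ (∑ i ∈ Finset.range (n + 1), C i) * v x ^ n := by
    rw [← map_pow, eq_neg_of_add_eq_zero_right hx, v.map_neg, Finset.sum_mul]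
    refine (v.sum_le _ _).trans (Finset.sum_le_sum fun i hi => ?_)
    rw [map_mul, map_pow]
    exact mul_le_mul (hC i) (pow_le_pow_right₀ h1.le (Nat.lt_succ_iff.1 (Finset.mem_range.1 hi)))
      (by positivity) ((v.nonneg _).trans (hC i))
  rw [pow_succ'] at h2
  exact le_of_mul_le_mul_right h2 (by positivity)

lemma closed [IsAlgClosed K] : IsAlgClosed (LL v) := by
  refine IsAlgClosed.of_exists_root _ fun p hp hi => ?_
  obtain ⟨q, rfl, hq, h0⟩ := exists_monic (pr v) (pr_surj v) hp hi
  let ev : ℕ → Bd v →+* K := fun l => (Pi.evalRingHom (fun _ => K) l).comp (Bd v).subtype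
  choose x hx using fun l => exists_root (ev l) hq h0
  choose C hC using fun i => (q.coeff i).2
  have hb : x ∈ Bd v := ⟨max 1 (∑ i ∈ Finset.range q.natDegree, C i), fun l => by
    have := root_le (v := v) (hq.map (ev l)) (hx l) (C := C) fun i => by
      rw [coeff_map]; exact hC i l
    rwa [hq.natDegree_map] at this⟩
  refine ⟨pr v ⟨x, hb⟩, ?_⟩
  rw [eval_map_hom]
  have : q.eval ⟨x, hb⟩ = 0 := Subtype.ext (funext fun l =>
    (eval_map_hom (ev l) q ⟨x, hb⟩).symm.trans (hx l))
  rw [this, map_zero]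

lemma complete : CompleteSpace (LL v) := by
  classical
  refine Metric.complete_of_convergent_controlled_sequences (fun n => 1 / ((n : ℝ) + 1))
    (fun n => by positivity) fun u hu => ?_
  choose a ha using fun n => pr_surj v (u n)
  let good : ℕ → ℕ → Prop := fun l k =>
    ∀ n ≤ k, ∀ m ≤ k, v ((a n).1 l - (a m).1 l) < 1 / (((min n m : ℕ) : ℝ) + 1)
  have h0 : ∀ l, good l 0 := fun l n hn m hm => by
    obtain rfl := Nat.le_zero.1 hn
    obtain rfl := Nat.le_zero.1 hm
    simp
  have h1 : ∀ k, ∀ᶠ l in uf, good l k := fun k => by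
    refine (eventually_all_finite (Set.finite_le_nat k)).2 fun n _ =>
      (eventually_all_finite (Set.finite_le_nat k)).2 fun m _ => ?_
    have h2 := hu (min n m) n m (min_le_left _ _) (min_le_right _ _)
    rw [dist_eq_norm, ← ha, ← ha, ← map_sub, norm_pr] at h2
    exact (tends (a n - a m)).eventually (gt_mem_nhds h2)
  have h3 : ∀ l, good l (Nat.findGreatest (good l) l) := fun l =>
    Nat.findGreatest_spec (Nat.zero_le l) (h0 l)
  obtain ⟨C, hC⟩ := (a 0).2
  let b : Bd v := ⟨fun l => (a (Nat.findGreatest (good l) l)).1 l, 1 + C, fun l => by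
    have h4 := h3 l _ le_rfl 0 (Nat.zero_le _)
    have h5 := v.add_le ((a (Nat.findGreatest (good l) l)).1 l - (a 0).1 l) ((a 0).1 l)
    rw [sub_add_cancel] at h5
    simp only [Nat.min_zero, Nat.cast_zero, zero_add, div_one] at h4
    linarith [hC l]⟩
  refine ⟨pr v b, tendsto_iff_dist_tendsto_zero.2 (squeeze_zero (fun _ => dist_nonneg)
    (fun k => ?_) tendsto_one_div_add_atTop_nhds_zero_nat)⟩
  rw [dist_eq_norm, ← ha, ← map_sub, norm_pr]
  refine N_le ?_
  filter_upwards [h1 k, uf_le (eventually_ge_atTop k)] with l h4 h5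
  have h6 : k ≤ Nat.findGreatest (good l) l := Nat.le_findGreatest h5 h4
  have h7 := h3 l k h6 _ le_rfl
  rw [min_eq_left h6] at h7
  exact h7.le

lemma exists_rpow [IsAlgClosed K] (x : K) (q : ℚ) :
    ∃ y, v y = v x ^ (q : ℝ) := by
  obtain ⟨y, hy⟩ := IsAlgClosed.exists_pow_nat_eq (x ^ q.num) q.den_pos
  have h0 : 0 ≤ v x := v.nonneg x
  refine ⟨y, (pow_left_inj₀ (v.nonneg y) (Real.rpow_nonneg h0 _) q.den_nz).1 ?_⟩
  rw [← map_pow, hy, map_zpow₀, ← Real.rpow_natCast, ← Real.rpow_mul h0, ← Real.rpow_intCast]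
  congr 1
  exact_mod_cast (Rat.mul_den_eq_num q).symm

lemma full [IsAlgClosed K] {x : K} (hx : 1 < v x) {r : ℝ} (hr : 0 < r) :
    ∃ y : LL v, ‖y‖ = r := by
  obtain ⟨u, -, h1, h2⟩ := Real.exists_seq_rat_strictMono_tendsto (Real.logb (v x) r)
  choose y hy using fun l => exists_rpow (v := v) x (u l)
  have h0 : 0 < v x := one_pos.trans hx
  have h3 : v x ^ Real.logb (v x) r = r := Real.rpow_logb h0 hx.ne' hr
  refine ⟨pr v ⟨y, r, fun l => ?_⟩, ?_⟩
  · rw [hy, ← h3]
    exact Real.rpow_le_rpow_of_exponent_le hx.le (h1 l).le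
  · rw [norm_pr]
    refine N_eq ?_
    simp only [hy]
    have := ((Real.continuous_const_rpow h0.ne').tendsto _).comp h2
    rw [h3] at this
    exact this.mono_left uf_le

end Big

/-- Lifting along a surjection with nilpotent kernel. -/
lemma lift_nil {R A B : Type} [CommRing R] [CommRing A] [CommRing B] [Algebra R A]
    [Algebra.FormallySmooth R A] (f : R →+* B) (g : B →+* A) (hg : Function.Surjective g)
    (hk : IsNilpotent (RingHom.ker g)) (h : ∀ r, g (f r) = algebraMap R A r) :
    ∃ ψ : A →+* B, (∀ a, g (ψ a) = a) ∧ ∀ r, ψ (algebraMap R A r) = f r := by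
  let := f.toAlgebra
  let g' : B →ₐ[R] A := { g with commutes' := h }
  let ψ := Algebra.FormallySmooth.liftOfSurjective (AlgHom.id R A) g' hg hk
  exact ⟨ψ.toRingHom, Algebra.FormallySmooth.liftOfSurjective_apply (AlgHom.id R A) g' hg hk,
    ψ.commutes⟩

lemma smooth_field (F L : Type) [Field F] [Field L] [Algebra F L] [CharZero F] :
    Algebra.FormallySmooth F L := by
  obtain ⟨s, hs⟩ := exists_isTranscendenceBasis F L
  have := hs.isAlgebraic_field
  exact Algebra.FormallySmooth.of_algebraicIndependent_of_isSeparable hs.1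

lemma smooth_dom (R L : Type) [CommRing R] [IsDomain R] [CharZero R] [Field L] [Algebra R L]
    [FaithfulSMul R L] : Algebra.FormallySmooth R L := by
  let := FractionRing.liftAlgebra R L
  have := FractionRing.isScalarTower_liftAlgebra R L
  have : Algebra.FormallySmooth R (FractionRing R) := .of_isLocalization (nonZeroDivisors R)
  have := smooth_field (FractionRing R) L
  exact .comp R (FractionRing R) L

lemma exists_dual {A : Type} [Field A] [CharZero A] {x : A} (hx : Transcendental ℚ x) :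
    ∃ ψ : A →+* DualNumber A, (∀ a, (ψ a).fst = a) ∧ (ψ x).snd = 1 := by
  let : Algebra ℚ[X] A := (aeval x : ℚ[X] →ₐ[ℚ] A).toRingHom.toAlgebra
  have : FaithfulSMul ℚ[X] A :=
    (faithfulSMul_iff_algebraMap_injective _ _).2 (transcendental_iff_injective.1 hx)
  have := smooth_dom ℚ[X] A
  let g : DualNumber A →+* A := (TrivSqZeroExt.fstHom A A A).toRingHom
  let f : ℚ[X] →+* DualNumber A :=
    eval₂RingHom ((algebraMap A (DualNumber A)).comp (algebraMap ℚ A))
      (TrivSqZeroExt.inl x + TrivSqZeroExt.inr 1)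
  have h : g.comp f = algebraMap ℚ[X] A := by
    refine Polynomial.ringHom_ext' (RingHom.ext_rat _ _) ?_
    change g (f X) = aeval x (X : ℚ[X])
    simp [f, g]
  obtain ⟨ψ, h1, h2⟩ := lift_nil f g (fun a => ⟨TrivSqZeroExt.inl a, rfl⟩)
    ⟨2, by
      rw [pow_two, Ideal.zero_eq_bot, eq_bot_iff, Ideal.mul_le]
      intro r hr s hs
      have hr' : r.fst = 0 := hr
      have hs' : s.fst = 0 := hs
      rw [Ideal.mem_bot]
      ext <;> simp [hr', hs']⟩ (fun r => DFunLike.congr_fun h r)
  refine ⟨ψ, h1, ?_⟩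
  have h3 : algebraMap ℚ[X] A X = x := aeval_X x
  rw [← h3, h2]
  simp [f]

end EmbAux

open EmbAux Filter

theorem isAlgClosed_up (K : Type) [Field K] [IsAlgClosed K] : IsAlgClosed (UP K) := by
  refine IsAlgClosed.of_exists_root _ fun p hp hi => ?_
  obtain ⟨q, rfl, hq, h0⟩ := exists_monic (Germ.coeRingHom uf : (ℕ → K) →+* UP K)
    (fun x => Germ.inductionOn x fun f => ⟨f, rfl⟩) hp hi
  choose x hx using fun l => exists_root (Pi.evalRingHom (fun _ : ℕ => K) l) hq h0
  refine ⟨Germ.coeRingHom uf x, ?_⟩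
  rw [eval_map_hom]
  have : q.eval x = 0 := funext fun l =>
    (eval_map_hom (Pi.evalRingHom (fun _ : ℕ => K) l) q x).symm.trans (hx l)
  rw [this, map_zero]

theorem charZero_up (K : Type) [Field K] [CharZero K] : CharZero (UP K) :=
  charZero_of_injective_ringHom
    ((Germ.coeRingHom uf : (ℕ → K) →+* UP K).comp (Pi.constRingHom ℕ K)).injective

theorem card_up (K : Type) [Field K] [CharZero K] [Countable K] : Cardinal.mk (UP K) = continuum := by
  refine le_antisymm ((mk_le_of_surjective (f := fun f : ℕ → K => (f : UP K))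
    fun x => Germ.inductionOn x fun f => ⟨f, rfl⟩).trans (card_fun K)) ?_
  rw [← mk_real]
  let f : ℝ → UP K := fun r => ((fun n : ℕ => ((⌊(n : ℝ) * r⌋ : ℤ) : K) : ℕ → K) : UP K)
  have key : ∀ r s : ℝ, r < s → f r ≠ f s := fun r s hrs h => by
    have h1 := Germ.coe_eq.1 h
    have h2 : ∀ᶠ n : ℕ in atTop, 1 / (s - r) ≤ (n : ℝ) :=
      tendsto_natCast_atTop_atTop.eventually_ge_atTop _
    obtain ⟨n, h3, h4⟩ := (h1.and (uf_le h2)).exists
    have h5 : ⌊(n : ℝ) * r⌋ = ⌊(n : ℝ) * s⌋ := Int.cast_injective (α := K) h3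
    have h6 : (n : ℝ) * r + 1 ≤ n * s := by
      have := (div_le_iff₀ (sub_pos.2 hrs)).1 h4
      linarith
    have h7 := Int.floor_mono h6
    rw [Int.floor_add_one] at h7
    omega
  exact mk_le_of_injective (f := f) fun r s h => by
    rcases lt_trichotomy r s with h1 | h1 | h1
    exacts [absurd h (key r s h1), h1, absurd h.symm (key s r h1)]

/-- A countable valued field sits in a complete one with full value group. -/
theorem exists_big (K : Type) [Field K] [IsAlgClosed K] [Countable K] (v : AbsoluteValue K ℝ)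
    (hv : IsNonarchimedean v) (hx : ∃ x, 1 < v x) (hn : ∀ n : ℕ, n ≠ 0 → v n = 1) :
    ∃ (L : Type) (_ : NormedField L) (_ : IsUltrametricDist L) (_ : IsAlgClosed L)
      (_ : CompleteSpace L) (_ : CharZero L) (φ : K →+* L),
      Big L ∧ (∀ x, ‖φ x‖ = v x) ∧ Cardinal.mk L = continuum := by
  obtain ⟨x, hx⟩ := hx
  let φ : K →+* LL v := (pr v).comp (cst v)
  have h1 : ∀ x, ‖φ x‖ = v x := fun x => (norm_pr _).trans (N_cst v x)
  have h2 : ∀ n : ℕ, n ≠ 0 → ‖(n : LL v)‖ = 1 := fun n h => by
    rw [← map_natCast φ, h1, hn n h]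
  refine ⟨LL v, inferInstance, ultra hv, closed, complete, charZero_of_inj_zero fun n h => ?_, φ,
    ⟨fun r hr => full hx hr, h2⟩, h1, le_antisymm ?_ ?_⟩
  · by_contra h0
    have := h2 n h0
    rw [h, norm_zero] at this
    exact zero_ne_one this
  · exact (mk_le_of_surjective (pr_surj v)).trans ((mk_subtype_le _).trans (card_fun K))
  · rw [← mk_Ioi_real 0]
    choose f hf using fun r : Set.Ioi (0 : ℝ) => full hx r.2
    exact mk_le_of_injective (f := f) fun r s h => Subtype.ext (by rw [← hf, ← hf, h])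

/-- A transcendental complex number is moved by a derivation. -/
theorem exists_derivation {x : ℂ} (hx : ¬ IsAlgebraic ℚ x) :
    ∃ δ : Derivation ℤ ℂ ℂ, δ x ≠ 0 := by
  obtain ⟨ψ, h1, h2⟩ := exists_dual (A := ℂ) hx
  let D : ℂ →+ ℂ := (TrivSqZeroExt.sndHom ℂ ℂ).toAddMonoidHom.comp ψ.toAddMonoidHom
  have hD : ∀ a, D a = (ψ a).snd := fun _ => rfl
  refine ⟨Derivation.mk' D.toIntLinearMap fun a b => ?_, ?_⟩
  · simp only [AddMonoidHom.coe_toIntLinearMap, hD, map_mul, DualNumber.snd_mul, h1, smul_eq_mul]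
    ring
  · change D x ≠ 0
    rw [hD, h2]
    exact one_ne_zero

end Pool.Agent.MP_3827f0_nt.H92
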