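import Pool.Agent.MP_3827f0_nt.H92.EscA

/-! The escape rate at a place. -/

set_option autoImplicit false

namespace Pool.Agent.MP_3827f0_nt.H92

open MvPolynomial Filter Topology EscAux

section Abs
variable {K K' : Type} [Field K] [Field K'] {v : AbsoluteValue K ℝ} {a : ℝ} {d : ℕ} {F : PM K}

/-- The constant in the estimates, which only depends on the degree. -/
noncomputable def cst (d : ℕ) : ℝ := 8 * ((d : ℝ) + 1) ^ 3

lemma cst_pos (d : ℕ) : 0 < cst d := by unfold cst; positivity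

lemma EscAux.eight_le_cst (d : ℕ) : 8 ≤ cst d := by
  have h : (1 : ℝ) ≤ ((d : ℝ) + 1) ^ 3 := one_le_pow₀ (by have := Nat.cast_nonneg (α := ℝ) d; linarith)
  unfold cst
  linarith

lemma log_nrm_app [IsAlgClosed K] (h : Place v a) (hd : 2 ≤ d) (hF : Normal d F) {w : ℝ}
    (hw : wt v d F + a ≤ w) {Z : V K} (hZ : Z ≠ 0) :
    |Real.log (nrm v (app F Z)) - d * Real.log (nrm v Z)| ≤ cst d * w := by
  have hd0 : 0 < d := by omega
  have p1 := nrm_pos v hZ
  have p2 := nrm_pos v ((hF.nondeg hd0).app_ne hZ)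
  have h1 := Real.log_le_log p2 (nrm_app_le h hF.1 Z)
  have h2 := Real.log_le_log (by positivity) (nrm_app_ge h hd0 hF Z)
  rw [Real.log_mul (Real.exp_pos _).ne' (by positivity), Real.log_exp, Real.log_pow] at h1 h2
  have ha := h.nonneg
  have hwt := wt_nonneg v d F
  have hD : (0 : ℝ) ≤ d := Nat.cast_nonneg d
  set u := a * (d + 1) + wt v d F with hu
  have hu1 : u ≤ (d + 1) * w := by rw [hu]; nlinarith
  have hu0 : 0 ≤ u := by rw [hu]; positivity
  have haw : a ≤ w := by linarith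
  have hw0 : 0 ≤ w := by linarith
  have h3 : d * (2 * d * u + a * d ^ 2 + a) + u ≤ cst d * w := by
    have t1 : (2 * d ^ 2 + 1) * u ≤ (2 * d ^ 2 + 1) * ((d + 1) * w) :=
      mul_le_mul_of_nonneg_left hu1 (by positivity)
    have t2 : (d ^ 3 + d) * a ≤ (d ^ 3 + d) * w := mul_le_mul_of_nonneg_left haw (by positivity)
    have t3 : ((2 * d ^ 2 + 1) * (d + 1) + (d ^ 3 + d)) * w ≤ cst d * w := by
      refine mul_le_mul_of_nonneg_right ?_ hw0
      unfold cst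
      have : (0 : ℝ) ≤ d ^ 2 := by positivity
      have : (0 : ℝ) ≤ d ^ 3 := by positivity
      nlinarith
    nlinarith
  have h4 : 0 ≤ d * (2 * d * u + a * d ^ 2 + a) := by positivity
  rw [abs_le]
  constructor <;> linarith

lemma EscAux.dist_le [IsAlgClosed K] (h : Place v a) (hd : 2 ≤ d) (hF : Normal d F) {w : ℝ}
    (hw : wt v d F + a ≤ w) {Z : V K} (hZ : Z ≠ 0) (n : ℕ) :
    dist (Real.log (nrm v ((app F)^[n] Z)) / (d : ℝ) ^ n)
      (Real.log (nrm v ((app F)^[n + 1] Z)) / (d : ℝ) ^ (n + 1)) ≤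
      cst d * w / d * ((d : ℝ)⁻¹) ^ n := by
  have hD : (0 : ℝ) < d := by exact_mod_cast (by omega : 0 < d)
  have h1 := log_nrm_app h hd hF hw ((hF.nondeg (by omega)).iter_ne n hZ)
  rw [dist_comm, Real.dist_eq, Function.iterate_succ_apply']
  have e : Real.log (nrm v (app F ((app F)^[n] Z))) / (d : ℝ) ^ (n + 1) -
      Real.log (nrm v ((app F)^[n] Z)) / (d : ℝ) ^ n =
      (Real.log (nrm v (app F ((app F)^[n] Z))) - d * Real.log (nrm v ((app F)^[n] Z))) /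
        (d : ℝ) ^ (n + 1) := by
    field_simp
    ring
  rw [e, abs_div, abs_of_pos (pow_pos hD _)]
  refine (div_le_div_of_nonneg_right h1 (pow_pos hD _).le).trans (le_of_eq ?_)
  rw [inv_pow]
  field_simp
  ring

lemma tendsto_esc [IsAlgClosed K] (h : Place v a) (hd : 2 ≤ d) (hF : Normal d F) {Z : V K}
    (hZ : Z ≠ 0) : Tendsto (fun n : ℕ => Real.log (nrm v ((app F)^[n] Z)) / (d : ℝ) ^ n) atTop
      (𝓝 (esc v d F Z)) := by
  have hD : (1 : ℝ) < d := by exact_mod_cast (by omega : 1 < d)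
  exact (cauchySeq_of_le_geometric _ _ (inv_lt_one_of_one_lt₀ hD)
    (EscAux.dist_le h hd hF le_rfl hZ)).tendsto_limUnder

lemma esc_approx [IsAlgClosed K] (h : Place v a) (hd : 2 ≤ d) (hF : Normal d F) {w : ℝ}
    (hw : wt v d F + a ≤ w) (n : ℕ) {Z : V K} (hZ : Z ≠ 0) :
    |esc v d F Z - Real.log (nrm v ((app F)^[n] Z)) / (d : ℝ) ^ n| ≤ cst d * w / (d : ℝ) ^ n := by
  have hD : (2 : ℝ) ≤ d := by exact_mod_cast hd
  have h1 := dist_le_of_le_geometric_of_tendsto _ _ (inv_lt_one_of_one_lt₀ (by linarith))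
    (EscAux.dist_le h hd hF hw hZ) (tendsto_esc h hd hF hZ) n
  rw [dist_comm, Real.dist_eq] at h1
  refine h1.trans ?_
  have hw0 : 0 ≤ cst d * w :=
    mul_nonneg (cst_pos d).le (by have := h.nonneg; have := wt_nonneg v d F; linarith)
  have h2 : (d : ℝ) - 1 ≠ 0 := by linarith
  have h3 : (d : ℝ) ≠ 0 := by linarith
  have e : cst d * w / d * ((d : ℝ)⁻¹) ^ n / (1 - (d : ℝ)⁻¹) =
      cst d * w / (d : ℝ) ^ n / ((d : ℝ) - 1) := by
    rw [inv_pow]
    field_simp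
  rw [e]
  exact div_le_self (by positivity) (by linarith)

lemma esc_app [IsAlgClosed K] (h : Place v a) (hd : 2 ≤ d) (hF : Normal d F) {Z : V K}
    (hZ : Z ≠ 0) : esc v d F (app F Z) = d * esc v d F Z := by
  have hD : (d : ℝ) ≠ 0 := by exact_mod_cast (by omega : d ≠ 0)
  have h1 := tendsto_esc h hd hF ((hF.nondeg (by omega)).app_ne hZ)
  have h2 := ((tendsto_esc h hd hF hZ).comp (tendsto_add_atTop_nat 1)).const_mul (d : ℝ)
  refine tendsto_nhds_unique h1 (h2.congr fun n => ?_)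
  simp only [Function.comp, Function.iterate_succ_apply]
  field_simp
  ring

lemma esc_smul [IsAlgClosed K] (h : Place v a) (hd : 2 ≤ d) (hF : Normal d F) {t : K} (ht : t ≠ 0)
    {Z : V K} (hZ : Z ≠ 0) : esc v d F (t • Z) = esc v d F Z + Real.log (v t) := by
  have hD : (d : ℝ) ≠ 0 := by exact_mod_cast (by omega : d ≠ 0)
  have h1 := tendsto_esc h hd hF (smul_ne_zero ht hZ)
  have h2 := (tendsto_esc h hd hF hZ).add_const (Real.log (v t))
  refine tendsto_nhds_unique h1 (h2.congr fun n => ?_)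
  rw [hF.1.iter_smul, nrm_smul, map_pow, Real.log_mul (pow_pos (v.pos ht) _).ne'
    (nrm_pos v ((hF.nondeg (by omega)).iter_ne n hZ)).ne', Real.log_pow]
  push_cast
  field_simp
  ring

lemma EscAux.esc_zero [IsAlgClosed K] (h : Place v a) (hd : 2 ≤ d) (hF : Normal d F) {w : ℝ}
    (hw : wt v d F + a ≤ w) {Z : V K} (hZ : Z ≠ 0) :
    |esc v d F Z - Real.log (nrm v Z)| ≤ cst d * w := by
  simpa using esc_approx h hd hF hw 0 hZ

lemma grn_ge [IsAlgClosed K] (h : Place v a) (hd : 2 ≤ d) (hF : Normal d F) {w : ℝ}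
    (hw : wt v d F + a ≤ w) {X Y : V K} (hXY : wedge X Y ≠ 0) :
    - (3 * cst d * w) ≤ grn v d F X Y := by
  have hX := ne_zero_of_wedge_left hXY
  have hY := ne_zero_of_wedge_right hXY
  have h1 := (abs_le.1 (esc_zero h hd hF hw hX)).1
  have h2 := (abs_le.1 (esc_zero h hd hF hw hY)).1
  have h3 := Real.log_le_log (v.pos hXY) (h.wedge_le X Y)
  rw [Real.log_mul (Real.exp_pos a).ne' (mul_pos (nrm_pos v hX) (nrm_pos v hY)).ne', Real.log_exp,
    Real.log_mul (nrm_pos v hX).ne' (nrm_pos v hY).ne'] at h3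
  have ha := h.nonneg
  have hwt := wt_nonneg v d F
  have h4 := eight_le_cst d
  have h5 : a ≤ cst d * w := by nlinarith
  unfold grn
  linarith

lemma sum_grn [IsAlgClosed K] (h : Place v a) (hd : 2 ≤ d) (hF : Normal d F) {Y : V K}
    {Ys : Fin d → V K} {lam : Fin d → K} (hf : Fact d F Y Ys lam) {X : V K}
    (hX : wedge (app F X) Y ≠ 0) : ∑ j, grn v d F X (Ys j) = grn v d F (app F X) Y := by
  have hd0 : 0 < d := by omega
  have hD : (d : ℝ) ≠ 0 := by exact_mod_cast hd0.ne'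
  have hY := ne_zero_of_wedge_right hX
  have h1 := hF.prod_eq_one hd0 hY hf
  have hw : ∀ j, wedge X (Ys j) ≠ 0 := fun j h0 => hX (by
    rw [hf.1]; exact Finset.prod_eq_zero (Finset.mem_univ j) h0)
  have hX0 : X ≠ 0 := ne_zero_of_wedge_left (hw ⟨0, hd0⟩)
  have hl := ne_zero_of_prod_eq_one h1
  have e1 : ∀ j, d * esc v d F (Ys j) = esc v d F Y + Real.log (v (lam j)) := fun j => by
    rw [← esc_app h hd hF (ne_zero_of_wedge_right (hw j)), hf.2, esc_smul h hd hF (hl j) hY]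
  have e2 : ∑ j, Real.log (v (lam j)) = 0 := by
    rw [← Real.log_prod fun j _ => (v.pos (hl j)).ne', ← map_prod, h1, map_one, Real.log_one]
  have e3 : ∑ j, esc v d F (Ys j) = esc v d F Y := by
    apply mul_left_cancel₀ hD
    rw [Finset.mul_sum]
    simp only [e1, Finset.sum_add_distrib, e2, Finset.sum_const, Finset.card_univ,
      Fintype.card_fin, nsmul_eq_mul, add_zero]
  have e4 : ∑ j, Real.log (v (wedge X (Ys j))) = Real.log (v (wedge (app F X) Y)) := by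
    rw [← Real.log_prod fun j _ => (v.pos (hw j)).ne', ← map_prod, hf.1]
  simp only [grn, Finset.sum_add_distrib, Finset.sum_neg_distrib, e3, e4, Finset.sum_const,
    Finset.card_univ, Fintype.card_fin, nsmul_eq_mul, esc_app h hd hF hX0]

lemma sum_esc_crit_le [IsAlgClosed K] [CharZero K] (h : Place v a) (hd : 2 ≤ d) (hF : Normal d F)
    {w : ℝ} (hw : wt v d F + a ≤ w) (Cs : Fin (2 * d - 2) → V K)
    (hC : ∀ Z, jac F Z = ∏ j, wedge Z (Cs j)) : ∑ j, esc v d F (Cs j) ≤ 4 * d * cst d * w := by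
  have hd0 : 0 < d := by omega
  obtain ⟨Z, hZ⟩ := exists_jac_ne hd0 hF.1 (hF.nondeg hd0)
  have hne : ∀ j, Cs j ≠ 0 := fun j => ne_zero_of_wedge_right (X := Z) fun h0 => hZ (by
    rw [hC]; exact Finset.prod_eq_zero (Finset.mem_univ j) h0)
  have h1 := h.prod_nrm_le hF.1.jacP Cs hC (coeff_jacP_le h hF.1)
  rw [← Real.exp_add, ← Real.log_le_iff_le_exp (Finset.prod_pos fun j _ => nrm_pos v (hne j)),
    Real.log_prod fun j _ => (nrm_pos v (hne j)).ne'] at h1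
  have h2 : ∑ j, esc v d F (Cs j) ≤ ∑ j, (Real.log (nrm v (Cs j)) + cst d * w) :=
    Finset.sum_le_sum fun j _ => by
      have := (abs_le.1 (esc_zero h hd hF hw (hne j))).2
      linarith
  rw [Finset.sum_add_distrib, Finset.sum_const, Finset.card_univ, Fintype.card_fin,
    nsmul_eq_mul] at h2
  have h3 : ((2 * d - 2 : ℕ) : ℝ) ≤ 2 * d := by exact_mod_cast Nat.sub_le _ _
  have ha := h.nonneg
  have hwt := wt_nonneg v d F
  have h4 := eight_le_cst d
  have hD : (2 : ℝ) ≤ d := by exact_mod_cast hd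
  have hw0 : 0 ≤ w := by linarith
  have h5 : ((2 * d - 2 : ℕ) : ℝ) * (cst d * w) ≤ 2 * d * (cst d * w) :=
    mul_le_mul_of_nonneg_right h3 (by positivity)
  have h6 : a * ((2 * d - 2 : ℕ) : ℝ) ≤ a * (2 * d) := mul_le_mul_of_nonneg_left h3 ha
  have h7 : 2 * d * (8 * w) ≤ 2 * d * (cst d * w) :=
    mul_le_mul_of_nonneg_left (mul_le_mul_of_nonneg_right h4 hw0) (by positivity)
  have h8 : a * d ≤ w * d := mul_le_mul_of_nonneg_right (by linarith) (by linarith)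
  have h9 : w * 2 ≤ w * d := mul_le_mul_of_nonneg_left hD hw0
  linarith

lemma nrm_mapV (φ : K →+* K') {v' : AbsoluteValue K' ℝ} (hv : ∀ x, v' (φ x) = v x) (Z : V K) :
    nrm v' (mapV φ Z) = nrm v Z := by simp only [nrm, mapV, hv]
lemma esc_mapF (φ : K →+* K') {v' : AbsoluteValue K' ℝ} (hv : ∀ x, v' (φ x) = v x) (Z : V K) :
    esc v' d (mapF φ F) (mapV φ Z) = esc v d F Z := by
  simp only [esc, iter_mapF, nrm_mapV φ hv]
lemma grn_mapF (φ : K →+* K') {v' : AbsoluteValue K' ℝ} (hv : ∀ x, v' (φ x) = v x) (X Y : V K) :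
    grn v' d (mapF φ F) (mapV φ X) (mapV φ Y) = grn v d F X Y := by
  simp only [grn, esc_mapF φ hv, wedge_mapV, hv]
lemma wt_mapF (φ : K →+* K') {v' : AbsoluteValue K' ℝ} (hv : ∀ x, v' (φ x) = v x) :
    wt v' d (mapF φ F) = wt v d F := by
  simp only [wt, mapF, coeff_map, hv]
lemma en_mapF (φ : K →+* K') {v' : AbsoluteValue K' ℝ} (hv : ∀ x, v' (φ x) = v x) (N : ℕ)
    (X : ℕ → V K) : en v' d (mapF φ F) N (fun j => mapV φ (X j)) = en v d F N X := by
  simp only [en, grn_mapF φ hv]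
lemma Small.mapF {G : PM K} {X : ℕ → V K} (h : Small v d F G X) (φ : K →+* K')
    {v' : AbsoluteValue K' ℝ} (hv : ∀ x, v' (φ x) = v x) :
    Small v' d (mapF φ F) (mapF φ G) fun j => mapV φ (X j) := by
  intro δ hδ N₀
  obtain ⟨N, h1, h2, h3⟩ := h δ hδ N₀
  exact ⟨N, h1, by rwa [en_mapF φ hv], by rwa [en_mapF φ hv]⟩

end Abs

section Normed
variable {L : Type} [NormedField L] {d : ℕ} {F : PM L} {G G' : V L → ℝ}

@[simp] lemma nv_apply (x : L) : nv L x = ‖x‖ := rfl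
lemma norm_V (Z : V L) : ‖Z‖ = max ‖Z 0‖ ‖Z 1‖ := by
  apply le_antisymm
  · refine (pi_norm_le_iff_of_nonneg ((norm_nonneg _).trans (le_max_left _ _))).2 fun i => ?_
    fin_cases i
    · exact le_max_left _ _
    · exact le_max_right _ _
  · exact max_le (norm_le_pi_norm Z 0) (norm_le_pi_norm Z 1)
lemma nrm_nv (Z : V L) : nrm (nv L) Z = ‖Z‖ := (norm_V Z).symm
lemma place_nv_complex : Place (nv ℂ) 1 := Or.inr ⟨rfl, RingHom.id ℂ, fun _ => rfl⟩
lemma place_nv_ultra [IsUltrametricDist L] : Place (nv L) 0 :=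
  Or.inl ⟨rfl, fun x y => IsUltrametricDist.norm_add_le_max x y⟩
lemma dyn_esc [IsAlgClosed L] {a : ℝ} (h : Place (nv L) a) (hd : 2 ≤ d) (hF : Normal d F) :
    Dyn d F (esc (nv L) d F) :=
  ⟨hd, hF.1, hF.nondeg (by omega), ⟨_, fun Z hZ => by
    rw [← nrm_nv]; exact esc_zero h hd hF le_rfl hZ⟩, fun t Z ht hZ => esc_smul h hd hF ht hZ,
    fun Z hZ => esc_app h hd hF hZ⟩
lemma Dyn.smul (h : Dyn d F G) {c : L} (hc : c ≠ 0) :
    Dyn d (c • F) fun Z => G Z + Real.log ‖c‖ / ((d : ℝ) - 1) := by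
  obtain ⟨⟨C, hC⟩, h2, h3⟩ := h.esc
  have hD : (2 : ℝ) ≤ d := by exact_mod_cast h.two
  refine ⟨h.two, h.hom.smul c, h.nondeg.smul hc, ⟨C + |Real.log ‖c‖ / ((d : ℝ) - 1)|,
    fun Z hZ => ?_⟩, fun t Z ht hZ => ?_, fun Z hZ => ?_⟩
  · have := abs_add_le (G Z - Real.log ‖Z‖) (Real.log ‖c‖ / ((d : ℝ) - 1))
    have h4 := hC Z hZ
    rw [show G Z + Real.log ‖c‖ / ((d : ℝ) - 1) - Real.log ‖Z‖ =
      G Z - Real.log ‖Z‖ + Real.log ‖c‖ / ((d : ℝ) - 1) by ring]
    linarith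
  · simp only [h2 t Z ht hZ]; ring
  · have h4 : (d : ℝ) - 1 ≠ 0 := by linarith
    simp only [app_smulF, h2 c _ hc (h.nondeg.app_ne hZ), h3 Z hZ]
    field_simp
    ring
lemma exists_dyn [IsAlgClosed L] {a : ℝ} (h : Place (nv L) a) (hd : 2 ≤ d) (hF : Hom d F)
    (hN : Nondeg F) : ∃ G, Dyn d F G := by
  obtain ⟨c, hc, hn⟩ := exists_normal (by omega) hF hN
  have := (dyn_esc h hd hn).smul (inv_ne_zero hc)
  rw [smul_smul, inv_mul_cancel₀ hc, one_smul] at this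
  exact ⟨_, this⟩
lemma Dyn.iter (h : Dyn d F G) (n : ℕ) {Z : V L} (hZ : Z ≠ 0) :
    G ((app F)^[n] Z) = (d : ℝ) ^ n * G Z := by
  induction n with
  | zero => simp
  | succ n ih =>
    rw [Function.iterate_succ_apply', h.esc.2.2 _ (h.nondeg.iter_ne n hZ), ih]
    ring
lemma Dyn.approx (h : Dyn d F G) : ∃ C : ℝ, 0 < C ∧ ∀ (n : ℕ) (Z : V L), Z ≠ 0 →
    |G Z - Real.log ‖(app F)^[n] Z‖ / (d : ℝ) ^ n| ≤ C / (d : ℝ) ^ n := by
  obtain ⟨C, hC⟩ := h.esc.1
  have hD : (0 : ℝ) < d := by exact_mod_cast (by have := h.two; omega : 0 < d)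
  refine ⟨max C 1, lt_max_of_lt_right one_pos, fun n Z hZ => ?_⟩
  have h1 := (hC _ (h.nondeg.iter_ne n hZ)).trans (le_max_left C 1)
  rw [h.iter n hZ] at h1
  have e : G Z - Real.log ‖(app F)^[n] Z‖ / (d : ℝ) ^ n =
      ((d : ℝ) ^ n * G Z - Real.log ‖(app F)^[n] Z‖) / (d : ℝ) ^ n := by field_simp
  rw [e, abs_div, abs_of_pos (pow_pos hD n)]
  exact div_le_div_of_nonneg_right h1 (pow_pos hD n).le
lemma EscAux.tendsto_div (h : Dyn d F G) (C : ℝ) :
    Tendsto (fun n : ℕ => C / (d : ℝ) ^ n) atTop (𝓝 0) :=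
  tendsto_const_nhds.div_atTop (tendsto_pow_atTop_atTop_of_one_lt
    (by exact_mod_cast (by have := h.two; omega : 1 < d)))
lemma Dyn.tendsto (h : Dyn d F G) {Z : V L} (hZ : Z ≠ 0) :
    Tendsto (fun n : ℕ => Real.log ‖(app F)^[n] Z‖ / (d : ℝ) ^ n) atTop (𝓝 (G Z)) := by
  obtain ⟨C, -, hC⟩ := h.approx
  rw [tendsto_iff_dist_tendsto_zero]
  refine squeeze_zero (fun _ => dist_nonneg) (fun n => ?_) (tendsto_div h C)
  rw [dist_comm, Real.dist_eq]
  exact hC n Z hZ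
lemma Dyn.unique (h : Dyn d F G) (h' : Dyn d F G') {Z : V L} (hZ : Z ≠ 0) : G Z = G' Z :=
  tendsto_nhds_unique (h.tendsto hZ) (h'.tendsto hZ)
lemma Dyn.esc_eq (h : Dyn d F G) {Z : V L} (hZ : Z ≠ 0) : H92.esc (nv L) d F Z = G Z := by
  unfold H92.esc
  simp only [nrm_nv]
  exact (h.tendsto hZ).limUnder_eq
lemma continuous_app (F : PM L) : Continuous (app F) :=
  continuous_pi fun i => MvPolynomial.continuous_eval (F i)
lemma Dyn.continuousAt (h : Dyn d F G) {Z : V L} (hZ : Z ≠ 0) : ContinuousAt G Z := by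
  obtain ⟨C, -, hC⟩ := h.approx
  have hu : TendstoUniformlyOn (fun (n : ℕ) (W : V L) => Real.log ‖(app F)^[n] W‖ / (d : ℝ) ^ n)
      G atTop {W | W ≠ 0} := by
    rw [Metric.tendstoUniformlyOn_iff]
    intro ε hε
    filter_upwards [(tendsto_div h C).eventually (gt_mem_nhds hε)] with n hn W hW
    rw [Real.dist_eq]
    exact (hC n W hW).trans_lt hn
  have hc : ContinuousOn G {W | W ≠ 0} := hu.continuousOn (Frequently.of_forall fun n => by
    refine ContinuousOn.div_const (ContinuousOn.log ?_ fun W hW => ?_) _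
    · exact ((continuous_app F).iterate n).norm.continuousOn
    · exact norm_ne_zero_iff.2 (h.nondeg.iter_ne n hW))
  exact hc.continuousAt (isOpen_ne.mem_nhds hZ)
lemma Dyn.continuous_aff (h : Dyn d F G) : Continuous fun z : L => G ![z, 1] := by
  rw [continuous_iff_continuousAt]
  intro z
  have hc : Continuous fun z : L => (![z, 1] : V L) := by fun_prop
  exact ContinuousAt.comp (f := fun z : L => (![z, 1] : V L)) (h.continuousAt (aff_ne_zero z))
    hc.continuousAt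
lemma Dyn.congr (h : Dyn d F G) (hG : ∀ Z, Z ≠ 0 → G' Z = G Z) : Dyn d F G' := by
  obtain ⟨⟨C, hC⟩, h2, h3⟩ := h.esc
  refine ⟨h.two, h.hom, h.nondeg, ⟨C, fun Z hZ => ?_⟩, fun t Z ht hZ => ?_, fun Z hZ => ?_⟩
  · rw [hG Z hZ]; exact hC Z hZ
  · rw [hG Z hZ, hG _ (smul_ne_zero ht hZ), h2 t Z ht hZ]
  · rw [hG Z hZ, hG _ (h.nondeg.app_ne hZ), h3 Z hZ]
lemma Dyn.itr (h : Dyn d F G) {n : ℕ} (hn : 0 < n) : Dyn (d ^ n) (itr F n) G := by
  refine ⟨h.two.trans (Nat.le_self_pow hn.ne' d), h.hom.itr n, h.nondeg.itr n, h.esc.1, h.esc.2.1,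
    fun Z hZ => ?_⟩
  rw [app_itr, h.iter n hZ]
  push_cast
  rfl
lemma EscAux.norm_mulVec_le (M : Mat L) : ∃ C : ℝ, 1 ≤ C ∧ ∀ Z : V L, ‖M.mulVec Z‖ ≤ C * ‖Z‖ := by
  refine ⟨1 + ‖M 0 0‖ + ‖M 0 1‖ + ‖M 1 0‖ + ‖M 1 1‖, by
    have := norm_nonneg (M 0 0); have := norm_nonneg (M 0 1); have := norm_nonneg (M 1 0)
    have := norm_nonneg (M 1 1); linarith, fun Z => ?_⟩
  have key : ∀ i, ‖M.mulVec Z i‖ ≤ (‖M i 0‖ + ‖M i 1‖) * ‖Z‖ := fun i => by
    rw [mulVec_apply, add_mul]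
    refine (norm_add_le _ _).trans (add_le_add ?_ ?_)
    · rw [norm_mul]; exact mul_le_mul_of_nonneg_left (norm_le_pi_norm Z 0) (norm_nonneg _)
    · rw [norm_mul]; exact mul_le_mul_of_nonneg_left (norm_le_pi_norm Z 1) (norm_nonneg _)
  have := norm_nonneg (M 0 0); have := norm_nonneg (M 0 1); have := norm_nonneg (M 1 0)
  have := norm_nonneg (M 1 1)
  rw [norm_V]
  exact max_le ((key 0).trans (mul_le_mul_of_nonneg_right (by linarith) (norm_nonneg _)))
    ((key 1).trans (mul_le_mul_of_nonneg_right (by linarith) (norm_nonneg _)))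
lemma exists_log_mulVec {M : Mat L} (hM : M.det ≠ 0) :
    ∃ C : ℝ, ∀ Z : V L, Z ≠ 0 → |Real.log ‖M.mulVec Z‖ - Real.log ‖Z‖| ≤ C := by
  obtain ⟨C, hC1, hC⟩ := norm_mulVec_le M
  obtain ⟨C', hC1', hC'⟩ := norm_mulVec_le M⁻¹
  refine ⟨Real.log C + Real.log C', fun Z hZ => ?_⟩
  have p1 : 0 < ‖Z‖ := norm_pos_iff.2 hZ
  have p2 : 0 < ‖M.mulVec Z‖ := norm_pos_iff.2 (mulVec_ne_zero hM hZ)
  have h1 := Real.log_le_log p2 (hC Z)
  have h2 := hC' (M.mulVec Z)
  rw [Matrix.mulVec_mulVec, Matrix.nonsing_inv_mul _ (isUnit_iff_ne_zero.2 hM),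
    Matrix.one_mulVec] at h2
  have h3 := Real.log_le_log p1 h2
  rw [Real.log_mul (by linarith) p1.ne'] at h1
  rw [Real.log_mul (by linarith) p2.ne'] at h3
  have := Real.log_nonneg hC1
  have := Real.log_nonneg hC1'
  rw [abs_le]
  constructor <;> linarith
lemma Dyn.conj (h : Dyn d F G) {M : Mat L} (hM : M.det = 1) :
    Dyn d (conj M F) fun Z => G (M.mulVec Z) := by
  have hM0 : M.det ≠ 0 := by rw [hM]; exact one_ne_zero
  obtain ⟨⟨C, hC⟩, h2, h3⟩ := h.esc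
  obtain ⟨C', hC'⟩ := exists_log_mulVec hM0
  refine ⟨h.two, h.hom.conj M, h.nondeg.conj hM0, ⟨C + C', fun Z hZ => ?_⟩, fun t Z ht hZ => ?_,
    fun Z hZ => ?_⟩
  · have h4 := abs_le.1 (hC _ (mulVec_ne_zero hM0 hZ))
    have h5 := abs_le.1 (hC' Z hZ)
    rw [abs_le]
    constructor <;> linarith [h4.1, h4.2, h5.1, h5.2]
  · simp only [Matrix.mulVec_smul, h2 t _ ht (mulVec_ne_zero hM0 hZ)]
  · simp only [mulVec_app_conj hM, h3 _ (mulVec_ne_zero hM0 hZ)]

end Normed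

end Pool.Agent.MP_3827f0_nt.H92
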