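import Pool.Agent.MP_3827f0_nt.H92.Alg

/-! Sizes of forms at a place. -/

set_option autoImplicit false

namespace Pool.Agent.MP_3827f0_nt.H92

open MvPolynomial Filter Topology

section Abs
variable {K K' : Type} [Field K] [Field K'] {v : AbsoluteValue K ℝ} {a : ℝ} {d : ℕ} {F : PM K}

lemma Place.nonneg (h : Place v a) : 0 ≤ a := by
  rcases h with ⟨rfl, -⟩ | ⟨rfl, -⟩ <;> norm_num
lemma Place.add_le (h : Place v a) (x y : K) : v (x + y) ≤ Real.exp a * max (v x) (v y) := by
  rcases h with ⟨rfl, hv⟩ | ⟨rfl, -⟩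
  · rw [Real.exp_zero, one_mul]; exact hv x y
  · have h1 := v.add_le x y
    have h2 : (2 : ℝ) ≤ Real.exp 1 := by have := Real.add_one_le_exp (1 : ℝ); linarith
    have h3 := le_max_left (v x) (v y)
    have h4 := le_max_right (v x) (v y)
    have h5 : 0 ≤ max (v x) (v y) := (v.nonneg x).trans h3
    nlinarith
lemma wt_nonneg (v : AbsoluteValue K ℝ) (d : ℕ) (F : PM K) : 0 ≤ wt v d F :=
  Finset.sum_nonneg fun _ _ => Finset.sum_nonneg fun _ _ => Real.posLog_nonneg
lemma nrm_nonneg (v : AbsoluteValue K ℝ) (Z : V K) : 0 ≤ nrm v Z :=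
  (v.nonneg _).trans (le_max_left _ _)
lemma le_nrm (v : AbsoluteValue K ℝ) (Z : V K) (i : Fin 2) : v (Z i) ≤ nrm v Z := by
  fin_cases i
  · exact le_max_left _ _
  · exact le_max_right _ _
lemma nrm_pos (v : AbsoluteValue K ℝ) {Z : V K} (hZ : Z ≠ 0) : 0 < nrm v Z := by
  rcases vec_ne_zero_iff.1 hZ with h | h
  · exact (v.pos h).trans_le (le_nrm v Z 0)
  · exact (v.pos h).trans_le (le_nrm v Z 1)
lemma nrm_smul (v : AbsoluteValue K ℝ) (t : K) (Z : V K) : nrm v (t • Z) = v t * nrm v Z := by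
  simp only [nrm, Pi.smul_apply, smul_eq_mul, map_mul, mul_max_of_nonneg _ _ (v.nonneg t)]
lemma Place.sub_le (h : Place v a) (x y : K) : v (x - y) ≤ Real.exp a * max (v x) (v y) := by
  have := h.add_le x (-y)
  rwa [v.map_neg, ← sub_eq_add_neg] at this
lemma Place.wedge_le (h : Place v a) (X Y : V K) :
    v (wedge X Y) ≤ Real.exp a * (nrm v X * nrm v Y) := by
  refine (h.sub_le _ _).trans (mul_le_mul_of_nonneg_left (max_le ?_ ?_) (Real.exp_pos a).le)
  · rw [map_mul]
    exact mul_le_mul (le_nrm v X 0) (le_nrm v Y 1) (v.nonneg _) (nrm_nonneg v X)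
  · rw [map_mul]
    exact mul_le_mul (le_nrm v X 1) (le_nrm v Y 0) (v.nonneg _) (nrm_nonneg v X)

namespace EscAux

lemma sum_le (h : Place v a) {ι : Type} (s : Finset ι) (x : ι → K) {B : ℝ} (hB : 0 ≤ B)
    (hx : ∀ i ∈ s, v (x i) ≤ B) : v (∑ i ∈ s, x i) ≤ Real.exp (a * s.card) * B := by
  classical
  induction s using Finset.induction_on with
  | empty => simpa using hB
  | insert i s hi ih =>
    rw [Finset.sum_insert hi, Finset.card_insert_of_notMem hi]
    have h1 := ih fun j hj => hx j (Finset.mem_insert_of_mem hj)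
    have h2 := hx i (Finset.mem_insert_self _ _)
    have h3 : 1 ≤ Real.exp (a * s.card) := Real.one_le_exp (mul_nonneg h.nonneg (by positivity))
    refine (h.add_le _ _).trans ?_
    have h4 : max (v (x i)) (v (∑ j ∈ s, x j)) ≤ Real.exp (a * s.card) * B :=
      max_le (h2.trans (le_mul_of_one_le_left hB h3)) h1
    refine (mul_le_mul_of_nonneg_left h4 (Real.exp_pos a).le).trans (le_of_eq ?_)
    rw [← mul_assoc, ← Real.exp_add]
    congr 2
    push_cast
    ring

lemma nat_le (h : Place v a) (n : ℕ) : v (n : K) ≤ Real.exp (a * n) := by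
  have := sum_le h (Finset.range n) (fun _ => (1 : K)) zero_le_one (fun _ _ => by simp)
  simpa using this

lemma eval_le (h : Place v a) {n : ℕ} {p : MvPolynomial (Fin 2) K} (hp : p.IsHomogeneous n)
    {B : ℝ} (hB : ∀ m, v (coeff m p) ≤ B) (Z : V K) :
    v (eval Z p) ≤ Real.exp (a * (n + 1)) * (B * nrm v Z ^ n) := by
  have hB0 : 0 ≤ B := (v.nonneg _).trans (hB 0)
  have hn := nrm_nonneg v Z
  rw [eval_eq_sum_mo hp]
  have := sum_le h (Finset.range (n + 1)) (fun k => coeff (mo n k) p * Z 0 ^ k * Z 1 ^ (n - k))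
    (B := B * nrm v Z ^ n) (by positivity) (fun k hk => by
      have hk' : k ≤ n := by have := Finset.mem_range.1 hk; omega
      have e : nrm v Z ^ n = nrm v Z ^ k * nrm v Z ^ (n - k) := by
        rw [← pow_add]; congr 1; omega
      rw [map_mul, map_mul, map_pow, map_pow, e, ← mul_assoc]
      have h0 := v.nonneg (Z 0)
      have h1 := v.nonneg (Z 1)
      gcongr
      · exact hB _
      · exact le_nrm v Z 0
      · exact le_nrm v Z 1)
  simpa using this

lemma exists_unit [IsAlgClosed K] (hv : IsNonarchimedean v) {n : ℕ} (c : Fin n → K)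
    (hc : ∀ j, v (c j) ≤ 1) : ∃ z, v z ≤ 1 ∧ ∀ j, v (z - c j) = 1 := by
  set q : Polynomial K := Polynomial.X * ∏ j, (Polynomial.X - Polynomial.C (c j)) with hq
  have hm : q.Monic := Polynomial.monic_X.mul
    (Polynomial.monic_prod_of_monic _ _ fun j _ => Polynomial.monic_X_sub_C _)
  have h0 : q.eval 0 = 0 := by simp [hq]
  have hdeg : (q - 1).degree ≠ 0 := by
    intro hd
    have h1 := Polynomial.eq_C_of_degree_eq_zero hd
    have h2 : (q - 1).coeff 0 = -1 := by
      rw [Polynomial.coeff_zero_eq_eval_zero]; simp [h0]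
    rw [h2] at h1
    apply hm.ne_zero
    have : q = (q - 1) + 1 := by ring
    rw [this, h1]
    simp
  obtain ⟨z, hz⟩ := IsAlgClosed.exists_root _ hdeg
  have hz1 : z * ∏ j, (z - c j) = 1 := by
    have := hz
    simp only [Polynomial.IsRoot, hq, Polynomial.eval_sub, Polynomial.eval_mul, Polynomial.eval_X,
      Polynomial.eval_prod, Polynomial.eval_C, Polynomial.eval_one] at this
    exact sub_eq_zero.1 this
  have hz2 : v z * ∏ j, v (z - c j) = 1 := by
    have := congrArg v hz1
    rwa [map_mul, map_prod, map_one] at this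
  have hsub : ∀ x y : K, v (x - y) ≤ max (v x) (v y) := fun x y => by
    have := hv x (-y)
    rwa [v.map_neg, ← sub_eq_add_neg] at this
  have hz3 : v z ≤ 1 := by
    by_contra hlt
    push Not at hlt
    have h1 : ∀ j, 1 ≤ v (z - c j) := fun j => by
      have h2 := hv (z - c j) (c j)
      rw [sub_add_cancel] at h2
      rcases le_max_iff.1 h2 with h3 | h3
      · exact hlt.le.trans h3
      · exact absurd (h3.trans (hc j)) (not_le.2 hlt)
    have h2 : 1 ≤ ∏ j, v (z - c j) := by
      have := Finset.prod_le_prod (s := Finset.univ) (f := fun _ : Fin n => (1 : ℝ))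
        (fun _ _ => zero_le_one) fun j _ => h1 j
      simpa using this
    nlinarith
  have h4 : ∀ j, v (z - c j) ≤ 1 := fun j => (hsub _ _).trans (max_le hz3 (hc j))
  refine ⟨z, hz3, fun j => le_antisymm (h4 j) ?_⟩
  classical
  rw [← Finset.mul_prod_erase _ _ (Finset.mem_univ j)] at hz2
  have h5 : ∏ k ∈ Finset.univ.erase j, v (z - c k) ≤ 1 :=
    Finset.prod_le_one (fun _ _ => v.nonneg _) fun k _ => h4 k
  have h6 : 0 ≤ ∏ k ∈ Finset.univ.erase j, v (z - c k) := Finset.prod_nonneg fun _ _ => v.nonneg _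
  have h7 := v.nonneg (z - c j)
  have h8 := v.nonneg z
  have h9 : v (z - c j) * ∏ k ∈ Finset.univ.erase j, v (z - c k) ≤ v (z - c j) :=
    mul_le_of_le_one_right h7 h5
  have h10 := mul_le_of_le_one_left (mul_nonneg h7 h6) hz3
  linarith

lemma exists_generic [IsAlgClosed K] (hv : IsNonarchimedean v) {n : ℕ} (A : Fin n → V K) :
    ∃ Z : V K, nrm v Z = 1 ∧ ∀ j, v (wedge Z (A j)) = nrm v (A j) := by
  classical
  obtain ⟨z, hz, h⟩ := exists_unit hv
    (fun j => if v (A j 0) ≤ v (A j 1) then A j 0 / A j 1 else 0) (fun j => by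
      split_ifs with hj
      · rw [map_div₀]; exact div_le_one_of_le₀ hj (v.nonneg _)
      · simp)
  refine ⟨![z, 1], by simp [nrm, hz], fun j => ?_⟩
  have hj := h j
  have e : wedge ![z, 1] (A j) = z * A j 1 - A j 0 := by simp [wedge]
  rw [e]
  split_ifs at hj with h1
  · rw [nrm, max_eq_right h1]
    by_cases h0 : A j 1 = 0
    · rw [h0, map_zero] at h1
      have h2 : A j 0 = 0 := v.eq_zero.1 (le_antisymm h1 (v.nonneg _))
      simp [h0, h2]
    · have : z * A j 1 - A j 0 = A j 1 * (z - A j 0 / A j 1) := by field_simp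
      rw [this, map_mul, hj, mul_one]
  · push Not at h1
    rw [nrm, max_eq_left h1.le]
    have h2 : v (z * A j 1) < v (A j 0) := by
      rw [map_mul]
      exact (mul_le_of_le_one_left (v.nonneg _) hz).trans_lt h1
    apply le_antisymm
    · have := hv (z * A j 1) (-A j 0)
      rw [v.map_neg, ← sub_eq_add_neg] at this
      exact this.trans (max_le h2.le le_rfl)
    · have := hv (z * A j 1) (-(z * A j 1 - A j 0))
      rw [v.map_neg, show z * A j 1 + -(z * A j 1 - A j 0) = A j 0 by ring] at this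
      rcases le_max_iff.1 this with h3 | h3
      · exact absurd h3 (not_le.2 h2)
      · exact h3

lemma mahler_lin (x y : ℂ) :
    (Polynomial.C y * Polynomial.X + Polynomial.C (-x)).mahlerMeasure = max ‖x‖ ‖y‖ := by
  by_cases hy : y = 0
  · simp [hy, -map_neg]
  · rw [Polynomial.mahlerMeasure_C_mul_X_add_C hy, norm_neg, max_comm]

lemma prod_le_complex {n : ℕ} {p : MvPolynomial (Fin 2) ℂ} (hp : p.IsHomogeneous n)
    (A : Fin n → V ℂ) (hA : ∀ Z, eval Z p = ∏ j, wedge Z (A j)) {B : ℝ}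
    (hB : ∀ m, ‖coeff m p‖ ≤ B) : ∏ j, max ‖A j 0‖ ‖A j 1‖ ≤ Real.exp n * B := by
  have hB0 : 0 ≤ B := (norm_nonneg _).trans (hB 0)
  have hq : deh p = ∏ j, (Polynomial.C (A j 1) * Polynomial.X + Polynomial.C (-A j 0)) := by
    apply Polynomial.funext
    intro z
    rw [eval_deh, hA, Polynomial.eval_prod]
    refine Finset.prod_congr rfl fun j _ => ?_
    simp [wedge]
    ring
  have h1 : (deh p).mahlerMeasure = ∏ j, max ‖A j 0‖ ‖A j 1‖ := by
    rw [hq, Finset.prod_eq_multiset_prod, Polynomial.prod_mahlerMeasure_eq_mahlerMeasure_prod,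
      Multiset.map_map, Finset.prod_eq_multiset_prod]
    congr 2
    funext j
    exact mahler_lin _ _
  rw [← h1]
  refine (Polynomial.mahlerMeasure_le_sum_norm_coeff _).trans ?_
  rw [Polynomial.sum_over_range' _ (by simp) (n + 1) (Nat.lt_succ_of_le (natDegree_deh_le hp))]
  have h2 : ∑ k ∈ Finset.range (n + 1), ‖(deh p).coeff k‖ ≤ ∑ _k ∈ Finset.range (n + 1), B :=
    Finset.sum_le_sum fun k hk => by
      rw [coeff_deh hp (by have := Finset.mem_range.1 hk; omega)]; exact hB _
  refine h2.trans ?_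
  rw [Finset.sum_const, Finset.card_range, nsmul_eq_mul]
  refine mul_le_mul_of_nonneg_right ?_ hB0
  push_cast
  exact Real.add_one_le_exp _

end EscAux

open EscAux

/-- Gauss lemma and Mahler measure bound: a product of linear forms. -/
lemma Place.prod_nrm_le [IsAlgClosed K] (h : Place v a) {n : ℕ} {p : MvPolynomial (Fin 2) K}
    (hp : p.IsHomogeneous n) (A : Fin n → V K) (hA : ∀ Z, eval Z p = ∏ j, wedge Z (A j)) {B : ℝ}
    (hB : ∀ m, v (coeff m p) ≤ B) : ∏ j, nrm v (A j) ≤ Real.exp (a * n) * B := by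
  rcases id h with ⟨rfl, hv⟩ | ⟨rfl, ι, hι⟩
  · obtain ⟨Z, hZ, hw⟩ := exists_generic hv A
    have := eval_le h hp hB Z
    rw [hA, map_prod, hZ] at this
    simpa [hw] using this
  · have := prod_le_complex (hp.map ι) (fun j => mapV ι (A j)) (prod_wedge_mapF ι p A hA) (B := B)
      (fun m => by rw [coeff_map, ← hι]; exact hB m)
    simpa [nrm, hι, mapV] using this

namespace EscAux

lemma coeff_le (hF : Hom d F) (i : Fin 2) (m : Fin 2 →₀ ℕ) :
    v (coeff m (F i)) ≤ Real.exp (wt v d F) := by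
  by_cases hm : coeff m (F i) = 0
  · rw [hm, map_zero]; exact (Real.exp_pos _).le
  · obtain ⟨k, hk, rfl⟩ := exists_mo (hF i) hm
    have h1 : Real.posLog (v (coeff (mo d k) (F i))) ≤ wt v d F := by
      refine le_trans ?_ (Finset.single_le_sum (f := fun i : Fin 2 => ∑ k ∈ Finset.range (d + 1),
        Real.posLog (v (coeff (mo d k) (F i))))
        (fun _ _ => Finset.sum_nonneg fun _ _ => Real.posLog_nonneg) (Finset.mem_univ i))
      exact Finset.single_le_sum (f := fun k => Real.posLog (v (coeff (mo d k) (F i))))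
        (fun _ _ => Real.posLog_nonneg) (Finset.mem_range.2 (by omega))
    exact (Real.log_le_iff_le_exp (v.pos hm)).1 ((le_max_right _ _).trans h1)

lemma nrm_app_le (h : Place v a) (hF : Hom d F) (Z : V K) :
    nrm v (app F Z) ≤ Real.exp (a * (d + 1) + wt v d F) * nrm v Z ^ d := by
  rw [Real.exp_add, mul_assoc]
  exact max_le (eval_le h (hF 0) (coeff_le hF 0) Z) (eval_le h (hF 1) (coeff_le hF 1) Z)

lemma prod_nrm_ge (h : Place v a) (hd : 0 < d) (hF : Hom d F) {Y : V K} (hY : nrm v Y = 1)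
    {Ys : Fin d → V K} {lam : Fin d → K} (hf : Fact d F Y Ys lam) (h1 : ∏ j, lam j = 1) :
    Real.exp (-(a * (d + 1) + wt v d F)) ≤ ∏ j, nrm v (Ys j) := by
  set u := a * (d + 1) + wt v d F
  have h2 : ∀ j, v (lam j) ≤ Real.exp u * nrm v (Ys j) ^ d := fun j => by
    have := nrm_app_le h hF (Ys j)
    rwa [hf.2, nrm_smul, hY, mul_one] at this
  have h3 : ∏ j, v (lam j) ≤ ∏ j, (Real.exp u * nrm v (Ys j) ^ d) :=
    Finset.prod_le_prod (fun _ _ => v.nonneg _) fun j _ => h2 j
  rw [← map_prod, h1, map_one, Finset.prod_mul_distrib, Finset.prod_const, Finset.card_univ,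
    Fintype.card_fin, Finset.prod_pow, ← mul_pow] at h3
  have h4 : 0 ≤ ∏ j, nrm v (Ys j) := Finset.prod_nonneg fun _ _ => nrm_nonneg v _
  have h5 := (one_le_pow_iff_of_nonneg (mul_nonneg (Real.exp_pos u).le h4) hd.ne').1 h3
  rw [Real.exp_neg, inv_le_iff_one_le_mul₀' (Real.exp_pos u)]
  exact h5

lemma sep_ge (h : Place v a) {A B : Fin d → V K} {u : ℝ} (hA : ∏ j, nrm v (A j) ≤ Real.exp u)
    (hB : ∏ j, nrm v (B j) ≤ Real.exp u) (h1 : ∏ j, ∏ k, wedge (A j) (B k) = 1) (j k : Fin d) :
    Real.exp (-(2 * d * u + a * d ^ 2)) * (nrm v (A j) * nrm v (B k)) ≤ v (wedge (A j) (B k)) := by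
  have hne : ∀ j k, wedge (A j) (B k) ≠ 0 := fun j k h0 => by
    rw [Finset.prod_eq_zero (Finset.mem_univ j) (Finset.prod_eq_zero (Finset.mem_univ k) h0)] at h1
    exact zero_ne_one h1
  have pA : ∀ i, 0 < nrm v (A i) := fun i => nrm_pos v (ne_zero_of_wedge_left (hne i k))
  have pB : ∀ i, 0 < nrm v (B i) := fun i => nrm_pos v (ne_zero_of_wedge_right (hne j i))
  have pw : ∀ i l, 0 < v (wedge (A i) (B l)) := fun i l => v.pos (hne i l)
  set r : Fin d → Fin d → ℝ := fun i l => a + Real.log (nrm v (A i)) + Real.log (nrm v (B l)) -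
    Real.log (v (wedge (A i) (B l))) with hr
  have r0 : ∀ i l, 0 ≤ r i l := fun i l => by
    have := Real.log_le_log (pw i l) (h.wedge_le (A i) (B l))
    rw [Real.log_mul (Real.exp_pos a).ne' (mul_pos (pA i) (pB l)).ne', Real.log_exp,
      Real.log_mul (pA i).ne' (pB l).ne'] at this
    simp only [hr]
    linarith
  have s1 : ∑ i, Real.log (nrm v (A i)) ≤ u := by
    rw [← Real.log_prod fun i _ => (pA i).ne']
    exact (Real.log_le_iff_le_exp (Finset.prod_pos fun i _ => pA i)).2 hA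
  have s2 : ∑ i, Real.log (nrm v (B i)) ≤ u := by
    rw [← Real.log_prod fun i _ => (pB i).ne']
    exact (Real.log_le_iff_le_exp (Finset.prod_pos fun i _ => pB i)).2 hB
  have s3 : ∑ i, ∑ l, Real.log (v (wedge (A i) (B l))) = 0 := by
    have : ∀ i, ∑ l, Real.log (v (wedge (A i) (B l))) = Real.log (∏ l, v (wedge (A i) (B l))) :=
      fun i => (Real.log_prod fun l _ => (pw i l).ne').symm
    simp only [this]
    rw [← Real.log_prod fun i _ => (Finset.prod_pos fun l _ => pw i l).ne']
    simp only [← map_prod, h1, map_one, Real.log_one]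
  have s4 : ∑ i, ∑ l, r i l = a * d ^ 2 + d * ∑ i, Real.log (nrm v (A i)) +
      d * ∑ i, Real.log (nrm v (B i)) := by
    simp only [hr, Finset.sum_sub_distrib, Finset.sum_add_distrib, Finset.sum_const,
      Finset.card_univ, Fintype.card_fin, nsmul_eq_mul, s3, ← Finset.mul_sum]
    ring
  have s5 : r j k ≤ ∑ i, ∑ l, r i l :=
    (Finset.single_le_sum (f := fun l => r j l) (fun l _ => r0 j l) (Finset.mem_univ k)).trans
      (Finset.single_le_sum (f := fun i => ∑ l, r i l)
        (fun i _ => Finset.sum_nonneg fun l _ => r0 i l) (Finset.mem_univ j))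
  have hd0 : (0 : ℝ) ≤ d := Nat.cast_nonneg d
  have s6 : -(2 * d * u + a * d ^ 2) + (Real.log (nrm v (A j)) + Real.log (nrm v (B k))) ≤
      Real.log (v (wedge (A j) (B k))) := by
    have t1 := mul_le_mul_of_nonneg_left s1 hd0
    have t2 := mul_le_mul_of_nonneg_left s2 hd0
    have t3 := h.nonneg
    simp only [hr] at s5
    linarith
  have := Real.exp_le_exp.2 s6
  rwa [Real.exp_add, Real.exp_add, Real.exp_log (pA j), Real.exp_log (pB k),
    Real.exp_log (pw j k)] at this

lemma three_le (h : Place v a) (A B Z : V K) : v (wedge A B) * nrm v Z ≤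
    Real.exp a * max (v (wedge Z B) * nrm v A) (v (wedge Z A) * nrm v B) := by
  have key : ∀ i, v (wedge A B) * v (Z i) ≤
      Real.exp a * max (v (wedge Z B) * nrm v A) (v (wedge Z A) * nrm v B) := fun i => by
    have e : wedge A B * Z i = wedge Z B * A i - wedge Z A * B i := by
      fin_cases i <;> simp [wedge] <;> ring
    rw [← map_mul, e]
    refine (h.sub_le _ _).trans (mul_le_mul_of_nonneg_left (max_le_max ?_ ?_) (Real.exp_pos a).le)
    · rw [map_mul]; exact mul_le_mul_of_nonneg_left (le_nrm v A i) (v.nonneg _)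
    · rw [map_mul]; exact mul_le_mul_of_nonneg_left (le_nrm v B i) (v.nonneg _)
  rw [nrm, mul_max_of_nonneg _ _ (v.nonneg _)]
  exact max_le (key 0) (key 1)

lemma dichotomy (h : Place v a) {A B : Fin d → V K} {s : ℝ} (hA : ∀ j, A j ≠ 0)
    (hB : ∀ j, B j ≠ 0)
    (hs : ∀ j k, Real.exp (-s) * (nrm v (A j) * nrm v (B k)) ≤ v (wedge (A j) (B k))) (Z : V K) :
    (∀ j, Real.exp (-(s + a)) * nrm v Z * nrm v (A j) ≤ v (wedge Z (A j))) ∨
      ∀ j, Real.exp (-(s + a)) * nrm v Z * nrm v (B j) ≤ v (wedge Z (B j)) := by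
  by_contra hc
  push Not at hc
  obtain ⟨⟨j, hj⟩, ⟨k, hk⟩⟩ := hc
  have h1 := three_le h (A j) (B k) Z
  have pA := nrm_pos v (hA j)
  have pB := nrm_pos v (hB k)
  have h2 : max (v (wedge Z (B k)) * nrm v (A j)) (v (wedge Z (A j)) * nrm v (B k)) <
      Real.exp (-(s + a)) * nrm v Z * (nrm v (A j) * nrm v (B k)) := by
    refine max_lt ?_ ?_
    · have := mul_lt_mul_of_pos_right hk pA
      linarith
    · have := mul_lt_mul_of_pos_right hj pB
      linarith
  have h3 := mul_lt_mul_of_pos_left h2 (Real.exp_pos a)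
  have h4 : Real.exp a * Real.exp (-(s + a)) = Real.exp (-s) := by
    rw [← Real.exp_add]; congr 1; ring
  have h5 := mul_le_mul_of_nonneg_right (hs j k) (nrm_nonneg v Z)
  have h6 : Real.exp a * (Real.exp (-(s + a)) * nrm v Z * (nrm v (A j) * nrm v (B k))) =
      Real.exp (-s) * (nrm v (A j) * nrm v (B k)) * nrm v Z := by
    rw [← h4]; ring
  linarith

lemma lower_of {A : Fin d → V K} {t u : ℝ} {Z : V K}
    (h1 : ∀ j, Real.exp (-t) * nrm v Z * nrm v (A j) ≤ v (wedge Z (A j)))
    (h2 : Real.exp (-u) ≤ ∏ j, nrm v (A j)) :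
    Real.exp (-(d * t + u)) * nrm v Z ^ d ≤ v (∏ j, wedge Z (A j)) := by
  have hn := nrm_nonneg v Z
  have h3 : ∏ j, (Real.exp (-t) * nrm v Z * nrm v (A j)) ≤ ∏ j, v (wedge Z (A j)) :=
    Finset.prod_le_prod (fun j _ => mul_nonneg (by positivity) (nrm_nonneg v _)) fun j _ => h1 j
  rw [map_prod]
  refine le_trans ?_ h3
  rw [Finset.prod_mul_distrib, Finset.prod_const, Finset.card_univ, Fintype.card_fin, mul_pow,
    ← Real.exp_nat_mul]
  have h4 : Real.exp (-(d * t + u)) = Real.exp (d * -t) * Real.exp (-u) := by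
    rw [← Real.exp_add]; congr 1; ring
  rw [h4, mul_right_comm]
  exact mul_le_mul_of_nonneg_left h2 (by positivity)

lemma nrm_app_ge [IsAlgClosed K] (h : Place v a) (hd : 0 < d) (hF : Normal d F) (Z : V K) :
    Real.exp (-(d * (2 * d * (a * (d + 1) + wt v d F) + a * d ^ 2 + a) +
      (a * (d + 1) + wt v d F))) * nrm v Z ^ d ≤ nrm v (app F Z) := by
  set u := a * (d + 1) + wt v d F with hu
  have e0 : (![-1, 0] : V K) ≠ 0 := vec_ne_zero_iff.2 (Or.inl (by simp))
  obtain ⟨A, lam, fA, hl⟩ := hF.2 _ e0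
  obtain ⟨B, mu, fB, hm⟩ := hF.2 _ (aff_ne_zero (0 : K))
  have eA : ∀ W, eval W (F 1) = ∏ j, wedge W (A j) := fun W => by
    rw [← fA.1]; simp [wedge, app]
  have eB : ∀ W, eval W (F 0) = ∏ j, wedge W (B j) := fun W => by
    rw [← fB.1]; simp [wedge, app]
  have hle : Real.exp (a * d) * Real.exp (wt v d F) ≤ Real.exp u := by
    rw [← Real.exp_add]
    have := h.nonneg
    exact Real.exp_le_exp.2 (by rw [hu]; nlinarith)
  have uA := (h.prod_nrm_le (hF.1 1) A eA (coeff_le hF.1 1)).trans hle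
  have uB := (h.prod_nrm_le (hF.1 0) B eB (coeff_le hF.1 0)).trans hle
  have lA := prod_nrm_ge h hd hF.1 (by simp [nrm]) fA hl
  have lB := prod_nrm_ge h hd hF.1 (by simp [nrm]) fB hm
  have h1 : ∏ j, ∏ k, wedge (B j) (A k) = 1 := by
    rw [← hm]
    refine Finset.prod_congr rfl fun j _ => ?_
    rw [← eA]
    have := congrFun (fB.2 j) 1
    simpa [app] using this
  have hne : ∀ j k, wedge (B j) (A k) ≠ 0 := fun j k h0 => by
    rw [Finset.prod_eq_zero (Finset.mem_univ j) (Finset.prod_eq_zero (Finset.mem_univ k) h0)] at h1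
    exact zero_ne_one h1
  rcases dichotomy h (fun j => ne_zero_of_wedge_left (hne j j))
    (fun j => ne_zero_of_wedge_right (hne j j)) (sep_ge h uB uA h1) Z with h2 | h2
  · have := lower_of h2 lB
    rw [← eB] at this
    exact this.trans (le_nrm v (app F Z) 0)
  · have := lower_of h2 lA
    rw [← eA] at this
    exact this.trans (le_nrm v (app F Z) 1)

lemma coeff_deh_le (hF : Hom d F) (i : Fin 2) (k : ℕ) :
    v ((deh (F i)).coeff k) ≤ Real.exp (wt v d F) := by
  rw [coeff_deh' (hF i)]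
  split_ifs
  · exact coeff_le hF i _
  · rw [map_zero]; exact (Real.exp_pos _).le

lemma coeff_der_mul_le (h : Place v a) {P Q : Polynomial K} {B : ℝ} (hP : ∀ k, v (P.coeff k) ≤ B)
    (hQ : ∀ k, v (Q.coeff k) ≤ B) (k : ℕ) :
    v ((Polynomial.derivative P * Q).coeff k) ≤ Real.exp (a * (2 * k + 2)) * (B * B) := by
  have hB : 0 ≤ B := (v.nonneg _).trans (hP 0)
  rw [Polynomial.coeff_mul]
  have := sum_le h (Finset.HasAntidiagonal.antidiagonal k)
    (fun x => (Polynomial.derivative P).coeff x.1 * Q.coeff x.2)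
    (B := Real.exp (a * (k + 1)) * (B * B)) (by positivity) (fun x hx => by
      have hx1 : x.1 ≤ k := by have := Finset.HasAntidiagonal.mem_antidiagonal.1 hx; omega
      have h1 : v ((x.1 : K) + 1) ≤ Real.exp (a * (k + 1)) := by
        have := nat_le h (x.1 + 1)
        push_cast at this
        refine this.trans (Real.exp_le_exp.2 (mul_le_mul_of_nonneg_left ?_ h.nonneg))
        have : (x.1 : ℝ) ≤ k := by exact_mod_cast hx1
        linarith
      rw [Polynomial.coeff_derivative, map_mul, map_mul]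
      calc v (P.coeff (x.1 + 1)) * v ((x.1 : K) + 1) * v (Q.coeff x.2)
          ≤ B * Real.exp (a * (k + 1)) * B := by
            have := v.nonneg ((x.1 : K) + 1)
            have := v.nonneg (Q.coeff x.2)
            gcongr
            · exact hP _
            · exact hQ _
        _ = _ := by ring)
  refine this.trans (le_of_eq ?_)
  rw [Finset.Nat.card_antidiagonal, ← mul_assoc, ← Real.exp_add]
  congr 2
  push_cast
  ring

lemma coeff_jacP_le (h : Place v a) (hF : Hom d F) (m : Fin 2 →₀ ℕ) :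
    v (coeff m (jacP F)) ≤ Real.exp (a * (5 * d + 3) + 2 * wt v d F) := by
  by_cases hm : coeff m (jacP F) = 0
  · rw [hm, map_zero]; exact (Real.exp_pos _).le
  · obtain ⟨k, hk, rfl⟩ := exists_mo hF.jacP hm
    rw [← coeff_deh hF.jacP hk, deh_jacP hF, Polynomial.coeff_C_mul, map_mul, wr,
      Polynomial.coeff_sub, mul_comm (deh (F 0)) (Polynomial.derivative _)]
    have h1 := coeff_der_mul_le h (coeff_deh_le (v := v) hF 0) (coeff_deh_le hF 1) k
    have h2 := coeff_der_mul_le h (coeff_deh_le (v := v) hF 1) (coeff_deh_le hF 0) k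
    have h3 := (h.sub_le _ _).trans
      (mul_le_mul_of_nonneg_left (max_le h1 h2) (Real.exp_pos a).le)
    have h4 := mul_le_mul (nat_le h d) h3 (v.nonneg _) (Real.exp_pos _).le
    refine h4.trans ?_
    rw [← Real.exp_add, ← Real.exp_add, ← Real.exp_add, ← Real.exp_add]
    refine Real.exp_le_exp.2 ?_
    have hk' : (k : ℝ) ≤ 2 * d := by
      have : k ≤ 2 * d := by omega
      exact_mod_cast this
    have := h.nonneg
    nlinarith

end EscAux

end Abs

end Pool.Agent.MP_3827f0_nt.H92
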