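import Pool.Agent.MP_3827f0_nt.H92.GLim

/-! Heights for a family of places with a product formula. -/

set_option autoImplicit false

namespace Pool.Agent.MP_3827f0_nt.H92

open Filter MeasureTheory

variable {K : Type} [Field K] (A : Adelic K)

instance : MeasurableSpace A.Ω := A.ms

/-- The height of a number. -/
noncomputable def ht (x : K) : ℝ := ∫ ω, Real.posLog (A.v ω x) ∂A.μ

/-- The canonical height of a point. -/
noncomputable def hh (d : ℕ) (F : PM K) (X : V K) : ℝ := ∫ ω, esc (A.v ω) d F X ∂A.μ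

lemma measurable_posLog_v (x : K) : Measurable fun ω => Real.posLog (A.v ω x) :=
  Real.continuous_posLog.measurable.comp (A.meas_v x)

lemma integrable_posLog_v (x : K) : Integrable (fun ω => Real.posLog (A.v ω x)) A.μ := by
  simpa only [Real.posLog_apply, max_comm] using (A.int_v x).pos_part

lemma ht_nonneg (x : K) : 0 ≤ ht A x := integral_nonneg fun _ => Real.posLog_nonneg

lemma integral_abs_log (x : K) : ∫ ω, |Real.log (A.v ω x)| ∂A.μ = 2 * ht A x := by
  have e : ∀ ω, |Real.log (A.v ω x)| = 2 * Real.posLog (A.v ω x) - Real.log (A.v ω x) :=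
    fun ω => by rw [← Real.half_mul_log_add_log_abs]; ring
  have h0 : ∫ ω, Real.log (A.v ω x) ∂A.μ = 0 := by
    by_cases hx : x = 0
    · simp [hx]
    · exact A.prod_v x hx
  simp only [e]
  rw [integral_sub ((integrable_posLog_v A x).const_mul 2) (A.int_v x), integral_const_mul, h0,
    sub_zero, ht]

lemma measurable_wt (d : ℕ) (F : PM K) : Measurable fun ω => wt (A.v ω) d F :=
  Finset.measurable_sum _ fun _ _ => Finset.measurable_sum _ fun _ _ => measurable_posLog_v A _

lemma integrable_wt (d : ℕ) (F : PM K) : Integrable (fun ω => wt (A.v ω) d F) A.μ :=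
  integrable_finsetSum _ fun _ _ => integrable_finsetSum _ fun _ _ => integrable_posLog_v A _

lemma ht_coeff_le {d : ℕ} {F : PM K} (hF : Hom d F) (i : Fin 2) (m : Fin 2 →₀ ℕ) :
    ht A (MvPolynomial.coeff m (F i)) ≤ ∫ ω, wt (A.v ω) d F ∂A.μ := by
  refine integral_mono (integrable_posLog_v A _) (integrable_wt A d F) fun ω => ?_
  by_cases h : MvPolynomial.coeff m (F i) = 0
  · simpa only [h, map_zero, Real.posLog_zero] using wt_nonneg (A.v ω) d F
  obtain ⟨k, hk, rfl⟩ := exists_mo (hF i) h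
  refine le_trans ?_ (Finset.single_le_sum (f := fun i : Fin 2 => ∑ k ∈ Finset.range (d + 1),
    Real.posLog (A.v ω (MvPolynomial.coeff (mo d k) (F i))))
    (fun _ _ => Finset.sum_nonneg fun _ _ => Real.posLog_nonneg) (Finset.mem_univ i))
  exact Finset.single_le_sum
    (f := fun k => Real.posLog (A.v ω (MvPolynomial.coeff (mo d k) (F i))))
    (fun _ _ => Real.posLog_nonneg) (Finset.mem_range.2 (Nat.lt_succ_of_le hk))

namespace GHtAux

open GLimAux

section Loc
variable {v : AbsoluteValue K ℝ} {a : ℝ}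

lemma le_exp_posLog {t : ℝ} (ht : 0 ≤ t) : t ≤ Real.exp (Real.posLog t) := by
  rw [Real.posLog_eq_log_max_one ht, Real.exp_log (lt_max_of_lt_left one_pos)]
  exact le_max_right _ _

lemma posLog_le {t b : ℝ} (ht : 0 ≤ t) (hb : 0 ≤ b) (h : t ≤ Real.exp b) : Real.posLog t ≤ b := by
  have := Real.posLog_le_posLog ht h
  rwa [Real.posLog_apply (x := Real.exp b), Real.log_exp, max_eq_right hb] at this

lemma sum_le (h : Place v a) (y : ℕ → K) {M : ℝ} (hM : 0 ≤ M) (n : ℕ)
    (hy : ∀ j < n, v (y j) ≤ M) : v (∑ j ∈ Finset.range n, y j) ≤ Real.exp (n * a) * M := by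
  induction n with
  | zero => simpa using hM
  | succ n ih =>
    have h1 : M ≤ Real.exp (n * a) * M :=
      le_mul_of_one_le_left hM (Real.one_le_exp (mul_nonneg n.cast_nonneg h.nonneg))
    rw [Finset.sum_range_succ]
    refine (h.add_le _ _).trans ?_
    have h2 := max_le (ih fun j hj => hy j (by omega)) ((hy n (by omega)).trans h1)
    refine (mul_le_mul_of_nonneg_left h2 (Real.exp_pos a).le).trans (le_of_eq ?_)
    rw [← mul_assoc, ← Real.exp_add]
    congr 2
    push_cast
    ring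

lemma posLog_add_le (h : Place v a) (x y : K) :
    Real.posLog (v (x + y)) ≤ a + (Real.posLog (v x) + Real.posLog (v y)) := by
  have h1 : 0 ≤ Real.posLog (v x) := Real.posLog_nonneg
  have h2 : 0 ≤ Real.posLog (v y) := Real.posLog_nonneg
  refine posLog_le (v.nonneg _) (add_nonneg h.nonneg (add_nonneg h1 h2)) ((h.add_le x y).trans ?_)
  rw [Real.exp_add]
  refine mul_le_mul_of_nonneg_left (max_le ?_ ?_) (Real.exp_pos a).le
  · exact (le_exp_posLog (v.nonneg x)).trans (Real.exp_le_exp.2 (le_add_of_nonneg_right h2))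
  · exact (le_exp_posLog (v.nonneg y)).trans (Real.exp_le_exp.2 (le_add_of_nonneg_left h1))

lemma posLog_root_le (h : Place v a) {x : K} {n : ℕ} {b : ℕ → K}
    (hx : x ^ n + ∑ j ∈ Finset.range n, b j * x ^ j = 0) :
    Real.posLog (v x) ≤ n * a + ∑ j ∈ Finset.range n, Real.posLog (v (b j)) := by
  have h0 : 0 ≤ ∑ j ∈ Finset.range n, Real.posLog (v (b j)) :=
    Finset.sum_nonneg fun _ _ => Real.posLog_nonneg
  have h1 : 0 ≤ n * a + ∑ j ∈ Finset.range n, Real.posLog (v (b j)) :=
    add_nonneg (mul_nonneg n.cast_nonneg h.nonneg) h0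
  refine posLog_le (v.nonneg x) h1 ?_
  rcases le_total (v x) 1 with h2 | h2
  · exact h2.trans (Real.one_le_exp h1)
  obtain _ | n := n
  · simp at hx
  have h3 : 0 < v x ^ n := pow_pos (one_pos.trans_le h2) n
  have h4 := sum_le h (fun j => b j * x ^ j)
    (M := Real.exp (∑ j ∈ Finset.range (n + 1), Real.posLog (v (b j))) * v x ^ n)
    (by positivity) (n + 1) fun j hj => by
      rw [map_mul, map_pow]
      refine mul_le_mul ((le_exp_posLog (v.nonneg _)).trans (Real.exp_le_exp.2 ?_))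
        (pow_le_pow_right₀ h2 (by omega)) (pow_nonneg (v.nonneg x) j) (Real.exp_pos _).le
      exact Finset.single_le_sum (f := fun j => Real.posLog (v (b j)))
        (fun _ _ => Real.posLog_nonneg) (Finset.mem_range.2 hj)
  rw [← neg_eq_of_add_eq_zero_right hx, v.map_neg, map_pow, pow_succ', ← mul_assoc,
    ← Real.exp_add] at h4
  exact le_of_mul_le_mul_right h4 h3

end Loc

lemma ht_mul (x y : K) : ht A (x * y) ≤ ht A x + ht A y := by
  rw [ht, ht, ht, ← integral_add (integrable_posLog_v A x) (integrable_posLog_v A y)]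
  refine integral_mono (integrable_posLog_v A _)
    ((integrable_posLog_v A x).add (integrable_posLog_v A y)) fun ω => ?_
  simp only [map_mul]
  exact Real.posLog_mul

lemma ht_add (x y : K) : ht A (x + y) ≤ 1 + (ht A x + ht A y) := by
  have hi := (integrable_posLog_v A x).fun_add (integrable_posLog_v A y)
  rw [ht, ht, ht, ← integral_add (integrable_posLog_v A x) (integrable_posLog_v A y), ← A.sum_a,
    ← integral_add A.int_a hi]
  exact integral_mono (integrable_posLog_v A _) (A.int_a.add hi) fun ω =>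
    posLog_add_le (A.place ω) x y

lemma ht_neg (x : K) : ht A (-x) = ht A x := by simp only [ht, AbsoluteValue.map_neg]

lemma ht_inv (x : K) : ht A x⁻¹ = ht A x := by
  have h1 := integral_abs_log A x⁻¹
  simp only [map_inv₀, Real.log_inv, abs_neg] at h1
  linarith [integral_abs_log A x]

lemma ht_root {x : K} {n : ℕ} {b : ℕ → K} (hx : x ^ n + ∑ j ∈ Finset.range n, b j * x ^ j = 0) :
    ht A x ≤ n + ∑ j ∈ Finset.range n, ht A (b j) := by
  have hi : Integrable (fun ω => ∑ j ∈ Finset.range n, Real.posLog (A.v ω (b j))) A.μ :=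
    integrable_finsetSum _ fun j _ => integrable_posLog_v A _
  have h1 := integral_mono (integrable_posLog_v A x) ((A.int_a.const_mul n).add hi) fun ω =>
    posLog_root_le (A.place ω) hx
  rwa [integral_add' (A.int_a.const_mul n) hi, integral_const_mul, A.sum_a, mul_one,
    integral_finsetSum _ fun j _ => integrable_posLog_v A _] at h1

/-- The elements of bounded relative height. -/
def bdd (H : ℕ → ℝ) (hH : ∀ l, 1 ≤ H l) : Subfield (UP K) where
  carrier := {x | ∃ C : ℝ, ∀ᶠ l in uf, ht A (rep x l) ≤ C * H l}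
  zero_mem' := ⟨0, rep_zero.mono fun l h => (congrArg (ht A) h).trans_le (by simp [ht])⟩
  one_mem' := ⟨0, rep_one.mono fun l h => (congrArg (ht A) h).trans_le (by simp [ht])⟩
  add_mem' := by
    rintro x y ⟨C, hC⟩ ⟨D, hD⟩
    refine ⟨1 + (C + D), ?_⟩
    filter_upwards [rep_add x y, hC, hD] with l h1 h2 h3
    rw [h1]
    linarith [ht_add A (rep x l) (rep y l), hH l]
  mul_mem' := by
    rintro x y ⟨C, hC⟩ ⟨D, hD⟩
    refine ⟨C + D, ?_⟩
    filter_upwards [rep_mul x y, hC, hD] with l h1 h2 h3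
    rw [h1]
    linarith [ht_mul A (rep x l) (rep y l)]
  neg_mem' := by
    rintro x ⟨C, hC⟩
    refine ⟨C, ?_⟩
    filter_upwards [rep_neg x, hC] with l h1 h2
    rwa [h1, ht_neg]
  inv_mem' := by
    rintro x ⟨C, hC⟩
    refine ⟨C, ?_⟩
    filter_upwards [rep_inv x, hC] with l h1 h2
    rwa [h1, ht_inv]

lemma root_mem {H : ℕ → ℝ} (hH : ∀ l, 1 ≤ H l) {x : UP K} {n : ℕ} {b : ℕ → UP K}
    (hb : ∀ j, b j ∈ bdd A H hH) (hx : x ^ n + ∑ j ∈ Finset.range n, b j * x ^ j = 0) :
    x ∈ bdd A H hH := by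
  choose C hC using show ∀ j, ∃ C : ℝ, ∀ᶠ l in uf, ht A (rep (b j) l) ≤ C * H l from hb
  have r : ∀ y : UP K, Germ.coeRingHom uf (rep y) = y := rep_spec
  have h1 : Germ.coeRingHom uf (rep x ^ n + ∑ j ∈ Finset.range n, rep (b j) * rep x ^ j) = 0 := by
    simpa only [map_add, map_pow, map_sum, map_mul, r] using hx
  refine ⟨n + ∑ j ∈ Finset.range n, C j, ?_⟩
  filter_upwards [ev_zero h1, (eventually_all_finset (Finset.range n)).2 fun j _ => hC j]
    with l h2 h3
  simp only [Pi.add_apply, Pi.pow_apply, Finset.sum_apply, Pi.mul_apply] at h2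
  refine (ht_root A h2).trans ?_
  rw [add_mul, Finset.sum_mul]
  exact add_le_add (le_mul_of_one_le_right n.cast_nonneg (hH l)) (Finset.sum_le_sum h3)

lemma measurable_log_nrm (Z : V K) : Measurable fun ω => Real.log (nrm (A.v ω) Z) :=
  ((A.meas_v _).max (A.meas_v _)).log

lemma integrable_log_nrm (Z : V K) : Integrable (fun ω => Real.log (nrm (A.v ω) Z)) A.μ := by
  refine ((A.int_v (Z 0)).abs.add (A.int_v (Z 1)).abs).mono'
    (measurable_log_nrm A Z).aestronglyMeasurable (Eventually.of_forall fun ω => ?_)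
  rw [Real.norm_eq_abs, nrm, Pi.add_apply]
  rcases le_total (A.v ω (Z 0)) (A.v ω (Z 1)) with h | h
  · rw [max_eq_right h]; exact le_add_of_nonneg_left (abs_nonneg _)
  · rw [max_eq_left h]; exact le_add_of_nonneg_right (abs_nonneg _)

lemma integral_log_nrm_nonneg {Z : V K} (hZ : Z ≠ 0) :
    0 ≤ ∫ ω, Real.log (nrm (A.v ω) Z) ∂A.μ := by
  obtain ⟨i, hi⟩ := Function.ne_iff.1 hZ
  rw [← A.prod_v _ hi]
  refine integral_mono (A.int_v _) (integrable_log_nrm A Z) fun ω =>
    Real.log_le_log ((A.v ω).pos hi) ?_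
  fin_cases i
  exacts [le_max_left _ _, le_max_right _ _]

end GHtAux

open GHtAux

/-- A countable algebraically closed field of elements of bounded relative height. -/
theorem exists_field [IsAlgClosed K] [CharZero K] (H : ℕ → ℝ) (hH : ∀ l, 1 ≤ H l) (S : Set (UP K))
    (hS : S.Countable) (hb : ∀ x ∈ S, ∃ C : ℝ, ∀ᶠ l in uf, ht A (rep x l) ≤ C * H l) :
    ∃ (K₀ : Type) (_ : Field K₀) (_ : IsAlgClosed K₀) (_ : CharZero K₀) (_ : Countable K₀)
      (e : K₀ →+* UP K), S ⊆ Set.range e ∧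
        ∀ x, ∃ C : ℝ, ∀ᶠ l in uf, ht A (rep (e x) l) ≤ C * H l := by
  have := isAlgClosed_up K
  have := charZero_up K
  have : Countable (Subfield.closure S) := Cardinal.mk_le_aleph0_iff.1
    ((Subfield.cardinalMk_closure_le_max S).trans (max_le hS.le_aleph0 le_rfl))
  have hle : Subfield.closure S ≤ bdd A H hH := Subfield.closure_le.2 fun x hx => hb x hx
  refine ⟨algebraicClosure (Subfield.closure S) (UP K), inferInstance,
    IsAlgClosure.isAlgClosed (Subfield.closure S), inferInstance,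
    ((Algebraic.countable (Subfield.closure S) (UP K)).mono fun x hx =>
      mem_algebraicClosure_iff.1 hx).to_subtype,
    (algebraicClosure (Subfield.closure S) (UP K)).toSubfield.subtype, fun x hx =>
      ⟨⟨x, (algebraicClosure (Subfield.closure S) (UP K)).algebraMap_mem
        ⟨x, Subfield.subset_closure hx⟩⟩, rfl⟩,
    fun x => ?_⟩
  obtain ⟨p, hp, h⟩ := (mem_algebraicClosure_iff.1 x.2).isIntegral
  refine root_mem A hH (n := p.natDegree) (b := fun j => (p.coeff j : UP K))
    (fun j => hle (p.coeff j).2) ?_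
  rw [Polynomial.eval₂_eq_sum_range, Finset.sum_range_succ, hp.coeff_natDegree, map_one, one_mul,
    add_comm] at h
  exact h

variable [IsAlgClosed K] {d : ℕ} {F : PM K} {X Y : V K}

lemma measurable_esc (hd : 2 ≤ d) (hF : Normal d F) (hX : X ≠ 0) :
    Measurable fun ω => esc (A.v ω) d F X :=
  measurable_of_tendsto_metrizable
    (f := fun (n : ℕ) ω => Real.log (nrm (A.v ω) ((app F)^[n] X)) / (d : ℝ) ^ n)
    (fun _ => (measurable_log_nrm A _).div_const _)
    (tendsto_pi_nhds.2 fun ω => tendsto_esc (A.place ω) hd hF hX)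

lemma GHtAux.abs_le (hd : 2 ≤ d) (hF : Normal d F) (hX : X ≠ 0) (ω : A.Ω) :
    |esc (A.v ω) d F X - Real.log (nrm (A.v ω) X)| ≤ cst d * (wt (A.v ω) d F + A.a ω) := by
  simpa using esc_approx (A.place ω) hd hF le_rfl 0 hX

lemma integrable_esc (hd : 2 ≤ d) (hF : Normal d F) (hX : X ≠ 0) :
    Integrable (fun ω => esc (A.v ω) d F X) A.μ := by
  have h1 : Integrable (fun ω => esc (A.v ω) d F X - Real.log (nrm (A.v ω) X)) A.μ :=
    (((integrable_wt A d F).add A.int_a).const_mul (cst d)).mono'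
      ((measurable_esc A hd hF hX).sub (measurable_log_nrm A X)).aestronglyMeasurable
      (Eventually.of_forall fun ω => GHtAux.abs_le A hd hF hX ω)
  simpa only [Pi.add_def, sub_add_cancel] using h1.add (integrable_log_nrm A X)

lemma hh_app (hd : 2 ≤ d) (hF : Normal d F) (hX : X ≠ 0) : hh A d F (app F X) = d * hh A d F X := by
  simp only [hh, fun ω => esc_app (A.place ω) hd hF hX, integral_const_mul]

lemma GHtAux.hh_iter (hd : 2 ≤ d) (hF : Normal d F) (hX : X ≠ 0) (n : ℕ) :
    hh A d F ((app F)^[n] X) = (d : ℝ) ^ n * hh A d F X := by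
  induction n with
  | zero => simp
  | succ n ih =>
    rw [Function.iterate_succ_apply', hh_app A hd hF ((hF.nondeg (by omega)).iter_ne n hX), ih,
      pow_succ', mul_assoc]

lemma GHtAux.log_nrm_le (hd : 2 ≤ d) (hF : Normal d F) (hX : X ≠ 0) :
    ∫ ω, Real.log (nrm (A.v ω) X) ∂A.μ ≤
      hh A d F X + cst d * ∫ ω, (wt (A.v ω) d F + A.a ω) ∂A.μ := by
  have hi := ((integrable_wt A d F).fun_add A.int_a).const_mul (cst d)
  rw [hh, ← integral_const_mul, ← integral_add (integrable_esc A hd hF hX) hi]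
  refine integral_mono (integrable_log_nrm A X) ((integrable_esc A hd hF hX).add hi) fun ω => ?_
  have := (_root_.abs_le.1 (GHtAux.abs_le A hd hF hX ω)).1
  beta_reduce
  linarith

lemma hh_nonneg (hd : 2 ≤ d) (hF : Normal d F) (hX : X ≠ 0) : 0 ≤ hh A d F X := by
  by_contra h
  have hd1 : (1 : ℝ) < d := by exact_mod_cast hd
  obtain ⟨n, hn⟩ := ((tendsto_pow_atTop_atTop_of_one_lt hd1).atTop_mul_const_of_neg
    (not_le.1 h)).eventually_lt_atBot (-(cst d * ∫ ω, (wt (A.v ω) d F + A.a ω) ∂A.μ)) |>.exists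
  have hn' := (hF.nondeg (by omega)).iter_ne n hX
  have h1 := (integral_log_nrm_nonneg A hn').trans (log_nrm_le A hd hF hn')
  rw [hh_iter A hd hF hX] at h1
  linarith

lemma GHtAux.hh_smul (hd : 2 ≤ d) (hF : Normal d F) (hX : X ≠ 0) {t : K} (ht : t ≠ 0) :
    hh A d F (t • X) = hh A d F X := by
  simp only [hh, fun ω => esc_smul (A.place ω) hd hF ht hX]
  rw [integral_add (integrable_esc A hd hF hX) (A.int_v t), A.prod_v t ht, add_zero]

lemma hh_preper (hd : 2 ≤ d) (hF : Normal d F) (hX : X ≠ 0) (hp : Preper F X) :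
    hh A d F X = 0 := by
  obtain ⟨m, n, hmn, h⟩ := hp
  have hN := hF.nondeg (by omega)
  obtain ⟨t, ht, e⟩ := exists_smul_of_wedge (hN.iter_ne m hX) (hN.iter_ne n hX) h
  have h1 := hh_smul A hd hF (hN.iter_ne n hX) ht
  rw [← e, hh_iter A hd hF hX, hh_iter A hd hF hX] at h1
  have hd1 : (1 : ℝ) < d := by exact_mod_cast hd
  exact (mul_eq_mul_right_iff.1 h1).resolve_left (pow_lt_pow_right₀ hd1 hmn).ne

lemma ht_le_hh (hd : 2 ≤ d) (hF : Normal d F) (hX : X 1 = 1) :
    ht A (X 0) ≤ hh A d F X + cst d * ∫ ω, (wt (A.v ω) d F + A.a ω) ∂A.μ := by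
  have h0 : X ≠ 0 := fun h => by simp [h] at hX
  refine le_trans (le_of_eq ?_) (log_nrm_le A hd hF h0)
  simp only [ht, nrm, hX, map_one, Real.posLog_eq_log_max_one ((A.v _).nonneg _), max_comm]

lemma measurable_grn (hd : 2 ≤ d) (hF : Normal d F) (hXY : wedge X Y ≠ 0) :
    Measurable fun ω => grn (A.v ω) d F X Y :=
  ((A.meas_v _).log.neg.add (measurable_esc A hd hF (GLimAux.ne_of_wedge hXY).1)).add
    (measurable_esc A hd hF (GLimAux.ne_of_wedge hXY).2)

lemma integrable_grn (hd : 2 ≤ d) (hF : Normal d F) (hXY : wedge X Y ≠ 0) :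
    Integrable (fun ω => grn (A.v ω) d F X Y) A.μ :=
  ((A.int_v _).neg.add (integrable_esc A hd hF (GLimAux.ne_of_wedge hXY).1)).add
    (integrable_esc A hd hF (GLimAux.ne_of_wedge hXY).2)

lemma integral_grn (hd : 2 ≤ d) (hF : Normal d F) (hXY : wedge X Y ≠ 0) :
    ∫ ω, grn (A.v ω) d F X Y ∂A.μ = hh A d F X + hh A d F Y := by
  have h1 := integrable_esc A hd hF (GLimAux.ne_of_wedge hXY).1
  simp only [grn]
  rw [integral_add ((A.int_v _).fun_neg.fun_add h1)
      (integrable_esc A hd hF (GLimAux.ne_of_wedge hXY).2),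
    integral_add (A.int_v _).fun_neg h1, integral_neg, A.prod_v _ hXY, neg_zero, zero_add, hh, hh]

lemma measurable_en (hd : 2 ≤ d) (hF : Normal d F) {N : ℕ} {Z : ℕ → V K}
    (hZ : ∀ j < N, ∀ k < N, j ≠ k → wedge (Z j) (Z k) ≠ 0) :
    Measurable fun ω => en (A.v ω) d F N Z := by
  refine Finset.measurable_sum _ fun j hj => Finset.measurable_sum _ fun k hk => ?_
  split_ifs with h
  · exact measurable_const
  · exact measurable_grn A hd hF (hZ j (Finset.mem_range.1 hj) k (Finset.mem_range.1 hk) h)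

lemma GHtAux.integrable_ite (hd : 2 ≤ d) (hF : Normal d F) {j k : ℕ} (h : j ≠ k → wedge X Y ≠ 0) :
    Integrable (fun ω => if j = k then 0 else grn (A.v ω) d F X Y) A.μ := by
  split_ifs with h'
  · exact integrable_zero _ _ _
  · exact integrable_grn A hd hF (h h')

lemma integrable_en (hd : 2 ≤ d) (hF : Normal d F) {N : ℕ} {Z : ℕ → V K}
    (hZ : ∀ j < N, ∀ k < N, j ≠ k → wedge (Z j) (Z k) ≠ 0) :
    Integrable (fun ω => en (A.v ω) d F N Z) A.μ :=
  integrable_finsetSum _ fun j hj => integrable_finsetSum _ fun k hk =>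
    integrable_ite A hd hF (hZ j (Finset.mem_range.1 hj) k (Finset.mem_range.1 hk))

lemma integral_en_le (hd : 2 ≤ d) (hF : Normal d F) {N : ℕ} {Z : ℕ → V K}
    (hZ : ∀ j < N, ∀ k < N, j ≠ k → wedge (Z j) (Z k) ≠ 0) {η : ℝ} (hη : 0 ≤ η)
    (hh0 : ∀ j < N, hh A d F (Z j) ≤ η) :
    ∫ ω, en (A.v ω) d F N Z ∂A.μ ≤ 2 * η * (N : ℝ) ^ 2 := by
  have hi := fun j (hj : j ∈ Finset.range N) k (hk : k ∈ Finset.range N) =>
    integrable_ite A hd hF (hZ j (Finset.mem_range.1 hj) k (Finset.mem_range.1 hk))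
  simp only [en]
  rw [integral_finsetSum _ fun j hj => integrable_finsetSum _ (hi j hj)]
  calc _ ≤ ∑ _j ∈ Finset.range N, ∑ _k ∈ Finset.range N, 2 * η := by
        refine Finset.sum_le_sum fun j hj => ?_
        rw [integral_finsetSum _ (hi j hj)]
        refine Finset.sum_le_sum fun k hk => ?_
        rw [Finset.mem_range] at hj hk
        split_ifs with h
        · rw [integral_zero]; positivity
        · rw [integral_grn A hd hF (hZ j hj k hk h)]; linarith [hh0 j hj, hh0 k hk]
    _ = _ := by simp only [Finset.sum_const, Finset.card_range, nsmul_eq_mul]; ring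

end Pool.Agent.MP_3827f0_nt.H92
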