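import Pool.Agent.MP_3827f0_nt.H92.Alg

/-! A resultant lemma: common roots of two forms in a pencil. -/

set_option autoImplicit false

namespace Pool.Agent.MP_3827f0_nt.H92.UltraAux

open MvPolynomial

lemma map_deh {R S : Type} [CommRing R] [CommRing S] (φ : R →+* S) (p : MvPolynomial (Fin 2) R) :
    (deh p).map φ = deh (map φ p) := by
  induction p using MvPolynomial.induction_on with
  | C a => simp [deh]
  | add p q hp hq =>
    simp only [deh, map_add, Polynomial.map_add] at hp hq ⊢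
    rw [hp, hq]
  | mul_X p i hp =>
    simp only [deh, map_mul, Polynomial.map_mul, aeval_X, map_X] at hp ⊢
    rw [hp]
    fin_cases i <;> simp

variable {K : Type} [Field K]

lemma aff_root {D : ℕ} {p : MvPolynomial (Fin 2) K} (hp : p.IsHomogeneous D) {W : V K}
    (hW : W 1 ≠ 0) (h : eval W p = 0) : (deh p).eval (W 0 / W 1) = 0 := by
  rw [exists_aff hW, eval_smul_of_hom hp] at h
  rw [eval_deh]
  exact (mul_eq_zero.1 h).resolve_left (pow_ne_zero _ hW)

lemma snd_ne {D : ℕ} {p : MvPolynomial (Fin 2) K} (hp : p.IsHomogeneous D) {W : V K}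
    (hW : W ≠ 0) (h : eval W p = 0) (h0 : eval ![1, 0] p ≠ 0) : W 1 ≠ 0 := by
  intro h1
  have hW0 : W 0 ≠ 0 := by
    intro h2
    apply hW
    funext i
    fin_cases i <;> simp [h1, h2]
  have e : W = W 0 • (![1, 0] : V K) := by
    funext i
    fin_cases i <;> simp [h1]
  rw [e, eval_smul_of_hom hp] at h
  exact h0 ((mul_eq_zero.1 h).resolve_left (pow_ne_zero _ hW0))

lemma common_root [IsAlgClosed K] {D E : ℕ} (hD : 0 < D)
    (p q : MvPolynomial (Fin 2) (Polynomial K)) (hp : p.IsHomogeneous D) (hq : q.IsHomogeneous E)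
    (hp0 : eval ![1, 0] (map (Polynomial.evalRingHom 0) p) ≠ 0)
    (hq0 : eval ![1, 0] (map (Polynomial.evalRingHom 0) q) ≠ 0)
    (hinf : {t : K | ∃ W : V K, W ≠ 0 ∧ eval W (map (Polynomial.evalRingHom t) p) = 0 ∧
      eval W (map (Polynomial.evalRingHom t) q) = 0}.Infinite) :
    ∃ W : V K, W ≠ 0 ∧ eval W (map (Polynomial.evalRingHom 0) p) = 0 ∧
      eval W (map (Polynomial.evalRingHom 0) q) = 0 := by
  set a := deh p with ha
  set b := deh q with hb
  have hpt : ∀ t : K, (map (Polynomial.evalRingHom t) p).IsHomogeneous D := fun t => hp.map _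
  have hqt : ∀ t : K, (map (Polynomial.evalRingHom t) q).IsHomogeneous E := fun t => hq.map _
  have hlead : ∀ t : K, (a.coeff D).eval t = eval ![1, 0] (map (Polynomial.evalRingHom t) p) := by
    intro t
    rw [← coeff_deh_top (hpt t), ← map_deh, Polynomial.coeff_map]
    rfl
  have hl0 : a.coeff D ≠ 0 := by
    intro h
    apply hp0
    rw [← hlead, h, Polynomial.eval_zero]
  have hres : ∀ t : K, (Polynomial.resultant a b D E).eval t =
      Polynomial.resultant (deh (map (Polynomial.evalRingHom t) p))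
        (deh (map (Polynomial.evalRingHom t) q)) D E := by
    intro t
    rw [← map_deh, ← map_deh, Polynomial.resultant_map_map]
    rfl
  have hR : Polynomial.resultant a b D E = 0 := by
    apply Polynomial.eq_zero_of_infinite_isRoot
    refine ((hinf.sdiff (Polynomial.finite_setOfPred_isRoot hl0))).mono ?_
    rintro t ⟨⟨W, hW, h1, h2⟩, ht⟩
    have ht' : eval ![1, 0] (map (Polynomial.evalRingHom t) p) ≠ 0 := by
      rw [← hlead]
      exact ht
    have hW1 := snd_ne (hpt t) hW h1 ht'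
    obtain ⟨u, v, -, -, e⟩ := Polynomial.exists_mul_add_mul_eq_C_resultant _ _
      (natDegree_deh_le (hpt t)) (natDegree_deh_le (hqt t)) (Or.inl hD.ne')
    have e' := congrArg (Polynomial.eval (W 0 / W 1)) e
    rw [Polynomial.eval_add, Polynomial.eval_mul, Polynomial.eval_mul, aff_root (hpt t) hW1 h1,
      aff_root (hqt t) hW1 h2, Polynomial.eval_C] at e'
    change (Polynomial.resultant a b D E).eval t = 0
    rw [hres, ← e']
    ring
  have h0 := hres 0
  rw [hR, Polynomial.eval_zero] at h0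
  have hda : (deh (map (Polynomial.evalRingHom 0) p)).natDegree = D :=
    Polynomial.natDegree_eq_of_le_of_coeff_ne_zero (natDegree_deh_le (hpt 0))
      (by rwa [coeff_deh_top (hpt 0)])
  have hdb : (deh (map (Polynomial.evalRingHom 0) q)).natDegree = E :=
    Polynomial.natDegree_eq_of_le_of_coeff_ne_zero (natDegree_deh_le (hqt 0))
      (by rwa [coeff_deh_top (hqt 0)])
  rw [← hda, ← hdb] at h0
  have h1 := (Polynomial.resultant_eq_zero_iff.1 h0.symm).2
  rw [Polynomial.isCoprime_iff_aeval_ne_zero_of_isAlgClosed K K] at h1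
  push Not at h1
  obtain ⟨s, hs1, hs2⟩ := h1
  refine ⟨![s, 1], aff_ne_zero s, ?_, ?_⟩
  · rw [← eval_deh]
    simpa using hs1
  · rw [← eval_deh]
    simpa using hs2

/-- The form W ↦ wedge (A' (Z₀ + t Z₁)) (A W) over the ring of polynomials in t. -/
noncomputable def pen (A' A : PM K) (Z₀ Z₁ : V K) : MvPolynomial (Fin 2) (Polynomial K) :=
  C (app (mapF Polynomial.C A') (fun i => Polynomial.C (Z₀ i) + Polynomial.X * Polynomial.C (Z₁ i)) 0)
      * mapF Polynomial.C A 1 -
    C (app (mapF Polynomial.C A') (fun i => Polynomial.C (Z₀ i) + Polynomial.X * Polynomial.C (Z₁ i)) 1)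
      * mapF Polynomial.C A 0

lemma pen_hom {D : ℕ} (A' : PM K) {A : PM K} (hA : Hom D A) (Z₀ Z₁ : V K) :
    (pen A' A Z₀ Z₁).IsHomogeneous D := by
  unfold pen
  exact ((hA.mapF _ 1).C_mul _).sub ((hA.mapF _ 0).C_mul _)

lemma eval_pen (A' A : PM K) (Z₀ Z₁ : V K) (t : K) (W : V K) :
    eval W (map (Polynomial.evalRingHom t) (pen A' A Z₀ Z₁)) =
      wedge (app A' (Z₀ + t • Z₁)) (app A W) := by
  have hc : (Polynomial.evalRingHom t).comp (Polynomial.C : K →+* Polynomial K) = RingHom.id K := by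
    ext x
    simp
  have hid : ∀ B : PM K, mapF (RingHom.id K) B = B := by
    intro B
    funext i
    exact map_id _
  have h1 := app_mapF (Polynomial.evalRingHom t) (mapF Polynomial.C A')
    (fun i => Polynomial.C (Z₀ i) + Polynomial.X * Polynomial.C (Z₁ i))
  rw [mapF_mapF, hc, hid] at h1
  have h2 : mapV (Polynomial.evalRingHom t)
      (fun i => Polynomial.C (Z₀ i) + Polynomial.X * Polynomial.C (Z₁ i)) = Z₀ + t • Z₁ := by
    funext i
    simp [mapV]
    ring
  rw [h2] at h1
  have h3 : ∀ i, map (Polynomial.evalRingHom t) (mapF Polynomial.C A i) = A i := by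
    intro i
    have := congrFun (mapF_mapF (Polynomial.C : K →+* Polynomial K) (Polynomial.evalRingHom t) A) i
    rw [hc, hid] at this
    exact this
  unfold pen
  rw [h1]
  simp only [map_sub, map_mul, map_C, eval_C, h3]
  rfl

lemma finite_wedge {Y : V K} (hY : Y ≠ 0) : {z : K | wedge ![z, 1] Y = 0}.Finite := by
  apply Set.Subsingleton.finite
  intro x hx y hy
  have h := wedge_trans hY hx (by rw [wedge_comm, show wedge ![y, 1] Y = 0 from hy, neg_zero])
  rw [wedge_aff] at h
  exact sub_eq_zero.1 h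

/-- The abstract form of the statement on relations. -/
lemma rel_core [IsAlgClosed K] {D E D' E' : ℕ} (hD : 0 < D) (hE : 0 < E) {A B A' B' : PM K}
    (hA : Hom D A) (hAN : Nondeg A) (hB : Hom E B) (hBN : Nondeg B)
    (hA' : Hom D' A') (hAN' : Nondeg A') (hB' : Hom E' B') (hBN' : Nondeg B')
    (h : {z : K | ∃ W, W ≠ 0 ∧ wedge (app A' ![z, 1]) (app A W) = 0 ∧
      wedge (app B' ![z, 1]) (app B W) = 0}.Infinite) {Z₀ : V K} (hZ : Z₀ ≠ 0) :
    ∃ W, W ≠ 0 ∧ wedge (app A' Z₀) (app A W) = 0 ∧ wedge (app B' Z₀) (app B W) = 0 := by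
  obtain ⟨Z₁, hZ₁⟩ := exists_wedge_one hZ
  have hZ₁0 : Z₁ ≠ 0 := by
    rintro rfl
    simp at hZ₁
  have hne : ∀ t : K, Z₀ + t • Z₁ ≠ 0 := by
    intro t ht
    have : wedge (Z₀ + t • Z₁) Z₁ = 1 := by
      rw [wedge_add_left, wedge_smul_left, wedge_self, hZ₁]
      ring
    rw [ht, wedge_zero_left] at this
    exact zero_ne_one this
  have hT : {t : K | ∃ W, W ≠ 0 ∧ wedge (app A' (Z₀ + t • Z₁)) (app A W) = 0 ∧
      wedge (app B' (Z₀ + t • Z₁)) (app B W) = 0}.Infinite := by
    intro hfin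
    apply h
    refine ((finite_wedge hZ₁0).union (hfin.biUnion fun t _ => finite_wedge (hne t))).subset ?_
    rintro z ⟨W, hW, h1, h2⟩
    by_cases hc : wedge ![z, 1] Z₁ = 0
    · exact Or.inl hc
    · right
      have e : (![z, 1] : V K) =
          wedge ![z, 1] Z₁ • (Z₀ + (wedge Z₀ ![z, 1] / wedge ![z, 1] Z₁) • Z₁) := by
        have h3 := wedge_three Z₀ Z₁ ![z, 1]
        rw [hZ₁, one_smul, wedge_comm Z₁, wedge_comm ![z, 1] Z₀] at h3
        rw [smul_add, smul_smul, mul_div_cancel₀ _ hc]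
        rw [neg_smul, neg_smul] at h3
        linear_combination (exp := 1) h3
      simp only [Set.mem_iUnion]
      refine ⟨wedge Z₀ ![z, 1] / wedge ![z, 1] Z₁, ⟨W, hW, ?_, ?_⟩, ?_⟩
      · rw [e, hA'.app_smul, wedge_smul_left] at h1
        exact (mul_eq_zero.1 h1).resolve_left (pow_ne_zero _ hc)
      · rw [e, hB'.app_smul, wedge_smul_left] at h2
        exact (mul_eq_zero.1 h2).resolve_left (pow_ne_zero _ hc)
      · change wedge ![z, 1] _ = 0
        conv_lhs => enter [1]; rw [e]
        rw [wedge_smul_left, wedge_self, mul_zero]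
  -- a point where both forms do not vanish
  obtain ⟨S, -, hS⟩ := (hA.isForm_wedge (app A' Z₀)).aff_roots
    (exists_wedge_app_ne hD hA hAN (hAN'.app_ne hZ))
  obtain ⟨S', -, hS'⟩ := (hB.isForm_wedge (app B' Z₀)).aff_roots
    (exists_wedge_app_ne hE hB hBN (hBN'.app_ne hZ))
  classical
  obtain ⟨w, hw⟩ := Infinite.exists_notMem_finset (S ∪ S')
  rw [Finset.mem_union, not_or, ← hS, ← hS'] at hw
  let M : Mat K := !![w, 1; 1, 0]
  have hM : M.det ≠ 0 := by simp [M, Matrix.det_fin_two]
  have hM0 : M.mulVec ![1, 0] = ![w, 1] := by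
    funext i
    fin_cases i <;> simp [M, Matrix.mulVec, dotProduct, Fin.sum_univ_two]
  have hA1 : Hom D (comp A (lin M)) := by simpa using hA.comp (hom_lin M)
  have hB1 : Hom E (comp B (lin M)) := by simpa using hB.comp (hom_lin M)
  have key := common_root hD (pen A' (comp A (lin M)) Z₀ Z₁) (pen B' (comp B (lin M)) Z₀ Z₁)
    (pen_hom A' hA1 Z₀ Z₁) (pen_hom B' hB1 Z₀ Z₁)
    (by
      rw [eval_pen, zero_smul, add_zero, app_comp, app_lin, hM0, wedge_comm]
      exact neg_ne_zero.2 hw.1)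
    (by
      rw [eval_pen, zero_smul, add_zero, app_comp, app_lin, hM0, wedge_comm]
      exact neg_ne_zero.2 hw.2)
    (by
      refine hT.mono ?_
      rintro t ⟨W, hW, h1, h2⟩
      have hW' : M.mulVec (M⁻¹.mulVec W) = W := by
        rw [Matrix.mulVec_mulVec, Matrix.mul_nonsing_inv _ (Ne.isUnit hM), Matrix.one_mulVec]
      refine ⟨M⁻¹.mulVec W, ?_, ?_, ?_⟩
      · intro h0
        rw [h0, Matrix.mulVec_zero] at hW'
        exact hW hW'.symm
      · rw [eval_pen, app_comp, app_lin, hW', h1]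
      · rw [eval_pen, app_comp, app_lin, hW', h2])
  obtain ⟨W, hW, h1, h2⟩ := key
  rw [eval_pen, zero_smul, add_zero, app_comp, app_lin] at h1 h2
  exact ⟨M.mulVec W, mulVec_ne_zero hM hW, h1, h2⟩

end Pool.Agent.MP_3827f0_nt.H92.UltraAux
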