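import Pool.Agent.MP_3827f0_nt.H92.Alg
import Pool.Agent.MP_3827f0_nt.H92.Emb
import Pool.Agent.MP_3827f0_nt.H92.UltraAux

/-! Transfer of the algebraic conditions: infinitely many points, field extensions, ultrapowers. -/

set_option autoImplicit false

namespace Pool.Agent.MP_3827f0_nt.H92

open Filter

namespace UltraAux

section Expr
variable {R S : Type} [CommRing R] [CommRing S]

/-- The identity in Orb. -/
noncomputable def eO {n : ℕ} (k : ℕ) (F : PM R) (A : Fin n → V R) (c : R) (Z : V R) : R :=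
  ∏ i, wedge (app F Z) (A i) - c * jac F Z ^ k * ∏ i, wedge Z (A i)

lemma map_eO (ψ : R →+* S) {n : ℕ} (k : ℕ) (F : PM R) (A : Fin n → V R) (c : R) (Z : V R) :
    eO k (mapF ψ F) (fun i => mapV ψ (A i)) (ψ c) (mapV ψ Z) = ψ (eO k F A c Z) := by
  simp only [eO, app_mapF, jac_mapF, wedge_mapV, map_sub, map_mul, map_pow, map_prod]

/-- The identity in PowAt. -/
noncomputable def eP (d : ℕ) (F : PM R) (A B : V R) (c : R) (Z : V R) : R :=
  wedge (app F Z) A * wedge (app F Z) B - c * (wedge Z A * wedge Z B) ^ d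

lemma map_eP (ψ : R →+* S) (d : ℕ) (F : PM R) (A B : V R) (c : R) (Z : V R) :
    eP d (mapF ψ F) (mapV ψ A) (mapV ψ B) (ψ c) (mapV ψ Z) = ψ (eP d F A B c Z) := by
  simp only [eP, app_mapF, wedge_mapV, map_sub, map_mul, map_pow]

/-- The identity in ChebAt. -/
noncomputable def eC (F : PM R) (A B E : V R) (c : R) (Z : V R) : R :=
  wedge (app F Z) A * wedge (app F Z) B * wedge (app F Z) E ^ 2 -
    c * jac F Z ^ 2 * (wedge Z A * wedge Z B * wedge Z E ^ 2)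

lemma map_eC (ψ : R →+* S) (F : PM R) (A B E : V R) (c : R) (Z : V R) :
    eC (mapF ψ F) (mapV ψ A) (mapV ψ B) (mapV ψ E) (ψ c) (mapV ψ Z) = ψ (eC F A B E c Z) := by
  simp only [eC, app_mapF, jac_mapF, wedge_mapV, map_sub, map_mul, map_pow]

lemma mapV_mapV {T : Type} [CommRing T] (φ : R →+* S) (ψ : S →+* T) (Z : V R) :
    mapV ψ (mapV φ Z) = mapV (ψ.comp φ) Z := rfl

lemma mapF_id (F : PM R) : mapF (RingHom.id R) F = F := by
  funext i
  exact MvPolynomial.map_id _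

end Expr

section Transfer
variable {K K' : Type} [Field K] [Field K']

/-- Evaluation at a point over an extension. -/
noncomputable def ev (φ : K →+* K') (Z : V K') : MvPolynomial (Fin 2) K →+* K' :=
  MvPolynomial.eval₂Hom φ Z

lemma ev_comp (φ : K →+* K') (Z : V K') : (ev φ Z).comp MvPolynomial.C = φ := by
  ext x
  simp [ev]

lemma ev_C (φ : K →+* K') (Z : V K') (c : K) : ev φ Z (MvPolynomial.C c) = φ c := by simp [ev]

lemma ev_X (φ : K →+* K') (Z : V K') : mapV (ev φ Z) MvPolynomial.X = Z := by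
  funext i
  simp [ev, mapV]

lemma eq_zero_of_ev [Infinite K] {P : MvPolynomial (Fin 2) K}
    (h : ∀ Z, ev (RingHom.id K) Z P = 0) : P = 0 := by
  apply MvPolynomial.funext
  intro Z
  rw [map_zero]
  exact h Z

lemma eO_transfer [Infinite K] (φ : K →+* K') {n : ℕ} (k : ℕ) (F : PM K) (A : Fin n → V K) (c : K)
    (h : ∀ Z, eO k F A c Z = 0) (Z : V K') :
    eO k (mapF φ F) (fun i => mapV φ (A i)) (φ c) Z = 0 := by
  have key : ∀ (L : Type) [Field L] (ψ : K →+* L) (W : V L),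
      eO k (mapF ψ F) (fun i => mapV ψ (A i)) (ψ c) W =
        ev ψ W (eO k (mapF MvPolynomial.C F) (fun i => mapV MvPolynomial.C (A i))
          (MvPolynomial.C c) MvPolynomial.X) := by
    intro L _ ψ W
    rw [← map_eO, mapF_mapF, ev_X, ev_C]
    simp only [mapV_mapV, ev_comp]
  have h0 := fun W => (key K (RingHom.id K) W).symm
  simp only [mapF_id] at h0
  rw [key, eq_zero_of_ev (fun W => (h0 W).trans (h W)), map_zero]

lemma eP_transfer [Infinite K] (φ : K →+* K') (d : ℕ) (F : PM K) (A B : V K) (c : K)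
    (h : ∀ Z, eP d F A B c Z = 0) (Z : V K') :
    eP d (mapF φ F) (mapV φ A) (mapV φ B) (φ c) Z = 0 := by
  have key : ∀ (L : Type) [Field L] (ψ : K →+* L) (W : V L),
      eP d (mapF ψ F) (mapV ψ A) (mapV ψ B) (ψ c) W =
        ev ψ W (eP d (mapF MvPolynomial.C F) (mapV MvPolynomial.C A) (mapV MvPolynomial.C B)
          (MvPolynomial.C c) MvPolynomial.X) := by
    intro L _ ψ W
    rw [← map_eP, mapF_mapF, ev_X, ev_C]
    simp only [mapV_mapV, ev_comp]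
  have h0 := fun W => (key K (RingHom.id K) W).symm
  simp only [mapF_id] at h0
  rw [key, eq_zero_of_ev (fun W => (h0 W).trans (h W)), map_zero]

lemma eC_transfer [Infinite K] (φ : K →+* K') (F : PM K) (A B E : V K) (c : K)
    (h : ∀ Z, eC F A B E c Z = 0) (Z : V K') :
    eC (mapF φ F) (mapV φ A) (mapV φ B) (mapV φ E) (φ c) Z = 0 := by
  have key : ∀ (L : Type) [Field L] (ψ : K →+* L) (W : V L),
      eC (mapF ψ F) (mapV ψ A) (mapV ψ B) (mapV ψ E) (ψ c) W =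
        ev ψ W (eC (mapF MvPolynomial.C F) (mapV MvPolynomial.C A) (mapV MvPolynomial.C B)
          (mapV MvPolynomial.C E) (MvPolynomial.C c) MvPolynomial.X) := by
    intro L _ ψ W
    rw [← map_eC, mapF_mapF, ev_X, ev_C]
    simp only [mapV_mapV, ev_comp]
  have h0 := fun W => (key K (RingHom.id K) W).symm
  simp only [mapF_id] at h0
  rw [key, eq_zero_of_ev (fun W => (h0 W).trans (h W)), map_zero]

end Transfer

section Los
variable {K : Type} [Field K]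

/-- The projection from sequences to the ultrapower. -/
noncomputable def pr (K : Type) [Field K] : (ℕ → K) →+* UP K := Germ.coeRingHom uf

/-- Evaluation of a sequence. -/
def el (K : Type) [Field K] (l : ℕ) : (ℕ → K) →+* K := Pi.evalRingHom (fun _ : ℕ => K) l

lemma pr_apply (x : ℕ → K) : pr K x = (x : UP K) := rfl

lemma el_apply (l : ℕ) (x : ℕ → K) : el K l x = x l := rfl

lemma pr_eq_iff (x y : ℕ → K) : pr K x = pr K y ↔ ∀ᶠ l in uf, el K l x = el K l y :=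
  Germ.coe_eq

lemma pr_eq_zero (x : ℕ → K) : pr K x = 0 ↔ ∀ᶠ l in uf, el K l x = 0 := by
  rw [← map_zero (pr K), pr_eq_iff]
  rfl

lemma pr_surj : Function.Surjective (pr K) := fun x =>
  Germ.inductionOn x fun f => ⟨f, rfl⟩

lemma ev_not {P : ℕ → Prop} : (∀ᶠ l in uf, ¬ P l) ↔ ¬ ∀ᶠ l in uf, P l :=
  Ultrafilter.eventually_not

lemma los_not {P : Prop} {Q : ℕ → Prop} (h : P ↔ ∀ᶠ l in uf, Q l) :
    ¬ P ↔ ∀ᶠ l in uf, ¬ Q l := by rw [ev_not, h]

lemma los_and {P P' : Prop} {Q Q' : ℕ → Prop} (h : P ↔ ∀ᶠ l in uf, Q l)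
    (h' : P' ↔ ∀ᶠ l in uf, Q' l) : P ∧ P' ↔ ∀ᶠ l in uf, Q l ∧ Q' l := by
  rw [eventually_and, h, h']

lemma los_or {P P' : Prop} {Q Q' : ℕ → Prop} (h : P ↔ ∀ᶠ l in uf, Q l)
    (h' : P' ↔ ∀ᶠ l in uf, Q' l) : P ∨ P' ↔ ∀ᶠ l in uf, Q l ∨ Q' l := by
  rw [Ultrafilter.eventually_or, h, h']

lemma los_imp {P P' : Prop} {Q Q' : ℕ → Prop} (h : P ↔ ∀ᶠ l in uf, Q l)
    (h' : P' ↔ ∀ᶠ l in uf, Q' l) : (P → P') ↔ ∀ᶠ l in uf, Q l → Q' l := by
  rw [Ultrafilter.eventually_imp, h, h']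

lemma los_const (P : Prop) : P ↔ ∀ᶠ _l in uf, P := by
  rw [eventually_const]

lemma los_fin {ι : Type} [Finite ι] {P : ι → Prop} {Q : ι → ℕ → Prop}
    (h : ∀ i, P i ↔ ∀ᶠ l in uf, Q i l) : (∀ i, P i) ↔ ∀ᶠ l in uf, ∀ i, Q i l := by
  rw [eventually_all]
  exact forall_congr' h

lemma los_le {N : ℕ} {P : ℕ → Prop} {Q : ℕ → ℕ → Prop}
    (h : ∀ i, P i ↔ ∀ᶠ l in uf, Q i l) : (∃ i ≤ N, P i) ↔ ∀ᶠ l in uf, ∃ i ≤ N, Q i l := by
  have := (hyperfilter ℕ).eventually_exists_mem_iff (P := Q) (Set.finite_Iic N)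
  simp only [Set.mem_Iic] at this
  rw [this]
  exact exists_congr fun i => and_congr_right fun _ => h i

lemma los_ex {α β γ : Type} [Nonempty β] (π : γ → α) (ρ : ℕ → γ → β)
    (hπ : Function.Surjective π) (hρ : ∀ bs : ℕ → β, ∃ g, ∀ l, ρ l g = bs l)
    {P : α → Prop} {Q : ℕ → β → Prop} (h : ∀ g, P (π g) ↔ ∀ᶠ l in uf, Q l (ρ l g)) :
    (∃ a, P a) ↔ ∀ᶠ l in uf, ∃ b, Q l b := by
  constructor
  · rintro ⟨a, ha⟩
    obtain ⟨g, rfl⟩ := hπ a
    exact ((h g).1 ha).mono fun l hl => ⟨_, hl⟩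
  · intro hq
    obtain ⟨bs, hbs⟩ := hq.choice
    obtain ⟨g, hg⟩ := hρ bs
    exact ⟨π g, (h g).2 (hbs.mono fun l hl => by rwa [hg])⟩

lemma los_all {α β γ : Type} [Nonempty β] (π : γ → α) (ρ : ℕ → γ → β)
    (hπ : Function.Surjective π) (hρ : ∀ bs : ℕ → β, ∃ g, ∀ l, ρ l g = bs l)
    {P : α → Prop} {Q : ℕ → β → Prop} (h : ∀ g, P (π g) ↔ ∀ᶠ l in uf, Q l (ρ l g)) :
    (∀ a, P a) ↔ ∀ᶠ l in uf, ∀ b, Q l b := by
  have := los_not (los_ex π ρ hπ hρ (P := fun a => ¬ P a) (Q := fun l b => ¬ Q l b)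
    fun g => los_not (h g))
  simpa only [not_exists, not_not] using this

lemma mapV_surj : Function.Surjective (mapV (pr K)) := by
  intro X
  choose x hx using fun i => pr_surj (X i)
  exact ⟨x, funext hx⟩

lemma los_exK {P : UP K → Prop} {Q : ℕ → K → Prop}
    (h : ∀ g, P (pr K g) ↔ ∀ᶠ l in uf, Q l (el K l g)) : (∃ a, P a) ↔ ∀ᶠ l in uf, ∃ b, Q l b :=
  los_ex (pr K) (fun l => el K l) pr_surj (fun bs => ⟨bs, fun _ => rfl⟩) h

lemma los_exV {P : V (UP K) → Prop} {Q : ℕ → V K → Prop}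
    (h : ∀ g, P (mapV (pr K) g) ↔ ∀ᶠ l in uf, Q l (mapV (el K l) g)) :
    (∃ a, P a) ↔ ∀ᶠ l in uf, ∃ b, Q l b :=
  los_ex (mapV (pr K)) (fun l => mapV (el K l)) mapV_surj
    (fun bs => ⟨fun i l => bs l i, fun _ => rfl⟩) h

lemma los_allV {P : V (UP K) → Prop} {Q : ℕ → V K → Prop}
    (h : ∀ g, P (mapV (pr K) g) ↔ ∀ᶠ l in uf, Q l (mapV (el K l) g)) :
    (∀ a, P a) ↔ ∀ᶠ l in uf, ∀ b, Q l b :=
  los_all (mapV (pr K)) (fun l => mapV (el K l)) mapV_surj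
    (fun bs => ⟨fun i l => bs l i, fun _ => rfl⟩) h

lemma los_exFV {n : ℕ} {P : (Fin n → V (UP K)) → Prop} {Q : ℕ → (Fin n → V K) → Prop}
    (h : ∀ g : Fin n → V (ℕ → K), P (fun j => mapV (pr K) (g j)) ↔
      ∀ᶠ l in uf, Q l (fun j => mapV (el K l) (g j))) :
    (∃ a, P a) ↔ ∀ᶠ l in uf, ∃ b, Q l b :=
  los_ex (fun (g : Fin n → V (ℕ → K)) j => mapV (pr K) (g j))
    (fun l g j => mapV (el K l) (g j))
    (fun A => by
      choose g hg using fun j => mapV_surj (A j)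
      exact ⟨g, funext hg⟩)
    (fun bs => ⟨fun j i l => bs l j i, fun _ => rfl⟩) h

lemma los_exFK {n : ℕ} {P : (Fin n → UP K) → Prop} {Q : ℕ → (Fin n → K) → Prop}
    (h : ∀ g : Fin n → ℕ → K, P (fun j => pr K (g j)) ↔
      ∀ᶠ l in uf, Q l (fun j => el K l (g j))) :
    (∃ a, P a) ↔ ∀ᶠ l in uf, ∃ b, Q l b :=
  los_ex (fun (g : Fin n → ℕ → K) j => pr K (g j)) (fun l g j => el K l (g j))
    (fun A => by
      choose g hg using fun j => pr_surj (A j)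
      exact ⟨g, funext hg⟩)
    (fun bs => ⟨fun j l => bs l j, fun _ => rfl⟩) h

lemma los_eqV (X Y : V (ℕ → K)) :
    mapV (pr K) X = mapV (pr K) Y ↔ ∀ᶠ l in uf, mapV (el K l) X = mapV (el K l) Y := by
  simp only [funext_iff]
  exact los_fin fun i => pr_eq_iff _ _

lemma los_zeroV (X : V (ℕ → K)) : mapV (pr K) X = 0 ↔ ∀ᶠ l in uf, mapV (el K l) X = 0 := by
  simp only [funext_iff]
  exact los_fin fun i => pr_eq_zero _

lemma los_wedge (X Y : V (ℕ → K)) : wedge (mapV (pr K) X) (mapV (pr K) Y) = 0 ↔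
    ∀ᶠ l in uf, wedge (mapV (el K l) X) (mapV (el K l) Y) = 0 := by
  simp only [wedge_mapV]
  exact pr_eq_zero _

lemma los_eI (Φ : PM (ℕ → K)) (m n : ℕ) (Z W : V (ℕ → K)) :
    wedge ((app (mapF (pr K) Φ))^[m] (mapV (pr K) Z)) ((app (mapF (pr K) Φ))^[n] (mapV (pr K) W))
      = 0 ↔ ∀ᶠ l in uf, wedge ((app (mapF (el K l) Φ))^[m] (mapV (el K l) Z))
        ((app (mapF (el K l) Φ))^[n] (mapV (el K l) W)) = 0 := by
  simp only [iter_mapF]
  exact los_wedge _ _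

lemma los_rel (Φ Ψ : PM (ℕ → K)) (n m k : ℕ) :
    Rel (mapF (pr K) Φ) (mapF (pr K) Ψ) n m k ↔
      ∀ᶠ l in uf, Rel (mapF (el K l) Φ) (mapF (el K l) Ψ) n m k :=
  los_and (los_const _) (los_allV fun Z => los_imp (los_not (los_zeroV Z))
    (los_exV fun W => los_and (los_not (los_zeroV W))
      (los_and (los_eI Φ _ _ Z W) (los_eI Ψ _ _ Z W))))

open Classical in
lemma los_card {n k : ℕ} (X : V (ℕ → K)) (A : Fin n → V (ℕ → K)) :
    (Finset.univ.filter fun j => wedge (mapV (pr K) X) (mapV (pr K) (A j)) = 0).card < k ↔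
      ∀ᶠ l in uf, (Finset.univ.filter fun j =>
        wedge (mapV (el K l) X) (mapV (el K l) (A j)) = 0).card < k := by
  have h : ∀ᶠ l in uf, ∀ j, (wedge (mapV (pr K) X) (mapV (pr K) (A j)) = 0 ↔
      wedge (mapV (el K l) X) (mapV (el K l) (A j)) = 0) := by
    rw [eventually_all]
    intro j
    by_cases hj : wedge (mapV (pr K) X) (mapV (pr K) (A j)) = 0
    · exact ((los_wedge _ _).1 hj).mono fun l hl => iff_of_true hj hl
    · exact ((los_not (los_wedge _ _)).1 hj).mono fun l hl => iff_of_false hj hl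
  rw [los_const ((Finset.univ.filter fun j =>
    wedge (mapV (pr K) X) (mapV (pr K) (A j)) = 0).card < k)]
  refine eventually_congr (h.mono fun l hl => ?_)
  rw [Finset.filter_congr fun j _ => hl j]

lemma los_orb (Φ : PM (ℕ → K)) (k : ℕ) :
    Orb (mapF (pr K) Φ) k ↔ ∀ᶠ l in uf, Orb (mapF (el K l) Φ) k := by
  refine los_and (los_const _) (los_exFV fun A => los_exK fun c =>
    los_and (los_not (pr_eq_zero c)) (los_and (los_fin fun i => los_not (los_zeroV (A i)))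
      (los_and (los_fin fun i => los_card (A i) A) (los_allV fun Z => ?_))))
  simp only [← sub_eq_zero (b := _ * _ * ∏ _i : Fin (2 * k), _)]
  have h1 := map_eO (pr K) k Φ A c Z
  have h2 := fun l => map_eO (el K l) k Φ A c Z
  simp only [eO] at h1 h2
  simp only [h1, h2]
  exact pr_eq_zero _

lemma los_powAt (d : ℕ) (Φ : PM (ℕ → K)) (A B : V (ℕ → K)) :
    PowAt d (mapF (pr K) Φ) (mapV (pr K) A) (mapV (pr K) B) ↔
      ∀ᶠ l in uf, PowAt d (mapF (el K l) Φ) (mapV (el K l) A) (mapV (el K l) B) := by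
  refine los_exK fun c => los_allV fun Z => ?_
  simp only [app_mapF, wedge_mapV, ← map_mul, ← map_pow]
  exact pr_eq_iff _ _

lemma los_chebAt (Φ : PM (ℕ → K)) (A B E : V (ℕ → K)) :
    ChebAt (mapF (pr K) Φ) (mapV (pr K) A) (mapV (pr K) B) (mapV (pr K) E) ↔
      ∀ᶠ l in uf, ChebAt (mapF (el K l) Φ) (mapV (el K l) A) (mapV (el K l) B)
        (mapV (el K l) E) := by
  refine los_exK fun c => los_allV fun Z => ?_
  simp only [app_mapF, jac_mapF, wedge_mapV, ← map_mul, ← map_pow]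
  exact pr_eq_iff _ _

lemma los_cond (d N : ℕ) (Φ Ψ : PM (ℕ → K)) :
    Cond d N (mapF (pr K) Φ) (mapF (pr K) Ψ) ↔
      ∀ᶠ l in uf, Cond d N (mapF (el K l) Φ) (mapF (el K l) Ψ) :=
  los_or (los_le fun n => los_le fun m => los_le fun k => los_rel Φ Ψ n m k)
    (los_or (los_le fun k => los_le fun l => los_and (los_orb Φ k) (los_orb Ψ l))
      (los_or (los_exV fun A => los_exV fun B => los_and (los_not (los_wedge A B))
          (los_and (los_powAt d Φ A B) (los_powAt d Ψ A B)))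
        (los_exV fun A => los_exV fun B => los_exV fun E => los_and (los_not (los_wedge A B))
          (los_and (los_not (los_wedge A E)) (los_and (los_not (los_wedge B E))
            (los_and (los_chebAt Φ A B E) (los_chebAt Ψ A B E)))))))

lemma los_fact (d : ℕ) (Φ : PM (ℕ → K)) (Y : V (ℕ → K)) (Ys : Fin d → V (ℕ → K))
    (lam : Fin d → ℕ → K) :
    Fact d (mapF (pr K) Φ) (mapV (pr K) Y) (fun j => mapV (pr K) (Ys j)) (fun j => pr K (lam j)) ↔
      ∀ᶠ l in uf, Fact d (mapF (el K l) Φ) (mapV (el K l) Y) (fun j => mapV (el K l) (Ys j))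
        fun j => el K l (lam j) := by
  refine los_and (los_allV fun Z => ?_) (los_fin fun j => ?_)
  · simp only [app_mapF, wedge_mapV, ← map_prod]
    exact pr_eq_iff _ _
  · simp only [app_mapF, ← mapV_smul]
    exact los_eqV _ _

lemma repV_iff {X : V (UP K)} {Xs : ℕ → V K} :
    RepV X Xs ↔ X = mapV (pr K) fun i l => Xs l i := funext_iff.symm

lemma lift {d : ℕ} (Fs : ℕ → PM K) (hs : ∀ l, Hom d (Fs l)) :
    ∃ Φ : PM (ℕ → K), Hom d Φ ∧ ∀ l, mapF (el K l) Φ = Fs l := by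
  classical
  refine ⟨fun i => ∑ m ∈ (Finset.range (d + 1)).image (mo d),
    MvPolynomial.monomial m (fun l => MvPolynomial.coeff m (Fs l i)), ?_, ?_⟩
  · intro i
    apply MvPolynomial.IsHomogeneous.sum
    intro m hm
    obtain ⟨k, hk, rfl⟩ := Finset.mem_image.1 hm
    apply MvPolynomial.isHomogeneous_monomial
    have hk' : k ≤ d := Nat.lt_succ_iff.1 (Finset.mem_range.1 hk)
    simp only [mo, map_add, Finsupp.degree_single]
    omega
  · intro l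
    funext i
    ext m
    simp only [mapF, MvPolynomial.coeff_map, MvPolynomial.coeff_sum, MvPolynomial.coeff_monomial,
      Finset.sum_ite_eq']
    split_ifs with hm
    · rfl
    · rw [map_zero]
      by_contra h
      obtain ⟨k, hk, rfl⟩ := exists_mo (hs l i) (Ne.symm h)
      exact hm (Finset.mem_image.2 ⟨k, Finset.mem_range.2 (Nat.lt_succ_of_le hk), rfl⟩)

lemma repF_map (Φ : PM (ℕ → K)) : RepF (mapF (pr K) Φ) fun l => mapF (el K l) Φ := by
  intro i m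
  simp only [mapF, MvPolynomial.coeff_map]
  rfl

lemma lift' {d : ℕ} {F : PM (UP K)} {Fs : ℕ → PM K} (h : RepF F Fs) (hs : ∀ l, Hom d (Fs l)) :
    ∃ Φ : PM (ℕ → K), Hom d Φ ∧ F = mapF (pr K) Φ ∧ Fs = fun l => mapF (el K l) Φ := by
  obtain ⟨Φ, hΦ, e⟩ := lift Fs hs
  have e' : Fs = fun l => mapF (el K l) Φ := funext fun l => (e l).symm
  refine ⟨Φ, hΦ, ?_, e'⟩
  funext i
  ext m
  rw [h i m, repF_map Φ i m, e']

lemma liftV {X : V (UP K)} {Xs : ℕ → V K} (h : RepV X Xs) :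
    ∃ Ξ : V (ℕ → K), X = mapV (pr K) Ξ ∧ Xs = fun l => mapV (el K l) Ξ :=
  ⟨fun i l => Xs l i, repV_iff.1 h, rfl⟩

lemma repV_map (Ξ : V (ℕ → K)) : RepV (mapV (pr K) Ξ) fun l => mapV (el K l) Ξ := fun _ => rfl

end Los

end UltraAux

open UltraAux

variable {K K' : Type} [Field K] [Field K'] {d : ℕ}

/-- A relation that holds at infinitely many points holds everywhere. -/
theorem RelInf.rel [IsAlgClosed K] {F G : PM K} (hd : 0 < d) (hF : Hom d F) (hFN : Nondeg F)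
    (hG : Hom d G) (hGN : Nondeg G) {n m k : ℕ} (h : RelInf F G n m k) : Rel F G n m k := by
  refine ⟨h.1, fun Z hZ => ?_⟩
  have key := rel_core (pow_pos hd n) (pow_pos hd m) (hF.itr n) (hFN.itr n) (hG.itr m) (hGN.itr m)
    (hF.itr (n + k)) (hFN.itr (n + k)) (hG.itr (m + k)) (hGN.itr (m + k))
    (by simp only [app_itr]; exact h.2) hZ
  simp only [app_itr] at key
  exact key

lemma Cond.mono {F G : PM K} {N N' : ℕ} (h : Cond d N F G) (hN : N ≤ N') : Cond d N' F G := by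
  rcases h with ⟨n, hn, m, hm, k, hk, h⟩ | ⟨k, hk, l, hl, h⟩ | h
  · exact Or.inl ⟨n, hn.trans hN, m, hm.trans hN, k, hk.trans hN, h⟩
  · exact Or.inr (Or.inl ⟨k, hk.trans hN, l, hl.trans hN, h⟩)
  · exact Or.inr (Or.inr h)

theorem Orb.mapF [Infinite K] {F : PM K} {k : ℕ} (h : Orb F k) (φ : K →+* K') :
    Orb (mapF φ F) k := by
  obtain ⟨hk, A, c, hc, hA, hcard, hZ⟩ := h
  refine ⟨hk, fun i => mapV φ (A i), φ c, (map_ne_zero φ).2 hc, fun i => mapV_ne_zero φ (hA i),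
    fun i => ?_, fun Z => ?_⟩
  · refine lt_of_le_of_lt (le_of_eq (congrArg Finset.card ?_)) (hcard i)
    ext j
    simp only [Finset.mem_filter, wedge_mapV, map_eq_zero]
  · exact sub_eq_zero.1 (eO_transfer φ k F A c (fun W => sub_eq_zero.2 (hZ W)) Z)

theorem Cond.mapF [IsAlgClosed K] [IsAlgClosed K'] {F G : PM K} (hd : 0 < d) (hF : Normal d F)
    (hG : Normal d G) {N : ℕ} (h : Cond d N F G) (φ : K →+* K') :
    Cond d N (mapF φ F) (mapF φ G) := by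
  have hne : ∀ {A B : V K}, wedge A B ≠ 0 → wedge (mapV φ A) (mapV φ B) ≠ 0 := by
    intro A B hAB
    rw [wedge_mapV]
    exact (map_ne_zero φ).2 hAB
  have hP : ∀ {H : PM K} {A B : V K}, PowAt d H A B →
      PowAt d (H92.mapF φ H) (mapV φ A) (mapV φ B) := by
    rintro H A B ⟨c, hc⟩
    exact ⟨φ c, fun Z => sub_eq_zero.1 (eP_transfer φ d H A B c (fun W => sub_eq_zero.2 (hc W)) Z)⟩
  have hC : ∀ {H : PM K} {A B E : V K}, ChebAt H A B E →
      ChebAt (H92.mapF φ H) (mapV φ A) (mapV φ B) (mapV φ E) := by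
    rintro H A B E ⟨c, hc⟩
    exact ⟨φ c, fun Z => sub_eq_zero.1 (eC_transfer φ H A B E c (fun W => sub_eq_zero.2 (hc W)) Z)⟩
  rcases h with ⟨n, hn, m, hm, k, hk, h⟩ | ⟨k, hk, l, hl, h⟩ | ⟨A, B, hAB, h1, h2⟩ |
    ⟨A, B, E, hAB, hAE, hBE, h1, h2⟩
  · refine Or.inl ⟨n, hn, m, hm, k, hk, ?_⟩
    have hF' := hF.mapF hd φ
    have hG' := hG.mapF hd φ
    refine RelInf.rel hd hF'.1 (hF'.nondeg hd) hG'.1 (hG'.nondeg hd) ⟨h.1, ?_⟩
    refine (Set.infinite_range_of_injective φ.injective).mono ?_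
    rintro _ ⟨z, rfl⟩
    obtain ⟨W, hW, h1, h2⟩ := h.2 ![z, 1] (aff_ne_zero z)
    have e : (![φ z, 1] : V K') = mapV φ ![z, 1] := by rw [mapV_aff, map_one]
    refine ⟨mapV φ W, mapV_ne_zero φ hW, ?_, ?_⟩
    · rw [e, iter_mapF, iter_mapF, wedge_mapV, h1, map_zero]
    · rw [e, iter_mapF, iter_mapF, wedge_mapV, h2, map_zero]
  · exact Or.inr (Or.inl ⟨k, hk, l, hl, h.1.mapF φ, h.2.mapF φ⟩)
  · exact Or.inr (Or.inr (Or.inl ⟨_, _, hne hAB, hP h1, hP h2⟩))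
  · exact Or.inr (Or.inr (Or.inr ⟨_, _, _, hne hAB, hne hAE, hne hBE, hC h1, hC h2⟩))

lemma Preper.mapF {F : PM K} {X : V K} (h : Preper F X) (φ : K →+* K') :
    Preper (mapF φ F) (mapV φ X) := by
  obtain ⟨m, n, hmn, h⟩ := h
  exact ⟨m, n, hmn, by rw [iter_mapF, iter_mapF, wedge_mapV, h, map_zero]⟩

lemma exists_repV (X : V (UP K)) : ∃ Xs, RepV X Xs := by
  obtain ⟨Ξ, rfl⟩ := mapV_surj X
  exact ⟨_, repV_map Ξ⟩
lemma exists_of_seqV (Xs : ℕ → V K) : ∃ X, RepV X Xs := ⟨_, repV_iff.2 rfl⟩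
lemma exists_repF {F : PM (UP K)} (hF : Hom d F) : ∃ Fs, RepF F Fs ∧ ∀ l, Hom d (Fs l) := by
  classical
  choose s hs using pr_surj (K := K)
  let Φ : PM (ℕ → K) := fun i => ∑ m ∈ (F i).support,
    MvPolynomial.monomial m (s (MvPolynomial.coeff m (F i)))
  have hΦ : Hom d Φ := by
    intro i
    apply MvPolynomial.IsHomogeneous.sum
    intro m hm
    apply MvPolynomial.isHomogeneous_monomial
    rw [Finsupp.degree_eq_weight_one]
    exact hF i (MvPolynomial.mem_support_iff.1 hm)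
  have e : mapF (pr K) Φ = F := by
    funext i
    simp only [mapF, Φ, map_sum, MvPolynomial.map_monomial, hs]
    exact (MvPolynomial.as_sum (F i)).symm
  exact ⟨fun l => mapF (el K l) Φ, e ▸ repF_map Φ, fun l => hΦ.mapF _⟩
lemma exists_of_seqF (Fs : ℕ → PM K) (h : ∀ l, Hom d (Fs l)) : ∃ F, RepF F Fs ∧ Hom d F := by
  obtain ⟨Φ, hΦ, e⟩ := lift Fs h
  have e' : Fs = fun l => mapF (el K l) Φ := funext fun l => (e l).symm
  exact ⟨mapF (pr K) Φ, e' ▸ repF_map Φ, hΦ.mapF _⟩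
lemma RepF.hom {F : PM (UP K)} {Fs : ℕ → PM K} (h : RepF F Fs) (hs : ∀ l, Hom d (Fs l)) :
    Hom d F := by
  obtain ⟨Φ, hΦ, rfl, -⟩ := lift' h hs
  exact hΦ.mapF _
lemma RepV.congr {X : V (UP K)} {Xs Ys : ℕ → V K} (h : RepV X Xs) (h' : RepV X Ys) :
    ∀ᶠ l in uf, Xs l = Ys l := by
  obtain ⟨Ξ, e, rfl⟩ := liftV h
  obtain ⟨Θ, e', rfl⟩ := liftV h'
  exact (los_eqV Ξ Θ).1 (e.symm.trans e')
lemma RepV.const (X : V K) : RepV (fun i => ((X i : K) : UP K)) fun _ => X := fun _ => rfl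
lemma RepV.eq_zero {X : V (UP K)} {Xs : ℕ → V K} (h : RepV X Xs) :
    X = 0 ↔ ∀ᶠ l in uf, Xs l = 0 := by
  obtain ⟨Ξ, rfl, rfl⟩ := liftV h
  exact los_zeroV Ξ
lemma RepV.wedge {X Y : V (UP K)} {Xs Ys : ℕ → V K} (h : RepV X Xs) (h' : RepV Y Ys) :
    wedge X Y = ((fun l => wedge (Xs l) (Ys l) : ℕ → K) : UP K) := by
  obtain ⟨Ξ, rfl, rfl⟩ := liftV h
  obtain ⟨Θ, rfl, rfl⟩ := liftV h'
  simp only [wedge_mapV]
  rfl
lemma RepF.app {F : PM (UP K)} {Fs : ℕ → PM K} (h : RepF F Fs) (hs : ∀ l, Hom d (Fs l))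
    {X : V (UP K)} {Xs : ℕ → V K} (hX : RepV X Xs) :
    RepV (app F X) fun l => app (Fs l) (Xs l) := by
  obtain ⟨Φ, -, rfl, rfl⟩ := lift' h hs
  obtain ⟨Ξ, rfl, rfl⟩ := liftV hX
  simp only [app_mapF]
  exact repV_map _
lemma RepF.iter {F : PM (UP K)} {Fs : ℕ → PM K} (h : RepF F Fs) (hs : ∀ l, Hom d (Fs l)) (n : ℕ)
    {X : V (UP K)} {Xs : ℕ → V K} (hX : RepV X Xs) :
    RepV ((H92.app F)^[n] X) fun l => (H92.app (Fs l))^[n] (Xs l) := by
  obtain ⟨Φ, -, rfl, rfl⟩ := lift' h hs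
  obtain ⟨Ξ, rfl, rfl⟩ := liftV hX
  simp only [iter_mapF]
  exact repV_map _
lemma RepF.jac {F : PM (UP K)} {Fs : ℕ → PM K} (h : RepF F Fs) (hs : ∀ l, Hom d (Fs l))
    {X : V (UP K)} {Xs : ℕ → V K} (hX : RepV X Xs) :
    jac F X = ((fun l => jac (Fs l) (Xs l) : ℕ → K) : UP K) := by
  obtain ⟨Φ, -, rfl, rfl⟩ := lift' h hs
  obtain ⟨Ξ, rfl, rfl⟩ := liftV hX
  simp only [jac_mapF]
  rfl
lemma RepF.jac_factor {F : PM (UP K)} {Fs : ℕ → PM K} (h : RepF F Fs) (hs : ∀ l, Hom d (Fs l))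
    {n : ℕ} {A : Fin n → V (UP K)} {As : Fin n → ℕ → V K} (hA : ∀ j, RepV (A j) (As j))
    (hj : ∀ Z, H92.jac F Z = ∏ j, wedge Z (A j)) :
    ∀ᶠ l in uf, ∀ Z, H92.jac (Fs l) Z = ∏ j, wedge Z (As j l) := by
  obtain ⟨Φ, -, rfl, rfl⟩ := lift' h hs
  choose Ξ e e' using fun j => liftV (hA j)
  simp only [e] at hj
  simp only [e']
  refine (los_allV fun Z => ?_).1 hj
  simp only [jac_mapF, wedge_mapV, ← map_prod]
  exact pr_eq_iff _ _

theorem RepF.normal_iff [IsAlgClosed K] (hd : 0 < d) {F : PM (UP K)} {Fs : ℕ → PM K}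
    (h : RepF F Fs) (hs : ∀ l, Hom d (Fs l)) : Normal d F ↔ ∀ᶠ l in uf, Normal d (Fs l) := by
  have _ := hd
  obtain ⟨Φ, hΦ, rfl, rfl⟩ := lift' h hs
  refine los_and (iff_of_true (hΦ.mapF _) (Eventually.of_forall hs))
    (los_allV fun Y => los_imp (los_not (los_zeroV Y)) (los_exFV fun Ys => los_exFK fun lam =>
      los_and (los_fact d Φ Y Ys lam) ?_))
  have h1 := pr_eq_iff (∏ j, lam j) (1 : ℕ → K)
  simpa only [map_prod, map_one] using h1

theorem RepF.preper {F : PM (UP K)} {Fs : ℕ → PM K} (h : RepF F Fs) (hs : ∀ l, Hom d (Fs l))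
    {X : V (UP K)} {Xs : ℕ → V K} (hX : RepV X Xs) (hp : Preper F X) :
    ∀ᶠ l in uf, Preper (Fs l) (Xs l) := by
  obtain ⟨Φ, -, rfl, rfl⟩ := lift' h hs
  obtain ⟨Ξ, rfl, rfl⟩ := liftV hX
  obtain ⟨m, n, hmn, hw⟩ := hp
  exact ((los_eI Φ m n Ξ Ξ).1 hw).mono fun l hl => ⟨m, n, hmn, hl⟩

theorem RepF.cond_iff {F G : PM (UP K)} {Fs Gs : ℕ → PM K} (hF : RepF F Fs)
    (hFs : ∀ l, Hom d (Fs l)) (hG : RepF G Gs) (hGs : ∀ l, Hom d (Gs l)) (N : ℕ) :
    Cond d N F G ↔ ∀ᶠ l in uf, Cond d N (Fs l) (Gs l) := by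
  obtain ⟨Φ, -, rfl, rfl⟩ := lift' hF hFs
  obtain ⟨Ψ, -, rfl, rfl⟩ := lift' hG hGs
  exact los_cond d N Φ Ψ

end Pool.Agent.MP_3827f0_nt.H92
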