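import Pool.Agent.MP_3827f0_nt.H92.Esc
import Pool.Agent.MP_3827f0_nt.H92.Ultra

/-! Limits of places along the ultrafilter. -/

set_option autoImplicit false

namespace Pool.Agent.MP_3827f0_nt.H92

open Filter Topology

variable {K K₀ : Type} [Field K] [Field K₀]

/-- A sequence that represents an element of the ultrapower. -/
noncomputable def rep (x : UP K) : ℕ → K := Quotient.out x

lemma rep_spec (x : UP K) : ((rep x : ℕ → K) : UP K) = x := Quotient.out_eq x

lemma rep_eventually {x : UP K} {xs : ℕ → K} (h : x = (xs : UP K)) : ∀ᶠ l in uf, rep x l = xs l :=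
  Germ.coe_eq.1 ((rep_spec x).trans h)

/-- The scaled places converge to v on the subfield. -/
def Conv (vs : ℕ → AbsoluteValue K ℝ) (s : ℕ → ℝ) (e : K₀ →+* UP K) (v : AbsoluteValue K₀ ℝ) :
    Prop :=
  ∀ x, x ≠ 0 → Tendsto (fun l => Real.log (vs l (rep (e x) l)) / s l) uf (𝓝 (Real.log (v x)))

namespace GLimAux

lemma rep_add (x y : UP K) : ∀ᶠ l in uf, rep (x + y) l = rep x l + rep y l :=
  rep_eventually (xs := rep x + rep y) (by rw [Germ.coe_add, rep_spec, rep_spec])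

lemma rep_mul (x y : UP K) : ∀ᶠ l in uf, rep (x * y) l = rep x l * rep y l :=
  rep_eventually (xs := rep x * rep y) (by rw [Germ.coe_mul, rep_spec, rep_spec])

lemma rep_neg (x : UP K) : ∀ᶠ l in uf, rep (-x) l = -rep x l :=
  rep_eventually (xs := -rep x) (by rw [Germ.coe_neg, rep_spec])

lemma rep_inv (x : UP K) : ∀ᶠ l in uf, rep x⁻¹ l = (rep x l)⁻¹ :=
  rep_eventually (xs := (rep x)⁻¹) (by rw [Germ.coe_inv, rep_spec])

lemma rep_zero : ∀ᶠ l in uf, rep (0 : UP K) l = 0 := rep_eventually (xs := 0) rfl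

lemma rep_one : ∀ᶠ l in uf, rep (1 : UP K) l = 1 := rep_eventually (xs := 1) rfl

lemma ev_ne {xs : ℕ → K} (h : (xs : UP K) ≠ 0) : ∀ᶠ l in uf, xs l ≠ 0 :=
  Ultrafilter.eventually_not.2 fun h' => h (Germ.coe_eq.2 h')

lemma ev_zero {xs : ℕ → K} (h : (xs : UP K) = 0) : ∀ᶠ l in uf, xs l = 0 := Germ.coe_eq.1 h

lemma rep_ne {x : UP K} (h : x ≠ 0) : ∀ᶠ l in uf, rep x l ≠ 0 := ev_ne (by rwa [rep_spec])

/-- Bounded sequences converge along the ultrafilter. -/
lemma exists_lim {E : Type} [NormedAddCommGroup E] [ProperSpace E] {f : ℕ → E} {T : ℝ}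
    (h : ∀ᶠ l in uf, ‖f l‖ ≤ T) : ∃ a, Tendsto f uf (𝓝 a) := by
  obtain ⟨a, -, ha⟩ := (isCompact_closedBall (0 : E) T).ultrafilter_le_nhds'
    ((hyperfilter ℕ).map f) (h.mono fun _ hl => mem_closedBall_zero_iff.2 hl)
  exact ⟨a, ha⟩

lemma log_add_le {v : AbsoluteValue K ℝ} {a : ℝ} (h : Place v a) {x y : K} (hx : x ≠ 0)
    (hxy : x + y ≠ 0) :
    Real.log (v (x + y)) ≤ a + max (Real.log (v x)) (Real.log (v y)) := by
  have h1 := Real.log_le_log (v.pos hxy) (h.add_le x y)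
  rw [Real.log_mul (Real.exp_pos a).ne' (lt_max_of_lt_left (v.pos hx)).ne', Real.log_exp] at h1
  refine h1.trans (add_le_add le_rfl ?_)
  rcases le_total (v x) (v y) with h2 | h2
  · rw [max_eq_right h2]; exact le_max_right _ _
  · rw [max_eq_left h2]; exact le_max_left _ _

lemma log_max {x y : ℝ} (hx : 0 < x) (hy : 0 < y) :
    Real.log (max x y) = max (Real.log x) (Real.log y) := by
  rcases le_total x y with h | h
  · rw [max_eq_right h, max_eq_right (Real.log_le_log hx h)]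
  · rw [max_eq_left h, max_eq_left (Real.log_le_log hy h)]

lemma ne_of_wedge {X Y : V K} (h : wedge X Y ≠ 0) : X ≠ 0 ∧ Y ≠ 0 :=
  ⟨by rintro rfl; exact h (wedge_zero_left Y), by rintro rfl; exact h (wedge_zero_right X)⟩

end GLimAux

open GLimAux

variable {vs : ℕ → AbsoluteValue K ℝ} {as s : ℕ → ℝ} {e : K₀ →+* UP K} {v : AbsoluteValue K₀ ℝ}

theorem exists_conv_ultra (hpl : ∀ l, Place (vs l) (as l)) (hs : ∀ᶠ l in uf, 0 < s l)
    (ha : Tendsto (fun l => as l / s l) uf (𝓝 0))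
    (hb : ∀ x, x ≠ 0 → ∃ T : ℝ, ∀ᶠ l in uf, |Real.log (vs l (rep (e x) l))| ≤ T * s l) :
    ∃ v : AbsoluteValue K₀ ℝ, IsNonarchimedean v ∧ Conv vs s e v := by
  classical
  have hL : ∀ x, ∃ a : ℝ, x ≠ 0 →
      Tendsto (fun l => Real.log (vs l (rep (e x) l)) / s l) uf (𝓝 a) := fun x => by
    by_cases hx : x = 0
    · exact ⟨0, fun h => absurd hx h⟩
    obtain ⟨T, hT⟩ := hb x hx
    obtain ⟨a, ha⟩ := exists_lim (f := fun l => Real.log (vs l (rep (e x) l)) / s l) (T := T) (by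
      filter_upwards [hT, hs] with l h1 h2
      rw [Real.norm_eq_abs, abs_div, abs_of_pos h2, div_le_iff₀ h2]
      exact h1)
    exact ⟨a, fun _ => ha⟩
  choose L hL using hL
  have ne : ∀ {x : K₀}, x ≠ 0 → ∀ᶠ l in uf, rep (e x) l ≠ 0 := fun hx =>
    rep_ne ((map_ne_zero e).2 hx)
  have hmul : ∀ x y, x ≠ 0 → y ≠ 0 → L (x * y) = L x + L y := fun x y hx hy => by
    refine tendsto_nhds_unique (hL _ (mul_ne_zero hx hy)) (((hL x hx).add (hL y hy)).congr' ?_)
    filter_upwards [rep_mul (e x) (e y), ne hx, ne hy] with l h1 h2 h3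
    rw [map_mul, h1, map_mul, Real.log_mul ((vs l).pos h2).ne' ((vs l).pos h3).ne', add_div]
  have hadd : ∀ x y, x ≠ 0 → y ≠ 0 → x + y ≠ 0 → L (x + y) ≤ max (L x) (L y) :=
    fun x y hx hy hxy => by
    have h0 := ha.add ((hL x hx).max (hL y hy))
    rw [zero_add] at h0
    refine le_of_tendsto_of_tendsto (hL _ hxy) h0 ?_
    filter_upwards [rep_add (e x) (e y), ne hx, ne hxy, hs] with l h1 h2 h4 h5
    rw [map_add, h1] at h4
    rw [map_add, h1, max_div_div_right h5.le, ← add_div]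
    exact div_le_div_of_nonneg_right (log_add_le (hpl l) h2 h4) h5.le
  have nn : ∀ x : K₀, 0 ≤ (if x = 0 then 0 else Real.exp (L x)) := fun x => by
    split_ifs
    exacts [le_rfl, (Real.exp_pos _).le]
  have na : ∀ x y : K₀, (if x + y = 0 then 0 else Real.exp (L (x + y))) ≤
      max (if x = 0 then 0 else Real.exp (L x)) (if y = 0 then 0 else Real.exp (L y)) :=
    fun x y => by
    by_cases hxy : x + y = 0
    · rw [if_pos hxy]; exact le_max_of_le_left (nn x)
    by_cases hx : x = 0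
    · subst hx; rw [zero_add]; exact le_max_right _ _
    by_cases hy : y = 0
    · subst hy; rw [add_zero]; exact le_max_left _ _
    rw [if_neg hxy, if_neg hx, if_neg hy, ← Real.exp_monotone.map_max]
    exact Real.exp_le_exp.2 (hadd x y hx hy hxy)
  refine ⟨{ toFun := fun x => if x = 0 then 0 else Real.exp (L x)
            map_mul' := fun x y => ?_
            nonneg' := nn
            eq_zero' := fun x => ?_
            add_le' := fun x y => (na x y).trans (max_le_add_of_nonneg (nn x) (nn y)) },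
    na, fun x hx => ?_⟩
  · by_cases hx : x = 0
    · simp [hx]
    by_cases hy : y = 0
    · simp [hy]
    rw [if_neg (mul_ne_zero hx hy), if_neg hx, if_neg hy, hmul x y hx hy, Real.exp_add]
  · by_cases hx : x = 0
    · simp [hx]
    · simp [hx]
  · have := hL x hx
    rw [← Real.log_exp (L x)] at this
    simpa only [AbsoluteValue.coe_mk, MulHom.coe_mk, if_neg hx] using this

theorem exists_conv_complex (hpl : ∀ᶠ l in uf, Place (vs l) 1)
    (hb : ∀ x, x ≠ 0 → ∃ T : ℝ, ∀ᶠ l in uf, |Real.log (vs l (rep (e x) l))| ≤ T) :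
    ∃ (ι : K₀ →+* ℂ) (v : AbsoluteValue K₀ ℝ), (∀ x, v x = ‖ι x‖) ∧ Conv vs (fun _ => 1) e v := by
  classical
  have h1 : ∀ᶠ l in uf, ∃ ι : K →+* ℂ, ∀ x, vs l x = ‖ι x‖ := hpl.mono fun l h =>
    (h.resolve_left fun h' => one_ne_zero h'.1).2
  obtain ⟨l₀, ι₀, -⟩ := h1.exists
  have h2 : ∀ l, ∃ ι : K →+* ℂ, (∃ ι : K →+* ℂ, ∀ x, vs l x = ‖ι x‖) → ∀ x, vs l x = ‖ι x‖ :=
    fun l => by
    by_cases h : ∃ ι : K →+* ℂ, ∀ x, vs l x = ‖ι x‖
    · exact ⟨h.choose, fun _ => h.choose_spec⟩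
    · exact ⟨ι₀, fun h' => absurd h' h⟩
  choose ιs hι using h2
  have h3 : ∀ᶠ l in uf, ∀ x, vs l x = ‖ιs l x‖ := h1.mono hι
  have hL : ∀ x, ∃ a : ℂ, Tendsto (fun l => ιs l (rep (e x) l)) uf (𝓝 a) := fun x => by
    by_cases hx : x = 0
    · refine exists_lim (T := 0) ?_
      filter_upwards [rep_zero (K := K)] with l h
      rw [hx, map_zero, h, map_zero, norm_zero]
    obtain ⟨T, hT⟩ := hb x hx
    refine exists_lim (T := Real.exp T) ?_
    filter_upwards [hT, h3, rep_ne ((map_ne_zero e).2 hx)] with l h4 h5 h6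
    rw [← h5, ← Real.log_le_iff_le_exp ((vs l).pos h6)]
    exact (le_abs_self _).trans h4
  choose L hL using hL
  let ι : K₀ →+* ℂ :=
    { toFun := L
      map_one' := tendsto_nhds_unique (hL 1) (tendsto_const_nhds.congr' (by
        filter_upwards [rep_one (K := K)] with l h
        rw [map_one, h, map_one]))
      map_mul' := fun x y => tendsto_nhds_unique (hL _) (((hL x).mul (hL y)).congr' (by
        filter_upwards [rep_mul (e x) (e y)] with l h
        rw [map_mul e, h, map_mul]))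
      map_zero' := tendsto_nhds_unique (hL 0) (tendsto_const_nhds.congr' (by
        filter_upwards [rep_zero (K := K)] with l h
        rw [map_zero, h, map_zero]))
      map_add' := fun x y => tendsto_nhds_unique (hL _) (((hL x).add (hL y)).congr' (by
        filter_upwards [rep_add (e x) (e y)] with l h
        rw [map_add e, h, map_add])) }
  refine ⟨ι, { toFun := fun x => ‖ι x‖
               map_mul' := fun x y => by rw [map_mul, norm_mul]
               nonneg' := fun x => norm_nonneg _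
               eq_zero' := fun x => by rw [norm_eq_zero, map_eq_zero]
               add_le' := fun x y => by rw [map_add]; exact norm_add_le _ _ },
    fun _ => rfl, fun x hx => ?_⟩
  have h4 : ‖ι x‖ ≠ 0 := norm_ne_zero_iff.2 ((map_ne_zero ι).2 hx)
  refine ((hL x).norm.log h4).congr' ?_
  filter_upwards [h3] with l h
  rw [h, div_one]

theorem Conv.log (h : Conv vs s e v) {x : K₀} (hx : x ≠ 0) {xs : ℕ → K} (hxs : e x = (xs : UP K)) :
    Tendsto (fun l => Real.log (vs l (xs l)) / s l) uf (𝓝 (Real.log (v x))) :=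
  (h x hx).congr' ((rep_eventually hxs).mono fun l hl => by simp only [hl])

theorem Conv.nat (h : Conv vs s e v) [CharZero K₀] {n : ℕ} (hn : n ≠ 0) :
    Tendsto (fun l => Real.log (vs l n) / s l) uf (𝓝 (Real.log (v n))) :=
  h.log (Nat.cast_ne_zero.2 hn) (xs := fun _ => (n : K)) (map_natCast e n)

theorem Conv.posLog (h : Conv vs s e v) (hs : ∀ᶠ l in uf, 0 < s l) {x : K₀} {xs : ℕ → K}
    (hxs : e x = (xs : UP K)) :
    Tendsto (fun l => Real.posLog (vs l (xs l)) / s l) uf (𝓝 (Real.posLog (v x))) := by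
  by_cases hx : x = 0
  · rw [hx, map_zero] at hxs
    rw [hx, map_zero, Real.posLog_zero]
    refine tendsto_const_nhds.congr' ((ev_zero hxs.symm).mono fun l hl => ?_)
    simp only [hl, map_zero, Real.posLog_zero, zero_div]
  · refine (tendsto_const_nhds.max (h.log hx hxs)).congr' (hs.mono fun l hl => ?_)
    simp only [Real.posLog_apply, ← max_div_div_right hl.le, zero_div]

theorem Conv.wt (h : Conv vs s e v) (hs : ∀ᶠ l in uf, 0 < s l) {d : ℕ} {F : PM K₀}
    {Fs : ℕ → PM K} (hr : RepF (mapF e F) Fs) :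
    Tendsto (fun l => wt (vs l) d (Fs l) / s l) uf (𝓝 (wt v d F)) := by
  simp only [H92.wt, Finset.sum_div]
  refine tendsto_finsetSum _ fun i _ => tendsto_finsetSum _ fun k _ => h.posLog hs ?_
  rw [← hr i, mapF, MvPolynomial.coeff_map]

theorem Conv.log_nrm (h : Conv vs s e v) (hs : ∀ᶠ l in uf, 0 < s l) {X : V K₀} (hX : X ≠ 0)
    {Xs : ℕ → V K} (hXs : RepV (mapV e X) Xs) :
    Tendsto (fun l => Real.log (nrm (vs l) (Xs l)) / s l) uf (𝓝 (Real.log (nrm v X))) := by
  have r : ∀ i, e (X i) = ((fun l => Xs l i : ℕ → K) : UP K) := hXs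
  have z : ∀ i, X i = 0 → ∀ᶠ l in uf, Xs l i = 0 := fun i hi =>
    ev_zero (xs := fun l => Xs l i) (by rw [← r i, hi, map_zero])
  have nz : ∀ i, X i ≠ 0 → ∀ᶠ l in uf, Xs l i ≠ 0 := fun i hi =>
    ev_ne (xs := fun l => Xs l i) (by rw [← r i]; exact (map_ne_zero e).2 hi)
  by_cases h0 : X 0 = 0
  · have h1 : X 1 ≠ 0 := fun h1 => hX (funext fun i => by fin_cases i <;> assumption)
    rw [nrm, h0, map_zero, max_eq_right (v.nonneg _)]
    refine (h.log h1 (r 1)).congr' ((z 0 h0).mono fun l hl => ?_)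
    simp only [nrm, hl, map_zero, max_eq_right ((vs l).nonneg _)]
  by_cases h1 : X 1 = 0
  · rw [nrm, h1, map_zero, max_eq_left (v.nonneg _)]
    refine (h.log h0 (r 0)).congr' ((z 1 h1).mono fun l hl => ?_)
    simp only [nrm, hl, map_zero, max_eq_left ((vs l).nonneg _)]
  rw [nrm, log_max (v.pos h0) (v.pos h1)]
  refine ((h.log h0 (r 0)).max (h.log h1 (r 1))).congr' ?_
  filter_upwards [hs, nz 0 h0, nz 1 h1] with l h2 h3 h4
  rw [nrm, log_max ((vs l).pos h3) ((vs l).pos h4), max_div_div_right h2.le]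

variable [IsAlgClosed K] [IsAlgClosed K₀] {a T : ℝ} {d : ℕ} {F : PM K₀} {Fs : ℕ → PM K}

theorem Conv.esc (h : Conv vs s e v) (hpl : ∀ l, Place (vs l) (as l)) (hv : Place v a)
    (hs : ∀ᶠ l in uf, 0 < s l) (hd : 2 ≤ d) (hF : Normal d F) (hFs : ∀ l, Normal d (Fs l))
    (hr : RepF (mapF e F) Fs) (hw : ∀ᶠ l in uf, H92.wt (vs l) d (Fs l) + as l ≤ T * s l)
    {X : V K₀} (hX : X ≠ 0) {Xs : ℕ → V K} (hXs : RepV (mapV e X) Xs) :
    Tendsto (fun l => esc (vs l) d (Fs l) (Xs l) / s l) uf (𝓝 (esc v d F X)) := by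
  have hd1 : (1 : ℝ) < d := by exact_mod_cast hd
  have hne : ∀ᶠ l in uf, Xs l ≠ 0 :=
    Ultrafilter.eventually_not.2 fun h' => mapV_ne_zero e hX (hXs.eq_zero.2 h')
  have lim : ∀ c : ℝ, Tendsto (fun n : ℕ => c / (d : ℝ) ^ n) atTop (𝓝 0) := fun c =>
    tendsto_const_nhds.div_atTop (tendsto_pow_atTop_atTop_of_one_lt hd1)
  refine Metric.tendsto_nhds.2 fun ε hε => ?_
  have hε3 : 0 < ε / 3 := by positivity
  obtain ⟨n, hn1, hn2⟩ := (((lim (cst d * T)).eventually (gt_mem_nhds hε3)).and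
    ((lim (cst d * (H92.wt v d F + a))).eventually (gt_mem_nhds hε3))).exists
  have hr' := hr.iter (fun l => (hFs l).1) n hXs
  rw [iter_mapF] at hr'
  have h1 := (h.log_nrm hs ((hF.nondeg (by omega)).iter_ne n hX) hr').div_const ((d : ℝ) ^ n)
  have h2 := abs_le.1 (esc_approx hv hd hF le_rfl n hX)
  filter_upwards [Metric.tendsto_nhds.1 h1 _ hε3, hs, hw, hne] with l h3 h4 h5 h6
  have h7 := div_le_div_of_nonneg_right (esc_approx (hpl l) hd (hFs l) h5 n h6) h4.le
  have e1 : cst d * (T * s l) / (d : ℝ) ^ n / s l = cst d * T / (d : ℝ) ^ n := by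
    field_simp
  rw [e1, ← abs_of_pos h4, ← abs_div, sub_div, div_right_comm, abs_le] at h7
  rw [Real.dist_eq, abs_lt] at h3 ⊢
  constructor <;> linarith [h2.1, h2.2, h3.1, h3.2, h7.1, h7.2]

theorem Conv.grn (h : Conv vs s e v) (hpl : ∀ l, Place (vs l) (as l)) (hv : Place v a)
    (hs : ∀ᶠ l in uf, 0 < s l) (hd : 2 ≤ d) (hF : Normal d F) (hFs : ∀ l, Normal d (Fs l))
    (hr : RepF (mapF e F) Fs) (hw : ∀ᶠ l in uf, H92.wt (vs l) d (Fs l) + as l ≤ T * s l)
    {X Y : V K₀} (hXY : wedge X Y ≠ 0) {Xs Ys : ℕ → V K} (hXs : RepV (mapV e X) Xs)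
    (hYs : RepV (mapV e Y) Ys) :
    Tendsto (fun l => grn (vs l) d (Fs l) (Xs l) (Ys l) / s l) uf (𝓝 (grn v d F X Y)) := by
  simp only [H92.grn, add_div, neg_div]
  exact ((h.log hXY ((wedge_mapV e X Y).symm.trans (hXs.wedge hYs))).neg.add
    (h.esc hpl hv hs hd hF hFs hr hw (ne_of_wedge hXY).1 hXs)).add
    (h.esc hpl hv hs hd hF hFs hr hw (ne_of_wedge hXY).2 hYs)

theorem Conv.en (h : Conv vs s e v) (hpl : ∀ l, Place (vs l) (as l)) (hv : Place v a)
    (hs : ∀ᶠ l in uf, 0 < s l) (hd : 2 ≤ d) (hF : Normal d F) (hFs : ∀ l, Normal d (Fs l))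
    (hr : RepF (mapF e F) Fs) (hw : ∀ᶠ l in uf, H92.wt (vs l) d (Fs l) + as l ≤ T * s l)
    {X : ℕ → V K₀} (hX : Sep X) {Xs : ℕ → ℕ → V K} (hXs : ∀ j, RepV (mapV e (X j)) (Xs j))
    (N : ℕ) : Tendsto (fun l => en (vs l) d (Fs l) N (fun j => Xs j l) / s l) uf
      (𝓝 (en v d F N X)) := by
  simp only [H92.en, Finset.sum_div]
  refine tendsto_finsetSum _ fun j _ => tendsto_finsetSum _ fun k _ => ?_
  by_cases hjk : j = k
  · simp only [if_pos hjk, zero_div]
    exact tendsto_const_nhds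
  · simp only [if_neg hjk]
    exact h.grn hpl hv hs hd hF hFs hr hw (hX j k hjk) (hXs j) (hXs k)

end Pool.Agent.MP_3827f0_nt.H92
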