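import Pool.Agent.MP_3827f0_nt.H92.Defs

/-! Generic sequences of places: selection and Markov inequalities. -/

set_option autoImplicit false

namespace Pool.Agent.MP_3827f0_nt.H92.GlobAux

open Filter MeasureTheory
open scoped ENNReal

variable {Ω : Type} [MeasurableSpace Ω]

/-- Properties of sequences that hold off sets of small measure. -/
def GenS (ν : ℕ → Measure Ω) (P : (ℕ → Ω) → Prop) : Prop :=
  ∀ ε : ℝ≥0∞, 0 < ε → ∃ B : ℕ → Set Ω, (∀ᶠ l in uf, ν l (B l) ≤ ε) ∧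
    ∀ ω : ℕ → Ω, (∀ᶠ l in uf, ω l ∉ B l) → P ω

variable {ν : ℕ → Measure Ω} {P Q : (ℕ → Ω) → Prop}

theorem GenS.mono (h : GenS ν P) (hPQ : ∀ ω, P ω → Q ω) : GenS ν Q := fun ε hε =>
  let ⟨B, h1, h2⟩ := h ε hε
  ⟨B, h1, fun ω hω => hPQ ω (h2 ω hω)⟩

theorem GenS.inter {ι : Type} [Countable ι] {P : ι → (ℕ → Ω) → Prop} (h : ∀ i, GenS ν (P i)) :
    GenS ν fun ω => ∀ i, P i ω := by
  intro ε hε
  obtain ⟨δ, hδ, hs⟩ := ENNReal.exists_pos_sum_of_countable' hε.ne' ι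
  choose B h1 h2 using fun i => h i (δ i) (hδ i)
  refine ⟨fun l => ⋃ i, {x | x ∈ B i l ∧ ν l (B i l) ≤ δ i}, Eventually.of_forall fun l => ?_,
    fun ω hω i => h2 i ω ?_⟩
  · refine (measure_iUnion_le _).trans (le_trans (ENNReal.tsum_le_tsum fun i => ?_) hs.le)
    by_cases hi : ν l (B i l) ≤ δ i
    · exact (measure_mono fun x hx => hx.1).trans hi
    · simp [hi]
  · filter_upwards [hω, h1 i] with l a b c
    exact a (Set.mem_iUnion.2 ⟨i, c, b⟩)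

theorem GenS.and (h : GenS ν P) (h' : GenS ν Q) : GenS ν fun ω => P ω ∧ Q ω :=
  (GenS.inter (ι := Bool) (P := fun b => Bool.rec P Q b) fun b => by
    cases b
    exacts [h, h']).mono fun _ hω => ⟨hω false, hω true⟩

theorem GenS.select (h : GenS ν P) {ε : ℝ≥0∞} (hε : 0 < ε) {S : ℕ → Set Ω}
    (hS : ∀ᶠ l in uf, ε < ν l (S l)) : ∃ ω : ℕ → Ω, (∀ᶠ l in uf, ω l ∈ S l) ∧ P ω := by
  obtain ⟨B, h1, h2⟩ := h ε hε
  have h3 : ∀ᶠ l in uf, ∃ x, x ∈ S l ∧ x ∉ B l := by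
    filter_upwards [hS, h1] with l a b
    by_contra hc
    push Not at hc
    exact absurd ((measure_mono hc).trans b) (not_le.2 a)
  obtain ⟨_, x, -⟩ := h3.exists
  haveI : Nonempty Ω := ⟨x⟩
  obtain ⟨ω, hω⟩ := h3.choice
  exact ⟨ω, hω.mono fun _ h => h.1, h2 ω (hω.mono fun _ h => h.2)⟩

/-- A sequence of scales. -/
structure Sc (μ : Measure Ω) (s : ℕ → Ω → ℝ) : Prop where
  meas : ∀ l, Measurable (s l)
  int : ∀ l, Integrable (s l) μ
  nonneg : ∀ l ω, 0 ≤ s l ω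
  pos : ∀ l, 0 < ∫ ω, s l ω ∂μ

/-- The probability measures with density proportional to the scale. -/
noncomputable def nu (μ : Measure Ω) (s : ℕ → Ω → ℝ) (l : ℕ) : Measure Ω :=
  μ.withDensity fun ω => ENNReal.ofReal (s l ω / ∫ ω, s l ω ∂μ)

/-- Little o of the total scale. -/
def Lo (μ : Measure Ω) (s : ℕ → Ω → ℝ) (f : ℕ → ℝ) : Prop :=
  ∀ η : ℝ, 0 < η → ∀ᶠ l in uf, f l ≤ η * ∫ ω, s l ω ∂μ

/-- The upper limit of the scaled values is at most zero. -/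
def Lt0 (s φ : ℕ → Ω → ℝ) (ω : ℕ → Ω) : Prop :=
  ∀ c : ℝ, 0 < c → ∀ᶠ l in uf, φ l (ω l) < c * s l (ω l)

variable {μ : Measure Ω} {s : ℕ → Ω → ℝ}

theorem Sc.nu_apply (h : Sc μ s) (l : ℕ) {S : Set Ω} (hS : MeasurableSet S) :
    nu μ s l S = ENNReal.ofReal ((∫ ω in S, s l ω ∂μ) / ∫ ω, s l ω ∂μ) := by
  rw [nu, withDensity_apply _ hS, ← integral_div, ofReal_integral_eq_lintegral_ofReal
    ((h.int l).div_const _).integrableOn
    (Eventually.of_forall fun ω => div_nonneg (h.nonneg l ω) (h.pos l).le)]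

theorem Sc.ex (h : Sc μ s) (hP : GenS (nu μ s) P) : ∃ ω, P ω := by
  obtain ⟨ω, -, hω⟩ := hP.select (ε := 1 / 2) (by simp) (S := fun _ => Set.univ)
    (Eventually.of_forall fun l => by
      rw [h.nu_apply l MeasurableSet.univ, Measure.restrict_univ, div_self (h.pos l).ne']
      simp)
  exact ⟨ω, hω⟩

theorem Sc.markov (h : Sc μ s) (l : ℕ) {φ : Ω → ℝ} (hm : Measurable φ) (hi : Integrable φ μ)
    (h0 : ∀ ω, 0 ≤ φ ω) {η t : ℝ} (ht : 0 < t) (hη : ∫ ω, φ ω ∂μ ≤ η * ∫ ω, s l ω ∂μ) :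
    nu μ s l {ω | t * s l ω ≤ φ ω} ≤ ENNReal.ofReal (η / t) := by
  have hS : MeasurableSet {ω | t * s l ω ≤ φ ω} := measurableSet_le ((h.meas l).const_mul t) hm
  rw [h.nu_apply l hS]
  refine ENNReal.ofReal_le_ofReal ?_
  rw [div_le_div_iff₀ (h.pos l) ht, mul_comm, ← integral_const_mul]
  refine le_trans (setIntegral_mono_on ((h.int l).const_mul t).integrableOn hi.integrableOn hS
    fun ω hω => hω) (le_trans (setIntegral_le_integral hi (Eventually.of_forall h0)) hη)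

theorem exists_real {ε : ℝ≥0∞} (hε : 0 < ε) : ∃ r : ℝ, 0 < r ∧ ENNReal.ofReal r ≤ ε := by
  obtain ⟨r, -, h1, h2⟩ := ENNReal.lt_iff_exists_real_btwn.1 hε
  exact ⟨r, ENNReal.ofReal_pos.1 h1, h2.le⟩

/-- Admissible sequences of functions. -/
def Adm (μ : Measure Ω) (φ : ℕ → Ω → ℝ) : Prop :=
  ∀ᶠ l in uf, Measurable (φ l) ∧ Integrable (φ l) μ

variable {φ : ℕ → Ω → ℝ}

theorem Sc.bdd (h : Sc μ s) (ha : Adm μ φ) (h0 : ∀ l ω, 0 ≤ φ l ω) {C : ℝ}
    (hC : ∀ᶠ l in uf, ∫ ω, φ l ω ∂μ ≤ C * ∫ ω, s l ω ∂μ) :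
    GenS (nu μ s) fun ω => ∃ T : ℝ, ∀ᶠ l in uf, φ l (ω l) ≤ T * s l (ω l) := by
  intro ε hε
  obtain ⟨r, hr, hrε⟩ := exists_real hε
  have ht : 0 < (|C| + 1) / r := by positivity
  refine ⟨fun l => {ω | (|C| + 1) / r * s l ω ≤ φ l ω}, ?_, fun ω hω => ⟨_, hω.mono fun l hl =>
    (not_le.1 hl).le⟩⟩
  filter_upwards [ha, hC] with l a b
  refine (h.markov l a.1 a.2 (h0 l) ht b).trans (le_trans (ENNReal.ofReal_le_ofReal ?_) hrε)
  rw [div_le_iff₀ ht, mul_div_cancel₀ _ hr.ne']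
  linarith [le_abs_self C]

theorem Sc.lt0 (h : Sc μ s) (ha : Adm μ φ) (h0 : ∀ l ω, 0 ≤ φ l ω)
    (hC : Lo μ s fun l => ∫ ω, φ l ω ∂μ) : GenS (nu μ s) (Lt0 s φ) := by
  have key : ∀ n : ℕ, GenS (nu μ s) fun ω =>
      ∀ᶠ l in uf, φ l (ω l) < 1 / ((n : ℝ) + 1) * s l (ω l) := by
    intro n ε hε
    obtain ⟨r, hr, hrε⟩ := exists_real hε
    have ht : 0 < 1 / ((n : ℝ) + 1) := by positivity
    refine ⟨fun l => {ω | 1 / ((n : ℝ) + 1) * s l ω ≤ φ l ω}, ?_,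
      fun ω hω => hω.mono fun l hl => not_le.1 hl⟩
    filter_upwards [ha, hC _ (mul_pos hr ht)] with l a b
    refine (h.markov l a.1 a.2 (h0 l) ht b).trans ?_
    rwa [mul_div_cancel_right₀ _ ht.ne']
  refine (GenS.inter key).mono fun ω hω c hc => ?_
  obtain ⟨n, hn⟩ := exists_nat_one_div_lt hc
  exact (hω n).mono fun l hl => hl.trans_le (mul_le_mul_of_nonneg_right hn.le (h.nonneg l _))

theorem Sc.gen_pos (h : Sc μ s) : GenS (nu μ s) fun ω => ∀ᶠ l in uf, 0 < s l (ω l) :=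
  (h.lt0 (φ := fun _ _ => 0)
    (Eventually.of_forall fun _ => ⟨measurable_const, integrable_zero _ _ _⟩) (fun _ _ => le_rfl)
    fun η hη => Eventually.of_forall fun l => by simpa using (mul_pos hη (h.pos l)).le).mono
    fun ω hω => by simpa using hω 1 one_pos

theorem Adm.pos (ha : Adm μ φ) : Adm μ fun l ω => max (φ l ω) 0 :=
  Eventually.mono ha fun _ h => ⟨h.1.max measurable_const, h.2.pos_part⟩

theorem Sc.lo (h : Sc μ s) (ha : Adm μ φ) {C : ℝ} (hC0 : 0 < C)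
    (hC : ∀ᶠ l in uf, ∀ ω, φ l ω ≤ C * s l ω) (hg : GenS (nu μ s) (Lt0 s φ)) :
    Lo μ s fun l => ∫ ω, max (φ l ω) 0 ∂μ := by
  intro η hη
  have hr : 0 < η / 2 / C := by positivity
  have h1 : ∀ᶠ l in uf, nu μ s l {ω | η / 2 * s l ω ≤ φ l ω} ≤ ENNReal.ofReal (η / 2 / C) := by
    by_contra hc
    obtain ⟨ω, a, b⟩ := hg.select (ENNReal.ofReal_pos.2 hr)
      (S := fun l => {ω | η / 2 * s l ω ≤ φ l ω})
      ((Ultrafilter.eventually_not.2 hc).mono fun l hl => not_le.1 hl)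
    obtain ⟨l, x, y⟩ := (a.and (b (η / 2) (by positivity))).exists
    exact absurd x (not_le.2 y)
  filter_upwards [h1, ha, ha.pos, hC] with l a b b' c
  have hS : MeasurableSet {ω | η / 2 * s l ω ≤ φ l ω} :=
    measurableSet_le ((h.meas l).const_mul _) b.1
  rw [h.nu_apply l hS, ENNReal.ofReal_le_ofReal_iff hr.le, div_le_div_iff₀ (h.pos l) hC0] at a
  have i1 := (h.int l).const_mul (η / 2)
  have i2 := ((h.int l).indicator hS).const_mul C
  calc ∫ ω, max (φ l ω) 0 ∂μ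
      ≤ ∫ ω, (η / 2 * s l ω + C * {ω | η / 2 * s l ω ≤ φ l ω}.indicator (s l) ω) ∂μ := by
        refine integral_mono b'.2 (i1.add i2) fun ω => ?_
        have := mul_nonneg (half_pos hη).le (h.nonneg l ω)
        have := mul_nonneg hC0.le (h.nonneg l ω)
        by_cases hω : ω ∈ {ω | η / 2 * s l ω ≤ φ l ω}
        · simp only [Set.indicator_of_mem hω]
          exact max_le (by linarith [c ω]) (by linarith)
        · simp only [Set.indicator_of_notMem hω]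
          exact max_le (by linarith [not_le.1 (show ¬ η / 2 * s l ω ≤ φ l ω from hω)])
            (by linarith)
    _ ≤ η * ∫ ω, s l ω ∂μ := by
        rw [integral_add i1 i2, integral_const_mul, integral_const_mul, integral_indicator hS]
        linarith

end Pool.Agent.MP_3827f0_nt.H92.GlobAux
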