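import Pool.Agent.MP_3827f0_nt.H92.Pot
import Pool.Agent.MP_3827f0_nt.H92.GHt
import Pool.Agent.MP_3827f0_nt.H92.GlobAux

/-! Generic limit places: small energy, Lyapunov exponents and Green functions. -/

set_option autoImplicit false

namespace Pool.Agent.MP_3827f0_nt.H92.GlobAux

open Filter MeasureTheory Topology
open scoped ENNReal

variable {K K₀ : Type} [Field K] [Field K₀] (A : Adelic K) {d : ℕ}

/-- The canonical representative of a vector. -/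
noncomputable def rv (e : K₀ →+* UP K) (X : V K₀) (l : ℕ) : V K := fun i => rep (e (X i)) l

theorem rv_rep (e : K₀ →+* UP K) (X : V K₀) : RepV (mapV e X) (rv e X) :=
  fun i => (rep_spec (e (X i))).symm

theorem rv_ne (e : K₀ →+* UP K) {X : V K₀} (hX : X ≠ 0) : ∀ᶠ l in uf, rv e X l ≠ 0 :=
  Ultrafilter.eventually_not.2 fun h => mapV_ne_zero e hX ((rv_rep e X).eq_zero.2 h)

theorem rv_wedge (e : K₀ →+* UP K) {X Y : V K₀} (h : wedge X Y ≠ 0) :
    ∀ᶠ l in uf, wedge (rv e X l) (rv e Y l) ≠ 0 := by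
  refine Ultrafilter.eventually_not.2 fun h' => h (e.injective ?_)
  rw [← wedge_mapV, (rv_rep e X).wedge (rv_rep e Y), map_zero]
  exact Germ.coe_eq.2 h'

theorem rv_sep (e : K₀ →+* UP K) {X : ℕ → V K₀} (h : Sep X) (N : ℕ) : ∀ᶠ l in uf,
    ∀ j < N, ∀ k < N, j ≠ k → wedge (rv e (X j) l) (rv e (X k) l) ≠ 0 := by
  refine (eventually_all_finite (Set.finite_lt_nat N)).2 fun j _ =>
    (eventually_all_finite (Set.finite_lt_nat N)).2 fun k _ => ?_
  by_cases hjk : j = k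
  · exact Eventually.of_forall fun _ h' => absurd hjk h'
  · exact (rv_wedge e (h j k hjk)).mono fun _ h' _ => h'

variable {s w : ℕ → A.Ω → ℝ} {e : K₀ →+* UP K}

/-- A map over the small field together with a representing sequence. -/
structure Rp (d : ℕ) (e : K₀ →+* UP K) (w : ℕ → A.Ω → ℝ) (P : PM K₀) (Ps : ℕ → PM K) : Prop where
  rep : RepF (mapF e P) Ps
  norm : Normal d P
  norms : ∀ l, Normal d (Ps l)
  le : ∀ l ω, wt (A.v ω) d (Ps l) + A.a ω ≤ w l ω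

variable {A} {P P' : PM K₀} {Ps Ps' : ℕ → PM K} [IsAlgClosed K]

theorem small_one (hd : 2 ≤ d) (hs : Sc A.μ s) (hw : Sc A.μ w) {C : ℝ}
    (hC : ∀ᶠ l in uf, ∫ ω, w l ω ∂A.μ ≤ C * ∫ ω, s l ω ∂A.μ) (h : Rp A d e w P Ps)
    {X : ℕ → V K₀} (hX : Sep X) (hz : ∀ j, Lo A.μ s fun l => hh A d (Ps l) (rv e (X j) l))
    {ε : ℝ≥0∞} (hε : 0 < ε) {δ : ℝ} (hδ : 0 < δ) : ∃ N₁ : ℕ, ∀ N : ℕ, N₁ ≤ N → ∀ᶠ l in uf,
      nu A.μ s l {ω | δ * (N : ℝ) ^ 2 * s l ω < en (A.v ω) d (Ps l) N fun j => rv e (X j) l}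
        ≤ ε := by
  obtain ⟨r, hr, hrε⟩ := exists_real hε
  have hη : 0 < r * δ / (2 + |C|) := by positivity
  generalize hηd : r * δ / (2 + |C|) = η at hη
  have hη' : η * (2 + |C|) = r * δ := by rw [← hηd]; field_simp
  obtain ⟨N₀, hN₀⟩ := en_lower hd hη
  refine ⟨N₀ + 1, fun N hN => ?_⟩
  have hN2 : (0 : ℝ) < (N : ℝ) ^ 2 := by
    have : 0 < N := by omega
    positivity
  filter_upwards [hC, rv_sep e hX N,
    (eventually_all_finite (Set.finite_lt_nat N)).2 fun j _ => hz j η hη] with l c a b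
  have i1 := integrable_en A hd (h.norms l) a
  have i2 := ((hw.int l).const_mul η).mul_const ((N : ℝ) ^ 2)
  have hm := hs.markov l (φ := fun ω => en (A.v ω) d (Ps l) N (fun j => rv e (X j) l) +
      η * w l ω * (N : ℝ) ^ 2)
    ((measurable_en A hd (h.norms l) a).add (((hw.meas l).const_mul η).mul_const _)) (i1.add i2)
    (fun ω => by
      have := hN₀ N (by omega) K (A.v ω) (A.a ω) (Ps l) (w l ω) _ (A.place ω) (h.norms l)
        (h.le l ω) a
      linarith) (η := r * (δ * (N : ℝ) ^ 2)) (mul_pos hδ hN2) ?_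
  · rw [mul_div_cancel_right₀ _ (mul_pos hδ hN2).ne'] at hm
    refine le_trans (measure_mono fun ω hω => ?_) (hm.trans hrε)
    have := mul_nonneg (mul_nonneg hη.le (hw.nonneg l ω)) hN2.le
    simp only [Set.mem_setOf_eq] at hω ⊢
    linarith
  · have h1 := integral_en_le A hd (h.norms l) a (mul_pos hη (hs.pos l)).le b
    rw [integral_add i1 i2, integral_mul_const, integral_const_mul]
    have h2 : ∫ ω, w l ω ∂A.μ ≤ |C| * ∫ ω, s l ω ∂A.μ :=
      c.trans (mul_le_mul_of_nonneg_right (le_abs_self C) (hs.pos l).le)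
    have h3 := mul_le_mul_of_nonneg_right (mul_le_mul_of_nonneg_left h2 hη.le) hN2.le
    calc _ ≤ η * (2 + |C|) * ((N : ℝ) ^ 2 * ∫ ω, s l ω ∂A.μ) := by linarith
      _ = _ := by rw [hη']; ring

/-- Small energy along a sequence of places. -/
def SmallS (d : ℕ) (e : K₀ →+* UP K) (s : ℕ → A.Ω → ℝ) (Ps Ps' : ℕ → PM K) (X : ℕ → V K₀)
    (ω : ℕ → A.Ω) : Prop :=
  ∀ δ : ℝ, 0 < δ → ∀ N₀ : ℕ, ∃ N, N₀ ≤ N ∧ ∀ᶠ l in uf,
    (en (A.v (ω l)) d (Ps l) N fun j => rv e (X j) l) ≤ δ * (N : ℝ) ^ 2 * s l (ω l) ∧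
    (en (A.v (ω l)) d (Ps' l) N fun j => rv e (X j) l) ≤ δ * (N : ℝ) ^ 2 * s l (ω l)

theorem gen_small (hd : 2 ≤ d) (hs : Sc A.μ s) (hw : Sc A.μ w) {C : ℝ}
    (hC : ∀ᶠ l in uf, ∫ ω, w l ω ∂A.μ ≤ C * ∫ ω, s l ω ∂A.μ) (h : Rp A d e w P Ps)
    (h' : Rp A d e w P' Ps') {X : ℕ → V K₀} (hX : Sep X)
    (hz : ∀ j, Lo A.μ s fun l => hh A d (Ps l) (rv e (X j) l))
    (hz' : ∀ j, Lo A.μ s fun l => hh A d (Ps' l) (rv e (X j) l)) :
    GenS (nu A.μ s) (SmallS d e s Ps Ps' X) := by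
  have key : ∀ n : ℕ × ℕ, GenS (nu A.μ s) fun ω => ∃ N, n.2 ≤ N ∧ ∀ᶠ l in uf,
      (en (A.v (ω l)) d (Ps l) N fun j => rv e (X j) l) ≤
        1 / ((n.1 : ℝ) + 1) * (N : ℝ) ^ 2 * s l (ω l) ∧
      (en (A.v (ω l)) d (Ps' l) N fun j => rv e (X j) l) ≤
        1 / ((n.1 : ℝ) + 1) * (N : ℝ) ^ 2 * s l (ω l) := by
    intro n ε hε
    have ht : 0 < 1 / ((n.1 : ℝ) + 1) := by positivity
    obtain ⟨N₁, h1⟩ := small_one hd hs hw hC h hX hz (ENNReal.half_pos hε.ne') ht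
    obtain ⟨N₂, h2⟩ := small_one hd hs hw hC h' hX hz' (ENNReal.half_pos hε.ne') ht
    refine ⟨fun l => _ ∪ _, ((h1 (n.2 + N₁ + N₂) (by omega)).and
      (h2 (n.2 + N₁ + N₂) (by omega))).mono fun l hl => (measure_union_le _ _).trans
        ((add_le_add hl.1 hl.2).trans (ENNReal.add_halves ε).le),
      fun ω hω => ⟨n.2 + N₁ + N₂, by omega, hω.mono fun l hl => ?_⟩⟩
    exact ⟨not_lt.1 fun hc => hl (Or.inl hc), not_lt.1 fun hc => hl (Or.inr hc)⟩
  refine (GenS.inter key).mono fun ω hω δ hδ N₀ => ?_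
  obtain ⟨n, hn⟩ := exists_nat_one_div_lt hδ
  obtain ⟨N, h1, h2⟩ := hω (n, N₀)
  refine ⟨N, h1, h2.mono fun l hl => ?_⟩
  have : 1 / ((n : ℝ) + 1) * (N : ℝ) ^ 2 * s l (ω l) ≤ δ * (N : ℝ) ^ 2 * s l (ω l) :=
    mul_le_mul_of_nonneg_right (mul_le_mul_of_nonneg_right hn.le (by positivity)) (hs.nonneg l _)
  exact ⟨hl.1.trans this, hl.2.trans this⟩

theorem SmallS.small [IsAlgClosed K₀] (hd : 2 ≤ d) (h : Rp A d e w P Ps) (h' : Rp A d e w P' Ps')
    {X : ℕ → V K₀} (hX : Sep X) {ω : ℕ → A.Ω} (hS : SmallS d e s Ps Ps' X ω)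
    {v : AbsoluteValue K₀ ℝ} {a T : ℝ} (hv : Place v a)
    (hc : Conv (fun l => A.v (ω l)) (fun l => s l (ω l)) e v) (hp : ∀ᶠ l in uf, 0 < s l (ω l))
    (hT : ∀ᶠ l in uf, w l (ω l) ≤ T * s l (ω l)) : Small v d P P' X := by
  intro δ hδ N₀
  obtain ⟨N, h1, h2⟩ := hS δ hδ N₀
  refine ⟨N, h1, le_of_tendsto (hc.en (fun l => A.place (ω l)) hv hp hd h.norm h.norms h.rep
      (hT.mono fun l hl => (h.le l _).trans hl) hX (fun j => rv_rep e (X j)) N) ?_,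
    le_of_tendsto (hc.en (fun l => A.place (ω l)) hv hp hd h'.norm h'.norms h'.rep
      (hT.mono fun l hl => (h'.le l _).trans hl) hX (fun j => rv_rep e (X j)) N) ?_⟩
  · filter_upwards [h2, hp] with l a b using (div_le_iff₀ b).2 a.1
  · filter_upwards [h2, hp] with l a b using (div_le_iff₀ b).2 a.2

omit [IsAlgClosed K] in
theorem gen_bdd [Countable K₀] (hs : Sc A.μ s)
    (hb : ∀ x, ∃ C : ℝ, ∀ᶠ l in uf, ht A (rep (e x) l) ≤ C * ∫ ω, s l ω ∂A.μ) :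
    GenS (nu A.μ s) fun ω => ∀ x, ∃ T : ℝ, ∀ᶠ l in uf,
      |Real.log (A.v (ω l) (rep (e x) l))| ≤ T * s l (ω l) := by
  refine GenS.inter fun x => ?_
  obtain ⟨C, hC⟩ := hb x
  refine hs.bdd (φ := fun l ω => |Real.log (A.v ω (rep (e x) l))|) (C := 2 * C)
    (Eventually.of_forall fun l => ⟨(A.meas_v _).log.abs, (A.int_v _).abs⟩)
    (fun _ _ => abs_nonneg _) (hC.mono fun l hl => ?_)
  rw [integral_abs_log]; linarith

omit [IsAlgClosed K] in
theorem Lt0.tendsto {φ : ℕ → A.Ω → ℝ} {ω : ℕ → A.Ω} (h : Lt0 s φ ω) (h0 : ∀ l ω, 0 ≤ φ l ω)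
    (hp : ∀ᶠ l in uf, 0 < s l (ω l)) : Tendsto (fun l => φ l (ω l) / s l (ω l)) uf (𝓝 0) := by
  refine tendsto_order.2 ⟨fun c hc => hp.mono fun l hl => hc.trans_le (div_nonneg (h0 _ _) hl.le),
    fun c hc => ?_⟩
  filter_upwards [h c hc, hp] with l a b using (div_lt_iff₀ b).2 a

omit [IsAlgClosed K] in
theorem lt0_of_tendsto {φ : ℕ → A.Ω → ℝ} {ω : ℕ → A.Ω} {y : ℝ} (hy : y ≤ 0)
    (h : Tendsto (fun l => φ l (ω l) / s l (ω l)) uf (𝓝 y)) (hp : ∀ᶠ l in uf, 0 < s l (ω l)) :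
    Lt0 s φ ω := fun c hc => by
  filter_upwards [(tendsto_order.1 h).2 c (hy.trans_lt hc), hp] with l a b
    using (div_lt_iff₀ b).1 a

/-- The limit place of a sequence of places. -/
def Good (e : K₀ →+* UP K) (w : ℕ → A.Ω → ℝ) (ω : ℕ → A.Ω) (v : AbsoluteValue K₀ ℝ) : Prop :=
  Conv (fun l => A.v (ω l)) (fun l => w l (ω l)) e v ∧ IsNonarchimedean v ∧
    ∀ᶠ l in uf, 0 < w l (ω l)

omit [IsAlgClosed K] in
theorem Good.unique {ω : ℕ → A.Ω} {v v' : AbsoluteValue K₀ ℝ} (h : Good e w ω v)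
    (h' : Good e w ω v') : v = v' := by
  ext x
  by_cases hx : x = 0
  · simp [hx]
  · exact Real.log_injOn_pos (v.pos hx) (v'.pos hx) (tendsto_nhds_unique (h.1 x hx) (h'.1 x hx))

omit [IsAlgClosed K] in
theorem Good.place {ω : ℕ → A.Ω} {v : AbsoluteValue K₀ ℝ} (h : Good e w ω v) : Place v 0 :=
  Or.inl ⟨rfl, h.2.1⟩

/-- Generic properties of limit places. -/
def Gen (e : K₀ →+* UP K) (w : ℕ → A.Ω → ℝ) (Q : AbsoluteValue K₀ ℝ → Prop) : Prop :=
  GenS (nu A.μ w) fun ω => ∃ v, Good e w ω v ∧ Q v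

omit [IsAlgClosed K] in
theorem Gen.of {Q Q' : AbsoluteValue K₀ ℝ → Prop} {R : (ℕ → A.Ω) → Prop} (h : Gen e w Q)
    (hR : GenS (nu A.μ w) R) (hQ : ∀ ω v, Good e w ω v → Q v → R ω → Q' v) : Gen e w Q' :=
  (GenS.and h hR).mono fun ω ⟨⟨v, a, b⟩, c⟩ => ⟨v, a, hQ ω v a b c⟩

/-- Points of height zero in the limit. -/
def Zero (d : ℕ) (e : K₀ →+* UP K) (w : ℕ → A.Ω → ℝ) (Ps : ℕ → PM K) (X : V K₀) : Prop :=
  X ≠ 0 ∧ Lo A.μ w fun l => hh A d (Ps l) (rv e X l)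

theorem Zero.app (hd : 2 ≤ d) (h : Rp A d e w P Ps) {X : V K₀} (hX : Zero d e w Ps X) :
    Zero d e w Ps (app P X) := by
  refine ⟨fun h0 => hX.1 (h.norm.nondeg (by omega) X h0), fun η hη => ?_⟩
  have hd' : (0 : ℝ) < d := by positivity
  have h1 := h.rep.app (fun l => (h.norms l).1) (rv_rep e X)
  rw [app_mapF] at h1
  filter_upwards [(rv_rep e _).congr h1, rv_ne e hX.1, hX.2 _ (div_pos hη hd')] with l a b c
  rw [a, hh_app A hd (h.norms l) b]
  calc _ ≤ d * (η / d * ∫ ω, w l ω ∂A.μ) := mul_le_mul_of_nonneg_left c hd'.le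
    _ = _ := by field_simp

theorem lyap [IsAlgClosed K₀] [CharZero K₀] [CharZero K] (hd : 2 ≤ d) (hw : Sc A.μ w)
    (h : Rp A d e w P Ps) (Cs : Fin (2 * d - 2) → V K₀) (hC : ∀ Z, jac P Z = ∏ j, wedge Z (Cs j))
    (hg : Gen e w fun v => ∑ j, esc v d P (Cs j) ≤ 0) (j : Fin (2 * d - 2)) :
    Zero d e w Ps (Cs j) := by
  have hne : ∀ j, Cs j ≠ 0 := fun j h0 => by
    obtain ⟨Z, hZ⟩ := exists_jac_ne (by omega) h.norm.1 (h.norm.nondeg (by omega))
    exact hZ ((hC Z).trans (Finset.prod_eq_zero (Finset.mem_univ j) (by simp [h0])))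
  have hne' : ∀ᶠ l in uf, ∀ j, rv e (Cs j) l ≠ 0 := eventually_all.2 fun j => rv_ne e (hne j)
  have ha : Adm A.μ fun l ω => ∑ j, esc (A.v ω) d (Ps l) (rv e (Cs j) l) :=
    hne'.mono fun l hl => ⟨Finset.measurable_sum _ fun j _ => measurable_esc A hd (h.norms l) (hl j),
      integrable_finset_sum _ fun j _ => integrable_esc A hd (h.norms l) (hl j)⟩
  have hd' : (0 : ℝ) < d := by positivity
  have h1 := hw.lo ha (C := 4 * d * cst d) (by have := cst_pos d; positivity)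
    ((h.rep.jac_factor (fun l => (h.norms l).1) (fun j => rv_rep e (Cs j))
      (jac_factor_mapF e Cs hC)).mono fun l hl ω =>
        sum_esc_crit_le (A.place ω) hd (h.norms l) (h.le l ω) _ hl)
    (GenS.mono hg fun ω ⟨v, a, b⟩ => lt0_of_tendsto b (by
      simp only [Finset.sum_div]
      exact tendsto_finset_sum _ fun j _ => a.1.esc (T := 1) (fun l => A.place (ω l)) a.place a.2.2
        hd h.norm h.norms h.rep (Eventually.of_forall fun l => by simpa using h.le l _) (hne j)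
        (rv_rep e _)) a.2.2)
  refine ⟨hne j, fun η hη => ?_⟩
  filter_upwards [h1 η hη, hne', ha, ha.pos] with l a b c c'
  refine le_trans ?_ (le_trans (integral_mono c.2 c'.2 fun ω => le_max_left _ _) a)
  rw [integral_finset_sum _ fun j _ => integrable_esc A hd (h.norms l) (b j)]
  exact Finset.single_le_sum (f := fun j => hh A d (Ps l) (rv e (Cs j) l))
    (fun j _ => hh_nonneg A hd (h.norms l) (b j)) (Finset.mem_univ j)

theorem green [IsAlgClosed K₀] (hd : 2 ≤ d) (hw : Sc A.μ w) (h : Rp A d e w P Ps) {X Y : V K₀}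
    (hXY : wedge X Y ≠ 0) (hX : Zero d e w Ps X) (hY : Zero d e w Ps Y)
    (hg : Gen e w fun v => 0 ≤ grn v d P X Y) : Gen e w fun v => grn v d P X Y ≤ 0 := by
  have hne := rv_wedge e hXY
  have ha : Adm A.μ fun l ω => grn (A.v ω) d (Ps l) (rv e X l) (rv e Y l) :=
    hne.mono fun l hl => ⟨measurable_grn A hd (h.norms l) hl, integrable_grn A hd (h.norms l) hl⟩
  have ha' : Adm A.μ fun l ω => - grn (A.v ω) d (Ps l) (rv e X l) (rv e Y l) :=
    Eventually.mono ha fun l hl => ⟨hl.1.neg, hl.2.neg⟩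
  have hc : ∀ ω v, Good e w ω v → Tendsto (fun l =>
      grn (A.v (ω l)) d (Ps l) (rv e X l) (rv e Y l) / w l (ω l)) uf (𝓝 (grn v d P X Y)) :=
    fun ω v a => a.1.grn (T := 1) (fun l => A.place (ω l)) a.place a.2.2
      hd h.norm h.norms h.rep (Eventually.of_forall fun l => by simpa using h.le l _) hXY
      (rv_rep e _) (rv_rep e _)
  have h1 := hw.lo ha' (C := 3 * cst d) (by have := cst_pos d; positivity)
    (hne.mono fun l hl ω => neg_le.1 (grn_ge (A.place ω) hd (h.norms l) (h.le l ω) hl))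
    (GenS.mono hg fun ω ⟨v, a, b⟩ => lt0_of_tendsto (neg_nonpos.2 b)
      (by simpa only [neg_div] using (hc ω v a).neg) a.2.2)
  have h2 := hw.lt0 ha.pos (fun _ _ => le_max_right _ _) fun η hη => by
    have h3 : 0 < η / 3 := by positivity
    filter_upwards [h1 _ h3, hX.2 _ h3, hY.2 _ h3, hne, ha, ha'.pos] with l a b c x y z
    have : (fun ω => max (grn (A.v ω) d (Ps l) (rv e X l) (rv e Y l)) 0) = fun ω =>
        grn (A.v ω) d (Ps l) (rv e X l) (rv e Y l) +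
          max (- grn (A.v ω) d (Ps l) (rv e X l) (rv e Y l)) 0 := by
      funext ω; rw [← max_add_add_left]; simp [max_comm]
    rw [this, integral_add y.2 z.2, integral_grn A hd (h.norms l) x]
    linarith
  refine hg.of h2 fun ω v a _ b => le_of_forall_pos_le_add fun c hc0 => ?_
  rw [zero_add]
  refine le_of_tendsto (hc ω v a) ?_
  filter_upwards [b c hc0, a.2.2] with l x y
    using (div_le_iff₀ y).2 ((le_max_left _ _).trans x.le)

end Pool.Agent.MP_3827f0_nt.H92.GlobAux
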