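import Pool.Agent.MP_3827f0_nt.H92.Pot
import Pool.Agent.MP_3827f0_nt.H92.GHt
import Pool.Agent.MP_3827f0_nt.H92.GlobB

/-! From a sequence of pairs over a field with a product formula to limit places. -/

set_option autoImplicit false

namespace Pool.Agent.MP_3827f0_nt.H92

open Filter MeasureTheory Topology

namespace GlobAux

variable {K K₀ : Type} [Field K] [Field K₀] {A : Adelic K} {d : ℕ} {w : ℕ → A.Ω → ℝ}
  {e : K₀ →+* UP K} {F G : PM K₀} {Fs Gs : ℕ → PM K}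

theorem int_a_pos (A : Adelic K) : 0 < ∫ ω, A.a ω ∂A.μ := by rw [A.sum_a]; exact one_pos

theorem case_one [IsAlgClosed K] [IsAlgClosed K₀] [Countable K₀] (hd : 2 ≤ d) (hw : Sc A.μ w)
    (hF : Rp A d e w F Fs) (hG : Rp A d e w G Gs) {T : ℝ}
    (hT : ∀ᶠ l in uf, ∫ ω, w l ω ∂A.μ ≤ T)
    (hb : ∀ x, ∃ C : ℝ, ∀ᶠ l in uf, ht A (rep (e x) l) ≤ C * ∫ ω, w l ω ∂A.μ) {X : ℕ → V K₀}
    (hX : Sep X) (hz : ∀ j, ∀ᶠ l in uf, hh A d (Fs l) (rv e (X j) l) = 0 ∧
      hh A d (Gs l) (rv e (X j) l) = 0) :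
    ∃ ι : K₀ →+* ℂ, Small (nv ℂ) d (mapF ι F) (mapF ι G) fun j => mapV ι (X j) := by
  have hs : Sc A.μ fun _ => A.a :=
    ⟨fun _ => A.meas_a, fun _ => A.int_a, fun _ ω => (A.place ω).nonneg, fun _ => int_a_pos A⟩
  have hT' : ∀ᶠ l in uf, ∫ ω, w l ω ∂A.μ ≤ T * ∫ ω, A.a ω ∂A.μ := by
    simpa only [A.sum_a, mul_one] using hT
  have g1 := gen_small hd hs hw hT' hF hG hX
    (fun j η hη => (hz j).mono fun l hl => hl.1.trans_le (mul_pos hη (int_a_pos A)).le)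
    (fun j η hη => (hz j).mono fun l hl => hl.2.trans_le (mul_pos hη (int_a_pos A)).le)
  have g2 := gen_bdd (e := e) hs fun x => by
    obtain ⟨C, hC⟩ := hb x
    refine ⟨|C| * T, ?_⟩
    filter_upwards [hC, hT] with l a b
    rw [A.sum_a, mul_one]
    exact a.trans ((mul_le_mul_of_nonneg_right (le_abs_self C) (hw.pos l).le).trans
      (mul_le_mul_of_nonneg_left b (abs_nonneg C)))
  have g3 := hs.bdd (Eventually.of_forall fun l => ⟨hw.meas l, hw.int l⟩) hw.nonneg hT'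
  obtain ⟨ω, ⟨a1, a2⟩, ⟨T', a3⟩, a4⟩ := hs.ex ((g1.and g2).and (g3.and hs.gen_pos))
  have h1 : ∀ᶠ l in uf, A.a (ω l) = 1 := a4.mono fun l hl =>
    (A.place (ω l)).elim (fun h => absurd h.1 hl.ne') fun h => h.1
  obtain ⟨ι, v, hv, hc⟩ := exists_conv_complex (vs := fun l => A.v (ω l)) (e := e)
    (h1.mono fun l hl => hl ▸ A.place (ω l)) fun x _ => by
      obtain ⟨C, hC⟩ := a2 x
      refine ⟨C, ?_⟩
      filter_upwards [hC, h1] with l a b
      rwa [b, mul_one] at a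
  refine ⟨ι, (a1.small hd hF hG hX (a := 1) (Or.inr ⟨rfl, ι, hv⟩) (fun x hx => (hc x hx).congr' ?_)
    a4 a3).mapF ι fun x => by rw [nv_apply, hv]⟩
  filter_upwards [h1] with l hl
  rw [hl]

theorem case_two [IsAlgClosed K] [CharZero K] [IsAlgClosed K₀] [CharZero K₀] [Countable K₀]
    (hd : 2 ≤ d) (hw : Sc A.μ w) (hF : Rp A d e w F Fs) (hG : Rp A d e w G Gs)
    (hwd : ∀ l ω, w l ω = wt (A.v ω) d (Fs l) + wt (A.v ω) d (Gs l) + A.a ω)
    (hT : ∀ T : ℝ, ∀ᶠ l in uf, T ≤ ∫ ω, w l ω ∂A.μ)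
    (hb : ∀ x, ∃ C : ℝ, ∀ᶠ l in uf, ht A (rep (e x) l) ≤ C * ∫ ω, w l ω ∂A.μ) {X : ℕ → V K₀}
    (hX : ∀ j, X j ≠ 0) (hz : ∀ j, ∀ᶠ l in uf, hh A d (Fs l) (rv e (X j) l) = 0 ∧
      hh A d (Gs l) (rv e (X j) l) = 0) :
    ∃ 𝒢 : GV d F G, ∀ j, 𝒢.Zero F (X j) ∧ 𝒢.Zero G (X j) := by
  classical
  have lo : ∀ c : ℝ, Lo A.μ w fun _ => c := fun c η hη => (hT (c / η)).mono fun l hl => by
    rwa [div_le_iff₀' hη] at hl
  have ga := hw.lt0 (φ := fun _ => A.a) (Eventually.of_forall fun _ => ⟨A.meas_a, A.int_a⟩)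
    (fun _ ω => (A.place ω).nonneg) (lo _)
  have gn : GenS (nu A.μ w) fun ω => ∀ n : ℕ, Lt0 w (fun _ ω => |Real.log (A.v ω n)|) ω :=
    GenS.inter fun n => hw.lt0
      (Eventually.of_forall fun _ => ⟨(A.meas_v _).log.abs, (A.int_v _).abs⟩)
      (fun _ _ => abs_nonneg _) (lo _)
  have base : Gen e w fun _ => True :=
    ((ga.and hw.gen_pos).and (gen_bdd hw hb)).mono fun ω ⟨⟨a, b⟩, c⟩ => by
      obtain ⟨v, h1, h2⟩ := exists_conv_ultra (vs := fun l => A.v (ω l)) (e := e)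
        (fun l => A.place (ω l)) b (a.tendsto (fun _ ω => (A.place ω).nonneg) b) fun x _ => c x
      exact ⟨v, ⟨h2, h1, b⟩, trivial⟩
  obtain ⟨sq, hsq, hsq'⟩ : ∃ sq : PM K₀ → ℕ → PM K, (∀ H, (H = F ∨ H = G) → Rp A d e w H (sq H)) ∧
      ∀ H, sq H = Fs ∨ sq H = Gs := by
    refine ⟨fun H => if H = F then Fs else Gs, fun H hH => ?_, fun H => ?_⟩
    · by_cases h : H = F
      · simpa only [h, if_true] using hF
      · simp only [if_neg h]
        exact (hH.resolve_left h).symm ▸ hG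
    · by_cases h : H = F <;> simp [h]
  have one : ∀ᶠ l in uf, ∫ ω, w l ω ∂A.μ ≤ 1 * ∫ ω, w l ω ∂A.μ :=
    Eventually.of_forall fun l => (one_mul _).ge
  refine ⟨{
    Gen := Gen e w
    Zero := fun H => Zero d e w (sq H)
    mono := fun P Q h hP => GenS.mono hP fun ω ⟨v, a, b⟩ => ⟨v, a, h v b⟩
    inter := fun P hP => base.of (GenS.inter hP) fun ω v a _ b n => by
      obtain ⟨v', a', b'⟩ := b n
      rwa [a.unique a']
    ex := fun P hP => by
      obtain ⟨ω, v, -, h⟩ := hw.ex hP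
      exact ⟨v, h⟩
    basic := base.of (ga.and gn) fun ω v a _ b => ⟨a.2.1, fun n hn => ?_, ?_⟩
    zero_app := fun H hH X _ h => h.app hd (hsq H hH)
    small := fun H H' hH hH' X hX h => base.of (gen_small hd hw hw one (hsq H hH) (hsq H' hH') hX
        (fun j => (h j).1.2) fun j => (h j).2.2) fun ω v a _ b =>
      b.small hd (hsq H hH) (hsq H' hH') hX a.place a.1 a.2.2 (T := 1)
        (Eventually.of_forall fun l => (one_mul _).ge)
    lyap := fun H hH => lyap hd hw (hsq H hH)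
    green := fun H hH X Y => green hd hw (hsq H hH) }, fun j => ?_⟩
  · have h1 := ((b.2 n).tendsto (fun _ _ => abs_nonneg _) a.2.2)
    have h2 := (a.1.nat hn).abs
    have h3 : |Real.log (v n)| = 0 := tendsto_nhds_unique (h2.congr' (a.2.2.mono fun l hl => by
      simp only [abs_div, abs_of_pos hl])) h1
    exact Real.eq_one_of_pos_of_log_eq_zero (v.pos (Nat.cast_ne_zero.2 hn)) (abs_eq_zero.1 h3)
  · have h1 := ((a.1.wt (d := d) a.2.2 hF.rep).add (a.1.wt (d := d) a.2.2 hG.rep)).add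
      (b.1.tendsto (fun _ ω => (A.place ω).nonneg) a.2.2)
    rw [add_zero] at h1
    refine tendsto_nhds_unique h1 (tendsto_const_nhds.congr' (a.2.2.mono fun l hl => ?_))
    simp only [← add_div, ← hwd, div_self hl.ne']
  · have : ∀ H, Zero d e w (sq H) (X j) := fun H => ⟨hX j, fun η hη => (hz j).mono fun l hl => by
      have := (mul_pos hη (hw.pos l)).le
      rcases hsq' H with h | h <;> simp only [h, hl.1, hl.2, this]⟩
    exact ⟨this F, this G⟩

theorem exists_pull (P : PM (UP K)) (hP : Hom d P)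
    (h : ∀ i m, MvPolynomial.coeff m (P i) ∈ Set.range e) : ∃ F : PM K₀, mapF e F = P ∧ Hom d F := by
  have : ∀ i, P i ∈ Set.range (MvPolynomial.map e) := fun i =>
    MvPolynomial.mem_range_map_iff_coeffs_subset.2 fun x hx => by
      obtain ⟨m, -, rfl⟩ := MvPolynomial.mem_coeffs_iff.1 hx
      exact h i m
  choose F hF using this
  exact ⟨F, funext hF, fun i => MvPolynomial.IsHomogeneous.of_map e.injective (hF i ▸ hP i)⟩

theorem ht_one (A : Adelic K) : ht A 1 = 0 := by simp [ht]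

theorem ht_zero (A : Adelic K) : ht A 0 = 0 := by simp [ht]

end GlobAux

open GlobAux

theorem exists_limit {K : Type} [Field K] [IsAlgClosed K] [CharZero K] (A : Adelic K) {d : ℕ}
    (hd : 2 ≤ d) (Fs Gs : ℕ → PM K) (hF : ∀ l, Normal d (Fs l)) (hG : ∀ l, Normal d (Gs l))
    (Xs : ℕ → ℕ → V K) (h0 : ∀ l, Xs 0 l = ![1, 0]) (h1 : ∀ l, Xs 1 l = ![0, 1])
    (h2 : ∀ l, Xs 2 l = ![1, 1]) (haff : ∀ j l, 1 ≤ j → Xs j l 1 = 1)
    (hsep : ∀ j k, j ≠ k → ∀ᶠ l in uf, wedge (Xs j l) (Xs k l) ≠ 0)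
    (hp : ∀ j, ∀ᶠ l in uf, Preper (Fs l) (Xs j l) ∧ Preper (Gs l) (Xs j l)) :
    ∃ (K₀ : Type) (_ : Field K₀) (_ : IsAlgClosed K₀) (_ : CharZero K₀) (_ : Countable K₀)
      (e : K₀ →+* UP K) (F G : PM K₀) (X : ℕ → V K₀),
      RepF (mapF e F) Fs ∧ RepF (mapF e G) Gs ∧ Normal d F ∧ Normal d G ∧ Sep X ∧
      X 0 = ![1, 0] ∧ X 1 = ![0, 1] ∧ X 2 = ![1, 1] ∧
      ((∃ ι : K₀ →+* ℂ, Small (nv ℂ) d (mapF ι F) (mapF ι G) fun j => mapV ι (X j)) ∨
        ∃ 𝒢 : GV d F G, ∀ j, 𝒢.Zero F (X j) ∧ 𝒢.Zero G (X j)) := by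
  obtain ⟨w, hwd⟩ : ∃ w : ℕ → A.Ω → ℝ, ∀ l ω,
    w l ω = wt (A.v ω) d (Fs l) + wt (A.v ω) d (Gs l) + A.a ω := ⟨_, fun _ _ => rfl⟩
  have hwf : ∀ l, w l = fun ω => wt (A.v ω) d (Fs l) + wt (A.v ω) d (Gs l) + A.a ω :=
    fun l => funext (hwd l)
  have wi : ∀ l, Integrable (w l) A.μ := fun l =>
    hwf l ▸ ((integrable_wt A d _).add (integrable_wt A d _)).add A.int_a
  have wF : ∀ l ω, wt (A.v ω) d (Fs l) + A.a ω ≤ w l ω := fun l ω => by
    rw [hwd]; linarith [wt_nonneg (A.v ω) d (Gs l)]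
  have wG : ∀ l ω, wt (A.v ω) d (Gs l) + A.a ω ≤ w l ω := fun l ω => by
    rw [hwd]; linarith [wt_nonneg (A.v ω) d (Fs l)]
  have hH : ∀ l, 1 ≤ ∫ ω, w l ω ∂A.μ := fun l => A.sum_a.ge.trans
    (integral_mono A.int_a (wi l) fun ω => by linarith [wF l ω, wt_nonneg (A.v ω) d (Fs l)])
  have hw : Sc A.μ w := ⟨fun l => hwf l ▸ ((measurable_wt A d _).add (measurable_wt A d _)).add
    A.meas_a, wi, fun l ω => by
      linarith [wF l ω, wt_nonneg (A.v ω) d (Fs l), (A.place ω).nonneg],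
    fun l => one_pos.trans_le (hH l)⟩
  obtain ⟨F', rF, hF'⟩ := exists_of_seqF Fs fun l => (hF l).1
  obtain ⟨G', rG, hG'⟩ := exists_of_seqF Gs fun l => (hG l).1
  choose X' rX using fun j => exists_of_seqV (Xs j)
  have hne : ∀ j l, Xs j l ≠ 0 := fun j l h => by
    rcases Nat.eq_zero_or_pos j with rfl | hj
    · simpa [h0] using congrFun h 0
    · simpa [haff j l hj] using congrFun h 1
  have hco : ∀ (P : PM (UP K)) (Ps : ℕ → PM K), RepF P Ps → (∀ l, Normal d (Ps l)) →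
      (∀ l ω, wt (A.v ω) d (Ps l) + A.a ω ≤ w l ω) → ∀ i m, ∀ᶠ l in uf,
      ht A (rep (MvPolynomial.coeff m (P i)) l) ≤ 1 * ∫ ω, w l ω ∂A.μ := by
    intro P Ps r n le i m
    filter_upwards [rep_eventually (r i m)] with l hl
    rw [hl, one_mul]
    exact (ht_coeff_le A (n l).1 i m).trans (integral_mono (integrable_wt A d _) (wi l)
      fun ω => by linarith [le l ω, (A.place ω).nonneg])
  obtain ⟨K₀, _, _, _, _, e, hS, hb⟩ := exists_field A (fun l => ∫ ω, w l ω ∂A.μ) hH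
    (Set.range (fun p : Fin 2 × (Fin 2 →₀ ℕ) => MvPolynomial.coeff p.2 (F' p.1)) ∪
      Set.range (fun p : Fin 2 × (Fin 2 →₀ ℕ) => MvPolynomial.coeff p.2 (G' p.1)) ∪
      Set.range fun p : ℕ × Fin 2 => X' p.1 p.2)
    (((Set.countable_range _).union (Set.countable_range _)).union (Set.countable_range _)) (by
      rintro _ ((⟨p, rfl⟩ | ⟨p, rfl⟩) | ⟨⟨j, i⟩, rfl⟩)
      · exact ⟨1, hco _ _ rF hF wF _ _⟩
      · exact ⟨1, hco _ _ rG hG wG _ _⟩
      · refine ⟨cst d, ?_⟩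
        filter_upwards [rep_eventually (rX j i), hp j] with l a b
        have h3 := mul_pos (cst_pos d) (hw.pos l)
        rw [a]
        rcases Nat.eq_zero_or_pos j with rfl | hj
        · fin_cases i <;> simp [h0, ht_one, ht_zero, h3.le]
        · fin_cases i
          · have := ht_le_hh A hd (hF l) (haff j l hj)
            rw [hh_preper A hd (hF l) (hne j l) b.1, zero_add] at this
            exact this.trans (mul_le_mul_of_nonneg_left (integral_mono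
              ((integrable_wt A d _).add A.int_a) (wi l) (wF l)) (cst_pos d).le)
          · simp [haff j l hj, ht_one, h3.le])
  obtain ⟨F, rfl, hF0⟩ := exists_pull (e := e) F' hF' fun i m =>
    hS (Or.inl (Or.inl ⟨(i, m), rfl⟩))
  obtain ⟨G, rfl, hG0⟩ := exists_pull (e := e) G' hG' fun i m =>
    hS (Or.inl (Or.inr ⟨(i, m), rfl⟩))
  choose X hX using fun j i => hS (Or.inr ⟨(j, i), rfl⟩)
  obtain rfl : X' = fun j => mapV e (X j) := funext fun j => funext fun i => (hX j i).symm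
  haveI := isAlgClosed_up K
  have nF : Normal d F := Normal.of_mapF (by omega) hF0 e
    ((rF.normal_iff (by omega) fun l => (hF l).1).2 (Eventually.of_forall hF))
  have nG : Normal d G := Normal.of_mapF (by omega) hG0 e
    ((rG.normal_iff (by omega) fun l => (hG l).1).2 (Eventually.of_forall hG))
  have sX : Sep X := fun j k hjk h => by
    have h3 := (rX j).wedge (rX k)
    rw [wedge_mapV, h, map_zero] at h3
    obtain ⟨l, a, b⟩ := ((hsep j k hjk).and (Germ.coe_eq.1 h3)).exists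
    exact a b.symm
  have cX : ∀ j (x y : ℕ), (∀ l, Xs j l = ![(x : K), (y : K)]) → X j = ![(x : K₀), (y : K₀)] := by
    intro j x y h
    funext i
    apply e.injective
    have := rX j i
    simp only [mapV, h] at this
    rw [this]
    fin_cases i
    · simp only [Fin.zero_eta, Matrix.cons_val_zero, map_natCast]; rfl
    · simp only [Fin.mk_one, Matrix.cons_val_one, Matrix.cons_val_zero, map_natCast]; rfl
  have hz : ∀ j, ∀ᶠ l in uf, hh A d (Fs l) (rv e (X j) l) = 0 ∧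
      hh A d (Gs l) (rv e (X j) l) = 0 := fun j => by
    filter_upwards [(rv_rep e (X j)).congr (rX j), hp j] with l a b
    rw [a]
    exact ⟨hh_preper A hd (hF l) (hne j l) b.1, hh_preper A hd (hG l) (hne j l) b.2⟩
  refine ⟨K₀, _, ‹_›, ‹_›, ‹_›, e, F, G, X, rF, rG, nF, nG, sX,
    by simpa using cX 0 1 0 (by simpa using h0), by simpa using cX 1 0 1 (by simpa using h1),
    by simpa using cX 2 1 1 (by simpa using h2), ?_⟩
  by_cases hT : ∃ T : ℝ, ∀ᶠ l in uf, ∫ ω, w l ω ∂A.μ ≤ T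
  · obtain ⟨T, hT⟩ := hT
    exact Or.inl (case_one hd hw ⟨rF, nF, hF, wF⟩ ⟨rG, nG, hG, wG⟩ hT hb sX hz)
  · refine Or.inr (case_two hd hw ⟨rF, nF, hF, wF⟩ ⟨rG, nG, hG, wG⟩ hwd (fun T => ?_) hb
      (fun j h => sX j (j + 1) (by omega) (by simp [h])) hz)
    exact (Ultrafilter.eventually_not.2 fun h => hT ⟨T, h⟩).mono fun l hl => (not_le.1 hl).le

end Pool.Agent.MP_3827f0_nt.H92
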