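import Pool.Agent.MP_3827f0_nt.H92.CJul

/-! Each algebraic condition forces equal Julia sets. -/

set_option autoImplicit false

namespace Pool.Agent.MP_3827f0_nt.H92

open Metric Filter Topology

variable {d : ℕ} {F F' : PM ℂ} {G G' : V ℂ → ℝ}

namespace ThmBAux

lemma ne_left {X Y : V ℂ} (h : wedge X Y ≠ 0) : X ≠ 0 := by
  rintro rfl; exact h (wedge_zero_left Y)

lemma ne_right {X Y : V ℂ} (h : wedge X Y ≠ 0) : Y ≠ 0 := by
  rintro rfl; exact h (wedge_zero_right X)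

lemma wsymm {X Y : V ℂ} (h : wedge X Y = 0) : wedge Y X = 0 := by
  rw [wedge_comm, h, neg_zero]

lemma exists_pos_le {α : Type} (s : Finset α) (f : α → ℝ) (h : ∀ x ∈ s, 0 < f x) :
    ∃ ε : ℝ, 0 < ε ∧ ∀ x ∈ s, ε ≤ f x := by
  have : ∀ᶠ ε in 𝓝[>] (0 : ℝ), ∀ x ∈ s, ε ≤ f x :=
    (eventually_all_finset s).2 fun x hx =>
      mem_nhdsWithin_of_mem_nhds (Iic_mem_nhds (h x hx))
  exact (this.and self_mem_nhdsWithin).exists.imp fun _ h => ⟨h.2, h.1⟩

/-! ### The relation -/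

lemma rel_iter (h : Dyn d F G) (h' : Dyn d F' G') {n m k : ℕ} (hr : Rel F F' n m k) (j : ℕ)
    {Z : V ℂ} (hZ : Z ≠ 0) : RelAt F F' n m (j * k) Z := by
  induction j with
  | zero => exact ⟨Z, hZ, by simp, by simp⟩
  | succ j ih =>
    obtain ⟨W, hW, e, e'⟩ := ih
    obtain ⟨W', hW', f, f'⟩ := hr.2 W hW
    have key : ∀ {H : PM ℂ} {a : ℕ}, Hom d H → Nondeg H →
        wedge ((app H)^[a + j * k] Z) ((app H)^[a] W) = 0 →
        wedge ((app H)^[a + k] W) ((app H)^[a] W') = 0 →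
        wedge ((app H)^[a + (j + 1) * k] Z) ((app H)^[a] W') = 0 := by
      intro H a h1 h2 e f
      have := h1.wedge_iter k e (h2.iter_ne _ hZ) (h2.iter_ne _ hW)
      rw [← Function.iterate_add_apply, ← Function.iterate_add_apply,
        show k + (a + j * k) = a + (j + 1) * k by ring, add_comm k a] at this
      exact wedge_trans (h2.iter_ne _ hW) this f
    exact ⟨W', hW', key h.hom h.nondeg e f, key h'.hom h'.nondeg e' f'⟩

lemma exists_four (R : V ℂ → V ℂ → Prop) (hs : ∀ X Y, R X Y → R Y X)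
    (hf : ∀ Y, Y ≠ 0 → ∃ S : Finset (V ℂ), (∀ s ∈ S, s ≠ 0) ∧
      ∀ X, X ≠ 0 → R X Y → ∃ s ∈ S, wedge X s = 0) (N : ℕ) :
    ∃ A : Fin N → V ℂ, (∀ i, A i ≠ 0) ∧ ∀ i j, i ≠ j → wedge (A i) (A j) ≠ 0 ∧ ¬ R (A i) (A j) := by
  classical
  induction N with
  | zero => exact ⟨fun i => i.elim0, fun i => i.elim0, fun i => i.elim0⟩
  | succ N ih =>
    obtain ⟨A, hA, hR⟩ := ih
    choose S hS hS' using fun i => hf (A i) (hA i)
    obtain ⟨z, hz⟩ := exists_aff_off (Finset.univ.biUnion fun i => insert (A i) (S i)) (by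
      intro s hs
      obtain ⟨i, -, hi⟩ := Finset.mem_biUnion.1 hs
      rcases Finset.mem_insert.1 hi with rfl | hi
      exacts [hA i, hS i s hi])
    have h1 : ∀ i, wedge ![z, 1] (A i) ≠ 0 ∧ ¬ R ![z, 1] (A i) := fun i =>
      ⟨hz _ (Finset.mem_biUnion.2 ⟨i, Finset.mem_univ _, Finset.mem_insert_self _ _⟩), fun hc => by
        obtain ⟨s, hs, e⟩ := hS' i _ (aff_ne_zero z) hc
        exact hz _ (Finset.mem_biUnion.2 ⟨i, Finset.mem_univ _, Finset.mem_insert_of_mem hs⟩) e⟩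
    refine ⟨Fin.cons ![z, 1] A, fun i => ?_, fun i j hij => ?_⟩
    · induction i using Fin.cases with
      | zero => exact aff_ne_zero z
      | succ i => exact hA i
    · induction i using Fin.cases with
      | zero =>
        induction j using Fin.cases with
        | zero => exact absurd rfl hij
        | succ j => exact h1 j
      | succ i =>
        induction j using Fin.cases with
        | zero => exact ⟨fun hc => (h1 i).1 (wsymm hc), fun hc => (h1 i).2 (hs _ _ hc)⟩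
        | succ j => exact hR i j fun e => hij (congrArg _ e)

lemma fat_of_rel (h : Dyn d F G) (h' : Dyn d F' G') {n m k : ℕ} (hr : Rel F F' n m k)
    {Z : V ℂ} (hZ : Z ≠ 0) (hf : Fat G Z) : Fat G' Z := by
  classical
  have hd : 0 < d := by have := h.two; omega
  obtain ⟨A, hA, hR⟩ := exists_four (fun X Y => ∃ W W' : V ℂ, W ≠ 0 ∧ W' ≠ 0 ∧
      wedge ((app F')^[m] W) X = 0 ∧ wedge ((app F')^[m] W') Y = 0 ∧
      wedge ((app F)^[n] W) ((app F)^[n] W') = 0)
    (fun X Y ⟨W, W', a, b, c, e, f⟩ => ⟨W', W, b, a, e, c, wsymm f⟩) (fun Y hY => by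
      obtain ⟨T, -, hT, hT'⟩ := exists_preimages hd h'.hom h'.nondeg m {Y} (by simpa using hY)
      obtain ⟨U, -, hU, hU'⟩ := exists_preimages hd h.hom h.nondeg n (T.image (app F)^[n]) (by
        intro s hs
        obtain ⟨t, ht, rfl⟩ := Finset.mem_image.1 hs
        exact h.nondeg.iter_ne n (hT t ht))
      refine ⟨U.image (app F')^[m], fun s hs => ?_, fun X hX ⟨W, W', a, b, c, e, f⟩ => ?_⟩
      · obtain ⟨t, ht, rfl⟩ := Finset.mem_image.1 hs
        exact h'.nondeg.iter_ne m (hU t ht)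
      · obtain ⟨t, ht, e1⟩ := hT' W' ⟨Y, Finset.mem_singleton_self _, e⟩
        obtain ⟨u, hu, e2⟩ := hU' W ⟨_, Finset.mem_image_of_mem _ ht, wedge_trans
          (h.nondeg.iter_ne n b) f (h.hom.wedge_iter n e1 b (hT t ht))⟩
        exact ⟨_, Finset.mem_image_of_mem _ hu, wedge_trans (h'.nondeg.iter_ne m a) (wsymm c)
          (h'.hom.wedge_iter m e2 a (hU u hu))⟩) 4
  obtain ⟨T, -, hT, hT'⟩ := exists_preimages hd h'.hom h'.nondeg m (Finset.univ.image A) (by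
    intro s hs
    obtain ⟨i, -, rfl⟩ := Finset.mem_image.1 hs
    exact hA i)
  obtain ⟨ε, hε, hε'⟩ := exists_pos_le ((T ×ˢ T).filter fun p =>
      wedge ((app F)^[n] p.1) ((app F)^[n] p.2) ≠ 0)
    (fun p => dlt ((app F)^[n] p.1) ((app F)^[n] p.2)) (fun p hp => by
      have h1 := (Finset.mem_filter.1 hp).2
      exact lt_of_le_of_ne (dlt_nonneg _ _) fun e =>
        h1 ((dlt_eq_zero_iff (ne_left h1) (ne_right h1)).1 e.symm))
  obtain ⟨δ, hδ, hδ'⟩ := h.equicont hZ hf (half_pos hε)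
  refine h'.fat_of_four hZ A (fun i j hij => (hR i j hij).1) hδ ?_
  refine frequently_atTop.2 fun N => ⟨m + N * k, ?_, fun W W' a b c e i j e1 e2 => ?_⟩
  · have := Nat.le_mul_of_pos_right N hr.1
    omega
  by_contra hij
  have key : ∀ {W : V ℂ} {i : Fin 4}, W ≠ 0 → wedge ((app F')^[m + N * k] W) (A i) = 0 →
      ∃ t ∈ T, wedge ((app F')^[m] t) (A i) = 0 ∧
        wedge ((app F)^[n] t) ((app F)^[n + N * k] W) = 0 := by
    intro W i a e1
    obtain ⟨U, hU, f, f'⟩ := rel_iter h h' hr N a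
    have f1 := wedge_trans (h'.nondeg.iter_ne _ a) (wsymm f') e1
    obtain ⟨t, ht, e2⟩ := hT' U ⟨_, Finset.mem_image_of_mem _ (Finset.mem_univ i), f1⟩
    exact ⟨t, ht, wedge_trans (h'.nondeg.iter_ne _ hU)
      (h'.hom.wedge_iter m (wsymm e2) (hT t ht) hU) f1,
      wedge_trans (h.nondeg.iter_ne _ hU) (h.hom.wedge_iter n (wsymm e2) (hT t ht) hU) (wsymm f)⟩
  obtain ⟨t, ht, f1, f2⟩ := key a e1
  obtain ⟨t', ht', f1', f2'⟩ := key b e2
  have h1 : wedge ((app F)^[n] t) ((app F)^[n] t') ≠ 0 := fun hc =>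
    (hR i j hij).2 ⟨t, t', hT t ht, hT t' ht', f1, f1', hc⟩
  have h2 := hε' (t, t') (Finset.mem_filter.2 ⟨Finset.mem_product.2 ⟨ht, ht'⟩, h1⟩)
  dsimp only at h2
  rw [dlt_congr (ne_left h1) (h.nondeg.iter_ne _ a) f2, dlt_comm,
    dlt_congr (ne_right h1) (h.nondeg.iter_ne _ b) f2'] at h2
  have h3 := dlt_triangle (X := (app F)^[n + N * k] W') (Y := (app F)^[n + N * k] W)
    (h.nondeg.iter_ne (n + N * k) hZ)
  have h4 := hδ' W a c (n + N * k)
  have h5 := hδ' W' b e (n + N * k)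
  rw [dlt_comm] at h4
  linarith

/-! ### Power maps -/

lemma pure_pow {n : ℕ} {φ : V ℂ → ℂ} (h : IsForm n φ) (h0 : ∃ Z, φ Z ≠ 0) {A : V ℂ} (hA : A ≠ 0)
    (hr : ∀ Z, Z ≠ 0 → φ Z = 0 → wedge Z A = 0) :
    ∃ a : ℂ, a ≠ 0 ∧ ∀ Z, φ Z = a * wedge Z A ^ n := by
  obtain ⟨c, B, hc, hB, e⟩ := h.factor' h0
  have h1 : ∀ i, ∃ t : ℂ, t ≠ 0 ∧ B i = t • A := fun i =>
    exists_smul_of_wedge (hB i) hA (hr _ (hB i) (by
      rw [e, Finset.prod_eq_zero (Finset.mem_univ i) (wedge_self _), mul_zero]))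
  choose t ht ht' using h1
  refine ⟨c * ∏ i, t i, mul_ne_zero hc (Finset.prod_ne_zero_iff.2 fun i _ => ht i), fun Z => ?_⟩
  simp only [e, ht', wedge_smul_right, Finset.prod_mul_distrib, Finset.prod_const,
    Finset.card_univ, Fintype.card_fin, mul_assoc]

lemma exists_ne_two {n m : ℕ} {φ ψ : V ℂ → ℂ} (h : IsForm n φ) (h' : IsForm m ψ)
    (h0 : ∃ Z, φ Z ≠ 0) (h1 : ∃ Z, ψ Z ≠ 0) : ∃ Z, φ Z * ψ Z ≠ 0 := by
  classical
  obtain ⟨S, -, hS⟩ := h.aff_roots h0
  obtain ⟨T, -, hT⟩ := h'.aff_roots h1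
  obtain ⟨z, hz⟩ := Infinite.exists_notMem_finset (S ∪ T)
  exact ⟨![z, 1], mul_ne_zero (fun e => hz (Finset.mem_union_left _ ((hS z).1 e)))
    fun e => hz (Finset.mem_union_right _ ((hT z).1 e))⟩

lemma eq_zero_of_two {A B Y : V ℂ} (hAB : wedge A B ≠ 0) (h : wedge Y A = 0) (h' : wedge Y B = 0) :
    Y = 0 := by
  by_contra hY
  exact hAB (wedge_trans hY (wsymm h) h')

lemma pow_split (h : Dyn d F G) {A B : V ℂ} (hAB : wedge A B ≠ 0) (hp : PowAt d F A B) :
    ∃ a b : ℂ, a ≠ 0 ∧ b ≠ 0 ∧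
      ((∀ Z, wedge (app F Z) A = a * wedge Z A ^ d ∧ wedge (app F Z) B = b * wedge Z B ^ d) ∨
       ∀ Z, wedge (app F Z) A = a * wedge Z B ^ d ∧ wedge (app F Z) B = b * wedge Z A ^ d) := by
  have hd : 0 < d := by have := h.two; omega
  obtain ⟨c, hc⟩ := hp
  have hA := ne_left hAB
  have hB := ne_right hAB
  have nA := exists_wedge_app_ne hd h.hom h.nondeg hA
  have nB := exists_wedge_app_ne hd h.hom h.nondeg hB
  have hc0 : c ≠ 0 := by
    obtain ⟨Z, hZ⟩ := exists_ne_two (h.hom.isForm_wedge A) (h.hom.isForm_wedge B) nA nB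
    rintro rfl
    exact hZ (by rw [hc, zero_mul])
  have root : ∀ Z, wedge (app F Z) A * wedge (app F Z) B = 0 → wedge Z A = 0 ∨ wedge Z B = 0 :=
    fun Z e => by
      rw [hc] at e
      exact mul_eq_zero.1 (pow_eq_zero_iff hd.ne' |>.1 ((mul_eq_zero.1 e).resolve_left hc0))
  have key : ∀ {P Q A' B' : V ℂ}, P ≠ 0 → Q ≠ 0 → A' ≠ 0 → B' ≠ 0 → wedge A' B' ≠ 0 →
      (∀ Z, wedge (app F Z) A' * wedge (app F Z) B' = 0 → wedge Z P = 0 ∨ wedge Z Q = 0) →
      wedge (app F P) A' = 0 → ∃ b : ℂ, b ≠ 0 ∧ ∀ Z, wedge (app F Z) B' = b * wedge Z Q ^ d := by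
    intro P Q A' B' hP hQ hA' hB' hAB' root e
    refine pure_pow (h.hom.isForm_wedge B') (exists_wedge_app_ne hd h.hom h.nondeg hB') hQ
      fun Z hZ e' => (root Z (by rw [e', mul_zero])).resolve_left fun e2 => ?_
    exact h.nondeg.app_ne hZ (eq_zero_of_two hAB' (wedge_trans (h.nondeg.app_ne hP)
      (h.hom.wedge_app e2 hZ hP) e) e')
  have hBA : wedge B A ≠ 0 := fun e => hAB (wsymm e)
  have root' : ∀ Z, wedge (app F Z) B * wedge (app F Z) A = 0 → wedge Z A = 0 ∨ wedge Z B = 0 :=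
    fun Z e => root Z (by rwa [mul_comm])
  rcases mul_eq_zero.1 (show wedge (app F A) A * wedge (app F A) B = 0 by
    rw [hc, wedge_self, zero_mul, zero_pow hd.ne', mul_zero]) with e | e
  · obtain ⟨b, hb, hb'⟩ := key hA hB hA hB hAB root e
    obtain ⟨a, ha, ha'⟩ := key hB hA hB hA hBA (fun Z e => (root' Z e).symm)
      (by rw [hb', wedge_self, zero_pow hd.ne', mul_zero])
    exact ⟨a, b, ha, hb, Or.inl fun Z => ⟨ha' Z, hb' Z⟩⟩
  · obtain ⟨a, ha, ha'⟩ := key hA hB hB hA hBA root' e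
    obtain ⟨b, hb, hb'⟩ := key hB hA hA hB hAB (fun Z e => (root Z e).symm)
      (by rw [ha', wedge_self, zero_pow hd.ne', mul_zero])
    exact ⟨a, b, ha, hb, Or.inr fun Z => ⟨ha' Z, hb' Z⟩⟩

lemma pow_norm (h : Dyn d F G) {A B : V ℂ} (hAB : wedge A B ≠ 0) (hp : PowAt d F A B) :
    ∃ α β : ℝ, 0 < α ∧ 0 < β ∧ ∀ Z,
      max (α * ‖wedge (app F Z) A‖) (β * ‖wedge (app F Z) B‖) =
        max (α * ‖wedge Z A‖) (β * ‖wedge Z B‖) ^ d ∧
      min (α * ‖wedge (app F Z) A‖) (β * ‖wedge (app F Z) B‖) =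
        min (α * ‖wedge Z A‖) (β * ‖wedge Z B‖) ^ d := by
  obtain ⟨a, b, ha, hb, hab⟩ := pow_split h hAB hp
  have hd : (2 : ℝ) ≤ d := by exact_mod_cast h.two
  have mm : ∀ x y : ℝ, 0 ≤ x → 0 ≤ y →
      max (x ^ d) (y ^ d) = max x y ^ d ∧ min (x ^ d) (y ^ d) = min x y ^ d := fun x y hx hy => by
    rcases le_total x y with e | e
    · simp [e, pow_le_pow_left₀ hx e]
    · simp [e, pow_le_pow_left₀ hy e]
  have ex : ∀ {x : ℂ} {s t : ℝ}, x ≠ 0 → s + Real.log ‖x‖ = d * t →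
      Real.exp s * ‖x‖ = Real.exp t ^ d := fun {x s t} hx e => by
    rw [← Real.exp_nat_mul, ← e, Real.exp_add, Real.exp_log (norm_pos_iff.2 hx)]
  rcases hab with e | e
  · have h1 : (d : ℝ) - 1 ≠ 0 := by linarith
    refine ⟨Real.exp (Real.log ‖a‖ / (d - 1)), Real.exp (Real.log ‖b‖ / (d - 1)), Real.exp_pos _,
      Real.exp_pos _, fun Z => ?_⟩
    rw [(e Z).1, (e Z).2, norm_mul, norm_mul, norm_pow, norm_pow, ← mul_assoc, ← mul_assoc,
      ex ha (t := Real.log ‖a‖ / (d - 1)) (by field_simp; ring),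
      ex hb (t := Real.log ‖b‖ / (d - 1)) (by field_simp; ring), ← mul_pow, ← mul_pow]
    exact mm _ _ (by positivity) (by positivity)
  · have h1 : (d : ℝ) ^ 2 - 1 ≠ 0 := by nlinarith
    refine ⟨Real.exp ((Real.log ‖a‖ + d * Real.log ‖b‖) / (d ^ 2 - 1)),
      Real.exp ((Real.log ‖b‖ + d * Real.log ‖a‖) / (d ^ 2 - 1)), Real.exp_pos _,
      Real.exp_pos _, fun Z => ?_⟩
    rw [(e Z).1, (e Z).2, norm_mul, norm_mul, norm_pow, norm_pow, ← mul_assoc, ← mul_assoc,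
      ex ha (t := (Real.log ‖b‖ + d * Real.log ‖a‖) / (d ^ 2 - 1)) (by field_simp; ring),
      ex hb (t := (Real.log ‖a‖ + d * Real.log ‖b‖) / (d ^ 2 - 1)) (by field_simp; ring),
      ← mul_pow, ← mul_pow, max_comm, min_comm]
    exact mm _ _ (by positivity) (by positivity)

lemma pow_esc (h : Dyn d F G) {A B X : V ℂ} (hAB : wedge A B ≠ 0) (hp : PowAt d F A B)
    (hA : wedge X A ≠ 0) (hB : wedge X B ≠ 0) (hX : Preper F X) :
    ∃ c : ℝ, ∀ Z, Z ≠ 0 →
      G Z = Real.log (max (‖wedge Z A‖ / ‖wedge X A‖) (‖wedge Z B‖ / ‖wedge X B‖)) + c := by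
  obtain ⟨α, β, hα, hβ, e⟩ := pow_norm h hAB hp
  set N : V ℂ → ℝ := fun Z => max (α * ‖wedge Z A‖) (β * ‖wedge Z B‖) with hN
  set μ : V ℂ → ℝ := fun Z => min (α * ‖wedge Z A‖) (β * ‖wedge Z B‖) with hμ
  have hNs : ∀ (t : ℂ) Z, N (t • Z) = ‖t‖ * N Z := fun t Z => by
    simp only [hN, wedge_smul_left, norm_mul, mul_left_comm _ ‖t‖,
      mul_max_of_nonneg _ _ (norm_nonneg t)]
  have hμs : ∀ (t : ℂ) Z, μ (t • Z) = ‖t‖ * μ Z := fun t Z => by
    simp only [hμ, wedge_smul_left, norm_mul, mul_left_comm _ ‖t‖,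
      mul_min_of_nonneg _ _ (norm_nonneg t)]
  set M : Mat ℂ := !![α * A 1, -(α * A 0); β * B 1, -(β * B 0)] with hM
  have hdet : M.det ≠ 0 := by
    have : M.det = α * β * wedge A B := by simp [hM, Matrix.det_fin_two, wedge]; ring
    rw [this]
    exact mul_ne_zero (mul_ne_zero (by exact_mod_cast hα.ne') (by exact_mod_cast hβ.ne')) hAB
  have hMN : ∀ Z, ‖M.mulVec Z‖ = N Z := fun Z => by
    have e0 : M.mulVec Z 0 = α * wedge Z A := by
      simp [hM, Matrix.mulVec, dotProduct, Fin.sum_univ_two, wedge]; ring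
    have e1 : M.mulVec Z 1 = β * wedge Z B := by
      simp [hM, Matrix.mulVec, dotProduct, Fin.sum_univ_two, wedge]; ring
    rw [norm_V, e0, e1, norm_mul, norm_mul, Complex.norm_real, Complex.norm_real,
      Real.norm_of_nonneg hα.le, Real.norm_of_nonneg hβ.le]
  have hNp : ∀ Z, Z ≠ 0 → 0 < N Z := fun Z hZ => by
    rw [← hMN]; exact norm_pos_iff.2 (mulVec_ne_zero hdet hZ)
  have hD : Dyn d F fun Z => Real.log (N Z) := by
    refine ⟨h.two, h.hom, h.nondeg, ?_, fun t Z ht hZ => ?_, fun Z hZ => ?_⟩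
    · simpa only [hMN] using exists_log_mulVec hdet
    · dsimp only
      rw [hNs, Real.log_mul (norm_ne_zero_iff.2 ht) (hNp Z hZ).ne', add_comm]
    · dsimp only
      rw [show N (app F Z) = N Z ^ d from (e Z).1, Real.log_pow]
  have hit : ∀ n, N ((app F)^[n] X) = N X ^ d ^ n ∧ μ ((app F)^[n] X) = μ X ^ d ^ n := by
    intro n
    induction n with
    | zero => simp
    | succ n ih =>
      rw [Function.iterate_succ_apply', pow_succ, pow_mul, pow_mul, ← ih.1, ← ih.2]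
      exact e _
  have hX0 := ne_left hA
  have pA : 0 < ‖wedge X A‖ := norm_pos_iff.2 hA
  have pB : 0 < ‖wedge X B‖ := norm_pos_iff.2 hB
  have hμp : 0 < μ X := lt_min (by positivity) (by positivity)
  have hμN : μ X = N X := by
    obtain ⟨m, n, hmn, e1⟩ := hX
    obtain ⟨t, ht, e2⟩ := exists_smul_of_wedge (h.nondeg.iter_ne m hX0) (h.nondeg.iter_ne n hX0) e1
    have a1 := hNs t ((app F)^[n] X)
    have a2 := hμs t ((app F)^[n] X)
    rw [← e2, (hit m).1, (hit n).1] at a1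
    rw [← e2, (hit m).2, (hit n).2] at a2
    have a3 : (μ X / N X) ^ d ^ m = (μ X / N X) ^ d ^ n := by
      rw [div_pow, div_pow, a1, a2, mul_div_mul_left _ _ (norm_ne_zero_iff.2 ht)]
    by_contra hne
    have hlt : μ X / N X < 1 := (div_lt_one (hNp X hX0)).2 (lt_of_le_of_ne min_le_max hne)
    have := pow_lt_pow_right_of_lt_one₀ (div_pos hμp (hNp X hX0)) hlt
      (Nat.pow_lt_pow_right h.two hmn)
    exact this.ne a3.symm
  have e3 : α * ‖wedge X A‖ = β * ‖wedge X B‖ := by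
    have := hμN
    simp only [hμ, hN] at this
    rcases le_total (α * ‖wedge X A‖) (β * ‖wedge X B‖) with e | e
    · rwa [min_eq_left e, max_eq_right e] at this
    · rw [min_eq_right e, max_eq_left e] at this
      exact this.symm
  refine ⟨Real.log (α * ‖wedge X A‖), fun Z hZ => ?_⟩
  have e4 : N Z = max (‖wedge Z A‖ / ‖wedge X A‖) (‖wedge Z B‖ / ‖wedge X B‖) *
      (α * ‖wedge X A‖) := by
    have a1 : ‖wedge Z A‖ / ‖wedge X A‖ * (α * ‖wedge X A‖) = α * ‖wedge Z A‖ := by field_simp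
    have a2 : ‖wedge Z B‖ / ‖wedge X B‖ * (α * ‖wedge X A‖) = β * ‖wedge Z B‖ := by
      rw [e3]; field_simp
    rw [max_mul_of_nonneg _ _ (by positivity), a1, a2]
  have e5 := (hNp Z hZ).ne'
  rw [h.unique hD hZ, e4, Real.log_mul (left_ne_zero_of_mul (e4 ▸ e5)) (by positivity)]

/-! ### Chebyshev maps -/

section Cheb
open Polynomial

/-- The differential equation of the Chebyshev polynomials on the unit interval. -/
def Ode (γ : ℂ) (u : ℂ[X]) : Prop :=
  2 * u = C γ * (2 * X * (X - 1) * derivative (derivative u) + (2 * X - 1) * derivative u)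

lemma coeff_theta (u : ℂ[X]) (n : ℕ) : (X * derivative u).coeff n = n * u.coeff n := by
  cases n with
  | zero => simp
  | succ n => rw [coeff_X_mul, coeff_derivative]; push_cast; ring

lemma Ode.recur {γ : ℂ} {u : ℂ[X]} (h : Ode γ u) (n : ℕ) :
    2 * u.coeff n = γ * (2 * n ^ 2 * u.coeff n - (n + 1) * (2 * n + 1) * u.coeff (n + 1)) := by
  have e : C 2 * (X * u) = C γ * (C 2 * (X * (X * derivative (X * derivative u))) -
      C 2 * (X * derivative (X * derivative u)) + X * derivative u) := by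
    have h2 : (C 2 : ℂ[X]) = 2 := rfl
    simp only [derivative_mul, derivative_X, h2]
    unfold Ode at h
    linear_combination X * h
  have := congrArg (fun p => p.coeff (n + 1)) e
  simp only [coeff_C_mul, coeff_add, coeff_sub, coeff_theta] at this
  rw [coeff_X_mul, coeff_X_mul, coeff_theta, coeff_theta] at this
  push_cast at this
  linear_combination this

lemma Ode.eq_zero {γ : ℂ} (hγ : γ ≠ 0) {u : ℂ[X]} (h : Ode γ u) (h0 : u.eval 0 = 0) : u = 0 := by
  ext n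
  induction n with
  | zero => rwa [coeff_zero_eq_eval_zero, coeff_zero]
  | succ n ih =>
    have e := h.recur n
    rw [coeff_zero] at ih ⊢
    rw [ih] at e
    have h1 : ((n : ℂ) + 1) * (2 * n + 1) ≠ 0 := by
      exact_mod_cast (show (n + 1) * (2 * n + 1) ≠ 0 by positivity)
    have : γ * ((n + 1) * (2 * n + 1) * u.coeff (n + 1)) = 0 := by linear_combination e
    exact (mul_eq_zero.1 ((mul_eq_zero.1 this).resolve_left hγ)).resolve_left h1

lemma Ode.pm {γ : ℂ} (hγ : γ ≠ 0) {u v : ℂ[X]} (h : Ode γ u) (h' : Ode γ v)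
    (hu : u.eval 0 ^ 2 = 1) (hv : v.eval 0 ^ 2 = 1) : v = u ∨ v = -u := by
  rcases sq_eq_sq_iff_eq_or_eq_neg.1 (hv.trans hu.symm) with e | e
  · refine Or.inl (sub_eq_zero.1 (Ode.eq_zero hγ ?_ (by simp [e])))
    unfold Ode at *
    simp only [derivative_sub]
    linear_combination h' - h
  · refine Or.inr (eq_neg_of_add_eq_zero_left (Ode.eq_zero hγ ?_ (by simp [e])))
    unfold Ode at *
    simp only [derivative_add]
    linear_combination h' + h

lemma Ode.refl {γ : ℂ} {u : ℂ[X]} (h : Ode γ u) : Ode γ (u.comp (1 - X)) := by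
  have := congrArg (fun p => p.comp (1 - X)) h
  unfold Ode
  simp only [derivative_comp, derivative_sub, derivative_one, derivative_X, derivative_mul,
    derivative_neg, zero_sub, neg_zero, zero_mul, zero_add]
  simp only [mul_comp, add_comp, sub_comp, C_comp, X_comp, one_comp, ofNat_comp] at this
  simp only [Nat.cast_ofNat] at this
  linear_combination this

lemma form_eq_zero {n : ℕ} {φ : V ℂ → ℂ} (h : IsForm n φ) (h0 : ∀ z, φ ![z, 1] = 0) (Z : V ℂ) :
    φ Z = 0 := by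
  by_contra hc
  obtain ⟨S, -, hS⟩ := h.aff_roots ⟨Z, hc⟩
  obtain ⟨z, hz⟩ := Infinite.exists_notMem_finset S
  exact hz ((hS z).1 (h0 z))

lemma cheb_inf (h : Dyn d F G) {A B E : V ℂ} (hAB : wedge A B ≠ 0) (hAE : wedge A E ≠ 0)
    (hBE : wedge B E ≠ 0) (hc : ChebAt F A B E) :
    ∃ a : ℂ, a ≠ 0 ∧ ∀ Z, wedge (app F Z) E = a * wedge Z E ^ d := by
  have hd : 0 < d := by have := h.two; omega
  obtain ⟨c, hc⟩ := hc
  have hE := ne_right hAE
  refine pure_pow (h.hom.isForm_wedge E) (exists_wedge_app_ne hd h.hom h.nondeg hE) hE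
    fun X hX e => ?_
  by_contra hXE
  have hFX := h.nondeg.app_ne hX
  obtain ⟨r, hr, -, hR⟩ := exists_ram hd h.hom h.nondeg hX
  have m1 := (((h.hom.isForm_wedge A).mult_zero (X := X) fun e' =>
    hAE (wedge_trans hFX (wsymm e') e)).mul ((h.hom.isForm_wedge B).mult_zero (X := X) fun e' =>
    hBE (wedge_trans hFX (wsymm e') e))).mul ((hR.mult_wedge h.nondeg hX hE e).pow 2)
  have hc0 : c ≠ 0 := by
    rintro rfl
    obtain ⟨Z, hZ⟩ := m1.exists_ne hX
    exact hZ (by rw [hc, zero_mul, zero_mul])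
  obtain ⟨a, ha, mA⟩ := (IsForm.wedge A).exists_mult ⟨B, fun e => hAB (wsymm e)⟩ hX
  obtain ⟨b, hb, mB⟩ := (IsForm.wedge B).exists_mult ⟨A, hAB⟩ hX
  have m2 := (((hR.mult_jac hd h.hom h.nondeg hX).pow 2).const_mul hc0).mul
    ((mA.mul mB).mul (((IsForm.wedge E).mult_zero hXE).pow 2))
  simp only [← hc] at m2
  have e1 := m1.unique hX m2
  exact hX (eq_zero_of_two hAB (mA.eq_zero_iff.2 (by omega)) (mB.eq_zero_iff.2 (by omega)))

lemma cheb_form (h : Dyn d F G) (hc : ChebAt F ![0, 1] ![1, 1] ![1, 0]) :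
    ∃ (q : ℂ) (u : ℂ[X]), q ≠ 0 ∧ Ode ((d : ℂ) ^ 2)⁻¹ u ∧ u.eval 0 ^ 2 = 1 ∧ u.eval 1 ^ 2 = 1 ∧
      ∀ z, app F ![z, 1] = ![q * (u.eval z + 1), 2 * q] := by
  have hd : 0 < d := by have := h.two; omega
  have hd' : (d : ℂ) ≠ 0 := by exact_mod_cast hd.ne'
  obtain ⟨a, ha, hQ⟩ := cheb_inf h (by simp [wedge]) (by simp [wedge]) (by simp [wedge]) hc
  obtain ⟨c, hc⟩ := hc
  set q : ℂ := -(a * (-1) ^ d) / 2 with hq
  have hq0 : q ≠ 0 := by simp [hq, ha]
  have e1 : ∀ z, app F ![z, 1] 1 = 2 * q := fun z => by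
    have := hQ ![z, 1]
    simp only [wedge, Matrix.cons_val_zero, Matrix.cons_val_one, mul_zero, mul_one,
      zero_sub] at this
    rw [hq]; linear_combination -this
  have e2 : deh (F 1) = C (2 * q) := Polynomial.funext fun z => by
    rw [eval_deh, eval_C]; exact e1 z
  set P := deh (F 0) with hP
  have e3 : ∀ z, app F ![z, 1] 0 = P.eval z := fun z => (eval_deh _ z).symm
  set u : ℂ[X] := C q⁻¹ * P - 1 with hu
  have e4 : P = C q * (u + 1) := by
    rw [hu, sub_add_cancel, ← mul_assoc, ← C_mul, mul_inv_cancel₀ hq0, C_1, one_mul]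
  have e5 : u ^ 2 - 1 = C (c * d ^ 2) * (derivative u ^ 2 * (X * (X - 1))) := by
    refine Polynomial.funext fun z => ?_
    have := hc ![z, 1]
    rw [jac_aff h.hom, ← hP, e2] at this
    simp only [wedge, Matrix.cons_val_zero, Matrix.cons_val_one, mul_zero, mul_one,
      zero_sub, sub_zero, e1, e3, wr, e4, derivative_mul, derivative_C, derivative_add,
      derivative_one, eval_mul, eval_sub, eval_add, eval_C, eval_one, eval_zero, zero_mul,
      add_zero, zero_add] at this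
    simp only [eval_mul, eval_sub, eval_pow, eval_C, eval_one, eval_X]
    apply mul_left_cancel₀ (show 4 * q ^ 4 ≠ 0 by simp [hq0])
    linear_combination this
  have hud : u.coeff d ≠ 0 := by
    have e6 : P.coeff d ≠ 0 := by
      rw [hP, coeff_deh_top (h.hom 0)]
      intro e
      refine h.nondeg.app_ne (Z := ![1, 0]) (by simp) (funext fun i => ?_)
      have := hQ ![1, 0]
      rw [wedge_self, zero_pow hd.ne', mul_zero] at this
      fin_cases i
      · exact e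
      · simpa [wedge] using this
    rw [hu, coeff_sub, coeff_C_mul, coeff_one, if_neg hd.ne', sub_zero]
    exact mul_ne_zero (inv_ne_zero hq0) e6
  have hud' : u.coeff (d + 1) = 0 := by
    rw [hu, coeff_sub, coeff_C_mul, coeff_one, if_neg (by omega), sub_zero,
      coeff_eq_zero_of_natDegree_lt (Nat.lt_succ_of_le (natDegree_deh_le (h.hom 0))), mul_zero]
  have hu' : derivative u ≠ 0 := fun e => by
    obtain ⟨n, rfl⟩ : ∃ n, d = n + 1 := ⟨d - 1, by omega⟩
    have := congrArg (fun p => p.coeff n) e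
    simp only [coeff_derivative, coeff_zero] at this
    exact mul_ne_zero hud (by exact_mod_cast n.succ_ne_zero) this
  have e7 : Ode (c * d ^ 2) u := by
    have := congrArg derivative e5
    simp only [derivative_sub, derivative_pow, derivative_mul, derivative_C, derivative_X,
      derivative_one] at this
    unfold Ode
    apply mul_left_cancel₀ hu'
    have h2 : (C ((2 : ℕ) : ℂ) : ℂ[X]) = 2 := rfl
    rw [h2] at this
    linear_combination this
  have e8 : c * d ^ 2 = ((d : ℂ) ^ 2)⁻¹ := by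
    have := e7.recur d
    rw [hud'] at this
    refine eq_inv_of_mul_eq_one_left (mul_left_cancel₀ (mul_ne_zero two_ne_zero hud) ?_)
    linear_combination -this
  refine ⟨q, u, hq0, e8 ▸ e7, ?_, ?_, fun z => funext fun i => ?_⟩
  · have := congrArg (eval 0) e5
    simpa [sub_eq_zero] using this
  · have := congrArg (eval 1) e5
    simpa [sub_eq_zero] using this
  · fin_cases i
    · simp [e3, e4]
    · simp [e1]

lemma app_ext {H H' : PM ℂ} (h : Hom d H) (h' : Hom d H')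
    (e : ∀ z, app H ![z, 1] = app H' ![z, 1]) (Z : V ℂ) : app H Z = app H' Z := funext fun i =>
  sub_eq_zero.1 (form_eq_zero (IsForm.sub (φ := fun Z => app H Z i) (ψ := fun Z => app H' Z i)
    ⟨H i, h i, fun _ => rfl⟩ ⟨H' i, h' i, fun _ => rfl⟩) (fun z => by simp only [e z, sub_self]) Z)

lemma cheb_std (h : Dyn d F G) (h' : Dyn d F' G') (hc : ChebAt F ![0, 1] ![1, 1] ![1, 0])
    (hc' : ChebAt F' ![0, 1] ![1, 1] ![1, 0]) : ∃ c : ℝ, ∀ Z, Z ≠ 0 → G' Z = G Z + c := by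
  obtain ⟨q, u, hq, hu, u0, u1, e⟩ := cheb_form h hc
  obtain ⟨q', v, hq', hv, v0, -, e'⟩ := cheb_form h' hc'
  have hd : (2 : ℝ) ≤ d := by exact_mod_cast h.two
  have hγ : ((d : ℂ) ^ 2)⁻¹ ≠ 0 := by
    have : d ≠ 0 := by have := h.two; omega
    simpa using this
  set T : Mat ℂ := !![-1, 1; 0, 1] with hT
  have hdet : T.det ≠ 0 := by simp [hT, Matrix.det_fin_two]
  have hTv : ∀ x y : ℂ, T.mulVec ![x, y] = ![y - x, y] := fun x y => by
    funext i
    fin_cases i <;> simp [hT, Matrix.mulVec, dotProduct, Fin.sum_univ_two]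
    ring
  have hFT : Hom d (comp F (lin T)) := by simpa using h.hom.comp (hom_lin T)
  have hTF : Hom d (comp (lin T) F) := by simpa using (hom_lin T).comp h.hom
  obtain ⟨⟨C, hC⟩, hs, ha⟩ := h.esc
  have hsym : ∀ Z, Z ≠ 0 → G (T.mulVec Z) = G Z := by
    rcases Ode.pm hγ hu hu.refl u0 (by simpa using u1) with e1 | e1
    · intro Z hZ
      have e2 := app_ext hFT h.hom (fun z => by
        have := congrArg (eval z) e1
        simp only [eval_comp, eval_sub, eval_one, eval_X] at this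
        rw [app_comp, app_lin, hTv, e, e, this]) Z
      rw [app_comp, app_lin] at e2
      have e3 := ha _ (mulVec_ne_zero hdet hZ)
      rw [e2, ha Z hZ] at e3
      exact (mul_left_cancel₀ (by linarith) e3).symm
    · obtain ⟨C', hC'⟩ := exists_log_mulVec hdet
      have hD : Dyn d F fun Z => G (T.mulVec Z) := by
        refine ⟨h.two, h.hom, h.nondeg, ⟨C + C', fun Z hZ => ?_⟩, fun t Z ht hZ => ?_,
          fun Z hZ => ?_⟩
        · exact (abs_sub_le _ _ _).trans (add_le_add (hC _ (mulVec_ne_zero hdet hZ)) (hC' Z hZ))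
        · dsimp only
          rw [Matrix.mulVec_smul, hs t _ ht (mulVec_ne_zero hdet hZ)]
        · have e2 := app_ext hFT hTF (fun z => by
            have := congrArg (eval z) e1
            simp only [eval_comp, eval_sub, eval_one, eval_X, eval_neg] at this
            rw [app_comp, app_lin, hTv, app_comp, app_lin, e, e, hTv, this]
            congr 1
            ring) Z
          rw [app_comp, app_lin, app_comp, app_lin] at e2
          dsimp only
          rw [← e2, ha _ (mulVec_ne_zero hdet hZ)]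
      exact fun Z hZ => hD.unique h hZ
  have hqq : q' / q ≠ 0 := div_ne_zero hq' hq
  have key : ∀ Z, Z ≠ 0 → G (app F' Z) = d * G Z + Real.log ‖q' / q‖ := by
    intro Z hZ
    rcases Ode.pm hγ hu hv u0 v0 with e1 | e1
    · have e2 := app_ext h'.hom (h.hom.smul (q' / q)) (fun z => by
        rw [app_smulF, e, e', e1]
        funext i
        fin_cases i <;> simp <;> field_simp) Z
      rw [e2, app_smulF, hs _ _ hqq (h.nondeg.app_ne hZ), ha Z hZ]
    · have e2 := app_ext h'.hom (hTF.smul (q' / q)) (fun z => by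
        rw [app_smulF, app_comp, app_lin, e, e', e1, hTv]
        funext i
        fin_cases i <;> simp <;> field_simp
        ring) Z
      rw [e2, app_smulF, app_comp, app_lin, hs _ _ hqq (mulVec_ne_zero hdet (h.nondeg.app_ne hZ)),
        hsym _ (h.nondeg.app_ne hZ), ha Z hZ]
  have h1 : (d : ℝ) - 1 ≠ 0 := by linarith
  refine ⟨Real.log ‖q' / q‖ / (d - 1), fun Z hZ => h'.unique (G' := fun Z =>
    G Z + Real.log ‖q' / q‖ / (d - 1)) ⟨h.two, h'.hom, h'.nondeg,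
      ⟨C + |Real.log ‖q' / q‖ / (d - 1)|, fun Z hZ => ?_⟩, fun t Z ht hZ => ?_, fun Z hZ => ?_⟩ hZ⟩
  · dsimp only
    rw [add_sub_right_comm]
    exact (abs_add_le _ _).trans (add_le_add (hC Z hZ) le_rfl)
  · dsimp only
    rw [hs t Z ht hZ]; ring
  · dsimp only
    rw [key Z hZ]; field_simp; ring

lemma cheb_conj {A B E : V ℂ} (hA : A ≠ 0) (hB : B ≠ 0) (hE : E ≠ 0) (hc : ChebAt F A B E)
    {M : Mat ℂ} (hM : M.det = 1) (e0 : wedge (M.mulVec ![1, 0]) E = 0)
    (e1 : wedge (M.mulVec ![0, 1]) A = 0) (e2 : wedge (M.mulVec ![1, 1]) B = 0) :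
    ChebAt (conj M F) ![0, 1] ![1, 1] ![1, 0] := by
  obtain ⟨c, hc⟩ := hc
  have key : ∀ {X Y : V ℂ}, Y ≠ 0 → wedge (M.mulVec X) Y = 0 →
      ∃ t : ℂ, ∀ Z, wedge Z X = t * wedge (M.mulVec Z) Y := fun {X Y} hY e => by
    obtain ⟨t, ht⟩ := (wedge_eq_zero_iff hY).1 e
    exact ⟨t, fun Z => by rw [← wedge_smul_right, ← ht, wedge_mulVec, hM, one_mul]⟩
  obtain ⟨a, ha⟩ := key hA e1
  obtain ⟨b, hb⟩ := key hB e2
  obtain ⟨e, he⟩ := key hE e0
  refine ⟨c, fun Z => ?_⟩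
  rw [ha, hb, he, ha Z, hb Z, he Z, mulVec_app_conj hM, jac_conj, hM]
  linear_combination a * b * e ^ 2 * hc (M.mulVec Z)

end Cheb

/-! ### Invariant flat metrics -/

lemma hasDerivAt_line (Z W : V ℂ) (z : ℂ) : HasDerivAt (fun w : ℂ => Z + w • W) W z := by
  simpa using ((hasDerivAt_id z).smul_const W).const_add Z

lemma diff_iter (F : PM ℂ) (n : ℕ) (Z W : V ℂ) (z : ℂ) :
    DifferentiableAt ℂ (fun w : ℂ => (app F)^[n] (Z + w • W)) z :=
  (analyticAt_iter F n _).differentiableAt.comp z (hasDerivAt_line Z W z).differentiableAt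

lemma line_wedge {Z W : V ℂ} (h : wedge Z W = 1) (z : ℂ) : wedge (Z + z • W) W = 1 := by
  rw [wedge_add_left, wedge_smul_left, wedge_self, mul_zero, add_zero, h]

lemma orb_iter (hF : Hom d F) {ι : Type} [Fintype ι] {A : ι → V ℂ} {c : ℂ} {k : ℕ}
    (e : ∀ Z, ∏ i, wedge (app F Z) (A i) = c * jac F Z ^ k * ∏ i, wedge Z (A i))
    {Z W : V ℂ} (h : wedge Z W = 1) (n : ℕ) (z : ℂ) :
    ∏ i, wedge ((app F)^[n] (Z + z • W)) (A i) = (c * d ^ k) ^ n *
      wedge ((app F)^[n] (Z + z • W)) (deriv (fun w : ℂ => (app F)^[n] (Z + w • W)) z) ^ k *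
      ∏ i, wedge (Z + z • W) (A i) := by
  have : ∃ J : ℂ, ∏ i, wedge ((app F)^[n] (Z + z • W)) (A i) =
      c ^ n * J ^ k * ∏ i, wedge (Z + z • W) (A i) ∧ (d : ℂ) ^ n *
      wedge ((app F)^[n] (Z + z • W)) (deriv (fun w : ℂ => (app F)^[n] (Z + w • W)) z) = J := by
    induction n with
    | zero =>
      exact ⟨1, by simp, by
        simp only [Function.iterate_zero, id, pow_zero, one_mul]
        rw [(hasDerivAt_line Z W z).deriv, line_wedge h]⟩
    | succ n ih =>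
      obtain ⟨J, h1, h2⟩ := ih
      refine ⟨jac F ((app F)^[n] (Z + z • W)) * J, ?_, ?_⟩
      · rw [Function.iterate_succ_apply', e, h1]; ring
      · have := wedge_deriv_app hF (diff_iter F n Z W z)
        simp only [Function.iterate_succ_apply']
        rw [← h2, pow_succ, mul_assoc, this]; ring
  obtain ⟨J, h1, rfl⟩ := this
  rw [h1, mul_pow, mul_pow, ← pow_mul, ← pow_mul, mul_comm n k]; ring

lemma cont_wedge (Y : V ℂ) : Continuous fun X : V ℂ => wedge X Y := by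
  unfold wedge; fun_prop

lemma near_line {Z W : V ℂ} (h : wedge Z W = 1) {r : ℝ} (hr : 0 < r) : ∃ δ : ℝ, 0 < δ ∧
    ∀ Y, Y ≠ 0 → dlt Y Z < δ → ∃ z ∈ ball (0 : ℂ) r, wedge Y (Z + z • W) = 0 := by
  have hZ : Z ≠ 0 := ne_left (by rw [h]; exact one_ne_zero)
  have hU : {Y : V ℂ | ‖wedge Y Z‖ < r * ‖wedge Y W‖} ∈ 𝓝 Z :=
    (isOpen_lt (cont_wedge Z).norm (continuous_const.mul (cont_wedge W).norm)).mem_nhds
      (by simp [h, hr])
  obtain ⟨δ, hδ, hδ'⟩ := exists_near hZ hU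
  refine ⟨δ, hδ, fun Y hY hYZ => ?_⟩
  obtain ⟨t, ht, e⟩ := hδ' Y hY hYZ
  simp only [Set.mem_ofPred_eq, wedge_smul_left, norm_mul] at e
  rw [mul_left_comm, mul_lt_mul_iff_right₀ (norm_pos_iff.2 ht)] at e
  have h0 : wedge Y W ≠ 0 := by
    intro h0
    rw [h0, norm_zero, mul_zero] at e
    exact absurd e (not_lt.2 (norm_nonneg _))
  refine ⟨-(wedge Y Z / wedge Y W), ?_, ?_⟩
  · rwa [mem_ball_zero_iff, norm_neg, norm_div, div_lt_iff₀ (norm_pos_iff.2 h0)]
  · rw [wedge_add_right, wedge_smul_right]; field_simp; ring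

lemma sph_bound {u v u' v' w : ℂ} {C : ℝ} (h2 : 0 < ‖u‖ ^ 2 + ‖v‖ ^ 2)
    (h1 : ‖u' * v - u * v'‖ ≤ C * (‖u‖ ^ 2 + ‖v‖ ^ 2)) :
    ‖(2 * inner ℝ u (u' * w) * (‖u‖ ^ 2 + ‖v‖ ^ 2) - ‖u‖ ^ 2 *
      (2 * inner ℝ u (u' * w) + 2 * inner ℝ v (v' * w))) / (‖u‖ ^ 2 + ‖v‖ ^ 2) ^ 2‖ ≤ C * ‖w‖ := by
  have e : 2 * inner ℝ u (u' * w) * (‖u‖ ^ 2 + ‖v‖ ^ 2) - ‖u‖ ^ 2 *
      (2 * inner ℝ u (u' * w) + 2 * inner ℝ v (v' * w)) =
      2 * inner ℝ (u * v) ((u' * v - u * v') * w) := by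
    simp only [Complex.inner, Complex.sq_norm, Complex.normSq_apply, map_mul, Complex.mul_re,
      Complex.mul_im, Complex.sub_re, Complex.sub_im, Complex.conj_re, Complex.conj_im]
    ring
  have h3 := abs_real_inner_le_norm (u * v) ((u' * v - u * v') * w)
  rw [norm_mul, norm_mul] at h3
  rw [e, Real.norm_eq_abs, abs_div, abs_mul, abs_two, abs_of_pos (pow_pos h2 2),
    div_le_iff₀ (pow_pos h2 2)]
  have h4 : 2 * (‖u‖ * ‖v‖) ≤ ‖u‖ ^ 2 + ‖v‖ ^ 2 := by nlinarith [sq_nonneg (‖u‖ - ‖v‖)]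
  calc _ ≤ 2 * (‖u‖ * ‖v‖) * (‖u' * v - u * v'‖ * ‖w‖) := by linarith
    _ ≤ (‖u‖ ^ 2 + ‖v‖ ^ 2) * (C * (‖u‖ ^ 2 + ‖v‖ ^ 2) * ‖w‖) := by gcongr
    _ = _ := by ring

lemma no_two {a b a' b' : ℂ → ℂ} {r C : ℝ} (ha : ∀ z, HasDerivAt a (a' z) z)
    (hb : ∀ z, HasDerivAt b (b' z) z) (h0 : ∀ z, 0 < ‖a z‖ ^ 2 + ‖b z‖ ^ 2)
    (hC : ∀ z ∈ ball (0 : ℂ) r, ‖a' z * b z - a z * b' z‖ ≤ C * (‖a z‖ ^ 2 + ‖b z‖ ^ 2))
    {x y : ℂ} (hx : x ∈ ball (0 : ℂ) r) (hy : y ∈ ball (0 : ℂ) r) (ex : a x = 0) (ey : b y = 0) :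
    1 ≤ C * ‖y - x‖ := by
  set p : ℝ → ℂ := fun t => x + t * (y - x) with hp
  have hp' : ∀ t, HasDerivAt p (y - x) t := fun t => by
    have := ((Complex.ofRealCLM.hasDerivAt (x := t)).mul_const (y - x)).const_add x
    rwa [Complex.ofRealCLM_apply, Complex.ofReal_one, one_mul] at this
  have hA : ∀ t, HasDerivAt (fun t => ‖a (p t)‖ ^ 2)
      (2 * inner ℝ (a (p t)) (a' (p t) * (y - x))) t := fun t =>
    ((ha (p t)).comp_of_eq t (hp' t) rfl).norm_sq
  have hB : ∀ t, HasDerivAt (fun t => ‖b (p t)‖ ^ 2)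
      (2 * inner ℝ (b (p t)) (b' (p t) * (y - x))) t := fun t =>
    ((hb (p t)).comp_of_eq t (hp' t) rfl).norm_sq
  have key := norm_image_sub_le_of_norm_deriv_le_segment_01'
    (f := fun t => ‖a (p t)‖ ^ 2 / (‖a (p t)‖ ^ 2 + ‖b (p t)‖ ^ 2)) (C := C * ‖y - x‖)
    (fun t _ => ((hA t).div ((hA t).add (hB t)) (h0 _).ne').hasDerivWithinAt) (fun t ht => by
      have hm : p t ∈ ball (0 : ℂ) r := by
        have := (convex_ball (0 : ℂ) r).add_smul_sub_mem hx hy ⟨ht.1, ht.2.le⟩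
        simpa [hp] using this
      exact sph_bound (h0 _) (hC _ hm))
  have h1 := h0 y
  have p0 : p 0 = x := by simp [hp]
  have p1 : p 1 = y := by simp [hp]
  rw [ey] at h1
  simp only [p0, p1, ex, ey, norm_zero, ne_eq, OfNat.ofNat_ne_zero, not_false_eq_true, zero_pow,
    add_zero, zero_div, sub_zero] at key h1
  rwa [div_self h1.ne', norm_one] at key

lemma wronski (P Q X Y : V ℂ) :
    wedge Q X * wedge P Y - wedge P X * wedge Q Y = -(wedge P Q * wedge X Y) := by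
  simp only [wedge]; ring

lemma hasDerivAt_wedge {s : ℂ → V ℂ} {z : ℂ} (hs : DifferentiableAt ℂ s z) (Y : V ℂ) :
    HasDerivAt (fun w => wedge (s w) Y) (wedge (deriv s z) Y) z := by
  rw [← deriv_wedge_const hs]
  have h0 := differentiableAt_pi.1 hs 0
  have h1 := differentiableAt_pi.1 hs 1
  exact ((h0.mul_const (Y 1)).sub (h1.mul_const (Y 0))).hasDerivAt

/-- A wedge product is bounded in terms of two independent ones. -/
lemma wedge_le_two {X Y : V ℂ} (h : wedge X Y ≠ 0) (A : V ℂ) : ∃ K : ℝ, 0 < K ∧ ∀ P,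
    ‖wedge P A‖ ^ 2 ≤ K * (‖wedge P X‖ ^ 2 + ‖wedge P Y‖ ^ 2) := by
  refine ⟨‖wedge A Y / wedge X Y‖ ^ 2 + ‖wedge X A / wedge X Y‖ ^ 2 + 1, by positivity,
    fun P => ?_⟩
  have e : wedge P A = wedge A Y / wedge X Y * wedge P X + wedge X A / wedge X Y * wedge P Y := by
    field_simp
    simp only [wedge]; ring
  have h1 : ‖wedge P A‖ ≤ ‖wedge A Y / wedge X Y‖ * ‖wedge P X‖ +
      ‖wedge X A / wedge X Y‖ * ‖wedge P Y‖ := by
    rw [e, ← norm_mul, ← norm_mul]; exact norm_add_le _ _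
  generalize ‖wedge A Y / wedge X Y‖ = a at *
  generalize ‖wedge X A / wedge X Y‖ = b at *
  refine (pow_le_pow_left₀ (norm_nonneg _) h1 2).trans ?_
  nlinarith [sq_nonneg (a * ‖wedge P Y‖ - b * ‖wedge P X‖), sq_nonneg ‖wedge P X‖,
    sq_nonneg ‖wedge P Y‖]

lemma fat_of_contr (h : Dyn d F G) {k : ℕ} (hk : 0 < k) {A : Fin (2 * k) → V ℂ} {c : ℂ}
    (e : ∀ Z, ∏ i, wedge (app F Z) (A i) = c * jac F Z ^ k * ∏ i, wedge Z (A i))
    (hc : 1 ≤ ‖c * d ^ k‖) {Z : V ℂ} (hZ : Z ≠ 0) (hA : ∀ i, wedge Z (A i) ≠ 0) : Fat G Z := by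
  obtain ⟨W, hW⟩ := exists_wedge_one hZ
  set B : Fin 4 → V ℂ := fun i => ![(i : ℕ), 1] with hB
  have hBs : ∀ i j, i ≠ j → wedge (B i) (B j) ≠ 0 := fun i j hij => by
    rw [hB, wedge_aff, sub_ne_zero]
    exact fun e => hij (Fin.ext (by exact_mod_cast e))
  have hR : ContinuousAt (fun z : ℂ => ‖∏ i, wedge (Z + z • W) (A i)‖) 0 :=
    (continuous_finsetProd _ fun i _ => (cont_wedge (A i)).comp (by fun_prop)).norm.continuousAt
  set ρ := ‖∏ i, wedge Z (A i)‖ / 2 with hρ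
  have hρ0 : 0 < ρ := half_pos (norm_pos_iff.2 (Finset.prod_ne_zero_iff.2 fun i _ => hA i))
  obtain ⟨r₀, hr₀, hr₀'⟩ := Metric.eventually_nhds_iff_ball.1
    (hR.eventually (lt_mem_nhds (show ρ < _ by simp only [zero_smul, add_zero]; linarith)))
  have key : ∀ i j, i ≠ j → ∃ C : ℝ, 0 < C ∧ ∀ n : ℕ, ∀ x ∈ ball (0 : ℂ) r₀, ∀ y ∈ ball (0 : ℂ) r₀,
      wedge ((app F)^[n] (Z + x • W)) (B i) = 0 → wedge ((app F)^[n] (Z + y • W)) (B j) = 0 →
      1 ≤ C * ‖y - x‖ := by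
    intro i j hij
    have hij' := hBs i j hij
    choose K hK hK' using fun l => wedge_le_two hij' (A l)
    set M := max 1 ((∏ l, K l) / ρ ^ 2) with hM
    refine ⟨M * ‖wedge (B i) (B j)‖, mul_pos (by positivity) (norm_pos_iff.2 hij'),
      fun n x hx y hy ex ey => no_two
        (fun z => hasDerivAt_wedge (diff_iter F n Z W z) (B i))
        (fun z => hasDerivAt_wedge (diff_iter F n Z W z) (B j)) (fun z => ?_) (fun z hz => ?_)
        hx hy ex ey⟩
    · by_contra hc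
      have h1 := sq_nonneg ‖wedge ((app F)^[n] (Z + z • W)) (B i)‖
      have h2 := sq_nonneg ‖wedge ((app F)^[n] (Z + z • W)) (B j)‖
      refine h.nondeg.iter_ne n (ne_left (by rw [line_wedge hW z]; exact one_ne_zero))
        (eq_zero_of_two hij' (norm_eq_zero.1 (pow_eq_zero_iff two_ne_zero |>.1 ?_))
          (norm_eq_zero.1 (pow_eq_zero_iff two_ne_zero |>.1 ?_))) <;> linarith
    · have h1 := congrArg norm (orb_iter h.hom e hW n z)
      have h2 := hr₀' z hz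
      rw [wronski, norm_neg, norm_mul, mul_right_comm, mul_comm _ ‖wedge (B i) (B j)‖, mul_comm]
      refine mul_le_mul_of_nonneg_right ?_ (norm_nonneg _)
      rw [norm_mul, norm_mul, norm_pow, norm_pow] at h1
      set P := (app F)^[n] (Z + z • W)
      set w := ‖wedge P (deriv (fun w : ℂ => (app F)^[n] (Z + w • W)) z)‖
      set N := ‖wedge P (B i)‖ ^ 2 + ‖wedge P (B j)‖ ^ 2
      have hN : 0 ≤ N := by positivity
      have h3 : ‖∏ l, wedge P (A l)‖ ^ 2 ≤ (∏ l, K l) * N ^ (2 * k) := by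
        rw [norm_prod, ← Finset.prod_pow]
        refine (Finset.prod_le_prod (fun _ _ => by positivity) fun l _ => hK' l P).trans ?_
        rw [Finset.prod_mul_distrib, Finset.prod_const, Finset.card_univ, Fintype.card_fin]
      have h4 : w ^ k * ρ ≤ ‖∏ l, wedge P (A l)‖ := by
        rw [h1]
        exact mul_le_mul (le_mul_of_one_le_left (by positivity) (one_le_pow₀ hc)) h2.le hρ0.le
          (by positivity)
      refine le_of_pow_le_pow_left₀ (n := 2 * k) (by omega) (by positivity) ?_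
      have h5 : (∏ l, K l) / ρ ^ 2 ≤ M ^ (2 * k) :=
        (le_max_right _ _).trans (le_self_pow₀ (le_max_left _ _) (by omega))
      rw [div_le_iff₀ (by positivity)] at h5
      have h6 := (pow_le_pow_left₀ (by positivity) h4 2).trans h3
      refine le_of_mul_le_mul_right ?_ (pow_pos hρ0 2)
      calc w ^ (2 * k) * ρ ^ 2 = (w ^ k * ρ) ^ 2 := by ring
        _ ≤ M ^ (2 * k) * ρ ^ 2 * N ^ (2 * k) := h6.trans (by gcongr)
        _ = _ := by rw [mul_pow, mul_right_comm]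
  choose! C hC hC' using key
  obtain ⟨ε, hε, hε'⟩ := exists_pos_le (Finset.univ.filter fun p : Fin 4 × Fin 4 => p.1 ≠ p.2)
    (fun p => (2 * C p.1 p.2)⁻¹) fun p hp => by
      have := hC _ _ (Finset.mem_filter.1 hp).2
      positivity
  obtain ⟨δ, hδ, hδ'⟩ := near_line hW (lt_min hr₀ hε)
  refine h.fat_of_four hZ B hBs hδ (Eventually.frequently (Eventually.of_forall ?_))
  intro n Y Y' hY hY' d1 d2 i j e1 e2
  by_contra hij
  obtain ⟨x, hx, ex⟩ := hδ' Y hY d1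
  obtain ⟨y, hy, ey⟩ := hδ' Y' hY' d2
  have nz : ∀ z : ℂ, Z + z • W ≠ 0 := fun z => ne_left (by rw [line_wedge hW z]; exact one_ne_zero)
  have h1 := hC' i j hij n x (ball_subset_ball (min_le_left _ _) hx) y
    (ball_subset_ball (min_le_left _ _) hy)
    (wedge_trans (h.nondeg.iter_ne n hY) (h.hom.wedge_iter n (wsymm ex) (nz x) hY) e1)
    (wedge_trans (h.nondeg.iter_ne n hY') (h.hom.wedge_iter n (wsymm ey) (nz y) hY') e2)
  have h2 := hε' (i, j) (Finset.mem_filter.2 ⟨Finset.mem_univ _, hij⟩)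
  have h3 := hC i j hij
  rw [mem_ball_zero_iff, lt_min_iff] at hx hy
  have h4 : ‖y - x‖ < 2 * (2 * C i j)⁻¹ := by linarith [norm_sub_le y x]
  have h5 : C i j * (2 * (2 * C i j)⁻¹) = 1 := by field_simp
  linarith [mul_lt_mul_of_pos_left h4 h3]

open Classical in
lemma not_fat_of_exp (h : Dyn d F G) {k : ℕ} {A : Fin (2 * k) → V ℂ} {c : ℂ} (hk : 0 < k)
    (hA : ∀ i, A i ≠ 0) (hm : ∀ i, (Finset.univ.filter fun j => wedge (A i) (A j) = 0).card < k)
    (e : ∀ Z, ∏ i, wedge (app F Z) (A i) = c * jac F Z ^ k * ∏ i, wedge Z (A i))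
    (hc0 : c * d ^ k ≠ 0) (hc : ‖c * d ^ k‖ < 1) {Z : V ℂ} (hZ : Z ≠ 0) : ¬ Fat G Z := by
  intro hf
  have hd : 0 < d := by have := h.two; omega
  obtain ⟨W, hW⟩ := exists_wedge_one hZ
  have nz : ∀ z : ℂ, Z + z • W ≠ 0 := fun z => ne_left (by rw [line_wedge hW z]; exact one_ne_zero)
  obtain ⟨X, hX, φ, hφ, hlim⟩ := (isCompact_sphere (0 : V ℂ) 1).tendsto_subseq
    (x := fun n => ((‖(app F)^[n] Z‖⁻¹ : ℝ) : ℂ) • (app F)^[n] Z) fun n => by
      rw [mem_sphere_zero_iff_norm, norm_smul, Complex.norm_real, norm_inv, norm_norm,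
        inv_mul_cancel₀ (norm_ne_zero_iff.2 (h.nondeg.iter_ne n hZ))]
  have hX0 : X ≠ 0 := by
    rintro rfl
    simp at hX
  obtain ⟨Y, hY⟩ := exists_wedge_one hX0
  set S := Finset.univ.filter fun l => wedge (A l) X = 0 with hS
  have hj : S.card < k := by
    rcases S.eq_empty_or_nonempty with h0 | ⟨i, hi⟩
    · rw [h0]; exact hk
    · refine lt_of_le_of_lt (Finset.card_le_card fun l hl => ?_) (hm i)
      simp only [hS, Finset.mem_filter, Finset.mem_univ, true_and] at hi hl ⊢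
      exact wedge_trans hX0 hi (wsymm hl)
  obtain ⟨κ, hκ, hκ'⟩ := exists_pos_le Finset.univ
    (fun l => if wedge (A l) X = 0 then ‖wedge (A l) Y‖ else ‖wedge X (A l)‖ / 2) fun l _ => by
      split_ifs with hl
      · exact norm_pos_iff.2 fun e' => hA l (eq_zero_of_two (by rw [hY]; exact one_ne_zero) hl e')
      · exact half_pos (norm_pos_iff.2 fun e' => hl (wsymm e'))
  have hU : {P : V ℂ | ‖wedge P X‖ < ‖wedge P Y‖ ∧
      ∀ l, wedge (A l) X ≠ 0 → κ * ‖wedge P Y‖ < ‖wedge P (A l)‖} ∈ 𝓝 X := by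
    refine inter_mem ((isOpen_lt (cont_wedge X).norm (cont_wedge Y).norm).mem_nhds
      (by simp [hY])) (eventually_all.2 fun l => ?_)
    by_cases hl : wedge (A l) X = 0
    · simp [hl]
    · refine mem_of_superset ((isOpen_lt (continuous_const.mul (cont_wedge Y).norm)
        (cont_wedge (A l)).norm).mem_nhds (show κ * ‖wedge X Y‖ < ‖wedge X (A l)‖ from ?_))
        fun P hP _ => hP
      have h1 := hκ' l (Finset.mem_univ l)
      have h2 : 0 < ‖wedge X (A l)‖ := norm_pos_iff.2 fun e' => hl (wsymm e')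
      rw [if_neg hl] at h1
      rw [hY, norm_one]
      linarith
  obtain ⟨δ₁, hδ₁, hδ₁'⟩ := exists_near hX0 hU
  have near : ∀ P, P ≠ 0 → dlt P X < δ₁ → ‖wedge P X‖ < ‖wedge P Y‖ ∧
      κ ^ (2 * k) * ‖wedge P X / wedge P Y‖ ^ S.card * ‖wedge P Y‖ ^ (2 * k) ≤
        ‖∏ l, wedge P (A l)‖ := by
    intro P hP hPX
    obtain ⟨t, ht, h1, h2⟩ := hδ₁' P hP hPX
    have ht' := norm_pos_iff.2 ht
    simp only [wedge_smul_left, norm_mul, mul_left_comm κ, mul_lt_mul_iff_right₀ ht'] at h1 h2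
    refine ⟨h1, ?_⟩
    have hPY : 0 < ‖wedge P Y‖ := (norm_nonneg _).trans_lt h1
    have e1 : κ ^ (2 * k) * ‖wedge P X / wedge P Y‖ ^ S.card * ‖wedge P Y‖ ^ (2 * k) =
        ∏ l, κ * (if wedge (A l) X = 0 then ‖wedge P X / wedge P Y‖ else 1) * ‖wedge P Y‖ := by
      simp only [Finset.prod_mul_distrib, Finset.prod_const, Finset.card_univ, Fintype.card_fin,
        Finset.prod_ite, one_pow, mul_one, hS]
    rw [e1, norm_prod]
    refine Finset.prod_le_prod (fun l _ => by split_ifs <;> positivity) fun l _ => ?_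
    have h3 := hκ' l (Finset.mem_univ l)
    split_ifs at h3 ⊢ with hl
    · obtain ⟨τ, hτ⟩ := (wedge_eq_zero_iff hX0).1 hl
      rw [hτ, wedge_smul_left, hY, mul_one] at h3
      rw [hτ, wedge_smul_right, norm_mul, norm_div, mul_assoc, div_mul_cancel₀ _ hPY.ne']
      gcongr
    · rw [mul_one]; exact (h2 l hl).le
  obtain ⟨δ₂, hδ₂, hδ₂'⟩ := h.equicont hZ hf (half_pos hδ₁)
  have hl : Continuous fun z : ℂ => Z + z • W := by fun_prop
  have c1 : ContinuousAt (fun z : ℂ => dlt (Z + z • W) Z) 0 :=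
    ContinuousAt.comp_of_eq (continuousAt_dlt hZ hZ) (f := fun z : ℂ => (Z + z • W, Z))
      (hl.prodMk continuous_const).continuousAt (by simp)
  have c2 : ContinuousAt (fun z : ℂ => ‖∏ i, wedge (Z + z • W) (A i)‖) 0 :=
    (continuous_finsetProd _ fun i _ => (cont_wedge (A i)).comp hl).norm.continuousAt
  set M := ‖∏ i, wedge Z (A i)‖ + 1 with hM
  have hM0 : 0 < M := by positivity
  obtain ⟨r, hr, hr'⟩ := Metric.eventually_nhds_iff_ball.1
    ((c1.eventually (gt_mem_nhds (show _ < δ₂ by simpa [dlt] using hδ₂))).and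
      (c2.eventually (gt_mem_nhds (show _ < M by simp [hM]))))
  obtain ⟨Λ, hΛ⟩ := dini hj 0 hr
  have ev1 : ∀ᶠ n in atTop, dlt ((app F)^[φ n] Z) X < δ₁ / 2 := by
    have h1 := (continuousAt_dlt hX0 hX0).tendsto.comp (hlim.prodMk_nhds tendsto_const_nhds)
    filter_upwards [h1.eventually (gt_mem_nhds (show _ < δ₁ / 2 by simpa [dlt] using hδ₁))]
      with n hn
    simp only [Function.comp] at hn
    rwa [dlt_smul_left (by simpa using h.nondeg.iter_ne (φ n) hZ)] at hn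
  have ev2 : ∀ᶠ n in atTop, Λ * M * ‖c * d ^ k‖ ^ φ n < κ ^ (2 * k) := by
    have h1 := (((tendsto_pow_atTop_nhds_zero_of_lt_one (norm_nonneg _) hc).comp
      hφ.tendsto_atTop).const_mul (Λ * M))
    exact h1.eventually (gt_mem_nhds (by rw [mul_zero]; positivity))
  obtain ⟨n, h1, h2⟩ := (ev1.and ev2).exists
  generalize φ n = m at h1 h2
  have hn : ∀ z ∈ ball (0 : ℂ) r, dlt ((app F)^[m] (Z + z • W)) X < δ₁ := fun z hz => by
    linarith [dlt_triangle (X := (app F)^[m] (Z + z • W)) (Y := X) (h.nondeg.iter_ne m hZ),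
      hδ₂' _ (nz z) (hr' z hz).1 m]
  have hb : ∀ z ∈ ball (0 : ℂ) r, wedge ((app F)^[m] (Z + z • W)) Y ≠ 0 := fun z hz =>
    norm_pos_iff.1 ((norm_nonneg _).trans_lt (near _ (h.nondeg.iter_ne m (nz z)) (hn z hz)).1)
  have hder := fun z (hz : z ∈ ball (0 : ℂ) r) => (hasDerivAt_wedge (diff_iter F m Z W z) X).div
    (hasDerivAt_wedge (diff_iter F m Z W z) Y) (hb z hz)
  have h0 := hΛ _ (fun z hz => (hder z hz).differentiableAt.differentiableWithinAt)
    (fun z hz => ?_) fun z hz => ?_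
  · obtain ⟨T, -, hT, hT'⟩ := exists_preimages hd h.hom h.nondeg m {X} (by simpa using hX0)
    have h3 : ∀ z : ball (0 : ℂ) r, ∃ t : T, wedge (Z + z.1 • W) t = 0 := fun z => by
      obtain ⟨t, ht, e1⟩ := hT' (Z + z.1 • W) ⟨X, Finset.mem_singleton_self _,
        (div_eq_zero_iff.1 (h0 z z.2)).resolve_right (hb z z.2)⟩
      exact ⟨⟨t, ht⟩, e1⟩
    choose g hg using h3
    have : Infinite (ball (0 : ℂ) r) := (infinite_of_mem_nhds 0 (ball_mem_nhds 0 hr)).to_subtype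
    obtain ⟨x, y, hxy, e1⟩ := Finite.exists_ne_map_eq_of_infinite g
    have e2 := wedge_trans (hT _ (g x).2) (hg x) (wsymm (e1 ▸ hg y))
    have e3 : wedge (Z + x.1 • W) (Z + y.1 • W) = (y.1 - x.1) * wedge Z W := by
      simp only [wedge, Pi.add_apply, Pi.smul_apply, smul_eq_mul]; ring
    rw [e3, hW, mul_one, sub_eq_zero] at e2
    exact hxy (Subtype.ext e2.symm)
  · have h3 := (near _ (h.nondeg.iter_ne m (nz z)) (hn z hz)).1
    rw [Pi.div_apply, norm_div]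
    exact (div_le_one ((norm_nonneg _).trans_lt h3)).2 h3.le
  · have h3 := (near _ (h.nondeg.iter_ne m (nz z)) (hn z hz)).2
    have h4 := (hr' z hz).2
    have h5 := norm_pos_iff.2 (hb z hz)
    rw [orb_iter h.hom e hW m z, norm_mul, norm_mul, norm_pow, norm_pow] at h3
    rw [(hder z hz).deriv, wronski, hY, mul_one, norm_div, norm_neg, norm_pow, div_pow,
      le_div_iff₀ (by positivity), Pi.div_apply, ← pow_mul]
    have h6 : 0 < M * ‖c * d ^ k‖ ^ m := mul_pos hM0 (pow_pos (norm_pos_iff.2 hc0) m)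
    refine le_of_mul_le_mul_left ?_ h6
    set P := (app F)^[m] (Z + z • W)
    set w := ‖wedge P (deriv (fun w : ℂ => (app F)^[m] (Z + w • W)) z)‖
    calc _ = Λ * M * ‖c * d ^ k‖ ^ m * ‖wedge P X / wedge P Y‖ ^ S.card *
          ‖wedge P Y‖ ^ (2 * k) := by ring
      _ ≤ κ ^ (2 * k) * ‖wedge P X / wedge P Y‖ ^ S.card * ‖wedge P Y‖ ^ (2 * k) := by gcongr
      _ ≤ ‖c * d ^ k‖ ^ m * w ^ k * M := h3.trans (by gcongr)
      _ = _ := by ring

end ThmBAux

open ThmBAux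

theorem fat_iff_of_rel (h : Dyn d F G) (h' : Dyn d F' G') {n m k : ℕ} (hr : Rel F F' n m k)
    {Z : V ℂ} (hZ : Z ≠ 0) : Fat G Z ↔ Fat G' Z :=
  ⟨fat_of_rel h h' hr hZ, fat_of_rel h' h
    ⟨hr.1, fun Z hZ => (hr.2 Z hZ).imp fun _ e => ⟨e.1, e.2.2, e.2.1⟩⟩ hZ⟩

theorem not_fat_of_orb (h : Dyn d F G) {k : ℕ} (ho : Orb F k) {Z : V ℂ} (hZ : Z ≠ 0) :
    ¬ Fat G Z := by
  classical
  obtain ⟨hk, A, c, hc, hA, hm, e⟩ := ho
  have hd : (d : ℂ) ≠ 0 := by
    have := h.two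
    exact_mod_cast (by omega : d ≠ 0)
  rcases lt_or_ge ‖c * d ^ k‖ 1 with h1 | h1
  · exact not_fat_of_exp h hk hA hm e (mul_ne_zero hc (pow_ne_zero k hd)) h1 hZ
  · obtain ⟨Y, hY, hJ, hS⟩ := h.jul_infinite (Finset.univ.image A) (by
      intro s hs
      obtain ⟨i, -, rfl⟩ := Finset.mem_image.1 hs
      exact hA i)
    exact absurd (fat_of_contr h hk e h1 hY fun i =>
      hS _ (Finset.mem_image_of_mem _ (Finset.mem_univ i))) hJ

theorem const_of_pow (h : Dyn d F G) (h' : Dyn d F' G') {A B X : V ℂ} (hAB : wedge A B ≠ 0)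
    (hp : PowAt d F A B) (hp' : PowAt d F' A B) (hA : wedge X A ≠ 0) (hB : wedge X B ≠ 0)
    (hX : Preper F X) (hX' : Preper F' X) : ∃ c : ℝ, ∀ Z, Z ≠ 0 → G' Z = G Z + c := by
  obtain ⟨c, hc⟩ := pow_esc h hAB hp hA hB hX
  obtain ⟨c', hc'⟩ := pow_esc h' hAB hp' hA hB hX'
  exact ⟨c' - c, fun Z hZ => by rw [hc Z hZ, hc' Z hZ]; ring⟩

theorem const_of_cheb (h : Dyn d F G) (h' : Dyn d F' G') (hc : Cheb F F') :
    ∃ c : ℝ, ∀ Z, Z ≠ 0 → G' Z = G Z + c := by
  obtain ⟨A, B, E, hAB, hAE, hBE, h1, h2⟩ := hc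
  obtain ⟨M, hM, e0, e1, e2⟩ := exists_frame (fun e => hAE (wsymm e)) (fun e => hBE (wsymm e)) hAB
  have hA := ne_left hAB
  have hB := ne_right hAB
  have hE := ne_right hAE
  obtain ⟨c, hc⟩ := cheb_std (h.conj hM) (h'.conj hM) (cheb_conj hA hB hE h1 hM e0 e1 e2)
    (cheb_conj hA hB hE h2 hM e0 e1 e2)
  refine ⟨c, fun Z hZ => ?_⟩
  have e : M.mulVec (M.adjugate.mulVec Z) = Z := by
    rw [Matrix.mulVec_mulVec, Matrix.mul_adjugate, hM, one_smul, Matrix.one_mulVec]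
  have := hc (M.adjugate.mulVec Z) (by
    rintro h0
    rw [h0, Matrix.mulVec_zero] at e
    exact hZ e.symm)
  simpa only [e] using this

theorem fat_iff_of_cond (h : Dyn d F G) (h' : Dyn d F' G') {N : ℕ} (hc : Cond d N F F')
    (h0 : Preper F ![1, 0] ∧ Preper F' ![1, 0]) (h1 : Preper F ![0, 1] ∧ Preper F' ![0, 1])
    (h2 : Preper F ![1, 1] ∧ Preper F' ![1, 1]) {Z : V ℂ} (hZ : Z ≠ 0) :
    Fat G Z ↔ Fat G' Z := by
  have key : (∃ c : ℝ, ∀ Z, Z ≠ 0 → G' Z = G Z + c) → (Fat G Z ↔ Fat G' Z) := fun ⟨c, hc⟩ =>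
    ⟨fun hf => hf.congr hZ hc, fun hf => hf.congr hZ (c := -c) fun W hW => by rw [hc W hW]; ring⟩
  rcases hc with ⟨n, -, m, -, k, -, hr⟩ | ⟨k, -, l, -, ho, ho'⟩ | ⟨A, B, hAB, hp, hp'⟩ | hc
  · exact fat_iff_of_rel h h' hr hZ
  · exact iff_of_false (not_fat_of_orb h ho hZ) (not_fat_of_orb h' ho' hZ)
  · have hA := ne_left hAB
    have hB := ne_right hAB
    have pick : ∀ X, Preper F X ∧ Preper F' X → ¬ (wedge X A = 0 ∨ wedge X B = 0) →
        (Fat G Z ↔ Fat G' Z) := fun X hX hn => key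
      (const_of_pow h h' hAB hp hp' (fun e => hn (Or.inl e)) (fun e => hn (Or.inr e)) hX.1 hX.2)
    by_contra hn
    have two : ∀ {X Y C : V ℂ}, C ≠ 0 → wedge X C = 0 → wedge Y C = 0 → wedge X Y = 0 :=
      fun hC a b => wedge_trans hC a (wsymm b)
    rcases not_not.1 (mt (pick _ h0) hn) with a | a <;>
    rcases not_not.1 (mt (pick _ h1) hn) with b | b <;>
    rcases not_not.1 (mt (pick _ h2) hn) with c | c <;>
    first
      | simpa [wedge] using two hA a b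
      | simpa [wedge] using two hA a c
      | simpa [wedge] using two hA b c
      | simpa [wedge] using two hB a b
      | simpa [wedge] using two hB a c
      | simpa [wedge] using two hB b c
  · exact key (const_of_cheb h h' hc)

end Pool.Agent.MP_3827f0_nt.H92
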