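import Pool.Agent.MP_3827f0_nt.H92.ThmA
import Pool.Agent.MP_3827f0_nt.H92.ThmB

/-! The uniform bound on common preperiodic points. -/

set_option autoImplicit false

namespace Pool.Agent.MP_3827f0_nt.H92

open Filter Cardinal Topology MvPolynomial

/-- A normalized pair with i common preperiodic points that fails the conditions of level i. -/
structure Bad {K : Type} [Field K] (d i : ℕ) (F G : PM K) (X : ℕ → V K) : Prop where
  nF : Normal d F
  nG : Normal d G
  x00 : X 0 0 = 1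
  x01 : X 0 1 = 0
  x10 : X 1 0 = 0
  x20 : X 2 0 = 1
  aff : ∀ j, j < i → 1 ≤ j → X j 1 = 1
  sep : ∀ j, j < i → ∀ k, k < i → j ≠ k → wedge (X j) (X k) ≠ 0
  pre : ∀ j, j < i → Preper F (X j) ∧ Preper G (X j)
  nc : ¬ Cond d i F G

namespace MainAux

section
variable {K : Type} [Field K] {d : ℕ} {F : PM K}

lemma preper_smul (hF : Hom d F) {X : V K} (h : Preper F X) (t : K) : Preper F (t • X) := by
  obtain ⟨m, n, hmn, h⟩ := h
  refine ⟨m, n, hmn, ?_⟩
  rw [hF.iter_smul, hF.iter_smul, wedge_smul_left, wedge_smul_right, h, mul_zero, mul_zero]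

lemma iter_smulF (hF : Hom d F) (c : K) (n : ℕ) (X : V K) :
    ∃ s : K, (app (c • F))^[n] X = s • (app F)^[n] X := by
  induction n with
  | zero => exact ⟨1, by simp⟩
  | succ n ih =>
    obtain ⟨s, hs⟩ := ih
    refine ⟨c * s ^ d, ?_⟩
    rw [Function.iterate_succ_apply', Function.iterate_succ_apply', hs, app_smulF, hF.app_smul,
      smul_smul]

lemma preper_smulF (hF : Hom d F) {X : V K} (h : Preper F X) (c : K) : Preper (c • F) X := by
  obtain ⟨m, n, hmn, h⟩ := h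
  refine ⟨m, n, hmn, ?_⟩
  obtain ⟨s, hs⟩ := iter_smulF hF c m X
  obtain ⟨t, ht⟩ := iter_smulF hF c n X
  rw [hs, ht, wedge_smul_left, wedge_smul_right, h, mul_zero, mul_zero]

lemma preper_conj {M : Mat K} (hM : M.det = 1) {X : V K} (h : Preper F (M.mulVec X)) :
    Preper (conj M F) X := by
  obtain ⟨m, n, hmn, h⟩ := h
  refine ⟨m, n, hmn, ?_⟩
  rw [← mulVec_iter_conj hM, ← mulVec_iter_conj hM, wedge_mulVec, hM, one_mul] at h
  exact h

lemma mul_adj {M : Mat K} (hM : M.det = 1) (Z : V K) : M.mulVec (M.adjugate.mulVec Z) = Z := by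
  rw [Matrix.mulVec_mulVec, Matrix.mul_adjugate, hM, one_smul, Matrix.one_mulVec]

lemma rep_zero {X : V (UP K)} {Xs : ℕ → V K} (h : RepV X Xs) {i : Fin 2} (h0 : X i = 0) :
    ∀ᶠ l in uf, Xs l i = 0 := by
  rw [h i] at h0
  exact Germ.coe_eq.1 (h0.trans Germ.coe_zero.symm)

lemma rep_one {X : V (UP K)} {Xs : ℕ → V K} (h : RepV X Xs) {i : Fin 2} (h0 : X i = 1) :
    ∀ᶠ l in uf, Xs l i = 1 := by
  rw [h i] at h0
  exact Germ.coe_eq.1 (h0.trans Germ.coe_one.symm)

end

/-- Specialization from the complex numbers to algebraic numbers. -/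
lemma specialize {d i : ℕ} (hd : 0 < d) {F G : PM ℂ} {X : ℕ → V ℂ} (h : Bad d i F G X) :
    ∃ (F' G' : PM (AlgebraicClosure ℚ)) (X' : ℕ → V (AlgebraicClosure ℚ)), Bad d i F' G' X' := by
  have : Countable (AlgebraicClosure ℚ) := by
    rw [← Cardinal.mk_le_aleph0_iff]
    exact (@Algebra.IsAlgebraic.cardinalMk_le_max ℚ _ _ (AlgebraicClosure ℚ) _ _
      (AlgebraicClosure.instAlgebra ℚ) inferInstance (AlgebraicClosure.isAlgebraic ℚ)).trans
      (by simp)
  have := isAlgClosed_up (AlgebraicClosure ℚ)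
  have := charZero_up (AlgebraicClosure ℚ)
  have hT := card_up (AlgebraicClosure ℚ)
  obtain ⟨j, -⟩ := exists_emb (Rat.castHom ℂ) (Rat.castHom (UP (AlgebraicClosure ℚ)))
    (by rw [hT, Cardinal.mk_complex]) (by rw [hT]; exact aleph0_lt_continuum)
  have nF := h.nF.mapF hd j
  have nG := h.nG.mapF hd j
  have hnc : ¬ Cond d i (mapF j F) (mapF j G) := by
    intro hc
    set S : Set ℂ := Set.range fun p : Bool × Fin 2 × (Fin 2 →₀ ℕ) =>
      coeff p.2.2 ((if p.1 then F else G) p.2.1) with hS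
    have : Countable (Subfield.closure S) := by
      rw [← Cardinal.mk_le_aleph0_iff]
      refine (Subfield.cardinalMk_closure_le_max S).trans (max_le ?_ le_rfl)
      rw [Cardinal.mk_le_aleph0_iff]
      exact (Set.countable_range _).to_subtype
    obtain ⟨j', hj'⟩ := exists_emb (j.comp (Subfield.closure S).subtype)
      (Subfield.closure S).subtype (by rw [hT, Cardinal.mk_complex])
      (by rw [Cardinal.mk_complex]; exact aleph0_lt_continuum)
    have key : ∀ b : Bool, mapF j' (mapF j (if b then F else G)) = if b then F else G := by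
      intro b
      funext k
      ext m
      simp only [mapF, coeff_map]
      exact hj' ⟨_, Subfield.subset_closure ⟨(b, k, m), rfl⟩⟩
    have h1 := key true
    have h2 := key false
    simp only [if_true, Bool.false_eq_true, if_false] at h1 h2
    have := hc.mapF hd nF nG j'
    rw [h1, h2] at this
    exact h.nc this
  obtain ⟨Fs, rF, hFs⟩ := exists_repF nF.1
  obtain ⟨Gs, rG, hGs⟩ := exists_repF nG.1
  choose Xs hXs using fun k => exists_repV (mapV j (X k))
  have e1 := (rF.normal_iff hd hFs).1 nF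
  have e2 := (rG.normal_iff hd hGs).1 nG
  have e3 := rep_one (hXs 0) (i := 0) (by simp [mapV, h.x00])
  have e4 := rep_zero (hXs 0) (i := 1) (by simp [mapV, h.x01])
  have e5 := rep_zero (hXs 1) (i := 0) (by simp [mapV, h.x10])
  have e6 := rep_one (hXs 2) (i := 0) (by simp [mapV, h.x20])
  have e7 : ∀ᶠ l in uf, ∀ k ∈ Finset.range i, 1 ≤ k → Xs k l 1 = 1 := by
    rw [eventually_all_finset]
    intro k hk
    by_cases h1 : 1 ≤ k
    · exact (rep_one (hXs k) (i := 1)
        (by simp [mapV, h.aff k (Finset.mem_range.1 hk) h1])).mono fun l hl _ => hl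
    · exact Eventually.of_forall fun l hl => absurd hl h1
  have e8 : ∀ᶠ l in uf, ∀ k ∈ Finset.range i, ∀ k' ∈ Finset.range i, k ≠ k' →
      wedge (Xs k l) (Xs k' l) ≠ 0 := by
    rw [eventually_all_finset]
    intro k hk
    rw [eventually_all_finset]
    intro k' hk'
    by_cases hkk : k = k'
    · exact Eventually.of_forall fun l hl => absurd hkk hl
    · have h0 : wedge (mapV j (X k)) (mapV j (X k')) ≠ 0 := by
        rw [wedge_mapV]
        exact (map_ne_zero j).2 (h.sep k (Finset.mem_range.1 hk) k' (Finset.mem_range.1 hk') hkk)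
      rw [(hXs k).wedge (hXs k')] at h0
      have h1 : ¬ ∀ᶠ l in uf, wedge (Xs k l) (Xs k' l) = 0 := fun h2 =>
        h0 ((Germ.coe_eq.2 h2).trans Germ.coe_zero)
      exact (Ultrafilter.eventually_not.2 h1).mono fun l hl _ => hl
  have e9 : ∀ᶠ l in uf, ∀ k ∈ Finset.range i,
      Preper (Fs l) (Xs k l) ∧ Preper (Gs l) (Xs k l) := by
    rw [eventually_all_finset]
    intro k hk
    obtain ⟨p1, p2⟩ := h.pre k (Finset.mem_range.1 hk)
    exact (rF.preper hFs (hXs k) (p1.mapF j)).and (rG.preper hGs (hXs k) (p2.mapF j))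
  have e10 : ∀ᶠ l in uf, ¬ Cond d i (Fs l) (Gs l) :=
    Ultrafilter.eventually_not.2 fun h2 => hnc ((rF.cond_iff hFs rG hGs i).2 h2)
  obtain ⟨l, ⟨⟨⟨⟨⟨⟨⟨⟨⟨a1, a2⟩, a3⟩, a4⟩, a5⟩, a6⟩, a7⟩, a8⟩, a9⟩, a10⟩⟩ :=
    (((((((((e1.and e2).and e3).and e4).and e5).and e6).and e7).and e8).and e9).and e10).exists
  exact ⟨Fs l, Gs l, fun k => Xs k l, a1, a2, a3, a4, a5, a6,
    fun k hk => a7 k (Finset.mem_range.2 hk),
    fun k hk k' hk' => a8 k (Finset.mem_range.2 hk) k' (Finset.mem_range.2 hk'),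
    fun k hk => a9 k (Finset.mem_range.2 hk), a10⟩

lemma vec_eq {K : Type} {X : V K} {a b : K} (h0 : X 0 = a) (h1 : X 1 = b) : X = ![a, b] := by
  funext i
  fin_cases i
  · exact h0
  · exact h1

/-- There is a level without bad pairs over the algebraic numbers. -/
lemma no_bad {d : ℕ} (hd : 2 ≤ d) : ∃ l : ℕ, ∀ (F G : PM (AlgebraicClosure ℚ))
    (X : ℕ → V (AlgebraicClosure ℚ)), ¬ Bad d (l + 3) F G X := by
  by_contra hc
  push Not at hc
  choose Fs Gs Xs hb using hc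
  have hev : ∀ n : ℕ, ∀ᶠ l in uf, n ≤ l := fun n =>
    (Nat.hyperfilter_le_atTop) (eventually_ge_atTop n)
  obtain ⟨N, hN⟩ := cond_seq hd Fs Gs (fun l => (hb l).nF) (fun l => (hb l).nG)
    (fun j l => if j < l + 3 then Xs l j else ![0, 1])
    (fun l => by rw [if_pos (by omega)]; exact vec_eq (hb l).x00 (hb l).x01)
    (fun l => by rw [if_pos (by omega)]; exact vec_eq (hb l).x10 ((hb l).aff 1 (by omega) le_rfl))
    (fun l => by
      rw [if_pos (by omega)]; exact vec_eq (hb l).x20 ((hb l).aff 2 (by omega) (by omega)))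
    (fun j l hj => by
      by_cases h : j < l + 3
      · simp only [if_pos h]; exact (hb l).aff j h hj
      · simp [if_neg h])
    (fun j k hjk => ((hev j).and (hev k)).mono fun l hl => by
      have h1 : j < l + 3 := by omega
      have h2 : k < l + 3 := by omega
      simp only [if_pos h1, if_pos h2]
      exact (hb l).sep j h1 k h2 hjk)
    (fun j => (hev j).mono fun l hl => by
      have h1 : j < l + 3 := by omega
      simp only [if_pos h1]
      exact (hb l).pre j h1)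
  obtain ⟨l, h1, h2⟩ := (hN.and (hev N)).exists
  exact (hb l).nc (h1.mono (by omega))

/-- Normalization of a pair with many common preperiodic points. -/
lemma bad_of {d i : ℕ} (hi : 3 ≤ i) {F F' : PM ℂ} {G G' : V ℂ → ℝ} (h : Dyn d F G)
    (h' : Dyn d F' G') (hne : ∃ Z, Z ≠ 0 ∧ ¬ (Fat G Z ↔ Fat G' Z)) (W : ℕ → V ℂ)
    (hsep : ∀ j, j < i → ∀ k, k < i → j ≠ k → wedge (W j) (W k) ≠ 0)
    (hpre : ∀ j, j < i → Preper F (W j) ∧ Preper F' (W j)) :
    ∃ (F₁ G₁ : PM ℂ) (X : ℕ → V ℂ), Bad d i F₁ G₁ X := by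
  have hd : 0 < d := by have := h.two; omega
  obtain ⟨M, hM, m0, m1, m2⟩ := exists_frame (hsep 0 (by omega) 1 (by omega) (by omega))
    (hsep 0 (by omega) 2 (by omega) (by omega)) (hsep 1 (by omega) 2 (by omega) (by omega))
  have hM0 : M.det ≠ 0 := by rw [hM]; exact one_ne_zero
  have hw : ∀ X Y, wedge (M.mulVec X) (M.mulVec Y) = wedge X Y := fun X Y => by
    rw [wedge_mulVec, hM, one_mul]
  have hc := h.conj hM
  have hc' := h'.conj hM
  obtain ⟨c, c0, nc⟩ := exists_normal hd hc.hom hc.nondeg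
  obtain ⟨c', c0', nc'⟩ := exists_normal hd hc'.hom hc'.nondeg
  set U : ℕ → V ℂ := fun j => M.adjugate.mulVec (W j) with hU
  have hMU : ∀ j, M.mulVec (U j) = W j := fun j => mul_adj hM _
  have hUs : ∀ j, j < i → ∀ k, k < i → j ≠ k → wedge (U j) (U k) ≠ 0 := fun j hj k hk hjk => by
    rw [← hw, hMU, hMU]; exact hsep j hj k hk hjk
  have u0 : U 0 1 = 0 := by
    rw [← hMU, hw] at m0
    simpa [wedge] using m0
  have u1 : U 1 0 = 0 := by
    rw [← hMU, hw] at m1
    simpa [wedge] using m1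
  have u2 : U 2 1 = U 2 0 := by
    rw [← hMU, hw] at m2
    simpa [wedge, sub_eq_zero] using m2
  have hU1 : ∀ j, j < i → 1 ≤ j → U j 1 ≠ 0 := fun j hj h1 h0 => by
    apply hUs j hj 0 (by omega) (by omega)
    simp [wedge, u0, h0]
  have hU0 : U 0 0 ≠ 0 := fun h0 => by
    apply hUs 0 (by omega) 1 (by omega) (by omega)
    simp [wedge, u0, h0]
  set t : ℕ → ℂ := fun j => if j = 0 then (U 0 0)⁻¹ else (U j 1)⁻¹ with ht
  have ht0 : ∀ j, j < i → t j ≠ 0 := fun j hj => by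
    simp only [ht]
    split_ifs with h0
    · exact inv_ne_zero hU0
    · exact inv_ne_zero (hU1 j hj (by omega))
  have x00 : (t 0 • U 0) 0 = 1 := by simp [ht, hU0]
  have x01 : (t 0 • U 0) 1 = 0 := by simp [u0]
  have x10 : (t 1 • U 1) 0 = 0 := by simp [u1]
  have x20 : (t 2 • U 2) 0 = 1 := by
    have := hU1 2 (by omega) (by omega)
    simp [ht, ← u2, this]
  have aff : ∀ j, j < i → 1 ≤ j → (t j • U j) 1 = 1 := fun j hj h1 => by
    have := hU1 j hj h1
    have h2 : j ≠ 0 := by omega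
    simp [ht, h2, this]
  have pre : ∀ j, j < i → Preper (c • conj M F) (t j • U j) ∧
      Preper (c' • conj M F') (t j • U j) := fun j hj => by
    obtain ⟨p1, p2⟩ := hpre j hj
    rw [← hMU] at p1 p2
    exact ⟨preper_smulF hc.hom (preper_smul hc.hom (preper_conj hM p1) _) _,
      preper_smulF hc'.hom (preper_smul hc'.hom (preper_conj hM p2) _) _⟩
  refine ⟨c • conj M F, c' • conj M F', fun j => t j • U j, nc, nc', x00, x01, x10, x20, aff,
    fun j hj k hk hjk => ?_, pre, fun hcond => ?_⟩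
  · rw [wedge_smul_left, wedge_smul_right]
    exact mul_ne_zero (ht0 j hj) (mul_ne_zero (ht0 k hk) (hUs j hj k hk hjk))
  · obtain ⟨Z, hZ, hn⟩ := hne
    apply hn
    have q0 := pre 0 (by omega)
    have q1 := pre 1 (by omega)
    have q2 := pre 2 (by omega)
    rw [vec_eq x00 x01] at q0
    rw [vec_eq x10 (aff 1 (by omega) le_rfl)] at q1
    rw [vec_eq x20 (aff 2 (by omega) (by omega))] at q2
    have hZ' : M.adjugate.mulVec Z ≠ 0 := by
      intro h0
      apply hZ
      rw [← mul_adj hM Z, h0, Matrix.mulVec_zero]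
    have key := fat_iff_of_cond (hc.smul c0) (hc'.smul c0') hcond q0 q1 q2 hZ'
    have conv : ∀ (H : V ℂ → ℝ) (k : ℝ), Fat (fun Y => H (M.mulVec Y) + k)
        (M.adjugate.mulVec Z) ↔ Fat H Z := fun H k => by
      constructor
      · intro hf
        have h1 := hf.mulVec
        exact h1.congr hZ (c := -k) fun Y _ => by simp only [mul_adj hM]; ring
      · intro hf
        rw [← mul_adj hM Z] at hf
        exact hf.mulVec.congr hZ' (c := k) fun Y _ => rfl
    rw [conv, conv] at key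
    exact key

lemma iter_pt {F : PM ℂ} (hN : Nondeg F) {f : OnePoint ℂ → OnePoint ℂ}
    (hf : ∀ W, W ≠ 0 → f (pt W) = pt (app F W)) (n : ℕ) {W : V ℂ} (hW : W ≠ 0) :
    f^[n] (pt W) = pt ((app F)^[n] W) := by
  induction n with
  | zero => rfl
  | succ n ih =>
    rw [Function.iterate_succ_apply', Function.iterate_succ_apply', ih, hf _ (hN.iter_ne n hW)]

lemma preper_of {F : PM ℂ} (hN : Nondeg F) {f : OnePoint ℂ → OnePoint ℂ}
    (hf : ∀ W, W ≠ 0 → f (pt W) = pt (app F W)) {W : V ℂ} (hW : W ≠ 0)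
    (h : ∃ m n : ℕ, m < n ∧ f^[m] (pt W) = f^[n] (pt W)) : Preper F W := by
  obtain ⟨m, n, hmn, h⟩ := h
  rw [iter_pt hN hf m hW, iter_pt hN hf n hW,
    pt_eq_iff (hN.iter_ne m hW) (hN.iter_ne n hW)] at h
  exact ⟨m, n, hmn, h⟩

end MainAux

open MainAux in
/-- The uniform bound for maps given by homogeneous lifts. -/
theorem uniform_bound {d : ℕ} (hd : 2 ≤ d) : ∃ B : ℕ, ∀ (f g : OnePoint ℂ → OnePoint ℂ)
    (F F' : PM ℂ), Hom d F → Nondeg F → (∀ W, W ≠ 0 → f (pt W) = pt (app F W)) →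
    Hom d F' → Nondeg F' → (∀ W, W ≠ 0 → g (pt W) = pt (app F' W)) →
    {z : OnePoint ℂ | ∀ U ∈ 𝓝 z, (⋃ n : ℕ, f^[n] '' U)ᶜ.Finite} ≠
      {z : OnePoint ℂ | ∀ U ∈ 𝓝 z, (⋃ n : ℕ, g^[n] '' U)ᶜ.Finite} →
    ({z : OnePoint ℂ | ∃ m n : ℕ, m < n ∧ f^[m] z = f^[n] z} ∩
      {z : OnePoint ℂ | ∃ m n : ℕ, m < n ∧ g^[m] z = g^[n] z}).encard ≤ (B : ℕ∞) := by
  obtain ⟨l, hl⟩ := no_bad hd
  refine ⟨l + 3, fun f g F F' hF hN hf hF' hN' hg hne => ?_⟩
  by_contra hc
  have hle := (not_le.1 hc).le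
  rw [← Finset.card_range (l + 3), ← Set.encard_coe_eq_coe_finsetCard] at hle
  obtain ⟨p, hp, hinj⟩ := (Finset.finite_toSet _).exists_injOn_of_encard_le hle
  choose W hW0 hW using fun j => pt_surj (p j)
  obtain ⟨G, h⟩ := exists_dyn place_nv_complex hd hF hN
  obtain ⟨G', h'⟩ := exists_dyn place_nv_complex hd hF' hN'
  have hne' : ∃ Z, Z ≠ 0 ∧ ¬ (Fat G Z ↔ Fat G' Z) := by
    by_contra h0
    push Not at h0
    apply hne
    ext z
    obtain ⟨Z, hZ, rfl⟩ := pt_surj z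
    simp only [Set.mem_ofPred_eq]
    rw [h.blowup_iff hf hZ, h'.blowup_iff hg hZ, h0 Z hZ]
  have hmem : ∀ j, j < l + 3 → j ∈ ((Finset.range (l + 3) : Finset ℕ) : Set ℕ) := fun j hj =>
    Finset.mem_coe.2 (Finset.mem_range.2 hj)
  obtain ⟨F₁, G₁, X, hb⟩ := bad_of (i := l + 3) (by omega) h h' hne' W
    (fun j hj k hk hjk h0 => hjk (hinj (hmem j hj) (hmem k hk)
      (by rw [← hW, ← hW]; exact (pt_eq_iff (hW0 j) (hW0 k)).2 h0)))
    (fun j hj => by
      have := hp (hmem j hj)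
      rw [Set.mem_preimage, ← hW] at this
      exact ⟨preper_of hN hf (hW0 j) this.1, preper_of hN' hg (hW0 j) this.2⟩)
  obtain ⟨F₂, G₂, X₂, hb₂⟩ := specialize (by omega) hb
  exact hl _ _ _ hb₂

lemma exists_hom_lift {d : ℕ} {f : OnePoint ℂ → OnePoint ℂ}
    (h : ∃ P Q : MvPolynomial (Fin 2) ℂ, P.IsHomogeneous d ∧ Q.IsHomogeneous d ∧
      (∀ x y : ℂ, MvPolynomial.eval ![x, y] P = 0 → MvPolynomial.eval ![x, y] Q = 0 →
        x = 0 ∧ y = 0) ∧
      ∀ x y : ℂ, (x ≠ 0 ∨ y ≠ 0) →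
        f (pt ![x, y]) = pt ![MvPolynomial.eval ![x, y] P, MvPolynomial.eval ![x, y] Q]) :
    ∃ F : PM ℂ, Hom d F ∧ Nondeg F ∧ ∀ W, W ≠ 0 → f (pt W) = pt (app F W) := by
  obtain ⟨P, Q, hP, hQ, hN, hf⟩ := h
  have hW : ∀ W : V ℂ, W = ![W 0, W 1] := fun W => MainAux.vec_eq rfl rfl
  have happ : ∀ W : V ℂ, app ![P, Q] W = ![eval W P, eval W Q] := fun W =>
    MainAux.vec_eq rfl rfl
  refine ⟨![P, Q], fun i => ?_, fun Z hZ => ?_, fun W hW0 => ?_⟩
  · fin_cases i
    · exact hP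
    · exact hQ
  · have h0 : eval Z P = 0 := congrFun hZ 0
    have h1 : eval Z Q = 0 := congrFun hZ 1
    rw [hW Z] at h0 h1
    obtain ⟨a, b⟩ := hN _ _ h0 h1
    rw [hW Z, a, b]
    funext i
    fin_cases i <;> rfl
  · have := hf (W 0) (W 1) (vec_ne_zero_iff.1 hW0)
    rw [← hW W] at this
    rw [this, happ]

end Pool.Agent.MP_3827f0_nt.H92
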