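import Pool.Agent.MP_3827f0_nt.H92.MultA

/-! Orbifold weights, totally invariant finite sets and postcritical sets. -/

set_option autoImplicit false

namespace Pool.Agent.MP_3827f0_nt.H92

open MvPolynomial Classical

variable {K : Type} [Field K] {φ ψ : V K → K} {X Y : V K} {d : ℕ} {F : PM K}

namespace MultB

lemma eq_of_sep {S : Finset (V K)} (hsep : ∀ s ∈ S, ∀ t ∈ S, s ≠ t → wedge s t ≠ 0) (hX : X ≠ 0)
    {s t : V K} (hs : s ∈ S) (ht : t ∈ S) (h : wedge s X = 0) (h' : wedge t X = 0) : s = t := by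
  by_contra hne
  exact hsep s hs t ht hne (wedge_trans hX h (wedge_symm h'))

lemma mult_weights (S : Finset (V K)) (hS : ∀ s ∈ S, s ≠ 0)
    (hsep : ∀ s ∈ S, ∀ t ∈ S, s ≠ t → wedge s t ≠ 0) (w : V K → ℕ)
    (hw : ∀ X Y, X ≠ 0 → Y ≠ 0 → wedge X Y = 0 → w X = w Y)
    (hw0 : ∀ X, X ≠ 0 → (∀ s ∈ S, wedge X s ≠ 0) → w X = 0) (hX : X ≠ 0) :
    Mult (fun Z => ∏ s ∈ S, wedge Z s ^ w s) X (w X) := by
  have h := mult_prod S (fun s => s) w hS hX
  have e : ∑ s ∈ S.filter (fun s => wedge s X = 0), w s = w X := by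
    by_cases hex : ∃ s ∈ S, wedge s X = 0
    · obtain ⟨s, hs, h0⟩ := hex
      rw [Finset.sum_eq_single_of_mem s (Finset.mem_filter.2 ⟨hs, h0⟩), hw s X (hS s hs) hX h0]
      intro t ht hne
      exact absurd (eq_of_sep hsep hX (Finset.mem_filter.1 ht).1 hs (Finset.mem_filter.1 ht).2 h0)
        hne
    · push Not at hex
      rw [Finset.filter_false_of_mem hex, Finset.sum_empty,
        hw0 X hX fun s hs => wedge_ne_symm (hex s hs)]
  rwa [e] at h

lemma isForm_weights (S : Finset (V K)) (w : V K → ℕ) :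
    IsForm (∑ s ∈ S, w s) fun Z => ∏ s ∈ S, wedge Z s ^ w s :=
  IsForm.prod S fun s _ => by simpa using (IsForm.wedge s).pow (w s)

lemma exists_weights [IsAlgClosed K] {n : ℕ} (h : IsForm n φ) (h0 : ∃ Z, φ Z ≠ 0) :
    ∃ w : V K → ℕ, ∀ X, X ≠ 0 → Mult φ X (w X) := by
  refine ⟨fun X => if hX : X ≠ 0 then (h.exists_mult h0 hX).choose else 0, fun X hX => ?_⟩
  simp only [dif_pos hX]
  exact (h.exists_mult h0 hX).choose_spec.2

/-- A form is the product of the linear forms of its roots. -/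
lemma factor_over [IsAlgClosed K] {n : ℕ} (h : IsForm n φ) (h0 : ∃ Z, φ Z ≠ 0)
    (S : Finset (V K)) (hS : ∀ s ∈ S, s ≠ 0) (hsep : ∀ s ∈ S, ∀ t ∈ S, s ≠ t → wedge s t ≠ 0)
    (hr : ∀ Z, Z ≠ 0 → φ Z = 0 → ∃ s ∈ S, wedge Z s = 0) (w : V K → ℕ)
    (hw : ∀ X, X ≠ 0 → Mult φ X (w X)) :
    n = ∑ s ∈ S, w s ∧ ∃ c : K, c ≠ 0 ∧ ∀ Z, φ Z = c * ∏ s ∈ S, wedge Z s ^ w s := by
  have hm : ∀ X, X ≠ 0 → Mult (fun Z => ∏ s ∈ S, wedge Z s ^ w s) X (w X) := fun X hX =>
    mult_weights S hS hsep w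
      (fun X Y hX hY hXY => ((hw X hX).of_wedge hX hY hXY).unique hY (hw Y hY))
      (fun X hX hs => (hw X hX).unique hX (h.mult_zero fun h1 => by
        obtain ⟨s, h2, h3⟩ := hr X hX h1
        exact hs s h2 h3)) hX
  exact eq_of_mult h (isForm_weights S w) h0 ((hm _ (aff_ne_zero 0)).exists_ne (aff_ne_zero 0))
    fun X hX a b ha hb => (ha.unique hX (hw X hX)).trans ((hm X hX).unique hX hb)

lemma backward [IsAlgClosed K] (hd : 0 < d) (hF : Hom d F) (hN : Nondeg F)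
    (E : Finset (V K)) (hE : ∀ e ∈ E, e ≠ 0) (hsep : ∀ s ∈ E, ∀ t ∈ E, s ≠ t → wedge s t ≠ 0)
    (hb : ∀ Z, Z ≠ 0 → ∀ e ∈ E, wedge (app F Z) e = 0 → ∃ e' ∈ E, wedge Z e' = 0) :
    (∀ e ∈ E, Ram F e d ∧ ∃ e' ∈ E, wedge (app F e) e' = 0) ∧ ∃ c : K, c ≠ 0 ∧
      ∀ Z, ∏ e ∈ E, wedge (app F Z) e = c * (∏ e ∈ E, wedge Z e) ^ d := by
  have hφ : IsForm (∑ _e ∈ E, d) fun Z => ∏ e ∈ E, wedge (app F Z) e :=
    IsForm.prod E fun e _ => hF.isForm_wedge e
  have hr : ∀ Z, Z ≠ 0 → ∏ e ∈ E, wedge (app F Z) e = 0 → ∃ s ∈ E, wedge Z s = 0 := by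
    intro Z hZ h
    obtain ⟨e, he, h⟩ := Finset.prod_eq_zero_iff.1 h
    exact hb Z hZ e he h
  have h0 : ∃ Z, ∏ e ∈ E, wedge (app F Z) e ≠ 0 := by
    obtain ⟨z, hz⟩ := exists_aff_off E hE
    refine ⟨![z, 1], fun h => ?_⟩
    obtain ⟨s, hs, h⟩ := hr _ (aff_ne_zero z) h
    exact hz s hs h
  obtain ⟨w, hw⟩ := exists_weights hφ h0
  obtain ⟨hdeg, c, hc, hfac⟩ := factor_over hφ h0 E hE hsep hr w hw
  have key : ∀ e ∈ E, ∃ r, r ≤ d ∧ Ram F e r ∧
      (E.filter fun s => wedge s (app F e) = 0).card ≤ 1 ∧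
      w e = r * (E.filter fun s => wedge s (app F e) = 0).card := by
    intro e he
    obtain ⟨r, -, hrd, hram⟩ := exists_ram hd hF hN (hE e he)
    have hne := hN.app_ne (hE e he)
    have h1 := (mult_prod E (fun s => s) (fun _ => 1) hE hne).comp hF hN (hE e he) hram
    simp only [pow_one, Finset.sum_const, smul_eq_mul, mul_one] at h1
    refine ⟨r, hrd, hram, Finset.card_le_one.2 fun s hs t ht => ?_,
      (hw e (hE e he)).unique (hE e he) h1⟩
    exact eq_of_sep hsep hne (Finset.mem_filter.1 hs).1 (Finset.mem_filter.1 ht).1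
      (Finset.mem_filter.1 hs).2 (Finset.mem_filter.1 ht).2
  have hle : ∀ e ∈ E, w e ≤ d := fun e he => by
    obtain ⟨r, h1, -, h2, h3⟩ := key e he
    rw [h3]
    exact (Nat.mul_le_mul h1 h2).trans (by omega)
  have heq : ∀ e ∈ E, w e = d := (Finset.sum_eq_sum_iff_of_le hle).1 hdeg.symm
  refine ⟨fun e he => ?_, c, hc, fun Z => ?_⟩
  · obtain ⟨r, h1, hram, h2, h3⟩ := key e he
    rw [heq e he] at h3
    have h4 : (E.filter fun s => wedge s (app F e) = 0).card = 1 := by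
      rcases Nat.le_one_iff_eq_zero_or_eq_one.1 h2 with h | h
      · rw [h] at h3; omega
      · exact h
    rw [h4, mul_one] at h3
    obtain ⟨s, hs⟩ := Finset.card_pos.1 (h4.symm ▸ Nat.one_pos)
    exact ⟨h3 ▸ hram, s, (Finset.mem_filter.1 hs).1, wedge_symm (Finset.mem_filter.1 hs).2⟩
  · rw [hfac, ← Finset.prod_pow]
    congr 1
    exact Finset.prod_congr rfl fun e he => by rw [heq e he]

lemma isForm_fix (hF : Hom d F) : IsForm (d + 1) fun Z => wedge (app F Z) Z :=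
  ⟨F 0 * X 1 - F 1 * X 0,
    ((hF 0).mul (isHomogeneous_X K 1)).sub ((hF 1).mul (isHomogeneous_X K 0)),
    fun Z => by simp [wedge, app]⟩

lemma preper_of_fix (h : wedge (app F X) X = 0) : Preper F X :=
  ⟨0, 1, Nat.zero_lt_one, wedge_symm h⟩

lemma preper_back (hF : Hom d F) (hN : Nondeg F) (hX : X ≠ 0) (hY : Y ≠ 0)
    (h : wedge (app F X) Y = 0) (hp : Preper F Y) : Preper F X := by
  obtain ⟨m, n, hmn, h1⟩ := hp
  refine ⟨m + 1, n + 1, by omega, ?_⟩
  rw [Function.iterate_succ_apply, Function.iterate_succ_apply]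
  exact wedge_trans (hN.iter_ne n hY)
    (wedge_trans (hN.iter_ne m hY) (hF.wedge_iter m h (hN.app_ne hX) hY) h1)
    (wedge_symm (hF.wedge_iter n h (hN.app_ne hX) hY))

/-- A totally ramified fixed point is a simple fixed point. -/
lemma mult_fix [IsAlgClosed K] (hd : 2 ≤ d) (hF : Hom d F) (hN : Nondeg F) (hX : X ≠ 0)
    (hfix : wedge (app F X) X = 0) (hram : Ram F X d) :
    Mult (fun Z => wedge (app F Z) Z) X 1 := by
  have hne := hN.app_ne hX
  obtain ⟨t, ht, e⟩ := exists_smul_of_wedge hne hX hfix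
  obtain ⟨W, hW⟩ := exists_wedge_one hne
  obtain ⟨m, χ, hχ, -, hfac⟩ := hram
  have h1 : IsForm (1 * d + m) fun Z => wedge (app F Z) (app F X) := by
    have := ((IsForm.wedge X).pow d).mul hχ
    rwa [← funext hfac] at this
  have h0 := exists_wedge_app_ne (by omega) hF hN hne
  have hm : m = 0 := by
    have := (eq_of_mult h1 (hF.isForm_wedge _) h0 h0 fun Y hY a b ha hb => ha.unique hY hb).1
    omega
  subst hm
  obtain ⟨n, rfl⟩ : ∃ n, d = n + 2 := ⟨d - 2, by omega⟩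
  refine ⟨n + 2, fun Z => wedge Z X ^ (n + 1) * χ Z * wedge Z W - t * wedge (app F Z) W, ?_, ?_,
    fun Z => ?_⟩
  · refine IsForm.sub ?_ ((hF.isForm_wedge W).const_mul t)
    have := (((IsForm.wedge X).pow (n + 1)).mul hχ).mul (IsForm.wedge W)
    rwa [one_mul] at this
  · simp [hW, ht]
  · have h2 : wedge (app F Z) Z * wedge (app F X) W =
        wedge (app F Z) (app F X) * wedge Z W - wedge (app F Z) W * wedge Z (app F X) := by
      simp only [wedge]; ring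
    have h3 : wedge Z (app F X) = t * wedge Z X := by rw [e, wedge_smul_right]
    have h4 := hfac Z
    simp only at h4 ⊢
    rw [hW, mul_one, h4, h3] at h2
    rw [h2]; ring

lemma not_two [IsAlgClosed K] (hd : 2 ≤ d) (hF : Hom d F) (hN : Nondeg F) (E : Finset (V K))
    (hE : ∀ e ∈ E, e ≠ 0 ∧ Preper F e) (hsep : ∀ s ∈ E, ∀ t ∈ E, s ≠ t → wedge s t ≠ 0)
    (hall : ∀ Z, Z ≠ 0 → Preper F Z → ∃ e ∈ E, wedge Z e = 0) : 3 ≤ E.card := by
  have hE0 : ∀ e ∈ E, e ≠ 0 := fun e he => (hE e he).1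
  have hram := (backward (by omega) hF hN E hE0 hsep fun Z hZ e he h =>
    hall Z hZ (preper_back hF hN hZ (hE0 e he) h (hE e he).2)).1
  have hr : ∀ Z, Z ≠ 0 → wedge (app F Z) Z = 0 → ∃ s ∈ E, wedge Z s = 0 := fun Z hZ h =>
    hall Z hZ (preper_of_fix h)
  have h0 : ∃ Z, wedge (app F Z) Z ≠ 0 := by
    obtain ⟨z, hz⟩ := exists_aff_off E hE0
    refine ⟨![z, 1], fun h => ?_⟩
    obtain ⟨s, hs, h⟩ := hr _ (aff_ne_zero z) h
    exact hz s hs h
  obtain ⟨w, hw⟩ := exists_weights (isForm_fix hF) h0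
  have hdeg := (factor_over (isForm_fix hF) h0 E hE0 hsep hr w hw).1
  have hle : ∑ s ∈ E, w s ≤ E.card • 1 := Finset.sum_le_card_nsmul E w 1 fun e he => by
    by_cases h : wedge (app F e) e = 0
    · exact ((hw e (hE0 e he)).unique (hE0 e he)
        (mult_fix hd hF hN (hE0 e he) h (hram e he).1)).le
    · exact ((hw e (hE0 e he)).unique (hE0 e he) ((isForm_fix hF).mult_zero h)).le.trans
        (Nat.zero_le 1)
  rw [smul_eq_mul, mul_one] at hle
  omega

end MultB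

open MultB

/-- Orbifold weights give an invariant differential. -/
theorem eq_of_weights [IsAlgClosed K] [CharZero K] (hd : 2 ≤ d) (hF : Hom d F) (hN : Nondeg F)
    (k : ℕ) (S : Finset (V K)) (hS : ∀ s ∈ S, s ≠ 0)
    (hsep : ∀ s ∈ S, ∀ t ∈ S, s ≠ t → wedge s t ≠ 0) (w : V K → ℕ)
    (hw : ∀ X Y, X ≠ 0 → Y ≠ 0 → wedge X Y = 0 → w X = w Y)
    (hw0 : ∀ X, X ≠ 0 → (∀ s ∈ S, wedge X s ≠ 0) → w X = 0)
    (hrel : ∀ X, X ≠ 0 → ∀ e, Ram F X e → e * w (app F X) = k * (e - 1) + w X) :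
    ∑ s ∈ S, w s = 2 * k ∧ ∃ c : K, c ≠ 0 ∧ ∀ Z, ∏ s ∈ S, wedge (app F Z) s ^ w s =
      c * jac F Z ^ k * ∏ s ∈ S, wedge Z s ^ w s := by
  have hm : ∀ X, X ≠ 0 → ∃ a, Mult (fun Z => ∏ s ∈ S, wedge (app F Z) s ^ w s) X a ∧
      Mult (fun Z => jac F Z ^ k * ∏ s ∈ S, wedge Z s ^ w s) X a := by
    intro X hX
    obtain ⟨e, -, -, he⟩ := exists_ram (by omega) hF hN hX
    refine ⟨_, (mult_weights S hS hsep w hw hw0 (hN.app_ne hX)).comp hF hN hX he, ?_⟩
    rw [hrel X hX e he, mul_comm]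
    exact ((he.mult_jac (by omega) hF hN hX).pow k).mul (mult_weights S hS hsep w hw hw0 hX)
  obtain ⟨a, ha1, ha2⟩ := hm _ (aff_ne_zero (0 : K))
  obtain ⟨hdeg, c, hc, h⟩ := eq_of_mult ((isForm_weights S w).comp hF)
    ((hF.isForm_jac.pow k).mul (isForm_weights S w)) (ha1.exists_ne (aff_ne_zero 0))
    (ha2.exists_ne (aff_ne_zero 0)) fun X hX a b ha hb => by
      obtain ⟨a', h1, h2⟩ := hm X hX
      exact (ha.unique hX h1).trans (h2.unique hX hb)
  refine ⟨?_, c, hc, fun Z => by rw [mul_assoc]; exact h Z⟩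
  obtain ⟨n, rfl⟩ : ∃ n, d = n + 1 + 1 := ⟨d - 2, by omega⟩
  rw [show 2 * (n + 1 + 1) - 2 = 2 * (n + 1) by omega] at hdeg
  refine Nat.eq_of_mul_eq_mul_right (Nat.succ_pos n) ?_
  simp only [Nat.succ_eq_add_one]
  linarith

theorem orb_of_weights [IsAlgClosed K] [CharZero K] (hd : 2 ≤ d) (hF : Hom d F) (hN : Nondeg F)
    {k : ℕ} (hk : 0 < k) (S : Finset (V K)) (hS : ∀ s ∈ S, s ≠ 0)
    (hsep : ∀ s ∈ S, ∀ t ∈ S, s ≠ t → wedge s t ≠ 0) (w : V K → ℕ)
    (hw : ∀ X Y, X ≠ 0 → Y ≠ 0 → wedge X Y = 0 → w X = w Y)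
    (hw0 : ∀ X, X ≠ 0 → (∀ s ∈ S, wedge X s ≠ 0) → w X = 0)
    (hrel : ∀ X, X ≠ 0 → ∀ e, Ram F X e → e * w (app F X) = k * (e - 1) + w X)
    (hlt : ∀ s ∈ S, w s < k) : Orb F k := by
  obtain ⟨hsum, c, hc, h⟩ := eq_of_weights hd hF hN k S hS hsep w hw hw0 hrel
  have hcard : Fintype.card (Σ s : S, Fin (w s)) = 2 * k := by
    rw [Fintype.card_sigma, ← hsum, ← Finset.sum_coe_sort S w]
    simp
  let e := (Fintype.equivFinOfCardEq hcard).symm
  have hprod : ∀ f : V K → K, ∏ i, f (e i).1 = ∏ s ∈ S, f s ^ w s := by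
    intro f
    rw [Equiv.prod_comp e fun p => f p.1, Fintype.prod_sigma,
      ← Finset.prod_coe_sort S fun s => f s ^ w s]
    simp
  refine ⟨hk, fun i => (e i).1, c, hc, fun i => hS _ (e i).1.2, fun i => ?_, fun Z => ?_⟩
  · refine lt_of_le_of_lt ?_ (hlt _ (e i).1.2)
    have hj : ∀ j, wedge ((e i).1 : V K) (e j).1 = 0 → (e j).1 = (e i).1 := fun j hj => by
      by_contra hne
      exact hsep _ (e i).1.2 _ (e j).1.2 (fun h' => hne (Subtype.ext h'.symm)) hj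
    rw [← Finset.card_range (w (e i).1)]
    refine Finset.card_le_card_of_injOn (fun j => ((e j).2 : ℕ)) (fun j hj' => ?_)
      fun j hj1 j' hj2 hjj => ?_
    · have := hj j (by simpa using hj')
      simp only [Finset.coe_range, Set.mem_Iio, ← this]
      exact (e j).2.2
    · have h1 := (hj j (by simpa using hj1)).trans (hj j' (by simpa using hj2)).symm
      refine e.injective ?_
      simp only at hjj
      generalize e j = p at h1 hjj
      generalize e j' = q at h1 hjj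
      obtain ⟨s, a⟩ := p
      obtain ⟨t, b⟩ := q
      obtain rfl : s = t := h1
      obtain rfl : a = b := Fin.ext hjj
      rfl
  · rw [hprod fun s => wedge (app F Z) s, hprod fun s => wedge Z s]
    exact h Z

/-- A finite set of vectors has a subset of pairwise distinct points with the same points. -/
lemma exists_reps (S : Finset (V K)) (hS : ∀ s ∈ S, s ≠ 0) : ∃ T ⊆ S,
    (∀ s ∈ T, ∀ t ∈ T, s ≠ t → wedge s t ≠ 0) ∧ ∀ s ∈ S, ∃ t ∈ T, wedge s t = 0 := by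
  clear hS
  induction S using Finset.induction_on with
  | empty => exact ⟨∅, Finset.Subset.refl _, by simp, by simp⟩
  | insert a S _ ih =>
    obtain ⟨T, hT, h1, h2⟩ := ih
    by_cases h : ∃ t ∈ T, wedge a t = 0
    · refine ⟨T, hT.trans (Finset.subset_insert _ _), h1, fun s hs => ?_⟩
      rcases Finset.mem_insert.1 hs with rfl | hs
      · exact h
      · exact h2 s hs
    · push Not at h
      refine ⟨insert a T, Finset.insert_subset_insert _ hT, fun s hs t ht hne => ?_,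
        fun s hs => ?_⟩
      · rcases Finset.mem_insert.1 hs with rfl | hs' <;>
          rcases Finset.mem_insert.1 ht with rfl | ht'
        · exact absurd rfl hne
        · exact h t ht'
        · exact wedge_ne_symm (h s hs')
        · exact h1 s hs' t ht' hne
      · rcases Finset.mem_insert.1 hs with rfl | hs
        · exact ⟨s, Finset.mem_insert_self _ _, wedge_self _⟩
        · obtain ⟨t, ht, h0⟩ := h2 s hs
          exact ⟨t, Finset.mem_insert_of_mem ht, h0⟩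

/-- A finite backward invariant set is totally ramified. -/
theorem prod_of_backward [IsAlgClosed K] (hd : 0 < d) (hF : Hom d F) (hN : Nondeg F)
    (E : Finset (V K)) (hE : ∀ e ∈ E, e ≠ 0) (hsep : ∀ s ∈ E, ∀ t ∈ E, s ≠ t → wedge s t ≠ 0)
    (hb : ∀ Z, Z ≠ 0 → ∀ e ∈ E, wedge (app F Z) e = 0 → ∃ e' ∈ E, wedge Z e' = 0) :
    (∀ e ∈ E, ∃ e' ∈ E, wedge (app F e) e' = 0) ∧ ∃ c : K, c ≠ 0 ∧
      ∀ Z, ∏ e ∈ E, wedge (app F Z) e = c * (∏ e ∈ E, wedge Z e) ^ d :=
  ⟨fun e he => ((backward hd hF hN E hE hsep hb).1 e he).2, (backward hd hF hN E hE hsep hb).2⟩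

/-- Every map has three preperiodic points. -/
theorem exists_three_preper [IsAlgClosed K] [CharZero K] (hd : 2 ≤ d) (hF : Hom d F)
    (hN : Nondeg F) : ∃ A B E : V K, wedge A B ≠ 0 ∧ wedge A E ≠ 0 ∧ wedge B E ≠ 0 ∧
      Preper F A ∧ Preper F B ∧ Preper F E := by
  by_contra hc
  obtain ⟨A, hA, hfix⟩ := (isForm_fix hF).exists_root (Nat.succ_pos d)
  have hpA := preper_of_fix hfix
  by_cases h : ∃ B, wedge A B ≠ 0 ∧ Preper F B
  · obtain ⟨B, hAB, hpB⟩ := h
    have := not_two hd hF hN {A, B} (by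
      simp only [Finset.mem_insert, Finset.mem_singleton]
      rintro _ (rfl | rfl)
      · exact ⟨hA, hpA⟩
      · exact ⟨ne_zero_of_wedge_right hAB, hpB⟩) (by
      simp only [Finset.mem_insert, Finset.mem_singleton]
      rintro _ (rfl | rfl) _ (rfl | rfl) hne
      · exact absurd rfl hne
      · exact hAB
      · exact wedge_ne_symm hAB
      · exact absurd rfl hne) fun Z _ hZ => by
      by_contra h'
      push Not at h'
      exact hc ⟨A, B, Z, hAB, wedge_ne_symm (h' A (by simp)), wedge_ne_symm (h' B (by simp)),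
        hpA, hpB, hZ⟩
    exact absurd (this.trans Finset.card_le_two) (by omega)
  · have := not_two hd hF hN {A} (by simpa using ⟨hA, hpA⟩) (by simp) fun Z _ hZ => by
      by_contra h'
      push Not at h'
      exact h ⟨Z, wedge_ne_symm (h' A (by simp)), hZ⟩
    simp at this

/-- The forward orbit of a preperiodic point is finite. -/
lemma Preper.orbit (hF : Hom d F) (hN : Nondeg F) (hX : X ≠ 0) (h : Preper F X) :
    ∃ n, ∀ m, ∃ j < n, wedge ((app F)^[m] X) ((app F)^[j] X) = 0 := by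
  obtain ⟨a, n, han, h⟩ := h
  refine ⟨n, fun m => ?_⟩
  induction m using Nat.strong_induction_on with
  | _ m ih =>
    by_cases hm : m < n
    · exact ⟨m, hm, wedge_self _⟩
    · obtain ⟨r, rfl⟩ : ∃ r, m = r + n := ⟨m - n, by omega⟩
      obtain ⟨j, hj, h1⟩ := ih (r + a) (by omega)
      refine ⟨j, hj, wedge_trans (hN.iter_ne (r + a) hX) ?_ h1⟩
      rw [Function.iterate_add_apply, Function.iterate_add_apply]
      exact hF.wedge_iter r (wedge_symm h) (hN.iter_ne n hX) (hN.iter_ne a hX)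

/-- Infinitely many postcritical points give a sequence of distinct ones. -/
lemma exists_seq_of_not_pcf (hN : Nondeg F) (h : ¬ PCF F) :
    ∃ Y : ℕ → V K, Sep Y ∧ ∀ j, Post F (Y j) := by
  obtain ⟨Y, h1, h2⟩ := exists_seq_of_forall_finset_exists (Post F) (fun x y => wedge y x ≠ 0)
    fun s hs => by
      by_contra h'
      push Not at h'
      refine h ⟨s, fun p hp => ?_, h'⟩
      obtain ⟨Z, n, hZ, rfl⟩ := hs p hp
      exact hN.iter_ne _ hZ.1
  refine ⟨Y, fun j k hjk => ?_, h1⟩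
  rcases lt_or_gt_of_ne hjk with h' | h'
  · exact wedge_ne_symm (h2 j k h')
  · exact h2 k j h'

lemma PCF.mapF {K' : Type} [Field K'] [IsAlgClosed K] [CharZero K] (hd : 2 ≤ d) (hF : Hom d F)
    (hN : Nondeg F) (h : PCF F) (ι : K →+* K') : PCF (mapF ι F) := by
  obtain ⟨P, hP, h⟩ := h
  obtain ⟨Cs, hCs, hj⟩ := exists_jac_factor hd hF hN
  refine ⟨P.image (mapV ι), fun p hp => ?_, ?_⟩
  · obtain ⟨q, hq, rfl⟩ := Finset.mem_image.1 hp
    exact mapV_ne_zero ι (hP q hq)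
  · rintro _ ⟨Z, n, ⟨hZ, h0⟩, rfl⟩
    rw [jac_factor_mapF ι Cs hj] at h0
    obtain ⟨j, -, h0⟩ := Finset.prod_eq_zero_iff.1 h0
    obtain ⟨p, hp, h1⟩ := h _ ⟨Cs j, n, ⟨hCs j, by
      rw [hj]; exact Finset.prod_eq_zero (Finset.mem_univ j) (wedge_self _)⟩, rfl⟩
    have h2 := (hF.mapF ι).wedge_iter (n + 1) h0 hZ (mapV_ne_zero ι (hCs j))
    rw [iter_mapF] at h2
    refine ⟨_, Finset.mem_image_of_mem _ hp,
      wedge_trans (mapV_ne_zero ι (hN.iter_ne _ (hCs j))) h2 ?_⟩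
    rw [wedge_mapV, h1, map_zero]

lemma Post.mapF {K' : Type} [Field K'] (h : Post F Y) (ι : K →+* K') :
    Post (mapF ι F) (mapV ι Y) := by
  obtain ⟨Z, n, ⟨hZ, h0⟩, rfl⟩ := h
  exact ⟨mapV ι Z, n, ⟨mapV_ne_zero ι hZ, by rw [jac_mapF, h0, map_zero]⟩, (iter_mapF ι F _ Z).symm⟩

end Pool.Agent.MP_3827f0_nt.H92
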