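import Pool.Agent.MP_3827f0_nt.H92.Alg

/-! Multiplicities of binary forms and local degrees. -/

set_option autoImplicit false
set_option linter.unusedVariables false

namespace Pool.Agent.MP_3827f0_nt.H92

open MvPolynomial Classical

variable {K : Type} [Field K] {φ ψ : V K → K} {X Y : V K} {d : ℕ} {F : PM K}

namespace MultAux

/-- The linear form that vanishes on the line through A. -/
noncomputable def lP (A : V K) : MvPolynomial (Fin 2) K :=
  C (A 1) * MvPolynomial.X 0 - C (A 0) * MvPolynomial.X 1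

lemma eval_lP (A Z : V K) : eval Z (lP A) = wedge Z A := by
  simp only [lP, wedge, map_sub, map_mul, eval_C, eval_X]
  ring

lemma lP_hom (A : V K) : (lP A).IsHomogeneous 1 :=
  (isHomogeneous_C_mul_X _ _).sub (isHomogeneous_C_mul_X _ _)

lemma lP_ne {A : V K} (hA : A ≠ 0) : lP A ≠ 0 := by
  intro h
  obtain ⟨W, hW⟩ := exists_wedge_one hA
  have h1 := eval_lP A W
  rw [h, map_zero, wedge_comm, hW] at h1
  exact one_ne_zero (neg_eq_zero.1 h1.symm)

lemma not_lt [Infinite K] {m n : ℕ} (hX : X ≠ 0) (h : Mult φ X m) (h' : Mult φ X n) :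
    ¬ m < n := by
  intro hlt
  obtain ⟨k, rfl⟩ := Nat.exists_eq_add_of_lt hlt
  obtain ⟨a, α, ⟨p, hp, ep⟩, hα, e⟩ := h
  obtain ⟨b, β, ⟨q, hq, eq⟩, hβ, e'⟩ := h'
  have h1 : lP X ^ m * p = lP X ^ m * (lP X ^ (k + 1) * q) := by
    apply MvPolynomial.funext
    intro Z
    simp only [map_mul, map_pow, eval_lP, ← ep, ← eq, ← e Z]
    rw [e' Z]
    ring
  have h2 := mul_left_cancel₀ (pow_ne_zero m (lP_ne hX)) h1
  apply hα
  rw [ep, h2, map_mul, map_pow, eval_lP, wedge_self, zero_pow (Nat.succ_ne_zero k), zero_mul]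

lemma mult_self (A : V K) : Mult (fun Z => wedge Z A) A 1 :=
  ⟨0, fun _ => 1, IsForm.const 1, one_ne_zero, fun Z => by simp⟩

lemma mul_pderiv_hom {k : ℕ} {p l : MvPolynomial (Fin 2) K} (hp : p.IsHomogeneous k)
    (hl : l.IsHomogeneous 1) (i : Fin 2) : (l * pderiv i p).IsHomogeneous k := by
  rcases Nat.eq_zero_or_pos k with rfl | hk
  · have h0 : p.totalDegree = 0 := Nat.le_zero.1 hp.totalDegree_le
    rw [totalDegree_eq_zero_iff_eq_C] at h0
    rw [h0, pderiv_C, mul_zero]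
    exact isHomogeneous_zero _ _ _
  · have := hl.mul (hp.pderiv (i := i))
    rwa [show 1 + (k - 1) = k by omega] at this

end MultAux

open MultAux

lemma Mult.unique [Infinite K] {m n : ℕ} (hX : X ≠ 0) (h : Mult φ X m) (h' : Mult φ X n) :
    m = n :=
  le_antisymm (not_lt.1 (MultAux.not_lt hX h' h)) (not_lt.1 (MultAux.not_lt hX h h'))
lemma IsForm.mult_zero {n : ℕ} (h : IsForm n φ) (hX : φ X ≠ 0) : Mult φ X 0 :=
  ⟨n, φ, h, hX, fun Z => by simp⟩
lemma Mult.mul {m n : ℕ} (h : Mult φ X m) (h' : Mult ψ X n) :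
    Mult (fun Z => φ Z * ψ Z) X (m + n) := by
  obtain ⟨a, α, hα, hα0, e⟩ := h
  obtain ⟨b, β, hβ, hβ0, e'⟩ := h'
  refine ⟨a + b, fun Z => α Z * β Z, hα.mul hβ, mul_ne_zero hα0 hβ0, fun Z => ?_⟩
  show φ Z * ψ Z = _
  rw [e, e']
  ring
lemma IsForm.exists_mult [IsAlgClosed K] {n : ℕ} (h : IsForm n φ) (h0 : ∃ Z, φ Z ≠ 0)
    (hX : X ≠ 0) : ∃ m, m ≤ n ∧ Mult φ X m := by
  induction n generalizing φ with
  | zero =>
    obtain ⟨Z, hZ⟩ := h0
    exact ⟨0, le_rfl, h.mult_zero (by rwa [h.zero_const X Z])⟩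
  | succ n ih =>
    by_cases hφ : φ X = 0
    · obtain ⟨χ, hχ, e⟩ := h.div hX hφ
      obtain ⟨m, hm, hM⟩ := ih hχ (by
        obtain ⟨Z, hZ⟩ := h0
        exact ⟨Z, fun h' => hZ (by rw [e, h', mul_zero])⟩)
      refine ⟨1 + m, by omega, ?_⟩
      have := (mult_self X).mul hM
      rwa [← funext e] at this
    · exact ⟨0, Nat.zero_le _, h.mult_zero hφ⟩
lemma Mult.pow {m : ℕ} (h : Mult φ X m) (k : ℕ) : Mult (fun Z => φ Z ^ k) X (m * k) := by
  obtain ⟨a, α, hα, hα0, e⟩ := h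
  refine ⟨a * k, fun Z => α Z ^ k, hα.pow k, pow_ne_zero _ hα0, fun Z => ?_⟩
  show φ Z ^ k = _
  rw [e, mul_pow, ← pow_mul]
lemma Mult.const_mul {m : ℕ} (h : Mult φ X m) {c : K} (hc : c ≠ 0) :
    Mult (fun Z => c * φ Z) X m := by
  obtain ⟨a, α, hα, hα0, e⟩ := h
  refine ⟨a, fun Z => c * α Z, hα.const_mul c, mul_ne_zero hc hα0, fun Z => ?_⟩
  show c * φ Z = _
  rw [e]
  ring
lemma Mult.of_wedge {m : ℕ} (h : Mult φ X m) (hX : X ≠ 0) (hY : Y ≠ 0) (hXY : wedge X Y = 0) :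
    Mult φ Y m := by
  obtain ⟨t, ht, rfl⟩ := exists_smul_of_wedge hX hY hXY
  obtain ⟨a, α, hα, hα0, e⟩ := h
  refine ⟨a, fun Z => t ^ m * α Z, hα.const_mul _, mul_ne_zero (pow_ne_zero _ ht) ?_, fun Z => ?_⟩
  · intro h0
    apply hα0
    rw [hα.smul_eq, h0, mul_zero]
  · rw [e, wedge_smul_right]
    ring
lemma Mult.eq_zero_iff {m : ℕ} (h : Mult φ X m) : φ X = 0 ↔ 0 < m := by
  obtain ⟨a, α, hα, hα0, e⟩ := h
  rw [e, wedge_self, mul_eq_zero, or_iff_left hα0]
  constructor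
  · intro h0
    rcases Nat.eq_zero_or_pos m with rfl | hm
    · simp at h0
    · exact hm
  · intro hm
    exact zero_pow hm.ne'
lemma Mult.exists_ne [Infinite K] {m : ℕ} (h : Mult φ X m) (hX : X ≠ 0) : ∃ Z, φ Z ≠ 0 := by
  obtain ⟨a, α, ⟨p, hp, ep⟩, hα0, e⟩ := h
  by_contra h0
  push Not at h0
  have h1 : lP X ^ m * p = 0 := by
    apply MvPolynomial.funext
    intro Z
    rw [map_mul, map_pow, eval_lP, ← ep, ← e, h0, map_zero]
  have h2 := (mul_eq_zero.1 h1).resolve_left (pow_ne_zero m (lP_ne hX))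
  apply hα0
  rw [ep, h2, map_zero]
lemma mult_prod {ι : Type} (s : Finset ι) (A : ι → V K) (m : ι → ℕ) (hA : ∀ i ∈ s, A i ≠ 0)
    (hX : X ≠ 0) : Mult (fun Z => ∏ i ∈ s, wedge Z (A i) ^ m i) X
      (∑ i ∈ s.filter (fun i => wedge (A i) X = 0), m i) := by
  induction s using Finset.induction_on with
  | empty => simpa using (IsForm.const (1 : K)).mult_zero (X := X) one_ne_zero
  | insert i s hi ih =>
    have ih' := ih fun j hj => hA j (Finset.mem_insert_of_mem hj)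
    have hAi := hA i (Finset.mem_insert_self i s)
    simp only [Finset.prod_insert hi, Finset.filter_insert]
    split_ifs with h0
    · rw [Finset.sum_insert (fun h => hi (Finset.mem_filter.1 h).1)]
      have := (((mult_self (A i)).of_wedge hAi hX h0).pow (m i)).mul ih'
      rwa [one_mul] at this
    · have := (((IsForm.wedge (A i)).mult_zero (X := X) (wedge_ne_symm h0)).pow (m i)).mul ih'
      rwa [zero_mul, zero_add] at this
lemma Mult.comp {n e : ℕ} (hF : Hom d F) (hN : Nondeg F) (hX : X ≠ 0) (he : Ram F X e)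
    (h : Mult φ (app F X) n) : Mult (fun Z => φ (app F Z)) X (e * n) := by
  obtain ⟨a, α, hα, hα0, e'⟩ := h
  have h1 := (Mult.pow he n).mul ((hα.comp hF).mult_zero (X := X) hα0)
  rw [add_zero] at h1
  have h2 : (fun Z => φ (app F Z)) =
      fun Z => wedge (app F Z) (app F X) ^ n * α (app F Z) := funext fun Z => e' _
  rw [h2]
  exact h1
/-- Two forms with the same multiplicities are proportional. -/
lemma eq_of_mult [IsAlgClosed K] {m n : ℕ} (hφ : IsForm m φ) (hψ : IsForm n ψ)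
    (h0 : ∃ Z, φ Z ≠ 0) (h1 : ∃ Z, ψ Z ≠ 0)
    (h : ∀ X, X ≠ 0 → ∀ a b, Mult φ X a → Mult ψ X b → a = b) :
    m = n ∧ ∃ c : K, c ≠ 0 ∧ ∀ Z, φ Z = c * ψ Z := by
  have key : ∀ {m n : ℕ} {φ ψ : V K → K}, IsForm m φ → IsForm n ψ → (∃ Z, φ Z ≠ 0) →
      (∃ Z, ψ Z ≠ 0) → (∀ X, X ≠ 0 → ∀ a b, Mult φ X a → Mult ψ X b → a = b) →
      ∀ A, A ≠ 0 → (φ A = 0 ↔ ψ A = 0) := by
    intro m n φ ψ hφ hψ h0 h1 h A hA
    obtain ⟨a, -, ha⟩ := hφ.exists_mult h0 hA
    obtain ⟨b, -, hb⟩ := hψ.exists_mult h1 hA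
    rw [ha.eq_zero_iff, hb.eq_zero_iff, h A hA a b ha hb]
  induction m generalizing n φ ψ with
  | zero =>
    obtain ⟨Z, hZ⟩ := id h0
    obtain ⟨W, hW⟩ := id h1
    rcases Nat.eq_zero_or_pos n with rfl | hn
    · refine ⟨rfl, φ Z / ψ W, div_ne_zero hZ hW, fun T => ?_⟩
      rw [hφ.zero_const T Z, hψ.zero_const T W, div_mul_cancel₀ _ hW]
    · obtain ⟨A, hA, hA0⟩ := hψ.exists_root hn
      have := (key hφ hψ h0 h1 h A hA).2 hA0
      rw [hφ.zero_const A Z] at this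
      exact absurd this hZ
  | succ m ih =>
    obtain ⟨A, hA, hA0⟩ := hφ.exists_root (Nat.succ_pos m)
    have hA1 := (key hφ hψ h0 h1 h A hA).1 hA0
    rcases n with _ | n
    · obtain ⟨W, hW⟩ := h1
      rw [hψ.zero_const A W] at hA1
      exact absurd hA1 hW
    · obtain ⟨α, hα, e⟩ := hφ.div hA hA0
      obtain ⟨β, hβ, e'⟩ := hψ.div hA hA1
      obtain ⟨W, hW⟩ := exists_wedge_one hA
      obtain ⟨hmn, c, hc, ec⟩ := ih hα hβ
        (by obtain ⟨Z, hZ⟩ := h0; exact ⟨Z, fun h' => hZ (by rw [e, h', mul_zero])⟩)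
        (by obtain ⟨Z, hZ⟩ := h1; exact ⟨Z, fun h' => hZ (by rw [e', h', mul_zero])⟩)
        (fun T hT a b ha hb => by
          obtain ⟨u, -, hu⟩ := (IsForm.wedge A).exists_mult
            ⟨W, wedge_ne_symm (by rw [hW]; exact one_ne_zero)⟩ hT
          have h2 := hu.mul ha
          have h3 := hu.mul hb
          rw [← funext e] at h2
          rw [← funext e'] at h3
          have := h T hT _ _ h2 h3
          omega)
      refine ⟨by rw [hmn], c, hc, fun Z => ?_⟩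
      rw [e, e', ec]
      ring

lemma Ram.pos {e : ℕ} (h : Ram F X e) : 0 < e :=
  (Mult.eq_zero_iff h).1 (wedge_self _)
lemma exists_ram [IsAlgClosed K] (hd : 0 < d) (hF : Hom d F) (hN : Nondeg F) (hX : X ≠ 0) :
    ∃ e, 0 < e ∧ e ≤ d ∧ Ram F X e := by
  obtain ⟨e, he, h⟩ := (hF.isForm_wedge (app F X)).exists_mult
    (exists_wedge_app_ne hd hF hN (hN.app_ne hX)) hX
  exact ⟨e, Ram.pos h, he, h⟩
lemma Ram.mult_wedge {e : ℕ} (hN : Nondeg F) (h : Ram F X e) (hX : X ≠ 0) (hY : Y ≠ 0)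
    (hXY : wedge (app F X) Y = 0) : Mult (fun Z => wedge (app F Z) Y) X e := by
  obtain ⟨t, ht, et⟩ := exists_smul_of_wedge (hN.app_ne hX) hY hXY
  have h1 := Mult.const_mul h (inv_ne_zero ht)
  have h2 : (fun Z => wedge (app F Z) Y) = fun Z => t⁻¹ * wedge (app F Z) (app F X) := by
    funext Z
    rw [et, wedge_smul_right, ← mul_assoc, inv_mul_cancel₀ ht, one_mul]
  rw [h2]
  exact h1
lemma Ram.of_wedge {e : ℕ} (hF : Hom d F) (hN : Nondeg F) (h : Ram F X e) (hX : X ≠ 0)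
    (hY : Y ≠ 0) (hXY : wedge X Y = 0) : Ram F Y e :=
  (h.mult_wedge hN hX (hN.app_ne hY) (hF.wedge_app hXY hX hY)).of_wedge hX hY hXY
lemma Ram.mult_jac [CharZero K] {e : ℕ} (hd : 0 < d) (hF : Hom d F) (hN : Nondeg F) (hX : X ≠ 0)
    (h : Ram F X e) : Mult (jac F) X (e - 1) := by
  have : Infinite K := Infinite.of_injective _ Nat.cast_injective
  obtain ⟨u, rfl⟩ := Nat.exists_eq_add_of_lt h.pos
  rw [zero_add] at h ⊢
  rw [Nat.add_sub_cancel]
  obtain ⟨k, α, ⟨p, hp, ep⟩, hα0, e⟩ := h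
  obtain ⟨W, hW⟩ := exists_wedge_one (hN.app_ne hX)
  set T := app F X with hT
  set A : MvPolynomial (Fin 2) K := C (T 1) * F 0 - C (T 0) * F 1 with hA
  set B : MvPolynomial (Fin 2) K := C (W 1) * F 0 - C (W 0) * F 1 with hB
  have hBh : B.IsHomogeneous d := ((hF 0).C_mul _).sub ((hF 1).C_mul _)
  have hBX : eval X B = 1 := by
    rw [← hW]
    simp only [hB, wedge, hT, app, map_sub, map_mul, eval_C]
    ring
  have hAe : A = lP X ^ (u + 1) * p := by
    apply MvPolynomial.funext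
    intro Z
    rw [map_mul, map_pow, eval_lP, ← ep, ← e]
    simp only [hA, wedge, app, map_sub, map_mul, eval_C]
    ring
  have hW' : (C (T 0) * C (W 1) - C (T 1) * C (W 0) : MvPolynomial (Fin 2) K) = 1 := by
    rw [← map_mul, ← map_mul, ← map_sub]
    exact (congrArg C hW).trans (map_one _)
  have hJ : jacP F = pderiv 0 A * pderiv 1 B - pderiv 1 A * pderiv 0 B := by
    simp only [hA, hB, jacP, map_sub, Derivation.leibniz, pderiv_C, smul_eq_mul, mul_zero,
      add_zero]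
    linear_combination (-(pderiv 0 (F 0) * pderiv 1 (F 1) - pderiv 1 (F 0) * pderiv 0 (F 1))) * hW'
  have hl0 : pderiv 0 (lP X) = C (X 1) := by simp [lP]
  have hl1 : pderiv 1 (lP X) = - C (X 0) := by simp [lP]
  set Q : MvPolynomial (Fin 2) K :=
    C ((u + 1 : ℕ) : K) * (p * (C (X 1) * pderiv 1 B + C (X 0) * pderiv 0 B)) +
      ((lP X * pderiv 0 p) * pderiv 1 B - (lP X * pderiv 1 p) * pderiv 0 B) with hQ
  have hJQ : jacP F = lP X ^ u * Q := by
    rw [hJ, hAe, hQ]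
    simp only [Derivation.leibniz, Derivation.leibniz_pow, hl0, hl1, smul_eq_mul, nsmul_eq_mul,
      Nat.add_sub_cancel, map_natCast]
    ring
  have hQh : Q.IsHomogeneous (k + (d - 1)) :=
    ((hp.mul ((hBh.pderiv.C_mul _).add (hBh.pderiv.C_mul _))).C_mul _).add
      (((mul_pderiv_hom hp (lP_hom X) 0).mul hBh.pderiv).sub
        ((mul_pderiv_hom hp (lP_hom X) 1).mul hBh.pderiv))
  refine ⟨k + (d - 1), fun Z => eval Z Q, ⟨Q, hQh, fun _ => rfl⟩, ?_, fun Z => ?_⟩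
  · have hE := congrArg (eval X) (euler hBh)
    simp only [map_add, map_mul, eval_X, eval_C, hBX, mul_one] at hE
    have : eval X Q = ((u + 1 : ℕ) : K) * (α X * d) := by
      simp only [hQ, map_add, map_sub, map_mul, eval_C, eval_lP, wedge_self, zero_mul, ← ep]
      rw [← hE]
      ring
    show eval X Q ≠ 0
    rw [this]
    exact mul_ne_zero (Nat.cast_ne_zero.2 (Nat.succ_ne_zero u))
      (mul_ne_zero hα0 (Nat.cast_ne_zero.2 hd.ne'))
  · rw [jac, hJQ, map_mul, map_pow, eval_lP]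
lemma Ram.eq_one_iff [CharZero K] {e : ℕ} (hd : 0 < d) (hF : Hom d F) (hN : Nondeg F)
    (hX : X ≠ 0) (h : Ram F X e) : e = 1 ↔ jac F X ≠ 0 := by
  have h1 := h.pos
  rw [Ne, (h.mult_jac hd hF hN hX).eq_zero_iff]
  omega
/-- Over a regular value the preimages are distinct. -/
lemma Fact.sep [IsAlgClosed K] [CharZero K] (hd : 0 < d) (hF : Hom d F) (hN : Nondeg F)
    (hY : Y ≠ 0) {Ys : Fin d → V K} {lam : Fin d → K} (h : Fact d F Y Ys lam)
    (hreg : ∀ j, jac F (Ys j) ≠ 0) : ∀ i j, i ≠ j → wedge (Ys i) (Ys j) ≠ 0 := by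
  intro i j hij h0
  have hne : ∀ k, Ys k ≠ 0 := fun k hk => by
    obtain ⟨Z, hZ⟩ := exists_wedge_app_ne hd hF hN hY
    apply hZ
    rw [h.1, Finset.prod_eq_zero (Finset.mem_univ k)]
    rw [hk, wedge_zero_right]
  obtain ⟨e, -, -, he⟩ := exists_ram hd hF hN (hne j)
  have he1 := (he.eq_one_iff hd hF hN (hne j)).2 (hreg j)
  have h1 := he.mult_wedge hN (hne j) hY (by rw [h.2, wedge_smul_left, wedge_self, mul_zero])
  have h2 := mult_prod (X := Ys j) Finset.univ Ys (fun _ => 1) (fun k _ => hne k) (hne j)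
  simp only [pow_one, ← h.1] at h2
  have h3 := h1.unique (hne j) h2
  rw [he1, Finset.sum_const, smul_eq_mul, mul_one] at h3
  have h4 : ({i, j} : Finset (Fin d)) ⊆ Finset.univ.filter fun k => wedge (Ys k) (Ys j) = 0 := by
    intro k hk
    rw [Finset.mem_filter]
    rcases Finset.mem_insert.1 hk with rfl | hk
    · exact ⟨Finset.mem_univ _, h0⟩
    · rw [Finset.mem_singleton.1 hk]
      exact ⟨Finset.mem_univ _, wedge_self _⟩
  have h5 := Finset.card_le_card h4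
  rw [Finset.card_pair hij] at h5
  omega
/-- The critical values of an iterate are postcritical. -/
lemma post_of_crit_itr (hF : Hom d F) (hN : Nondeg F) (n : ℕ) (h : Crit (itr F n) X) :
    ∃ m, m < n ∧ Crit F ((app F)^[m] X) := by
  obtain ⟨hX, h0⟩ := h
  induction n with
  | zero =>
    exfalso
    simp [jac, jacP, itr] at h0
  | succ n ih =>
    rw [itr, jac_comp, app_itr] at h0
    rcases mul_eq_zero.1 h0 with h1 | h1
    · exact ⟨n, Nat.lt_succ_self n, hN.iter_ne n hX, h1⟩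
    · obtain ⟨m, hm, hc⟩ := ih h1
      exact ⟨m, hm.trans (Nat.lt_succ_self n), hc⟩

end Pool.Agent.MP_3827f0_nt.H92
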