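import Pool.Agent.MP_3827f0_nt.H92.NASup

/-! Concentrated mass lives on an axis. -/

set_option autoImplicit false

namespace Pool.Agent.MP_3827f0_nt.H92

variable {L : Type} [NormedField L] [IsUltrametricDist L] [IsAlgClosed L] [CharZero L]
  {d : ℕ} {F : PM L} {G : V L → ℝ}

namespace NAAxisAux

open Metric Polynomial

/-- G is not constant on the chart disc. -/
def Pos (G : V L → ℝ) (M : Mat L) (a : L) (r : ℝ) : Prop :=
  ∃ x ∈ closedBall a r, ∃ y ∈ closedBall a r, G (M.mulVec ![x, 1]) ≠ G (M.mulVec ![y, 1])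

/-- The chart disc contains the point s. -/
def Hits (M : Mat L) (a : L) (r : ℝ) (s : V L) : Prop :=
  ∃ z ∈ closedBall a r, wedge (M.mulVec ![z, 1]) s = 0

/-- Every chart disc with mass contains a point of T. -/
def Cov (G : V L → ℝ) (T : Finset (V L)) : Prop :=
  (∀ s ∈ T, s ≠ 0) ∧ ∀ (M : Mat L) (a : L) (r : ℝ), M.det ≠ 0 → 0 < r → Pos G M a r →
    ∃ s ∈ T, Hits M a r s

omit [IsUltrametricDist L] [IsAlgClosed L] [CharZero L] in
lemma e10_ne : (![1, 0] : V L) ≠ 0 := fun h0 => by simpa using congrFun h0 0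

omit [IsUltrametricDist L] [IsAlgClosed L] [CharZero L] in
lemma Pos.mono {M : Mat L} {a : L} {r s : ℝ} (h : Pos G M a r) (hrs : r ≤ s) : Pos G M a s := by
  obtain ⟨x, hx, y, hy, hne⟩ := h
  exact ⟨x, closedBall_subset_closedBall hrs hx, y, closedBall_subset_closedBall hrs hy, hne⟩

omit [IsUltrametricDist L] [IsAlgClosed L] [CharZero L] in
lemma Hits.par {M : Mat L} {a : L} {r : ℝ} {X Y : V L} (h : Hits M a r X) (hX : X ≠ 0)
    (hXY : wedge X Y = 0) : Hits M a r Y := by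
  obtain ⟨z, hz, hw⟩ := h
  exact ⟨z, hz, wedge_trans hX hw hXY⟩

omit [IsUltrametricDist L] [IsAlgClosed L] [CharZero L] in
lemma hits_aff {N : Mat L} (hN : N.det ≠ 0) {a w : L} {r : ℝ} :
    Hits N a r (N.mulVec ![w, 1]) ↔ w ∈ closedBall a r := by
  constructor
  · rintro ⟨z, hz, hw⟩
    rw [wedge_mulVec, wedge_aff] at hw
    have : z = w := sub_eq_zero.1 ((mul_eq_zero.1 hw).resolve_left hN)
    exact this ▸ hz
  · intro hw
    exact ⟨w, hw, wedge_self _⟩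

omit [IsAlgClosed L] [CharZero L] in
lemma transfer (hL : Big L) (h : Dyn d F G) {M N : Mat L} (hM : M.det ≠ 0) (hN : N.det = 1)
    {a : L} {r : ℝ} (hr : 0 < r) (hav : ¬ Hits M a r (N.mulVec ![1, 0])) :
    ∃ (b : L) (s : ℝ), 0 < s ∧ (Pos G M a r → Pos G N b s) ∧
      ∀ X, Hits M a r X ↔ Hits N b s X := by
  have hN0 : N.det ≠ 0 := by rw [hN]; exact one_ne_zero
  have hback : ∀ Z : V L, N.mulVec ((N.adjugate * M).mulVec Z) = M.mulVec Z := by
    intro Z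
    rw [Matrix.mulVec_mulVec, ← Matrix.mul_assoc, Matrix.mul_adjugate, hN]
    simp
  have hdet : (N.adjugate * M).det ≠ 0 := by
    rw [Matrix.det_mul, Matrix.det_adjugate, hN]
    simpa using hM
  have hp : ∀ z ∈ closedBall a r, (N.adjugate * M).mulVec ![z, 1] 1 ≠ 0 := by
    intro z hz h0
    refine hav ⟨z, hz, ?_⟩
    rw [← hback, wedge_mulVec]
    simp [wedge, h0]
  obtain ⟨g, s, hs, him, c, hc, hov⟩ := mobius_disc hL hdet hr hp
  have hov' : ∀ z ∈ closedBall a r, ∃ t : L, t ≠ 0 ∧ ‖t‖ = c ∧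
      M.mulVec ![z, 1] = t • N.mulVec ![g z, 1] := by
    intro z hz
    obtain ⟨t, ht, he⟩ := hov z hz
    refine ⟨t, norm_pos_iff.1 (ht ▸ hc), ht, ?_⟩
    rw [← hback, he, Matrix.mulVec_smul]
  have hmem : ∀ z ∈ closedBall a r, g z ∈ closedBall (g a) s := fun z hz =>
    him ▸ Set.mem_image_of_mem g hz
  refine ⟨g a, s, hs, ?_, fun X => ⟨?_, ?_⟩⟩
  · rintro ⟨x, hx, y, hy, hne⟩
    refine ⟨g x, hmem x hx, g y, hmem y hy, fun he => hne ?_⟩
    obtain ⟨t, ht0, ht, e1⟩ := hov' x hx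
    obtain ⟨t', ht0', ht', e2⟩ := hov' y hy
    rw [e1, e2, h.esc.2.1 _ _ ht0 (mulVec_ne_zero hN0 (aff_ne_zero _)),
      h.esc.2.1 _ _ ht0' (mulVec_ne_zero hN0 (aff_ne_zero _)), he, ht, ht']
  · rintro ⟨z, hz, hw⟩
    obtain ⟨t, ht0, -, e1⟩ := hov' z hz
    rw [e1, wedge_smul_left] at hw
    exact ⟨g z, hmem z hz, (mul_eq_zero.1 hw).resolve_left ht0⟩
  · rintro ⟨w, hw, hw'⟩
    rw [← him] at hw
    obtain ⟨z, hz, rfl⟩ := hw
    obtain ⟨t, -, -, e1⟩ := hov' z hz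
    exact ⟨z, hz, by rw [e1, wedge_smul_left, hw', mul_zero]⟩

omit [IsAlgClosed L] [CharZero L] in
lemma exists_cov (hL : Big L) (h : Dyn d F G) (hS : ¬ Spread G) : ∃ T, Cov G T := by
  classical
  unfold Spread at hS
  push Not at hS
  obtain ⟨S, hS⟩ := hS
  refine ⟨insert ![1, 0] (S.image fun s => ![s, 1]), ?_, fun M a r hM hr hpos => ?_⟩
  · intro s hs
    rcases Finset.mem_insert.1 hs with rfl | hs
    · exact e10_ne
    · obtain ⟨z, -, rfl⟩ := Finset.mem_image.1 hs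
      exact aff_ne_zero z
  · by_cases hh : Hits M a r ![1, 0]
    · exact ⟨_, Finset.mem_insert_self _ _, hh⟩
    · obtain ⟨b, s, hs, hp, hX⟩ := transfer hL h hM (N := 1) Matrix.det_one hr (by simpa using hh)
      obtain ⟨x, hx, y, hy, hne⟩ := hp hpos
      simp only [Matrix.one_mulVec] at hne
      obtain ⟨z, hz, hz'⟩ := hS b s hs ⟨x, hx, y, hy, hne⟩
      refine ⟨![z, 1], Finset.mem_insert_of_mem (Finset.mem_image_of_mem _ hz), (hX _).2 ?_⟩
      exact ⟨z, hz', by simp⟩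

omit [IsAlgClosed L] [CharZero L] in
lemma pos_small (hL : Big L) (h : Dyn d F G) {M N : Mat L} (hM : M.det ≠ 0) (hN : N.det = 1)
    {a : L} {r : ℝ} (hr : 0 < r) (hpos : Pos G M a r) {p q q' : V L} (hp0 : p ≠ 0)
    (hp : Hits M a r p) (hq : ¬ Hits M a r q) (hq' : ¬ Hits M a r q') {e : L} (he : ‖e‖ = 1)
    (w0 : wedge (N.mulVec ![0, 1]) p = 0) (w1 : wedge (N.mulVec ![1, 0]) q = 0)
    (w2 : wedge (N.mulVec ![e, 1]) q' = 0) : ∃ σ, 0 < σ ∧ σ < 1 ∧ Pos G N 0 σ := by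
  have hN0 : N.det ≠ 0 := by rw [hN]; exact one_ne_zero
  obtain ⟨b, s, hs, hP, hX⟩ := transfer hL h hM hN hr
    fun hh => hq (hh.par (mulVec_ne_zero hN0 e10_ne) w1)
  have h0 : (0 : L) ∈ closedBall b s := by
    rw [← hits_aff hN0, ← hX]
    exact hp.par hp0 (by rw [wedge_comm, w0, neg_zero])
  have h1 : e ∉ closedBall b s := by
    rw [← hits_aff hN0, ← hX]
    exact fun hh => hq' (hh.par (mulVec_ne_zero hN0 (aff_ne_zero _)) w2)
  have hb := IsUltrametricDist.closedBall_eq_of_mem h0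
  refine ⟨s, hs, ?_, ?_⟩
  · rw [hb] at h1
    simpa [he] using h1
  · have := hP hpos
    unfold Pos at this ⊢
    rwa [hb] at this

omit [CharZero L] in
open Classical in
lemma count (hL : Big L) (h : Dyn d F G) {T : Finset (V L)} (hT : Cov G T) {N' N₁ : Mat L}
    (hN' : N'.det ≠ 0) (hN₁ : N₁.det = 1) {P Q : L[X]} {D : ℕ} {κ : ℝ} (hP : P.natDegree ≤ D)
    (hQ : Q.natDegree ≤ D) (hPt : ‖P.coeff D‖ = 1) (hQt : ‖Q.coeff D‖ = 1)
    (hco : ∀ z, P.eval z = 0 → Q.eval z ≠ 0) {π : L} (hπ : π ≠ 0) (hπ1 : ‖π‖ < 1)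
    (hpos : Pos G N₁ 0 ‖π‖)
    (hrel : ∀ z, G (N₁.mulVec ![P.eval z, Q.eval z]) = κ * G (N'.mulVec ![z, 1])) :
    D ≤ (T.1.filter fun s => ∃ z, ‖P.eval z‖ ≤ ‖π‖ * ‖Q.eval z‖ ∧
        wedge (N'.mulVec ![z, 1]) s = 0).card +
      ((wr P Q).roots.filter fun z => ‖P.eval z‖ ≤ ‖π‖ * ‖Q.eval z‖).card := by
  have hN0 : N₁.det ≠ 0 := by rw [hN₁]; exact one_ne_zero
  have hπp : 0 < ‖π‖ := norm_pos_iff.2 hπ
  have hπi : π⁻¹ ≠ 0 := inv_ne_zero hπ
  have hdeg : (C π⁻¹ * P).natDegree = D := by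
    rw [natDegree_C_mul hπi]
    exact natDegree_eq_of_le_of_coeff_ne_zero hP (norm_pos_iff.1 (by rw [hPt]; exact one_pos))
  have htop : ‖Q.coeff D‖ < ‖(C π⁻¹ * P).coeff D‖ := by
    rw [coeff_C_mul, norm_mul, hPt, hQt, mul_one, norm_inv]
    exact (one_lt_inv₀ hπp).2 hπ1
  have hiff : ∀ z, ‖(C π⁻¹ * P).eval z‖ ≤ ‖Q.eval z‖ ↔ ‖P.eval z‖ ≤ ‖π‖ * ‖Q.eval z‖ := by
    intro z
    rw [eval_mul, eval_C, norm_mul, norm_inv, inv_mul_le_iff₀ hπp]
  obtain ⟨n, a, r, hr, hdis, hcnt, hin, hon⟩ := exists_discs hL hdeg hQ htop fun z hz => by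
    rw [eval_mul, eval_C] at hz
    exact hco z ((mul_eq_zero.1 hz).resolve_left hπi)
  have hw : wr (C π⁻¹ * P) Q = C π⁻¹ * wr P Q := by
    simp only [wr, derivative_mul, derivative_C, zero_mul, zero_add]
    ring
  rw [hw, roots_C_mul _ hπi] at hcnt
  simp only [hiff] at hcnt hin
  refine hcnt.trans (Nat.add_le_add_right ?_ _)
  have hval : ∀ j, ∀ x ∈ closedBall (0 : L) ‖π‖, ∃ z ∈ closedBall (a j) (r j),
      κ * G (N'.mulVec ![z, 1]) = G (N₁.mulVec ![x, 1]) + Real.log ‖Q.eval (a j)‖ := by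
    intro j x hx
    have hx' : ‖π⁻¹ * x‖ ≤ 1 := by
      rw [norm_mul, norm_inv, inv_mul_le_iff₀ hπp, mul_one]
      simpa using hx
    obtain ⟨z, hz, hz'⟩ := hon j _ hx'
    refine ⟨z, hz, ?_⟩
    rw [eval_mul, eval_C, mul_assoc] at hz'
    have e1 : P.eval z = x * Q.eval z := mul_left_cancel₀ hπi hz'
    have e2 : (![P.eval z, Q.eval z] : V L) = Q.eval z • ![x, 1] := by
      rw [e1]
      funext i
      fin_cases i <;> simp [mul_comm]
    rw [← hrel, e2, Matrix.mulVec_smul,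
      h.esc.2.1 _ _ (hin j z hz).1 (mulVec_ne_zero hN0 (aff_ne_zero _)),
      norm_eval_const hz fun w hw => (hin j w hw).1]
  have hP' : ∀ j, Pos G N' (a j) (r j) := by
    intro j
    obtain ⟨x, hx, y, hy, hne⟩ := hpos
    obtain ⟨z, hz, e1⟩ := hval j x hx
    obtain ⟨z', hz', e2⟩ := hval j y hy
    refine ⟨z, hz, z', hz', fun he => hne ?_⟩
    rw [he] at e1
    linarith
  choose s hs z hz hsz using fun j => hT.2 N' (a j) (r j) hN' (hr j) (hP' j)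
  have hinj : Function.Injective s := by
    intro i j hij
    by_contra hne
    have h1 : wedge (N'.mulVec ![z i, 1]) (N'.mulVec ![z j, 1]) = 0 :=
      wedge_trans (hT.1 _ (hs j)) (hij ▸ hsz i) (by rw [wedge_comm, hsz j, neg_zero])
    rw [wedge_mulVec, wedge_aff] at h1
    have h2 : z i = z j := sub_eq_zero.1 ((mul_eq_zero.1 h1).resolve_left hN')
    exact Set.disjoint_left.1 (hdis i j hne) (hz i) (h2 ▸ hz j)
  have hc := Finset.card_le_card_of_injOn (s := Finset.univ)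
    (t := T.filter fun s => ∃ z, ‖P.eval z‖ ≤ ‖π‖ * ‖Q.eval z‖ ∧ wedge (N'.mulVec ![z, 1]) s = 0) s
    (fun j _ => by
      simp only [Finset.coe_filter, Set.mem_setOf_eq]
      exact ⟨hs j, z j, (hin j _ (hz j)).2, hsz j⟩) hinj.injOn
  rw [Finset.card_univ, Fintype.card_fin] at hc
  exact hc

lemma card_three {α : Type} (m : Multiset α) (p q r : α → Prop) [DecidablePred p]
    [DecidablePred q] [DecidablePred r] (hpq : ∀ x ∈ m, p x → ¬ q x) (hpr : ∀ x ∈ m, p x → ¬ r x)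
    (hqr : ∀ x ∈ m, q x → ¬ r x) :
    (m.filter p).card + (m.filter q).card + (m.filter r).card ≤ m.card := by
  induction m using Multiset.induction_on with
  | empty => simp
  | cons x m ih =>
    have := ih (fun y hy => hpq y (Multiset.mem_cons_of_mem hy))
      (fun y hy => hpr y (Multiset.mem_cons_of_mem hy))
      (fun y hy => hqr y (Multiset.mem_cons_of_mem hy))
    have h1 := hpq x (Multiset.mem_cons_self _ _)
    have h2 := hpr x (Multiset.mem_cons_self _ _)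
    have h3 := hqr x (Multiset.mem_cons_self _ _)
    by_cases a1 : p x <;> by_cases a2 : q x <;> by_cases a3 : r x <;>
      simp_all [Multiset.filter_cons] <;> omega

omit [IsAlgClosed L] [CharZero L] in
lemma regions {x y : L} {ρ : ℝ} (hρ0 : 0 ≤ ρ) (hρ : ρ < 1) (hxy : x = 0 → y ≠ 0) :
    (‖x‖ ≤ ρ * ‖y‖ → ¬ ‖x - y‖ ≤ ρ * ‖y‖) ∧ (‖x‖ ≤ ρ * ‖y‖ → ¬ ‖y‖ ≤ ρ * ‖-x‖) ∧
      (‖x - y‖ ≤ ρ * ‖y‖ → ¬ ‖y‖ ≤ ρ * ‖-x‖) := by
  have hx := norm_nonneg x
  have hy := norm_nonneg y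
  have hpos : 0 < ‖x‖ ∨ 0 < ‖y‖ := by
    by_cases h0 : x = 0
    · exact Or.inr (norm_pos_iff.2 (hxy h0))
    · exact Or.inl (norm_pos_iff.2 h0)
  refine ⟨fun h1 h2 => ?_, fun h1 h2 => ?_, fun h1 h2 => ?_⟩
  · have h3 : ‖y‖ ≤ max ‖x‖ ‖x - y‖ := by
      have := IsUltrametricDist.norm_add_le_max x (-(x - y))
      rwa [norm_neg, show x + -(x - y) = y by ring] at this
    have h4 : ‖y‖ ≤ ρ * ‖y‖ := h3.trans (max_le h1 h2)
    rcases hpos with h5 | h5 <;> nlinarith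
  · rw [norm_neg] at h2
    rcases hpos with h5 | h5 <;> nlinarith
  · rw [norm_neg] at h2
    have h3 : ‖x‖ ≤ max ‖x - y‖ ‖y‖ := by
      have := IsUltrametricDist.norm_add_le_max (x - y) y
      rwa [sub_add_cancel] at this
    have h4 : ‖x‖ ≤ ‖y‖ := h3.trans (max_le (h1.trans (by nlinarith)) le_rfl)
    rcases hpos with h5 | h5 <;> nlinarith

/-- Three small discs with mass force many points. -/
lemma many (hL : Big L) (h : Dyn d F G) {T : Finset (V L)} (hT : Cov G T) {N₀ : Mat L}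
    (hN : N₀.det = 1) {π : L} (hπ : π ≠ 0) (hπ1 : ‖π‖ < 1) (h1 : Pos G N₀ 0 ‖π‖)
    (h2 : Pos G (N₀ * !![1, 1; 0, 1]) 0 ‖π‖) (h3 : Pos G (N₀ * !![0, -1; 1, 0]) 0 ‖π‖) (n : ℕ) :
    d ^ n + 2 ≤ T.card := by
  classical
  have hd : 0 < d := by have := h.two; omega
  have hD : 0 < d ^ n := pow_pos hd n
  have hN0 : N₀.det ≠ 0 := by rw [hN]; exact one_ne_zero
  obtain ⟨Z, hZ, hFZ⟩ := app_surj hD (h.hom.itr n) (h.nondeg.itr n)
    (mulVec_ne_zero hN0 (aff_ne_zero (2 : L)))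
  obtain ⟨W, hW⟩ := exists_wedge_one hZ
  obtain ⟨N', hN'⟩ : ∃ N' : Mat L, N' = !![Z 0, W 0; Z 1, W 1] := ⟨_, rfl⟩
  have hN'd : N'.det ≠ 0 := by
    rw [hN', Matrix.det_fin_two_of]
    have : Z 0 * W 1 - W 0 * Z 1 = 1 := by rw [← hW, wedge]; ring
    rw [this]
    exact one_ne_zero
  have hN'e : N'.mulVec ![1, 0] = Z := by
    funext i
    fin_cases i <;> simp [hN', Matrix.mulVec, dotProduct, Fin.sum_univ_two]
  obtain ⟨H, hH⟩ : ∃ H : PM L, H = comp (lin N₀.adjugate) (comp (itr F n) (lin N')) := ⟨_, rfl⟩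
  have hHh : Hom (d ^ n) H := by
    have := (hom_lin N₀.adjugate).comp ((h.hom.itr n).comp (hom_lin N'))
    rwa [one_mul, mul_one, ← hH] at this
  have hHa : ∀ X, N₀.mulVec (app H X) = (app F)^[n] (N'.mulVec X) := by
    intro X
    rw [hH, app_comp, app_comp, app_lin, app_lin, app_itr, Matrix.mulVec_mulVec,
      Matrix.mul_adjugate, hN]
    simp
  obtain ⟨P, hP⟩ : ∃ P, P = deh (H 0) := ⟨_, rfl⟩
  obtain ⟨Q, hQ⟩ : ∃ Q, Q = deh (H 1) := ⟨_, rfl⟩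
  have hPQ : ∀ z, app H ![z, 1] = ![P.eval z, Q.eval z] := by
    intro z
    funext i
    fin_cases i <;> simp [hP, hQ, eval_deh, app]
  have htop : app H ![1, 0] = ![2, 1] := by
    rw [hH, app_comp, app_comp, app_lin, app_lin, hN'e, hFZ, Matrix.mulVec_mulVec,
      Matrix.adjugate_mul, hN]
    simp
  have hPt : P.coeff (d ^ n) = 2 := by
    rw [hP, coeff_deh_top (hHh 0)]
    simpa [app] using congrFun htop 0
  have hQt : Q.coeff (d ^ n) = 1 := by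
    rw [hQ, coeff_deh_top (hHh 1)]
    simpa [app] using congrFun htop 1
  have hPd : P.natDegree ≤ d ^ n := hP ▸ natDegree_deh_le (hHh 0)
  have hQd : Q.natDegree ≤ d ^ n := hQ ▸ natDegree_deh_le (hHh 1)
  have hco : ∀ z, P.eval z = 0 → Q.eval z ≠ 0 := by
    intro z hz hz'
    apply h.nondeg.iter_ne n (mulVec_ne_zero hN'd (aff_ne_zero z))
    rw [← hHa, hPQ, hz, hz']
    simp
  have hrel : ∀ z, G (N₀.mulVec ![P.eval z, Q.eval z]) =
      (d : ℝ) ^ n * G (N'.mulVec ![z, 1]) := by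
    intro z
    rw [← hPQ, hHa, h.iter n (mulVec_ne_zero hN'd (aff_ne_zero z))]
  have n2 : ‖(2 : L)‖ = 1 := by simpa using hL.res 2 two_ne_zero
  have c1 := count hL h hT hN'd hN hPd hQd (by rw [hPt, n2]) (by rw [hQt, norm_one]) hco hπ hπ1
    h1 hrel
  have c2 := count hL h hT hN'd (N₁ := N₀ * !![1, 1; 0, 1]) (by simp [hN]) (P := P - Q) (Q := Q)
    (κ := (d : ℝ) ^ n) ((natDegree_sub_le _ _).trans (max_le hPd hQd)) hQd
    (by rw [coeff_sub, hPt, hQt]; norm_num) (by rw [hQt, norm_one])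
    (fun z hz hz' => by
      rw [eval_sub, hz', sub_zero] at hz
      exact hco z hz hz') hπ hπ1 h2
    (fun z => by
      rw [← hrel, ← Matrix.mulVec_mulVec]
      congr 2
      funext i
      fin_cases i <;> simp [Matrix.mulVec, dotProduct, Fin.sum_univ_two])
  have c3 := count hL h hT hN'd (N₁ := N₀ * !![0, -1; 1, 0]) (by simp [hN]) (P := Q) (Q := -P)
    (κ := (d : ℝ) ^ n) hQd (by rwa [natDegree_neg])
    (by rw [hQt, norm_one]) (by rw [coeff_neg, hPt, norm_neg, n2])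
    (fun z hz hz' => by
      rw [eval_neg, neg_eq_zero] at hz'
      exact hco z hz' hz) hπ hπ1 h3
    (fun z => by
      rw [← hrel, ← Matrix.mulVec_mulVec]
      congr 2
      funext i
      fin_cases i <;> simp [Matrix.mulVec, dotProduct, Fin.sum_univ_two])
  have w2 : wr (P - Q) Q = wr P Q := by simp only [wr, derivative_sub]; ring
  have w3 : wr Q (-P) = wr P Q := by simp only [wr, derivative_neg]; ring
  rw [w2] at c2
  rw [w3] at c3
  simp only [eval_sub, eval_neg] at c2 c3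
  have hreg := fun z => regions (norm_nonneg π) hπ1 (hco z)
  have hsame : ∀ s ∈ T.1, ∀ z z', wedge (N'.mulVec ![z, 1]) s = 0 →
      wedge (N'.mulVec ![z', 1]) s = 0 → z = z' := by
    intro s hs z z' e1 e2
    have e3 : wedge (N'.mulVec ![z, 1]) (N'.mulVec ![z', 1]) = 0 :=
      wedge_trans (hT.1 _ hs) e1 (by rw [wedge_comm, e2, neg_zero])
    rw [wedge_mulVec, wedge_aff] at e3
    exact sub_eq_zero.1 ((mul_eq_zero.1 e3).resolve_left hN'd)
  have k1 := card_three (wr P Q).roots (fun z => ‖P.eval z‖ ≤ ‖π‖ * ‖Q.eval z‖)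
    (fun z => ‖P.eval z - Q.eval z‖ ≤ ‖π‖ * ‖Q.eval z‖)
    (fun z => ‖Q.eval z‖ ≤ ‖π‖ * ‖-P.eval z‖) (fun z _ => (hreg z).1) (fun z _ => (hreg z).2.1)
    (fun z _ => (hreg z).2.2)
  have k2 := card_three T.1
    (fun s => ∃ z, ‖P.eval z‖ ≤ ‖π‖ * ‖Q.eval z‖ ∧ wedge (N'.mulVec ![z, 1]) s = 0)
    (fun s => ∃ z, ‖P.eval z - Q.eval z‖ ≤ ‖π‖ * ‖Q.eval z‖ ∧ wedge (N'.mulVec ![z, 1]) s = 0)
    (fun s => ∃ z, ‖Q.eval z‖ ≤ ‖π‖ * ‖-P.eval z‖ ∧ wedge (N'.mulVec ![z, 1]) s = 0)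
    (fun s hs ⟨z, a1, a2⟩ ⟨z', b1, b2⟩ => (hreg z).1 a1 (hsame s hs z z' a2 b2 ▸ b1))
    (fun s hs ⟨z, a1, a2⟩ ⟨z', b1, b2⟩ => (hreg z).2.1 a1 (hsame s hs z z' a2 b2 ▸ b1))
    (fun s hs ⟨z, a1, a2⟩ ⟨z', b1, b2⟩ => (hreg z).2.2 a1 (hsame s hs z z' a2 b2 ▸ b1))
  have k3 : (wr P Q).roots.card ≤ 2 * d ^ n - 2 := by
    refine (card_roots' _).trans ?_
    have e := natDegree_deh_le hHh.jacP
    rwa [deh_jacP hHh, natDegree_C_mul (Nat.cast_ne_zero.2 hD.ne'), ← hP, ← hQ] at e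
  have k4 : T.1.card = T.card := rfl
  omega

lemma exists_cov_two (hL : Big L) (h : Dyn d F G) (hS : ¬ Spread G) :
    ∃ T, Cov G T ∧ T.card ≤ 2 := by
  classical
  have hex : ∃ n, ∃ T : Finset (V L), Cov G T ∧ T.card = n := by
    obtain ⟨T, hT⟩ := exists_cov hL h hS
    exact ⟨_, T, hT, rfl⟩
  obtain ⟨T, hT, hc⟩ := Nat.find_spec hex
  refine ⟨T, hT, ?_⟩
  by_contra hlt
  push Not at hlt
  have hmin : ∀ p ∈ T, ∃ (M : Mat L) (a : L) (r : ℝ), M.det ≠ 0 ∧ 0 < r ∧ Pos G M a r ∧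
      Hits M a r p ∧ ∀ q ∈ T, q ≠ p → ¬ Hits M a r q := by
    intro p hp
    have hn : ¬ Cov G (T.erase p) := fun hc' =>
      Nat.find_min hex (hc ▸ Finset.card_erase_lt_of_mem hp) ⟨_, hc', rfl⟩
    unfold Cov at hn
    push Not at hn
    obtain ⟨M, a, r, hM, hr, hpos, hno⟩ := hn fun s hs => hT.1 s (Finset.mem_of_mem_erase hs)
    have hno' : ∀ q ∈ T, q ≠ p → ¬ Hits M a r q := fun q hq hqp =>
      hno q (Finset.mem_erase.2 ⟨hqp, hq⟩)
    obtain ⟨s, hs, hh⟩ := hT.2 M a r hM hr hpos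
    have : s = p := by
      by_contra hne
      exact hno' s hs hne hh
    exact ⟨M, a, r, hM, hr, hpos, this ▸ hh, hno'⟩
  have hnp : ∀ p ∈ T, ∀ q ∈ T, p ≠ q → wedge p q ≠ 0 := by
    intro p hp q hq hne hw
    obtain ⟨M, a, r, -, -, -, hh, hno⟩ := hmin p hp
    exact hno q hq hne.symm (hh.par (hT.1 p hp) hw)
  have hsmall : ∀ p ∈ T, ∀ q ∈ T, ∀ q' ∈ T, q ≠ p → q' ≠ p → ∀ (N : Mat L) (e : L), N.det = 1 →
      ‖e‖ = 1 → wedge (N.mulVec ![0, 1]) p = 0 → wedge (N.mulVec ![1, 0]) q = 0 →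
      wedge (N.mulVec ![e, 1]) q' = 0 → ∃ σ, 0 < σ ∧ σ < 1 ∧ Pos G N 0 σ := by
    intro p hp q hq q' hq' n1 n2 N e hN he w0 w1 w2
    obtain ⟨M, a, r, hM, hr, hpos, hh, hno⟩ := hmin p hp
    exact pos_small hL h hM hN hr hpos (hT.1 p hp) hh (hno q hq n1) (hno q' hq' n2) he w0 w1 w2
  obtain ⟨u, s, t, hu, hs, ht, hus, hut, hst⟩ := Finset.two_lt_card_iff.1 hlt
  obtain ⟨N₀, hN, wu, ws, wt⟩ := exists_frame (hnp u hu s hs hus) (hnp u hu t ht hut)
    (hnp s hs t ht hst)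
  obtain ⟨σ₁, a1, b1, p1⟩ := hsmall s hs u hu t ht hus hst.symm N₀ 1 hN norm_one ws wu wt
  have m1 : ∀ x y : L, (N₀ * !![1, 1; 0, 1]).mulVec ![x, y] = N₀.mulVec ![x + y, y] := by
    intro x y
    rw [← Matrix.mulVec_mulVec]
    congr 1
    funext i
    fin_cases i <;> simp [Matrix.mulVec, dotProduct, Fin.sum_univ_two]
  have m2 : ∀ x y : L, (N₀ * !![0, -1; 1, 0]).mulVec ![x, y] = N₀.mulVec ![-y, x] := by
    intro x y
    rw [← Matrix.mulVec_mulVec]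
    congr 1
    funext i
    fin_cases i <;> simp [Matrix.mulVec, dotProduct, Fin.sum_univ_two]
  have m3 : ∀ x y : L, N₀.mulVec ![-x, -y] = (-1 : L) • N₀.mulVec ![x, y] := by
    intro x y
    rw [← Matrix.mulVec_smul]
    congr 1
    funext i
    fin_cases i <;> simp
  obtain ⟨σ₂, a2, b2, p2⟩ := hsmall t ht u hu s hs hut hst (N₀ * !![1, 1; 0, 1]) (-1)
    (by simp [hN]) (by simp) (by rw [m1, zero_add]; exact wt) (by rw [m1, add_zero]; exact wu)
    (by rw [m1, neg_add_cancel]; exact ws)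
  obtain ⟨σ₃, a3, b3, p3⟩ := hsmall u hu s hs t ht hus.symm hut.symm (N₀ * !![0, -1; 1, 0]) (-1)
    (by simp [hN]) (by simp)
    (by
      have := m3 1 0
      rw [neg_zero] at this
      rw [m2, this, wedge_smul_left, wu, mul_zero])
    (by rw [m2, neg_zero]; exact ws) (by rw [m2, m3, wedge_smul_left, wt, mul_zero])
  obtain ⟨π, hπ⟩ := hL.full (max σ₁ (max σ₂ σ₃)) (lt_max_of_lt_left a1)
  have hπ0 : π ≠ 0 := norm_pos_iff.1 (hπ ▸ lt_max_of_lt_left a1)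
  have hπ1 : ‖π‖ < 1 := hπ ▸ max_lt b1 (max_lt b2 b3)
  have hm := many hL h hT hN hπ0 hπ1 (p1.mono (hπ ▸ le_max_left _ _))
    (p2.mono (hπ ▸ (le_max_left _ _).trans (le_max_right _ _)))
    (p3.mono (hπ ▸ (le_max_right _ _).trans (le_max_right _ _))) T.card
  have : T.card < d ^ T.card := Nat.lt_pow_self (by have := h.two; omega)
  omega

omit [IsUltrametricDist L] [IsAlgClosed L] [CharZero L] in
lemma exists_axes {T : Finset (V L)} (hT : ∀ s ∈ T, s ≠ 0) (hc : T.card ≤ 2) :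
    ∃ M : Mat L, M.det = 1 ∧ ∀ s ∈ T,
      wedge (M.mulVec ![1, 0]) s = 0 ∨ wedge (M.mulVec ![0, 1]) s = 0 := by
  classical
  have mk : ∀ p W : V L, wedge p W = 1 → ∃ M : Mat L, M.det = 1 ∧ M.mulVec ![1, 0] = p ∧
      M.mulVec ![0, 1] = W := by
    intro p W hW
    refine ⟨!![p 0, W 0; p 1, W 1], ?_, ?_, ?_⟩
    · rw [Matrix.det_fin_two_of, ← hW, wedge]; ring
    · funext i
      fin_cases i <;> simp [Matrix.mulVec, dotProduct, Fin.sum_univ_two]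
    · funext i
      fin_cases i <;> simp [Matrix.mulVec, dotProduct, Fin.sum_univ_two]
  have two : ∀ p q : V L, p ≠ 0 → ∃ M : Mat L, M.det = 1 ∧ wedge (M.mulVec ![1, 0]) p = 0 ∧
      (wedge (M.mulVec ![1, 0]) q = 0 ∨ wedge (M.mulVec ![0, 1]) q = 0) := by
    intro p q hp
    by_cases hw : wedge p q = 0
    · obtain ⟨W, hW⟩ := exists_wedge_one hp
      obtain ⟨M, hM, e1, -⟩ := mk p W hW
      exact ⟨M, hM, by rw [e1, wedge_self], Or.inl (by rw [e1, hw])⟩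
    · obtain ⟨M, hM, e1, e2⟩ := mk p ((wedge p q)⁻¹ • q)
        (by rw [wedge_smul_right, inv_mul_cancel₀ hw])
      exact ⟨M, hM, by rw [e1, wedge_self],
        Or.inr (by rw [e2, wedge_smul_left, wedge_self, mul_zero])⟩
  have h3 : T.card = 0 ∨ T.card = 1 ∨ T.card = 2 := by omega
  rcases h3 with h0 | h1 | h2
  · rw [Finset.card_eq_zero] at h0
    exact ⟨1, Matrix.det_one, by simp [h0]⟩
  · obtain ⟨p, rfl⟩ := Finset.card_eq_one.1 h1
    obtain ⟨M, hM, e1, -⟩ := two p p (hT p (by simp))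
    refine ⟨M, hM, fun s hs => ?_⟩
    rw [Finset.mem_singleton.1 hs]
    exact Or.inl e1
  · obtain ⟨p, q, -, rfl⟩ := Finset.card_eq_two.1 h2
    obtain ⟨M, hM, e1, e2⟩ := two p q (hT p (by simp))
    refine ⟨M, hM, fun s hs => ?_⟩
    rcases Finset.mem_insert.1 hs with rfl | hs
    · exact Or.inl e1
    · rw [Finset.mem_singleton.1 hs]
      exact e2

omit [CharZero L] in
lemma eq_usup (hL : Big L) (h : Dyn d F G)
    (hc : ∀ (a : L) (r : ℝ), 0 < r → r < ‖a‖ → ∀ x ∈ closedBall a r, G ![x, 1] = G ![a, 1])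
    {z : L} (hz : z ≠ 0) : G ![z, 1] = usup G 0 ‖z‖ := by
  have hp : 0 < ‖z‖ := norm_pos_iff.2 hz
  rw [← usup_congr (a := z) (by simp)]
  refine le_antisymm (h.le_usup (mem_closedBall_self hp.le)) (le_of_forall_pos_le_add ?_)
  intro ε hε
  have hρ : 0 < ‖z‖ * Real.exp (-ε) := by positivity
  have hρ' : ‖z‖ * Real.exp (-ε) < ‖z‖ :=
    mul_lt_of_lt_one_right hp (Real.exp_lt_one_iff.2 (by linarith))
  have hm := h.mass_le_one hL ({()} : Finset Unit) (fun _ => z) (fun _ => ‖z‖)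
    (fun _ => ‖z‖ * Real.exp (-ε)) (fun _ _ => ⟨hρ, hρ'⟩) (fun _ _ _ _ hne => absurd rfl hne)
  rw [Finset.sum_singleton, Real.log_mul hp.ne' (Real.exp_pos _).ne', Real.log_exp,
    show Real.log ‖z‖ - (Real.log ‖z‖ + -ε) = ε by ring, div_le_one hε] at hm
  have hle : usup G z (‖z‖ * Real.exp (-ε)) ≤ G ![z, 1] :=
    usup_le hρ.le fun x hx => (hc z _ hρ hρ' x hx).le
  linarith

end NAAxisAux

open NAAxisAux in
theorem axis_of_not_spread (hL : Big L) (h : Dyn d F G) (hS : ¬ Spread G) : Axis G := by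
  obtain ⟨T, hT, hc⟩ := exists_cov_two hL h hS
  obtain ⟨M, hM, hax⟩ := exists_axes hT.1 hc
  have hM0 : M.det ≠ 0 := by rw [hM]; exact one_ne_zero
  have h' := h.conj hM
  have hconst : ∀ (a : L) (r : ℝ), 0 < r → r < ‖a‖ → ∀ x ∈ Metric.closedBall a r,
      G (M.mulVec ![x, 1]) = G (M.mulVec ![a, 1]) := by
    intro a r hr hra x hx
    by_contra hne
    obtain ⟨s, hs, hh⟩ := hT.2 M a r hM0 hr ⟨x, hx, a, Metric.mem_closedBall_self hr.le, hne⟩
    rcases hax s hs with e | e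
    · obtain ⟨z, -, hz⟩ := hh.par (hT.1 s hs) (Y := M.mulVec ![1, 0])
        (by rw [wedge_comm, e, neg_zero])
      rw [wedge_mulVec, hM] at hz
      simp [wedge] at hz
    · have := (hits_aff hM0).1 (hh.par (hT.1 s hs) (Y := M.mulVec ![0, 1])
        (by rw [wedge_comm, e, neg_zero]))
      rw [Metric.mem_closedBall, dist_zero_left] at this
      linarith
  have hrad : ∀ z w : L, ‖z‖ = ‖w‖ → G (M.mulVec ![z, 1]) = G (M.mulVec ![w, 1]) := by
    intro z w hzw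
    by_cases hz : z = 0
    · have hw : w = 0 := norm_eq_zero.1 (by rw [← hzw, hz, norm_zero])
      rw [hz, hw]
    · have hw : w ≠ 0 := norm_pos_iff.1 (hzw ▸ norm_pos_iff.2 hz)
      have e1 := eq_usup hL h' hconst hz
      have e2 := eq_usup hL h' hconst hw
      rw [e1, e2, hzw]
  refine ⟨M, hM, fun Z W hZ h0 h1 => ?_⟩
  by_cases hZ1 : Z 1 = 0
  · have hW1 : W 1 = 0 := norm_eq_zero.1 (by rw [← h1, hZ1, norm_zero])
    have hZ0 : Z 0 ≠ 0 := fun h2 => hZ (by funext i; fin_cases i <;> simp [h2, hZ1])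
    have hW0 : W 0 ≠ 0 := norm_pos_iff.1 (h0 ▸ norm_pos_iff.2 hZ0)
    have eZ : Z = Z 0 • ![1, 0] := by funext i; fin_cases i <;> simp [hZ1]
    have eW : W = W 0 • ![1, 0] := by funext i; fin_cases i <;> simp [hW1]
    rw [eZ, eW, Matrix.mulVec_smul, Matrix.mulVec_smul,
      h.esc.2.1 _ _ hZ0 (mulVec_ne_zero hM0 e10_ne), h.esc.2.1 _ _ hW0 (mulVec_ne_zero hM0 e10_ne),
      h0]
  · have hW1 : W 1 ≠ 0 := norm_pos_iff.1 (h1 ▸ norm_pos_iff.2 hZ1)
    rw [exists_aff hZ1, exists_aff hW1, Matrix.mulVec_smul, Matrix.mulVec_smul,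
      h.esc.2.1 _ _ hZ1 (mulVec_ne_zero hM0 (aff_ne_zero _)),
      h.esc.2.1 _ _ hW1 (mulVec_ne_zero hM0 (aff_ne_zero _)), h1,
      hrad _ (W 0 / W 1) (by rw [norm_div, norm_div, h0, h1])]

end Pool.Agent.MP_3827f0_nt.H92
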