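import Pool.Agent.MP_3827f0_nt.H92.Defs

/-! Gauss norms, root counts and the Wronskian over an ultrametric field. -/

set_option autoImplicit false
set_option linter.unusedSectionVars false

namespace Pool.Agent.MP_3827f0_nt.H92

open Polynomial Metric

variable {L : Type} [NormedField L] [IsUltrametricDist L] [IsAlgClosed L]

namespace NAPolyAux

lemma norm_mprod (m : Multiset L) (f : L → L) :
    ‖(m.map f).prod‖ = (m.map fun b => ‖f b‖).prod := by
  induction m using Multiset.induction_on with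
  | empty => simp
  | cons a m ih => simp [ih]

lemma norm_eval (p : L[X]) (z : L) :
    ‖p.eval z‖ = ‖p.leadingCoeff‖ * (p.roots.map fun b => ‖z - b‖).prod := by
  rw [(IsAlgClosed.splits p).eval_eq_prod_roots, norm_mul, norm_mprod]

lemma tri (x y z : L) : ‖x - z‖ ≤ max ‖x - y‖ ‖y - z‖ := by
  simpa only [dist_eq_norm] using IsUltrametricDist.dist_triangle_max x y z

lemma iso {x y z : L} (h : ‖x - y‖ ≠ ‖y - z‖) : ‖x - z‖ = max ‖x - y‖ ‖y - z‖ := by
  have := IsUltrametricDist.dist_eq_max_of_dist_ne_dist x y z (by simpa only [dist_eq_norm] using h)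
  simpa only [dist_eq_norm] using this

lemma sub_le (x y : L) : ‖x - y‖ ≤ max ‖x‖ ‖y‖ := by simpa using tri x 0 y

lemma mprod_le {m : Multiset L} {f g : L → ℝ} (h0 : ∀ b ∈ m, 0 ≤ f b) (h : ∀ b ∈ m, f b ≤ g b) :
    (m.map f).prod ≤ (m.map g).prod := by
  induction m using Multiset.induction_on with
  | empty => simp
  | cons a m ih =>
    simp only [Multiset.map_cons, Multiset.prod_cons]
    have h1 := h0 a (by simp)
    have h2 := h a (by simp)
    refine mul_le_mul h2 (ih (fun b hb => h0 b (by simp [hb])) fun b hb => h b (by simp [hb]))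
      (Multiset.prod_nonneg fun x hx => ?_) (h1.trans h2)
    obtain ⟨b, hb, rfl⟩ := Multiset.mem_map.1 hx
    exact h0 b (by simp [hb])

lemma max_congr {a b c : L} {r : ℝ} (h : ‖a - b‖ ≤ r) : max ‖a - c‖ r = max ‖b - c‖ r := by
  have h' : ‖b - a‖ ≤ r := by rwa [norm_sub_rev]
  refine le_antisymm (max_le ((tri a b c).trans ?_) (le_max_right _ _))
    (max_le ((tri b a c).trans ?_) (le_max_right _ _))
  · exact max_le (h.trans (le_max_right _ _)) (le_max_left _ _)
  · exact max_le (h'.trans (le_max_right _ _)) (le_max_left _ _)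

lemma unit_generic (T : Finset L) :
    ∃ u : L, ‖u‖ = 1 ∧ ∀ c ∈ T, ‖u - c‖ = max ‖c‖ 1 := by
  classical
  set T' : Finset L := insert 0 (T.filter fun c => ‖c‖ ≤ 1) with hT'
  have hT : ∀ c ∈ T', ‖c‖ ≤ 1 := by
    intro c hc
    rcases Finset.mem_insert.1 hc with rfl | hc
    · simp
    · exact (Finset.mem_filter.1 hc).2
  have hdeg : (∏ c ∈ T', (X - C c) : L[X]).natDegree = T'.card := by
    rw [natDegree_prod_of_monic _ _ fun c _ => monic_X_sub_C c]; simp
  have hpos : 0 < T'.card := Finset.card_pos.2 ⟨0, Finset.mem_insert_self _ _⟩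
  obtain ⟨u, hu⟩ := IsAlgClosed.exists_root (∏ c ∈ T', (X - C c) - C 1 : L[X]) (by
    apply ne_of_gt
    rw [← natDegree_pos_iff_degree_pos, natDegree_sub_C, hdeg]; exact hpos)
  have hu' : ∏ c ∈ T', ‖u - c‖ = 1 := by
    have : ∏ c ∈ T', (u - c) = 1 := by
      simpa [eval_prod, sub_eq_zero] using hu
    rw [← norm_prod, this, norm_one]
  have hu1 : ‖u‖ ≤ 1 := by
    by_contra hc
    push Not at hc
    have : ∀ c ∈ T', ‖u - c‖ = ‖u‖ := fun c hc' => by
      have h1 := hT c hc'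
      have := iso (x := u) (y := 0) (z := c) (by simp; linarith)
      simp only [sub_zero, zero_sub, norm_neg] at this
      rw [this, max_eq_left (by linarith)]
    rw [Finset.prod_congr rfl this, Finset.prod_const] at hu'
    exact absurd hu' (ne_of_gt (one_lt_pow₀ hc hpos.ne'))
  have hall : ∀ c ∈ T', ‖u - c‖ = 1 := by
    have hle : ∀ c ∈ T', ‖u - c‖ ≤ 1 := fun c hc => (sub_le u c).trans (max_le hu1 (hT c hc))
    intro c hc
    by_contra hne
    have hlt : ‖u - c‖ < 1 := lt_of_le_of_ne (hle c hc) hne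
    rw [← Finset.mul_prod_erase _ _ hc] at hu'
    have h1 : ∏ x ∈ T'.erase c, ‖u - x‖ ≤ 1 :=
      Finset.prod_le_one (fun _ _ => norm_nonneg _) fun x hx => hle x (Finset.mem_of_mem_erase hx)
    have h2 : 0 ≤ ∏ x ∈ T'.erase c, ‖u - x‖ := Finset.prod_nonneg fun _ _ => norm_nonneg _
    nlinarith [norm_nonneg (u - c)]
  refine ⟨u, by simpa using hall 0 (Finset.mem_insert_self _ _), fun c hc => ?_⟩
  by_cases h : ‖c‖ ≤ 1
  · rw [max_eq_right h]
    exact hall c (Finset.mem_insert_of_mem (Finset.mem_filter.2 ⟨hc, h⟩))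
  · push Not at h
    have := iso (x := u) (y := 0) (z := c) (by simp; linarith)
    simp only [sub_zero, zero_sub, norm_neg] at this
    rw [this, max_eq_right (by linarith), max_eq_left h.le]

end NAPolyAux

open NAPolyAux

/-- A generic point on a circle. -/
lemma exists_generic {π : L} (hπ : π ≠ 0) (a : L) (S : Finset L) :
    ∃ z, ‖z - a‖ = ‖π‖ ∧ ∀ b ∈ S, ‖z - b‖ = max ‖a - b‖ ‖π‖ := by
  classical
  obtain ⟨u, hu, h⟩ := unit_generic (S.image fun b => (b - a) / π)
  refine ⟨a + π * u, by simp [hu], fun b hb => ?_⟩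
  have h1 := h _ (Finset.mem_image_of_mem _ hb)
  have hp : 0 < ‖π‖ := norm_pos_iff.2 hπ
  have e : a + π * u - b = π * (u - (b - a) / π) := by field_simp; ring
  rw [e, norm_mul, h1, mul_max_of_nonneg _ _ hp.le, norm_div, mul_one, norm_sub_rev a b,
    mul_div_cancel₀ _ hp.ne']

/-- A generic unit. -/
lemma exists_generic_unit {ι : Type} (s : Finset ι) (p q : ι → L) :
    ∃ α : L, ‖α‖ = 1 ∧ ∀ i ∈ s, ‖p i - α * q i‖ = max ‖p i‖ ‖q i‖ := by
  classical
  obtain ⟨u, hu, h⟩ := unit_generic (s.image fun i => p i / q i)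
  refine ⟨u, hu, fun i hi => ?_⟩
  by_cases hq : q i = 0
  · simp [hq]
  have h1 := h _ (Finset.mem_image_of_mem _ hi)
  have hp : 0 < ‖q i‖ := norm_pos_iff.2 hq
  have e : p i - u * q i = -(q i * (u - p i / q i)) := by field_simp; ring
  rw [e, norm_neg, norm_mul, h1, mul_max_of_nonneg _ _ hp.le, norm_div, mul_one,
    mul_div_cancel₀ _ hp.ne']

lemma gn_nonneg (p : L[X]) (a : L) {r : ℝ} (hr : 0 ≤ r) : 0 ≤ gn p a r := by
  refine mul_nonneg (norm_nonneg _) (Multiset.prod_nonneg fun x hx => ?_)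
  obtain ⟨b, _, rfl⟩ := Multiset.mem_map.1 hx
  exact hr.trans (le_max_right _ _)

lemma gn_pos {p : L[X]} (hp : p ≠ 0) (a : L) {r : ℝ} (hr : 0 < r) : 0 < gn p a r := by
  refine mul_pos (norm_pos_iff.2 (leadingCoeff_ne_zero.2 hp)) (Multiset.prod_pos fun x hx => ?_)
  obtain ⟨b, _, rfl⟩ := Multiset.mem_map.1 hx
  exact hr.trans_le (le_max_right _ _)

lemma norm_eval_le_gn (p : L[X]) {a z : L} {r : ℝ} (hz : ‖z - a‖ ≤ r) :
    ‖p.eval z‖ ≤ gn p a r := by
  rw [norm_eval]
  refine mul_le_mul_of_nonneg_left (mprod_le (fun _ _ => norm_nonneg _) fun b _ => ?_)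
    (norm_nonneg _)
  exact (tri z a b).trans (max_le (hz.trans (le_max_right _ _)) (le_max_left _ _))

lemma exists_eval_eq_gn (hL : Big L) (ps : Finset L[X]) (a : L) {r : ℝ} (hr : 0 < r) :
    ∃ z, ‖z - a‖ = r ∧ ∀ p ∈ ps, ‖p.eval z‖ = gn p a r := by
  classical
  obtain ⟨π, hπ⟩ := hL.full r hr
  obtain ⟨z, hz, h⟩ := exists_generic (π := π) (norm_pos_iff.1 (hπ ▸ hr)) a
    (ps.biUnion fun p => p.roots.toFinset)
  refine ⟨z, hπ ▸ hz, fun p hp => ?_⟩
  rw [norm_eval, gn]
  congr 2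
  refine Multiset.map_congr rfl fun b hb => ?_
  rw [h b (Finset.mem_biUnion.2 ⟨p, hp, Multiset.mem_toFinset.2 hb⟩), hπ]

lemma norm_eval_eq_gn {p : L[X]} {a z : L} {r : ℝ} (hz : ‖z - a‖ = r)
    (h : ∀ b, p.eval b = 0 → ‖b - a‖ ≠ r) : ‖p.eval z‖ = gn p a r := by
  rw [norm_eval, gn]
  congr 2
  refine Multiset.map_congr rfl fun b hb => ?_
  have h1 := h b (isRoot_of_mem_roots hb)
  rw [iso (y := a) (by rw [hz, norm_sub_rev]; exact h1.symm), hz, max_comm]

lemma norm_eval_const {p : L[X]} {a z : L} {r : ℝ} (hz : z ∈ closedBall a r)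
    (h : ∀ w ∈ closedBall a r, p.eval w ≠ 0) : ‖p.eval z‖ = ‖p.eval a‖ := by
  rw [norm_eval, norm_eval]
  congr 2
  refine Multiset.map_congr rfl fun b hb => ?_
  have h1 : ¬ b ∈ closedBall a r := fun hb' => h b hb' (isRoot_of_mem_roots hb)
  rw [mem_closedBall_iff_norm] at hz h1
  have h2 : ‖z - a‖ < ‖a - b‖ := by rw [norm_sub_rev a b]; linarith [not_le.1 h1]
  rw [iso (y := a) h2.ne, max_eq_right h2.le]

lemma gn_congr (p : L[X]) {a b : L} {r : ℝ} (h : ‖a - b‖ ≤ r) : gn p a r = gn p b r := by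
  simp only [gn, max_congr h]

lemma cnt_congr (p : L[X]) {a b : L} {r : ℝ} (h : ‖a - b‖ ≤ r) : cnt p a r = cnt p b r := by
  classical
  unfold cnt
  congr 1
  refine Multiset.filter_congr fun c _ => ⟨fun hc => ?_, fun hc => ?_⟩
  · exact (tri c a b).trans (max_le hc h)
  · exact (tri c b a).trans (max_le hc (by rwa [norm_sub_rev]))

lemma gn_mono (p : L[X]) (a : L) {r s : ℝ} (hr : 0 ≤ r) (h : r ≤ s) : gn p a r ≤ gn p a s :=
  mul_le_mul_of_nonneg_left (mprod_le (fun _ _ => hr.trans (le_max_right _ _))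
    fun _ _ => max_le_max le_rfl h) (norm_nonneg _)

lemma cnt_mono (p : L[X]) (a : L) {r s : ℝ} (h : r ≤ s) : cnt p a r ≤ cnt p a s := by
  classical
  unfold cnt
  exact Multiset.card_le_card (Multiset.monotone_filter_right _ fun b hb => le_trans hb h)

lemma cnt_le (p : L[X]) (a : L) (r : ℝ) : cnt p a r ≤ p.natDegree := by
  classical
  unfold cnt
  exact (Multiset.card_le_card (Multiset.filter_le _ _)).trans (card_roots' p)

lemma cnt_eq_zero_iff {p : L[X]} (hp : p ≠ 0) (a : L) (r : ℝ) :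
    cnt p a r = 0 ↔ ∀ z ∈ closedBall a r, p.eval z ≠ 0 := by
  classical
  unfold cnt
  rw [Multiset.card_eq_zero, Multiset.filter_eq_nil]
  simp only [mem_roots hp, IsRoot.def, mem_closedBall_iff_norm]
  exact ⟨fun h z hz h0 => h z h0 hz, fun h z h0 hz => h z hz h0⟩

lemma continuous_gn (p : L[X]) (a : L) : Continuous (gn p a) := by
  unfold gn
  exact continuous_const.mul (continuous_multiset_prod _ fun b _ =>
    continuous_const.max continuous_id)

lemma gn_C_mul (c : L) (p : L[X]) (a : L) (r : ℝ) : gn (C c * p) a r = ‖c‖ * gn p a r := by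
  by_cases hc : c = 0
  · simp [hc, gn]
  · rw [gn, gn, roots_C_mul _ hc, leadingCoeff_mul, leadingCoeff_C, norm_mul, mul_assoc]

lemma gn_add_le (hL : Big L) (p q : L[X]) (a : L) {r : ℝ} (hr : 0 < r) :
    gn (p + q) a r ≤ max (gn p a r) (gn q a r) := by
  classical
  obtain ⟨z, _, h⟩ := exists_eval_eq_gn hL {p, q, p + q} a hr
  rw [← h p (by simp), ← h q (by simp), ← h (p + q) (by simp), eval_add]
  exact IsUltrametricDist.norm_add_le_max _ _

lemma gn_add_eq (hL : Big L) {p q : L[X]} {a : L} {r : ℝ} (hr : 0 < r) (h : gn q a r < gn p a r) :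
    gn (p + q) a r = gn p a r := by
  classical
  obtain ⟨z, _, h'⟩ := exists_eval_eq_gn hL {p, q, p + q} a hr
  rw [← h' p (by simp), ← h' q (by simp)] at h
  rw [← h' p (by simp), ← h' (p + q) (by simp), eval_add,
    IsUltrametricDist.norm_add_eq_max_of_norm_ne_norm h.ne', max_eq_left h.le]

namespace NAPolyAux

lemma log_mprod (m : Multiset L) (a : L) {r : ℝ} (hr : 0 < r) :
    Real.log (m.map fun b => max ‖a - b‖ r).prod = (m.map fun b => Real.log (max ‖a - b‖ r)).sum := by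
  induction m using Multiset.induction_on with
  | empty => simp
  | cons c m ih =>
    simp only [Multiset.map_cons, Multiset.prod_cons, Multiset.sum_cons]
    rw [Real.log_mul (hr.trans_le (le_max_right _ _)).ne' (Multiset.prod_pos fun x hx => ?_).ne', ih]
    obtain ⟨b, _, rfl⟩ := Multiset.mem_map.1 hx
    exact hr.trans_le (le_max_right _ _)

lemma log_gn_sub {p : L[X]} (hp : p ≠ 0) (a : L) {r s : ℝ} (hr : 0 < r) (hs : 0 < s) :
    Real.log (gn p a s) - Real.log (gn p a r) =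
      (p.roots.map fun b => Real.log (max ‖a - b‖ s) - Real.log (max ‖a - b‖ r)).sum := by
  have h0 : ‖p.leadingCoeff‖ ≠ 0 := (norm_pos_iff.2 (leadingCoeff_ne_zero.2 hp)).ne'
  have h1 : ∀ t : ℝ, 0 < t → (p.roots.map fun b => max ‖a - b‖ t).prod ≠ 0 := fun t ht =>
    (Multiset.prod_pos fun x hx => by
      obtain ⟨b, _, rfl⟩ := Multiset.mem_map.1 hx
      exact ht.trans_le (le_max_right _ _)).ne'
  rw [gn, gn, Real.log_mul h0 (h1 s hs), Real.log_mul h0 (h1 r hr), log_mprod _ _ hr,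
    log_mprod _ _ hs, Multiset.sum_map_sub]
  ring

open Classical in
lemma cnt_mul (p : L[X]) (a : L) (r c : ℝ) :
    (cnt p a r : ℝ) * c = (p.roots.map fun b => if ‖b - a‖ ≤ r then c else 0).sum := by
  unfold cnt
  induction p.roots using Multiset.induction_on with
  | empty => simp
  | cons x m ih =>
    rw [Multiset.map_cons, Multiset.sum_cons, ← ih, Multiset.filter_cons]
    split_ifs
    · simp only [Multiset.card_add, Multiset.card_singleton]; push_cast; ring
    · simp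

end NAPolyAux

lemma le_log_gn {p : L[X]} (hp : p ≠ 0) (a : L) {r s : ℝ} (hr : 0 < r) (h : r ≤ s) :
    (cnt p a r : ℝ) * (Real.log s - Real.log r) ≤ Real.log (gn p a s) - Real.log (gn p a r) := by
  rw [log_gn_sub hp a hr (hr.trans_le h), cnt_mul]
  refine Multiset.sum_map_le_sum_map _ _ fun b _ => ?_
  rw [norm_sub_rev a b]
  split_ifs with hb
  · rw [max_eq_right hb, max_eq_right (hb.trans h)]
  · exact sub_nonneg.2 (Real.log_le_log (hr.trans_le (le_max_right _ _)) (max_le_max le_rfl h))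

lemma log_gn_le {p : L[X]} (hp : p ≠ 0) (a : L) {r s : ℝ} (hr : 0 < r) (h : r ≤ s) :
    Real.log (gn p a s) - Real.log (gn p a r) ≤ (cnt p a s : ℝ) * (Real.log s - Real.log r) := by
  rw [log_gn_sub hp a hr (hr.trans_le h), cnt_mul]
  refine Multiset.sum_map_le_sum_map _ _ fun b _ => ?_
  rw [norm_sub_rev a b]
  split_ifs with hb
  · rw [max_eq_right hb]
    exact sub_le_sub_left (Real.log_le_log hr (le_max_right _ _)) _
  · push Not at hb
    rw [max_eq_left hb.le, max_eq_left (h.trans hb.le), sub_self]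

/-- No roots in an annulus just outside and just inside a circle. -/
lemma exists_annulus {p : L[X]} (hp : p ≠ 0) (a : L) {r : ℝ} (hr : 0 < r) :
    ∃ s t, 0 < s ∧ s < r ∧ r < t ∧ ∀ b, p.eval b = 0 → ‖b - a‖ ≤ s ∨ ‖b - a‖ = r ∨ t ≤ ‖b - a‖ := by
  have key : ∀ m : Multiset L, ∃ s t, 0 < s ∧ s < r ∧ r < t ∧
      ∀ b ∈ m, ‖b - a‖ ≤ s ∨ ‖b - a‖ = r ∨ t ≤ ‖b - a‖ := by
    intro m
    induction m using Multiset.induction_on with
    | empty => exact ⟨r / 2, r + 1, by linarith, by linarith, by linarith, by simp⟩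
    | cons c m ih =>
      obtain ⟨s, t, h0, h1, h2, h⟩ := ih
      rcases lt_trichotomy ‖c - a‖ r with hc | hc | hc
      · refine ⟨max s ‖c - a‖, t, h0.trans_le (le_max_left _ _), max_lt h1 hc, h2, fun b hb => ?_⟩
        rcases Multiset.mem_cons.1 hb with rfl | hb
        · exact Or.inl (le_max_right _ _)
        · exact (h b hb).imp_left fun h => h.trans (le_max_left _ _)
      · refine ⟨s, t, h0, h1, h2, fun b hb => ?_⟩
        rcases Multiset.mem_cons.1 hb with rfl | hb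
        · exact Or.inr (Or.inl hc)
        · exact h b hb
      · refine ⟨s, min t ‖c - a‖, h0, h1, lt_min h2 hc, fun b hb => ?_⟩
        rcases Multiset.mem_cons.1 hb with rfl | hb
        · exact Or.inr (Or.inr (min_le_right _ _))
        · exact (h b hb).imp_right fun h => h.imp_right fun h => (min_le_left _ _).trans h
  obtain ⟨s, t, h0, h1, h2, h⟩ := key p.roots
  exact ⟨s, t, h0, h1, h2, fun b hb => h b ((mem_roots hp).2 hb)⟩

/-- Exact growth when no root lies in the half open annulus. -/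
lemma log_gn_eq {p : L[X]} (hp : p ≠ 0) (a : L) {r s : ℝ} (hr : 0 < r) (h : r ≤ s)
    (hroot : ∀ b, p.eval b = 0 → ‖b - a‖ ≤ r ∨ s ≤ ‖b - a‖) :
    Real.log (gn p a s) - Real.log (gn p a r) = (cnt p a r : ℝ) * (Real.log s - Real.log r) := by
  rw [log_gn_sub hp a hr (hr.trans_le h), cnt_mul]
  congr 1
  refine Multiset.map_congr rfl fun b hb => ?_
  rw [norm_sub_rev a b]
  split_ifs with hb'
  · rw [max_eq_right hb', max_eq_right (hb'.trans h)]
  · have := (hroot b (isRoot_of_mem_roots hb)).resolve_left hb'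
    rw [max_eq_left this, max_eq_left (h.trans this), sub_self]

namespace NAPolyAux

open Classical in
/-- The number of members of a multiset that lie in a set. -/
noncomputable def ct (m : Multiset L) (S : Set L) : ℕ := (m.filter fun b => b ∈ S).card

lemma cnt_eq (p : L[X]) (a : L) (r : ℝ) : cnt p a r = ct p.roots (closedBall a r) := by
  classical
  unfold cnt ct
  congr 1
  exact Multiset.filter_congr fun b _ => mem_closedBall_iff_norm.symm

lemma ct_le {m : Multiset L} {S T : Set L} (h : ∀ b ∈ m, b ∈ S → b ∈ T) : ct m S ≤ ct m T := by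
  classical
  unfold ct
  refine Multiset.card_le_card (Multiset.le_filter.2 ⟨Multiset.filter_le _ _, fun b hb => ?_⟩)
  rw [Multiset.mem_filter] at hb
  exact h b hb.1 hb.2

lemma ct_congr {m : Multiset L} {S T : Set L} (h : ∀ b ∈ m, b ∈ S ↔ b ∈ T) : ct m S = ct m T :=
  le_antisymm (ct_le fun b hb => (h b hb).1) (ct_le fun b hb => (h b hb).2)

lemma ct_union (m : Multiset L) {S T : Set L} (h : Disjoint S T) :
    ct m (S ∪ T) = ct m S + ct m T := by
  classical
  unfold ct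
  induction m using Multiset.induction_on with
  | empty => simp
  | cons x m ih =>
    simp only [Multiset.filter_cons, Multiset.card_add, ih]
    by_cases h1 : x ∈ S <;> by_cases h2 : x ∈ T
    · exact absurd h2 (Set.disjoint_left.1 h h1)
    · simp [h1, h2]; ring
    · simp [h1, h2]; ring
    · simp [h1, h2]

lemma ct_empty (m : Multiset L) : ct m ∅ = 0 := by simp [ct]

lemma ct_biUnion {ι : Type} (m : Multiset L) (s : Finset ι) (S : ι → Set L)
    (h : ∀ i ∈ s, ∀ j ∈ s, i ≠ j → Disjoint (S i) (S j)) :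
    ct m (⋃ i ∈ s, S i) = ∑ i ∈ s, ct m (S i) := by
  classical
  induction s using Finset.induction_on with
  | empty => simp [ct_empty]
  | insert i s hi ih =>
    rw [Finset.set_biUnion_insert, Finset.sum_insert hi, ct_union, ih]
    · exact fun j hj k hk => h j (by simp [hj]) k (by simp [hk])
    · simp only [Set.disjoint_iUnion_right]
      exact fun j hj => h i (by simp) j (by simp [hj]) (fun e => hi (e ▸ hj))

end NAPolyAux

lemma sum_cnt_le {ι : Type} (s : Finset ι) (p : L[X]) (a : ι → L) (r : ι → ℝ)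
    (h : ∀ i ∈ s, ∀ j ∈ s, i ≠ j → Disjoint (closedBall (a i) (r i)) (closedBall (a j) (r j)))
    {b : L} {t : ℝ} (hb : ∀ i ∈ s, closedBall (a i) (r i) ⊆ closedBall b t) :
    ∑ i ∈ s, cnt p (a i) (r i) ≤ cnt p b t := by
  simp only [cnt_eq]
  rw [← ct_biUnion _ _ _ h]
  refine ct_le fun x _ hx => ?_
  simp only [Set.mem_iUnion] at hx
  obtain ⟨i, hi, hx⟩ := hx
  exact hb i hi hx

namespace NAPolyAux

lemma norm_msum_lt {m : Multiset L} {f : L → L} (h : ∀ b ∈ m, ‖f b‖ < 1) : ‖(m.map f).sum‖ < 1 := by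
  induction m using Multiset.induction_on with
  | empty => simp
  | cons x m ih =>
    rw [Multiset.map_cons, Multiset.sum_cons]
    exact (IsUltrametricDist.norm_add_le_max _ _).trans_lt
      (max_lt (h x (by simp)) (ih fun b hb => h b (by simp [hb])))

lemma logder {p : L[X]} {a z : L} {r : ℝ} (hr : 0 < r) (hz : ‖z - a‖ = r)
    (h : ∀ b, p.eval b = 0 → ‖b - a‖ ≠ r) :
    ‖(z - a) * (p.derivative.eval z / p.eval z) - (cnt p a r : L)‖ < 1 := by
  classical
  have hp : p.eval z ≠ 0 := fun h0 => h z h0 hz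
  have e : (cnt p a r : L) = (p.roots.map fun b => if ‖b - a‖ ≤ r then (1 : L) else 0).sum := by
    unfold cnt
    induction p.roots using Multiset.induction_on with
    | empty => simp
    | cons x m ih =>
      rw [Multiset.map_cons, Multiset.sum_cons, ← ih, Multiset.filter_cons]
      split_ifs
      · simp only [Multiset.card_add, Multiset.card_singleton]; push_cast; ring
      · simp
  rw [(IsAlgClosed.splits p).eval_derivative_div_eval_of_ne_zero hp, e,
    ← Multiset.sum_map_mul_left, ← Multiset.sum_map_sub]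
  refine norm_msum_lt fun b hb => ?_
  have h1 := h b (isRoot_of_mem_roots hb)
  have h2 : ‖z - b‖ = max r ‖b - a‖ := by
    rw [iso (y := a) (by rw [hz, norm_sub_rev]; exact h1.symm), hz, norm_sub_rev]
  have h3 : 0 < ‖z - b‖ := h2 ▸ hr.trans_le (le_max_left _ _)
  have h4 : z - b ≠ 0 := norm_pos_iff.1 h3
  split_ifs with hb'
  · have : (z - a) * (1 / (z - b)) - 1 = (b - a) / (z - b) := by field_simp; ring
    rw [this, norm_div, div_lt_one h3, h2, max_eq_left hb']
    exact lt_of_le_of_ne hb' h1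
  · push Not at hb'
    rw [sub_zero, mul_one_div, norm_div, div_lt_one h3, h2, max_eq_right hb'.le, hz]
    exact hb'

lemma norm_nat_sub (hL : Big L) {m n : ℕ} (h : m ≠ n) : ‖(m : L) - n‖ = 1 := by
  rcases lt_or_gt_of_ne h with h | h
  · rw [norm_sub_rev, ← Nat.cast_sub h.le]; exact hL.res _ (by omega)
  · rw [← Nat.cast_sub h.le]; exact hL.res _ (by omega)

lemma wr_norm (hL : Big L) {P Q : L[X]} {a : L} {r : ℝ} (hr : 0 < r)
    (hPr : ∀ b, P.eval b = 0 → ‖b - a‖ ≠ r) (hQr : ∀ b, Q.eval b = 0 → ‖b - a‖ ≠ r)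
    (hne : cnt P a r ≠ cnt Q a r) {z : L} (hz : ‖z - a‖ = r) :
    ‖(wr P Q).eval z‖ * r = ‖P.eval z‖ * ‖Q.eval z‖ := by
  have hp : P.eval z ≠ 0 := fun h0 => hPr z h0 hz
  have hq : Q.eval z ≠ 0 := fun h0 => hQr z h0 hz
  have h1 := logder hr hz hPr
  have h2 := logder hr hz hQr
  have h3 := norm_nat_sub hL hne
  have h4 := (sub_le _ _).trans_lt (max_lt h1 h2)
  have e : (wr P Q).eval z * (z - a) = P.eval z * Q.eval z * (((cnt P a r : L) - cnt Q a r) +
      (((z - a) * (P.derivative.eval z / P.eval z) - (cnt P a r : L)) -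
        ((z - a) * (Q.derivative.eval z / Q.eval z) - (cnt Q a r : L)))) := by
    simp only [wr, eval_sub, eval_mul]; field_simp; ring
  have := congrArg norm e
  rw [norm_mul, norm_mul, norm_mul, hz,
    IsUltrametricDist.norm_add_eq_max_of_norm_ne_norm (by rw [h3]; exact h4.ne'), h3,
    max_eq_left h4.le, mul_one] at this
  exact this

lemma cnt_out {p : L[X]} {a : L} {r s : ℝ} (h : r ≤ s)
    (hroot : ∀ b, p.eval b = 0 → ‖b - a‖ ≤ r ∨ s < ‖b - a‖) : cnt p a s = cnt p a r := by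
  rw [cnt_eq, cnt_eq]
  refine ct_congr fun b hb => ?_
  simp only [mem_closedBall_iff_norm]
  exact ⟨fun h' => (hroot b (isRoot_of_mem_roots hb)).resolve_right (not_lt.2 h'),
    fun h' => h'.trans h⟩

/-- No root just outside of a closed disc. -/
lemma exists_out {p : L[X]} (hp : p ≠ 0) (a : L) {r : ℝ} (hr : 0 < r) :
    ∃ t, r < t ∧ ∀ b, p.eval b = 0 → ‖b - a‖ ≤ r ∨ t ≤ ‖b - a‖ := by
  obtain ⟨s, t, _, h1, h2, h⟩ := exists_annulus hp a hr
  refine ⟨t, h2, fun b hb => ?_⟩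
  rcases h b hb with h | h | h
  · exact Or.inl (h.trans h1.le)
  · exact Or.inl h.le
  · exact Or.inr h

lemma gn_wr (hL : Big L) {P Q : L[X]} {a : L} {r t u : ℝ} (hr : 0 < r) (h1 : r < u) (h2 : u < t)
    (h : ∀ b, (P * Q).eval b = 0 → ‖b - a‖ ≤ r ∨ t ≤ ‖b - a‖) (hne : cnt P a r ≠ cnt Q a r) :
    gn (wr P Q) a u * u = gn P a u * gn Q a u := by
  classical
  have hu : 0 < u := hr.trans h1
  obtain ⟨z, hz, hz'⟩ := exists_eval_eq_gn hL {P, Q, wr P Q} a hu
  have hP : ∀ b, P.eval b = 0 → ‖b - a‖ ≤ r ∨ u < ‖b - a‖ := fun b hb =>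
    (h b (by simp [hb])).imp_right fun h => h2.trans_le h
  have hQ : ∀ b, Q.eval b = 0 → ‖b - a‖ ≤ r ∨ u < ‖b - a‖ := fun b hb =>
    (h b (by simp [hb])).imp_right fun h => h2.trans_le h
  rw [← hz' P (by simp), ← hz' Q (by simp), ← hz' (wr P Q) (by simp)]
  refine wr_norm hL hu (fun b hb e => ?_) (fun b hb e => ?_) ?_ hz
  · rcases hP b hb with h | h <;> linarith
  · rcases hQ b hb with h | h <;> linarith
  · rwa [cnt_out h1.le hP, cnt_out h1.le hQ]

lemma wr_out (hL : Big L) {P Q : L[X]} (hP : P ≠ 0) (hQ : Q ≠ 0) {a : L} {r : ℝ} (hr : 0 < r)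
    (hne : cnt P a r ≠ cnt Q a r) :
    wr P Q ≠ 0 ∧ cnt (wr P Q) a r + 1 = cnt P a r + cnt Q a r := by
  obtain ⟨t, ht, h⟩ := exists_out (mul_ne_zero hP hQ) a hr
  have hW : wr P Q ≠ 0 := by
    intro h0
    have hu : 0 < (r + t) / 2 := by linarith
    have := gn_wr hL hr (u := (r + t) / 2) (by linarith) (by linarith) h hne
    rw [h0] at this
    have h1 := mul_pos (gn_pos hP a hu) (gn_pos hQ a hu)
    rw [← this] at h1
    simp [gn] at h1
  refine ⟨hW, ?_⟩
  obtain ⟨t', ht', h'⟩ := exists_out hW a hr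
  have key : ∀ u, r < u → u < min t t' →
      ((cnt (wr P Q) a r : ℝ) + 1 - cnt P a r - cnt Q a r) * (Real.log u - Real.log r) =
        Real.log (gn P a r) + Real.log (gn Q a r) - Real.log (gn (wr P Q) a r) - Real.log r := by
    intro u h1 h2
    have h3 : u < t := h2.trans_le (min_le_left _ _)
    have h4 : u < t' := h2.trans_le (min_le_right _ _)
    have hu : 0 < u := hr.trans h1
    have e := congrArg Real.log (gn_wr hL hr h1 h3 h hne)
    rw [Real.log_mul (gn_pos hW a hu).ne' hu.ne',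
      Real.log_mul (gn_pos hP a hu).ne' (gn_pos hQ a hu).ne'] at e
    have e1 := log_gn_eq hP a hr h1.le fun b hb =>
      (h b (by simp [hb])).imp_right fun h => h3.le.trans h
    have e2 := log_gn_eq hQ a hr h1.le fun b hb =>
      (h b (by simp [hb])).imp_right fun h => h3.le.trans h
    have e3 := log_gn_eq hW a hr h1.le fun b hb => (h' b hb).imp_right fun h => h4.le.trans h
    linear_combination e - e3 + e1 + e2
  have hm : r < min t t' := lt_min ht ht'
  have k1 := key ((2 * r + min t t') / 3) (by linarith) (by linarith)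
  have k2 := key ((r + 2 * min t t') / 3) (by linarith) (by linarith)
  have hl : Real.log ((2 * r + min t t') / 3) < Real.log ((r + 2 * min t t') / 3) :=
    Real.log_lt_log (by linarith) (by linarith)
  have : ((cnt (wr P Q) a r : ℝ) + 1 - cnt P a r - cnt Q a r) *
      (Real.log ((r + 2 * min t t') / 3) - Real.log ((2 * r + min t t') / 3)) = 0 := by
    linear_combination k2 - k1
  have h5 := (mul_eq_zero.1 this).resolve_right (by linarith)
  have h6 : ((cnt (wr P Q) a r + 1 : ℕ) : ℝ) = ((cnt P a r + cnt Q a r : ℕ) : ℝ) := by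
    push_cast; linarith
  exact_mod_cast h6

lemma lip_m (m : Multiset L) (a : L) {r : ℝ} (hr : 0 < r) {x y : L} (hx : ‖x - a‖ ≤ r)
    (hy : ‖y - a‖ ≤ r) : ‖(m.map (x - ·)).prod - (m.map (y - ·)).prod‖ * r ≤
      (m.map fun b => max ‖a - b‖ r).prod * ‖x - y‖ := by
  have hle : ∀ {z : L}, ‖z - a‖ ≤ r → ∀ b, ‖z - b‖ ≤ max ‖a - b‖ r := fun hz b =>
    (tri _ a b).trans (max_le (hz.trans (le_max_right _ _)) (le_max_left _ _))
  induction m using Multiset.induction_on with
  | empty => simp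
  | cons c m ih =>
    simp only [Multiset.map_cons, Multiset.prod_cons]
    set A := (m.map (x - ·)).prod
    set B := (m.map (y - ·)).prod
    set M := (m.map fun b => max ‖a - b‖ r).prod
    have hA : ‖A‖ ≤ M := by
      rw [norm_mprod]; exact mprod_le (fun _ _ => norm_nonneg _) fun b _ => hle hx b
    have hM : 0 ≤ M := (norm_nonneg _).trans hA
    have e : (x - c) * A - (y - c) * B = (x - y) * A + (y - c) * (A - B) := by ring
    rw [e]
    refine (mul_le_mul_of_nonneg_right (IsUltrametricDist.norm_add_le_max _ _) hr.le).trans ?_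
    rw [max_mul_of_nonneg _ _ hr.le, norm_mul, norm_mul]
    refine max_le ?_ ?_
    · calc ‖x - y‖ * ‖A‖ * r ≤ ‖x - y‖ * M * max ‖a - c‖ r := by
            gcongr; exact le_max_right _ _
        _ = _ := by ring
    · calc ‖y - c‖ * ‖A - B‖ * r = ‖y - c‖ * (‖A - B‖ * r) := by ring
        _ ≤ max ‖a - c‖ r * (M * ‖x - y‖) := by
            gcongr; exact hle hy c
        _ = _ := by ring

lemma lip (p : L[X]) (a : L) {r : ℝ} (hr : 0 < r) {x y : L} (hx : ‖x - a‖ ≤ r)
    (hy : ‖y - a‖ ≤ r) : ‖p.eval x - p.eval y‖ * r ≤ gn p a r * ‖x - y‖ := by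
  rw [(IsAlgClosed.splits p).eval_eq_prod_roots, (IsAlgClosed.splits p).eval_eq_prod_roots,
    ← mul_sub, norm_mul, gn, mul_assoc, mul_assoc]
  exact mul_le_mul_of_nonneg_left (lip_m _ a hr hx hy) (norm_nonneg _)

lemma gn_eq_eval {p : L[X]} {a : L} {t : ℝ} (h : ∀ b, p.eval b = 0 → t ≤ ‖b - a‖) :
    gn p a t = ‖p.eval a‖ := by
  rw [norm_eval, gn]
  congr 2
  refine Multiset.map_congr rfl fun b hb => max_eq_left ?_
  rw [norm_sub_rev]; exact h b (isRoot_of_mem_roots hb)

end NAPolyAux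

/-- The Wronskian count. -/
theorem wr_count (hL : Big L) {P Q : L[X]} (hP : P ≠ 0) (hQ : Q ≠ 0) {a : L} {r : ℝ} (hr : 0 < r)
    (hPr : ∀ b, P.eval b = 0 → ‖b - a‖ ≠ r) (hQr : ∀ b, Q.eval b = 0 → ‖b - a‖ ≠ r)
    (hne : cnt P a r ≠ cnt Q a r) :
    (∀ z, ‖z - a‖ = r → ‖(wr P Q).eval z‖ * r = ‖P.eval z‖ * ‖Q.eval z‖) ∧
      cnt (wr P Q) a r + 1 = cnt P a r + cnt Q a r :=
  ⟨fun _ hz => wr_norm hL hr hPr hQr hne hz, (wr_out hL hP hQ hr hne).2⟩

/-- A rational function without poles and critical points on a disc is close to a similarity. -/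
theorem conf_of_wr (hL : Big L) {P Q : L[X]} {a : L} {r : ℝ} (hr : 0 < r)
    (hQ : ∀ z ∈ closedBall a r, Q.eval z ≠ 0) (hW : ∀ z ∈ closedBall a r, (wr P Q).eval z ≠ 0) :
    (∃ α, Conf (fun z => P.eval z / Q.eval z) a r α) ∧
      ∀ z ∈ closedBall a r, ‖Q.eval z‖ = ‖Q.eval a‖ := by
  refine ⟨?_, fun z hz => norm_eval_const hz hQ⟩
  have ha : a ∈ closedBall a r := mem_closedBall_self hr.le
  have hQa := hQ a ha
  have hQ0 : Q ≠ 0 := fun h => hQa (by simp [h])
  have hW0 : wr P Q ≠ 0 := fun h => hW a ha (by simp [h])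
  set b := P.eval a / Q.eval a with hb
  have hWb : wr (P - C b * Q) Q = wr P Q := by
    simp only [wr, derivative_sub, derivative_mul, derivative_C]; ring
  have hPb0 : P - C b * Q ≠ 0 := fun h => hW0 (by rw [← hWb, h]; simp [wr])
  have hroot : (P - C b * Q).IsRoot a := by
    simp only [IsRoot.def, eval_sub, eval_mul, eval_C, hb]; field_simp; ring
  obtain ⟨R, hR⟩ := dvd_iff_isRoot.2 hroot
  have hR0 : R ≠ 0 := fun h => hPb0 (by rw [hR, h, mul_zero])
  have c1 := (cnt_eq_zero_iff hQ0 a r).2 hQ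
  have c2 := (cnt_eq_zero_iff hW0 a r).2 hW
  have c3 : cnt (P - C b * Q) a r = cnt R a r + 1 := by
    classical
    unfold cnt
    rw [hR, roots_mul (hR ▸ hPb0), roots_X_sub_C, Multiset.filter_add, Multiset.card_add,
      Multiset.filter_singleton, if_pos (by simpa using hr.le)]
    simp [add_comm]
  have c4 := (wr_out hL hPb0 hQ0 (a := a) hr (by omega)).2
  rw [hWb] at c4
  have hRr := (cnt_eq_zero_iff hR0 a r).1 (by omega)
  obtain ⟨t, ht, h⟩ := exists_out (mul_ne_zero hR0 hQ0) a hr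
  have ht0 : 0 < t := hr.trans ht
  have g1 : gn R a t = ‖R.eval a‖ := gn_eq_eval fun c hc =>
    (h c (by simp [hc])).resolve_left fun h' => hRr c (mem_closedBall_iff_norm.2 h') hc
  have g2 : gn Q a t = ‖Q.eval a‖ := gn_eq_eval fun c hc =>
    (h c (by simp [hc])).resolve_left fun h' => hQ c (mem_closedBall_iff_norm.2 h') hc
  have hqa : 0 < ‖Q.eval a‖ := norm_pos_iff.2 hQa
  have hU : ∀ x ∈ closedBall a r, ∀ y ∈ closedBall a r,
      ‖R.eval x / Q.eval x - R.eval y / Q.eval y‖ * t ≤ ‖R.eval a / Q.eval a‖ * ‖x - y‖ := by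
    intro x hx y hy
    have hx' := (mem_closedBall_iff_norm.1 hx).trans ht.le
    have hy' := (mem_closedBall_iff_norm.1 hy).trans ht.le
    have l1 := lip R a ht0 hx' hy'
    have l2 := lip Q a ht0 hy' hx'
    rw [g1] at l1
    rw [g2, norm_sub_rev y x] at l2
    have e : R.eval x / Q.eval x - R.eval y / Q.eval y = ((R.eval x - R.eval y) * Q.eval y +
        R.eval y * (Q.eval y - Q.eval x)) / (Q.eval x * Q.eval y) := by
      have := hQ x hx
      have := hQ y hy
      field_simp; ring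
    rw [e, norm_div, norm_div, norm_mul, norm_eval_const hx hQ, norm_eval_const hy hQ,
      div_mul_eq_mul_div, div_le_iff₀ (mul_pos hqa hqa)]
    refine (mul_le_mul_of_nonneg_right (IsUltrametricDist.norm_add_le_max _ _) ht0.le).trans ?_
    rw [max_mul_of_nonneg _ _ ht0.le, norm_mul, norm_mul, norm_eval_const hy hQ,
      norm_eval_const hy hRr]
    have e2 : ‖R.eval a‖ / ‖Q.eval a‖ * ‖x - y‖ * (‖Q.eval a‖ * ‖Q.eval a‖) =
        ‖R.eval a‖ * ‖x - y‖ * ‖Q.eval a‖ := by field_simp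
    rw [e2]
    refine max_le ?_ ?_
    · nlinarith [mul_le_mul_of_nonneg_right l1 hqa.le]
    · nlinarith [mul_le_mul_of_nonneg_right l2 (norm_nonneg (R.eval a))]
  refine ⟨R.eval a / Q.eval a, div_ne_zero (hRr a ha) hQa, r / t, by positivity,
    (div_lt_one ht0).2 ht, fun x hx y hy => ?_⟩
  have hf : ∀ z ∈ closedBall a r, P.eval z / Q.eval z = b + (z - a) * (R.eval z / Q.eval z) := by
    intro z hz
    have h1 := congrArg (eval z) hR
    have := hQ z hz
    simp only [eval_sub, eval_mul, eval_C, eval_X] at h1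
    field_simp
    linear_combination h1
  have e : P.eval x / Q.eval x - P.eval y / Q.eval y - R.eval a / Q.eval a * (x - y) =
      (x - y) * (R.eval x / Q.eval x - R.eval a / Q.eval a) +
        (y - a) * (R.eval x / Q.eval x - R.eval y / Q.eval y) := by
    rw [hf x hx, hf y hy]; ring
  have hxa := mem_closedBall_iff_norm.1 hx
  have hya := mem_closedBall_iff_norm.1 hy
  simp only
  rw [e]
  refine (IsUltrametricDist.norm_add_le_max _ _).trans (max_le ?_ ?_)
  · have l := hU x hx a ha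
    rw [norm_mul, div_mul_eq_mul_div, div_mul_eq_mul_div, le_div_iff₀ ht0]
    calc _ = ‖x - y‖ * (‖R.eval x / Q.eval x - R.eval a / Q.eval a‖ * t) := by ring
      _ ≤ ‖x - y‖ * (‖R.eval a / Q.eval a‖ * r) :=
          mul_le_mul_of_nonneg_left (l.trans (by gcongr)) (norm_nonneg _)
      _ = _ := by ring
  · have l := hU x hx y hy
    rw [norm_mul, div_mul_eq_mul_div, div_mul_eq_mul_div, le_div_iff₀ ht0]
    calc _ = ‖y - a‖ * (‖R.eval x / Q.eval x - R.eval y / Q.eval y‖ * t) := by ring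
      _ ≤ r * (‖R.eval a / Q.eval a‖ * ‖x - y‖) :=
          mul_le_mul hya l (by positivity) hr.le
      _ = _ := by ring

namespace NAPolyAux

lemma last_le {f g : ℝ → ℝ} (hf : Continuous f) (hg : Continuous g) {r : ℝ} (hr : 0 < r)
    (h0 : f 0 < g 0) (h1 : g r < f r) :
    ∃ s, 0 < s ∧ s < r ∧ f s = g s ∧ ∀ t, s < t → t ≤ r → g t < f t := by
  have hc : IsCompact (Set.Icc 0 r ∩ {t | f t ≤ g t}) :=
    isCompact_Icc.inter_right (isClosed_le hf hg)
  obtain ⟨s, ⟨⟨hs0, hsr⟩, hs⟩, hmax⟩ := hc.exists_isGreatest ⟨0, ⟨le_rfl, hr.le⟩, h0.le⟩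
  have hlt : s < r := lt_of_le_of_ne hsr fun e => absurd hs (by rw [e]; exact not_le.2 h1)
  have hout : ∀ t, s < t → t ≤ r → g t < f t := fun t h2 h3 => by
    by_contra hc
    exact absurd (hmax ⟨⟨hs0.trans h2.le, h3⟩, not_lt.1 hc⟩) (not_le.2 h2)
  have heq : f s = g s := by
    refine le_antisymm hs ?_
    have : s ∈ closure (Set.Ioo s r) := by
      rw [closure_Ioo hlt.ne]; exact ⟨le_rfl, hlt.le⟩
    exact le_on_closure (fun t ht => (hout t ht.1 ht.2.le).le) hg.continuousOn hf.continuousOn this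
  exact ⟨s, lt_of_le_of_ne hs0 fun e => absurd heq (by rw [← e]; exact h0.ne), hlt, heq, hout⟩

lemma last_lt {f g : ℝ → ℝ} (hf : Continuous f) (hg : Continuous g) {r : ℝ} (hr : 0 < r)
    (h0 : g 0 < f 0) (h1 : f r ≤ g r) :
    ∃ s, 0 < s ∧ s ≤ r ∧ (∀ t, s ≤ t → t ≤ r → f t ≤ g t) ∧
      ∀ u, u < s → ∃ t, u < t ∧ t < s ∧ g t < f t := by
  set A : Set ℝ := Set.Icc 0 r ∩ {t | g t < f t} with hA
  have hne : A.Nonempty := ⟨0, ⟨le_rfl, hr.le⟩, h0⟩
  have hbd : BddAbove A := ⟨r, fun t ht => ht.1.2⟩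
  have hle : sSup A ≤ r := csSup_le hne fun t ht => ht.1.2
  have h00 : 0 ≤ sSup A := le_csSup hbd ⟨⟨le_rfl, hr.le⟩, h0⟩
  have hs : f (sSup A) ≤ g (sSup A) := by
    by_contra hc
    push Not at hc
    have hlt : sSup A < r := lt_of_le_of_ne hle fun e => absurd hc (by rw [e]; exact not_lt.2 h1)
    have ho : IsOpen {t | g t < f t} := isOpen_lt hg hf
    have : sSup A ∈ closure (Set.Ioo (sSup A) r) := by
      rw [closure_Ioo hlt.ne]; exact ⟨le_rfl, hlt.le⟩
    obtain ⟨t, ht, ht'⟩ := mem_closure_iff.1 this _ ho hc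
    exact absurd (le_csSup hbd ⟨⟨h00.trans ht'.1.le, ht'.2.le⟩, ht⟩) (not_le.2 ht'.1)
  refine ⟨sSup A, lt_of_le_of_ne h00 fun e => absurd hs (by rw [← e]; exact not_le.2 h0), hle,
    fun t h2 h3 => ?_, fun u hu => ?_⟩
  · rcases eq_or_lt_of_le h2 with rfl | h2
    · exact hs
    · by_contra hc
      exact absurd (le_csSup hbd ⟨⟨h00.trans h2.le, h3⟩, not_le.1 hc⟩) (not_le.2 h2)
  · obtain ⟨t, ht, hut⟩ := exists_lt_of_lt_csSup hne hu
    exact ⟨t, hut, lt_of_le_of_ne (le_csSup hbd ht) fun e =>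
      absurd hs (by rw [← e]; exact not_le.2 ht.2), ht.2⟩

lemma gn_zero (p : L[X]) (a : L) : gn p a 0 = ‖p.eval a‖ := gn_eq_eval fun _ _ => norm_nonneg _

lemma cnt_lt {P Q : L[X]} (hP : P ≠ 0) (hQ : Q ≠ 0) {a : L} {s t : ℝ} (hs : 0 < s) (hst : s < t)
    (h : ∀ b, (P * Q).eval b = 0 → ‖b - a‖ ≤ s ∨ t ≤ ‖b - a‖)
    (h1 : gn P a s * gn Q a t < gn P a t * gn Q a s) : cnt Q a s < cnt P a s := by
  have ht := hs.trans hst
  have e1 := log_gn_eq hP a hs hst.le fun b hb => h b (by simp [hb])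
  have e2 := log_gn_eq hQ a hs hst.le fun b hb => h b (by simp [hb])
  have e3 := Real.log_lt_log (mul_pos (gn_pos hP a hs) (gn_pos hQ a ht)) h1
  rw [Real.log_mul (gn_pos hP a hs).ne' (gn_pos hQ a ht).ne',
    Real.log_mul (gn_pos hP a ht).ne' (gn_pos hQ a hs).ne'] at e3
  have hl : 0 < Real.log t - Real.log s := sub_pos.2 (Real.log_lt_log hs hst)
  have : (cnt Q a s : ℝ) < cnt P a s := lt_of_mul_lt_mul_right (by linarith) hl.le
  exact_mod_cast this

/-- A disc that is mapped onto the unit disc. -/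
def Good (P Q : L[X]) (d : L × ℝ) : Prop :=
  0 < d.2 ∧ (∀ z ∈ closedBall d.1 d.2, Q.eval z ≠ 0 ∧ ‖P.eval z‖ ≤ ‖Q.eval z‖) ∧
    ∀ w : L, ‖w‖ ≤ 1 → ∃ z ∈ closedBall d.1 d.2, P.eval z = w * Q.eval z

/-- Discs and critical points inside a set. -/
def Fam (P Q : L[X]) (S : Set L) (n : ℕ) : Prop :=
  ∃ T : Finset (L × ℝ), (∀ d ∈ T, Good P Q d ∧ closedBall d.1 d.2 ⊆ S) ∧
    (∀ d ∈ T, ∀ e ∈ T, d ≠ e → Disjoint (closedBall d.1 d.2) (closedBall e.1 e.2)) ∧
    n ≤ T.card + ct (wr P Q).roots (S ∩ {z | ‖P.eval z‖ ≤ ‖Q.eval z‖})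

lemma Fam.mono {P Q : L[X]} {S S' : Set L} {n n' : ℕ} (h : Fam P Q S n) (hS : S ⊆ S')
    (hn : n' ≤ n) : Fam P Q S' n' := by
  obtain ⟨T, h1, h2, h3⟩ := h
  refine ⟨T, fun d hd => ⟨(h1 d hd).1, (h1 d hd).2.trans hS⟩, h2, hn.trans (h3.trans ?_)⟩
  exact Nat.add_le_add_left (ct_le fun b _ hb => Set.mem_inter (hS hb.1) hb.2) _

lemma Fam.union {P Q : L[X]} {S S' : Set L} {n n' : ℕ} (h : Fam P Q S n) (h' : Fam P Q S' n')
    (hd : Disjoint S S') : Fam P Q (S ∪ S') (n + n') := by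
  classical
  obtain ⟨T, h1, h2, h3⟩ := h
  obtain ⟨T', h1', h2', h3'⟩ := h'
  have hT : Disjoint T T' := Finset.disjoint_left.2 fun d hd1 hd2 =>
    Set.disjoint_left.1 hd ((h1 d hd1).2 (mem_closedBall_self (h1 d hd1).1.1.le))
      ((h1' d hd2).2 (mem_closedBall_self (h1 d hd1).1.1.le))
  refine ⟨T ∪ T', fun d hd => ?_, fun d hd' e he hne => ?_, ?_⟩
  · rcases Finset.mem_union.1 hd with hd | hd
    · exact ⟨(h1 d hd).1, (h1 d hd).2.trans Set.subset_union_left⟩
    · exact ⟨(h1' d hd).1, (h1' d hd).2.trans Set.subset_union_right⟩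
  · rcases Finset.mem_union.1 hd' with hd' | hd' <;> rcases Finset.mem_union.1 he with he | he
    · exact h2 d hd' e he hne
    · exact hd.mono (h1 d hd').2 (h1' e he).2
    · exact hd.symm.mono (h1' d hd').2 (h1 e he).2
    · exact h2' d hd' e he hne
  · rw [Finset.card_union_of_disjoint hT, Set.union_inter_distrib_right,
      ct_union _ (hd.mono Set.inter_subset_left Set.inter_subset_left)]
    omega

lemma Fam.biUnion {P Q : L[X]} {ι : Type} (s : Finset ι) (S : ι → Set L) (n : ι → ℕ)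
    (hF : ∀ i ∈ s, Fam P Q (S i) (n i))
    (h : ∀ i ∈ s, ∀ j ∈ s, i ≠ j → Disjoint (S i) (S j)) :
    Fam P Q (⋃ i ∈ s, S i) (∑ i ∈ s, n i) := by
  classical
  induction s using Finset.induction_on with
  | empty => exact ⟨∅, by simp, by simp, by simp⟩
  | insert i s hi ih =>
    rw [Finset.set_biUnion_insert, Finset.sum_insert hi]
    refine (hF i (by simp)).union (ih (fun j hj => hF j (by simp [hj]))
      fun j hj k hk => h j (by simp [hj]) k (by simp [hk])) ?_
    simp only [Set.disjoint_iUnion_right]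
    exact fun j hj => h i (by simp) j (by simp [hj]) (fun e => hi (e ▸ hj))

lemma good_of (hL : Big L) {P Q : L[X]} {x : L} {s : ℝ} (hs : 0 < s) (hx : P.eval x = 0)
    (hQ : ∀ z ∈ closedBall x s, Q.eval z ≠ 0) (he : gn P x s = gn Q x s) : Good P Q (x, s) := by
  classical
  have hxs : x ∈ closedBall x s := mem_closedBall_self hs.le
  have hlip : ∀ R : L[X], (∀ z ∈ closedBall x s, R.eval z ≠ 0) → ∀ z ∈ closedBall x s,
      ‖R.eval z - R.eval x‖ < ‖R.eval x‖ := by
    intro R hR z hz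
    have hR0 : R ≠ 0 := fun h => hR x hxs (by simp [h])
    obtain ⟨t, ht, h⟩ := exists_out hR0 x hs
    have g1 : gn R x t = ‖R.eval x‖ := gn_eq_eval fun c hc =>
      (h c hc).resolve_left fun h' => hR c (mem_closedBall_iff_norm.2 h') hc
    have hz' := mem_closedBall_iff_norm.1 hz
    have l := lip R x (hs.trans ht) (hz'.trans ht.le) (y := x) (by simp; linarith)
    rw [g1] at l
    have hp : 0 < ‖R.eval x‖ := norm_pos_iff.2 (hR x hxs)
    refine lt_of_mul_lt_mul_right (l.trans_lt ?_) (hs.trans ht).le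
    exact mul_lt_mul_of_pos_left (hz'.trans_lt ht) hp
  have gQ : gn Q x s = ‖Q.eval x‖ := gn_eq_eval fun c hc => by
    by_contra h'
    exact hQ c (mem_closedBall_iff_norm.2 (not_le.1 h').le) hc
  refine ⟨hs, fun z hz => ⟨hQ z hz, ?_⟩, fun w hw => ?_⟩
  · rw [norm_eval_const hz hQ, ← gQ, ← he]
    exact norm_eval_le_gn P (mem_closedBall_iff_norm.1 hz)
  · by_contra hc
    push Not at hc
    obtain ⟨z, hz, hz'⟩ := exists_eval_eq_gn hL {P} x hs
    have hz1 : z ∈ closedBall x s := mem_closedBall_iff_norm.2 hz.le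
    have l1 := hlip (P - C w * Q) (fun y hy => by simpa [sub_eq_zero] using hc y hy) z hz1
    have l2 := hlip Q hQ z hz1
    simp only [eval_sub, eval_mul, eval_C, hx, zero_sub, norm_neg, norm_mul] at l1
    have e : P.eval z = (P.eval z - w * Q.eval z - -(w * Q.eval x)) + w * (Q.eval z - Q.eval x) := by
      ring
    have h1 := hz' P (by simp)
    rw [he, gQ, e] at h1
    refine absurd h1 (ne_of_lt ((IsUltrametricDist.norm_add_le_max _ _).trans_lt (max_lt ?_ ?_)))
    · exact l1.trans_le (mul_le_of_le_one_left (norm_nonneg _) hw)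
    · rw [norm_mul]
      exact (mul_le_of_le_one_left (norm_nonneg _) hw).trans_lt l2

lemma hole {P Q : L[X]} (hL : Big L) (hP : P ≠ 0) (hQ : Q ≠ 0) (hW : wr P Q ≠ 0) {q : L} {t : ℝ}
    (ht : 0 < t) (h1 : gn P q t ≤ gn Q q t)
    (h2 : ∀ u, u < t → ∃ v, u < v ∧ v < t ∧ gn Q q v < gn P q v) :
    ∃ v, 0 < v ∧ v < t ∧ gn Q q v < gn P q v ∧ cnt P q v = ct P.roots (ball q t) ∧
      ct P.roots (ball q t) < ct Q.roots (ball q t) ∧
      ct (wr P Q).roots (ball q t) + 1 = ct P.roots (ball q t) + ct Q.roots (ball q t) := by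
  obtain ⟨u, t', hu, hut, htt, h⟩ := exists_annulus (mul_ne_zero (mul_ne_zero hQ hP) hW) q ht
  obtain ⟨v, huv, hvt, hv⟩ := h2 u hut
  have hv0 := hu.trans huv
  have h' : ∀ b, (Q * P * wr P Q).eval b = 0 → ‖b - q‖ ≤ v ∨ t ≤ ‖b - q‖ := fun b hb => by
    rcases h b hb with h | h | h
    · exact Or.inl (h.trans huv.le)
    · exact Or.inr h.ge
    · exact Or.inr (htt.le.trans h)
  have hc : ∀ R : L[X], (∀ b, R.eval b = 0 → (Q * P * wr P Q).eval b = 0) →
      cnt R q v = ct R.roots (ball q t) := fun R hR => by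
    rw [cnt_eq]
    refine ct_congr fun b hb => ?_
    rw [mem_closedBall_iff_norm, mem_ball_iff_norm]
    exact ⟨fun h => h.trans_lt hvt, fun h =>
      (h' b (hR b (isRoot_of_mem_roots hb))).resolve_right (not_le.2 h)⟩
  have c1 := hc P fun b hb => by simp [hb]
  have c2 := hc Q fun b hb => by simp [hb]
  have c3 := hc (wr P Q) fun b hb => by simp [hb]
  have c4 : cnt P q v < cnt Q q v := cnt_lt hQ hP hv0 hvt (fun b hb => h' b (by
      rw [eval_mul, hb, zero_mul])) (by
    rw [mul_comm]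
    exact mul_lt_mul' h1 hv (gn_nonneg _ _ hv0.le) (gn_pos hQ _ ht))
  have c5 := (wr_out hL hP hQ hv0 c4.ne).2
  exact ⟨v, hv0, hvt, hv, c1, by omega, by omega⟩

lemma top {P Q : L[X]} (hL : Big L) (hP : P ≠ 0) (hco : ∀ z, P.eval z = 0 → Q.eval z ≠ 0)
    {x : L} {s r : ℝ} (hx : P.eval x = 0) (hs : 0 < s) (hsr : s < r) (he : gn P x s = gn Q x s)
    (hout : ∀ t, s < t → t ≤ r → gn Q x t < gn P x t)
    (ih : ∀ (a : L) (v : ℝ), 0 < v → cnt P a v < cnt P x s → gn Q a v < gn P a v →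
      Fam P Q (closedBall a v) (cnt P a v)) : Fam P Q (closedBall x s) (cnt P x s) := by
  classical
  have hQ : Q ≠ 0 := fun h => hco x hx (by simp [h])
  obtain ⟨t0, ht0, h0⟩ := exists_out (mul_ne_zero hP hQ) x hs
  have c1 : cnt Q x s < cnt P x s := by
    refine cnt_lt hP hQ hs (lt_min ht0 hsr) (fun b hb =>
      (h0 b hb).imp_right fun h => (min_le_left _ _).trans h) ?_
    rw [he, mul_comm]
    exact mul_lt_mul_of_pos_right (hout _ (lt_min ht0 hsr) (min_le_right _ _)) (gn_pos hQ _ hs)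
  obtain ⟨hW, c2⟩ := wr_out hL hP hQ hs c1.ne'
  by_cases hq : cnt Q x s = 0
  · have hg := good_of hL hs hx ((cnt_eq_zero_iff hQ x s).1 hq) he
    refine ⟨{(x, s)}, by simpa using hg, by simp, ?_⟩
    have : cnt (wr P Q) x s ≤ ct (wr P Q).roots (closedBall x s ∩ {z | ‖P.eval z‖ ≤ ‖Q.eval z‖}) := by
      rw [cnt_eq]; exact ct_le fun b _ hb => ⟨hb, (hg.2.1 b hb).2⟩
    rw [Finset.card_singleton]; omega
  set Y : Finset L := Q.roots.toFinset.filter fun q => ‖q - x‖ ≤ s with hY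
  have hYm : ∀ q, q ∈ Y ↔ Q.eval q = 0 ∧ ‖q - x‖ ≤ s := fun q => by
    simp [hY, mem_roots hQ]
  have hex : ∀ q, q ∈ Y → ∃ t, 0 < t ∧ t ≤ s ∧ (∀ u, t ≤ u → u ≤ s → gn P q u ≤ gn Q q u) ∧
      ∀ u, u < t → ∃ v, u < v ∧ v < t ∧ gn Q q v < gn P q v := by
    intro q hq
    obtain ⟨h1, h2⟩ := (hYm q).1 hq
    refine last_lt (continuous_gn P q) (continuous_gn Q q) hs ?_ ?_
    · rw [gn_zero, gn_zero, h1, norm_zero, norm_pos_iff]
      exact fun h => hco q h h1
    · rw [gn_congr P h2, gn_congr Q h2, he]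
  choose! t ht1 ht2 ht3 ht4 using hex
  set I : Finset (Set L) := Y.image fun q => ball q (t q) with hI
  have hkey : ∀ q ∈ Y, ∀ q' ∈ Y, t q ≤ t q' → ¬ Disjoint (ball q (t q)) (ball q' (t q')) →
      ball q (t q) = ball q' (t q') := by
    intro q hq q' hq' hle hd
    obtain ⟨z, hz, hz'⟩ := Set.not_disjoint_iff.1 hd
    rw [mem_ball_iff_norm] at hz hz'
    have h1 : ‖q - q'‖ < t q' :=
      (tri q z q').trans_lt (max_lt (by rw [norm_sub_rev]; exact hz.trans_le hle) hz')
    have h2 : t q = t q' := by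
      by_contra hne
      obtain ⟨v, h3, h4, h5⟩ := ht4 q' hq' _ (max_lt h1 (lt_of_le_of_ne hle hne))
      have h6 : ‖q - q'‖ ≤ v := (le_max_left _ _).trans h3.le
      have := ht3 q hq v ((le_max_right _ _).trans h3.le) (h4.le.trans (ht2 q' hq'))
      rw [gn_congr P h6, gn_congr Q h6] at this
      exact absurd this (not_le.2 h5)
    rw [h2]
    exact (IsUltrametricDist.ball_eq_of_mem (mem_ball_iff_norm.2 h1)).symm
  have hdis : ∀ O ∈ I, ∀ O' ∈ I, O ≠ O' → Disjoint O O' := by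
    intro O hO O' hO' hne
    obtain ⟨q, hq, rfl⟩ := Finset.mem_image.1 hO
    obtain ⟨q', hq', rfl⟩ := Finset.mem_image.1 hO'
    by_contra hd
    rcases le_total (t q) (t q') with h | h
    · exact hne (hkey q hq q' hq' h hd)
    · exact hne (hkey q' hq' q hq h fun h' => hd h'.symm).symm
  have hsub : ∀ O ∈ I, O ⊆ closedBall x s := by
    intro O hO z hz
    obtain ⟨q, hq, rfl⟩ := Finset.mem_image.1 hO
    rw [mem_ball_iff_norm] at hz
    exact mem_closedBall_iff_norm.2
      ((tri z q x).trans (max_le (hz.le.trans (ht2 q hq)) ((hYm q).1 hq).2))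
  have hO : ∀ O ∈ I, Fam P Q O (ct P.roots O) ∧
      ct (wr P Q).roots O + 1 = ct P.roots O + ct Q.roots O := by
    intro O hO
    have hs' := hsub O hO
    obtain ⟨q, hq, rfl⟩ := Finset.mem_image.1 hO
    obtain ⟨v, h1, h2, h3, h4, h5, h6⟩ := hole hL hP hQ hW (ht1 q hq)
      (ht3 q hq _ le_rfl (ht2 q hq)) (ht4 q hq)
    have h7 : ct Q.roots (ball q (t q)) ≤ cnt Q x s := by
      rw [cnt_eq]; exact ct_le fun b _ hb => hs' hb
    exact ⟨(ih q v h1 (by omega) h3).mono (closedBall_subset_ball h2) h4.ge, h6⟩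
  set U : Set L := ⋃ O ∈ I, O with hU
  have hUs : U ⊆ closedBall x s := Set.iUnion₂_subset hsub
  have f1 : Fam P Q U (∑ O ∈ I, ct P.roots O) := Fam.biUnion I (fun O => O) _ (fun O h => (hO O h).1) hdis
  have hrest : ∀ z ∈ closedBall x s \ U, ‖P.eval z‖ ≤ ‖Q.eval z‖ := by
    rintro z ⟨hz, hzU⟩
    have hne : Y.Nonempty := by
      by_contra hc
      refine hq ((cnt_eq_zero_iff hQ x s).2 fun w hw h => hc ⟨w, (hYm w).2 ⟨h, ?_⟩⟩)
      exact mem_closedBall_iff_norm.1 hw
    obtain ⟨q, hqY, hmin⟩ := Finset.exists_min_image Y (fun q => ‖q - z‖) hne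
    rw [mem_closedBall_iff_norm] at hz
    have h1 : ‖q - z‖ ≤ s :=
      (tri q x z).trans (max_le ((hYm q).1 hqY).2 (by rwa [norm_sub_rev]))
    have h2 : t q ≤ ‖q - z‖ := by
      by_contra hc
      refine hzU (Set.mem_biUnion (Finset.mem_coe.2 (Finset.mem_image_of_mem _ hqY)) ?_)
      rw [mem_ball_iff_norm, norm_sub_rev]; exact not_le.1 hc
    have h3 : gn Q z ‖q - z‖ = ‖Q.eval z‖ := gn_eq_eval fun b hb => by
      by_cases hb' : ‖b - x‖ ≤ s
      · exact hmin b ((hYm b).2 ⟨hb, hb'⟩)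
      · by_contra hc
        exact hb' ((tri b z x).trans (max_le ((not_le.1 hc).le.trans h1) hz))
    rw [← h3, ← gn_congr Q le_rfl]
    exact (norm_eval_le_gn P (by rw [norm_sub_rev])).trans (ht3 q hqY _ h2 h1)
  have f2 : Fam P Q (closedBall x s \ U) (ct (wr P Q).roots (closedBall x s \ U)) :=
    ⟨∅, by simp, by simp, by
      rw [Finset.card_empty, zero_add]
      exact ct_le fun b _ hb => Set.mem_inter hb (hrest b hb)⟩
  refine (f1.union f2 Set.disjoint_sdiff_right).mono (Set.union_subset hUs Set.sdiff_subset) ?_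
  have e1 : cnt (wr P Q) x s = ct (wr P Q).roots U + ct (wr P Q).roots (closedBall x s \ U) := by
    rw [cnt_eq, ← ct_union _ Set.disjoint_sdiff_right, Set.union_sdiff_cancel hUs]
  have e2 : ct Q.roots U ≤ cnt Q x s := by rw [cnt_eq]; exact ct_le fun b _ hb => hUs hb
  have e3 : ∑ O ∈ I, (ct (wr P Q).roots O + 1) = ∑ O ∈ I, (ct P.roots O + ct Q.roots O) :=
    Finset.sum_congr rfl fun O h => (hO O h).2
  rw [Finset.sum_add_distrib, Finset.sum_add_distrib, ← ct_biUnion (wr P Q).roots I (fun O => O) hdis,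
    ← ct_biUnion Q.roots I (fun O => O) hdis, Finset.sum_const, smul_eq_mul, mul_one] at e3
  have e4 : 0 < I.card := by
    rw [Finset.card_pos, Finset.image_nonempty]
    by_contra hc
    refine hq ((cnt_eq_zero_iff hQ x s).2 fun w hw h => hc ⟨w, (hYm w).2 ⟨h, ?_⟩⟩)
    exact mem_closedBall_iff_norm.1 hw
  rw [← hU] at e3
  omega

lemma fam {P Q : L[X]} (hL : Big L) (hP : P ≠ 0) (hco : ∀ z, P.eval z = 0 → Q.eval z ≠ 0) (n : ℕ) :
    ∀ (a : L) (r : ℝ), 0 < r → cnt P a r ≤ n → gn Q a r < gn P a r →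
      Fam P Q (closedBall a r) (cnt P a r) := by
  classical
  induction n using Nat.strong_induction_on with
  | _ n ih =>
  intro a r hr hn hlt
  set Y : Finset L := P.roots.toFinset.filter fun q => ‖q - a‖ ≤ r with hY
  have hYm : ∀ q, q ∈ Y ↔ P.eval q = 0 ∧ ‖q - a‖ ≤ r := fun q => by
    simp [hY, mem_roots hP]
  have hex : ∀ x, x ∈ Y → ∃ s, 0 < s ∧ s < r ∧ gn P x s = gn Q x s ∧
      ∀ t, s < t → t ≤ r → gn Q x t < gn P x t := by
    intro x hx
    obtain ⟨h1, h2⟩ := (hYm x).1 hx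
    refine last_le (continuous_gn P x) (continuous_gn Q x) hr ?_ ?_
    · rw [gn_zero, gn_zero, h1, norm_zero, norm_pos_iff]
      exact hco x h1
    · rwa [gn_congr P h2, gn_congr Q h2]
  choose! s hs1 hs2 hs3 hs4 using hex
  set I : Finset (Set L) := Y.image fun x => closedBall x (s x) with hI
  have hkey : ∀ x ∈ Y, ∀ y ∈ Y, s x ≤ s y → ¬ Disjoint (closedBall x (s x)) (closedBall y (s y)) →
      closedBall x (s x) = closedBall y (s y) := by
    intro x hx y hy hle hd
    obtain ⟨z, hz, hz'⟩ := Set.not_disjoint_iff.1 hd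
    rw [mem_closedBall_iff_norm] at hz hz'
    have h1 : ‖x - y‖ ≤ s y :=
      (tri x z y).trans (max_le (by rw [norm_sub_rev]; exact hz.trans hle) hz')
    have h2 : s x = s y := by
      by_contra hne
      have := hs4 x hx _ (lt_of_le_of_ne hle hne) (hs2 y hy).le
      rw [gn_congr P h1, gn_congr Q h1, hs3 y hy] at this
      exact lt_irrefl _ this
    rw [h2]
    exact (IsUltrametricDist.closedBall_eq_of_mem (mem_closedBall_iff_norm.2 h1)).symm
  have hdis : ∀ O ∈ I, ∀ O' ∈ I, O ≠ O' → Disjoint O O' := by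
    intro O hO O' hO' hne
    obtain ⟨q, hq, rfl⟩ := Finset.mem_image.1 hO
    obtain ⟨q', hq', rfl⟩ := Finset.mem_image.1 hO'
    by_contra hd
    rcases le_total (s q) (s q') with h | h
    · exact hne (hkey q hq q' hq' h hd)
    · exact hne (hkey q' hq' q hq h fun h' => hd h'.symm).symm
  have hsub : ∀ O ∈ I, O ⊆ closedBall a r := by
    intro O hO z hz
    obtain ⟨q, hq, rfl⟩ := Finset.mem_image.1 hO
    rw [mem_closedBall_iff_norm] at hz ⊢
    exact (tri z q a).trans (max_le (hz.trans (hs2 q hq).le) ((hYm q).1 hq).2)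
  have hO : ∀ O ∈ I, Fam P Q O (ct P.roots O) := by
    intro O hO
    have hs' := hsub O hO
    obtain ⟨x, hx, rfl⟩ := Finset.mem_image.1 hO
    have h7 : cnt P x (s x) ≤ cnt P a r := by
      rw [cnt_eq, cnt_eq]; exact ct_le fun b _ hb => hs' hb
    rw [← cnt_eq]
    exact top hL hP hco ((hYm x).1 hx).1 (hs1 x hx) (hs2 x hx) (hs3 x hx) (hs4 x hx)
      fun b v h1 h2 h3 => ih (cnt P b v) (by omega) b v h1 le_rfl h3
  refine (Fam.biUnion I (fun O => O) _ hO hdis).mono (Set.iUnion₂_subset hsub) ?_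
  rw [← ct_biUnion P.roots I (fun O => O) hdis, cnt_eq]
  refine ct_le fun b hb hb' => ?_
  have hbY : b ∈ Y := (hYm b).2 ⟨isRoot_of_mem_roots hb, mem_closedBall_iff_norm.1 hb'⟩
  exact Set.mem_biUnion (Finset.mem_coe.2 (Finset.mem_image_of_mem _ hbY))
    (mem_closedBall_self (hs1 b hbY).le)

lemma gn_big {p : L[X]} {R : ℝ} (h : ∀ b ∈ p.roots, ‖b‖ ≤ R) :
    gn p 0 R = ‖p.leadingCoeff‖ * R ^ p.natDegree := by
  rw [gn, Multiset.map_congr rfl (g := fun _ => R) fun b hb => max_eq_right (by simpa using h b hb),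
    Multiset.map_const', Multiset.prod_replicate, IsAlgClosed.card_roots_eq_natDegree]

end NAPolyAux

open Classical in
/-- Riemann-Hurwitz count: many components of the preimage of the unit disc are discs. -/
theorem exists_discs (hL : Big L) {P Q : L[X]} {D : ℕ} (hP : P.natDegree = D)
    (hQ : Q.natDegree ≤ D) (htop : ‖Q.coeff D‖ < ‖P.coeff D‖)
    (hco : ∀ z, P.eval z = 0 → Q.eval z ≠ 0) :
    ∃ (N : ℕ) (a : Fin N → L) (r : Fin N → ℝ), (∀ j, 0 < r j) ∧
      (∀ i j, i ≠ j → Disjoint (closedBall (a i) (r i)) (closedBall (a j) (r j))) ∧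
      D ≤ N + ((wr P Q).roots.filter fun z => ‖P.eval z‖ ≤ ‖Q.eval z‖).card ∧
      (∀ j, ∀ z ∈ closedBall (a j) (r j), Q.eval z ≠ 0 ∧ ‖P.eval z‖ ≤ ‖Q.eval z‖) ∧
      ∀ j, ∀ w : L, ‖w‖ ≤ 1 → ∃ z ∈ closedBall (a j) (r j), P.eval z = w * Q.eval z := by
  have hlc : P.leadingCoeff = P.coeff D := by rw [← hP]; rfl
  have hpos : 0 < ‖P.leadingCoeff‖ := hlc ▸ (norm_nonneg _).trans_lt htop
  have hP0 : P ≠ 0 := leadingCoeff_ne_zero.1 (norm_pos_iff.1 hpos)
  obtain ⟨M, hM⟩ : ∃ M : ℝ, ∀ b ∈ (P.roots + Q.roots).toFinset, ‖b‖ ≤ M :=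
    ((P.roots + Q.roots).toFinset.finite_toSet.image norm).bddAbove.imp fun M h b hb =>
      h (Set.mem_image_of_mem _ hb)
  set R := max (max M 1) (‖Q.leadingCoeff‖ / ‖P.leadingCoeff‖ + 1) with hR
  have hR1 : 1 ≤ R := (le_max_right _ _).trans (le_max_left _ _)
  have hRM : M ≤ R := (le_max_left _ _).trans (le_max_left _ _)
  have hR0 : 0 < R := one_pos.trans_le hR1
  have b1 : ∀ b ∈ P.roots, ‖b‖ ≤ R := fun b hb => (hM b (by simp_all)).trans hRM
  have b2 : ∀ b ∈ Q.roots, ‖b‖ ≤ R := fun b hb => (hM b (by simp_all)).trans hRM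
  have hlt : gn Q 0 R < gn P 0 R := by
    rw [gn_big b1, gn_big b2, hP]
    rcases eq_or_lt_of_le hQ with h | h
    · rw [hlc, leadingCoeff, h]
      exact mul_lt_mul_of_pos_right htop (pow_pos hR0 _)
    · have h1 : ‖Q.leadingCoeff‖ < ‖P.leadingCoeff‖ * R := by
        rw [mul_comm, ← div_lt_iff₀ hpos]
        exact (lt_add_one _).trans_le (le_max_right _ _)
      calc _ < ‖P.leadingCoeff‖ * R * R ^ Q.natDegree := mul_lt_mul_of_pos_right h1 (pow_pos hR0 _)
        _ = ‖P.leadingCoeff‖ * R ^ (Q.natDegree + 1) := by ring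
        _ ≤ _ := mul_le_mul_of_nonneg_left (pow_le_pow_right₀ hR1 h) hpos.le
  obtain ⟨T, h1, h2, h3⟩ := fam hL hP0 hco _ 0 R hR0 le_rfl hlt
  have hc : cnt P 0 R = D := by
    unfold cnt
    rw [Multiset.filter_eq_self.2 fun b hb => by simpa using b1 b hb,
      IsAlgClosed.card_roots_eq_natDegree, hP]
  refine ⟨T.card, fun j => (T.equivFin.symm j).1.1, fun j => (T.equivFin.symm j).1.2,
    fun j => (h1 _ (T.equivFin.symm j).2).1.1, fun i j hij => h2 _ (T.equivFin.symm i).2 _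
      (T.equivFin.symm j).2 fun e => hij (T.equivFin.symm.injective (Subtype.ext e)), ?_,
    fun j => (h1 _ (T.equivFin.symm j).2).1.2.1, fun j => (h1 _ (T.equivFin.symm j).2).1.2.2⟩
  refine hc ▸ h3.trans (Nat.add_le_add_left ?_ _)
  refine (ct_le (T := {z | ‖P.eval z‖ ≤ ‖Q.eval z‖}) fun b _ hb => hb.2).trans (le_of_eq ?_)
  unfold ct
  exact congrArg Multiset.card (Multiset.ext' fun b => by
    simp only [Multiset.count_filter, Set.mem_ofPred_eq])

end Pool.Agent.MP_3827f0_nt.H92
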