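import Pool.Agent.MP_3827f0_nt.H92.Esc
import Pool.Agent.MP_3827f0_nt.H92.NAPoly

/-! Good reduction. -/

set_option autoImplicit false

namespace Pool.Agent.MP_3827f0_nt.H92

open MvPolynomial

variable {L : Type} [NormedField L] [IsUltrametricDist L] [IsAlgClosed L] [CharZero L]
  {d : ℕ} {F : PM L} {G : V L → ℝ}

namespace NADiracAux

omit [IsAlgClosed L] [CharZero L] in
lemma norm_sub_le' (x y : L) : ‖x - y‖ ≤ max ‖x‖ ‖y‖ := by
  rw [sub_eq_add_neg]
  simpa using IsUltrametricDist.norm_add_le_max x (-y)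

omit [IsAlgClosed L] [CharZero L] in
lemma wedge_le (X Y : V L) : ‖wedge X Y‖ ≤ ‖X‖ * ‖Y‖ := by
  have h := (place_nv_ultra (L := L)).wedge_le X Y
  simpa [nrm_nv] using h

omit [CharZero L] in
lemma exists_unit {ι : Type} (s : Finset ι) (A : ι → V L) :
    ∃ z : L, ‖z‖ = 1 ∧ ∀ i ∈ s, ‖wedge ![z, 1] (A i)‖ = ‖A i‖ := by
  obtain ⟨z, hz, h⟩ := exists_generic_unit s (fun i => A i 0) (fun i => A i 1)
  refine ⟨z, hz, fun i hi => ?_⟩
  rw [norm_V, ← h i hi, ← norm_neg]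
  congr 1
  simp [wedge]

omit [IsUltrametricDist L] [IsAlgClosed L] [CharZero L] in
lemma norm_aff {z : L} (hz : ‖z‖ ≤ 1) : ‖(![z, 1] : V L)‖ = 1 := by
  rw [norm_V]; simp [hz]

omit [CharZero L] in
lemma coeff_le (hL : Big L) {B : ℝ} (k : ℕ) : ∀ p : Polynomial L,
    (∀ z : L, ‖z‖ = 1 → ‖p.eval z‖ ≤ B) → ‖p.coeff k‖ ≤ B := by
  have h0 : ∀ p : Polynomial L, (∀ z : L, ‖z‖ = 1 → ‖p.eval z‖ ≤ B) → ‖p.coeff 0‖ ≤ B := by
    intro p hp
    obtain ⟨z, hz, hz'⟩ := exists_eval_eq_gn hL {p} (0 : L) one_pos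
    rw [Polynomial.coeff_zero_eq_eval_zero]
    calc ‖p.eval 0‖ ≤ gn p 0 1 := norm_eval_le_gn p (by simp)
      _ = ‖p.eval z‖ := (hz' p (by simp)).symm
      _ ≤ B := hp z (by simpa using hz)
  induction k with
  | zero => exact h0
  | succ k ih =>
    intro p hp
    rw [← Polynomial.coeff_divX]
    refine ih _ fun z hz => ?_
    have e : p.eval z - p.coeff 0 = (Polynomial.divX p).eval z * z := by
      conv_lhs => rw [← Polynomial.divX_mul_X_add p]
      simp
    have : ‖(Polynomial.divX p).eval z‖ = ‖p.eval z - p.coeff 0‖ := by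
      rw [e, norm_mul, hz, mul_one]
    rw [this]
    exact (norm_sub_le' _ _).trans (max_le (hp z hz) (h0 p hp))

omit [IsAlgClosed L] [CharZero L] in
lemma eval_le {p : Polynomial L} (hp : ∀ k, ‖p.coeff k‖ ≤ 1) {z : L} (hz : ‖z‖ ≤ 1) :
    ‖p.eval z‖ ≤ 1 := by
  rw [Polynomial.eval_eq_sum_range]
  refine IsUltrametricDist.norm_sum_le_of_forall_le_of_nonneg zero_le_one fun i _ => ?_
  rw [norm_mul, norm_pow]
  exact mul_le_one₀ (hp i) (by positivity) (pow_le_one₀ (norm_nonneg _) hz)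

omit [IsAlgClosed L] [CharZero L] in
lemma deriv_le {p : Polynomial L} (hp : ∀ k, ‖p.coeff k‖ ≤ 1) (k : ℕ) :
    ‖(Polynomial.derivative p).coeff k‖ ≤ 1 := by
  rw [Polynomial.coeff_derivative, norm_mul]
  refine mul_le_one₀ (hp _) (norm_nonneg _) ?_
  have := IsUltrametricDist.norm_natCast_le_one L (k + 1)
  simpa using this

omit [CharZero L] in
lemma coeff_deh_le (hL : Big L) {H : PM L} (hH : ∀ z : L, ‖z‖ = 1 → ‖app H ![z, 1]‖ ≤ 1)
    (i : Fin 2) (k : ℕ) : ‖(deh (H i)).coeff k‖ ≤ 1 := by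
  refine coeff_le hL k _ fun z hz => ?_
  rw [eval_deh]
  exact (norm_le_pi_norm (app H ![z, 1]) i).trans (hH z hz)

omit [IsUltrametricDist L] [IsAlgClosed L] [CharZero L] in
lemma mulVec_adj {M : Mat L} (hM : M.det = 1) (Z : V L) :
    M.mulVec (M.adjugate.mulVec Z) = Z := by
  rw [Matrix.mulVec_mulVec, Matrix.mul_adjugate, hM]; simp

omit [IsUltrametricDist L] [IsAlgClosed L] [CharZero L] in
lemma adj_ne {M : Mat L} (hM : M.det = 1) {Z : V L} (hZ : Z ≠ 0) :
    M.adjugate.mulVec Z ≠ 0 := by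
  intro h
  apply hZ
  rw [← mulVec_adj hM Z, h, Matrix.mulVec_zero]

omit [IsAlgClosed L] [CharZero L] in
lemma mulVec_le {M : Mat L} (hM : ∀ i j, ‖M i j‖ ≤ 1) (Z : V L) : ‖M.mulVec Z‖ ≤ ‖Z‖ := by
  refine (pi_norm_le_iff_of_nonneg (norm_nonneg _)).2 fun i => ?_
  rw [Matrix.mulVec, dotProduct]
  refine IsUltrametricDist.norm_sum_le_of_forall_le_of_nonneg (norm_nonneg _) fun j _ => ?_
  rw [norm_mul]
  calc ‖M i j‖ * ‖Z j‖ ≤ 1 * ‖Z j‖ := by gcongr; exact hM i j
    _ ≤ ‖Z‖ := by rw [one_mul]; exact norm_le_pi_norm Z j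

omit [IsAlgClosed L] in
lemma norm_rat (hL : Big L) (q : ℚ) : ‖(q : L)‖ ≤ 1 := by
  rw [Rat.cast_def, norm_div, hL.res _ q.den_ne_zero, div_one]
  exact IsUltrametricDist.norm_intCast_le_one L q.num

omit [IsAlgClosed L] in
lemma norm_alg (hL : Big L) {x : L} (hx : IsAlgebraic ℚ x) : ‖x‖ ≤ 1 := by
  by_contra hlt
  push Not at hlt
  have hi := hx.isIntegral
  have hm := minpoly.monic hi
  have hpos := minpoly.natDegree_pos hi
  have h0 := minpoly.aeval ℚ x
  obtain ⟨n, hn⟩ : ∃ n, (minpoly ℚ x).natDegree = n + 1 := ⟨_, (Nat.succ_pred_eq_of_pos hpos).symm⟩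
  rw [Polynomial.aeval_eq_sum_range, hn, Finset.sum_range_succ, ← hn, hm.coeff_natDegree,
    one_smul, hn] at h0
  have e : x ^ (n + 1) = - ∑ i ∈ Finset.range (n + 1), (minpoly ℚ x).coeff i • x ^ i := by
    linear_combination h0
  have hle : ‖x ^ (n + 1)‖ ≤ ‖x‖ ^ n := by
    rw [e, norm_neg]
    refine IsUltrametricDist.norm_sum_le_of_forall_le_of_nonneg (by positivity) fun i hi => ?_
    rw [Rat.smul_def, norm_mul, norm_pow]
    have hi' : i ≤ n := Nat.lt_succ_iff.1 (Finset.mem_range.1 hi)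
    calc _ ≤ 1 * ‖x‖ ^ i := by gcongr; exact norm_rat hL _
      _ ≤ ‖x‖ ^ n := by rw [one_mul]; exact pow_le_pow_right₀ hlt.le hi'
  rw [norm_pow, pow_succ] at hle
  have : 0 < ‖x‖ ^ n := by positivity
  nlinarith

omit [IsUltrametricDist L] [IsAlgClosed L] [CharZero L] in
lemma app_zero (h : Dyn d F G) : app F 0 = 0 := by
  have h1 := h.hom.app_smul (0 : L) 0
  have hd : d ≠ 0 := by have := h.two; omega
  simpa [zero_pow hd] using h1

omit [IsUltrametricDist L] [IsAlgClosed L] [CharZero L] in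
lemma norm_app_le (h : Dyn d F G) (hG : ∀ Z : V L, Z ≠ 0 → G Z = Real.log ‖Z‖) {z : L}
    (hz : ‖z‖ = 1) : ‖app F ![z, 1]‖ ≤ 1 := by
  have h1 := h.esc.2.2 _ (aff_ne_zero z)
  have hne := h.nondeg.app_ne (aff_ne_zero z)
  rw [hG _ hne, hG _ (aff_ne_zero z), norm_aff hz.le, Real.log_one, mul_zero] at h1
  have hp : 0 < ‖app F ![z, 1]‖ := norm_pos_iff.2 hne
  rw [← Real.exp_log hp, h1, Real.exp_zero]

end NADiracAux

open NADiracAux

theorem Dirac.norm (hL : Big L) (h : Dyn d F G) (hF : Normal d F) (hD : Dirac G) :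
    ∃ M : Mat L, M.det = 1 ∧ ∀ Z : V L, Z ≠ 0 → G (M.mulVec Z) = Real.log ‖Z‖ := by
  obtain ⟨M, c, hM, hc⟩ := hD
  refine ⟨M, hM, ?_⟩
  suffices c = 0 by intro Z hZ; rw [hc Z hZ, this, add_zero]
  have hd : 0 < d := by have := h.two; omega
  have hd2 : (2 : ℝ) ≤ d := by exact_mod_cast h.two
  have h' := h.conj hM
  have hF' := hF.conj hd hM
  set F' := conj M F
  have key : ∀ Z : V L, Z ≠ 0 →
      Real.log ‖app F' Z‖ = d * Real.log ‖Z‖ + ((d : ℝ) - 1) * c := by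
    intro Z hZ
    have h1 := h'.esc.2.2 Z hZ
    simp only at h1
    rw [hc _ (h'.nondeg.app_ne hZ), hc _ hZ] at h1
    linarith
  obtain ⟨Ys, lam, ⟨hw, hY⟩, hlam⟩ := hF'.2 ![0, 1] (aff_ne_zero 0)
  have hl : ∀ j, lam j ≠ 0 := fun j hj => by
    rw [Finset.prod_eq_zero (Finset.mem_univ j) hj] at hlam
    exact zero_ne_one hlam
  have hYs : ∀ j, Ys j ≠ 0 := fun j hj => by
    have h1 := hY j
    rw [hj, app_zero h'] at h1
    exact smul_ne_zero (hl j) (aff_ne_zero 0) h1.symm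
  have n01 : ‖(![0, 1] : V L)‖ = 1 := norm_aff (by simp)
  have hsum : ∑ j, Real.log ‖Ys j‖ = -(((d : ℝ) - 1) * c) := by
    have h1 : ∀ j, Real.log ‖lam j‖ = d * Real.log ‖Ys j‖ + ((d : ℝ) - 1) * c := by
      intro j
      rw [← key _ (hYs j), hY j, norm_smul, n01, mul_one]
    have h2 : ∑ j, Real.log ‖lam j‖ = 0 := by
      rw [← Real.log_prod (fun j _ => norm_ne_zero_iff.2 (hl j)), ← norm_prod, hlam]; simp
    simp only [h1, Finset.sum_add_distrib, ← Finset.mul_sum, Finset.sum_const, Finset.card_univ,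
      Fintype.card_fin, nsmul_eq_mul] at h2
    have hd0 : (d : ℝ) ≠ 0 := by positivity
    have : (d : ℝ) * (∑ j, Real.log ‖Ys j‖ + ((d : ℝ) - 1) * c) = 0 := by linarith
    rcases mul_eq_zero.1 this with h3 | h3
    · exact absurd h3 hd0
    · linarith
  have hprod : Real.log (∏ j, ‖Ys j‖) = -(((d : ℝ) - 1) * c) := by
    rw [Real.log_prod (fun j _ => norm_ne_zero_iff.2 (hYs j)), hsum]
  have hpp : 0 < ∏ j, ‖Ys j‖ := Finset.prod_pos fun j _ => norm_pos_iff.2 (hYs j)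
  have hge : 0 ≤ ((d : ℝ) - 1) * c := by
    obtain ⟨z, hz, hz'⟩ := exists_unit Finset.univ Ys
    have h1 : ∏ j, ‖Ys j‖ ≤ ‖app F' ![z, 1]‖ := by
      have h2 := wedge_le (app F' ![z, 1]) ![0, 1]
      rw [hw, norm_prod, n01, mul_one, Finset.prod_congr rfl hz'] at h2
      exact h2
    have h3 := Real.log_le_log hpp h1
    rw [hprod, key _ (aff_ne_zero z), norm_aff hz.le, Real.log_one] at h3
    linarith
  have hle : ((d : ℝ) - 1) * c ≤ 0 := by
    have e10 : (![1, 0] : V L) ≠ 0 := fun h0 => by simpa using congrFun h0 0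
    obtain ⟨X, hX, hFX⟩ := app_surj hd h'.hom h'.nondeg e10
    have h1 := key X hX
    have n10 : ‖(![1, 0] : V L)‖ = 1 := by rw [norm_V]; simp
    rw [hFX, n10, Real.log_one] at h1
    have h2 := hw X
    rw [hFX] at h2
    have h3 : wedge (![1, 0] : V L) ![0, 1] = 1 := by simp [wedge]
    have hXp : 0 < ‖X‖ := norm_pos_iff.2 hX
    have h4 : (1 : ℝ) ≤ ‖X‖ ^ d * ∏ j, ‖Ys j‖ := by
      calc (1 : ℝ) = ‖∏ j, wedge X (Ys j)‖ := by rw [← h2, h3, norm_one]
        _ = ∏ j, ‖wedge X (Ys j)‖ := norm_prod _ _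
        _ ≤ ∏ j, ‖X‖ * ‖Ys j‖ :=
          Finset.prod_le_prod (fun j _ => norm_nonneg _) fun j _ => wedge_le _ _
        _ = _ := by rw [Finset.prod_mul_distrib]; simp
    have h5 := Real.log_le_log one_pos h4
    rw [Real.log_one, Real.log_mul (by positivity) hpp.ne', Real.log_pow, hprod] at h5
    linarith
  have h0 : ((d : ℝ) - 1) * c = 0 := le_antisymm hle hge
  rcases mul_eq_zero.1 h0 with h1 | h1
  · linarith
  · exact h1

theorem Dirac.lyap (hL : Big L) (h : Dyn d F G) (hF : Normal d F) (hD : Dirac G) :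
    LyapLE d F G := by
  obtain ⟨M, hM, hG⟩ := hD.norm hL h hF
  intro Cs hCs
  have hd : 0 < d := by have := h.two; omega
  have h' := h.conj hM
  have hCne : ∀ j, Cs j ≠ 0 := fun j hj => by
    obtain ⟨Z, hZ⟩ := exists_jac_ne hd h.hom h.nondeg
    apply hZ
    rw [hCs Z]
    exact Finset.prod_eq_zero (Finset.mem_univ j) (by rw [hj, wedge_zero_right])
  set C' : Fin (2 * d - 2) → V L := fun j => M.adjugate.mulVec (Cs j) with hC'
  have hC'ne : ∀ j, C' j ≠ 0 := fun j => adj_ne hM (hCne j)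
  have hGC : ∀ j, G (Cs j) = Real.log ‖C' j‖ := fun j => by
    rw [← hG _ (hC'ne j), mulVec_adj hM]
  obtain ⟨z, hz, hz'⟩ := exists_unit Finset.univ C'
  have hj : jac (conj M F) ![z, 1] = ∏ j, wedge ![z, 1] (C' j) := by
    rw [jac_conj, hM, one_pow, one_mul, hCs]
    refine Finset.prod_congr rfl fun j _ => ?_
    conv_lhs => rw [← mulVec_adj hM (Cs j)]
    rw [wedge_mulVec, hM, one_mul]
  have hc := coeff_deh_le hL (H := conj M F) fun z hz => norm_app_le h' hG hz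
  have hle : ‖jac (conj M F) ![z, 1]‖ ≤ 1 := by
    rw [jac_aff h'.hom, norm_mul, hL.res d hd.ne', one_mul, wr, Polynomial.eval_sub,
      Polynomial.eval_mul, Polynomial.eval_mul]
    refine (norm_sub_le' _ _).trans (max_le ?_ ?_) <;> rw [norm_mul]
    · exact mul_le_one₀ (eval_le (deriv_le (hc 0)) hz.le) (norm_nonneg _) (eval_le (hc 1) hz.le)
    · exact mul_le_one₀ (eval_le (hc 0) hz.le) (norm_nonneg _) (eval_le (deriv_le (hc 1)) hz.le)
  rw [hj, norm_prod, Finset.prod_congr rfl hz'] at hle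
  simp only [hGC]
  rw [← Real.log_prod (fun j _ => norm_ne_zero_iff.2 (hC'ne j))]
  exact Real.log_nonpos (Finset.prod_nonneg fun j _ => norm_nonneg _) hle

theorem Dirac.green (hL : Big L) (h : Dyn d F G) (hF : Normal d F) (hD : Dirac G) {X Y : V L}
    (hXY : wedge X Y ≠ 0) : 0 ≤ - Real.log ‖wedge X Y‖ + G X + G Y := by
  obtain ⟨M, hM, hG⟩ := hD.norm hL h hF
  have hX : X ≠ 0 := fun h0 => hXY (by rw [h0, wedge_zero_left])
  have hY : Y ≠ 0 := fun h0 => hXY (by rw [h0, wedge_zero_right])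
  have hX' := adj_ne hM hX
  have hY' := adj_ne hM hY
  have e1 : G X = Real.log ‖M.adjugate.mulVec X‖ := by rw [← hG _ hX', mulVec_adj hM]
  have e2 : G Y = Real.log ‖M.adjugate.mulVec Y‖ := by rw [← hG _ hY', mulVec_adj hM]
  have e3 : wedge X Y = wedge (M.adjugate.mulVec X) (M.adjugate.mulVec Y) := by
    conv_lhs => rw [← mulVec_adj hM X, ← mulVec_adj hM Y]
    rw [wedge_mulVec, hM, one_mul]
  have h1 := Real.log_le_log (norm_pos_iff.2 hXY)
    (e3 ▸ wedge_le (M.adjugate.mulVec X) (M.adjugate.mulVec Y) :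
      ‖wedge X Y‖ ≤ ‖M.adjugate.mulVec X‖ * ‖M.adjugate.mulVec Y‖)
  rw [Real.log_mul (norm_ne_zero_iff.2 hX') (norm_ne_zero_iff.2 hY')] at h1
  linarith

theorem Dirac.wt_eq_zero (hL : Big L) (h : Dyn d F G) (hF : Normal d F) (hD : Dirac G)
    (h01 : G ![1, 0] + G ![0, 1] ≤ 0) (h02 : G ![1, 0] + G ![1, 1] ≤ 0)
    (h12 : G ![0, 1] + G ![1, 1] ≤ 0) : wt (nv L) d F = 0 := by
  have w1 : wedge (![1, 0] : V L) ![0, 1] = 1 := by simp [wedge]
  have w2 : wedge (![1, 0] : V L) ![1, 1] = 1 := by simp [wedge]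
  have w3 : wedge (![0, 1] : V L) ![1, 1] = -1 := by simp [wedge]
  have g1 := hD.green hL h hF (X := ![1, 0]) (Y := ![0, 1]) (by rw [w1]; exact one_ne_zero)
  have g2 := hD.green hL h hF (X := ![1, 0]) (Y := ![1, 1]) (by rw [w2]; exact one_ne_zero)
  have g3 := hD.green hL h hF (X := ![0, 1]) (Y := ![1, 1]) (by rw [w3]; simp)
  rw [w1] at g1
  rw [w2] at g2
  rw [w3] at g3
  simp only [norm_one, norm_neg, Real.log_one, neg_zero, zero_add] at g1 g2 g3
  have hA : G ![1, 0] = 0 := by linarith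
  have hB : G ![0, 1] = 0 := by linarith
  obtain ⟨M, hM, hG⟩ := hD.norm hL h hF
  have hG' : ∀ Z : V L, Z ≠ 0 → G Z = Real.log ‖M.adjugate.mulVec Z‖ := fun Z hZ => by
    rw [← hG _ (adj_ne hM hZ), mulVec_adj hM]
  have e10 : (![1, 0] : V L) ≠ 0 := fun h0 => by simpa using congrFun h0 0
  have one_of : ∀ Z : V L, Z ≠ 0 → G Z = 0 → ∀ i, ‖M.adjugate.mulVec Z i‖ ≤ 1 := by
    intro Z hZ h0 i
    rw [hG' Z hZ] at h0
    have hp : 0 < ‖M.adjugate.mulVec Z‖ := norm_pos_iff.2 (adj_ne hM hZ)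
    refine (norm_le_pi_norm _ i).trans ?_
    rw [← Real.exp_log hp, h0, Real.exp_zero]
  have hadj : ∀ i j, ‖M.adjugate i j‖ ≤ 1 := by
    intro i j
    fin_cases j
    · simpa [Matrix.mulVec, dotProduct, Fin.sum_univ_two] using one_of _ e10 hA i
    · simpa [Matrix.mulVec, dotProduct, Fin.sum_univ_two] using one_of _ (aff_ne_zero 0) hB i
  have hMle : ∀ i j, ‖M i j‖ ≤ 1 := by
    have a00 := hadj 0 0
    have a01 := hadj 0 1
    have a10 := hadj 1 0
    have a11 := hadj 1 1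
    rw [Matrix.adjugate_fin_two] at a00 a01 a10 a11
    intro i j
    fin_cases i <;> fin_cases j <;> simp_all
  have hlog : ∀ Z : V L, Z ≠ 0 → G Z = Real.log ‖Z‖ := fun Z hZ => by
    rw [hG' Z hZ]
    congr 1
    refine le_antisymm (mulVec_le hadj Z) ?_
    conv_lhs => rw [← mulVec_adj hM Z]
    exact mulVec_le hMle _
  have hc := coeff_deh_le hL (H := F) fun z hz => norm_app_le h hlog hz
  unfold wt
  refine Finset.sum_eq_zero fun i _ => Finset.sum_eq_zero fun k hk => ?_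
  have hk' : k ≤ d := Nat.lt_succ_iff.1 (Finset.mem_range.1 hk)
  rw [nv_apply, ← coeff_deh (h.hom i) hk']
  exact (Real.posLog_eq_zero_iff _).2 (by rw [abs_norm]; exact hc i k)

theorem dirac_of_alg (hL : Big L) (h : Dyn d F G) {M : Mat L} (hM : M.det ≠ 0) {c : L}
    (hc : c ≠ 0) (halg : ∀ i m, IsAlgebraic ℚ (coeff m ((c • conj M F) i))) : Dirac G := by
  have hd : 0 < d := by have := h.two; omega
  set H : PM L := c • conj M F with hH
  have hHhom : Hom d H := (h.hom.conj M).smul c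
  have hHnd : Nondeg H := (h.nondeg.conj hM).smul hc
  let K := algebraicClosure ℚ L
  haveI : IsAlgClosed K := (algebraicClosure.isAlgClosure ℚ L).isAlgClosed
  let φ : K →+* L := algebraMap K L
  have hφ : Function.Injective φ := φ.injective
  have hex : ∀ i, ∃ p : MvPolynomial (Fin 2) K, map φ p = H i := by
    intro i
    refine ⟨∑ m ∈ (H i).support, monomial m ⟨coeff m (H i), mem_algebraicClosure_iff.2 (halg i m)⟩,
      ?_⟩
    rw [map_sum]
    conv_rhs => rw [(H i).as_sum]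
    refine Finset.sum_congr rfl fun m _ => ?_
    rw [map_monomial]
    rfl
  choose H0 hH0 using hex
  have hmap : mapF φ H0 = H := funext hH0
  have hom0 : Hom d H0 := fun i => IsHomogeneous.of_map hφ (by rw [hH0]; exact hHhom i)
  have nd0 : Nondeg H0 := by
    intro Z hZ
    by_contra hne
    apply hHnd.app_ne (mapV_ne_zero φ hne)
    rw [← hmap, app_mapF, hZ]
    funext i
    simp [mapV]
  obtain ⟨e, he, hN⟩ := exists_normal hd hom0 nd0
  have hN' := hN.mapF hd φ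
  have hwt : wt (nv L) d (mapF φ (e • H0)) + 0 ≤ 0 := by
    rw [add_zero]
    unfold wt
    refine (Finset.sum_eq_zero fun i _ => Finset.sum_eq_zero fun k _ => ?_).le
    rw [nv_apply]
    refine (Real.posLog_eq_zero_iff _).2 ?_
    rw [abs_norm]
    refine norm_alg hL ?_
    simp only [mapF, coeff_map]
    exact mem_algebraicClosure_iff.1 (coeff (mo d k) ((e • H0) i)).2
  have hesc : ∀ Z : V L, Z ≠ 0 → esc (nv L) d (mapF φ (e • H0)) Z = Real.log ‖Z‖ := by
    intro Z hZ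
    have h1 := esc_approx place_nv_ultra h.two hN' hwt 0 hZ
    simp only [Function.iterate_zero, id, pow_zero, div_one, mul_zero, nrm_nv] at h1
    have := abs_nonpos_iff.1 h1
    linarith
  have hdyn := dyn_esc place_nv_ultra h.two hN'
  obtain ⟨s, hs⟩ := IsAlgClosed.exists_pow_nat_eq (M.det)⁻¹ (n := 2) two_pos
  have hs0 : s ≠ 0 := by
    rintro rfl
    exact inv_ne_zero hM (by simpa using hs.symm)
  have hdet : (s • M).det = 1 := by
    rw [Matrix.det_smul, Fintype.card_fin, hs, inv_mul_cancel₀ hM]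
  have he' : φ e ≠ 0 := fun h0 => he (hφ (by rw [h0, map_zero]))
  set t : L := φ e * c / s ^ (d + 1) with ht
  have ht0 : t ≠ 0 := div_ne_zero (mul_ne_zero he' hc) (pow_ne_zero _ hs0)
  have happ : ∀ Z, app (t • conj (s • M) F) Z = app (mapF φ (e • H0)) Z := by
    intro Z
    rw [mapF_smul, hmap, hH, app_smulF, app_smulF, app_smulF, app_conj, app_conj,
      Matrix.adjugate_smul, Fintype.card_fin, Matrix.smul_mulVec, Matrix.smul_mulVec,
      h.hom.app_smul, Matrix.mulVec_smul, smul_smul, smul_smul, smul_smul]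
    congr 1
    rw [ht]
    field_simp
    ring
  have d1 := (h.conj hdet).smul ht0
  have d2 : Dyn d (t • conj (s • M) F) (esc (nv L) d (mapF φ (e • H0))) :=
    ⟨h.two, d1.hom, d1.nondeg, hdyn.esc.1, hdyn.esc.2.1, fun Z hZ => by
      rw [happ]; exact hdyn.esc.2.2 Z hZ⟩
  refine ⟨s • M, -(Real.log ‖t‖ / ((d : ℝ) - 1)), hdet, fun Z hZ => ?_⟩
  have h1 := d1.unique d2 hZ
  rw [hesc Z hZ] at h1
  linarith

end Pool.Agent.MP_3827f0_nt.H92
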