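import Pool.Agent.MP_3827f0_nt.H92.NAGapAux

/-! The preimage of the middle annulus. -/

set_option autoImplicit false

namespace Pool.Agent.MP_3827f0_nt.H92.NAGapAux

open Metric Filter Topology

variable {L : Type} [NormedField L] [IsUltrametricDist L] [IsAlgClosed L]
  {d : ℕ} {F : PM L} {G : V L → ℝ}

/-- The logarithm of the Gauss norm of a component. -/
noncomputable def lg (F : PM L) (i : Fin 2) (r : ℝ) : ℝ := Real.log (gn (deh (F i)) 0 r)

/-- The radii of the circles that map into the middle annulus. -/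
def JJ (F : PM L) (G : V L → ℝ) (r : ℝ) : Prop := MI G (lg F 0 r - lg F 1 r)

omit [IsUltrametricDist L] [IsAlgClosed L] in
lemma app_aff (F : PM L) (z : L) (i : Fin 2) : app F ![z, 1] i = (deh (F i)).eval z :=
  (eval_deh _ _).symm

omit [IsUltrametricDist L] in
lemma cnt_full {p : Polynomial L} (hp : p ≠ 0) {r : ℝ} (h : ∀ b, p.eval b = 0 → ‖b‖ ≤ r) :
    cnt p 0 r = p.natDegree := by
  rw [cnt, Multiset.filter_eq_self.2, (IsAlgClosed.splits p).natDegree_eq_card_roots]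
  intro b hb
  simpa using h b ((Polynomial.mem_roots hp).1 hb)

omit [IsUltrametricDist L] in
lemma gn_full {p : Polynomial L} (hp : p ≠ 0) {r : ℝ} (h : ∀ b, p.eval b = 0 → ‖b‖ ≤ r) :
    gn p 0 r = ‖p.leadingCoeff‖ * r ^ p.natDegree := by
  rw [gn, Multiset.map_congr rfl (g := fun _ => r), Multiset.map_const', Multiset.prod_replicate,
    (IsAlgClosed.splits p).natDegree_eq_card_roots]
  intro b hb
  simpa using h b ((Polynomial.mem_roots hp).1 hb)

namespace St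

omit [IsUltrametricDist L] [IsAlgClosed L] in
lemma pos (h : St d F G) : 0 < d := lt_of_lt_of_le two_pos h.dyn.two

omit [IsUltrametricDist L] in
lemma ne (h : St d F G) (i : Fin 2) : deh (F i) ≠ 0 :=
  deh_ne_zero h.pos h.dyn.hom h.dyn.nondeg i

omit [IsUltrametricDist L] [IsAlgClosed L] in
lemma app_eq (h : St d F G) {Z : V L} (hZ : Z ≠ 0) : G (app F Z) = d * G Z := h.dyn.esc.2.2 Z hZ

omit [IsUltrametricDist L] in
lemma mem_roots [DecidableEq L] (h : St d F G) {b : L} :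
    b ∈ (deh (F 0) * deh (F 1)).roots.toFinset ↔ ∃ i, (deh (F i)).eval b = 0 := by
  rw [Multiset.mem_toFinset, Polynomial.mem_roots (mul_ne_zero (h.ne 0) (h.ne 1)),
    Polynomial.IsRoot, Polynomial.eval_mul, mul_eq_zero, Fin.exists_fin_two]

lemma generic (h : St d F G) {r : ℝ} (hr : 0 < r) : ∃ w : L, ‖w‖ = r ∧ w ≠ 0 ∧
    (∀ i, ‖app F ![w, 1] i‖ = gn (deh (F i)) 0 r) ∧ ∀ i, app F ![w, 1] i ≠ 0 := by
  classical
  obtain ⟨w, hw, hg⟩ := exists_eval_eq_gn h.big {deh (F 0), deh (F 1)} 0 hr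
  rw [sub_zero] at hw
  have : ∀ i, ‖app F ![w, 1] i‖ = gn (deh (F i)) 0 r := fun i => by
    rw [app_aff]
    exact hg _ (by fin_cases i <;> simp)
  exact ⟨w, hw, norm_pos_iff.1 (hw ▸ hr), this,
    fun i => norm_pos_iff.1 (this i ▸ gn_pos (h.ne i) 0 hr)⟩

lemma feq (h : St d F G) {r : ℝ} (hr : 0 < r) :
    d * vv G (Real.log r) = vv G (lg F 0 r - lg F 1 r) + lg F 1 r := by
  obtain ⟨w, hw, hw0, hg, hn⟩ := h.generic hr
  rw [← hw, ← h.aff hw0, ← h.app_eq (aff_ne_zero w), h.both (hn 0) (hn 1), rat, hg, hg, hw]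
  rfl

lemma key (h : St d F G) {z : L} {r : ℝ} (hr : 0 < r) (hz : ‖z‖ ≤ r)
    (hv : vv G (Real.log r) ≤ G ![z, 1]) (hA : An G (app F ![z, 1]) ∨ JJ F G r) (i : Fin 2) :
    ‖app F ![z, 1] i‖ = gn (deh (F i)) 0 r := by
  obtain ⟨w, hw, hw0, hg, hn⟩ := h.generic hr
  have hle : ∀ i, ‖app F ![z, 1] i‖ ≤ ‖app F ![w, 1] i‖ := fun i => by
    rw [hg, app_aff]
    exact norm_eval_le_gn _ (by simpa using hz)
  have := h.rigid (h.dyn.nondeg.app_ne (aff_ne_zero z)) (hn 0) (hn 1) (hle 0) (hle 1)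
    (by
      rw [h.app_eq (aff_ne_zero w), h.app_eq (aff_ne_zero z), h.aff hw0, hw]
      exact mul_le_mul_of_nonneg_left hv (Nat.cast_nonneg d))
    (hA.imp id fun hJ => ⟨hn 0, hn 1, by rwa [rat, hg, hg]⟩)
  rw [← hg]
  fin_cases i
  exacts [this.1, this.2]

lemma circ (h : St d F G) {z : L} (hz : z ≠ 0) (hA : An G (app F ![z, 1]) ∨ JJ F G ‖z‖)
    (i : Fin 2) : ‖app F ![z, 1] i‖ = gn (deh (F i)) 0 ‖z‖ :=
  h.key (norm_pos_iff.2 hz) le_rfl (h.aff hz).ge hA i

lemma rat_app (h : St d F G) {z : L} (hz : z ≠ 0) (hA : An G (app F ![z, 1])) :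
    rat (app F ![z, 1]) = lg F 0 ‖z‖ - lg F 1 ‖z‖ := by
  rw [rat, h.circ hz (Or.inl hA), h.circ hz (Or.inl hA)]
  rfl

lemma jj (h : St d F G) {z : L} (hz : z ≠ 0) (hA : An G (app F ![z, 1])) : JJ F G ‖z‖ := by
  rw [JJ, ← h.rat_app hz hA]
  exact hA.2.2

lemma no_root (h : St d F G) {r : ℝ} (hr : 0 < r) (hJ : JJ F G r) {i : Fin 2} {b : L}
    (hb : (deh (F i)).eval b = 0) : ‖b‖ ≠ r := by
  rintro rfl
  have := h.circ (norm_pos_iff.1 hr) (Or.inr hJ) i
  rw [app_aff, hb, norm_zero] at this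
  exact (gn_pos (h.ne i) 0 hr).ne this

lemma cnt_ne (h : St d F G) {r : ℝ} (hr : 0 < r) (hJ : JJ F G r) :
    cnt (deh (F 0)) 0 r ≠ cnt (deh (F 1)) 0 r := by
  classical
  intro he
  have up : ∀ i b, (deh (F i)).eval b = 0 → ‖b‖ ≤ r := by
    intro i b hb
    by_contra hc
    obtain ⟨b₁, hb₁, hmin⟩ := Finset.exists_min_image
      ((deh (F 0) * deh (F 1)).roots.toFinset.filter fun b => r < ‖b‖) (fun b => ‖b‖)
      ⟨b, Finset.mem_filter.2 ⟨h.mem_roots.2 ⟨i, hb⟩, not_le.1 hc⟩⟩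
    obtain ⟨h1, h2⟩ := Finset.mem_filter.1 hb₁
    obtain ⟨j, hj⟩ := h.mem_roots.1 h1
    have e : ∀ k, lg F k ‖b₁‖ - lg F k r =
        (cnt (deh (F k)) 0 r : ℝ) * (Real.log ‖b₁‖ - Real.log r) := fun k =>
      log_gn_eq (h.ne k) 0 hr h2.le fun c hc => by
        rw [sub_zero]
        exact (le_or_gt ‖c‖ r).imp id fun h3 =>
          hmin c (Finset.mem_filter.2 ⟨h.mem_roots.2 ⟨k, hc⟩, h3⟩)
    refine h.no_root (hr.trans h2) ?_ hj rfl
    have e0 := e 0
    have e1 := e 1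
    rw [he] at e0
    rwa [JJ, show lg F 0 ‖b₁‖ - lg F 1 ‖b₁‖ = lg F 0 r - lg F 1 r by linarith]
  rw [cnt_full (h.ne 0) (up 0), cnt_full (h.ne 1) (up 1)] at he
  have down : ∀ i b, (deh (F i)).eval b = 0 → b = 0 := by
    intro i b hb
    by_contra hc
    obtain ⟨b₁, hb₁, hmax⟩ := Finset.exists_max_image
      (deh (F 0) * deh (F 1)).roots.toFinset (fun b => ‖b‖) ⟨b, h.mem_roots.2 ⟨i, hb⟩⟩
    obtain ⟨j, hj⟩ := h.mem_roots.1 hb₁
    have h0 : 0 < ‖b₁‖ := (norm_pos_iff.2 hc).trans_le (hmax b (h.mem_roots.2 ⟨i, hb⟩))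
    have hall : ∀ k c, (deh (F k)).eval c = 0 → ‖c‖ ≤ ‖b₁‖ := fun k c hc =>
      hmax c (h.mem_roots.2 ⟨k, hc⟩)
    have e : ∀ k, lg F k r - lg F k ‖b₁‖ =
        ((deh (F k)).natDegree : ℝ) * (Real.log r - Real.log ‖b₁‖) := fun k => by
      rw [← cnt_full (h.ne k) (hall k)]
      exact log_gn_eq (h.ne k) 0 h0 (up j b₁ hj) fun c hc =>
        Or.inl (by simpa using hall k c hc)
    refine h.no_root h0 ?_ hj rfl
    have e0 := e 0
    have e1 := e 1
    rw [he] at e0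
    rwa [JJ, show lg F 0 ‖b₁‖ - lg F 1 ‖b₁‖ = lg F 0 r - lg F 1 r by linarith]
  have hdeg : ∀ i, (deh (F i)).natDegree = (deh (F 1)).natDegree := fun i => by
    fin_cases i
    exacts [he, rfl]
  rcases Nat.eq_zero_or_pos (deh (F 1)).natDegree with h0 | h0
  · refine h.dyn.nondeg.app_ne e0_ne (funext fun i => ?_)
    rw [app, ← coeff_deh_top (h.dyn.hom i)]
    exact Polynomial.coeff_eq_zero_of_natDegree_lt (by rw [hdeg, h0]; exact h.pos)
  · refine h.dyn.nondeg.app_ne (aff_ne_zero 0) (funext fun i => ?_)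
    obtain ⟨b, hb⟩ := IsAlgClosed.exists_root (deh (F i))
      (Polynomial.natDegree_pos_iff_degree_pos.1 (by rwa [hdeg])).ne'
    rw [app_aff, ← down i b hb]
    exact hb

lemma not_an_e1 (h : St d F G) : ¬ An G (app F ![0, 1]) := by
  intro hA
  have h0 : ∀ i, (deh (F i)).eval 0 ≠ 0 := fun i => by
    rw [← app_aff]
    fin_cases i
    exacts [hA.1, hA.2.1]
  have h1 : ∀ᶠ z in 𝓝 (0 : L), ∀ i, (deh (F i)).eval z ≠ 0 :=
    eventually_all.2 fun i => (deh (F i)).continuous.continuousAt.eventually_ne (h0 i)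
  obtain ⟨r, hr, hb⟩ := Metric.nhds_basis_closedBall.eventually_iff.1 h1
  obtain ⟨w, hw, -, hg, -⟩ := h.generic hr
  have e : ∀ i, gn (deh (F i)) 0 r = ‖app F ![0, 1] i‖ := fun i => by
    rw [← hg, app_aff, app_aff]
    exact norm_eval_const (r := r) (by simp [hw]) fun z hz => hb hz i
  refine h.cnt_ne hr (by rw [JJ, lg, lg, e, e]; exact hA.2.2) ?_
  rw [(cnt_eq_zero_iff (h.ne 0) 0 r).2 fun z hz => hb hz 0,
    (cnt_eq_zero_iff (h.ne 1) 0 r).2 fun z hz => hb hz 1]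

lemma not_an_e0 (h : St d F G) : ¬ An G (app F ![1, 0]) := by
  classical
  intro hA
  have h0 : ∀ i, (deh (F i)).coeff d ≠ 0 := fun i => by
    rw [coeff_deh_top (h.dyn.hom i)]
    fin_cases i
    exacts [hA.1, hA.2.1]
  have hdeg : ∀ i, (deh (F i)).natDegree = d := fun i =>
    le_antisymm (natDegree_deh_le (h.dyn.hom i)) (Polynomial.le_natDegree_of_ne_zero (h0 i))
  obtain ⟨s, hs⟩ := ((deh (F 0) * deh (F 1)).roots.toFinset.image fun b => ‖b‖).exists_le
  have hr : 0 < max s 1 := lt_max_of_lt_right one_pos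
  have hall : ∀ i b, (deh (F i)).eval b = 0 → ‖b‖ ≤ max s 1 := fun i b hb =>
    le_max_of_le_left (hs _ (Finset.mem_image_of_mem _ (h.mem_roots.2 ⟨i, hb⟩)))
  have e : ∀ i, lg F i (max s 1) = Real.log ‖app F ![1, 0] i‖ + d * Real.log (max s 1) :=
    fun i => by
      rw [lg, gn_full (h.ne i) (hall i), Polynomial.leadingCoeff, hdeg,
        Real.log_mul (norm_ne_zero_iff.2 (h0 i)) (pow_pos hr d).ne', Real.log_pow,
        coeff_deh_top (h.dyn.hom i), app]
  refine h.cnt_ne hr (by rw [JJ, e, e, add_sub_add_right_eq_sub]; exact hA.2.2) ?_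
  rw [cnt_full (h.ne 0) (hall 0), cnt_full (h.ne 1) (hall 1), hdeg, hdeg]

lemma mi_of_jj (h : St d F G) {r : ℝ} (hr : 0 < r) (hJ : JJ F G r) : MI G (Real.log r) := by
  constructor
  · by_contra hc
    refine h.cnt_ne hr hJ ?_
    have e : ∀ i, cnt (deh (F i)) 0 r = 0 := fun i => by
      refine (cnt_eq_zero_iff (h.ne i) 0 r).2 fun z hz => ?_
      have := h.key (z := z) hr (by simpa using hz) ((not_lt.1 hc).trans (by
        rcases eq_or_ne z 0 with rfl | hz0
        · exact le_rfl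
        · rw [h.aff hz0]; exact h.prof.lo _)) (Or.inr hJ) i
      rw [← app_aff]
      exact norm_pos_iff.1 (this ▸ gn_pos (h.ne i) 0 hr)
    rw [e, e]
  · by_contra hc
    refine h.cnt_ne hr hJ ?_
    have grow : ∀ s, r < s → ∀ i, lg F i s = lg F i r + d * (Real.log s - Real.log r) := by
      intro s hs
      have hδ := sub_pos.2 (Real.log_lt_log hr hs)
      have hle : ∀ i, lg F i s ≤ lg F i r + d * (Real.log s - Real.log r) := fun i => by
        have h1 := log_gn_le (h.ne i) 0 hr hs.le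
        have h2 : (cnt (deh (F i)) 0 s : ℝ) ≤ d := by
          exact_mod_cast (cnt_le _ _ _).trans (natDegree_deh_le (h.dyn.hom i))
        have := mul_le_mul_of_nonneg_right h2 hδ.le
        simp only [lg]
        linarith
      have h3 := h.prof.hi (Real.log s)
      have h4 := mul_le_mul_of_nonneg_left (show vv G (Real.log r) + (Real.log s - Real.log r) ≤
        vv G (Real.log s) by linarith [not_lt.1 hc]) (Nat.cast_nonneg (α := ℝ) d)
      have := h.prof.rigid (hle 0) (hle 1) (by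
        rw [add_sub_add_right_eq_sub, ← h.feq (hr.trans hs), ← add_assoc, ← h.feq hr]
        linarith) (Or.inr (by rw [add_sub_add_right_eq_sub]; exact hJ))
      intro i
      fin_cases i
      exacts [this.1, this.2]
    have e : ∀ i, cnt (deh (F i)) 0 r = d := fun i => by
      obtain ⟨s, t, -, h1, h2, h3⟩ := exists_annulus (h.ne i) 0 hr
      have h4 := log_gn_eq (h.ne i) 0 hr h2.le fun b hb => by
        rcases h3 b hb with h5 | h5 | h5
        exacts [Or.inl (h5.trans h1.le), Or.inl h5.le, Or.inr h5]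
      have h5 := grow t h2 i
      have hδ := sub_pos.2 (Real.log_lt_log hr h2)
      simp only [lg] at h5
      exact_mod_cast mul_right_cancel₀ hδ.ne' (show (cnt (deh (F i)) 0 r : ℝ) *
        (Real.log t - Real.log r) = d * (Real.log t - Real.log r) by linarith)
    rw [e, e]

omit [IsUltrametricDist L] [IsAlgClosed L] in
lemma an_app_smul (h : St d F G) {c : L} (hc : c ≠ 0) {Z : V L} :
    An G (app F (c • Z)) ↔ An G (app F Z) := by
  rw [h.dyn.hom.app_smul, an_smul (pow_ne_zero _ hc)]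

/-- A point that maps into the middle annulus in an affine coordinate. -/
lemma exists_coord (h : St d F G) {Z : V L} (hZ : Z ≠ 0) (hA : An G (app F Z)) :
    ∃ c z : L, c ≠ 0 ∧ z ≠ 0 ∧ Z = c • ![z, 1] ∧ An G (app F ![z, 1]) := by
  by_cases h1 : Z 1 = 0
  · have : Z = Z 0 • ![1, 0] := funext fun i => by fin_cases i <;> simp [h1]
    rw [this, h.an_app_smul (ne_cases' hZ h1)] at hA
    exact absurd hA h.not_an_e0
  rw [exists_aff h1, h.an_app_smul h1] at hA
  refine ⟨Z 1, Z 0 / Z 1, h1, fun h0 => ?_, exists_aff h1, hA⟩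
  rw [h0] at hA
  exact h.not_an_e1 hA

/-- The middle annulus is backward invariant. -/
lemma pre (h : St d F G) {Z : V L} (hZ : Z ≠ 0) (hA : An G (app F Z)) : An G Z := by
  obtain ⟨c, z, hc, hz, rfl, hA'⟩ := h.exists_coord hZ hA
  rw [an_smul hc]
  exact ⟨hz, one_ne_zero, by rw [rat_aff]; exact h.mi_of_jj (norm_pos_iff.2 hz) (h.jj hz hA')⟩

lemma pre_iter (h : St d F G) (n : ℕ) {Z : V L} (hZ : Z ≠ 0) (hA : An G ((app F)^[n] Z)) :
    An G Z := by
  induction n with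
  | zero => exact hA
  | succ n ih =>
    rw [Function.iterate_succ_apply'] at hA
    exact ih (h.pre (h.dyn.nondeg.iter_ne n hZ) hA)

/-- The ratio of the image is a function of the ratio. -/
lemma rat_eq (h : St d F G) {Z : V L} (hZ : Z ≠ 0) (hA : An G (app F Z)) :
    rat (app F Z) = lg F 0 (Real.exp (rat Z)) - lg F 1 (Real.exp (rat Z)) := by
  obtain ⟨c, z, hc, hz, rfl, hA'⟩ := h.exists_coord hZ hA
  rw [h.dyn.hom.app_smul, rat_smul (pow_ne_zero _ hc) hA'.1 hA'.2.1, h.rat_app hz hA',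
    rat_smul hc (Z := ![z, 1]) hz one_ne_zero, rat_aff, Real.exp_log (norm_pos_iff.2 hz)]

/-- The size of the Jacobian over the middle annulus. -/
lemma jac_norm (h : St d F G) {Z : V L} (hZ : Z ≠ 0) (hA : An G (app F Z)) :
    ‖jac F Z‖ * (‖Z 0‖ * ‖Z 1‖) = ‖app F Z 0‖ * ‖app F Z 1‖ := by
  obtain ⟨c, z, hc, hz, rfl, hA'⟩ := h.exists_coord hZ hA
  have hr := norm_pos_iff.2 hz
  have hJ := h.jj hz hA'
  have hw := (wr_count h.big (h.ne 0) (h.ne 1) hr
    (fun b hb => by simpa using h.no_root hr hJ hb) (fun b hb => by simpa using h.no_root hr hJ hb)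
    (h.cnt_ne hr hJ)).1 z (by simp)
  obtain ⟨e, rfl⟩ : ∃ e, d = e + 1 := ⟨d - 1, by have := h.pos; omega⟩
  rw [h.dyn.hom.isForm_jac.smul_eq, h.dyn.hom.app_smul, jac_aff h.dyn.hom,
    show 2 * (e + 1) - 2 = 2 * e by omega]
  simp only [Pi.smul_apply, smul_eq_mul, norm_mul, norm_pow, app_aff, h.big.res _ e.succ_ne_zero,
    Matrix.cons_val_zero, Matrix.cons_val_one, norm_one]
  linear_combination ‖c‖ ^ (2 * e + 2) * hw

end St

end Pool.Agent.MP_3827f0_nt.H92.NAGapAux
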