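import Pool.Agent.MP_3827f0_nt.H92.NASup
import Pool.Agent.MP_3827f0_nt.H92.NAGapCirc

/-! Maps whose escape rate lives on an axis. -/

set_option autoImplicit false

namespace Pool.Agent.MP_3827f0_nt.H92

variable {L : Type} [NormedField L] [IsUltrametricDist L] [IsAlgClosed L] [CharZero L]
  {d : ℕ} {F : PM L} {G : V L → ℝ}

namespace NAGapAux

omit [IsAlgClosed L] [CharZero L] in
lemma wedge_norm {X Y : V L} (hX : X ≠ 0) (hn : ¬ An G X) (hY : An G Y) :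
    ‖wedge X Y‖ = max (‖X 0‖ * ‖Y 1‖) (‖X 1‖ * ‖Y 0‖) := by
  have hy0 := norm_pos_iff.2 hY.1
  have hy1 := norm_pos_iff.2 hY.2.1
  rw [wedge, norm_sub_eq_max, norm_mul, norm_mul]
  rw [norm_mul, norm_mul]
  intro he
  have h0 : X 0 ≠ 0 := fun h0 => ne_cases hX h0 (by
    rw [h0, norm_zero, zero_mul] at he
    exact norm_eq_zero.1 ((mul_eq_zero.1 he.symm).resolve_right hy0.ne'))
  have h1 : X 1 ≠ 0 := fun h1 => h0 (by
    rw [h1, norm_zero, zero_mul] at he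
    exact norm_eq_zero.1 ((mul_eq_zero.1 he).resolve_right hy1.ne'))
  refine hn ⟨h0, h1, ?_⟩
  have := congrArg Real.log he
  rw [Real.log_mul (norm_ne_zero_iff.2 h0) hy1.ne', Real.log_mul (norm_ne_zero_iff.2 h1) hy0.ne']
    at this
  rw [show rat X = rat Y by simp only [rat]; linarith]
  exact hY.2.2

omit [IsAlgClosed L] [CharZero L] in
lemma wedge_bd {X Y : V L} (hX : X ≠ 0) (hn : ¬ An G X) (hY : An G Y) :
    ‖X‖ * min ‖Y 0‖ ‖Y 1‖ ≤ ‖wedge X Y‖ ∧ ‖wedge X Y‖ ≤ ‖X‖ * max ‖Y 0‖ ‖Y 1‖ := by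
  rw [wedge_norm hX hn hY, norm_V]
  constructor
  · rw [max_mul_of_nonneg _ _ (le_min (norm_nonneg _) (norm_nonneg _))]
    exact max_le_max (mul_le_mul_of_nonneg_left (min_le_right _ _) (norm_nonneg _))
      (mul_le_mul_of_nonneg_left (min_le_left _ _) (norm_nonneg _))
  · rw [max_mul_of_nonneg _ _ (le_max_of_le_left (norm_nonneg _))]
    exact max_le_max (mul_le_mul_of_nonneg_left (le_max_right _ _) (norm_nonneg _))
      (mul_le_mul_of_nonneg_left (le_max_left _ _) (norm_nonneg _))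

omit [IsAlgClosed L] [CharZero L] in
lemma wedge_ne {X Y : V L} (hX : X ≠ 0) (hn : ¬ An G X) (hY : An G Y) : wedge X Y ≠ 0 :=
  norm_pos_iff.1 ((mul_pos (norm_pos_iff.2 hX)
    (lt_min (norm_pos_iff.2 hY.1) (norm_pos_iff.2 hY.2.1))).trans_le (wedge_bd hX hn hY).1)

omit [IsAlgClosed L] [CharZero L] in
lemma wedge_lip {X : V L} (hX : X ≠ 0) (hn : ¬ An G X) {y y' : L} (hy : An G ![y, 1])
    (hy' : An G ![y', 1]) (hle : ‖y‖ ≤ ‖y'‖) :
    Real.log ‖wedge X ![y, 1]‖ ≤ Real.log ‖wedge X ![y', 1]‖ ∧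
      Real.log ‖wedge X ![y', 1]‖ + Real.log ‖y‖ ≤ Real.log ‖wedge X ![y, 1]‖ + Real.log ‖y'‖ := by
  have h1 := norm_pos_iff.2 (wedge_ne hX hn hy)
  have h2 := norm_pos_iff.2 (wedge_ne hX hn hy')
  have h3 : 0 < ‖y‖ := norm_pos_iff.2 hy.1
  have h4 : 0 < ‖y'‖ := norm_pos_iff.2 hy'.1
  rw [← Real.log_mul h2.ne' h3.ne', ← Real.log_mul h1.ne' h4.ne']
  refine ⟨Real.log_le_log h1 ?_, Real.log_le_log (mul_pos h2 h3) ?_⟩
  · rw [wedge_norm hX hn hy, wedge_norm hX hn hy']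
    exact max_le_max le_rfl (mul_le_mul_of_nonneg_left hle (norm_nonneg _))
  · rw [wedge_norm hX hn hy, wedge_norm hX hn hy', max_mul_of_nonneg _ _ h3.le,
      max_mul_of_nonneg _ _ h4.le]
    refine max_le_max (mul_le_mul_of_nonneg_left hle (by positivity)) (le_of_eq ?_)
    simp only [Matrix.cons_val_zero]
    ring

/-- The Green function of G. -/
noncomputable def gg (G : V L → ℝ) (X Y : V L) : ℝ := - Real.log ‖wedge X Y‖ + G X + G Y

namespace St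

omit [CharZero L] in
lemma cvx_lg (h : St d F G) (i : Fin 2) : Cvx fun t => lg F i (Real.exp t) := by
  intro a b c hab hbc
  have h1 := log_gn_le (h.ne i) 0 (Real.exp_pos a) (Real.exp_le_exp.2 hab.le)
  have h2 := le_log_gn (h.ne i) 0 (Real.exp_pos b) (Real.exp_le_exp.2 hbc.le)
  simp only [Real.log_exp] at h1 h2
  simp only [lg]
  nlinarith [mul_le_mul_of_nonneg_left h1 (sub_pos.2 hbc).le,
    mul_le_mul_of_nonneg_left h2 (sub_pos.2 hab).le]

omit [IsUltrametricDist L] [IsAlgClosed L] [CharZero L] in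
lemma exists_an (h : St d F G) {t : ℝ} (ht : MI G t) :
    ∃ y : L, y ≠ 0 ∧ Real.log ‖y‖ = t ∧ An G ![y, 1] := by
  obtain ⟨y, hy⟩ := h.big.full (Real.exp t) (Real.exp_pos t)
  have hy0 : y ≠ 0 := norm_pos_iff.1 (hy ▸ Real.exp_pos t)
  have : Real.log ‖y‖ = t := by rw [hy, Real.log_exp]
  exact ⟨y, hy0, this, hy0, one_ne_zero, by rwa [rat_aff, this]⟩

omit [CharZero L] in
/-- The preimages of a point of the middle annulus. -/
lemma fact (h : St d F G) (hF : Normal d F) {Y : V L} (hY : An G Y) :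
    ∃ (Ys : Fin d → V L) (lam : Fin d → L), Fact d F Y Ys lam ∧ (∀ j, lam j ≠ 0) ∧
      (∀ j, An G (app F (Ys j))) ∧ ∀ j, An G (Ys j) := by
  obtain ⟨Ys, lam, hf, h1⟩ := hF.2 Y hY.ne
  have hl := ne_zero_of_prod_eq_one h1
  have h2 : ∀ j, An G (app F (Ys j)) := fun j => by
    rw [hf.2, an_smul (hl j)]
    exact hY
  refine ⟨Ys, lam, hf, hl, h2, fun j => h.pre (fun h0 => ?_) (h2 j)⟩
  have h3 := wedge_ne (h.dyn.nondeg.app_ne e0_ne) h.not_an_e0 hY
  rw [hf.1] at h3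
  exact Finset.prod_ne_zero_iff.1 h3 j (Finset.mem_univ j) (by rw [h0, wedge_zero_right])

omit [IsUltrametricDist L] [IsAlgClosed L] [CharZero L] in
lemma sum_rat {Y : V L} {Ys : Fin d → V L} {lam : Fin d → L} (hf : Fact d F Y Ys lam)
    (hA : ∀ j, An G (Ys j)) : ∑ j, rat (Ys j) =
      Real.log ‖wedge (app F ![0, 1]) Y‖ - Real.log ‖wedge (app F ![1, 0]) Y‖ := by
  rw [hf.1, hf.1, norm_prod, norm_prod, Real.log_prod, Real.log_prod, ← Finset.sum_sub_distrib]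
  · exact Finset.sum_congr rfl fun j _ => by simp [rat, wedge]
  · exact fun j _ => by simpa [wedge] using (hA j).2.1
  · exact fun j _ => by simpa [wedge] using (hA j).1

omit [CharZero L] in
/-- The profile is not affine on the middle interval. -/
lemma strict (h : St d F G) (hF : Normal d F) {x : ℝ} (hx : MI G x) :
    ∃ a b c, MI G a ∧ MI G c ∧ a < b ∧ b < c ∧
      (c - a) * vv G b < (c - b) * vv G a + (b - a) * vv G c := by
  by_contra hc
  push Not at hc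
  obtain ⟨k, c, α, β, hk0, hk1, hαβ, hab, hmid, hlin, hin⟩ :=
    h.prof.shape hx fun a b c h1 _ h3 h4 h5 => hc a b c h1 h3 h4 h5
  have feq : ∀ t, d * vv G t =
      vv G (lg F 0 (Real.exp t) - lg F 1 (Real.exp t)) + lg F 1 (Real.exp t) := fun t => by
    simpa only [Real.log_exp] using h.feq (Real.exp_pos t)
  obtain ⟨y, -, hy, hY⟩ := h.exists_an hx
  obtain ⟨Z, hZ, hFZ⟩ := app_surj h.pos h.dyn.hom h.dyn.nondeg (aff_ne_zero y)
  rw [← hFZ] at hY
  have h1 := (hmid _).1 (h.pre hZ hY).2.2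
  have h2 := (hmid _).1 hY.2.2
  obtain ⟨he, n, c', hn⟩ := affine_of_touch (h.cvx_lg 0) (h.cvx_lg 1) (A := d * k)
    (B := d * c - c) hk0 hk1 h1.1 h1.2
    (fun t h3 h4 => by
      have h5 := feq t
      have h6 := hab (lg F 0 (Real.exp t) - lg F 1 (Real.exp t))
      rw [hlin t h3 h4] at h5
      linarith)
    (by
      have h5 := feq (rat Z)
      rw [hlin _ h1.1 h1.2, ← h.rat_eq hZ hY, hlin _ h2.1 h2.2, h.rat_eq hZ hY] at h5
      linarith)
  have hT : ∀ t, α < t → t < β → α ≤ n * t + c' ∧ n * t + c' ≤ β := fun t h3 h4 => by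
    rw [← hn t h3 h4]
    refine hin _ ?_
    have h5 := feq t
    have h6 := he t h3 h4
    rw [hlin t h3 h4] at h5
    linarith
  have ha1 : α < α + (β - α) / 5 := by linarith
  have ha2 : α + (β - α) / 5 < β := by linarith
  have hb1 : α < β - (β - α) / 5 := by linarith
  have hb2 : β - (β - α) / 5 < β := by linarith
  have hS : ∀ y : L, An G ![y, 1] → d * Real.log ‖y‖ = n * (Real.log ‖wedge (app F ![0, 1]) ![y, 1]‖
      - Real.log ‖wedge (app F ![1, 0]) ![y, 1]‖) + d * c' := fun y hy => by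
    obtain ⟨Ys, lam, hf, hl, h3, h4⟩ := h.fact hF hy
    have h5 : ∀ j, Real.log ‖y‖ = n * rat (Ys j) + c' := fun j => by
      have h6 := (hmid _).1 (h4 j).2.2
      rw [← hn _ h6.1 h6.2, ← h.rat_eq (h4 j).ne (h3 j), hf.2, rat_smul (hl j) hy.1 hy.2.1, rat_aff]
    have h6 := Finset.sum_congr (s₁ := Finset.univ) rfl fun j _ => h5 j
    rw [Finset.sum_add_distrib, ← Finset.mul_sum, sum_rat hf h4] at h6
    simpa using h6
  obtain ⟨y₁, hy₁, e₁, hA₁⟩ := h.exists_an ((hmid _).2 ⟨ha1, ha2⟩)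
  obtain ⟨y₂, hy₂, e₂, hA₂⟩ := h.exists_an ((hmid _).2 ⟨hb1, hb2⟩)
  have hle : ‖y₁‖ ≤ ‖y₂‖ := by
    rw [← Real.log_le_log_iff (norm_pos_iff.2 hy₁) (norm_pos_iff.2 hy₂), e₁, e₂]
    linarith
  have i0 := wedge_lip (h.dyn.nondeg.app_ne e0_ne) h.not_an_e0 hA₁ hA₂ hle
  have i1 := wedge_lip (h.dyn.nondeg.app_ne (aff_ne_zero 0)) h.not_an_e1 hA₁ hA₂ hle
  have s₁ := hS y₁ hA₁
  have s₂ := hS y₂ hA₂
  have t₁ := hT _ ha1 ha2
  have t₂ := hT _ hb1 hb2
  have hd : (2 : ℝ) ≤ d := by exact_mod_cast h.dyn.two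
  rw [e₁, e₂] at i0 i1
  rw [e₁] at s₁
  rw [e₂] at s₂
  have hδ : 0 < β - α := by linarith
  have hn1 : n ≤ 5 / 3 := le_of_mul_le_mul_right (a := β - α) (by linarith [t₁.1, t₂.2]) hδ
  have hn2 : -(5 / 3) ≤ n := le_of_mul_le_mul_right (a := β - α) (by linarith [t₁.2, t₂.1]) hδ
  generalize Real.log ‖wedge (app F ![0, 1]) ![y₁, 1]‖ = p₁ at *
  generalize Real.log ‖wedge (app F ![0, 1]) ![y₂, 1]‖ = p₂ at *
  generalize Real.log ‖wedge (app F ![1, 0]) ![y₁, 1]‖ = q₁ at *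
  generalize Real.log ‖wedge (app F ![1, 0]) ![y₂, 1]‖ = q₂ at *
  have j1 : 0 ≤ (5 / 3 - n) * (3 / 5 * (β - α) + (p₂ - q₂ - (p₁ - q₁))) :=
    mul_nonneg (by linarith) (by linarith [i0.2, i1.1])
  have j2 : 0 ≤ (5 / 3 + n) * (3 / 5 * (β - α) - (p₂ - q₂ - (p₁ - q₁))) :=
    mul_nonneg (by linarith) (by linarith [i0.1, i1.2])
  have j3 := mul_le_mul_of_nonneg_right hd hδ.le
  nlinarith

omit [CharZero L] in
lemma not_an_crit (h : St d F G) {Z : V L} (hZ : Crit F Z) (n : ℕ) :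
    ¬ An G ((app F)^[n + 1] Z) := by
  intro hA
  rw [Function.iterate_succ_apply] at hA
  have h1 := h.pre_iter n (h.dyn.nondeg.app_ne hZ.1) hA
  have h2 := h.jac_norm hZ.1 h1
  rw [hZ.2, norm_zero, zero_mul] at h2
  exact (mul_pos (norm_pos_iff.2 h1.1) (norm_pos_iff.2 h1.2.1)).ne h2

omit [CharZero L] in
lemma gap (h : St d F G) (hF : Normal d F) {x : ℝ} (hx : MI G x) : Gap F G := by
  obtain ⟨a, b, c, ha, hc, hab, hbc, hlt⟩ := h.strict hF hx
  obtain ⟨z₁, h₁, e₁, -⟩ := h.exists_an ha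
  obtain ⟨z₂, h₂, e₂, -⟩ := h.exists_an (h.prof.mid_between ha hc hab.le hbc.le)
  obtain ⟨z₃, h₃, e₃, -⟩ := h.exists_an hc
  have p₁ := norm_pos_iff.2 h₁
  have p₂ := norm_pos_iff.2 h₂
  have p₃ := norm_pos_iff.2 h₃
  refine ⟨1, z₁, z₂, z₃, Matrix.det_one, p₁, ?_, ?_, ?_, ?_⟩
  · rwa [← Real.log_lt_log_iff p₁ p₂, e₁, e₂]
  · rwa [← Real.log_lt_log_iff p₂ p₃, e₂, e₃]
  · simp only [Matrix.one_mulVec]
    rwa [h.aff h₁, h.aff h₂, h.aff h₃, e₁, e₂, e₃]
  · rintro Y ⟨Z, n, hZ, hY⟩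
    rw [Matrix.one_mulVec] at hY
    by_contra hn
    push Not at hn
    have hY0 : Y ≠ 0 := hY ▸ h.dyn.nondeg.iter_ne _ hZ.1
    have y1 : Y 1 ≠ 0 := fun h1 => ne_cases' hY0 h1 (by simpa [h1] using hn.2)
    have q1 := norm_pos_iff.2 y1
    have q0 := (mul_pos p₁ q1).trans_le hn.1
    have i1 := Real.log_le_log (mul_pos p₁ q1) hn.1
    have i2 := Real.log_le_log q0 hn.2
    rw [Real.log_mul p₁.ne' q1.ne', e₁] at i1
    rw [Real.log_mul p₃.ne' q1.ne', e₃] at i2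
    refine h.not_an_crit hZ n (hY ▸ ⟨norm_pos_iff.1 q0, y1, h.prof.mid_between ha hc ?_ ?_⟩)
    · rw [rat]; linarith
    · rw [rat]; linarith

omit [CharZero L] in
lemma sum_gg (h : St d F G) (hF : Normal d F) {Y : V L} {Ys : Fin d → V L} {lam : Fin d → L}
    (hf : Fact d F Y Ys lam) (hY : An G Y) (hA : ∀ j, An G (Ys j)) {X : V L} (hX : X ≠ 0)
    (hn : ¬ An G (app F X)) : ∑ j, gg G X (Ys j) = gg G (app F X) Y := by
  have h1 := h.dyn.nondeg.app_ne hX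
  have := sum_grn place_nv_ultra h.dyn.two hF hf (wedge_ne h1 hn hY)
  simpa only [grn, gg, nv_apply, h.dyn.esc_eq hX, h.dyn.esc_eq h1, h.dyn.esc_eq hY.ne,
    h.dyn.esc_eq (hA _).ne] using this

omit [IsAlgClosed L] [CharZero L] in
lemma gg_bd (h : St d F G) {Y : V L} (hY : An G Y) :
    ∃ B : ℝ, ∀ X : V L, X ≠ 0 → ¬ An G X → -B ≤ gg G X Y ∧ gg G X Y ≤ B := by
  obtain ⟨C, hC⟩ := h.dyn.esc.1
  have hm : 0 < min ‖Y 0‖ ‖Y 1‖ := lt_min (norm_pos_iff.2 hY.1) (norm_pos_iff.2 hY.2.1)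
  have hM : 0 < max ‖Y 0‖ ‖Y 1‖ := hm.trans_le min_le_max
  refine ⟨|Real.log (min ‖Y 0‖ ‖Y 1‖)| + |Real.log (max ‖Y 0‖ ‖Y 1‖)| + C + |G Y|,
    fun X hX hn => ?_⟩
  have hx := norm_pos_iff.2 hX
  obtain ⟨h1, h2⟩ := wedge_bd hX hn hY
  have h3 := Real.log_le_log (mul_pos hx hm) h1
  have h4 := Real.log_le_log (norm_pos_iff.2 (wedge_ne hX hn hY)) h2
  rw [Real.log_mul hx.ne' hm.ne'] at h3
  rw [Real.log_mul hx.ne' hM.ne'] at h4
  obtain ⟨h5, h6⟩ := abs_le.1 (hC X hX)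
  have := abs_nonneg (Real.log (min ‖Y 0‖ ‖Y 1‖))
  have := abs_nonneg (Real.log (max ‖Y 0‖ ‖Y 1‖))
  have := neg_abs_le (Real.log (min ‖Y 0‖ ‖Y 1‖))
  have := le_abs_self (Real.log (max ‖Y 0‖ ‖Y 1‖))
  have := neg_abs_le (G Y)
  have := le_abs_self (G Y)
  rw [gg]
  constructor <;> linarith

lemma lyap (h : St d F G) (hF : Normal d F) {x : ℝ} (hx : MI G x) : LyapLE d F G := by
  intro Cs hC
  have hCs : ∀ j, Crit F (Cs j) := fun j => by
    refine ⟨fun h0 => ?_, by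
      rw [hC]; exact Finset.prod_eq_zero (Finset.mem_univ j) (by simp [wedge, mul_comm])⟩
    obtain ⟨Z, hZ⟩ := exists_jac_ne h.pos h.dyn.hom h.dyn.nondeg
    rw [hC] at hZ
    exact Finset.prod_ne_zero_iff.1 hZ j (Finset.mem_univ j) (by rw [h0, wedge_zero_right])
  have n0 : ∀ n, ¬ An G ((app F)^[n] ![1, 0]) := fun n hA => (h.pre_iter n e0_ne hA).2.1 rfl
  have n1 : ∀ n, ¬ An G ((app F)^[n] ![0, 1]) := fun n hA =>
    (h.pre_iter n (aff_ne_zero 0) hA).1 rfl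
  have step : ∀ {Y : V L} {Ys : Fin d → V L} {lam : Fin d → L}, Fact d F Y Ys lam → An G Y →
      (∀ j, An G (Ys j)) → ∀ (n : ℕ) {X : V L}, X ≠ 0 → ¬ An G ((app F)^[n + 1] X) →
      ∑ j, gg G ((app F)^[n] X) (Ys j) = gg G ((app F)^[n + 1] X) Y := by
    intro Y Ys lam hf hY hA n X hX hn
    rw [Function.iterate_succ_apply'] at hn ⊢
    exact h.sum_gg hF hf hY hA (h.dyn.nondeg.iter_ne n hX) hn
  have hd : ((2 * d - 2 : ℕ) : ℝ) = 2 * d - 2 := by
    have := h.pos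
    rw [Nat.cast_sub (by omega)]
    simp
  have base : ∀ (Z Y : V L) (t : L), t ≠ 0 → An G Y → An G Z → app F Z = t • Y →
      ∑ c, G (Cs c) - ∑ c, gg G (Cs c) Z =
        - (gg G ![1, 0] Y + gg G ![0, 1] Y) + (gg G ![1, 0] Z + gg G ![0, 1] Z) := by
    intro Z Y t ht hY hZ he
    have h1 := h.jac_norm hZ.ne (by rw [he, an_smul ht]; exact hY)
    have h2 := h.app_eq hZ.ne
    have ht' := norm_ne_zero_iff.2 ht
    have y0 := norm_ne_zero_iff.2 hY.1
    have y1 := norm_ne_zero_iff.2 hY.2.1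
    have z0 := norm_ne_zero_iff.2 hZ.1
    have z1 := norm_ne_zero_iff.2 hZ.2.1
    rw [he, h.smul ht hY.ne] at h2
    simp only [he, Pi.smul_apply, smul_eq_mul, norm_mul] at h1
    have h3 : ‖jac F Z‖ ≠ 0 := fun h0 => by
      rw [h0, zero_mul] at h1
      exact mul_ne_zero (mul_ne_zero ht' y0) (mul_ne_zero ht' y1) h1.symm
    have h4 := congrArg Real.log h1
    rw [Real.log_mul h3 (mul_ne_zero z0 z1), Real.log_mul z0 z1,
      Real.log_mul (mul_ne_zero ht' y0) (mul_ne_zero ht' y1), Real.log_mul ht' y0,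
      Real.log_mul ht' y1] at h4
    rw [hC, norm_prod] at h3 h4
    rw [Real.log_prod (Finset.prod_ne_zero_iff.1 h3)] at h4
    have h5 : ∀ c, ‖wedge (Cs c) Z‖ = ‖wedge Z (Cs c)‖ := fun c => by rw [wedge_comm, norm_neg]
    have h6 : ∀ W : V L, ‖wedge ![1, 0] W‖ = ‖W 1‖ := fun W => by simp [wedge]
    have h7 : ∀ W : V L, ‖wedge ![0, 1] W‖ = ‖W 0‖ := fun W => by simp [wedge]
    simp only [gg, h5, h6, h7, Finset.sum_add_distrib, Finset.sum_neg_distrib, Finset.sum_const,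
      Finset.card_univ, Fintype.card_fin, nsmul_eq_mul, hd]
    linarith
  have main : ∀ (n : ℕ) (Y : V L), An G Y →
      (d : ℝ) ^ (n + 1) * ∑ c, G (Cs c) - ∑ c, gg G ((app F)^[n + 1] (Cs c)) Y =
        - (d * (gg G ((app F)^[n] ![1, 0]) Y + gg G ((app F)^[n] ![0, 1]) Y)) +
          (gg G ((app F)^[n + 1] ![1, 0]) Y + gg G ((app F)^[n + 1] ![0, 1]) Y) := by
    intro n
    induction n with
    | zero =>
      intro Y hY
      obtain ⟨Ys, lam, hf, hl, -, hA⟩ := h.fact hF hY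
      have h1 := Finset.sum_congr (s₁ := Finset.univ) rfl fun j _ =>
        base (Ys j) Y (lam j) (hl j) hY (hA j) (hf.2 j)
      have h2 := step hf hY hA 0 e0_ne (n0 _)
      have h3 := step hf hY hA 0 (aff_ne_zero 0) (n1 _)
      have h4 := Finset.sum_congr (s₁ := Finset.univ) rfl fun c _ =>
        step hf hY hA 0 (hCs c).1 (h.not_an_crit (hCs c) _)
      rw [Finset.sum_comm] at h4
      simp only [Finset.sum_sub_distrib, Finset.sum_add_distrib, Finset.sum_const,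
        Finset.card_univ, Fintype.card_fin, nsmul_eq_mul] at h1
      simp only [Function.iterate_zero, id] at h2 h3 h4 ⊢
      rw [zero_add, pow_one] at *
      linarith
    | succ n ih =>
      intro Y hY
      obtain ⟨Ys, lam, hf, hl, -, hA⟩ := h.fact hF hY
      have h1 := Finset.sum_congr (s₁ := Finset.univ) rfl fun j _ => ih (Ys j) (hA j)
      have h2 := step hf hY hA n e0_ne (n0 _)
      have h3 := step hf hY hA n (aff_ne_zero 0) (n1 _)
      have h2' := step hf hY hA (n + 1) e0_ne (n0 _)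
      have h3' := step hf hY hA (n + 1) (aff_ne_zero 0) (n1 _)
      have h4 := Finset.sum_congr (s₁ := Finset.univ) rfl fun c _ =>
        step hf hY hA (n + 1) (hCs c).1 (h.not_an_crit (hCs c) _)
      rw [Finset.sum_comm] at h4
      simp only [Finset.sum_sub_distrib, Finset.sum_add_distrib, Finset.sum_const,
        Finset.card_univ, Fintype.card_fin, nsmul_eq_mul, Finset.sum_neg_distrib,
        ← Finset.mul_sum] at h1
      rw [h2, h3, h2', h3', h4] at h1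
      rw [← h1]
      ring
  obtain ⟨y, -, -, hY⟩ := h.exists_an hx
  obtain ⟨B, hB⟩ := h.gg_bd hY
  by_contra hc
  push Not at hc
  have hd1 : (1 : ℝ) < d := by exact_mod_cast h.dyn.two
  obtain ⟨n, hn⟩ := pow_unbounded_of_one_lt
    (((2 * d - 2) * B + d * (B + B) + (B + B)) / ∑ c, G (Cs c)) hd1
  have h1 := mul_le_mul_of_nonneg_right (pow_le_pow_right₀ hd1.le (Nat.le_add_right n 1)) hc.le
  rw [div_lt_iff₀ hc] at hn
  have h2 := main n _ hY
  have h3 : ∑ c, gg G ((app F)^[n + 1] (Cs c)) ![y, 1] ≤ ∑ _c : Fin (2 * d - 2), B :=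
    Finset.sum_le_sum fun c _ =>
      (hB _ (h.dyn.nondeg.iter_ne _ (hCs c).1) (h.not_an_crit (hCs c) _)).2
  simp only [Finset.sum_const, Finset.card_univ, Fintype.card_fin, nsmul_eq_mul, hd] at h3
  have h4 := (hB _ (h.dyn.nondeg.iter_ne n e0_ne) (n0 _)).1
  have h5 := (hB _ (h.dyn.nondeg.iter_ne n (aff_ne_zero 0)) (n1 _)).1
  have h6 := (hB _ (h.dyn.nondeg.iter_ne (n + 1) e0_ne) (n0 _)).2
  have h7 := (hB _ (h.dyn.nondeg.iter_ne (n + 1) (aff_ne_zero 0)) (n1 _)).2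
  have h8 := mul_le_mul_of_nonneg_left (add_le_add h4 h5) (Nat.cast_nonneg (α := ℝ) d)
  linarith

end St

end NAGapAux

open NAGapAux

theorem dirac_or_gap (hL : Big L) (h : Dyn d F G) (hF : Normal d F) (hA : Axis G) :
    Dirac G ∨ (Gap F G ∧ LyapLE d F G) := by
  obtain ⟨M, hM, hax⟩ := hA
  have hS : St d (conj M F) fun Z => G (M.mulVec Z) := ⟨hL, h.conj hM, hax⟩
  have hN := hF.conj hS.pos hM
  have hadj : ∀ Z, M.mulVec (M.adjugate.mulVec Z) = Z := fun Z => by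
    rw [Matrix.mulVec_mulVec, Matrix.mul_adjugate, hM, one_smul, Matrix.one_mulVec]
  have hadj' : ∀ Z, M.adjugate.mulVec (M.mulVec Z) = Z := fun Z => by
    rw [Matrix.mulVec_mulVec, Matrix.adjugate_mul, hM, one_smul, Matrix.one_mulVec]
  by_cases hI : ∀ t, ¬ MI (fun Z => G (M.mulVec Z)) t
  · obtain ⟨M', c, h1, h2⟩ := hS.dirac hI
    exact Or.inl ⟨M * M', c, by rw [Matrix.det_mul, hM, h1, one_mul], fun Z hZ => by
      rw [← Matrix.mulVec_mulVec]; exact h2 Z hZ⟩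
  push Not at hI
  obtain ⟨x, hx⟩ := hI
  refine Or.inr ⟨?_, fun Cs hC => ?_⟩
  · obtain ⟨M', z₁, z₂, z₃, h1, h2, h3, h4, h5, h6⟩ := hS.gap hN hx
    refine ⟨M * M', z₁, z₂, z₃, by rw [Matrix.det_mul, hM, h1, one_mul], h2, h3, h4, ?_, ?_⟩
    · simpa only [← Matrix.mulVec_mulVec] using h5
    · rintro Y ⟨Z, n, hZ, hY⟩
      refine h6 Y ⟨M.adjugate.mulVec Z, n, ⟨fun h0 => hZ.1 ?_, ?_⟩, ?_⟩
      · rw [← hadj Z, h0, Matrix.mulVec_zero]
      · rw [jac_conj, hadj, hZ.2, mul_zero]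
      · rw [← hadj' ((app (conj M F))^[n + 1] _), mulVec_iter_conj hM, hadj, ← hY,
          ← Matrix.mulVec_mulVec, hadj']
  · have := hS.lyap hN hx (fun j => M.adjugate.mulVec (Cs j)) fun Z => by
      rw [jac_conj, hM, one_pow, one_mul, hC]
      refine Finset.prod_congr rfl fun j _ => ?_
      conv_lhs => rw [← hadj (Cs j)]
      rw [wedge_mulVec, hM, one_mul]
    simpa only [hadj] using this

end Pool.Agent.MP_3827f0_nt.H92
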