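import Mathlib

/-! Convex profiles with slopes between zero and one. -/

set_option autoImplicit false

namespace Pool.Agent.MP_3827f0_nt.H92.NAGapAux

/-- Convexity in three point form. -/
def Cvx (f : ℝ → ℝ) : Prop :=
  ∀ a b c, a < b → b < c → (c - a) * f b ≤ (c - b) * f a + (b - a) * f c

/-- A convex function with slopes between zero and one and finite asymptotes. -/
structure Prof (v : ℝ → ℝ) (m p : ℝ) : Prop where
  mono : ∀ a b, a ≤ b → v a ≤ v b
  lip : ∀ a b, a ≤ b → v b - v a ≤ b - a
  cvx : Cvx v
  lo : ∀ t, m ≤ v t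
  hi : ∀ t, t + p ≤ v t
  lim_lo : ∀ ε, 0 < ε → ∃ t, v t < m + ε
  lim_hi : ∀ ε, 0 < ε → ∃ t, v t < t + p + ε

/-- The interval on which the profile is above both asymptotes. -/
def Mid (v : ℝ → ℝ) (m p t : ℝ) : Prop := m < v t ∧ t + p < v t

variable {v : ℝ → ℝ} {m p : ℝ}

lemma Prof.strict_lo (h : Prof v m p) {s s' : ℝ} (hs : m < v s) (hss : s' < s) : v s' < v s := by
  by_contra hc
  push Not at hc
  obtain ⟨t, ht⟩ := h.lim_lo (v s - m) (by linarith)
  have ht' : t < s' := by
    by_contra h'
    push Not at h'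
    have := h.mono _ _ h'
    linarith
  have := h.cvx t s' s ht' hss
  nlinarith

lemma Prof.strict_hi (h : Prof v m p) {s s' : ℝ} (hs : s + p < v s) (hss : s < s') :
    v s' - s' < v s - s := by
  by_contra hc
  push Not at hc
  obtain ⟨t, ht⟩ := h.lim_hi (v s - s - p) (by linarith)
  have ht' : s' < t := by
    by_contra h'
    push Not at h'
    have := h.lip _ _ h'
    linarith
  have := h.cvx s s' t hss ht'
  nlinarith

lemma Prof.two (h : Prof v m p) {a a' b b' : ℝ} (ha : a ≤ a') (hb : b ≤ b') :
    v (a - b) + b ≤ v (a' - b') + b' := by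
  have h1 := h.mono (a - b) (a' - b) (by linarith)
  have h2 := h.lip (a' - b') (a' - b) (by linarith)
  linarith

lemma Prof.rigid (h : Prof v m p) {a a' b b' : ℝ} (ha : a ≤ a') (hb : b ≤ b')
    (he : v (a' - b') + b' ≤ v (a - b) + b) (hI : Mid v m p (a - b) ∨ Mid v m p (a' - b')) :
    a = a' ∧ b = b' := by
  have h1 := h.two ha (le_refl b)
  have h2 := h.two (le_refl a') hb
  have h3 := h.two (le_refl a) hb
  have h4 := h.two ha (le_refl b')
  rcases hI with hI | hI
  · constructor
    · by_contra hc
      have := h.strict_lo (s := a' - b) (s' := a - b) (by linarith [hI.1])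
        (by have := lt_of_le_of_ne ha hc; linarith)
      linarith
    · by_contra hc
      have h5 := lt_of_le_of_ne hb hc
      have h6 := h.lip (a - b') (a - b) (by linarith)
      have := h.strict_hi (s := a - b') (s' := a - b) (by linarith [hI.2]) (by linarith)
      linarith
  · constructor
    · by_contra hc
      have := h.strict_lo (s := a' - b') (s' := a - b') hI.1
        (by have := lt_of_le_of_ne ha hc; linarith)
      linarith
    · by_contra hc
      have h5 := lt_of_le_of_ne hb hc
      have := h.strict_hi (s := a' - b') (s' := a' - b) hI.2 (by linarith)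
      linarith

lemma Prof.mid_between (h : Prof v m p) {a b t : ℝ} (ha : Mid v m p a) (hb : Mid v m p b)
    (h1 : a ≤ t) (h2 : t ≤ b) : Mid v m p t := by
  have := h.mono _ _ h1
  have := h.lip _ _ h2
  exact ⟨by linarith [ha.1], by linarith [hb.2]⟩

lemma Prof.mid_right (h : Prof v m p) {a : ℝ} (ha : Mid v m p a) : ∃ b, a < b ∧ Mid v m p b := by
  have h2 := ha.2
  have := h.mono a (a + (v a - a - p) / 2) (by linarith)
  exact ⟨a + (v a - a - p) / 2, by linarith, by linarith [ha.1], by linarith⟩

/-- A function with three point equality is affine. -/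
lemma affine_of_three {s : ℝ → Prop} {f : ℝ → ℝ} {x y : ℝ} (hx : s x) (hy : s y) (hxy : x < y)
    (h : ∀ a b c, s a → s b → s c → a < b → b < c →
      (c - a) * f b = (c - b) * f a + (b - a) * f c) :
    ∃ k c, ∀ t, s t → f t = k * t + c := by
  have h0 : y - x ≠ 0 := by linarith
  refine ⟨(f y - f x) / (y - x), f x - (f y - f x) / (y - x) * x, fun t ht => ?_⟩
  have key : (y - x) * f t = (y - t) * f x + (t - x) * f y := by
    rcases lt_trichotomy t x with h1 | rfl | h1
    · linear_combination -h t x y ht hx hy h1 hxy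
    · ring
    · rcases lt_trichotomy t y with h2 | rfl | h2
      · linear_combination h x t y hx ht hy h1 h2
      · ring
      · linear_combination -h x y t hx hy ht hxy h2
  field_simp
  linear_combination key

/-- A convex function lies above the line through two of its points outside the segment. -/
lemma Cvx.above {f : ℝ → ℝ} (h : Cvx f) {x y k c t : ℝ} (hxy : x < y) (hx : f x = k * x + c)
    (hy : f y = k * y + c) (ht : t ≤ x ∨ y ≤ t) : k * t + c ≤ f t := by
  rcases ht with ht | ht
  · rcases ht.eq_or_lt with rfl | ht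
    · exact hx.ge
    · have := h t x y ht hxy
      rw [hx, hy] at this
      nlinarith
  · rcases ht.eq_or_lt with rfl | ht
    · exact hy.ge
    · have := h x y t hxy ht
      rw [hx, hy] at this
      nlinarith

/-- The shape of a profile that is affine on the middle interval. -/
lemma Prof.shape (h : Prof v m p) {x : ℝ} (hx : Mid v m p x)
    (ha : ∀ a b c, Mid v m p a → Mid v m p b → Mid v m p c → a < b → b < c →
      (c - b) * v a + (b - a) * v c ≤ (c - a) * v b) :
    ∃ k c α β : ℝ, 0 < k ∧ k < 1 ∧ α < β ∧ (∀ t, k * t + c ≤ v t) ∧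
      (∀ t, Mid v m p t ↔ α < t ∧ t < β) ∧ (∀ t, α < t → t < β → v t = k * t + c) ∧
      ∀ t, v t ≤ k * t + c → α ≤ t ∧ t ≤ β := by
  obtain ⟨y, hxy, hy⟩ := h.mid_right hx
  obtain ⟨k, c, hk⟩ := affine_of_three (f := v) hx hy hxy fun a b c h1 h2 h3 h4 h5 =>
    le_antisymm (h.cvx a b c h4 h5) (ha a b c h1 h2 h3 h4 h5)
  have hk0 : 0 < k := by
    have := h.strict_lo hy.1 hxy
    rw [hk x hx, hk y hy] at this
    nlinarith
  have hk1 : k < 1 := by
    have := h.strict_hi hx.2 hxy
    rw [hk x hx, hk y hy] at this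
    nlinarith
  have hab : ∀ t, k * t + c ≤ v t := fun t => by
    by_cases h1 : t ≤ x ∨ y ≤ t
    · exact h.cvx.above hxy (hk x hx) (hk y hy) h1
    · push Not at h1
      exact (hk t (h.mid_between hx hy h1.1.le h1.2.le)).ge
  have e1 : ∀ t, (m - c) / k < t ↔ m < k * t + c := fun t => by
    rw [div_lt_iff₀ hk0]; constructor <;> intro <;> linarith
  have e2 : ∀ t, t < (c - p) / (1 - k) ↔ t + p < k * t + c := fun t => by
    rw [lt_div_iff₀ (by linarith)]; constructor <;> intro <;> linarith
  have hmid : ∀ t, Mid v m p t ↔ (m - c) / k < t ∧ t < (c - p) / (1 - k) := fun t => by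
    rw [e1, e2]
    constructor
    · intro ht
      rw [← hk t ht]
      exact ht
    · intro ht
      exact ⟨ht.1.trans_le (hab t), ht.2.trans_le (hab t)⟩
  refine ⟨k, c, (m - c) / k, (c - p) / (1 - k), hk0, hk1,
    ((hmid x).1 hx).1.trans ((hmid x).1 hx).2, hab, hmid,
    fun t h1 h2 => hk t ((hmid t).2 ⟨h1, h2⟩), fun t ht => ⟨?_, ?_⟩⟩
  · rw [div_le_iff₀ hk0]; linarith [h.lo t]
  · rw [le_div_iff₀ (by linarith)]; linarith [h.hi t]

/-- Two convex functions whose positive combination touches an affine upper bound at an interior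
point have an affine difference. -/
lemma affine_of_touch {f g : ℝ → ℝ} (hf : Cvx f) (hg : Cvx g) {k A B α β x : ℝ} (hk0 : 0 < k)
    (hk1 : k < 1) (hx1 : α < x) (hx2 : x < β)
    (hle : ∀ t, α < t → t < β → k * f t + (1 - k) * g t ≤ A * t + B)
    (hx : k * f x + (1 - k) * g x = A * x + B) :
    (∀ t, α < t → t < β → k * f t + (1 - k) * g t = A * t + B) ∧
      ∃ n c, ∀ t, α < t → t < β → f t - g t = n * t + c := by
  have hk2 : 0 < 1 - k := by linarith
  have hc : Cvx fun t => k * f t + (1 - k) * g t := fun a b c h1 h2 => by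
    have := mul_le_mul_of_nonneg_left (hf a b c h1 h2) hk0.le
    have := mul_le_mul_of_nonneg_left (hg a b c h1 h2) hk2.le
    linarith
  have he : ∀ t, α < t → t < β → k * f t + (1 - k) * g t = A * t + B := fun t h1 h2 => by
    refine le_antisymm (hle t h1 h2) ?_
    rcases lt_trichotomy t x with h3 | rfl | h3
    · have h4 := hc t x ((x + β) / 2) h3 (by linarith)
      have h5 := hle ((x + β) / 2) (by linarith) (by linarith)
      simp only [hx] at h4
      nlinarith
    · exact hx.ge
    · have h4 := hc ((α + x) / 2) x t (by linarith) h3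
      have h5 := hle ((α + x) / 2) (by linarith) (by linarith)
      simp only [hx] at h4
      nlinarith
  refine ⟨he, ?_⟩
  obtain ⟨n, c, hn⟩ := affine_of_three (s := fun t => α < t ∧ t < β) (f := fun t => f t - g t)
    (x := x) (y := (x + β) / 2) ⟨hx1, hx2⟩ ⟨by linarith, by linarith⟩ (by linarith)
    fun a b c ha hb hc' h1 h2 => by
      have e1 := he a ha.1 ha.2
      have e2 := he b hb.1 hb.2
      have e3 := he c hc'.1 hc'.2
      have i1 := hf a b c h1 h2
      have i2 := hg a b c h1 h2
      have e : k * ((c - b) * f a + (b - a) * f c - (c - a) * f b) +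
          (1 - k) * ((c - b) * g a + (b - a) * g c - (c - a) * g b) = 0 := by
        linear_combination (c - b) * e1 - (c - a) * e2 + (b - a) * e3
      have j1 := mul_nonneg hk0.le (sub_nonneg.2 i1)
      have j2 := mul_nonneg hk2.le (sub_nonneg.2 i2)
      have k1 := (mul_eq_zero.1 (show k * ((c - b) * f a + (b - a) * f c - (c - a) * f b) = 0 by
        linarith)).resolve_left hk0.ne'
      have k2 := (mul_eq_zero.1 (show (1 - k) *
        ((c - b) * g a + (b - a) * g c - (c - a) * g b) = 0 by linarith)).resolve_left hk2.ne'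
      linear_combination k2 - k1
  exact ⟨n, c, fun t h1 h2 => hn t ⟨h1, h2⟩⟩

end Pool.Agent.MP_3827f0_nt.H92.NAGapAux
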