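import Pool.Agent.MP_3827f0_nt.H92.NASup
import Pool.Agent.MP_3827f0_nt.H92.NAGapReal

/-! The profile of an escape rate that lives on an axis, and the middle annulus. -/

set_option autoImplicit false

namespace Pool.Agent.MP_3827f0_nt.H92.NAGapAux

open Metric Filter Topology

variable {L : Type} [NormedField L] [IsUltrametricDist L] [IsAlgClosed L]
  {d : ℕ} {F : PM L} {G : V L → ℝ}

/-- The escape rate only depends on the sizes of the coordinates. -/
structure St (d : ℕ) (F : PM L) (G : V L → ℝ) : Prop where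
  big : Big L
  dyn : Dyn d F G
  ax : ∀ Z W : V L, Z ≠ 0 → ‖Z 0‖ = ‖W 0‖ → ‖Z 1‖ = ‖W 1‖ → G Z = G W

/-- The profile. -/
noncomputable def vv (G : V L → ℝ) (t : ℝ) : ℝ := usup G 0 (Real.exp t)

/-- The logarithmic ratio of the coordinates. -/
noncomputable def rat (Z : V L) : ℝ := Real.log ‖Z 0‖ - Real.log ‖Z 1‖

/-- The middle interval. -/
def MI (G : V L → ℝ) (t : ℝ) : Prop := Mid (vv G) (G ![0, 1]) (G ![1, 0]) t

/-- The middle annulus. -/
def An (G : V L → ℝ) (Z : V L) : Prop := Z 0 ≠ 0 ∧ Z 1 ≠ 0 ∧ MI G (rat Z)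

omit [IsAlgClosed L] in
lemma norm_eq_of_sub_lt {w z : L} (h : ‖w - z‖ < ‖z‖) : ‖w‖ = ‖z‖ := by
  have := IsUltrametricDist.norm_add_eq_max_of_norm_ne_norm h.ne
  rwa [sub_add_cancel, max_eq_right h.le] at this

omit [IsAlgClosed L] in
lemma norm_sub_eq_max {w z : L} (h : ‖w‖ ≠ ‖z‖) : ‖w - z‖ = max ‖w‖ ‖z‖ := by
  have := IsUltrametricDist.norm_add_eq_max_of_norm_ne_norm (x := w) (y := -z) (by rwa [norm_neg])
  rwa [norm_neg, ← sub_eq_add_neg] at this

omit [IsUltrametricDist L] [IsAlgClosed L] in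
lemma ne_cases {Z : V L} (hZ : Z ≠ 0) (h0 : Z 0 = 0) : Z 1 ≠ 0 := fun h1 =>
  hZ (funext fun i => by fin_cases i <;> assumption)

omit [IsUltrametricDist L] [IsAlgClosed L] in
lemma ne_cases' {Z : V L} (hZ : Z ≠ 0) (h1 : Z 1 = 0) : Z 0 ≠ 0 := fun h0 => ne_cases hZ h0 h1

omit [IsUltrametricDist L] [IsAlgClosed L] in
lemma e0_ne : (![1, 0] : V L) ≠ 0 := fun h => one_ne_zero (congrFun h 0)

omit [IsUltrametricDist L] [IsAlgClosed L] in
lemma rat_smul {c : L} (hc : c ≠ 0) {Z : V L} (h0 : Z 0 ≠ 0) (h1 : Z 1 ≠ 0) :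
    rat (c • Z) = rat Z := by
  simp only [rat, Pi.smul_apply, smul_eq_mul, norm_mul]
  rw [Real.log_mul (norm_ne_zero_iff.2 hc) (norm_ne_zero_iff.2 h0),
    Real.log_mul (norm_ne_zero_iff.2 hc) (norm_ne_zero_iff.2 h1)]
  ring

omit [IsUltrametricDist L] [IsAlgClosed L] in
lemma rat_aff (z : L) : rat ![z, 1] = Real.log ‖z‖ := by simp [rat]

omit [IsUltrametricDist L] [IsAlgClosed L] in
lemma an_smul {c : L} (hc : c ≠ 0) {Z : V L} : An G (c • Z) ↔ An G Z := by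
  constructor
  · rintro ⟨h0, h1, h2⟩
    have h0' : Z 0 ≠ 0 := fun h => h0 (by simp [h])
    have h1' : Z 1 ≠ 0 := fun h => h1 (by simp [h])
    exact ⟨h0', h1', by rwa [rat_smul hc h0' h1'] at h2⟩
  · rintro ⟨h0, h1, h2⟩
    exact ⟨by simp [hc, h0], by simp [hc, h1], by rwa [rat_smul hc h0 h1]⟩

omit [IsUltrametricDist L] [IsAlgClosed L] in
lemma An.ne {Z : V L} (h : An G Z) : Z ≠ 0 := fun h' => h.1 (by simp [h'])

namespace St

lemma lip (h : St d F G) (a : L) {r r' : ℝ} (h0 : 0 < r') (hr : r' < r) :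
    usup G a r - usup G a r' ≤ Real.log r - Real.log r' := by
  have := h.dyn.mass_le_one h.big (Finset.univ : Finset Unit) (fun _ => a) (fun _ => r)
    (fun _ => r') (fun _ _ => ⟨h0, hr⟩) (fun _ _ _ _ hij => absurd rfl hij)
  simp only [Finset.univ_unique, Finset.sum_singleton] at this
  rwa [div_le_one (sub_pos.2 (Real.log_lt_log h0 hr))] at this

lemma aff (h : St d F G) {z : L} (hz : z ≠ 0) : G ![z, 1] = vv G (Real.log ‖z‖) := by
  have hr := norm_pos_iff.2 hz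
  rw [vv, Real.exp_log hr]
  refine le_antisymm (h.dyn.le_usup (by simp)) (le_of_forall_pos_le_add fun ε hε => ?_)
  have h1 : ‖z‖ * Real.exp (-ε) < ‖z‖ :=
    mul_lt_of_lt_one_right hr (Real.exp_lt_one_iff.2 (by linarith))
  have h2 := h.lip z (by positivity) h1
  have h3 : usup G z (‖z‖ * Real.exp (-ε)) ≤ G ![z, 1] := usup_le (by positivity) fun w hw =>
    (h.ax ![w, 1] ![z, 1] (aff_ne_zero w)
      (norm_eq_of_sub_lt (w := w) (z := z) ((mem_closedBall_iff_norm.1 hw).trans_lt h1)) rfl).le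
  rw [Real.log_mul hr.ne' (Real.exp_pos _).ne', Real.log_exp] at h2
  rw [usup_congr (b := z) (by simp)]
  linarith

omit [IsUltrametricDist L] [IsAlgClosed L] in
lemma smul (h : St d F G) {t : L} (ht : t ≠ 0) {Z : V L} (hZ : Z ≠ 0) :
    G (t • Z) = G Z + Real.log ‖t‖ := h.dyn.esc.2.1 t Z ht hZ

lemma both (h : St d F G) {Z : V L} (h0 : Z 0 ≠ 0) (h1 : Z 1 ≠ 0) :
    G Z = vv G (rat Z) + Real.log ‖Z 1‖ := by
  conv_lhs => rw [exists_aff h1]
  rw [h.smul h1 (aff_ne_zero _), h.aff (div_ne_zero h0 h1), norm_div,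
    Real.log_div (norm_ne_zero_iff.2 h0) (norm_ne_zero_iff.2 h1), rat]

omit [IsUltrametricDist L] [IsAlgClosed L] in
lemma left (h : St d F G) {Z : V L} (h0 : Z 0 = 0) (h1 : Z 1 ≠ 0) :
    G Z = G ![0, 1] + Real.log ‖Z 1‖ := by
  conv_lhs => rw [exists_aff h1]
  rw [h.smul h1 (aff_ne_zero _), h0, zero_div]

omit [IsUltrametricDist L] [IsAlgClosed L] in
lemma right (h : St d F G) {Z : V L} (h0 : Z 0 ≠ 0) (h1 : Z 1 = 0) :
    G Z = G ![1, 0] + Real.log ‖Z 0‖ := by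
  have : Z = Z 0 • ![1, 0] := funext fun i => by fin_cases i <;> simp [h1]
  conv_lhs => rw [this]
  rw [h.smul h0 e0_ne]

lemma near_hi (h : St d F G) {ε : ℝ} (hε : 0 < ε) (t : ℝ) :
    ∃ s, t ≤ s ∧ |vv G s - s - G ![1, 0]| < ε := by
  have hc : ContinuousAt (fun y : L => G ![1, y]) 0 := by
    have h1 : Continuous fun y : L => (![1, y] : V L) := by fun_prop
    exact ContinuousAt.comp (f := fun y : L => (![1, y] : V L)) (h.dyn.continuousAt e0_ne)
      h1.continuousAt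
  obtain ⟨δ, hδ, hd⟩ := Metric.continuousAt_iff.1 hc ε hε
  obtain ⟨y, hy⟩ := h.big.full (Real.exp (-max t (1 - Real.log δ))) (Real.exp_pos _)
  have hy0 : y ≠ 0 := norm_pos_iff.1 (hy ▸ Real.exp_pos _)
  refine ⟨max t (1 - Real.log δ), le_max_left _ _, ?_⟩
  have h1 : dist y 0 < δ := by
    rw [dist_zero_right, hy, ← Real.lt_log_iff_exp_lt hδ]
    linarith [le_max_right t (1 - Real.log δ)]
  have h2 := hd h1
  rw [Real.dist_eq, h.both (Z := ![1, y]) (by simp) (by simpa using hy0)] at h2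
  simpa [rat, hy, sub_eq_add_neg] using h2

lemma prof (h : St d F G) : Prof (vv G) (G ![0, 1]) (G ![1, 0]) := by
  have hlip : ∀ a b, a ≤ b → vv G b - vv G a ≤ b - a := fun a b hab => by
    rcases hab.eq_or_lt with rfl | hab
    · simp
    · simpa [vv] using h.lip 0 (Real.exp_pos a) (Real.exp_lt_exp.2 hab)
  refine ⟨fun a b hab => h.dyn.usup_mono 0 (Real.exp_pos a).le (Real.exp_le_exp.2 hab), hlip,
    fun a b c hab hbc => ?_, fun t => h.dyn.le_usup (by simp [(Real.exp_pos t).le]),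
    fun t => ?_, fun ε hε => ?_, fun ε hε => ?_⟩
  · have := h.dyn.mass_le h.big (Finset.univ : Finset Unit) (fun _ => (0 : L))
      (fun _ => Real.exp b) (fun _ => Real.exp a)
      (fun _ _ => ⟨Real.exp_pos a, Real.exp_lt_exp.2 hab⟩) (fun _ _ _ _ hij => absurd rfl hij)
      (b := 0) (Real.exp_pos b) (Real.exp_lt_exp.2 hbc) (fun _ _ => subset_rfl)
    simp only [Finset.univ_unique, Finset.sum_singleton, Real.log_exp] at this
    rw [div_le_div_iff₀ (sub_pos.2 hab) (sub_pos.2 hbc)] at this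
    simp only [vv]
    linarith
  · refine le_of_forall_pos_le_add fun ε hε => ?_
    obtain ⟨s, hs, h1⟩ := h.near_hi hε t
    have := hlip t s hs
    linarith [(abs_lt.1 h1).1]
  · have := (h.dyn.tendsto_usup 0).eventually (gt_mem_nhds (lt_add_of_pos_right _ hε))
    obtain ⟨r, h1, h2⟩ := (this.and self_mem_nhdsWithin).exists
    exact ⟨Real.log r, by rwa [vv, Real.exp_log h2]⟩
  · obtain ⟨s, -, h1⟩ := h.near_hi hε 0
    exact ⟨s, by linarith [(abs_lt.1 h1).2]⟩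

/-- Strict monotonicity in the sizes of the coordinates over the middle annulus. -/
lemma rigid (h : St d F G) {Z W : V L} (hZ : Z ≠ 0) (hW0 : W 0 ≠ 0) (hW1 : W 1 ≠ 0)
    (h0 : ‖Z 0‖ ≤ ‖W 0‖) (h1 : ‖Z 1‖ ≤ ‖W 1‖) (he : G W ≤ G Z) (hA : An G Z ∨ An G W) :
    ‖Z 0‖ = ‖W 0‖ ∧ ‖Z 1‖ = ‖W 1‖ := by
  rw [h.both hW0 hW1] at he
  by_cases hz0 : Z 0 = 0
  · have hz1 := ne_cases hZ hz0
    have h2 := (hA.resolve_left fun h' => h'.1 hz0).2.2.1
    have h3 := Real.log_le_log (norm_pos_iff.2 hz1) h1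
    rw [h.left hz0 hz1] at he
    linarith
  by_cases hz1 : Z 1 = 0
  · have h2 := (hA.resolve_left fun h' => h'.2.1 hz1).2.2.2
    have h3 := Real.log_le_log (norm_pos_iff.2 hz0) h0
    rw [h.right hz0 hz1] at he
    rw [rat] at h2 he
    linarith
  rw [h.both hz0 hz1] at he
  obtain ⟨h2, h3⟩ := h.prof.rigid (Real.log_le_log (norm_pos_iff.2 hz0) h0)
    (Real.log_le_log (norm_pos_iff.2 hz1) h1) he (hA.imp (fun h' => h'.2.2) fun h' => h'.2.2)
  exact ⟨Real.log_injOn_pos (norm_pos_iff.2 hz0) (norm_pos_iff.2 hW0) h2,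
    Real.log_injOn_pos (norm_pos_iff.2 hz1) (norm_pos_iff.2 hW1) h3⟩

/-- Without a middle interval the reduction is good. -/
lemma dirac (h : St d F G) (hI : ∀ t, ¬ MI G t) : Dirac G := by
  obtain ⟨l, hl⟩ := h.big.full (Real.exp ((G ![0, 1] - G ![1, 0]) / 2)) (Real.exp_pos _)
  have hl0 : l ≠ 0 := norm_pos_iff.1 (hl ▸ Real.exp_pos _)
  have hll : Real.log ‖l‖ = (G ![0, 1] - G ![1, 0]) / 2 := by rw [hl, Real.log_exp]
  have hv : ∀ t, vv G t = max (G ![0, 1]) (t + G ![1, 0]) := fun t => by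
    refine le_antisymm ?_ (max_le (h.prof.lo t) (h.prof.hi t))
    by_contra hc
    push Not at hc
    exact hI t (max_lt_iff.1 hc)
  refine ⟨!![l, 0; 0, l⁻¹], (G ![0, 1] + G ![1, 0]) / 2, by simp [hl0], fun Z hZ => ?_⟩
  have e0 : Matrix.mulVec !![l, 0; 0, l⁻¹] Z 0 = l * Z 0 := by
    simp [Matrix.mulVec, dotProduct, Fin.sum_univ_two]
  have e1 : Matrix.mulVec !![l, 0; 0, l⁻¹] Z 1 = l⁻¹ * Z 1 := by
    simp [Matrix.mulVec, dotProduct, Fin.sum_univ_two]
  have n0 : Z 0 ≠ 0 → Real.log ‖l * Z 0‖ = (G ![0, 1] - G ![1, 0]) / 2 + Real.log ‖Z 0‖ :=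
    fun h0 => by
      rw [norm_mul, Real.log_mul (norm_ne_zero_iff.2 hl0) (norm_ne_zero_iff.2 h0), hll]
  have n1 : Z 1 ≠ 0 → Real.log ‖l⁻¹ * Z 1‖ = -((G ![0, 1] - G ![1, 0]) / 2) + Real.log ‖Z 1‖ :=
    fun h1 => by
      rw [norm_mul, Real.log_mul (norm_ne_zero_iff.2 (inv_ne_zero hl0)) (norm_ne_zero_iff.2 h1),
        norm_inv, Real.log_inv, hll]
  rw [norm_V]
  by_cases hz0 : Z 0 = 0
  · have hz1 := ne_cases hZ hz0
    rw [h.left (by rw [e0, hz0, mul_zero]) (by rw [e1]; simp [hl0, hz1]), e1, n1 hz1, hz0,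
      norm_zero, max_eq_right (norm_nonneg _)]
    ring
  by_cases hz1 : Z 1 = 0
  · rw [h.right (by rw [e0]; simp [hl0, hz0]) (by rw [e1, hz1, mul_zero]), e0, n0 hz0, hz1,
      norm_zero, max_eq_left (norm_nonneg _)]
    ring
  rw [h.both (by rw [e0]; simp [hl0, hz0]) (by rw [e1]; simp [hl0, hz1]), hv, rat, e0, e1, n0 hz0,
    n1 hz1]
  rcases le_total ‖Z 0‖ ‖Z 1‖ with hle | hle
  · have := Real.log_le_log (norm_pos_iff.2 hz0) hle
    rw [max_eq_right hle, max_eq_left (by linarith)]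
    ring
  · have := Real.log_le_log (norm_pos_iff.2 hz1) hle
    rw [max_eq_left hle, max_eq_right (by linarith)]
    ring

end St

end Pool.Agent.MP_3827f0_nt.H92.NAGapAux
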