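import Pool.Agent.MP_3827f0_nt.H92.Alg
import Pool.Agent.MP_3827f0_nt.H92.NAPoly

/-! Near similarities, forward maps and inverse branches on ultrametric discs. -/

set_option autoImplicit false
set_option linter.unusedSectionVars false
set_option linter.unusedVariables false

namespace Pool.Agent.MP_3827f0_nt.H92

open Metric

variable {L : Type} [NormedField L] [IsUltrametricDist L] {h k : L → L} {a α β : L} {r : ℝ}

namespace NAMapAux

lemma norm_add_le' {u v : L} {c : ℝ} (hu : ‖u‖ ≤ c) (hv : ‖v‖ ≤ c) : ‖u + v‖ ≤ c :=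
  (IsUltrametricDist.norm_add_le_max u v).trans (max_le hu hv)

lemma norm_sub_le' {u v : L} {c : ℝ} (hu : ‖u‖ ≤ c) (hv : ‖v‖ ≤ c) : ‖u - v‖ ≤ c := by
  rw [sub_eq_add_neg]
  exact norm_add_le' hu (by rwa [norm_neg])

lemma norm_add_eq_left {u v : L} (h : ‖v‖ < ‖u‖) : ‖u + v‖ = ‖u‖ := by
  rw [IsUltrametricDist.norm_add_eq_max_of_norm_ne_norm h.ne', max_eq_left h.le]

lemma norm_sub_eq_left {u v : L} (h : ‖v‖ < ‖u‖) : ‖u - v‖ = ‖u‖ := by
  rw [sub_eq_add_neg]
  exact norm_add_eq_left (by rwa [norm_neg])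

lemma ball_subset {x : L} {s : ℝ} (hx : x ∈ closedBall a r) (hs : s ≤ r) :
    closedBall x s ⊆ closedBall a r := by
  intro z hz
  rw [mem_closedBall] at *
  exact (IsUltrametricDist.dist_triangle_max z x a).trans (max_le (hz.trans hs) hx)

lemma exists_fixed [CompleteSpace L] {T : L → L} {x : L} {s θ : ℝ} (hs : 0 ≤ s) (hθ0 : 0 ≤ θ)
    (hθ : θ < 1) (hm : Set.MapsTo T (closedBall x s) (closedBall x s))
    (hl : ∀ y ∈ closedBall x s, ∀ z ∈ closedBall x s, ‖T y - T z‖ ≤ θ * ‖y - z‖) :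
    ∃ z ∈ closedBall x s, T z = z := by
  have hc : ContractingWith ⟨θ, hθ0⟩ (hm.restrict T _ _) := by
    refine ⟨hθ, LipschitzWith.of_dist_le_mul fun y z => ?_⟩
    have := hl y y.2 z z.2
    rw [Subtype.dist_eq, Subtype.dist_eq, dist_eq_norm, dist_eq_norm]
    exact this
  obtain ⟨z, hz, hfix, -⟩ := hc.exists_fixedPoint' isClosed_closedBall.isComplete hm
    (mem_closedBall_self hs) (edist_ne_top _ _)
  exact ⟨z, hz, hfix⟩

/-- An affine function without zero on a disc. -/
lemma affine_lt {p q : L} (hr : 0 ≤ r) (hp : ∀ z ∈ closedBall a r, q * z + p ≠ 0) :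
    ‖q‖ * r < ‖q * a + p‖ := by
  have h0 : q * a + p ≠ 0 := hp a (mem_closedBall_self hr)
  by_contra hlt
  rw [not_lt] at hlt
  have hq : q ≠ 0 := by
    rintro rfl
    rw [norm_zero, zero_mul r] at hlt
    exact h0 (norm_le_zero_iff.1 hlt)
  apply hp (a - (q * a + p) / q)
  · rw [mem_closedBall, dist_eq_norm, sub_sub_cancel_left, norm_neg, norm_div,
      div_le_iff₀ (norm_pos_iff.2 hq), mul_comm r]
    exact hlt
  · field_simp
    ring

end NAMapAux

open NAMapAux

lemma conf_id (a : L) (r : ℝ) : Conf (fun z => z) a r 1 :=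
  ⟨one_ne_zero, 0, le_rfl, zero_lt_one, fun x _ y _ => by simp⟩

lemma Conf.norm_sub (hc : Conf h a r α) {x y : L} (hx : x ∈ closedBall a r)
    (hy : y ∈ closedBall a r) : ‖h x - h y‖ = ‖α‖ * ‖x - y‖ := by
  obtain ⟨hα, θ, h0, h1, H⟩ := hc
  by_cases hxy : x = y
  · subst hxy
    simp
  have hpos : 0 < ‖α‖ * ‖x - y‖ :=
    mul_pos (norm_pos_iff.2 hα) (norm_pos_iff.2 (sub_ne_zero.2 hxy))
  have hlt : ‖h x - h y - α * (x - y)‖ < ‖α * (x - y)‖ := by
    rw [norm_mul]
    calc _ ≤ θ * ‖α‖ * ‖x - y‖ := H x hx y hy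
      _ = θ * (‖α‖ * ‖x - y‖) := by ring
      _ < 1 * (‖α‖ * ‖x - y‖) := mul_lt_mul_of_pos_right h1 hpos
      _ = _ := one_mul _
  have := norm_add_eq_left hlt
  rw [add_sub_cancel, norm_mul] at this
  exact this

lemma Conf.congr (hc : Conf h a r α) (e : ∀ z ∈ closedBall a r, k z = h z) : Conf k a r α := by
  obtain ⟨hα, θ, h0, h1, H⟩ := hc
  refine ⟨hα, θ, h0, h1, fun x hx y hy => ?_⟩
  rw [e x hx, e y hy]
  exact H x hx y hy

lemma Conf.mono (hc : Conf h a r α) {b : L} {s : ℝ} (hs : closedBall b s ⊆ closedBall a r) :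
    Conf h b s α := by
  obtain ⟨hα, θ, h0, h1, H⟩ := hc
  exact ⟨hα, θ, h0, h1, fun x hx y hy => H x (hs hx) y (hs hy)⟩

lemma Conf.image [CompleteSpace L] (hc : Conf h a r α) {x : L} (hx : x ∈ closedBall a r) {s : ℝ}
    (hs : s ≤ r) : h '' closedBall x s = closedBall (h x) (‖α‖ * s) := by
  have hα : 0 < ‖α‖ := norm_pos_iff.2 hc.1
  have hα0 : α ≠ 0 := hc.1
  rcases lt_or_ge s 0 with hs0 | hs0
  · rw [closedBall_eq_empty.2 hs0, closedBall_eq_empty.2 (mul_neg_of_pos_of_neg hα hs0),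
      Set.image_empty]
  have hsub := ball_subset hx hs
  have hn : ∀ z ∈ closedBall x s, ‖h z - h x‖ ≤ ‖α‖ * s := by
    intro z hz
    rw [hc.norm_sub (hsub hz) hx]
    exact mul_le_mul_of_nonneg_left (by rwa [mem_closedBall, dist_eq_norm] at hz) hα.le
  apply Set.Subset.antisymm
  · rintro _ ⟨z, hz, rfl⟩
    rw [mem_closedBall, dist_eq_norm]
    exact hn z hz
  · intro w hw
    rw [mem_closedBall, dist_eq_norm] at hw
    obtain ⟨-, θ, h0, h1, H⟩ := hc
    obtain ⟨z, hz, hfix⟩ := exists_fixed (T := fun z => z - (h z - w) / α) (x := x) hs0 h0 h1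
      (by
        intro z hz
        have hz' := hn z hz
        rw [mem_closedBall, dist_eq_norm] at hz ⊢
        have e : z - (h z - w) / α - x = (z - x) - ((h z - h x) - (w - h x)) / α := by ring
        rw [e]
        refine norm_sub_le' hz ?_
        rw [norm_div, div_le_iff₀ hα, mul_comm]
        exact norm_sub_le' hz' hw)
      (by
        intro y hy z hz
        have e : y - (h y - w) / α - (z - (h z - w) / α) = - ((h y - h z - α * (y - z)) / α) := by
          field_simp
          ring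
        rw [e, norm_neg, norm_div, div_le_iff₀ hα]
        calc _ ≤ θ * ‖α‖ * ‖y - z‖ := H y (hsub hy) z (hsub hz)
          _ = _ := by ring)
    refine ⟨z, hz, ?_⟩
    have e : (h z - w) / α = 0 := by
      have := hfix
      linear_combination -this
    rw [div_eq_zero_iff, or_iff_left hα0, sub_eq_zero] at e
    exact e

lemma Conf.comp (hc : Conf h a r α) (hr : 0 ≤ r) (hk : Conf k (h a) (‖α‖ * r) β) :
    Conf (fun z => k (h z)) a r (β * α) := by
  have hm : ∀ z ∈ closedBall a r, h z ∈ closedBall (h a) (‖α‖ * r) := by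
    intro z hz
    rw [mem_closedBall, dist_eq_norm, hc.norm_sub hz (mem_closedBall_self hr)]
    exact mul_le_mul_of_nonneg_left (by rwa [mem_closedBall, dist_eq_norm] at hz) (norm_nonneg _)
  have hn := fun x hx y hy => hc.norm_sub (x := x) (y := y) hx hy
  obtain ⟨hα, θ, h0, h1, H⟩ := hc
  obtain ⟨hβ, η, k0, k1, K⟩ := hk
  refine ⟨mul_ne_zero hβ hα, max θ η, le_max_of_le_left h0, max_lt h1 k1, fun x hx y hy => ?_⟩
  have e : k (h x) - k (h y) - β * α * (x - y) =
      (k (h x) - k (h y) - β * (h x - h y)) + β * (h x - h y - α * (x - y)) := by ring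
  have hp : 0 ≤ ‖β‖ * ‖α‖ * ‖x - y‖ := by positivity
  show ‖k (h x) - k (h y) - β * α * (x - y)‖ ≤ _
  rw [e]
  refine norm_add_le' ?_ ?_
  · calc _ ≤ η * ‖β‖ * ‖h x - h y‖ := K _ (hm x hx) _ (hm y hy)
      _ = η * (‖β‖ * ‖α‖ * ‖x - y‖) := by rw [hn x hx y hy]; ring
      _ ≤ max θ η * (‖β‖ * ‖α‖ * ‖x - y‖) := mul_le_mul_of_nonneg_right (le_max_right _ _) hp
      _ = _ := by rw [norm_mul]; ring
  · rw [norm_mul]
    calc _ ≤ ‖β‖ * (θ * ‖α‖ * ‖x - y‖) :=
          mul_le_mul_of_nonneg_left (H x hx y hy) (norm_nonneg _)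
      _ = θ * (‖β‖ * ‖α‖ * ‖x - y‖) := by ring
      _ ≤ max θ η * (‖β‖ * ‖α‖ * ‖x - y‖) := mul_le_mul_of_nonneg_right (le_max_left _ _) hp
      _ = _ := by rw [norm_mul]; ring

lemma Conf.inv [CompleteSpace L] (hc : Conf h a r α) (hr : 0 ≤ r) :
    ∃ k : L → L, Conf k (h a) (‖α‖ * r) α⁻¹ ∧ (∀ z ∈ closedBall a r, k (h z) = z) ∧
      ∀ w ∈ closedBall (h a) (‖α‖ * r), k w ∈ closedBall a r ∧ h (k w) = w := by
  have hα : 0 < ‖α‖ := norm_pos_iff.2 hc.1
  have hα0 : α ≠ 0 := hc.1
  have him := hc.image (mem_closedBall_self hr) le_rfl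
  have hinj : Set.InjOn h (closedBall a r) := by
    intro x hx y hy hxy
    have := hc.norm_sub hx hy
    rw [hxy, sub_self, norm_zero, eq_comm, mul_eq_zero, or_iff_right hα.ne', norm_eq_zero,
      sub_eq_zero] at this
    exact this
  have h3 : ∀ w ∈ closedBall (h a) (‖α‖ * r), Function.invFunOn h (closedBall a r) w ∈
      closedBall a r ∧ h (Function.invFunOn h (closedBall a r) w) = w := by
    intro w hw
    rw [← him] at hw
    exact Function.invFunOn_pos hw
  refine ⟨Function.invFunOn h (closedBall a r), ?_, fun z hz => hinj.leftInvOn_invFunOn hz, h3⟩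
  have hn := fun x hx y hy => hc.norm_sub (x := x) (y := y) hx hy
  obtain ⟨-, θ, h0, h1, H⟩ := hc
  refine ⟨inv_ne_zero hα0, θ, h0, h1, fun w hw w' hw' => ?_⟩
  obtain ⟨hx, ex⟩ := h3 w hw
  obtain ⟨hy, ey⟩ := h3 w' hw'
  generalize Function.invFunOn h (closedBall a r) w = x at *
  generalize Function.invFunOn h (closedBall a r) w' = y at *
  subst ex ey
  have e : x - y - α⁻¹ * (h x - h y) = - (α⁻¹ * (h x - h y - α * (x - y))) := by
    field_simp
    ring
  rw [e, norm_neg, norm_mul, hn x hx y hy]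
  calc _ ≤ ‖α⁻¹‖ * (θ * ‖α‖ * ‖x - y‖) := mul_le_mul_of_nonneg_left (H x hx y hy) (norm_nonneg _)
    _ = _ := by ring

lemma Conf.fixed [CompleteSpace L] (hc : Conf h a r α) (hr : 0 ≤ r) (hα : ‖α‖ < 1)
    (ha : h a ∈ closedBall a r) : ∃ x ∈ closedBall a r, h x = x := by
  refine exists_fixed hr (norm_nonneg α) hα ?_ fun y hy z hz => (hc.norm_sub hy hz).le
  intro z hz
  have h1 := hc.norm_sub hz (mem_closedBall_self hr)
  rw [mem_closedBall, dist_eq_norm] at *
  have e : h z - a = (h z - h a) + (h a - a) := by ring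
  rw [e]
  refine norm_add_le' ?_ ha
  rw [h1]
  calc _ ≤ 1 * r := mul_le_mul hα.le hz (norm_nonneg _) zero_le_one
    _ = r := one_mul r

/-- The image of a disc under a Moebius map without pole on it is a disc. -/
lemma mobius_disc (hL : Big L) {M : Mat L} (hM : M.det ≠ 0) (hr : 0 < r)
    (hp : ∀ z ∈ closedBall a r, M.mulVec ![z, 1] 1 ≠ 0) :
    ∃ (g : L → L) (s : ℝ), 0 < s ∧ g '' closedBall a r = closedBall (g a) s ∧
      Over M.mulVec (fun z => z) g a r := by
  have hv : ∀ z : L, M.mulVec ![z, 1] = ![M 0 0 * z + M 0 1, M 1 0 * z + M 1 1] := by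
    intro z
    ext i
    fin_cases i <;> simp [Matrix.mulVec, dotProduct, Fin.sum_univ_two]
  have hp' : ∀ z ∈ closedBall a r, M 1 0 * z + M 1 1 ≠ 0 := by
    intro z hz
    have := hp z hz
    rw [hv] at this
    simpa using this
  rw [Matrix.det_fin_two] at hM
  generalize M 0 0 = A at *
  generalize M 0 1 = B at *
  generalize M 1 0 = C at *
  generalize M 1 1 = D at *
  have hlt := affine_lt hr.le hp'
  have hq : C * a + D ≠ 0 := hp' a (mem_closedBall_self hr.le)
  have hq' : 0 < ‖C * a + D‖ := norm_pos_iff.2 hq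
  have hδ : 0 < ‖A * D - B * C‖ := norm_pos_iff.2 hM
  have hcon : ∀ z ∈ closedBall a r, ‖C * z + D‖ = ‖C * a + D‖ := by
    intro z hz
    rw [mem_closedBall, dist_eq_norm] at hz
    have e : C * z + D = (C * a + D) + C * (z - a) := by ring
    rw [e]
    apply norm_add_eq_left
    rw [norm_mul]
    exact (mul_le_mul_of_nonneg_left hz (norm_nonneg _)).trans_lt hlt
  refine ⟨fun z => (A * z + B) / (C * z + D), ‖A * D - B * C‖ * r / ‖C * a + D‖ ^ 2,
    by positivity, ?_, ‖C * a + D‖, hq', fun z hz => ⟨C * z + D, hcon z hz, ?_⟩⟩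
  · apply Set.Subset.antisymm
    · rintro _ ⟨z, hz, rfl⟩
      have h1 := hp' z hz
      have h2 := hcon z hz
      rw [mem_closedBall, dist_eq_norm] at hz ⊢
      have e : (A * z + B) / (C * z + D) - (A * a + B) / (C * a + D) =
          (A * D - B * C) * (z - a) / ((C * z + D) * (C * a + D)) := by
        rw [div_sub_div _ _ h1 hq]
        refine congrArg (· / _) ?_
        ring
      rw [e, norm_div, norm_mul, norm_mul, h2, ← sq]
      gcongr
    · intro w hw
      rw [mem_closedBall, dist_eq_norm] at hw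
      obtain ⟨u, hu⟩ : ∃ u, u = w - (A * a + B) / (C * a + D) := ⟨_, rfl⟩
      rw [← hu] at hw
      have hsm : ‖u * C * (C * a + D)‖ < ‖A * D - B * C‖ := by
        rw [norm_mul, norm_mul]
        calc _ ≤ ‖A * D - B * C‖ * r / ‖C * a + D‖ ^ 2 * ‖C‖ * ‖C * a + D‖ := by gcongr
          _ = ‖A * D - B * C‖ * (‖C‖ * r / ‖C * a + D‖) := by field_simp
          _ < ‖A * D - B * C‖ * 1 := by
            apply mul_lt_mul_of_pos_left _ hδ
            rwa [div_lt_one hq']
          _ = _ := mul_one _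
      have hden := norm_sub_eq_left hsm
      have hden0 : A * D - B * C - u * C * (C * a + D) ≠ 0 := by
        rw [← norm_pos_iff, hden]
        exact hδ
      obtain ⟨t, ht⟩ : ∃ t, t = u * (C * a + D) ^ 2 / (A * D - B * C - u * C * (C * a + D)) :=
        ⟨_, rfl⟩
      have hmem : a + t ∈ closedBall a r := by
        rw [mem_closedBall, dist_eq_norm, add_sub_cancel_left, ht, norm_div, hden, norm_mul,
          norm_pow, div_le_iff₀ hδ]
        rw [le_div_iff₀ (by positivity)] at hw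
        linarith
      refine ⟨a + t, hmem, ?_⟩
      have h1 := hp' _ hmem
      have ht' : t * (A * D - B * C - u * C * (C * a + D)) = u * (C * a + D) ^ 2 := by
        rw [ht, div_mul_cancel₀ _ hden0]
      have hw' : w * (C * a + D) = u * (C * a + D) + (A * a + B) := by
        rw [hu]
        field_simp
        ring
      show (A * (a + t) + B) / (C * (a + t) + D) = w
      rw [div_eq_iff h1]
      apply mul_right_cancel₀ hq
      linear_combination ht' - (C * (a + t) + D) * hw'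
  · have h1 := hp' z hz
    rw [hv]
    ext i
    fin_cases i
    · simp only [Fin.zero_eta, Matrix.cons_val_zero, Pi.smul_apply, smul_eq_mul]
      rw [mul_div_cancel₀ _ h1]
    · simp

variable [IsAlgClosed L] [CharZero L] {d : ℕ} {F : PM L}

namespace NAMapAux

omit [IsUltrametricDist L] [IsAlgClosed L] [CharZero L] in
lemma app_aff (F : PM L) (z : L) :
    app F ![z, 1] = ![(deh (F 0)).eval z, (deh (F 1)).eval z] := by
  ext i
  fin_cases i <;> simp [app, eval_deh]

omit [IsUltrametricDist L] [IsAlgClosed L] [CharZero L] in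
lemma app_aff_smul (F : PM L) {z : L} (hz : (deh (F 1)).eval z ≠ 0) :
    app F ![z, 1] = (deh (F 1)).eval z • ![(deh (F 0)).eval z / (deh (F 1)).eval z, 1] := by
  rw [app_aff]
  ext i
  fin_cases i
  · simp only [Fin.zero_eta, Matrix.cons_val_zero, Pi.smul_apply, smul_eq_mul]
    field_simp
  · simp

omit [IsUltrametricDist L] [IsAlgClosed L] [CharZero L] in
lemma wedge_app_aff (F : PM L) (z w : L) :
    wedge (app F ![z, 1]) ![w, 1] = (deh (F 0)).eval z - w * (deh (F 1)).eval z := by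
  rw [app_aff]
  simp only [wedge, Matrix.cons_val_zero, Matrix.cons_val_one]
  ring

end NAMapAux

/-- Forward map on a disc without poles and critical points. -/
theorem exists_forward (hL : Big L) (hd : 0 < d) (hF : Hom d F) (hr : 0 < r)
    (hj : ∀ z ∈ closedBall a r, jac F ![z, 1] ≠ 0 ∧ app F ![z, 1] 1 ≠ 0) :
    ∃ (g : L → L) (α : L), Conf g a r α ∧ Over (app F) (fun z => z) g a r := by
  have hQ : ∀ z ∈ closedBall a r, (deh (F 1)).eval z ≠ 0 := by
    intro z hz
    have := (hj z hz).2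
    rw [app_aff] at this
    simpa using this
  have hW : ∀ z ∈ closedBall a r, (wr (deh (F 0)) (deh (F 1))).eval z ≠ 0 := by
    intro z hz h0
    apply (hj z hz).1
    rw [jac_aff hF, h0, mul_zero]
  obtain ⟨⟨α, hc⟩, hn⟩ := conf_of_wr hL hr hQ hW
  refine ⟨_, α, hc, ‖(deh (F 1)).eval a‖, norm_pos_iff.2 (hQ a (mem_closedBall_self hr.le)),
    fun z hz => ⟨_, hn z hz, app_aff_smul F (hQ z hz)⟩⟩

/-- All inverse branches on a disc without critical values and without the image of infinity. -/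
theorem exists_branches [CompleteSpace L] (hL : Big L) (hd : 0 < d) (hF : Hom d F)
    (hN : Nondeg F) (hr : 0 < r)
    (hV : ∀ Z, (Crit F Z ∨ Z = ![1, 0]) → ∀ w ∈ closedBall a r, wedge (app F Z) ![w, 1] ≠ 0) :
    ∃ (k : Fin d → L → L) (α : Fin d → L), (∀ j, Conf (k j) a r (α j)) ∧
      (∀ j, Over (app F) (k j) (fun z => z) a r) ∧
      (∀ i j, i ≠ j → ∀ w ∈ closedBall a r, ∀ w' ∈ closedBall a r, k i w ≠ k j w') ∧
      ∀ Z, Z ≠ 0 → ∀ w ∈ closedBall a r, wedge (app F Z) ![w, 1] = 0 →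
        ∃ j, wedge Z ![k j w, 1] = 0 := by
  classical
  obtain ⟨π, hπ⟩ := hL.full r hr
  have hπ0 : π ≠ 0 := by
    rw [← norm_pos_iff, hπ]
    exact hr
  obtain ⟨P, hP⟩ : ∃ P, P = deh (F 0) := ⟨_, rfl⟩
  obtain ⟨Q, hQ⟩ : ∃ Q, Q = deh (F 1) := ⟨_, rfl⟩
  have hPd : P.natDegree ≤ d := hP ▸ natDegree_deh_le (hF 0)
  have hQd : Q.natDegree ≤ d := hQ ▸ natDegree_deh_le (hF 1)
  have hwa : ∀ z w : L, wedge (app F ![z, 1]) ![w, 1] = P.eval z - w * Q.eval z := by
    intro z w
    rw [hP, hQ]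
    exact wedge_app_aff F z w
  have htop : ∀ w ∈ closedBall a r, (- Q.coeff d) * w + P.coeff d ≠ 0 := by
    intro w hw h0
    apply hV _ (Or.inr rfl) w hw
    rw [hP, hQ, coeff_deh_top (hF 0), coeff_deh_top (hF 1)] at h0
    simp only [wedge, app, Matrix.cons_val_zero, Matrix.cons_val_one]
    linear_combination h0
  have hlt := affine_lt hr.le htop
  rw [norm_neg] at hlt
  obtain ⟨R, hR⟩ : ∃ R, R = Polynomial.C π⁻¹ * (P - Polynomial.C a * Q) := ⟨_, rfl⟩
  have hRe : ∀ z, R.eval z = π⁻¹ * (P.eval z - a * Q.eval z) := by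
    intro z
    simp [hR]
  have hRc : R.coeff d = π⁻¹ * (- Q.coeff d * a + P.coeff d) := by
    rw [hR, Polynomial.coeff_C_mul, Polynomial.coeff_sub, Polynomial.coeff_C_mul]
    ring
  have hdeg : ∀ w : L, (P - Polynomial.C w * Q).natDegree ≤ d := fun w =>
    (Polynomial.natDegree_sub_le _ _).trans
      (max_le hPd ((Polynomial.natDegree_C_mul_le _ _).trans hQd))
  have hRd : R.natDegree = d := by
    apply Polynomial.natDegree_eq_of_le_of_coeff_ne_zero
    · rw [hR]
      exact (Polynomial.natDegree_C_mul_le _ _).trans (hdeg a)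
    · rw [hRc]
      exact mul_ne_zero (inv_ne_zero hπ0) (htop a (mem_closedBall_self hr.le))
  have hRtop : ‖Q.coeff d‖ < ‖R.coeff d‖ := by
    rw [hRc, norm_mul, norm_inv, hπ, inv_mul_eq_div, lt_div_iff₀ hr]
    exact hlt
  have hco : ∀ z, R.eval z = 0 → Q.eval z ≠ 0 := by
    intro z h1 h2
    rw [hRe, h2, mul_zero, sub_zero, mul_eq_zero, or_iff_right (inv_ne_zero hπ0)] at h1
    apply aff_ne_zero z
    apply hN
    rw [app_aff, ← hP, ← hQ, h1, h2]
    ext i
    fin_cases i <;> simp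
  have hmem : ∀ z, Q.eval z ≠ 0 → ‖R.eval z‖ ≤ ‖Q.eval z‖ →
      P.eval z / Q.eval z ∈ closedBall a r := by
    intro z h1 h2
    have e : P.eval z / Q.eval z - a = π * R.eval z / Q.eval z := by
      rw [hRe]
      field_simp
    rw [mem_closedBall, dist_eq_norm, e, norm_div, norm_mul, hπ,
      div_le_iff₀ (norm_pos_iff.2 h1)]
    exact mul_le_mul_of_nonneg_left h2 hr.le
  have hwr : ∀ z, ‖R.eval z‖ ≤ ‖Q.eval z‖ → (wr P Q).eval z ≠ 0 := by
    intro z h2 h0
    have h1 : Q.eval z ≠ 0 := by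
      intro h1
      refine hco z ?_ h1
      rw [h1, norm_zero] at h2
      exact norm_le_zero_iff.1 h2
    apply hV ![z, 1] (Or.inl ⟨aff_ne_zero z, ?_⟩) _ (hmem z h1 h2)
    · rw [hwa]
      field_simp
      ring
    · rw [jac_aff hF, ← hP, ← hQ, h0, mul_zero]
  have hwR : ∀ z, (wr R Q).eval z = π⁻¹ * (wr P Q).eval z := by
    intro z
    simp only [hR, wr, Polynomial.derivative_mul, Polynomial.derivative_sub,
      Polynomial.derivative_C, Polynomial.eval_sub, Polynomial.eval_mul, Polynomial.eval_add,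
      Polynomial.eval_C, Polynomial.eval_zero]
    ring
  obtain ⟨N, c, ρ, hρ, hdis, hcard, hin, honto⟩ := exists_discs hL hRd hQd hRtop hco
  have hz : ((wr R Q).roots.filter fun z => ‖R.eval z‖ ≤ ‖Q.eval z‖).card = 0 := by
    rw [Multiset.card_eq_zero, Multiset.filter_eq_nil]
    intro z hz h2
    have := (Polynomial.mem_roots'.1 hz).2
    rw [Polynomial.IsRoot.def, hwR, mul_eq_zero, or_iff_right (inv_ne_zero hπ0)] at this
    exact hwr z h2 this
  have hdN : d ≤ N := by
    have h1 := hcard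
    have h2 := hz
    omega
  have key : ∀ j : Fin N, ∃ (k : L → L) (α : L), Conf k a r α ∧
      Over (app F) k (fun z => z) a r ∧ ∀ w ∈ closedBall a r,
        k w ∈ closedBall (c j) (ρ j) ∧ P.eval (k w) - w * Q.eval (k w) = 0 := by
    intro j
    obtain ⟨⟨α, hc⟩, hn⟩ := conf_of_wr hL (P := P) (hρ j) (fun z hz => (hin j z hz).1)
      (fun z hz => hwr z (hin j z hz).2)
    obtain ⟨k, hk, -, hk2⟩ := hc.inv (hρ j).le
    have him := hc.image (mem_closedBall_self (hρ j).le) le_rfl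
    have hsub : closedBall a r ⊆ closedBall (P.eval (c j) / Q.eval (c j)) (‖α‖ * ρ j) := by
      intro w hw
      rw [← him]
      obtain ⟨z, hz, e⟩ := honto j (π⁻¹ * (w - a)) (by
        rw [mem_closedBall, dist_eq_norm] at hw
        rw [norm_mul, norm_inv, hπ, inv_mul_eq_div, div_le_one hr]
        exact hw)
      refine ⟨z, hz, ?_⟩
      rw [hRe, mul_assoc] at e
      have e' := mul_left_cancel₀ (inv_ne_zero hπ0) e
      show P.eval z / Q.eval z = w
      rw [div_eq_iff (hin j z hz).1]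
      linear_combination e'
    refine ⟨k, α⁻¹, hk.mono hsub, ⟨‖Q.eval (c j)‖,
      norm_pos_iff.2 (hin j _ (mem_closedBall_self (hρ j).le)).1, fun w hw => ?_⟩,
      fun w hw => ?_⟩
    · obtain ⟨h1, h2⟩ := hk2 w (hsub hw)
      refine ⟨Q.eval (k w), hn _ h1, ?_⟩
      have h3 := (hin j _ h1).1
      have h4 : P.eval (k w) / Q.eval (k w) = w := h2
      rw [hQ] at h3
      rw [app_aff_smul F h3, ← hP, ← hQ, h4]
    · obtain ⟨h1, h2⟩ := hk2 w (hsub hw)
      refine ⟨h1, ?_⟩
      have h4 : P.eval (k w) / Q.eval (k w) = w := h2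
      rw [div_eq_iff (hin j _ h1).1] at h4
      rw [h4, sub_self]
  choose k α hk1 hk2 hk3 using key
  have hne : ∀ i j : Fin d, i ≠ j → ∀ w ∈ closedBall a r, ∀ w' ∈ closedBall a r,
      k (Fin.castLE hdN i) w ≠ k (Fin.castLE hdN j) w' := by
    intro i j hij w hw w' hw' e
    have hd' := hdis _ _ fun e => hij (Fin.castLE_injective hdN e)
    exact Set.disjoint_left.1 hd' (hk3 _ w hw).1 (e ▸ (hk3 _ w' hw').1)
  refine ⟨fun j => k (Fin.castLE hdN j), fun j => α (Fin.castLE hdN j), fun j => hk1 _,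
    fun j => hk2 _, hne, fun Z hZ w hw h0 => ?_⟩
  by_cases hZ1 : Z 1 = 0
  · exfalso
    have e : Z = Z 0 • ![1, 0] := by
      ext i
      fin_cases i <;> simp [hZ1]
    have hZ0 : Z 0 ≠ 0 := by
      intro h
      apply hZ
      rw [e, h, zero_smul]
    rw [e, hF.app_smul, wedge_smul_left, mul_eq_zero, or_iff_right (pow_ne_zero _ hZ0)] at h0
    exact hV _ (Or.inr rfl) w hw h0
  have e := exists_aff hZ1
  obtain ⟨z, hzz⟩ : ∃ z, z = Z 0 / Z 1 := ⟨_, rfl⟩
  rw [← hzz] at e
  rw [e, hF.app_smul, wedge_smul_left, mul_eq_zero, or_iff_right (pow_ne_zero _ hZ1), hwa] at h0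
  by_contra hcon
  have hnot : z ∉ Finset.univ.image fun j : Fin d => k (Fin.castLE hdN j) w := by
    intro hmem
    obtain ⟨j, -, hj⟩ := Finset.mem_image.1 hmem
    apply hcon
    refine ⟨j, ?_⟩
    rw [e, wedge_smul_left, wedge_aff, ← hj, sub_self, mul_zero]
  have hinj : Function.Injective fun j : Fin d => k (Fin.castLE hdN j) w := by
    intro i j hij
    by_contra h
    exact hne i j h w hw w hw hij
  have hzero : P - Polynomial.C w * Q = 0 := by
    apply Polynomial.eq_zero_of_natDegree_lt_card_of_eval_eq_zero' _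
      (insert z (Finset.univ.image fun j : Fin d => k (Fin.castLE hdN j) w))
    · intro y hy
      rw [Polynomial.eval_sub, Polynomial.eval_mul, Polynomial.eval_C]
      rcases Finset.mem_insert.1 hy with rfl | hy
      · exact h0
      · obtain ⟨j, -, rfl⟩ := Finset.mem_image.1 hy
        exact (hk3 _ w hw).2
    · rw [Finset.card_insert_of_notMem hnot, Finset.card_image_of_injective _ hinj,
        Finset.card_univ, Fintype.card_fin]
      exact Nat.lt_succ_of_le (hdeg w)
  apply htop w hw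
  have := congrArg (fun p => Polynomial.coeff p d) hzero
  simp only [Polynomial.coeff_sub, Polynomial.coeff_C_mul, Polynomial.coeff_zero] at this
  linear_combination this

end Pool.Agent.MP_3827f0_nt.H92
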