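import Pool.Agent.MP_3827f0_nt.H92.NARelC

/-! Spread mass forces a relation. -/

set_option autoImplicit false

namespace Pool.Agent.MP_3827f0_nt.H92

open Metric NARelAux

variable {L : Type} [NormedField L] [IsUltrametricDist L] [IsAlgClosed L] [CharZero L]
  [CompleteSpace L] {d : ℕ} {F F' : PM L} {G : V L → ℝ}

/-- An infinite set of points all of whose neighbourhoods have mass, in a disc with many
inverse branches. -/
theorem exists_core (hL : Big L) (h : Dyn d F G) (hS : Spread G) :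
    ∃ (a : L) (r : ℝ) (x₀ x₁ : L) (A : Set L), 0 < r ∧ x₀ ≠ x₁ ∧ x₀ ∈ A ∧ x₁ ∈ A ∧ A.Infinite ∧
      x₀ ∈ closedBall a r ∧ x₁ ∈ closedBall a r ∧ A ⊆ closedBall x₀ ‖x₀ - x₁‖ ∧
      (∀ x ∈ A, ∀ s, 0 < s → ∃ s', 0 < s' ∧ s' < s ∧ usup G x s' < usup G x s) ∧
      ∀ n : ℕ, ∃ (B : Finset L) (k : L → L → L) (α : L → L), d ^ n ≤ 2 * B.card ∧
        (∀ x ∈ B, Conf (k x) a r (α x) ∧ Over (app F)^[n] (k x) (fun z => z) a r) ∧
        ∀ x ∈ B, ∀ y ∈ B, x ≠ y → ∀ w ∈ closedBall a r, ∀ w' ∈ closedBall a r,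
          k x w ≠ k y w' := by
  classical
  have hd2 := h.two
  obtain ⟨T, hT⟩ := exists_av hd2 h.hom h.nondeg (8 * d)
  obtain ⟨a₀, r, hr0, ⟨x, hx, y, hy, hxy⟩, hoff⟩ := hS T
  obtain ⟨a, ha, r', hr', hr, hu⟩ := h.exists_slope hr0 hx hy hxy
  have hA : Av F (8 * d) a r := hT a r fun w hw hwT => hoff w hwT (sub_disc ha le_rfl hw)
  have hM : 8 * d ≤ d ^ (8 * d) := (Nat.lt_pow_self (by omega)).le
  have hfam : ∀ n, ∃ (ι : Type) (B : Finset ι) (k : ι → L → L) (α : ι → L), Fam F n a r B k α ∧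
      d ^ n ≤ 2 * B.card := by
    intro n
    obtain ⟨ι, B, k, α, hB, h1, h2⟩ := exists_fam hL hd2 h.hom h.nondeg hr0 hM hA n
    refine ⟨ι, B, k, α, hB, ?_⟩
    rcases le_total n (8 * d) with hn | hn
    · have := h1 hn
      omega
    · have := h2 hn
      omega
  obtain ⟨x₀, x₁, A, a1, a2, a3, a4, a5, a6, a7, a8⟩ := exists_core_set hL h hr' hr hu hfam
  refine ⟨a, r, x₀, x₁, A, hr0, a1, a2, a3, a4, a5, a6, a7, a8, fun n => ?_⟩
  obtain ⟨ι, B, k, α, hB, hc⟩ := hfam n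
  have haa : a ∈ closedBall a r := mem_closedBall_self hr0.le
  have hinj : Set.InjOn (fun i => k i a) B := by
    intro i hi j hj e
    by_contra hne
    exact hB.2 i hi j hj hne a haa a haa e
  have H : ∀ y : L, ∃ (g : L → L) (β : L), y ∈ B.image (fun i => k i a) →
      ∃ i ∈ B, k i a = y ∧ g = k i ∧ β = α i := by
    intro y
    by_cases hy : y ∈ B.image fun i => k i a
    · obtain ⟨i, hi, e⟩ := Finset.mem_image.1 hy
      exact ⟨k i, α i, fun _ => ⟨i, hi, e, rfl, rfl⟩⟩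
    · exact ⟨fun z => z, 1, fun h => absurd h hy⟩
  choose g β hg using H
  refine ⟨B.image fun i => k i a, g, β, by rwa [Finset.card_image_of_injOn hinj], ?_, ?_⟩
  · intro y hy
    obtain ⟨i, hi, -, e1, e2⟩ := hg y hy
    rw [e1, e2]
    exact hB.1 i hi
  · intro y hy y' hy' hne w hw w' hw'
    obtain ⟨i, hi, e0, e1, -⟩ := hg y hy
    obtain ⟨j, hj, e0', e1', -⟩ := hg y' hy'
    rw [e1, e1']
    refine hB.2 i hi j hj ?_ w hw w' hw'
    rintro rfl
    exact hne (e0.symm.trans e0')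

/-- Near similarities that scale G by a fixed factor agree on the core. -/
theorem exists_agree (hL : Big L) (h : Dyn d F G) {a x₀ x₁ : L} {r κ : ℝ} {A : Set L}
    (hne : x₀ ≠ x₁) (h0 : x₀ ∈ A) (h1 : x₁ ∈ A) (hx0 : x₀ ∈ closedBall a r)
    (hx1 : x₁ ∈ closedBall a r) (hA : A ⊆ closedBall x₀ ‖x₀ - x₁‖)
    (hpos : ∀ x ∈ A, ∀ s, 0 < s → ∃ s', 0 < s' ∧ s' < s ∧ usup G x s' < usup G x s)
    (hκ : 0 < κ) (σ : ℕ → L → L) (α : ℕ → L) (hσ : ∀ n, Conf (σ n) a r (α n))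
    (hG : ∀ n, ∃ c, ∀ z ∈ closedBall a r, G ![σ n z, 1] = κ * G ![z, 1] + c) :
    ∃ n n', n < n' ∧ ∀ x ∈ A, σ n x = σ n' x := by
  have hs : 0 < ‖x₀ - x₁‖ := norm_pos_iff.2 (sub_ne_zero.2 hne)
  have hx1U : x₁ ∈ closedBall x₀ ‖x₀ - x₁‖ := hA h1
  have hsr : ‖x₀ - x₁‖ ≤ r := by
    have : x₁ ∈ closedBall x₀ r := sub_disc (a := x₀) (x := a) (by
      rw [mem_closedBall, dist_comm]; exact hx0) le_rfl hx1
    rwa [mem_closedBall, dist_comm, dist_eq_norm] at this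
  obtain ⟨s, hsdef⟩ : ∃ s, s = ‖x₀ - x₁‖ := ⟨_, rfl⟩
  rw [← hsdef] at hs hx1U hsr hA
  have hα : ∀ n, 0 < ‖α n‖ := fun n => norm_pos_iff.2 (hσ n).1
  have hram : ∀ x ∈ A, x ∈ closedBall a r → ∀ S : Set ℕ, S.Infinite → ∃ S' ⊆ S, S'.Infinite ∧
      ∀ i ∈ S', {j | j ∈ S' ∧ Disjoint (closedBall (σ i x) (‖α i‖ * (s / 2)))
        (closedBall (σ j x) (‖α j‖ * (s / 2)))}.Finite := by
    intro x hx hxa S hS
    obtain ⟨s', hs', hlt, hu⟩ := hpos x hx (s / 2) (half_pos hs)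
    refine ramsey (fun i j => Disjoint (closedBall (σ i x) (‖α i‖ * (s / 2)))
      (closedBall (σ j x) (‖α j‖ * (s / 2)))) (fun i j hij => hij.symm) (fun i hi => ?_)
      ⌊(κ * slp G x (s / 2) s')⁻¹⌋₊ S hS fun t _ ht => ?_
    · have hm : σ i x ∈ closedBall (σ i x) (‖α i‖ * (s / 2)) :=
        mem_closedBall_self (mul_pos (hα i) (half_pos hs)).le
      exact Set.disjoint_left.1 hi hm hm
    · refine card_le_of_slp hL h (mul_pos hκ (slp_pos hs' hlt hu)) t (fun i => σ i x)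
        (fun i => ‖α i‖ * (s / 2)) (fun i => ‖α i‖ * s')
        (fun i _ => ⟨mul_pos (hα i) hs', mul_lt_mul_of_pos_left hlt (hα i)⟩) ht fun i _ => ?_
      obtain ⟨c, hc⟩ := hG i
      exact slp_conf h (hσ i) hκ hc hxa hs' hlt (by linarith)
  obtain ⟨S₀, -, hS₀, f₀⟩ := hram x₀ h0 hx0 Set.univ Set.infinite_univ
  obtain ⟨S₁, hsub, hS₁, f₁⟩ := hram x₁ h1 hx1 S₀ hS₀
  obtain ⟨n, hn⟩ := hS₁.nonempty
  obtain ⟨n', hn', hnot⟩ := hS₁.exists_notMem_finite
    (((f₀ n (hsub hn)).union (f₁ n hn)).union (Set.finite_le_nat n))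
  simp only [Set.mem_union, Set.mem_ofPred_eq, not_or, not_and, not_le] at hnot
  have hmeet : ∀ x : L, ¬ Disjoint (closedBall (σ n x) (‖α n‖ * (s / 2)))
      (closedBall (σ n' x) (‖α n'‖ * (s / 2))) →
      ‖σ n' x - σ n x‖ ≤ max ‖α n‖ ‖α n'‖ * (s / 2) := by
    intro x hx
    obtain ⟨w, hw, hw'⟩ := Set.not_disjoint_iff.1 hx
    rw [mem_closedBall] at hw hw'
    rw [← dist_eq_norm]
    refine (IsUltrametricDist.dist_triangle_max _ w _).trans (max_le ?_ ?_)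
    · rw [dist_comm]
      exact hw'.trans (mul_le_mul_of_nonneg_right (le_max_right _ _) (half_pos hs).le)
    · exact hw.trans (mul_le_mul_of_nonneg_right (le_max_left _ _) (half_pos hs).le)
  have m0 := hmeet x₀ (hnot.1.1 (hsub hn'))
  have m1 := hmeet x₁ (hnot.1.2 hn')
  have q := (hσ n).norm_sub hx0 hx1
  have q' := (hσ n').norm_sub hx0 hx1
  rw [← hsdef] at q q'
  have hdiff : ‖(σ n' x₀ - σ n x₀) + -(σ n' x₁ - σ n x₁)‖ ≤ max ‖α n‖ ‖α n'‖ * (s / 2) :=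
    (IsUltrametricDist.norm_add_le_max _ _).trans (max_le m0 (by rwa [norm_neg]))
  have heq : ‖α n'‖ = ‖α n‖ := by
    have t1 := IsUltrametricDist.norm_add_le_max (σ n x₀ - σ n x₁)
      ((σ n' x₀ - σ n x₀) + -(σ n' x₁ - σ n x₁))
    have t2 := IsUltrametricDist.norm_add_le_max (σ n' x₀ - σ n' x₁)
      (-((σ n' x₀ - σ n x₀) + -(σ n' x₁ - σ n x₁)))
    rw [show σ n x₀ - σ n x₁ + ((σ n' x₀ - σ n x₀) + -(σ n' x₁ - σ n x₁)) =
      σ n' x₀ - σ n' x₁ by ring, q, q'] at t1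
    rw [show σ n' x₀ - σ n' x₁ + -((σ n' x₀ - σ n x₀) + -(σ n' x₁ - σ n x₁)) =
      σ n x₀ - σ n x₁ by ring, q, q', norm_neg] at t2
    have p1 := hα n
    have p2 := hα n'
    rcases lt_trichotomy ‖α n'‖ ‖α n‖ with hlt | he | hlt
    · rw [max_eq_left hlt.le] at hdiff
      rcases le_max_iff.1 t2 with t | t <;> nlinarith
    · exact he
    · rw [max_eq_right hlt.le] at hdiff
      rcases le_max_iff.1 t1 with t | t <;> nlinarith
  rw [heq, max_self] at m0 m1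
  have hU : closedBall x₀ s ⊆ closedBall a r := sub_disc hx0 hsr
  have hx0U : x₀ ∈ closedBall x₀ s := mem_closedBall_self hs.le
  obtain ⟨k, hk, -, hk2⟩ := ((hσ n).mono hU).inv hs.le
  have hc0 : σ n' x₀ ∈ closedBall (σ n x₀) (‖α n‖ * s) := by
    rw [mem_closedBall, dist_eq_norm]
    have := hα n
    nlinarith
  have himg : closedBall (σ n' x₀) (‖α n'‖ * s) ⊆ closedBall (σ n x₀) (‖α n‖ * s) :=
    sub_disc hc0 (by rw [heq])
  have hτ := ((hσ n').mono hU).comp hs.le (hk.mono himg)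
  have hin : ∀ z ∈ closedBall x₀ s, k (σ n' z) ∈ closedBall x₀ s ∧ σ n (k (σ n' z)) = σ n' z :=
    fun z hz => hk2 _ (himg (mem_disc ((hσ n').mono hU) hs.le hz))
  have hγ : ‖(α n)⁻¹ * α n'‖ = 1 := by
    rw [norm_mul, norm_inv, heq, inv_mul_cancel₀ (hα n).ne']
  have hmove : ∀ z ∈ closedBall x₀ s, ‖σ n' z - σ n z‖ ≤ ‖α n‖ * (s / 2) →
      ‖k (σ n' z) - z‖ ≤ s / 2 := by
    intro z hz hle
    have := (hσ n).norm_sub (hU (hin z hz).1) (hU hz)
    rw [(hin z hz).2] at this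
    rw [this] at hle
    exact le_of_mul_le_mul_left hle (hα n)
  obtain ⟨θ, hθ0, hθ1, hθ⟩ := hτ.2
  rw [hγ, mul_one] at hθ
  have hone : ‖(α n)⁻¹ * α n' - 1‖ ≤ max θ (1 / 2) := by
    have t1 := hθ x₀ hx0U x₁ hx1U
    have t2 : ‖(k (σ n' x₀) - x₀) + -(k (σ n' x₁) - x₁)‖ ≤ s / 2 :=
      (IsUltrametricDist.norm_add_le_max _ _).trans
        (max_le (hmove x₀ hx0U m0) (by rw [norm_neg]; exact hmove x₁ hx1U m1))
    have t3 := IsUltrametricDist.norm_add_le_max ((k (σ n' x₀) - x₀) + -(k (σ n' x₁) - x₁))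
      (-(k (σ n' x₀) - k (σ n' x₁) - (α n)⁻¹ * α n' * (x₀ - x₁)))
    rw [show (k (σ n' x₀) - x₀) + -(k (σ n' x₁) - x₁) +
      -(k (σ n' x₀) - k (σ n' x₁) - (α n)⁻¹ * α n' * (x₀ - x₁)) =
      ((α n)⁻¹ * α n' - 1) * (x₀ - x₁) by ring, norm_mul, norm_neg, ← hsdef] at t3
    rw [← hsdef] at t1
    refine le_of_mul_le_mul_right (t3.trans (max_le ?_ ?_)) hs
    · have := le_max_right θ (1 / 2)
      nlinarith
    · exact t1.trans (mul_le_mul_of_nonneg_right (le_max_left _ _) hs.le)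
  obtain ⟨c, hc⟩ := hG n
  obtain ⟨c', hc'⟩ := hG n'
  refine ⟨n, n', hnot.2, fun x hx => ?_⟩
  have hfix := fix_of_near (c := (c' - c) / κ) (θ := max θ (1 / 2)) hL h hτ hγ
    (hθ0.trans (le_max_left _ _)) (max_lt hθ1 (by norm_num)) (fun z hz => (hin z hz).1)
    (fun y hy z hz => ?_) (fun z hz => ?_) (hA hx) (hpos x hx)
  · have := (hin x (hA hx)).2
    rwa [show k (σ n' x) = x from hfix] at this
  · rw [show k (σ n' y) - k (σ n' z) - (y - z) =
      (k (σ n' y) - k (σ n' z) - (α n)⁻¹ * α n' * (y - z)) + ((α n)⁻¹ * α n' - 1) * (y - z) by ring]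
    refine (IsUltrametricDist.norm_add_le_max _ _).trans (max_le ?_ ?_)
    · exact (hθ y hy z hz).trans (mul_le_mul_of_nonneg_right (le_max_left _ _) (norm_nonneg _))
    · rw [norm_mul]
      exact mul_le_mul_of_nonneg_right hone (norm_nonneg _)
  · have t1 := hc _ (hU (hin z hz).1)
    rw [(hin z hz).2, hc' z (hU hz)] at t1
    refine mul_left_cancel₀ hκ.ne' ?_
    rw [mul_add, mul_div_cancel₀ _ hκ.ne']
    linarith

omit [IsUltrametricDist L] [CharZero L] [CompleteSpace L] in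
/-- The finite points whose j-th image is a root of a form. -/
lemma NARelAux.form_pre (hd : 0 < d) (hF : Hom d F) (hN : Nondeg F) {e : ℕ} {φ : V L → L}
    (hφ : IsForm e φ) (h0 : ∃ Z, φ Z ≠ 0) (j : ℕ) :
    ∃ T : Finset L, T.card ≤ e * d ^ j ∧ ∀ y, φ ((app F)^[j] ![y, 1]) = 0 → y ∈ T := by
  obtain ⟨S, -, hS, hS'⟩ := hφ.roots h0
  obtain ⟨z, hz⟩ := exists_aff_off S fun s hs => (hS s hs).1
  obtain ⟨Z, -, hZ⟩ := app_surj (pow_pos hd j) (hF.itr j) (hN.itr j) (aff_ne_zero z)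
  obtain ⟨T, hT, hT'⟩ := (hφ.comp (hF.itr j)).aff_roots ⟨Z, fun e0 => by
    rw [hZ] at e0
    obtain ⟨s, hs, e1⟩ := hS' _ e0
    exact hz s hs e1⟩
  exact ⟨T, hT, fun y hy => (hT' y).1 (by rwa [app_itr])⟩

omit [IsUltrametricDist L] [CompleteSpace L] in
/-- The finite points that meet a critical point or a pole within m steps. -/
lemma NARelAux.exists_bad (hd : 2 ≤ d) (hF : Hom d F) (hN : Nondeg F) (m : ℕ) :
    ∃ T : Finset L, T.card ≤ 3 * d * d ^ m ∧ ∀ j < m, ∀ (y z t : L),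
      (app F)^[j] ![y, 1] = t • ![z, 1] → y ∉ T → jac F ![z, 1] ≠ 0 ∧ app F ![z, 1] 1 ≠ 0 := by
  classical
  have hd0 : 0 < d := by omega
  have hinf : (![1, 0] : V L) ≠ 0 := ne_zero_of_crit (F := F) (Or.inr rfl)
  induction m with
  | zero => exact ⟨∅, by simp, fun j hj => absurd hj (Nat.not_lt_zero j)⟩
  | succ m ih =>
    obtain ⟨T, hT, hT'⟩ := ih
    obtain ⟨T₁, c1, h1⟩ := form_pre hd0 hF hN hF.isForm_jac (exists_jac_ne hd0 hF hN) m
    obtain ⟨T₂, c2, h2⟩ := form_pre hd0 hF hN (hF.isForm_wedge ![1, 0])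
      (exists_wedge_app_ne hd0 hF hN hinf) m
    refine ⟨T ∪ (T₁ ∪ T₂), ?_, fun j hj y z t e hy => ?_⟩
    · have c3 := Finset.card_union_le T (T₁ ∪ T₂)
      have c4 := Finset.card_union_le T₁ T₂
      have c5 : (2 * d - 2) * d ^ m ≤ 2 * d * d ^ m := Nat.mul_le_mul_right _ (Nat.sub_le _ _)
      have c6 : d * d ^ m * 2 ≤ d * d ^ m * d := Nat.mul_le_mul_left _ hd
      rw [pow_succ]
      nlinarith
    · simp only [Finset.mem_union, not_or] at hy
      rcases (Nat.lt_succ_iff.1 hj).lt_or_eq with hj | rfl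
      · exact hT' j hj y z t e hy.1
      · refine ⟨fun e0 => hy.2.1 (h1 y ?_), fun e0 => hy.2.2 (h2 y ?_)⟩
        · rw [e, hF.isForm_jac.smul_eq, e0, mul_zero]
        · rw [e, hF.app_smul, wedge_smul_left]
          simp [wedge, e0]

/-- Forward images of a disc that avoids the bad points. -/
lemma NARelAux.exists_push (hL : Big L) (hd : 0 < d) (hF : Hom d F) {k : L → L} {a α : L} {r : ℝ}
    (hr : 0 < r) (hk : Conf k a r α) (m : ℕ)
    (hav : ∀ j < m, ∀ w ∈ closedBall a r, ∀ z t : L, (app F)^[j] ![k w, 1] = t • ![z, 1] →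
      jac F ![z, 1] ≠ 0 ∧ app F ![z, 1] 1 ≠ 0) :
    ∃ (σ : L → L) (β : L), Conf σ a r β ∧ Over (app F)^[m] k σ a r := by
  induction m with
  | zero => exact ⟨k, α, hk, over_refl _ _ _⟩
  | succ m ih =>
    obtain ⟨σ, β, hσ, ho⟩ := ih fun j hj => hav j (hj.trans (Nat.lt_succ_self m))
    obtain ⟨g, γ, hg, hgo⟩ := exists_forward (a := σ a) hL hd hF
      (mul_pos (norm_pos_iff.2 hσ.1) hr) fun z hz => by
        obtain ⟨w, hw, rfl⟩ := exists_pre hσ hr.le hz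
        obtain ⟨t, -, e⟩ := over_smul ho hw
        exact hav m (Nat.lt_succ_self m) w hw _ t e
    have h1 : Over (app F)^[1] σ (fun z => g (σ z)) a r :=
      over_pre (k := σ) hgo fun z hz => mem_disc hσ hr.le hz
    have h2 := over_trans hF ho h1
    rw [add_comm] at h2
    exact ⟨_, _, hσ.comp hr.le hg, h2⟩

theorem relInf_of_spread (hL : Big L) (h : Dyn d F G) {c : ℝ} (h' : Dyn d F' fun Z => G Z + c)
    (hS : Spread G) : ∃ n m k, RelInf F F' n m k := by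
  classical
  have hd2 := h.two
  obtain ⟨a, r, x₀, x₁, A, hr, hne, h0, h1, hinf, hx0, hx1, hA, hpos, hfam⟩ := exists_core hL h hS
  have hAr : A ⊆ closedBall a r := by
    refine hA.trans (sub_disc hx0 ?_)
    have : x₁ ∈ closedBall x₀ r := sub_disc (a := x₀) (x := a) (by
      rw [mem_closedBall, dist_comm]; exact hx0) le_rfl hx1
    rwa [mem_closedBall, dist_comm, dist_eq_norm] at this
  have hl : 6 * d < d ^ (6 * d) := Nat.lt_pow_self (by omega)
  obtain ⟨l, hldef⟩ : ∃ l, l = 6 * d := ⟨_, rfl⟩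
  have hl' : 6 * d < d ^ l := by rwa [hldef]
  have H : ∀ m : ℕ, ∃ (k σ : L → L) (α β : L), Conf k a r α ∧
      Over (app F)^[l + m] k (fun z => z) a r ∧ Conf σ a r β ∧ Over (app F')^[m] k σ a r := by
    intro m
    obtain ⟨B, k, α, hc, hB, hdis⟩ := hfam (l + m)
    obtain ⟨T, hT, hT'⟩ := exists_bad hd2 h'.hom h'.nondeg m
    have c1 := card_meet hdis T
    have hlt : (B.filter fun i => ∃ w ∈ closedBall a r, k i w ∈ T).card < B.card := by
      have c2 : 6 * d * d ^ m < d ^ l * d ^ m :=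
        Nat.mul_lt_mul_of_pos_right hl' (pow_pos (by omega) m)
      rw [pow_add] at hc
      nlinarith
    obtain ⟨i, hi, hni⟩ := Finset.exists_mem_notMem_of_card_lt_card hlt
    obtain ⟨σ, β, hσ, ho⟩ := exists_push hL (by omega) h'.hom hr (hB i hi).1 m
      fun j hj w hw z t e => hT' j hj _ z t e fun hwT => hni (Finset.mem_filter.2 ⟨hi, w, hw, hwT⟩)
    exact ⟨k i, σ, α i, β, (hB i hi).1, (hB i hi).2, hσ, ho⟩
  choose k σ α β hk hko hσ hσo using H
  have hd0 : (0 : ℝ) < d := by positivity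
  obtain ⟨m, m', hmm, hag⟩ := exists_agree hL h hne h0 h1 hx0 hx1 hA hpos
    (κ := ((d : ℝ) ^ l)⁻¹) (by positivity) σ β hσ fun m => by
      obtain ⟨c₁, e1⟩ := over_G' h (hko m)
      obtain ⟨c₂, e2⟩ := over_G h' (hσo m)
      refine ⟨(d : ℝ) ^ m * (c₁ + c) - c - c₂, fun z hz => ?_⟩
      have t := e2 z hz
      have t' : (d : ℝ) ^ m * ((d : ℝ) ^ (l + m))⁻¹ = ((d : ℝ) ^ l)⁻¹ := by
        rw [pow_add]
        field_simp
      rw [e1 z hz] at t
      rw [← t']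
      linarith
  refine ⟨l + m, m, m' - m, by omega, ?_⟩
  have hinj : Set.InjOn (k m') A := by
    intro x hx y hy e
    have := (hk m').norm_sub (hAr hx) (hAr hy)
    rw [e, sub_self, norm_zero] at this
    exact sub_eq_zero.1 (norm_eq_zero.1
      ((mul_eq_zero.1 this.symm).resolve_left (norm_ne_zero_iff.2 (hk m').1)))
  refine (hinf.image hinj).mono ?_
  rintro _ ⟨x, hx, rfl⟩
  refine ⟨![k m x, 1], aff_ne_zero _, ?_, ?_⟩
  · rw [show l + m + (m' - m) = l + m' by omega]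
    have := over_wedge (hko m) (hAr hx)
    rw [wedge_comm, neg_eq_zero] at this
    exact wedge_trans (aff_ne_zero _) (over_wedge (hko m') (hAr hx)) this
  · rw [show m + (m' - m) = m' by omega]
    have := over_wedge (hσo m) (hAr hx)
    rw [wedge_comm, neg_eq_zero, hag x hx] at this
    exact wedge_trans (aff_ne_zero _) (over_wedge (hσo m') (hAr hx)) this

end Pool.Agent.MP_3827f0_nt.H92
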