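import Pool.Agent.MP_3827f0_nt.H92.NASup

/-! Families of inverse branches on an ultrametric disc. -/

set_option autoImplicit false

namespace Pool.Agent.MP_3827f0_nt.H92.NARelAux

open Metric

variable {L : Type} [NormedField L] [IsUltrametricDist L] {d : ℕ} {F : PM L} {G : V L → ℝ}
  {h k l : L → L} {a b α : L} {r s : ℝ}

lemma mem_disc (hc : Conf h a r α) (hr : 0 ≤ r) {z : L} (hz : z ∈ closedBall a r) :
    h z ∈ closedBall (h a) (‖α‖ * r) := by
  rw [mem_closedBall, dist_eq_norm, hc.norm_sub hz (mem_closedBall_self hr)]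
  rw [mem_closedBall, dist_eq_norm] at hz
  exact mul_le_mul_of_nonneg_left hz (norm_nonneg _)

lemma exists_pre [CompleteSpace L] (hc : Conf h a r α) (hr : 0 ≤ r) {y : L}
    (hy : y ∈ closedBall (h a) (‖α‖ * r)) : ∃ z ∈ closedBall a r, h z = y := by
  rw [← hc.image (mem_closedBall_self hr) le_rfl] at hy
  exact hy

lemma sub_disc {x : L} (hx : x ∈ closedBall a r) (hs : s ≤ r) :
    closedBall x s ⊆ closedBall a r := by
  intro z hz
  rw [mem_closedBall] at *
  exact (IsUltrametricDist.dist_triangle_max z x a).trans (max_le (hz.trans hs) hx)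

omit [IsUltrametricDist L] in
lemma over_pre {P : V L → V L} {g g' : L → L} (ho : Over P g g' b s)
    (hk : ∀ z ∈ closedBall a r, k z ∈ closedBall b s) :
    Over P (fun z => g (k z)) (fun z => g' (k z)) a r := by
  obtain ⟨c, hc, H⟩ := ho
  exact ⟨c, hc, fun z hz => H _ (hk z hz)⟩

omit [IsUltrametricDist L] in
lemma over_trans (hF : Hom d F) {m n : ℕ} (h1 : Over (app F)^[m] h k a r)
    (h2 : Over (app F)^[n] k l a r) : Over (app F)^[n + m] h l a r := by
  obtain ⟨c, hc, H⟩ := h1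
  obtain ⟨c', hc', H'⟩ := h2
  refine ⟨c ^ d ^ n * c', by positivity, fun z hz => ?_⟩
  obtain ⟨t, ht, e⟩ := H z hz
  obtain ⟨t', ht', e'⟩ := H' z hz
  refine ⟨t ^ d ^ n * t', by rw [norm_mul, norm_pow, ht, ht'], ?_⟩
  rw [Function.iterate_add_apply, e, hF.iter_smul, e', smul_smul]

omit [IsUltrametricDist L] in
lemma over_refl (h : L → L) (a : L) (r : ℝ) : Over (app F)^[0] h h a r :=
  ⟨1, one_pos, fun z _ => ⟨1, norm_one, by simp⟩⟩

omit [IsUltrametricDist L] in
lemma over_smul {P : V L → V L} (ho : Over P h k a r) {z : L} (hz : z ∈ closedBall a r) :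
    ∃ t : L, t ≠ 0 ∧ P ![h z, 1] = t • ![k z, 1] := by
  obtain ⟨c, hc, H⟩ := ho
  obtain ⟨t, ht, e⟩ := H z hz
  exact ⟨t, by rintro rfl; rw [norm_zero] at ht; exact hc.ne ht, e⟩

omit [IsUltrametricDist L] in
lemma over_wedge {P : V L → V L} (ho : Over P h k a r) {z : L} (hz : z ∈ closedBall a r) :
    wedge (P ![h z, 1]) ![k z, 1] = 0 := by
  obtain ⟨t, -, e⟩ := over_smul ho hz
  rw [e, wedge_smul_left, wedge_self, mul_zero]

omit [IsUltrametricDist L] in
lemma over_eq {P : V L → V L} {h' k' : L → L} (ho : Over P h k a r) (ho' : Over P h' k' b s)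
    {z z' : L} (hz : z ∈ closedBall a r) (hz' : z' ∈ closedBall b s) (e : h z = h' z') :
    k z = k' z' := by
  obtain ⟨t, ht, e1⟩ := over_smul ho hz
  have e2 := over_wedge ho' hz'
  rw [← e, e1, wedge_smul_left, wedge_aff] at e2
  exact sub_eq_zero.1 ((mul_eq_zero.1 e2).resolve_left ht)

omit [IsUltrametricDist L] in
lemma over_G (hd : Dyn d F G) {n : ℕ} (ho : Over (app F)^[n] h k a r) :
    ∃ c : ℝ, ∀ z ∈ closedBall a r, (d : ℝ) ^ n * G ![h z, 1] = G ![k z, 1] + c := by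
  obtain ⟨c, hc, H⟩ := ho
  refine ⟨Real.log c, fun z hz => ?_⟩
  obtain ⟨t, ht, e⟩ := H z hz
  have ht0 : t ≠ 0 := by rintro rfl; rw [norm_zero] at ht; exact hc.ne ht
  rw [← hd.iter n (aff_ne_zero _), e, hd.esc.2.1 t _ ht0 (aff_ne_zero _), ht]

omit [IsUltrametricDist L] in
lemma over_G' (hd : Dyn d F G) {n : ℕ} (ho : Over (app F)^[n] h (fun z => z) a r) :
    ∃ c : ℝ, ∀ z ∈ closedBall a r, G ![h z, 1] = ((d : ℝ) ^ n)⁻¹ * G ![z, 1] + c := by
  obtain ⟨c, H⟩ := over_G hd ho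
  have hd0 : (0 : ℝ) < (d : ℝ) ^ n := by
    have := hd.two
    positivity
  refine ⟨((d : ℝ) ^ n)⁻¹ * c, fun z hz => ?_⟩
  rw [← mul_add, ← H z hz, ← mul_assoc, inv_mul_cancel₀ hd0.ne', one_mul]

/-- A family of inverse branches of order n with disjoint images. -/
def Fam (F : PM L) (n : ℕ) (a : L) (r : ℝ) {ι : Type} (B : Finset ι) (k : ι → L → L)
    (α : ι → L) : Prop :=
  (∀ i ∈ B, Conf (k i) a r (α i) ∧ Over (app F)^[n] (k i) (fun z => z) a r) ∧
    ∀ i ∈ B, ∀ j ∈ B, i ≠ j → ∀ w ∈ closedBall a r, ∀ w' ∈ closedBall a r, k i w ≠ k j w'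

omit [IsUltrametricDist L] in
open Classical in
/-- Few members of a family meet a finite set. -/
lemma card_meet {ι : Type} {B : Finset ι} {k : ι → L → L}
    (hdis : ∀ i ∈ B, ∀ j ∈ B, i ≠ j → ∀ w ∈ closedBall a r, ∀ w' ∈ closedBall a r, k i w ≠ k j w')
    (T : Finset L) : (B.filter fun i => ∃ w ∈ closedBall a r, k i w ∈ T).card ≤ T.card := by
  have H : ∀ i, ∃ w, i ∈ (B.filter fun i => ∃ w ∈ closedBall a r, k i w ∈ T) →
      w ∈ closedBall a r ∧ k i w ∈ T := by
    intro i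
    by_cases hi : i ∈ (B.filter fun i => ∃ w ∈ closedBall a r, k i w ∈ T)
    · obtain ⟨w, hw, hT⟩ := (Finset.mem_filter.1 hi).2
      exact ⟨w, fun _ => ⟨hw, hT⟩⟩
    · exact ⟨a, fun h => absurd h hi⟩
  choose w hw using H
  refine Finset.card_le_card_of_injOn (fun i => k i (w i)) (fun i hi => (hw i hi).2) ?_
  intro i hi j hj e
  by_contra hne
  exact hdis i (Finset.mem_filter.1 hi).1 j (Finset.mem_filter.1 hj).1 hne _ (hw i hi).1 _
    (hw j hj).1 e

/-- The disc misses the first m images of the critical points and of infinity. -/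
def Av (F : PM L) (m : ℕ) (b : L) (s : ℝ) : Prop :=
  ∀ j < m, ∀ Z, (Crit F Z ∨ Z = ![1, 0]) → ∀ w ∈ closedBall b s,
    wedge ((app F)^[j + 1] Z) ![w, 1] ≠ 0

omit [IsUltrametricDist L] in
lemma ne_zero_of_crit {Z : V L} (hZ : Crit F Z ∨ Z = ![1, 0]) : Z ≠ 0 := by
  rcases hZ with hZ | rfl
  · exact hZ.1
  · intro e
    have := congrFun e 0
    simp at this

/-- The image of a branch misses the critical values. -/
lemma av_image [CompleteSpace L] (hF : Hom d F) (hN : Nondeg F) (hs : 0 ≤ s) {m : ℕ}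
    (hA : Av F (m + 1) b s) (hc : Conf k b s α) (ho : Over (app F)^[m] k (fun z => z) b s) :
    ∀ Z, (Crit F Z ∨ Z = ![1, 0]) → ∀ w ∈ closedBall (k b) (‖α‖ * s),
      wedge (app F Z) ![w, 1] ≠ 0 := by
  intro Z hZ w hw e
  obtain ⟨z, hz, rfl⟩ := exists_pre hc hs hw
  have hZ0 := ne_zero_of_crit hZ
  have e1 := hF.wedge_iter m e (hN.app_ne hZ0) (aff_ne_zero _)
  exact hA m (Nat.lt_succ_self m) Z hZ z hz
    (wedge_trans (hN.iter_ne m (aff_ne_zero _)) e1 (over_wedge ho hz))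

variable [IsAlgClosed L] [CharZero L]

omit [IsUltrametricDist L] in
/-- The finite points among the images of the critical points and of infinity. -/
lemma exists_vals (hd : 2 ≤ d) (hF : Hom d F) (hN : Nondeg F) (j : ℕ) :
    ∃ T : Finset L, T.card ≤ 2 * d ∧ ∀ Z, (Crit F Z ∨ Z = ![1, 0]) → ∀ w,
      wedge ((app F)^[j + 1] Z) ![w, 1] = 0 → w ∈ T := by
  classical
  obtain ⟨Cs, hC0, hC⟩ := exists_jac_factor hd hF hN
  have key : ∀ (Y : V L) (w : L), Y ≠ 0 → wedge Y ![w, 1] = 0 → w = Y 0 / Y 1 := by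
    intro Y w hY e
    obtain ⟨t, ht, rfl⟩ := exists_smul_of_wedge hY (aff_ne_zero w) e
    simp [ht]
  refine ⟨insert (((app F)^[j + 1] ![1, 0]) 0 / ((app F)^[j + 1] ![1, 0]) 1)
    (Finset.univ.image fun i => ((app F)^[j + 1] (Cs i)) 0 / ((app F)^[j + 1] (Cs i)) 1), ?_, ?_⟩
  · refine (Finset.card_insert_le _ _).trans ?_
    have := Finset.card_image_le (s := (Finset.univ : Finset (Fin (2 * d - 2))))
      (f := fun i => ((app F)^[j + 1] (Cs i)) 0 / ((app F)^[j + 1] (Cs i)) 1)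
    rw [Finset.card_univ, Fintype.card_fin] at this
    omega
  · intro Z hZ w e
    have hZ0 := ne_zero_of_crit hZ
    rcases hZ with hZ | rfl
    · have h0 := hZ.2
      rw [hC] at h0
      obtain ⟨i, -, hi⟩ := Finset.prod_eq_zero_iff.1 h0
      have e1 := hF.wedge_iter (j + 1) hi hZ0 (hC0 i)
      rw [wedge_comm, neg_eq_zero] at e1
      have e2 := wedge_trans (hN.iter_ne (j + 1) hZ0) e1 e
      exact Finset.mem_insert_of_mem (Finset.mem_image.2 ⟨i, Finset.mem_univ _,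
        (key _ _ (hN.iter_ne _ (hC0 i)) e2).symm⟩)
    · rw [key _ _ (hN.iter_ne _ hZ0) e]
      exact Finset.mem_insert_self _ _

omit [IsUltrametricDist L] in
lemma exists_av (hd : 2 ≤ d) (hF : Hom d F) (hN : Nondeg F) (m : ℕ) :
    ∃ T : Finset L, ∀ (b : L) (s : ℝ), (∀ w ∈ closedBall b s, w ∉ T) → Av F m b s := by
  classical
  choose T _ hT using exists_vals hd hF hN
  refine ⟨(Finset.range m).biUnion T, fun b s H j hj Z hZ w hw e => H w hw ?_⟩
  exact Finset.mem_biUnion.2 ⟨j, Finset.mem_range.2 hj, hT j Z hZ w e⟩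

variable [CompleteSpace L]

/-- Every preimage comes from a branch. -/
lemma exists_pull (hL : Big L) (hd : 0 < d) (hF : Hom d F) (hN : Nondeg F) (hs : 0 < s)
    {w : L} (hw : w ∈ closedBall b s) (m : ℕ) (hA : Av F m b s) (Z : V L) (hZ : Z ≠ 0)
    (e : wedge ((app F)^[m] Z) ![w, 1] = 0) :
    ∃ (g : L → L) (β : L), Conf g b s β ∧ Over (app F)^[m] g (fun z => z) b s ∧
      wedge Z ![g w, 1] = 0 := by
  induction m generalizing Z with
  | zero => exact ⟨fun z => z, 1, conf_id b s, over_refl _ _ _, e⟩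
  | succ m ih =>
    obtain ⟨g, β, hg, ho, e1⟩ := ih (fun j hj => hA j (hj.trans (Nat.lt_succ_self m)))
      (app F Z) (hN.app_ne hZ) e
    have hβ : 0 < ‖β‖ * s := mul_pos (norm_pos_iff.2 hg.1) hs
    obtain ⟨k, γ, hk, hko, -, hall⟩ := exists_branches hL hd hF hN hβ
      (av_image hF hN hs.le hA hg ho)
    obtain ⟨j, hj⟩ := hall Z hZ (g w) (mem_disc hg hs.le hw) e1
    refine ⟨fun z => k j (g z), γ j * β, hg.comp hs.le (hk j), ?_, hj⟩
    have h1 : Over (app F)^[1] (fun z => k j (g z)) g b s :=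
      over_pre (hko j) fun z hz => mem_disc hg hs.le hz
    exact over_trans hF h1 ho

/-- One more generation of branches. -/
lemma fam_step (hL : Big L) (hd : 0 < d) (hF : Hom d F) (hN : Nondeg F) (hr : 0 < r) {n : ℕ}
    {ι : Type} {B : Finset ι} {k : ι → L → L} {α : ι → L} (hB : Fam F n a r B k α)
    (hav : ∀ i ∈ B, ∀ Z, (Crit F Z ∨ Z = ![1, 0]) → ∀ w ∈ closedBall (k i a) (‖α i‖ * r),
      wedge (app F Z) ![w, 1] ≠ 0) :
    ∃ (k' : ι × Fin d → L → L) (α' : ι × Fin d → L),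
      Fam F (n + 1) a r (B ×ˢ Finset.univ) k' α' := by
  have H : ∀ i, ∃ (g : Fin d → L → L) (β : Fin d → L), i ∈ B →
      (∀ j, Conf (g j) (k i a) (‖α i‖ * r) (β j)) ∧
      (∀ j, Over (app F) (g j) (fun z => z) (k i a) (‖α i‖ * r)) ∧
      (∀ j j', j ≠ j' → ∀ w ∈ closedBall (k i a) (‖α i‖ * r),
        ∀ w' ∈ closedBall (k i a) (‖α i‖ * r), g j w ≠ g j' w') := by
    intro i
    by_cases hi : i ∈ B
    · obtain ⟨g, β, h1, h2, h3, -⟩ := exists_branches hL hd hF hN
        (mul_pos (norm_pos_iff.2 (hB.1 i hi).1.1) hr) (hav i hi)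
      exact ⟨g, β, fun _ => ⟨h1, h2, h3⟩⟩
    · exact ⟨fun _ z => z, fun _ => 1, fun h => absurd h hi⟩
  choose g β hg using H
  have hov : ∀ i ∈ B, ∀ j, Over (app F)^[1] (fun z => g i j (k i z)) (k i) a r :=
    fun i hi j => over_pre ((hg i hi).2.1 j) fun z hz => mem_disc (hB.1 i hi).1 hr.le hz
  refine ⟨fun p z => g p.1 p.2 (k p.1 z), fun p => β p.1 p.2 * α p.1, ?_, ?_⟩
  · rintro ⟨i, j⟩ hp
    have hi : i ∈ B := (Finset.mem_product.1 hp).1
    exact ⟨(hB.1 i hi).1.comp hr.le ((hg i hi).1 j), over_trans hF (hov i hi j) (hB.1 i hi).2⟩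
  · rintro ⟨i, j⟩ hp ⟨i', j'⟩ hp' hne w hw w' hw' e
    have hi : i ∈ B := (Finset.mem_product.1 hp).1
    have hi' : i' ∈ B := (Finset.mem_product.1 hp').1
    by_cases hii : i = i'
    · subst hii
      have hjj : j ≠ j' := fun e => hne (by rw [e])
      exact (hg i hi).2.2 j j' hjj _ (mem_disc (hB.1 i hi).1 hr.le hw) _
        (mem_disc (hB.1 i hi).1 hr.le hw') e
    · exact hB.2 i hi i' hi' hii w hw w' hw' (over_eq (hov i hi j) (hov i' hi' j') hw hw' e)

/-- Many branches of every order. -/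
lemma exists_fam (hL : Big L) (hd : 2 ≤ d) (hF : Hom d F) (hN : Nondeg F) (hr : 0 < r) {M : ℕ}
    (hM : 8 * d ≤ d ^ M) (hA : Av F M a r) (n : ℕ) :
    ∃ (ι : Type) (B : Finset ι) (k : ι → L → L) (α : ι → L), Fam F n a r B k α ∧
      (n ≤ M → d ^ n ≤ B.card) ∧ (M ≤ n → d ^ n + 8 * d ≤ 2 * B.card) := by
  classical
  have hd0 : 0 < d := by omega
  induction n with
  | zero =>
    refine ⟨Unit, {()}, fun _ z => z, fun _ => 1, ⟨fun _ _ => ⟨conf_id a r, over_refl _ _ _⟩,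
      fun i _ j _ hij => absurd rfl hij⟩, fun _ => by simp, fun h => ?_⟩
    obtain rfl : M = 0 := by omega
    simp at hM
    omega
  | succ n ih =>
    obtain ⟨ι, B, k, α, hB, h1, h2⟩ := ih
    by_cases hn : n < M
    · obtain ⟨k', α', hB'⟩ := fam_step hL hd0 hF hN hr hB fun i hi =>
        av_image hF hN hr.le (fun j hj => hA j (by omega)) (hB.1 i hi).1 (hB.1 i hi).2
      have hc : d ^ (n + 1) ≤ (B ×ˢ (Finset.univ : Finset (Fin d))).card := by
        rw [Finset.card_product, Finset.card_univ, Fintype.card_fin, pow_succ]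
        exact Nat.mul_le_mul_right d (h1 hn.le)
      refine ⟨_, _, k', α', hB', fun _ => hc, fun h => ?_⟩
      obtain rfl : M = n + 1 := by omega
      omega
    · obtain ⟨T, hT, hTm⟩ := exists_vals hd hF hN 0
      have hc := card_meet hB.2 T
      have hsum := Finset.card_filter_add_card_filter_not (s := B)
        (fun i => ∃ w ∈ closedBall a r, k i w ∈ T)
      set B' := B.filter fun i => ¬ ∃ w ∈ closedBall a r, k i w ∈ T with hB'def
      have hsub : ∀ i ∈ B', i ∈ B := fun i hi => (Finset.mem_filter.1 hi).1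
      have hF' : Fam F n a r B' k α := ⟨fun i hi => hB.1 i (hsub i hi),
        fun i hi j hj => hB.2 i (hsub i hi) j (hsub j hj)⟩
      obtain ⟨k', α', hB'⟩ := fam_step hL hd0 hF hN hr hF' fun i hi Z hZ w hw e => by
        obtain ⟨z, hz, rfl⟩ := exists_pre (hF'.1 i hi).1 hr.le hw
        exact (Finset.mem_filter.1 hi).2 ⟨z, hz, hTm Z hZ _ e⟩
      refine ⟨_, _, k', α', hB', fun h => by omega, fun _ => ?_⟩
      rw [Finset.card_product, Finset.card_univ, Fintype.card_fin, pow_succ]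
      have h3 := h2 (by omega)
      have h4 : d ^ n + 4 * d ≤ 2 * B'.card := by omega
      nlinarith

end Pool.Agent.MP_3827f0_nt.H92.NARelAux
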