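import Pool.Agent.MP_3827f0_nt.H92.NARelA

/-! Branches that return to the disc and the core set. -/

set_option autoImplicit false

namespace Pool.Agent.MP_3827f0_nt.H92.NARelAux

open Metric Filter Topology

variable {L : Type} [NormedField L] [IsUltrametricDist L] [IsAlgClosed L] [CompleteSpace L]
  {d : ℕ} {F : PM L} {G : V L → ℝ} {k : L → L} {a α : L} {r r' κ c : ℝ}

/-- The slope of the supremum between two radii. -/
noncomputable def slp (G : V L → ℝ) (a : L) (r r' : ℝ) : ℝ :=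
  (usup G a r - usup G a r') / (Real.log r - Real.log r')

omit [IsUltrametricDist L] [IsAlgClosed L] [CompleteSpace L] in
lemma slp_pos (hr' : 0 < r') (hr : r' < r) (hu : usup G a r' < usup G a r) : 0 < slp G a r r' :=
  div_pos (sub_pos.2 hu) (sub_pos.2 (Real.log_lt_log hr' hr))

lemma slp_conf (h : Dyn d F G) (hk : Conf k a r α) (hκ : 0 < κ)
    (he : ∀ z ∈ closedBall a r, G ![k z, 1] = κ * G ![z, 1] + c) {x : L}
    (hx : x ∈ closedBall a r) {s s' : ℝ} (hs' : 0 < s') (hs : s' < s) (hsr : s ≤ r) :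
    slp G (k x) (‖α‖ * s) (‖α‖ * s') = κ * slp G x s s' := by
  have hα : 0 < ‖α‖ := norm_pos_iff.2 hk.1
  unfold slp
  rw [h.usup_conf hk hκ he hx (hs'.trans hs).le hsr,
    h.usup_conf hk hκ he hx hs'.le (hs.le.trans hsr), Real.log_mul hα.ne' (hs'.trans hs).ne',
    Real.log_mul hα.ne' hs'.ne', ← mul_div_assoc]
  have e1 : κ * usup G x s + c - (κ * usup G x s' + c) = κ * (usup G x s - usup G x s') := by ring
  have e2 : Real.log ‖α‖ + Real.log s - (Real.log ‖α‖ + Real.log s') =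
      Real.log s - Real.log s' := by ring
  rw [e1, e2]

omit [IsAlgClosed L] in
lemma fam_disj {n : ℕ} {ι : Type} {B : Finset ι} {k : ι → L → L} {α : ι → L}
    (hB : Fam F n a r B k α) (hr : 0 ≤ r) {i j : ι} (hi : i ∈ B) (hj : j ∈ B) (hij : i ≠ j) :
    Disjoint (closedBall (k i a) (‖α i‖ * r)) (closedBall (k j a) (‖α j‖ * r)) := by
  rw [Set.disjoint_left]
  intro y hy hy'
  obtain ⟨w, hw, rfl⟩ := exists_pre (hB.1 i hi).1 hr hy
  obtain ⟨w', hw', e⟩ := exists_pre (hB.1 j hj).1 hr hy'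
  exact hB.2 i hi j hj hij w hw w' hw' e.symm

lemma fam_slp (h : Dyn d F G) {n : ℕ} {ι : Type} {B : Finset ι} {k : ι → L → L} {α : ι → L}
    (hB : Fam F n a r B k α) (hr' : 0 < r') (hr : r' < r) {i : ι} (hi : i ∈ B) :
    slp G (k i a) (‖α i‖ * r) (‖α i‖ * r') = ((d : ℝ) ^ n)⁻¹ * slp G a r r' := by
  obtain ⟨c, hc⟩ := over_G' h (hB.1 i hi).2
  have hd0 : (0 : ℝ) < (d : ℝ) ^ n := by
    have := h.two
    positivity
  exact slp_conf h (hB.1 i hi).1 (inv_pos.2 hd0) hc (mem_closedBall_self (hr'.trans hr).le) hr'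
    hr le_rfl

/-- Few branches end in a small disc. -/
lemma count_in (hL : Big L) (h : Dyn d F G) {n : ℕ} {ι : Type} {B : Finset ι} {k : ι → L → L}
    {α : ι → L} (hB : Fam F n a r B k α) (hr' : 0 < r') (hr : r' < r) {C ρ : ℝ} (hρ : 0 < ρ)
    (hρ1 : ρ < 1) (hC : ∀ (a : L) (r : ℝ), 0 < r →
      |usup G a r - Real.log (max 1 (max ‖a‖ r))| ≤ C) (p : L)
    (hin : ∀ i ∈ B, closedBall (k i a) (‖α i‖ * r) ⊆ closedBall p ρ) :
    B.card * (((d : ℝ) ^ n)⁻¹ * slp G a r r') ≤ 2 * C / (- Real.log ρ) := by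
  have hα : ∀ i ∈ B, 0 < ‖α i‖ := fun i hi => norm_pos_iff.2 (hB.1 i hi).1.1
  have H := h.mass_le hL B (fun i => k i a) (fun i => ‖α i‖ * r) (fun i => ‖α i‖ * r')
    (fun i hi => ⟨mul_pos (hα i hi) hr', mul_lt_mul_of_pos_left hr (hα i hi)⟩)
    (fun i hi j hj hij => fam_disj hB (hr'.trans hr).le hi hj hij) hρ hρ1 hin
  have e : ∑ i ∈ B, slp G (k i a) (‖α i‖ * r) (‖α i‖ * r') =
      B.card * (((d : ℝ) ^ n)⁻¹ * slp G a r r') := by
    rw [Finset.sum_congr rfl fun i hi => fam_slp h hB hr' hr hi, Finset.sum_const, nsmul_eq_mul]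
  rw [← e]
  refine le_trans H ?_
  have hl : 0 < - Real.log ρ := neg_pos.2 (Real.log_neg hρ hρ1)
  rw [Real.log_one, zero_sub]
  refine div_le_div_of_nonneg_right ?_ hl.le
  have h1 := abs_le.1 (hC p 1 one_pos)
  have h2 := abs_le.1 (hC p ρ hρ)
  have e1 : max 1 (max ‖p‖ ρ) = max 1 (max ‖p‖ 1) := by
    rw [max_left_comm, max_eq_left hρ1.le, max_left_comm 1 ‖p‖ 1, max_self]
  rw [e1] at h2
  linarith [h1.2, h2.1]

/-- Few branches end outside a large disc. -/
lemma count_out (hL : Big L) (h : Dyn d F G) {n : ℕ} {ι : Type} {B : Finset ι} {k : ι → L → L}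
    {α : ι → L} (hB : Fam F n a r B k α) (hr' : 0 < r') (hr : r' < r) {C ρ : ℝ} (hρ : 0 < ρ)
    (hρ1 : ρ < 1) (hC : ∀ (a : L) (r : ℝ), 0 < r →
      |usup G a r - Real.log (max 1 (max ‖a‖ r))| ≤ C)
    (hout : ∀ i ∈ B, Disjoint (closedBall (k i a) (‖α i‖ * r)) (closedBall 0 ρ⁻¹)) :
    B.card * (((d : ℝ) ^ n)⁻¹ * slp G a r r') ≤ 2 * C / (- Real.log ρ) := by
  have hα : ∀ i ∈ B, 0 < ‖α i‖ := fun i hi => norm_pos_iff.2 (hB.1 i hi).1.1
  have hρ' : 1 < ρ⁻¹ := one_lt_inv_iff₀.2 ⟨hρ, hρ1⟩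
  have H := h.mass_le_one hL (Finset.insertNone B) (fun o => o.elim 0 fun i => k i a)
    (fun o => o.elim ρ⁻¹ fun i => ‖α i‖ * r) (fun o => o.elim 1 fun i => ‖α i‖ * r') ?_ ?_
  · rw [Finset.sum_insertNone] at H
    have e : ∑ i ∈ B, slp G (k i a) (‖α i‖ * r) (‖α i‖ * r') =
        B.card * (((d : ℝ) ^ n)⁻¹ * slp G a r r') := by
      rw [Finset.sum_congr rfl fun i hi => fam_slp h hB hr' hr hi, Finset.sum_const, nsmul_eq_mul]
    rw [← e]
    have H' : slp G 0 ρ⁻¹ 1 + ∑ i ∈ B, slp G (k i a) (‖α i‖ * r) (‖α i‖ * r') ≤ 1 := H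
    have hl : 0 < - Real.log ρ := neg_pos.2 (Real.log_neg hρ hρ1)
    have h1 := abs_le.1 (hC 0 1 one_pos)
    have h2 := abs_le.1 (hC 0 ρ⁻¹ (inv_pos.2 hρ))
    rw [norm_zero, max_eq_right zero_le_one, max_self, Real.log_one] at h1
    rw [norm_zero, max_eq_right (inv_pos.2 hρ).le, max_eq_right hρ'.le, Real.log_inv] at h2
    have h3 : 1 - 2 * C / (- Real.log ρ) ≤ slp G 0 ρ⁻¹ 1 := by
      unfold slp
      rw [Real.log_one, sub_zero, Real.log_inv, le_div_iff₀ hl, sub_mul,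
        div_mul_cancel₀ _ hl.ne']
      linarith [h1.2, h2.1]
    linarith
  · rintro (_ | i) hi
    · exact ⟨one_pos, hρ'⟩
    · have hi' : i ∈ B := Finset.some_mem_insertNone.1 hi
      exact ⟨mul_pos (hα i hi') hr', mul_lt_mul_of_pos_left hr (hα i hi')⟩
  · rintro (_ | i) hi (_ | j) hj hij
    · exact absurd rfl hij
    · exact (hout j (Finset.some_mem_insertNone.1 hj)).symm
    · exact hout i (Finset.some_mem_insertNone.1 hi)
    · exact fam_disj hB (hr'.trans hr).le (Finset.some_mem_insertNone.1 hi)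
        (Finset.some_mem_insertNone.1 hj) fun e => hij (by rw [e])

/-- A near similarity that meets the disc and shrinks G is a contraction. -/
lemma contr (h : Dyn d F G) (hk : Conf k a r α) (hκ : 0 < κ) (hκ1 : κ < 1)
    (he : ∀ z ∈ closedBall a r, G ![k z, 1] = κ * G ![z, 1] + c) (hr' : 0 < r') (hr : r' < r)
    (hu : usup G a r' < usup G a r) (ha : k a ∈ closedBall a r) : ‖α‖ < 1 := by
  by_contra hα
  rw [not_lt] at hα
  have hr0 : 0 < r := hr'.trans hr
  have hpre : ∀ y ∈ closedBall a r, ∃ z ∈ closedBall a r, k z = y := by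
    intro y hy
    refine exists_pre hk hr0.le ?_
    rw [mem_closedBall] at *
    refine (IsUltrametricDist.dist_triangle_max y a (k a)).trans (max_le ?_ ?_)
    · nlinarith
    · rw [dist_comm]; nlinarith
  obtain ⟨C, hC⟩ := h.esc.1
  have hlow : ∀ y : L, -C ≤ G ![y, 1] := by
    intro y
    have h1 := (abs_le.1 (hC _ (aff_ne_zero y))).1
    have h2 : 0 ≤ Real.log ‖(![y, 1] : V L)‖ := by
      refine Real.log_nonneg ?_
      rw [norm_V]
      simp
    linarith
  have H : ∀ j : ℕ, ∀ x ∈ closedBall a r, ∀ y ∈ closedBall a r,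
      G ![x, 1] - G ![y, 1] ≤ κ ^ j * (usup G a r + C) := by
    intro j
    induction j with
    | zero =>
      intro x hx y _
      have := h.le_usup hx
      have := hlow y
      rw [pow_zero, one_mul]
      linarith
    | succ j ih =>
      intro x hx y hy
      obtain ⟨x', hx', rfl⟩ := hpre x hx
      obtain ⟨y', hy', rfl⟩ := hpre y hy
      have := mul_le_mul_of_nonneg_left (ih x' hx' y' hy') hκ.le
      rw [he x' hx', he y' hy', pow_succ]
      linarith
  have hlim : Tendsto (fun j : ℕ => κ ^ j * (usup G a r + C)) atTop (𝓝 0) := by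
    simpa using (tendsto_pow_atTop_nhds_zero_of_lt_one hκ.le hκ1).mul_const (usup G a r + C)
  have h1 : usup G a r ≤ G ![a, 1] := usup_le hr0.le fun x hx =>
    sub_nonpos.1 (ge_of_tendsto' hlim fun j => H j x hx a (mem_closedBall_self hr0.le))
  have h2 : G ![a, 1] ≤ usup G a r' := h.le_usup (mem_closedBall_self hr'.le)
  linarith

/-- Every neighbourhood of x has mass. -/
def Pos (G : V L → ℝ) (x : L) : Prop :=
  ∀ s, 0 < s → ∃ s', 0 < s' ∧ s' < s ∧ usup G x s' < usup G x s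

lemma pos_conf (h : Dyn d F G) (hk : Conf k a r α) (hκ : 0 < κ) (hr : 0 < r)
    (he : ∀ z ∈ closedBall a r, G ![k z, 1] = κ * G ![z, 1] + c) {x : L}
    (hx : x ∈ closedBall a r) (hp : Pos G x) : Pos G (k x) := by
  intro s hs
  have hα : 0 < ‖α‖ := norm_pos_iff.2 hk.1
  have h0 : 0 < min r (s / ‖α‖) := lt_min hr (div_pos hs hα)
  obtain ⟨s', h1, h2, h3⟩ := hp _ h0
  have h4 : ‖α‖ * min r (s / ‖α‖) ≤ s := by
    have := min_le_right r (s / ‖α‖)
    rw [le_div_iff₀ hα] at this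
    linarith
  refine ⟨‖α‖ * s', mul_pos hα h1, (mul_lt_mul_of_pos_left h2 hα).trans_le h4, ?_⟩
  refine lt_of_lt_of_le ?_ (h.usup_mono _ (mul_pos hα h0).le h4)
  rw [h.usup_conf hk hκ he hx h1.le (h2.le.trans (min_le_left _ _)),
    h.usup_conf hk hκ he hx h0.le (min_le_left _ _)]
  have := mul_lt_mul_of_pos_left h3 hκ
  linarith

/-- The fixed point of a contraction that scales G. -/
lemma pos_fix (hL : Big L) (h : Dyn d F G) (hk : Conf k a r α) (hκ : 0 < κ)
    (he : ∀ z ∈ closedBall a r, G ![k z, 1] = κ * G ![z, 1] + c) (hr' : 0 < r') (hr : r' < r)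
    (hu : usup G a r' < usup G a r) (hα1 : ‖α‖ < 1) {x : L} (hx : x ∈ closedBall a r)
    (hfix : k x = x) : Pos G x := by
  have hr0 : 0 < r := hr'.trans hr
  have hα : 0 < ‖α‖ := norm_pos_iff.2 hk.1
  have hαr : ‖α‖ * r < r := by nlinarith
  have hbase : usup G x (‖α‖ * r) < usup G x r := by
    have hsub : closedBall (k a) (‖α‖ * r) ⊆ closedBall x (‖α‖ * r) := by
      refine sub_disc ?_ le_rfl
      have := mem_disc hk hr0.le hx
      rw [hfix] at this
      rw [mem_closedBall, dist_comm]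
      exact this
    have H := h.mass_le hL ({()} : Finset Unit) (fun _ => k a) (fun _ => ‖α‖ * r)
      (fun _ => ‖α‖ * r') (fun _ _ => ⟨mul_pos hα hr', mul_lt_mul_of_pos_left hr hα⟩)
      (fun i _ j _ hij => absurd rfl hij) (mul_pos hα hr0) hαr (fun _ _ => hsub)
    rw [Finset.sum_singleton] at H
    have H' : slp G (k a) (‖α‖ * r) (‖α‖ * r') ≤ slp G x r (‖α‖ * r) := H
    rw [slp_conf h hk hκ he (mem_closedBall_self hr0.le) hr' hr le_rfl] at H'
    have h1 : 0 < slp G x r (‖α‖ * r) := (mul_pos hκ (slp_pos hr' hr hu)).trans_le H'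
    have h2 : 0 < Real.log r - Real.log (‖α‖ * r) :=
      sub_pos.2 (Real.log_lt_log (mul_pos hα hr0) hαr)
    exact sub_pos.1 ((div_pos_iff_of_pos_right h2).1 h1)
  have hle : ∀ j : ℕ, ‖α‖ ^ j * r ≤ r := fun j =>
    mul_le_of_le_one_left hr0.le (pow_le_one₀ hα.le hα1.le)
  have hstep : ∀ j : ℕ, usup G x (‖α‖ ^ (j + 1) * r) < usup G x (‖α‖ ^ j * r) := by
    intro j
    induction j with
    | zero => simpa using hbase
    | succ j ih =>
      have e1 := h.usup_conf hk hκ he hx (s := ‖α‖ ^ (j + 1) * r) (by positivity) (hle _)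
      have e2 := h.usup_conf hk hκ he hx (s := ‖α‖ ^ j * r) (by positivity) (hle _)
      rw [hfix, ← mul_assoc, ← pow_succ'] at e1 e2
      have := mul_lt_mul_of_pos_left ih hκ
      linarith
  intro s hs
  obtain ⟨j, hj⟩ := exists_pow_lt_of_lt_one (div_pos hs hr0) hα1
  rw [lt_div_iff₀ hr0] at hj
  have h1 : ‖α‖ ^ (j + 1) * r ≤ ‖α‖ ^ j * r :=
    mul_le_mul_of_nonneg_right (pow_le_pow_of_le_one hα.le hα1.le (Nat.le_succ j)) hr0.le
  exact ⟨‖α‖ ^ (j + 1) * r, by positivity, h1.trans_lt hj,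
    (hstep j).trans_le (h.usup_mono _ (by positivity) hj.le)⟩

/-- The core built from a contraction and a second point. -/
lemma exists_set (h : Dyn d F G) (hk : Conf k a r α) (hκ : 0 < κ) (hr : 0 < r)
    (he : ∀ z ∈ closedBall a r, G ![k z, 1] = κ * G ![z, 1] + c) (hα1 : ‖α‖ < 1) {x₀ x₁ : L}
    (h0 : x₀ ∈ closedBall a r) (h1 : x₁ ∈ closedBall a r) (hne : x₀ ≠ x₁) (hfix : k x₀ = x₀)
    (p0 : Pos G x₀) (p1 : Pos G x₁) : ∃ A : Set L, x₀ ∈ A ∧ x₁ ∈ A ∧ A.Infinite ∧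
      A ⊆ closedBall x₀ ‖x₀ - x₁‖ ∧ ∀ x ∈ A, Pos G x := by
  have hα : 0 < ‖α‖ := norm_pos_iff.2 hk.1
  have hs : 0 < ‖x₀ - x₁‖ := norm_pos_iff.2 (sub_ne_zero.2 hne)
  have hsr : ‖x₀ - x₁‖ ≤ r := by
    have : x₁ ∈ closedBall x₀ r := sub_disc (a := x₀) (x := a) (by
      rw [mem_closedBall, dist_comm]; exact h0) le_rfl h1
    rw [mem_closedBall, dist_comm, dist_eq_norm] at this
    exact this
  have hle : ∀ j : ℕ, ‖α‖ ^ j * ‖x₀ - x₁‖ ≤ ‖x₀ - x₁‖ := fun j =>
    mul_le_of_le_one_left hs.le (pow_le_one₀ hα.le hα1.le)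
  have H : ∀ j : ℕ, ‖k^[j] x₁ - x₀‖ = ‖α‖ ^ j * ‖x₀ - x₁‖ ∧ Pos G (k^[j] x₁) := by
    intro j
    induction j with
    | zero => exact ⟨by simp [norm_sub_rev], p1⟩
    | succ j ih =>
      have hm : k^[j] x₁ ∈ closedBall a r := by
        refine sub_disc h0 hsr ?_
        rw [mem_closedBall, dist_eq_norm, ih.1]
        exact hle j
      rw [Function.iterate_succ_apply']
      refine ⟨?_, pos_conf h hk hκ hr he hm ih.2⟩
      have := hk.norm_sub hm h0
      rw [hfix] at this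
      rw [this, ih.1, pow_succ', mul_assoc]
  refine ⟨insert x₀ (Set.range fun j : ℕ => k^[j] x₁), Set.mem_insert _ _,
    Set.mem_insert_of_mem _ ⟨0, rfl⟩, ?_, ?_, ?_⟩
  · refine Set.Infinite.mono (Set.subset_insert _ _) (Set.infinite_range_of_injective ?_)
    intro i j e
    have e' : k^[i] x₁ = k^[j] x₁ := e
    have h2 := (H i).1
    rw [e', (H j).1] at h2
    exact (pow_right_injective₀ hα hα1.ne (mul_right_cancel₀ hs.ne' h2)).symm
  · rintro x (rfl | ⟨j, rfl⟩)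
    · exact mem_closedBall_self hs.le
    · rw [mem_closedBall, dist_eq_norm, (H j).1]
      exact hle j
  · rintro x (rfl | ⟨j, rfl⟩)
    · exact p0
    · exact (H j).2

end Pool.Agent.MP_3827f0_nt.H92.NARelAux
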