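import Pool.Agent.MP_3827f0_nt.H92.NARelB

/-! Two returning branches give the core; rigidity of near translations. -/

set_option autoImplicit false

namespace Pool.Agent.MP_3827f0_nt.H92.NARelAux

open Metric Filter Topology

variable {L : Type} [NormedField L] [IsUltrametricDist L] [IsAlgClosed L] [CharZero L]
  [CompleteSpace L] {d : ℕ} {F : PM L} {G : V L → ℝ} {k : L → L} {a α : L} {r r' : ℝ}

/-- A covered branch extends to a contraction of the disc. -/
lemma ret_one (hL : Big L) (h : Dyn d F G) (hr' : 0 < r') (hr : r' < r)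
    (hu : usup G a r' < usup G a r) {n m : ℕ} (hn : 0 < n) (hk : Conf k a r α)
    (ho : Over (app F)^[n] k (fun z => z) a r) (hA : Av F m (k a) (‖α‖ * r)) {x : L}
    (hx : x ∈ closedBall a r) (e : wedge ((app F)^[m] ![x, 1]) ![k a, 1] = 0) :
    ∃ (φ : L → L) (γ x₀ : L) (κ c : ℝ), Conf φ a r γ ∧ 0 < κ ∧
      (∀ z ∈ closedBall a r, G ![φ z, 1] = κ * G ![z, 1] + c) ∧ ‖γ‖ < 1 ∧
      x₀ ∈ closedBall a r ∧ φ x₀ = x₀ ∧ wedge ((app F)^[m] ![x₀, 1]) ![k x₀, 1] = 0 := by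
  have hr0 : 0 < r := hr'.trans hr
  have hd2 := h.two
  have hs : 0 < ‖α‖ * r := mul_pos (norm_pos_iff.2 hk.1) hr0
  obtain ⟨g, β, hg, hgo, e1⟩ := exists_pull hL (by omega) h.hom h.nondeg hs
    (mem_closedBall_self hs.le) m hA _ (aff_ne_zero x) e
  rw [wedge_aff, sub_eq_zero] at e1
  have h1 : Over (app F)^[m] (fun z => g (k z)) k a r :=
    over_pre hgo fun z hz => mem_disc hk hr0.le hz
  obtain ⟨c, hc⟩ := over_G' h (over_trans h.hom h1 ho)
  have hφ := hk.comp hr0.le hg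
  have hd1 : (1 : ℝ) < (d : ℝ) ^ (n + m) :=
    one_lt_pow₀ (by exact_mod_cast (by omega : 1 < d)) (by omega)
  have hκ : (0 : ℝ) < ((d : ℝ) ^ (n + m))⁻¹ := inv_pos.2 (one_pos.trans hd1)
  have ha : g (k a) ∈ closedBall a r := e1 ▸ hx
  have hγ := contr h hφ hκ (inv_lt_one_of_one_lt₀ hd1) hc hr' hr hu ha
  obtain ⟨x₀, h0, hfix⟩ := hφ.fixed hr0.le hγ ha
  refine ⟨_, _, x₀, _, c, hφ, hκ, hc, hγ, h0, hfix, ?_⟩
  have := over_wedge h1 h0
  rwa [show g (k x₀) = x₀ from hfix] at this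

/-- Two different branches are covered. -/
lemma ret_two (hL : Big L) (h : Dyn d F G) (hr' : 0 < r') (hr : r' < r)
    (hu : usup G a r' < usup G a r)
    (hfam : ∀ n, ∃ (ι : Type) (B : Finset ι) (k : ι → L → L) (α : ι → L), Fam F n a r B k α ∧
      d ^ n ≤ 2 * B.card) :
    ∃ (n m : ℕ) (ι : Type) (B : Finset ι) (k : ι → L → L) (α : ι → L), 0 < n ∧
      Fam F n a r B k α ∧ 1 < B.card ∧ ∀ i ∈ B, Av F m (k i a) (‖α i‖ * r) ∧
        ∃ x ∈ closedBall a r, wedge ((app F)^[m] ![x, 1]) ![k i a, 1] = 0 := by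
  classical
  have hr0 : 0 < r := hr'.trans hr
  have hd2 := h.two
  obtain ⟨C, hC0, hC⟩ := h.usup_bound hL
  have hμ := slp_pos hr' hr hu
  set μ := slp G a r r' with hμdef
  have hq : 0 < 16 * C / μ := by positivity
  have hρ : 0 < Real.exp (-(16 * C / μ)) := Real.exp_pos _
  have hρ1 : Real.exp (-(16 * C / μ)) < 1 := Real.exp_lt_one_iff.2 (neg_neg_of_pos hq)
  have hε : 2 * C / (- Real.log (Real.exp (-(16 * C / μ)))) = μ / 8 := by
    rw [Real.log_exp, neg_neg]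
    field_simp
    ring
  set ρ := Real.exp (-(16 * C / μ)) with hρdef
  obtain ⟨m, p, hp⟩ := (h.cover hL hr' hr hu hρ hρ1.le).exists
  obtain ⟨T, hT⟩ := exists_av hd2 h.hom h.nondeg m
  set T' := insert p (insert 0 T) with hT'
  obtain ⟨ι, B, k, α, hB, hcard⟩ := hfam (4 * (T'.card + 2))
  set n := 4 * (T'.card + 2) with hn
  have hbig : n < d ^ n := Nat.lt_pow_self (by omega)
  have hsub : ∀ (P : ι → Prop) [DecidablePred P], Fam F n a r (B.filter P) k α := fun P _ =>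
    ⟨fun i hi => hB.1 i (Finset.mem_filter.1 hi).1,
      fun i hi j hj => hB.2 i (Finset.mem_filter.1 hi).1 j (Finset.mem_filter.1 hj).1⟩
  have hd0 : (0 : ℝ) < (d : ℝ) ^ n := by positivity
  have hnum : ∀ N : ℕ, N * (((d : ℝ) ^ n)⁻¹ * μ) ≤ μ / 8 → 8 * N ≤ d ^ n := by
    intro N hN
    have h1 : (N : ℝ) * ((d : ℝ) ^ n)⁻¹ ≤ 1 / 8 := by
      refine le_of_mul_le_mul_right ?_ hμ
      linarith
    rw [← div_eq_mul_inv, div_le_iff₀ hd0] at h1
    have h2 : (8 : ℝ) * N ≤ (d : ℝ) ^ n := by linarith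
    exact_mod_cast h2
  set P1 : ι → Prop := fun i => closedBall (k i a) (‖α i‖ * r) ⊆ closedBall p ρ with hP1
  set P2 : ι → Prop := fun i => Disjoint (closedBall (k i a) (‖α i‖ * r)) (closedBall 0 ρ⁻¹)
    with hP2
  set P3 : ι → Prop := fun i => ∃ w ∈ closedBall a r, k i w ∈ T' with hP3
  have c1 := hnum _ (hε ▸ count_in hL h (hsub P1) hr' hr hρ hρ1 hC p
    fun i hi => (Finset.mem_filter.1 hi).2)
  have c2 := hnum _ (hε ▸ count_out hL h (hsub P2) hr' hr hρ hρ1 hC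
    fun i hi => (Finset.mem_filter.1 hi).2)
  have c3 : (B.filter P3).card ≤ T'.card := by
    have := card_meet hB.2 T'
    refine le_trans (Finset.card_le_card fun i hi => ?_) this
    exact Finset.mem_filter.2 ⟨(Finset.mem_filter.1 hi).1, (Finset.mem_filter.1 hi).2⟩
  have c4 : B.card ≤ (B.filter P1).card + (B.filter P2).card + (B.filter P3).card +
      (B.filter fun i => ¬ P1 i ∧ ¬ P2 i ∧ ¬ P3 i).card := by
    have hs : B ⊆ B.filter P1 ∪ B.filter P2 ∪ B.filter P3 ∪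
        B.filter fun i => ¬ P1 i ∧ ¬ P2 i ∧ ¬ P3 i := by
      intro i hi
      simp only [Finset.mem_union, Finset.mem_filter]
      by_cases q1 : P1 i
      · exact Or.inl (Or.inl (Or.inl ⟨hi, q1⟩))
      by_cases q2 : P2 i
      · exact Or.inl (Or.inl (Or.inr ⟨hi, q2⟩))
      by_cases q3 : P3 i
      · exact Or.inl (Or.inr ⟨hi, q3⟩)
      exact Or.inr ⟨hi, q1, q2, q3⟩
    refine (Finset.card_le_card hs).trans ((Finset.card_union_le _ _).trans ?_)
    refine Nat.add_le_add_right ((Finset.card_union_le _ _).trans ?_) _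
    exact Nat.add_le_add_right (Finset.card_union_le _ _) _
  refine ⟨n, m, ι, B.filter fun i => ¬ P1 i ∧ ¬ P2 i ∧ ¬ P3 i, k, α, by omega, hsub _,
    by omega, fun i hi => ?_⟩
  obtain ⟨hiB, n1, n2, n3⟩ := Finset.mem_filter.1 hi
  have hc := (hB.1 i hiB).1
  have hoff : ∀ w ∈ closedBall (k i a) (‖α i‖ * r), w ∉ T' := by
    intro w hw hwT
    obtain ⟨z, hz, rfl⟩ := exists_pre hc hr0.le hw
    exact n3 ⟨z, hz, hwT⟩
  refine ⟨hT _ _ fun w hw hwT => hoff w hw
    (Finset.mem_insert_of_mem (Finset.mem_insert_of_mem hwT)), hp _ ?_ ?_⟩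
  · by_contra hlt
    rw [not_le] at hlt
    obtain ⟨w, hw, hw'⟩ := Set.not_disjoint_iff.1 n2
    refine hoff 0 ?_ (Finset.mem_insert_of_mem (Finset.mem_insert_self _ _))
    rw [mem_closedBall] at hw hw' ⊢
    have h1 := IsUltrametricDist.dist_triangle_max (k i a) w 0
    rw [dist_zero_right] at h1
    rw [dist_comm, dist_zero_right]
    rcases le_max_iff.1 h1 with h2 | h2
    · rw [dist_comm] at h2
      exact h2.trans hw
    · exact absurd (h2.trans hw') (not_le.2 hlt)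
  · by_contra hle
    rw [not_lt] at hle
    have hp' : k i a ∈ closedBall p ρ := by rwa [mem_closedBall, dist_eq_norm]
    rcases le_total (‖α i‖ * r) ρ with h1 | h1
    · exact n1 (sub_disc hp' h1)
    · by_cases hs : closedBall (k i a) (‖α i‖ * r) ⊆ closedBall p ρ
      · exact n1 hs
      · refine hoff p ?_ (Finset.mem_insert_self _ _)
        rw [mem_closedBall, dist_comm, dist_eq_norm]
        exact hle.trans h1

/-- The core set. -/
lemma exists_core_set (hL : Big L) (h : Dyn d F G) (hr' : 0 < r') (hr : r' < r)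
    (hu : usup G a r' < usup G a r)
    (hfam : ∀ n, ∃ (ι : Type) (B : Finset ι) (k : ι → L → L) (α : ι → L), Fam F n a r B k α ∧
      d ^ n ≤ 2 * B.card) :
    ∃ (x₀ x₁ : L) (A : Set L), x₀ ≠ x₁ ∧ x₀ ∈ A ∧ x₁ ∈ A ∧ A.Infinite ∧ x₀ ∈ closedBall a r ∧
      x₁ ∈ closedBall a r ∧ A ⊆ closedBall x₀ ‖x₀ - x₁‖ ∧ ∀ x ∈ A, Pos G x := by
  have hr0 : 0 < r := hr'.trans hr
  obtain ⟨n, m, ι, B, k, α, hn, hB, hc, H⟩ := ret_two hL h hr' hr hu hfam
  obtain ⟨i, hi, j, hj, hij⟩ := Finset.one_lt_card.1 hc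
  obtain ⟨hAi, x, hx, ex⟩ := H i hi
  obtain ⟨hAj, y, hy, ey⟩ := H j hj
  obtain ⟨φ, γ, x₀, κ, c, hφ, hκ, hG, hγ, h0, hfix, e0⟩ :=
    ret_one hL h hr' hr hu hn (hB.1 i hi).1 (hB.1 i hi).2 hAi hx ex
  obtain ⟨φ', γ', x₁, κ', c', hφ', hκ', hG', hγ', h1, hfix', e1⟩ :=
    ret_one hL h hr' hr hu hn (hB.1 j hj).1 (hB.1 j hj).2 hAj hy ey
  have hne : x₀ ≠ x₁ := by
    rintro rfl
    rw [wedge_comm, neg_eq_zero] at e0
    have := wedge_trans (h.nondeg.iter_ne m (aff_ne_zero _)) e0 e1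
    rw [wedge_aff, sub_eq_zero] at this
    exact hB.2 i hi j hj hij _ h0 _ h0 this
  obtain ⟨A, a0, a1, a2, a3, a4⟩ := exists_set h hφ hκ hr0 hG hγ h0 h1 hne hfix
    (pos_fix hL h hφ hκ hG hr' hr hu hγ h0 hfix) (pos_fix hL h hφ' hκ' hG' hr' hr hu hγ' h1 hfix')
  exact ⟨x₀, x₁, A, hne, a0, a1, a2, h0, h1, a3, a4⟩

/-- A weak form of the Ramsey theorem. -/
lemma ramsey (R : ℕ → ℕ → Prop) (hsymm : ∀ i j, R i j → R j i) (hirr : ∀ i, ¬ R i i) (K : ℕ)
    (S : Set ℕ) (hS : S.Infinite)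
    (hK : ∀ t : Finset ℕ, (∀ i ∈ t, i ∈ S) → (∀ i ∈ t, ∀ j ∈ t, i ≠ j → R i j) → t.card ≤ K) :
    ∃ S' ⊆ S, S'.Infinite ∧ ∀ i ∈ S', {j | j ∈ S' ∧ R i j}.Finite := by
  induction K generalizing S with
  | zero =>
    obtain ⟨i, hi⟩ := hS.nonempty
    have := hK {i} (by simpa using hi) (by simp)
    simp at this
  | succ K ih =>
    by_cases H : ∀ i ∈ S, {j | j ∈ S ∧ R i j}.Finite
    · exact ⟨S, subset_rfl, hS, H⟩
    · push Not at H
      obtain ⟨i, hi, hinf⟩ := H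
      obtain ⟨S', h1, h2, h3⟩ := ih _ hinf fun t ht hR => by
        have hit : i ∉ t := fun hh => hirr i (ht i hh).2
        have := hK (insert i t) (fun j hj => by
          rcases Finset.mem_insert.1 hj with rfl | hj
          · exact hi
          · exact (ht j hj).1) (fun j hj l hl hjl => by
          rcases Finset.mem_insert.1 hj with rfl | hj' <;>
            rcases Finset.mem_insert.1 hl with rfl | hl'
          · exact absurd rfl hjl
          · exact (ht l hl').2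
          · exact hsymm _ _ (ht j hj').2
          · exact hR j hj' l hl' hjl)
        rw [Finset.card_insert_of_notMem hit] at this
        omega
      exact ⟨S', fun j hj => (h1 hj).1, h2, h3⟩

omit [CharZero L] [CompleteSpace L] in
/-- Only boundedly many disjoint discs have a given slope. -/
lemma card_le_of_slp (hL : Big L) (h : Dyn d F G) {μ : ℝ} (hμ : 0 < μ) (t : Finset ℕ)
    (b : ℕ → L) (s s' : ℕ → ℝ) (hs : ∀ i ∈ t, 0 < s' i ∧ s' i < s i)
    (hdis : ∀ i ∈ t, ∀ j ∈ t, i ≠ j → Disjoint (closedBall (b i) (s i)) (closedBall (b j) (s j)))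
    (he : ∀ i ∈ t, slp G (b i) (s i) (s' i) = μ) : t.card ≤ ⌊μ⁻¹⌋₊ := by
  have H : ∑ i ∈ t, slp G (b i) (s i) (s' i) ≤ 1 := h.mass_le_one hL t b s s' hs hdis
  rw [Finset.sum_congr rfl he, Finset.sum_const, nsmul_eq_mul] at H
  refine Nat.le_floor ?_
  rw [inv_eq_one_div, le_div_iff₀ hμ]
  exact H

omit [CharZero L] in
/-- A near translation that preserves G up to a constant fixes the points with mass. -/
lemma fix_of_near (hL : Big L) (h : Dyn d F G) {τ : L → L} {b γ : L} {s θ c : ℝ}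
    (hτ : Conf τ b s γ) (hγ : ‖γ‖ = 1) (hθ0 : 0 ≤ θ) (hθ : θ < 1)
    (hm : ∀ z ∈ closedBall b s, τ z ∈ closedBall b s)
    (hn : ∀ x ∈ closedBall b s, ∀ y ∈ closedBall b s, ‖τ x - τ y - (x - y)‖ ≤ θ * ‖x - y‖)
    (hG : ∀ z ∈ closedBall b s, G ![τ z, 1] = G ![z, 1] + c) {x : L} (hx : x ∈ closedBall b s)
    (hp : Pos G x) : τ x = x := by
  by_contra hne
  obtain ⟨β, hβ⟩ : ∃ β, β = τ x - x := ⟨_, rfl⟩
  have hβ0 : 0 < ‖β‖ := norm_pos_iff.2 (hβ ▸ sub_ne_zero.2 hne)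
  have hβs : ‖β‖ ≤ s := by
    have : τ x ∈ closedBall x s := sub_disc (a := x) (x := b) (by
      rw [mem_closedBall, dist_comm]; exact hx) le_rfl (hm x hx)
    rwa [mem_closedBall, dist_eq_norm, ← hβ] at this
  have hθβ : θ * ‖β‖ < ‖β‖ := by nlinarith
  have hnat : ∀ j : ℕ, ‖(j : L) * β‖ ≤ ‖β‖ := by
    intro j
    rw [norm_mul]
    exact mul_le_of_le_one_left hβ0.le (IsUltrametricDist.norm_natCast_le_one L j)
  have hmem : ∀ j : ℕ, τ^[j] x ∈ closedBall b s := by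
    intro j
    induction j with
    | zero => exact hx
    | succ j ih => rw [Function.iterate_succ_apply']; exact hm _ ih
  have herr : ∀ j : ℕ, ‖τ^[j] x - x - j * β‖ ≤ θ * ‖β‖ := by
    intro j
    induction j with
    | zero => simpa using mul_nonneg hθ0 hβ0.le
    | succ j ih =>
      have h1 : ‖τ^[j] x - x‖ ≤ ‖β‖ := by
        have e : τ^[j] x - x = (τ^[j] x - x - j * β) + j * β := by ring
        rw [e]
        exact (IsUltrametricDist.norm_add_le_max _ _).trans (max_le (ih.trans hθβ.le) (hnat j))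
      have h2 := (hn _ (hmem j) x hx).trans (mul_le_mul_of_nonneg_left h1 hθ0)
      have e : τ^[j + 1] x - x - ((j + 1 : ℕ) : L) * β =
          (τ (τ^[j] x) - τ x - (τ^[j] x - x)) + (τ^[j] x - x - j * β) := by
        rw [Function.iterate_succ_apply', hβ]
        push_cast
        ring
      rw [e]
      exact (IsUltrametricDist.norm_add_le_max _ _).trans (max_le h2 ih)
  have hfar : ∀ i j : ℕ, i < j → ‖β‖ ≤ ‖τ^[j] x - τ^[i] x‖ := by
    intro i j hij
    have e : ((j - i : ℕ) : L) * β = (τ^[j] x - τ^[i] x) +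
        ((τ^[i] x - x - i * β) + -(τ^[j] x - x - j * β)) := by
      rw [Nat.cast_sub hij.le]
      ring
    have h1 : ‖((j - i : ℕ) : L) * β‖ = ‖β‖ := by
      rw [norm_mul, hL.res _ (by omega), one_mul]
    have h2 : ‖(τ^[i] x - x - i * β) + -(τ^[j] x - x - j * β)‖ ≤ θ * ‖β‖ :=
      (IsUltrametricDist.norm_add_le_max _ _).trans (max_le (herr i) (by rw [norm_neg]; exact herr j))
    have h3 := IsUltrametricDist.norm_add_le_max (τ^[j] x - τ^[i] x)
      ((τ^[i] x - x - i * β) + -(τ^[j] x - x - j * β))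
    rw [← e, h1] at h3
    rcases le_max_iff.1 h3 with h4 | h4
    · exact h4
    · exact absurd (h4.trans h2) (not_le.2 hθβ)
  obtain ⟨s', hs', hs, hu⟩ := hp (‖β‖ / 2) (half_pos hβ0)
  have hsl : ∀ j : ℕ, slp G (τ^[j] x) (‖β‖ / 2) s' = slp G x (‖β‖ / 2) s' := by
    intro j
    induction j with
    | zero => rfl
    | succ j ih =>
      have := slp_conf (c := c) h hτ one_pos (fun z hz => by rw [hG z hz, one_mul]) (hmem j) hs' hs
        (by linarith)
      rw [hγ, one_mul, one_mul, one_mul] at this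
      rw [Function.iterate_succ_apply', this, ih]
  have hdis : ∀ i j : ℕ, i < j →
      Disjoint (closedBall (τ^[i] x) (‖β‖ / 2)) (closedBall (τ^[j] x) (‖β‖ / 2)) := by
    intro i j hij
    rw [Set.disjoint_left]
    intro y hy hy'
    rw [mem_closedBall] at hy hy'
    have h1 := IsUltrametricDist.dist_triangle_max (τ^[j] x) y (τ^[i] x)
    rw [dist_comm _ y, dist_eq_norm] at h1
    have h2 := (hfar i j hij).trans (h1.trans (max_le hy' hy))
    linarith
  have := card_le_of_slp hL h (slp_pos hs' hs hu) (Finset.range (⌊(slp G x (‖β‖ / 2) s')⁻¹⌋₊ + 1))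
    (fun j => τ^[j] x) (fun _ => ‖β‖ / 2) (fun _ => s') (fun _ _ => ⟨hs', hs⟩)
    (fun i _ j _ hij => by
      rcases lt_or_gt_of_ne hij with h1 | h1
      · exact hdis i j h1
      · exact (hdis j i h1).symm) fun j _ => hsl j
  rw [Finset.card_range] at this
  omega

end Pool.Agent.MP_3827f0_nt.H92.NARelAux
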