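import Pool.Agent.MP_3827f0_nt.H92.Esc
import Pool.Agent.MP_3827f0_nt.H92.NAMap

/-! The supremum of the escape rate on discs: mass inequalities and covering. -/

set_option autoImplicit false
set_option linter.unusedSectionVars false
set_option linter.unusedVariables false

namespace Pool.Agent.MP_3827f0_nt.H92

open Metric Filter Topology NAMapAux

variable {L : Type} [NormedField L] [IsUltrametricDist L] [IsAlgClosed L]
  {d : ℕ} {F : PM L} {G : V L → ℝ}

namespace NASupAux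

lemma norm_aff (z : L) : ‖(![z, 1] : V L)‖ = max 1 ‖z‖ := by
  rw [norm_V, max_comm]
  simp

lemma norm_le_of_mem {a z : L} {r : ℝ} (hz : z ∈ closedBall a r) : ‖z‖ ≤ max ‖a‖ r := by
  rw [mem_closedBall, dist_eq_norm] at hz
  have e : z = a + (z - a) := by ring
  rw [e]
  exact norm_add_le' (le_max_left _ _) (hz.trans (le_max_right _ _))

lemma log_aff_le {a z : L} {r : ℝ} (hz : z ∈ closedBall a r) :
    Real.log ‖(![z, 1] : V L)‖ ≤ Real.log (max 1 (max ‖a‖ r)) := by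
  rw [norm_aff]
  exact Real.log_le_log (lt_max_of_lt_left one_pos) (max_le_max le_rfl (norm_le_of_mem hz))

lemma le_of_forall_div_pow {x y K : ℝ} (hd : 2 ≤ d) (h : ∀ n : ℕ, x ≤ y + K / (d : ℝ) ^ n) :
    x ≤ y := by
  have h1 : (1 : ℝ) < d := by exact_mod_cast hd
  have h2 : Tendsto (fun n : ℕ => y + K / (d : ℝ) ^ n) atTop (𝓝 (y + 0)) :=
    tendsto_const_nhds.add
      (tendsto_const_nhds.div_atTop (tendsto_pow_atTop_atTop_of_one_lt h1))
  rw [add_zero] at h2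
  exact ge_of_tendsto' h2 h

lemma norm_iter (F : PM L) (n : ℕ) (z : L) : ‖(app F)^[n] ![z, 1]‖ =
    max ‖(deh (itr F n 0)).eval z‖ ‖(deh (itr F n 1)).eval z‖ := by
  rw [← app_itr, app_aff, norm_V]
  simp

end NASupAux

open NASupAux

lemma Dyn.le_usup (h : Dyn d F G) {a z : L} {r : ℝ} (hz : z ∈ closedBall a r) :
    G ![z, 1] ≤ usup G a r := by
  obtain ⟨C, hC⟩ := h.esc.1
  refine le_csSup ⟨Real.log (max 1 (max ‖a‖ r)) + C, ?_⟩ ⟨z, hz, rfl⟩
  rintro _ ⟨w, hw, rfl⟩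
  have h1 := (abs_le.1 (hC _ (aff_ne_zero w))).2
  have h2 := log_aff_le hw
  show G ![w, 1] ≤ _
  linarith

lemma usup_le {a : L} {r c : ℝ} (hr : 0 ≤ r) (hc : ∀ z ∈ closedBall a r, G ![z, 1] ≤ c) :
    usup G a r ≤ c := by
  refine csSup_le ⟨_, a, mem_closedBall_self hr, rfl⟩ ?_
  rintro _ ⟨w, hw, rfl⟩
  exact hc w hw

lemma usup_congr {a b : L} {r : ℝ} (hab : ‖a - b‖ ≤ r) : usup G a r = usup G b r := by
  unfold usup
  rw [IsUltrametricDist.closedBall_eq_of_mem (x := b) (y := a)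
    (by rwa [mem_closedBall, dist_eq_norm])]

lemma Dyn.usup_mono (h : Dyn d F G) (a : L) {r s : ℝ} (hr : 0 ≤ r) (hs : r ≤ s) :
    usup G a r ≤ usup G a s :=
  usup_le hr fun _ hz => h.le_usup (closedBall_subset_closedBall hs hz)

lemma Dyn.tendsto_usup (h : Dyn d F G) (a : L) :
    Tendsto (usup G a) (𝓝[>] 0) (𝓝 (G ![a, 1])) := by
  rw [Metric.tendsto_nhdsWithin_nhds]
  intro ε hε
  obtain ⟨δ, hδ, H⟩ := Metric.continuous_iff.1 h.continuous_aff a (ε / 2) (half_pos hε)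
  refine ⟨δ, hδ, fun r hr hrd => ?_⟩
  have hr0 : (0 : ℝ) < r := hr
  rw [Real.dist_eq, sub_zero, abs_of_pos hr0] at hrd
  have h1 : G ![a, 1] ≤ usup G a r := h.le_usup (mem_closedBall_self hr0.le)
  have h2 : usup G a r ≤ G ![a, 1] + ε / 2 := by
    refine usup_le hr0.le fun z hz => ?_
    have := H z (lt_of_le_of_lt hz hrd)
    rw [Real.dist_eq] at this
    linarith [(abs_lt.1 this).2]
  rw [Real.dist_eq, abs_lt]
  constructor <;> linarith

lemma Dyn.usup_bound (h : Dyn d F G) (hL : Big L) : ∃ C : ℝ, 0 < C ∧ ∀ (a : L) (r : ℝ), 0 < r →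
    |usup G a r - Real.log (max 1 (max ‖a‖ r))| ≤ C := by
  obtain ⟨C, hC⟩ := h.esc.1
  refine ⟨max C 1, lt_max_of_lt_right one_pos, fun a r hr => le_trans ?_ (le_max_left _ _)⟩
  have h1 : usup G a r ≤ Real.log (max 1 (max ‖a‖ r)) + C := by
    refine usup_le hr.le fun w hw => ?_
    have h1 := (abs_le.1 (hC _ (aff_ne_zero w))).2
    have h2 := log_aff_le hw
    linarith
  obtain ⟨z, hz, e⟩ : ∃ z ∈ closedBall a r, ‖z‖ = max ‖a‖ r := by
    rcases le_total r ‖a‖ with h2 | h2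
    · exact ⟨a, mem_closedBall_self hr.le, (max_eq_left h2).symm⟩
    · obtain ⟨π, hπ⟩ := hL.full r hr
      refine ⟨π, ?_, by rw [max_eq_right h2, hπ]⟩
      rw [mem_closedBall, dist_eq_norm]
      exact norm_sub_le' hπ.le h2
  have h2 := h.le_usup hz
  have h3 := (abs_le.1 (hC _ (aff_ne_zero z))).1
  rw [norm_aff, e] at h3
  rw [abs_le]
  constructor <;> linarith

/-- A disc on which G is not constant has a positive slope. -/
lemma Dyn.exists_slope (h : Dyn d F G) {a x y : L} {r : ℝ} (hr : 0 < r)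
    (hx : x ∈ closedBall a r) (hy : y ∈ closedBall a r) (hne : G ![x, 1] ≠ G ![y, 1]) :
    ∃ b ∈ closedBall a r, ∃ s, 0 < s ∧ s < r ∧ usup G b s < usup G b r := by
  have key : ∀ x ∈ closedBall a r, ∀ y ∈ closedBall a r, G ![x, 1] < G ![y, 1] →
      ∃ b ∈ closedBall a r, ∃ s, 0 < s ∧ s < r ∧ usup G b s < usup G b r := by
    intro x hx y hy hlt
    have h1 : G ![x, 1] < usup G x r := by
      rw [usup_congr (b := a) (by rwa [mem_closedBall, dist_eq_norm] at hx)]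
      exact hlt.trans_le (h.le_usup hy)
    obtain ⟨s, h2, h3⟩ :=
      (((h.tendsto_usup x).eventually (gt_mem_nhds h1)).and (Ioo_mem_nhdsGT hr)).exists
    exact ⟨x, hx, s, h3.1, h3.2, h2⟩
  rcases lt_or_gt_of_ne hne with h1 | h1
  · exact key x hx y hy h1
  · exact key y hy x hx h1

namespace NASupAux

/-- One polynomial approximates the supremum on finitely many discs. -/
lemma exists_poly (h : Dyn d F G) (hL : Big L) : ∃ C : ℝ, ∀ (n : ℕ) (T : Finset (L × ℝ)),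
    (∀ p ∈ T, 0 < p.2) → ∃ R : Polynomial L, R ≠ 0 ∧ R.natDegree ≤ d ^ n ∧ ∀ p ∈ T,
      |usup G p.1 p.2 - Real.log (gn R p.1 p.2) / (d : ℝ) ^ n| ≤ C / (d : ℝ) ^ n := by
  classical
  obtain ⟨C, -, hC⟩ := h.approx
  refine ⟨C, fun n T hT => ?_⟩
  have hd : (0 : ℝ) < (d : ℝ) ^ n := by
    have := h.two
    positivity
  obtain ⟨P, hP⟩ : ∃ P, P = deh (itr F n 0) := ⟨_, rfl⟩
  obtain ⟨Q, hQ⟩ : ∃ Q, Q = deh (itr F n 1) := ⟨_, rfl⟩
  have hPd : P.natDegree ≤ d ^ n := hP ▸ natDegree_deh_le (h.hom.itr n 0)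
  have hQd : Q.natDegree ≤ d ^ n := hQ ▸ natDegree_deh_le (h.hom.itr n 1)
  have hn : ∀ z : L, ‖(app F)^[n] ![z, 1]‖ = max ‖P.eval z‖ ‖Q.eval z‖ := by
    intro z
    rw [hP, hQ]
    exact norm_iter F n z
  have hpos : ∀ z : L, 0 < max ‖P.eval z‖ ‖Q.eval z‖ := by
    intro z
    rw [← hn]
    exact norm_pos_iff.2 (h.nondeg.iter_ne n (aff_ne_zero z))
  have hgen : ∀ p : L × ℝ, ∃ z : L, 0 < p.2 → ‖z - p.1‖ = p.2 ∧ ‖P.eval z‖ = gn P p.1 p.2 ∧
      ‖Q.eval z‖ = gn Q p.1 p.2 := by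
    intro p
    by_cases hp : 0 < p.2
    · obtain ⟨z, h1, h2⟩ := exists_eval_eq_gn hL {P, Q} p.1 hp
      exact ⟨z, fun _ => ⟨h1, h2 P (by simp), h2 Q (by simp)⟩⟩
    · exact ⟨0, fun h => absurd h hp⟩
  choose z hz using hgen
  obtain ⟨α, hα, hu⟩ := exists_generic_unit (insert ((0 : L), (1 : ℝ)) T)
    (fun p => P.eval (z p)) (fun p => Q.eval (z p))
  have hev : ∀ w, (P + Polynomial.C (-α) * Q).eval w = P.eval w - α * Q.eval w := by
    intro w
    simp only [Polynomial.eval_add, Polynomial.eval_mul, Polynomial.eval_C]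
    ring
  refine ⟨P + Polynomial.C (-α) * Q, fun h0 => ?_, (Polynomial.natDegree_add_le _ _).trans
    (max_le hPd ((Polynomial.natDegree_C_mul_le _ _).trans hQd)), fun p hp => ?_⟩
  · have h1 := hu _ (Finset.mem_insert_self _ _)
    have h2 := hpos (z (0, 1))
    rw [← h1, ← hev, h0] at h2
    simp at h2
  obtain ⟨h1, h2, h3⟩ := hz p (hT p hp)
  have h4 := hu p (Finset.mem_insert_of_mem hp)
  have hg : gn (P + Polynomial.C (-α) * Q) p.1 p.2 = max ‖P.eval (z p)‖ ‖Q.eval (z p)‖ := by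
    apply le_antisymm
    · refine (gn_add_le hL _ _ _ (hT p hp)).trans ?_
      rw [gn_C_mul, norm_neg, hα, one_mul, h2, h3]
    · rw [← h4, ← hev]
      exact norm_eval_le_gn _ h1.le
  rw [hg]
  have hup : usup G p.1 p.2 ≤
      Real.log (max ‖P.eval (z p)‖ ‖Q.eval (z p)‖) / (d : ℝ) ^ n + C / (d : ℝ) ^ n := by
    refine usup_le (hT p hp).le fun w hw => ?_
    have h5 := (abs_le.1 (hC n _ (aff_ne_zero w))).2
    rw [hn] at h5
    rw [mem_closedBall, dist_eq_norm] at hw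
    have h6 : Real.log (max ‖P.eval w‖ ‖Q.eval w‖) ≤
        Real.log (max ‖P.eval (z p)‖ ‖Q.eval (z p)‖) := by
      apply Real.log_le_log (hpos w)
      rw [h2, h3]
      exact max_le_max (norm_eval_le_gn _ hw) (norm_eval_le_gn _ hw)
    have h7 := div_le_div_of_nonneg_right h6 hd.le
    linarith
  have hlo : G ![z p, 1] ≤ usup G p.1 p.2 :=
    h.le_usup (by rw [mem_closedBall, dist_eq_norm]; exact h1.le)
  have h5 := (abs_le.1 (hC n _ (aff_ne_zero (z p)))).1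
  rw [hn] at h5
  rw [abs_le]
  constructor <;> linarith

lemma slope_le {R : Polynomial L} (hR : R ≠ 0) {a : L} {r r' u u' e D : ℝ} (hD : 0 < D)
    (hr' : 0 < r') (hr : r' < r) (h1 : |u - Real.log (gn R a r) / D| ≤ e / D)
    (h2 : |u' - Real.log (gn R a r') / D| ≤ e / D) :
    (u - u') / (Real.log r - Real.log r') ≤
      (cnt R a r : ℝ) / D + 2 * e / (Real.log r - Real.log r') / D := by
  have hl : 0 < Real.log r - Real.log r' := sub_pos.2 (Real.log_lt_log hr' hr)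
  have h3 := div_le_div_of_nonneg_right (log_gn_le hR a hr' hr.le) hD.le
  rw [sub_div] at h3
  have h4 := (abs_le.1 h1).2
  have h5 := (abs_le.1 h2).1
  rw [div_le_iff₀ hl]
  have e1 : ((cnt R a r : ℝ) / D + 2 * e / (Real.log r - Real.log r') / D) *
      (Real.log r - Real.log r') =
      (cnt R a r : ℝ) * (Real.log r - Real.log r') / D + 2 * (e / D) := by
    field_simp
  rw [e1]
  linarith

lemma le_slope {R : Polynomial L} (hR : R ≠ 0) {a : L} {r r' u u' e D : ℝ} (hD : 0 < D)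
    (hr' : 0 < r') (hr : r' < r) (h1 : |u - Real.log (gn R a r) / D| ≤ e / D)
    (h2 : |u' - Real.log (gn R a r') / D| ≤ e / D) :
    (cnt R a r' : ℝ) / D ≤
      (u - u') / (Real.log r - Real.log r') + 2 * e / (Real.log r - Real.log r') / D := by
  have hl : 0 < Real.log r - Real.log r' := sub_pos.2 (Real.log_lt_log hr' hr)
  have h3 := div_le_div_of_nonneg_right (le_log_gn hR a hr' hr.le) hD.le
  rw [sub_div] at h3
  have h4 := (abs_le.1 h1).1
  have h5 := (abs_le.1 h2).2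
  apply le_of_mul_le_mul_right _ hl
  have e1 : ((u - u') / (Real.log r - Real.log r') + 2 * e / (Real.log r - Real.log r') / D) *
      (Real.log r - Real.log r') = u - u' + 2 * (e / D) := by
    field_simp
  have e2 : (cnt R a r' : ℝ) / D * (Real.log r - Real.log r') =
      (cnt R a r' : ℝ) * (Real.log r - Real.log r') / D := by ring
  rw [e1, e2]
  linarith

/-- The sum of the slopes is bounded by a count of roots. -/
lemma exists_count (h : Dyn d F G) (hL : Big L) {ι : Type} (s : Finset ι) (a : ι → L)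
    (r r' : ι → ℝ) (hr : ∀ i ∈ s, 0 < r' i ∧ r' i < r i)
    (hdis : ∀ i ∈ s, ∀ j ∈ s, i ≠ j → Disjoint (closedBall (a i) (r i)) (closedBall (a j) (r j)))
    {b : L} {t t' : ℝ} (ht : 0 < t) (htt : t < t')
    (hb : ∀ i ∈ s, closedBall (a i) (r i) ⊆ closedBall b t) :
    ∃ K K' : ℝ, ∀ n : ℕ, ∃ c : ℝ, c ≤ 1 ∧
      ∑ i ∈ s, (usup G (a i) (r i) - usup G (a i) (r' i)) / (Real.log (r i) - Real.log (r' i)) ≤
        c + K / (d : ℝ) ^ n ∧
      c ≤ (usup G b t' - usup G b t) / (Real.log t' - Real.log t) + K' / (d : ℝ) ^ n := by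
  classical
  obtain ⟨C, hC⟩ := exists_poly h hL
  refine ⟨∑ i ∈ s, 2 * C / (Real.log (r i) - Real.log (r' i)),
    2 * C / (Real.log t' - Real.log t), fun n => ?_⟩
  have hd : (0 : ℝ) < (d : ℝ) ^ n := by
    have := h.two
    positivity
  obtain ⟨R, hR, hdeg, H⟩ := hC n (insert (b, t) (insert (b, t')
    ((s.image fun i => (a i, r i)) ∪ (s.image fun i => (a i, r' i))))) (by
      intro p hp
      simp only [Finset.mem_insert, Finset.mem_union, Finset.mem_image] at hp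
      rcases hp with rfl | rfl | ⟨i, hi, rfl⟩ | ⟨i, hi, rfl⟩
      · exact ht
      · exact ht.trans htt
      · exact (hr i hi).1.trans (hr i hi).2
      · exact (hr i hi).1)
  refine ⟨(cnt R b t : ℝ) / (d : ℝ) ^ n, ?_, ?_, ?_⟩
  · rw [div_le_one hd]
    exact_mod_cast (cnt_le R b t).trans hdeg
  · have h1 : ∀ i ∈ s, (usup G (a i) (r i) - usup G (a i) (r' i)) /
        (Real.log (r i) - Real.log (r' i)) ≤ (cnt R (a i) (r i) : ℝ) / (d : ℝ) ^ n +
          2 * C / (Real.log (r i) - Real.log (r' i)) / (d : ℝ) ^ n := by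
      intro i hi
      refine slope_le hR hd (hr i hi).1 (hr i hi).2 (H (a i, r i) ?_) (H (a i, r' i) ?_)
      · exact Finset.mem_insert_of_mem (Finset.mem_insert_of_mem
          (Finset.mem_union_left _ (Finset.mem_image_of_mem _ hi)))
      · exact Finset.mem_insert_of_mem (Finset.mem_insert_of_mem
          (Finset.mem_union_right _ (Finset.mem_image_of_mem _ hi)))
    refine (Finset.sum_le_sum h1).trans ?_
    rw [Finset.sum_add_distrib, ← Finset.sum_div, ← Finset.sum_div]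
    have h2 : (∑ i ∈ s, (cnt R (a i) (r i) : ℝ)) ≤ cnt R b t := by
      exact_mod_cast sum_cnt_le s R a r hdis hb
    gcongr
  · exact le_slope hR hd ht htt
      (H (b, t') (Finset.mem_insert_of_mem (Finset.mem_insert_self _ _)))
      (H (b, t) (Finset.mem_insert_self _ _))

end NASupAux

/-- Total mass at most one. -/
theorem Dyn.mass_le_one (h : Dyn d F G) (hL : Big L) {ι : Type} (s : Finset ι) (a : ι → L)
    (r r' : ι → ℝ) (hr : ∀ i ∈ s, 0 < r' i ∧ r' i < r i)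
    (hdis : ∀ i ∈ s, ∀ j ∈ s, i ≠ j → Disjoint (closedBall (a i) (r i)) (closedBall (a j) (r j))) :
    ∑ i ∈ s, (usup G (a i) (r i) - usup G (a i) (r' i)) / (Real.log (r i) - Real.log (r' i)) ≤ 1 := by
  have hnn : ∀ i ∈ s, 0 ≤ max ‖a i‖ (r i) := fun i _ => le_max_of_le_left (norm_nonneg _)
  have h0 : 0 ≤ ∑ i ∈ s, max ‖a i‖ (r i) := Finset.sum_nonneg hnn
  obtain ⟨K, K', H⟩ := exists_count h hL s a r r' hr hdis (b := 0)
    (t := ∑ i ∈ s, max ‖a i‖ (r i) + 1) (t' := ∑ i ∈ s, max ‖a i‖ (r i) + 2) (by linarith)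
    (by linarith) (by
      intro i hi z hz
      rw [mem_closedBall_zero_iff]
      have h1 := norm_le_of_mem hz
      have h2 := Finset.single_le_sum hnn hi
      linarith)
  refine le_of_forall_div_pow (K := K) h.two fun n => ?_
  obtain ⟨c, h1, h2, -⟩ := H n
  linarith

/-- The mass of disjoint discs inside a disc. -/
theorem Dyn.mass_le (h : Dyn d F G) (hL : Big L) {ι : Type} (s : Finset ι) (a : ι → L)
    (r r' : ι → ℝ) (hr : ∀ i ∈ s, 0 < r' i ∧ r' i < r i)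
    (hdis : ∀ i ∈ s, ∀ j ∈ s, i ≠ j → Disjoint (closedBall (a i) (r i)) (closedBall (a j) (r j)))
    {b : L} {t t' : ℝ} (ht : 0 < t) (htt : t < t')
    (hb : ∀ i ∈ s, closedBall (a i) (r i) ⊆ closedBall b t) :
    ∑ i ∈ s, (usup G (a i) (r i) - usup G (a i) (r' i)) / (Real.log (r i) - Real.log (r' i)) ≤
      (usup G b t' - usup G b t) / (Real.log t' - Real.log t) := by
  obtain ⟨K, K', H⟩ := exists_count h hL s a r r' hr hdis ht htt hb
  refine le_of_forall_div_pow (K := K + K') h.two fun n => ?_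
  obtain ⟨c, -, h2, h3⟩ := H n
  rw [add_div]
  linarith

namespace NASupAux

lemma far_le {p q y : L} {ρ : ℝ} (hρ : 0 < ρ) (hρ1 : ρ ≤ 1) (hy : ‖y‖ ≤ ρ⁻¹)
    (hf : ρ < ‖y - p / q‖) : ρ ^ 2 * max ‖p‖ ‖q‖ ≤ ‖p - y * q‖ := by
  have hN : 0 ≤ max ‖p‖ ‖q‖ := le_max_of_le_left (norm_nonneg _)
  rcases hN.eq_or_lt with h0 | hN'
  · rw [← h0, mul_zero]
    exact norm_nonneg _
  rcases le_or_gt (ρ * max ‖p‖ ‖q‖) ‖q‖ with h1 | h1
  · have hq : q ≠ 0 := by
      rw [← norm_pos_iff]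
      exact (mul_pos hρ hN').trans_le h1
    have e : p - y * q = - ((y - p / q) * q) := by
      field_simp
      ring
    rw [e, norm_neg, norm_mul]
    calc ρ ^ 2 * max ‖p‖ ‖q‖ = ρ * (ρ * max ‖p‖ ‖q‖) := by ring
      _ ≤ _ := mul_le_mul hf.le h1 (by positivity) (norm_nonneg _)
  · have h2 : ‖q‖ < max ‖p‖ ‖q‖ := h1.trans_le (mul_le_of_le_one_left hN hρ1)
    have h3 : max ‖p‖ ‖q‖ = ‖p‖ := by
      rcases le_total ‖p‖ ‖q‖ with h | h
      · rw [max_eq_right h] at h2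
        exact absurd h2 (lt_irrefl _)
      · exact max_eq_left h
    rw [h3] at h1 ⊢
    have h4 : ‖y * q‖ < ‖p‖ := by
      rw [norm_mul]
      calc ‖y‖ * ‖q‖ ≤ ρ⁻¹ * ‖q‖ := mul_le_mul_of_nonneg_right hy (norm_nonneg _)
        _ < ρ⁻¹ * (ρ * ‖p‖) := mul_lt_mul_of_pos_left h1 (inv_pos.2 hρ)
        _ = ‖p‖ := by field_simp
    rw [norm_sub_eq_left h4]
    exact mul_le_of_le_one_left (norm_nonneg _) (pow_le_one₀ hρ.le hρ1)

lemma near_le {p q y : L} {ρ : ℝ} (hρ : 0 < ρ) (hρ1 : ρ ≤ 1) (hy : ‖y‖ ≤ ρ⁻¹) :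
    ‖p - y * q‖ ≤ ρ⁻¹ * max ‖p‖ ‖q‖ := by
  have hN : 0 ≤ max ‖p‖ ‖q‖ := le_max_of_le_left (norm_nonneg _)
  have h1 : 1 ≤ ρ⁻¹ := (one_le_inv₀ hρ).2 hρ1
  refine norm_sub_le' ((le_max_left _ _).trans (le_mul_of_one_le_left hN h1)) ?_
  rw [norm_mul]
  exact mul_le_mul hy (le_max_right _ _) (norm_nonneg _) (zero_le_one.trans h1)

end NASupAux

/-- The images of a disc with mass cover everything but two small discs. -/
theorem Dyn.cover (h : Dyn d F G) (hL : Big L) {a : L} {r r' ρ : ℝ} (hr' : 0 < r') (hr : r' < r)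
    (hpos : usup G a r' < usup G a r) (hρ : 0 < ρ) (hρ1 : ρ ≤ 1) :
    ∀ᶠ n in atTop, ∃ p : L, ∀ y : L, ‖y‖ ≤ ρ⁻¹ → ρ < ‖y - p‖ →
      ∃ x ∈ closedBall a r, wedge ((app F)^[n] ![x, 1]) ![y, 1] = 0 := by
  obtain ⟨x, hx, hxa⟩ : ∃ x ∈ closedBall a r, G ![a, 1] < G ![x, 1] := by
    by_contra hcon
    have h1 : usup G a r ≤ G ![a, 1] :=
      usup_le (hr'.trans hr).le fun z hz => not_lt.1 fun hlt => hcon ⟨z, hz, hlt⟩
    have h2 : G ![a, 1] ≤ usup G a r' := h.le_usup (mem_closedBall_self hr'.le)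
    linarith
  obtain ⟨C, -, hC⟩ := h.approx
  have hd1 : (1 : ℝ) < d := by exact_mod_cast h.two
  have hlim : Tendsto (fun n : ℕ => (2 * C - 3 * Real.log ρ) / (d : ℝ) ^ n) atTop (𝓝 0) :=
    tendsto_const_nhds.div_atTop (tendsto_pow_atTop_atTop_of_one_lt hd1)
  filter_upwards [hlim.eventually (gt_mem_nhds (sub_pos.2 hxa))] with n hn
  have hd : (0 : ℝ) < (d : ℝ) ^ n := by positivity
  obtain ⟨P, hP⟩ : ∃ P, P = deh (H92.itr F n 0) := ⟨_, rfl⟩
  obtain ⟨Q, hQ⟩ : ∃ Q, Q = deh (H92.itr F n 1) := ⟨_, rfl⟩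
  have hnm : ∀ z : L, ‖(app F)^[n] ![z, 1]‖ = max ‖P.eval z‖ ‖Q.eval z‖ := by
    intro z
    rw [hP, hQ]
    exact norm_iter F n z
  have hp : ∀ z : L, 0 < max ‖P.eval z‖ ‖Q.eval z‖ := by
    intro z
    rw [← hnm]
    exact norm_pos_iff.2 (h.nondeg.iter_ne n (aff_ne_zero z))
  refine ⟨P.eval x / Q.eval x, fun y hy hf => ?_⟩
  by_contra hcon
  have hev : ∀ w, (P - Polynomial.C y * Q).eval w = P.eval w - y * Q.eval w := by
    intro w
    simp only [Polynomial.eval_sub, Polynomial.eval_mul, Polynomial.eval_C]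
  have hno : ∀ w ∈ closedBall a r, (P - Polynomial.C y * Q).eval w ≠ 0 := by
    intro w hw h0
    refine hcon ⟨w, hw, ?_⟩
    rw [← app_itr, wedge_app_aff, ← hP, ← hQ, ← hev, h0]
  have h1 := norm_eval_const hx hno
  rw [hev, hev] at h1
  have h2 := far_le hρ hρ1 hy hf
  have h3 := near_le (p := P.eval a) (q := Q.eval a) hρ hρ1 hy
  have h4 : ρ ^ 2 * max ‖P.eval x‖ ‖Q.eval x‖ ≤ ρ⁻¹ * max ‖P.eval a‖ ‖Q.eval a‖ := by
    linarith
  have h5 := Real.log_le_log (mul_pos (pow_pos hρ 2) (hp x)) h4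
  rw [Real.log_mul (pow_pos hρ 2).ne' (hp x).ne', Real.log_mul (inv_pos.2 hρ).ne' (hp a).ne',
    Real.log_pow, Real.log_inv] at h5
  have h6 := (abs_le.1 (hC n _ (aff_ne_zero x))).2
  have h7 := (abs_le.1 (hC n _ (aff_ne_zero a))).1
  rw [hnm] at h6 h7
  have h8 : Real.log (max ‖P.eval x‖ ‖Q.eval x‖) - Real.log (max ‖P.eval a‖ ‖Q.eval a‖) ≤
      - (3 * Real.log ρ) := by
    push_cast at h5
    linarith
  have h9 := div_le_div_of_nonneg_right h8 hd.le
  rw [sub_div, neg_div] at h9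
  rw [sub_div, mul_div_assoc] at hn
  linarith

/-- Transport of the supremum along a near similarity. -/
lemma Dyn.usup_conf [CompleteSpace L] (h : Dyn d F G) {k : L → L} {a α : L} {r κ c : ℝ}
    (hk : Conf k a r α) (hκ : 0 < κ) (he : ∀ z ∈ closedBall a r, G ![k z, 1] = κ * G ![z, 1] + c)
    {x : L} (hx : x ∈ closedBall a r) {s : ℝ} (hs : 0 ≤ s) (hsr : s ≤ r) :
    usup G (k x) (‖α‖ * s) = κ * usup G x s + c := by
  have him := hk.image hx hsr
  have hsub := ball_subset hx hsr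
  apply le_antisymm
  · refine usup_le (mul_nonneg (norm_nonneg _) hs) fun w hw => ?_
    rw [← him] at hw
    obtain ⟨z, hz, rfl⟩ := hw
    rw [he z (hsub hz)]
    have := mul_le_mul_of_nonneg_left (h.le_usup hz) hκ.le
    linarith
  · have h1 : usup G x s ≤ (usup G (k x) (‖α‖ * s) - c) / κ := by
      refine usup_le hs fun z hz => ?_
      have h2 : G ![k z, 1] ≤ usup G (k x) (‖α‖ * s) :=
        h.le_usup (him ▸ Set.mem_image_of_mem k hz)
      rw [he z (hsub hz)] at h2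
      rw [le_div_iff₀ hκ]
      linarith
    rw [le_div_iff₀ hκ] at h1
    linarith

end Pool.Agent.MP_3827f0_nt.H92
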