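import Pool.Agent.MP_3827f0_nt.H92.PotB

/-! The ultrametric and the complex smoothed kernels. -/

set_option autoImplicit false

namespace Pool.Agent.MP_3827f0_nt.H92.PotAux

open Finset Real

section Ultra

variable {K : Type} [Field K] {v : AbsoluteValue K ℝ}

lemma Ker.mono {B ε θ B' ε' θ' : ℝ} {k : V K → V K → ℝ} (h : Ker v B ε θ k) (hB : B ≤ B')
    (hε : ε ≤ ε') (hθ : θ ≤ θ') : Ker v B' ε' θ' k where
  symm := h.symm
  cpd := h.cpd
  le := h.le
  bd X Y hX hY := (h.bd X Y hX hY).trans hB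
  gen X hX n Y hY := by
    obtain ⟨W, h1, h2, h3⟩ := h.gen X hX n Y hY
    refine ⟨W, h1.trans (mul_le_mul_of_nonneg_right hε (nrm_nonneg _ _)), h2, h3.trans ?_⟩
    have := mul_le_mul_of_nonneg_left hθ n.cast_nonneg
    linarith

lemma add_eq_of_lt (hv : IsNonarchimedean v) {x y : K} (h : v x < v y) : v (x + y) = v y := by
  refine le_antisymm ((hv x y).trans (max_le h.le le_rfl)) ?_
  have h1 := hv (x + y) (-x)
  rw [add_neg_cancel_comm, v.map_neg] at h1
  exact (le_max_iff.1 h1).resolve_right (not_le.2 h)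

lemma exists_generic [IsAlgClosed K] (hv : IsNonarchimedean v) (T : Finset K) :
    ∃ u : K, v u = 1 ∧ ∀ c ∈ T, max 1 (v c) ≤ v (u - c) := by
  classical
  let S := insert 0 (T.filter fun c => v c ≤ 1)
  have hS : ∀ c ∈ S, v c ≤ 1 := fun c hc => by
    rcases mem_insert.1 hc with rfl | hc
    · simp
    · exact (mem_filter.1 hc).2
  have hne : S.Nonempty := insert_nonempty _ _
  obtain ⟨u, hu⟩ := IsAlgClosed.exists_root
    (∏ c ∈ S, (Polynomial.X - Polynomial.C c) - Polynomial.C (1 : K)) (by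
      have h1 : (∏ c ∈ S, (Polynomial.X - Polynomial.C c)).degree = (S.card : WithBot ℕ) := by
        rw [Polynomial.degree_prod]; simp
      have h2 : 0 < (∏ c ∈ S, (Polynomial.X - Polynomial.C c)).degree := by
        rw [h1]; exact_mod_cast hne.card_pos
      rw [Polynomial.degree_sub_C h2]
      exact h2.ne')
  have h1 : ∏ c ∈ S, v (u - c) = ∏ _c ∈ S, (1 : ℝ) := by
    rw [← map_prod]
    have : ∏ c ∈ S, (u - c) = 1 := by
      simpa [Polynomial.eval_prod, sub_eq_zero] using hu
    simp [this]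
  have h2 : v u ≤ 1 := by
    by_contra hc
    refine absurd h1 (prod_lt_prod_of_nonempty (fun _ _ => one_pos) (fun c hc' => ?_) hne).ne'
    rw [sub_eq_neg_add, add_eq_of_lt hv (by rw [v.map_neg]; linarith [hS c hc'])]
    linarith
  have h3 : ∀ c ∈ S, v (u - c) ≤ 1 := fun c hc => by
    rw [sub_eq_add_neg]
    exact (hv _ _).trans (max_le h2 (by rw [v.map_neg]; exact hS c hc))
  have h4 : ∀ c ∈ S, 1 ≤ v (u - c) := fun c hc => by
    by_contra hlt
    refine absurd h1 (prod_lt_prod (fun c hc => ?_) h3 ⟨c, hc, not_le.1 hlt⟩).ne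
    refine lt_of_le_of_ne (v.nonneg _) fun h0 => ?_
    rw [prod_eq_zero hc h0.symm] at h1
    simp at h1
  refine ⟨u, le_antisymm h2 (by simpa using h4 0 (mem_insert_self _ _)), fun c hc => ?_⟩
  by_cases h : v c ≤ 1
  · rw [max_eq_left h]
    exact h4 c (mem_insert_of_mem (mem_filter.2 ⟨hc, h⟩))
  · rw [max_eq_right (not_le.1 h).le, sub_eq_add_neg,
      add_eq_of_lt hv (by rw [v.map_neg]; linarith), v.map_neg]

lemma exists_generic' [IsAlgClosed K] (hv : IsNonarchimedean v) {n : ℕ} (a b : Fin n → K) :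
    ∃ u : K, v u = 1 ∧ ∀ j, max (v (a j)) (v (b j)) ≤ v (a j + u * b j) := by
  classical
  obtain ⟨u, hu, h⟩ := exists_generic hv (univ.image fun j => -(a j / b j))
  refine ⟨u, hu, fun j => ?_⟩
  by_cases hb : b j = 0
  · simp [hb]
  · have h1 := mul_le_mul_of_nonneg_left (h _ (mem_image_of_mem _ (mem_univ j))) (v.nonneg (b j))
    rw [mul_max_of_nonneg _ _ (v.nonneg _), ← v.map_mul, ← v.map_mul, mul_one] at h1
    have e1 : b j * -(a j / b j) = -a j := by field_simp
    have e2 : b j * (u - -(a j / b j)) = a j + u * b j := by field_simp; ring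
    rwa [e1, e2, v.map_neg, max_comm] at h1

lemma exists_compl (v : AbsoluteValue K ℝ) (X : V K) :
    ∃ X', nrm v X' = nrm v X ∧ v (wedge X X') = nrm v X * nrm v X := by
  rcases le_total (v (X 0)) (v (X 1)) with h | h
  · refine ⟨![X 1, 0], ?_, ?_⟩ <;> simp [nrm, wedge, max_eq_right h]
  · refine ⟨![0, X 0], ?_, ?_⟩ <;> simp [nrm, wedge, max_eq_left h]

/-- The ultrametric kernel. -/
noncomputable def kU (v : AbsoluteValue K ℝ) (r : ℝ) (X Y : V K) : ℝ :=
  - log (max (v (wedge X Y)) (r * (nrm v X * nrm v Y)))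

lemma kU_eq {r : ℝ} (hr : 0 < r) {X Y : V K} (hX : X ≠ 0) (hY : Y ≠ 0) :
    kU v r X Y = - log (max (v (wedge X Y) / (nrm v X * nrm v Y)) r) + - log (nrm v X) +
      - log (nrm v Y) := by
  have h1 := nrm_pos v hX
  have h2 := nrm_pos v hY
  have e : max (v (wedge X Y)) (r * (nrm v X * nrm v Y)) =
      max (v (wedge X Y) / (nrm v X * nrm v Y)) r * (nrm v X * nrm v Y) := by
    rw [max_mul_of_nonneg _ _ (by positivity), div_mul_cancel₀ _ (by positivity)]
  rw [kU, e, log_mul (lt_max_of_lt_right hr).ne' (by positivity), log_mul h1.ne' h2.ne']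
  ring

lemma ker_ultra [IsAlgClosed K] (hv : IsNonarchimedean v) {ϖ : K} (hϖ0 : ϖ ≠ 0) (hϖ : v ϖ ≤ 1) :
    Ker v (- log (v ϖ)) (v ϖ) 0 (kU v (v ϖ)) := by
  have hr := v.pos hϖ0
  have hP : Place v 0 := Or.inl ⟨rfl, hv⟩
  have hle : ∀ X Y : V K, X ≠ 0 → Y ≠ 0 → max (v (wedge X Y) / (nrm v X * nrm v Y)) (v ϖ) ≤ 1 := by
    intro X Y hX hY
    refine max_le ((div_le_one (mul_pos (nrm_pos v hX) (nrm_pos v hY))).2 ?_) hϖ
    simpa using hP.wedge_le X Y
  refine ⟨fun X Y => by rw [kU, kU, v_wedge_comm, mul_comm (nrm v X)], fun I _ P c hP0 hc => ?_,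
    fun X Y h => neg_le_neg (log_le_log (v.pos h) (le_max_left _ _)), fun X Y hX hY => ?_,
    fun X hX n Y hY => ?_⟩
  · refine cpd_of_psd (psd_ultra
      (fun i j => - log (max (v (wedge (P i) (P j)) / (nrm v (P i) * nrm v (P j))) (v ϖ)))
      (fun i j => ?_) (fun i j => by rw [v_wedge_comm, mul_comm]) fun i j l => ?_)
      (fun i => - log (nrm v (P i))) (fun i j => kU_eq hr (hP0 i) (hP0 j)) c hc
    · exact neg_nonneg.2 (log_nonpos (le_max_of_le_right hr.le) (hle _ _ (hP0 i) (hP0 j)))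
    · have h1 := three hP (P i) (P j) (P l)
      have p1 := nrm_pos v (hP0 i)
      have p2 := nrm_pos v (hP0 j)
      have p3 := nrm_pos v (hP0 l)
      rw [exp_zero, one_mul, v_wedge_comm v (P l)] at h1
      rcases le_max_iff.1 h1 with h2 | h2
      · refine (min_le_left _ _).trans (neg_le_neg (log_le_log (lt_max_of_lt_right hr)
          (max_le_max ?_ le_rfl)))
        rw [div_le_div_iff₀ (by positivity) (by positivity)]
        nlinarith
      · refine (min_le_right _ _).trans (neg_le_neg (log_le_log (lt_max_of_lt_right hr)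
          (max_le_max ?_ le_rfl)))
        rw [div_le_div_iff₀ (by positivity) (by positivity)]
        nlinarith
  · rw [kU_eq hr hX hY, abs_le]
    have h1 := log_nonpos (le_max_of_le_right hr.le) (hle _ _ hX hY)
    have h2 := log_le_log hr (le_max_right (v (wedge X Y) / (nrm v X * nrm v Y)) (v ϖ))
    constructor <;> linarith
  · obtain ⟨X', h1, h2⟩ := exists_compl v X
    obtain ⟨u, hu, h3⟩ := exists_generic' hv (fun j => wedge X (Y j)) fun j => ϖ * wedge X' (Y j)
    have p1 := nrm_pos v hX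
    have h4 : ∀ j, max (v (wedge X (Y j))) (v ϖ * (nrm v X * nrm v (Y j))) ≤
        v (wedge (X + (u * ϖ) • X') (Y j)) := fun j => by
      rw [wedge_add_left, wedge_smul_left, mul_assoc]
      refine le_trans (max_le (le_max_left _ _) ?_) (h3 j)
      have h5 := three hP X (Y j) X'
      rw [exp_zero, one_mul, v_wedge_comm v X', h2, h1, v_wedge_comm v (Y j),
        ← max_mul_of_nonneg _ _ p1.le, mul_right_comm] at h5
      rcases le_max_iff.1 (le_of_mul_le_mul_right h5 p1) with h6 | h6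
      · exact le_max_of_le_left ((mul_le_of_le_one_left
          (mul_nonneg p1.le (nrm_nonneg _ _)) hϖ).trans h6)
      · rw [v.map_mul]
        exact le_max_of_le_right (mul_le_mul_of_nonneg_left h6 hr.le)
    have h5 : ∀ j, 0 < max (v (wedge X (Y j))) (v ϖ * (nrm v X * nrm v (Y j))) := fun j =>
      lt_max_of_lt_right (mul_pos hr (mul_pos p1 (nrm_pos v (hY j))))
    refine ⟨X + (u * ϖ) • X', ?_, fun j => v.pos_iff.1 ((h5 j).trans_le (h4 j)), ?_⟩
    · rw [add_sub_cancel_left, nrm_smul, v.map_mul, hu, one_mul, h1]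
    · rw [mul_zero, add_zero, ← sum_neg_distrib]
      exact sum_le_sum fun j _ => neg_le_neg (log_le_log (h5 j) (h4 j))

end Ultra

section Cx

open Complex (normSq)
open ComplexConjugate

lemma exists_circle {n : ℕ} (a b : Fin n → ℂ) :
    ∃ ζ : ℂ, ‖ζ‖ = 1 ∧ ∏ j, max ‖a j‖ ‖b j‖ ≤ ∏ j, ‖a j + ζ * b j‖ := by
  let p : Fin n → ℂ := fun j => if ‖b j‖ ≤ ‖a j‖ then a j else conj (b j)
  let q : Fin n → ℂ := fun j => if ‖b j‖ ≤ ‖a j‖ then b j else conj (a j)
  let f : ℂ → ℂ := fun ζ => ∏ j, (p j + ζ * q j)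
  have hf : Differentiable ℂ f := by unfold f; fun_prop
  obtain ⟨ζ, h1, h2⟩ := Complex.exists_mem_frontier_isMaxOn_norm
    (Metric.isBounded_ball (x := (0 : ℂ)) (r := 1)) ⟨0, by simp⟩ hf.diffContOnCl
  rw [frontier_ball _ one_ne_zero, mem_sphere_zero_iff_norm] at h1
  have h3 : ‖f 0‖ ≤ ‖f ζ‖ := h2 (subset_closure (by simp))
  refine ⟨ζ, h1, ?_⟩
  simp only [f, norm_prod, zero_mul, add_zero] at h3
  convert h3 using 2 with j _ j _
  · simp only [p]
    split_ifs with h
    · exact max_eq_left h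
    · rw [max_eq_right (not_le.1 h).le, Complex.norm_conj]
  · simp only [p, q]
    split_ifs with h
    · rfl
    · have e : conj (b j) + ζ * conj (a j) = ζ * conj (a j + ζ * b j) := by
        have : ζ * conj ζ = 1 := by rw [Complex.mul_conj, Complex.normSq_eq_norm_sq, h1]; simp
        rw [map_add, map_mul]
        linear_combination (-conj (b j)) * this
      rw [e, norm_mul, h1, one_mul, Complex.norm_conj]

/-- The orthogonal vector. -/
noncomputable def perp (X : V ℂ) : V ℂ := ![-conj (X 1), conj (X 0)]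

/-- The squared Euclidean norm. -/
noncomputable def n2 (X : V ℂ) : ℝ := normSq (X 0) + normSq (X 1)

lemma lagrange (X Y : V ℂ) : normSq (wedge X Y) + normSq (wedge (perp X) Y) = n2 X * n2 Y := by
  simp [wedge, perp, n2, Complex.normSq_apply]
  ring

lemma gram (X Y : V ℂ) : normSq (wedge (perp X) Y) =
    normSq (X 0) * normSq (Y 0) + normSq (X 1) * normSq (Y 1) +
      2 * ((X 0 * conj (X 1)).re * (Y 0 * conj (Y 1)).re) +
      2 * ((X 0 * conj (X 1)).im * (Y 0 * conj (Y 1)).im) := by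
  simp [wedge, perp, Complex.normSq_apply]
  ring

lemma n2_bd (X : V ℂ) : nrm (nv ℂ) X ^ 2 ≤ n2 X ∧ n2 X ≤ 2 * nrm (nv ℂ) X ^ 2 := by
  simp only [nrm, nv_apply, n2, Complex.normSq_eq_norm_sq]
  have h0 := norm_nonneg (X 0)
  have h1 := norm_nonneg (X 1)
  rcases le_total ‖X 0‖ ‖X 1‖ with h | h
  · rw [max_eq_right h]; constructor <;> nlinarith
  · rw [max_eq_left h]; constructor <;> nlinarith

lemma n2_pos {X : V ℂ} (hX : X ≠ 0) : 0 < n2 X :=
  (pow_pos (nrm_pos _ hX) 2).trans_le (n2_bd X).1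

/-- The complex kernel. -/
noncomputable def kC (r : ℝ) (X Y : V ℂ) : ℝ :=
  - (1 / 2) * log (normSq (wedge X Y) + r ^ 2 * normSq (wedge (perp X) Y))

lemma ker_complex {r T : ℝ} (hr : 0 < r) (hr1 : r ≤ 1) (hT : 0 < T) :
    Ker (nv ℂ) (1 - log r) (T * r) (1 / (2 * T ^ 2)) (kC r) := by
  have hr2 : r ^ 2 ≤ 1 := pow_le_one₀ hr.le hr1
  have hr3 : 0 < r ^ 2 := by positivity
  have hb : ∀ X Y : V ℂ, r ^ 2 * (n2 X * n2 Y) ≤
      normSq (wedge X Y) + r ^ 2 * normSq (wedge (perp X) Y) ∧
      normSq (wedge X Y) + r ^ 2 * normSq (wedge (perp X) Y) ≤ n2 X * n2 Y := by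
    intro X Y
    rw [← lagrange]
    have h1 := Complex.normSq_nonneg (wedge X Y)
    have h2 := Complex.normSq_nonneg (wedge (perp X) Y)
    constructor <;> nlinarith
  refine ⟨fun X Y => ?_, fun I _ P c hP0 hc => ?_, fun X Y h => ?_, fun X Y hX hY => ?_,
    fun X hX n Y hY => ?_⟩
  · rw [kC, kC, gram, gram, wedge_comm, Complex.normSq_neg]
    ring_nf
  · let t : I → I → ℝ := fun i j =>
      (1 - r ^ 2) * (normSq (wedge (perp (P i)) (P j)) / (n2 (P i) * n2 (P j)))
    have ht1 : ∀ i j, |t i j| < 1 := fun i j => by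
      have p1 := mul_pos (n2_pos (hP0 i)) (n2_pos (hP0 j))
      have h1 := Complex.normSq_nonneg (wedge (P i) (P j))
      have h2 := Complex.normSq_nonneg (wedge (perp (P i)) (P j))
      have h3 : normSq (wedge (perp (P i)) (P j)) / (n2 (P i) * n2 (P j)) ≤ 1 := by
        rw [div_le_one p1, ← lagrange]; linarith
      have h4 : 0 ≤ normSq (wedge (perp (P i)) (P j)) / (n2 (P i) * n2 (P j)) := by positivity
      rw [abs_of_nonneg (mul_nonneg (by linarith) h4)]
      nlinarith
    have h1 := (psd_log t (fun k hk => ?_) ht1).const_mul (a := 1 / 2) (by norm_num)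
    · refine cpd_of_psd h1 (fun i => - (1 / 2) * log (n2 (P i))) (fun i j => ?_) c hc
      have p1 := n2_pos (hP0 i)
      have p2 := n2_pos (hP0 j)
      have e : normSq (wedge (P i) (P j)) + r ^ 2 * normSq (wedge (perp (P i)) (P j)) =
          (1 - t i j) * (n2 (P i) * n2 (P j)) := by
        have := lagrange (P i) (P j)
        simp only [t]
        field_simp
        linarith
      have p3 : 0 < 1 - t i j := by have := (abs_lt.1 (ht1 i j)).2; linarith
      rw [kC, e, log_mul p3.ne' (by positivity), log_mul p1.ne' p2.ne']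
      ring
    · have h2 := ((((hk.mul_rank fun i => normSq (P i 0) / n2 (P i)).add
        (hk.mul_rank fun i => normSq (P i 1) / n2 (P i))).add
        ((hk.mul_rank fun i => (P i 0 * conj (P i 1)).re / n2 (P i)).const_mul zero_le_two)).add
        ((hk.mul_rank fun i => (P i 0 * conj (P i 1)).im / n2 (P i)).const_mul
          zero_le_two)).const_mul (a := 1 - r ^ 2) (by linarith)
      refine h2.congr fun i j => ?_
      simp only [t, gram]
      ring
  · have p1 : 0 < normSq (wedge X Y) := Complex.normSq_pos.2 h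
    have h2 := Complex.normSq_nonneg (wedge (perp X) Y)
    have h3 := log_le_log p1 (le_add_of_nonneg_right (mul_nonneg hr3.le h2))
    rw [kC, nv_apply]
    nth_rewrite 1 [Complex.normSq_eq_norm_sq] at h3
    rw [log_pow] at h3
    push_cast at h3
    linarith
  · have p1 := nrm_pos (nv ℂ) hX
    have p2 := nrm_pos (nv ℂ) hY
    have q1 := n2_bd X
    have q2 := n2_bd Y
    have h1 : (r * (nrm (nv ℂ) X * nrm (nv ℂ) Y)) ^ 2 ≤
        normSq (wedge X Y) + r ^ 2 * normSq (wedge (perp X) Y) := by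
      refine le_trans ?_ (hb X Y).1
      rw [mul_pow, mul_pow]
      exact mul_le_mul_of_nonneg_left (mul_le_mul q1.1 q2.1 (by positivity) (n2_pos hX).le) hr3.le
    have h2 : normSq (wedge X Y) + r ^ 2 * normSq (wedge (perp X) Y) ≤
        (2 * (nrm (nv ℂ) X * nrm (nv ℂ) Y)) ^ 2 :=
      (hb X Y).2.trans ((mul_le_mul q1.2 q2.2 (n2_pos hY).le (by positivity)).trans_eq (by ring))
    have h3 := log_le_log (by positivity) h1
    have h4 := log_le_log (lt_of_lt_of_le (by positivity) h1) h2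
    rw [log_pow, log_mul (by positivity) (by positivity), log_mul p1.ne' p2.ne'] at h3 h4
    have h5 := log_nonpos hr.le hr1
    have h6 : log 2 ≤ 1 := by have := log_le_sub_one_of_pos two_pos; linarith
    push_cast at h3 h4
    rw [kC, abs_le]
    constructor <;> linarith
  · obtain ⟨ζ, hζ, h1⟩ := exists_circle (fun j => wedge X (Y j))
      fun j => (T * r : ℝ) * wedge (perp X) (Y j)
    have e : ∀ j, wedge (X + (ζ * (T * r : ℝ)) • perp X) (Y j) =
        wedge X (Y j) + ζ * ((T * r : ℝ) * wedge (perp X) (Y j)) := fun j => by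
      rw [wedge_add_left, wedge_smul_left, mul_assoc]
    have h2 : ∀ j, normSq (wedge X (Y j)) + r ^ 2 * normSq (wedge (perp X) (Y j)) ≤
        (1 + 1 / T ^ 2) * max ‖wedge X (Y j)‖ ‖(T * r : ℝ) * wedge (perp X) (Y j)‖ ^ 2 := by
      intro j
      have a1 := pow_le_pow_left₀ (norm_nonneg _)
        (le_max_left ‖wedge X (Y j)‖ ‖(T * r : ℝ) * wedge (perp X) (Y j)‖) 2
      have a2 := pow_le_pow_left₀ (norm_nonneg _)
        (le_max_right ‖wedge X (Y j)‖ ‖(T * r : ℝ) * wedge (perp X) (Y j)‖) 2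
      have a3 : r ^ 2 * normSq (wedge (perp X) (Y j)) =
          1 / T ^ 2 * ‖(T * r : ℝ) * wedge (perp X) (Y j)‖ ^ 2 := by
        rw [norm_mul, Complex.norm_real, mul_pow, Real.norm_eq_abs, sq_abs,
          Complex.normSq_eq_norm_sq]
        field_simp
      rw [a3, Complex.normSq_eq_norm_sq, add_mul, one_mul]
      exact add_le_add a1 (mul_le_mul_of_nonneg_left a2 (by positivity))
    have h3 : ∀ j, 0 < normSq (wedge X (Y j)) + r ^ 2 * normSq (wedge (perp X) (Y j)) := fun j =>
      lt_of_lt_of_le (mul_pos hr3 (mul_pos (n2_pos hX) (n2_pos (hY j)))) (hb X (Y j)).1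
    have h4 : ∀ j, 0 < max ‖wedge X (Y j)‖ ‖(T * r : ℝ) * wedge (perp X) (Y j)‖ := fun j => by
      refine lt_of_le_of_ne (le_max_of_le_left (norm_nonneg _)) fun h0 => ?_
      have := (h3 j).trans_le (h2 j)
      rw [← h0] at this
      simp at this
    have h5 := prod_pos fun j (_ : j ∈ univ) => h4 j
    have h6 : ∀ j, ‖wedge X (Y j) + ζ * ((T * r : ℝ) * wedge (perp X) (Y j))‖ ≠ 0 := fun j =>
      prod_ne_zero_iff.1 (h5.trans_le h1).ne' j (mem_univ j)
    refine ⟨X + (ζ * (T * r : ℝ)) • perp X, ?_, fun j => ?_, ?_⟩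
    · rw [add_sub_cancel_left, nrm_smul, nv_apply, norm_mul, hζ, one_mul, Complex.norm_real,
        Real.norm_of_nonneg (by positivity)]
      simp [nrm, perp, max_comm]
    · rw [e]; exact norm_ne_zero_iff.1 (h6 j)
    · have h7 := log_le_log h5 h1
      rw [log_prod fun j _ => (h4 j).ne', log_prod fun j _ => h6 j] at h7
      simp only [e, nv_apply]
      have h8 : (n : ℝ) * (1 / (2 * T ^ 2)) = ∑ _j : Fin n, 1 / (2 * T ^ 2) := by
        rw [sum_const, card_univ, Fintype.card_fin, nsmul_eq_mul]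
      rw [h8, ← sum_add_distrib]
      refine (neg_le_neg h7).trans ?_
      rw [← sum_neg_distrib]
      refine sum_le_sum fun j _ => ?_
      have h9 := log_le_log (h3 j) (h2 j)
      rw [log_mul (by positivity) (pow_pos (h4 j) 2).ne', log_pow] at h9
      have h10 := log_le_sub_one_of_pos (show 0 < 1 + 1 / T ^ 2 by positivity)
      have h11 : 1 / (2 * T ^ 2) = 1 / 2 * (1 / T ^ 2) := by field_simp
      rw [kC, h11, Nat.cast_ofNat] at *
      linarith

end Cx

end Pool.Agent.MP_3827f0_nt.H92.PotAux
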