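import Pool.Agent.MP_3827f0_nt.H92.Esc
import Pool.Agent.MP_3827f0_nt.H92.PotC

/-! Elementary potential theory: lower bound for the energy and equidistribution. -/

set_option autoImplicit false

namespace Pool.Agent.MP_3827f0_nt.H92

namespace PotAux

open Finset Real Filter Topology

lemma two_le_rho (d l : ℕ) : 2 ≤ rho d l := by
  have := mul_nonneg l.cast_nonneg (lip_pos d).le
  unfold rho; linarith

lemma le_rho (d l : ℕ) : (l : ℝ) ≤ rho d l := by
  have h1 : 1 ≤ lip d := by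
    have := cst_pos d
    have : (0 : ℝ) ≤ d := d.cast_nonneg
    unfold lip; linarith
  have := mul_le_mul_of_nonneg_left h1 l.cast_nonneg
  unfold rho; linarith

lemma ker_complex' (d l : ℕ) (hd : 2 ≤ d) {w : ℝ} (hw : 1 ≤ w) :
    Ker (nv ℂ) (3 * rho d l * w) (exp (-(rho d l * w))) (w / (d : ℝ) ^ l)
      (kC (exp (-(2 * (rho d l * w))))) := by
  have h1 := two_le_rho d l
  have h2 : rho d l ≤ rho d l * w := le_mul_of_one_le_right (by linarith) hw
  refine (ker_complex (exp_pos _) (exp_le_one_iff.2 (by linarith))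
    (exp_pos (rho d l * w))).mono ?_ ?_ ?_
  · rw [log_exp]; linarith
  · rw [← exp_add]; exact le_of_eq (by ring_nf)
  · have h3 : (d : ℝ) ^ l ≤ exp (rho d l * w) := by
      have h4 : (d : ℝ) ≤ exp d := by linarith [add_one_le_exp (d : ℝ)]
      refine (pow_le_pow_left₀ d.cast_nonneg h4 l).trans ?_
      rw [← exp_nat_mul, exp_le_exp]
      have h5 : (d : ℝ) ≤ lip d := by
        have := cst_pos d
        have : (0 : ℝ) ≤ d := d.cast_nonneg
        unfold lip; linarith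
      have := mul_le_mul_of_nonneg_left h5 l.cast_nonneg
      unfold rho at h2 ⊢; linarith
    have h4 : 1 ≤ exp (rho d l * w) := one_le_exp (by linarith)
    refine div_le_div₀ (by linarith) hw (by positivity) ?_
    nlinarith

variable {K : Type} [Field K] {v : AbsoluteValue K ℝ} {a : ℝ} {d : ℕ} {F G : PM K}

lemma ker_ultra' [IsAlgClosed K] (hv : IsNonarchimedean v) (d l : ℕ) {w : ℝ} (hw : 0 < w) {x : K}
    (h1 : exp (-(2 * (rho d l * w))) ≤ v x) (h2 : v x ≤ exp (-(rho d l * w))) :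
    Ker v (3 * rho d l * w) (exp (-(rho d l * w))) (w / (d : ℝ) ^ l) (kU v (v x)) := by
  have h3 := mul_pos (two_pos.trans_le (two_le_rho d l)) hw
  refine (ker_ultra hv (v.pos_iff.1 ((exp_pos _).trans_le h1))
    (h2.trans (exp_le_one_iff.2 (by linarith)))).mono ?_ h2 (by positivity)
  have := log_le_log (exp_pos _) h1
  rw [log_exp] at this
  linarith

lemma exists_val [IsAlgClosed K] {x : K} (hx : 1 < v x) {c : ℝ} (hc : 0 < c) :
    ∃ y, exp (-(2 * c)) ≤ v y ∧ v y ≤ exp (-c) := by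
  have hL := log_pos hx
  obtain ⟨n, hn⟩ := exists_nat_gt (log (v x) / c)
  have hn0 : (0 : ℝ) < n := (div_pos hL hc).trans hn
  obtain ⟨y, hy⟩ := IsAlgClosed.exists_pow_nat_eq x⁻¹ (n := n) (by exact_mod_cast hn0)
  have h1 : (n : ℝ) * log (v y) = - log (v x) := by rw [← log_pow, ← map_pow, hy, map_inv₀, log_inv]
  set s := - log (v y) with hs
  rw [div_lt_iff₀ hc] at hn
  have hs0 : 0 < s := by nlinarith
  have hs1 : s ≤ c := by nlinarith
  have hy0 : 0 < v y := by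
    refine lt_of_le_of_ne (v.nonneg y) fun h => ?_
    rw [hs, ← h] at hs0
    simp at hs0
  have h2 := Nat.le_ceil (c / s)
  have h3 := Nat.ceil_lt_add_one (div_pos hc hs0).le
  rw [div_le_iff₀ hs0] at h2
  have h4 := mul_lt_mul_of_pos_right h3 hs0
  rw [add_mul, div_mul_cancel₀ _ hs0.ne'] at h4
  refine ⟨y ^ ⌈c / s⌉₊, ?_, ?_⟩ <;>
    rw [map_pow, ← exp_log hy0, ← exp_nat_mul, exp_le_exp, ← neg_eq_iff_eq_neg.2 hs] <;> linarith

lemma exists_big (h : wt v d F ≠ 0) : ∃ x, 1 < v x := by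
  by_contra hc
  push Not at hc
  refine h (sum_eq_zero fun i _ => sum_eq_zero fun k _ => ?_)
  exact (posLog_eq_zero_iff _).2 (by rw [abs_of_nonneg (v.nonneg _)]; exact hc _)

lemma osc_gen [IsAlgClosed K] (h : Place v a) (hd : 2 ≤ d) (hF : Normal d F) (hG : Normal d G)
    {w : ℝ} (hwF : wt v d F + a ≤ w) (hwG : wt v d G + a ≤ w) (hw0 : 0 < w) {X : ℕ → V K}
    (hX : Sep X) (hs : Small v d F G X) (k : ℕ → V K → V K → ℝ)
    (hk : ∀ l, Ker v (3 * rho d l * w) (exp (-(rho d l * w))) (w / (d : ℝ) ^ l) (k l))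
    {ε : ℝ} (hε : 0 < ε) (l₀ : ℕ) : ∃ l, l₀ ≤ l ∧ ∃ N : ℕ, 0 < N ∧ ∀ H, H = F ∨ H = G →
      ∀ Z Z', Z ≠ 0 → Z' ≠ 0 → ((∑ j ∈ range N, k l Z (X j)) / N + esc v d H Z) -
        ((∑ j ∈ range N, k l Z' (X j)) / N + esc v d H Z') ≤ ε := by
  have hc := cst_pos d
  have hd1 : (1 : ℝ) < d := by exact_mod_cast hd
  have t0 := tendsto_pow_const_div_const_pow_of_one_lt 0 hd1
  have t1 := tendsto_pow_const_div_const_pow_of_one_lt 1 hd1
  have t2 : Tendsto (fun l : ℕ => (2 * cst d + 3) * w / (d : ℝ) ^ l) atTop (𝓝 0) := by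
    have := t0.const_mul ((2 * cst d + 3) * w)
    rw [mul_zero] at this
    exact this.congr fun l => by ring
  have t3 : Tendsto (fun l : ℕ => (2 * cst d + 3) * w / (d : ℝ) ^ l *
      (3 * rho d l * w + 2 * cst d * w)) atTop (𝓝 0) := by
    have := (t1.const_mul ((2 * cst d + 3) * w * (3 * lip d * w))).add
      (t2.mul_const (6 * w + 2 * cst d * w))
    rw [mul_zero, zero_mul, add_zero] at this
    exact this.congr fun l => by unfold rho; ring
  obtain ⟨l, h1, h2, h3⟩ := ((eventually_ge_atTop l₀).and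
    ((t2.eventually_le_const (show 0 < ε / 8 by positivity)).and
      (t3.eventually_le_const (show 0 < ε ^ 2 / 100 by positivity)))).exists
  set B := 3 * rho d l * w + 2 * cst d * w with hB
  set e := (2 * cst d + 3) * w / (d : ℝ) ^ l with he
  have hB0 : 0 < B := by have := two_le_rho d l; positivity
  set t := ε / (8 * B) with ht
  have ht0 : 0 < t := by positivity
  have hBt : B * t = ε / 8 := by rw [ht]; field_simp
  obtain ⟨N₀, hN₀⟩ := exists_nat_ge (B / (t * ε / 4))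
  obtain ⟨N, hN, hs1, hs2⟩ := hs (t * ε / 4) (by positivity) (max 2 N₀)
  have hN2 : 2 ≤ N := (le_max_left _ _).trans hN
  have hN0 : (0 : ℝ) < N := by positivity
  refine ⟨l, h1, N, by omega, fun H hH Z Z' hZ hZ' => ?_⟩
  have hH' : Normal d H ∧ wt v d H + a ≤ w ∧ en v d H N X ≤ t * ε / 4 * (N : ℝ) ^ 2 := by
    rcases hH with rfl | rfl
    exacts [⟨hF, hwF, hs1⟩, ⟨hG, hwG, hs2⟩]
  have key := main h hd hH'.1 hH'.2.1 hw0 l (by positivity) (hk l) hN2
    (fun j _ i _ hji => hX j i hji) ht0.le hZ hZ'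
  have e1 : w / (d : ℝ) ^ l + (2 * cst d + 2) * w / (d : ℝ) ^ l = e := by rw [he]; ring
  rw [e1, ← hB] at key
  have b1 : en v d H N X / (N : ℝ) ^ 2 ≤ t * ε / 4 := (div_le_iff₀ (by positivity)).2 hH'.2.2
  have b2 : B / N ≤ t * ε / 4 := by
    rw [div_le_iff₀ hN0, mul_comm, ← div_le_iff₀ (by positivity)]
    exact hN₀.trans (by exact_mod_cast (le_max_right _ _).trans hN)
  have b3 : 3 * e ≤ t * ε / 4 := by
    refine le_of_mul_le_mul_right ?_ hB0
    have : t * ε / 4 * B = B * t * ε / 4 := by ring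
    rw [this, hBt]
    nlinarith [sq_nonneg ε]
  have b4 : t * e ≤ t * (ε / 8) := mul_le_mul_of_nonneg_left h2 ht0.le
  have b5 : B * t ^ 2 = t * (ε / 8) := by rw [← hBt]; ring
  refine le_of_mul_le_mul_left ?_ (show 0 < 2 * t by positivity)
  nlinarith [mul_pos ht0 hε]

lemma osc_of [IsAlgClosed K] (h : Place v a) (hd : 2 ≤ d) (hF : Normal d F) (hG : Normal d G)
    {w : ℝ} (hwF : wt v d F + a ≤ w) (hwG : wt v d G + a ≤ w) (hw0 : 0 < w) {X : ℕ → V K}
    (hX : Sep X) (hs : Small v d F G X) (k : ℕ → V K → V K → ℝ)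
    (hk : ∀ l, Ker v (3 * rho d l * w) (exp (-(rho d l * w))) (w / (d : ℝ) ^ l) (k l)) :
    ∃ c : ℝ, ∀ Z, Z ≠ 0 → esc v d G Z = esc v d F Z + c := by
  have key : ∀ Z Z', Z ≠ 0 → Z' ≠ 0 → esc v d G Z - esc v d F Z ≤ esc v d G Z' - esc v d F Z' := by
    intro Z Z' hZ hZ'
    refine le_of_forall_pos_le_add fun ε hε => ?_
    obtain ⟨l, -, N, -, h1⟩ := osc_gen h hd hF hG hwF hwG hw0 hX hs k hk (half_pos hε) 0
    have h2 := h1 G (Or.inr rfl) Z Z' hZ hZ'
    have h3 := h1 F (Or.inl rfl) Z' Z hZ' hZ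
    linarith
  refine ⟨esc v d G ![0, 1] - esc v d F ![0, 1], fun Z hZ => ?_⟩
  have h1 := key Z _ hZ (aff_ne_zero 0)
  have h2 := key _ Z (aff_ne_zero 0) hZ
  linarith

end PotAux

open PotAux Finset Real

/-- Uniform lower bound for the energy of N points at any place. -/
theorem en_lower {d : ℕ} (hd : 2 ≤ d) {η : ℝ} (hη : 0 < η) : ∃ N₀ : ℕ, ∀ N, N₀ ≤ N →
    ∀ (K : Type) [Field K] [IsAlgClosed K] (v : AbsoluteValue K ℝ) (a : ℝ) (F : PM K) (w : ℝ)
      (X : ℕ → V K), Place v a → Normal d F → wt v d F + a ≤ w →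
      (∀ j < N, ∀ k < N, j ≠ k → wedge (X j) (X k) ≠ 0) →
      - (η * w * (N : ℝ) ^ 2) ≤ en v d F N X := by
  have hc := cst_pos d
  have hd1 : (1 : ℝ) < d := by exact_mod_cast hd
  obtain ⟨l, hl⟩ := pow_unbounded_of_one_lt (3 * (2 * cst d + 3) / (η / 2)) hd1
  obtain ⟨N₀, hN₀⟩ := exists_nat_ge ((3 * rho d l + 2 * cst d) / (η / 2))
  refine ⟨max 2 N₀, fun N hN => ?_⟩
  have hN2 : 2 ≤ N := (le_max_left _ _).trans hN
  have hN0 : (0 : ℝ) < N := by positivity
  have core : ∀ (K : Type) [Field K] [IsAlgClosed K] (v : AbsoluteValue K ℝ) (a : ℝ) (F : PM K)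
      (w : ℝ) (X : ℕ → V K) (k : V K → V K → ℝ), Place v a → Normal d F → wt v d F + a ≤ w →
      0 < w → Ker v (3 * rho d l * w) (exp (-(rho d l * w))) (w / (d : ℝ) ^ l) k →
      (∀ j < N, ∀ k < N, j ≠ k → wedge (X j) (X k) ≠ 0) →
      - (η * w * (N : ℝ) ^ 2) ≤ en v d F N X := by
    intro K _ _ v a F w X k h hF hw hw0 hk hX
    have key := main h hd hF hw hw0 l (by positivity) hk hN2 hX le_rfl (aff_ne_zero 0)
      (aff_ne_zero 0)
    have b1 : (3 * rho d l * w + 2 * cst d * w) / N ≤ η / 2 * w := by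
      rw [div_le_iff₀ (by positivity)] at hN₀
      have h1 : (N₀ : ℝ) ≤ N := by exact_mod_cast (le_max_right _ _).trans hN
      have h2 := mul_le_mul_of_nonneg_right
        (hN₀.trans (mul_le_mul_of_nonneg_right h1 (by positivity))) hw0.le
      rw [div_le_iff₀ hN0]
      linarith
    have b2 : 3 * (w / (d : ℝ) ^ l + (2 * cst d + 2) * w / (d : ℝ) ^ l) ≤ η / 2 * w := by
      rw [div_lt_iff₀ (by positivity)] at hl
      have h2 := mul_le_mul_of_nonneg_right hl.le hw0.le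
      rw [← add_div, ← mul_div_assoc, div_le_iff₀ (by positivity)]
      linarith
    have b3 : -(η * w) ≤ en v d F N X / (N : ℝ) ^ 2 := by linarith
    rw [le_div_iff₀ (by positivity)] at b3
    linarith
  intro K _ _ v a F w X h hF hw hX
  have hw0 := wt_nonneg v d F
  rcases h with ⟨rfl, hv⟩ | ⟨rfl, ι, hι⟩
  · by_cases h0 : wt v d F = 0
    · refine le_trans (neg_nonpos.2 (mul_nonneg (mul_nonneg hη.le (by linarith)) (sq_nonneg _)))
        (sum_nonneg fun j hj => sum_nonneg fun k hk => ?_)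
      split_ifs with hjk
      · exact le_rfl
      · simpa using grn_ge (w := 0) (Or.inl ⟨rfl, hv⟩) hd hF (by rw [h0, add_zero])
          (hX j (mem_range.1 hj) k (mem_range.1 hk) hjk)
    · have hw1 : 0 < w := by have := lt_of_le_of_ne hw0 (Ne.symm h0); linarith
      obtain ⟨x, hx⟩ := exists_big h0
      obtain ⟨y, h1, h2⟩ := exists_val hx (mul_pos (two_pos.trans_le (two_le_rho d l)) hw1)
      exact core K v 0 F w X _ (Or.inl ⟨rfl, hv⟩) hF hw hw1 (ker_ultra' hv d l hw1 h1 h2) hX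
  · have hv : ∀ x, nv ℂ (ι x) = v x := fun x => by rw [nv_apply, hι]
    rw [← en_mapF ι hv]
    refine core ℂ (nv ℂ) 1 (mapF ι F) w _ _ place_nv_complex (hF.mapF (by omega) ι)
      (by rwa [wt_mapF ι hv]) (by linarith) (ker_complex' d l hd (by linarith))
      fun j hj k hk hjk => ?_
    rw [wedge_mapV]
    exact (map_ne_zero ι).2 (hX j hj k hk hjk)

/-- Common points of small energy force equal escape rates, complex case. -/
theorem osc_complex {d : ℕ} (hd : 2 ≤ d) {F G : PM ℂ} (hF : Normal d F) (hG : Normal d G)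
    {X : ℕ → V ℂ} (hX : Sep X) (h : Small (nv ℂ) d F G X) :
    ∃ c : ℝ, ∀ Z, Z ≠ 0 → esc (nv ℂ) d G Z = esc (nv ℂ) d F Z + c := by
  have h1 := wt_nonneg (nv ℂ) d F
  have h2 := wt_nonneg (nv ℂ) d G
  exact osc_of (w := wt (nv ℂ) d F + wt (nv ℂ) d G + 1) place_nv_complex hd hF hG (by linarith)
    (by linarith) (by linarith) hX h _ fun l => ker_complex' d l hd (by linarith)

variable {L : Type} [NormedField L] [IsUltrametricDist L] [IsAlgClosed L]

lemma PotAux.ker_big (hL : Big L) (d l : ℕ) {w : ℝ} (hw : 0 < w) :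
    Ker (nv L) (3 * rho d l * w) (exp (-(rho d l * w))) (w / (d : ℝ) ^ l)
      (kU (nv L) (exp (-(rho d l * w)))) := by
  obtain ⟨x, hx⟩ := hL.full _ (exp_pos (-(rho d l * w)))
  have hv : IsNonarchimedean (nv L) := fun x y => by
    simp only [nv_apply]; exact IsUltrametricDist.norm_add_le_max x y
  have h1 := mul_pos (two_pos.trans_le (two_le_rho d l)) hw
  have := ker_ultra' hv d l hw (x := x) (by rw [nv_apply, hx, exp_le_exp]; linarith)
    (by rw [nv_apply, hx])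
  rwa [nv_apply, hx] at this

/-- Common points of small energy force equal escape rates, ultrametric case. -/
theorem osc_ultra (hL : Big L) {d : ℕ} (hd : 2 ≤ d) {F G : PM L} (hF : Normal d F)
    (hG : Normal d G) {X : ℕ → V L} (hX : Sep X) (h : Small (nv L) d F G X) :
    ∃ c : ℝ, ∀ Z, Z ≠ 0 → esc (nv L) d G Z = esc (nv L) d F Z + c := by
  have h1 := wt_nonneg (nv L) d F
  have h2 := wt_nonneg (nv L) d G
  exact osc_of (w := wt (nv L) d F + wt (nv L) d G + 1) place_nv_ultra hd hF hG (by linarith)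
    (by linarith) (by linarith) hX h _ fun l => ker_big hL d l (by linarith)

omit [IsAlgClosed L] in
lemma PotAux.kU_aff {r R p q : ℝ} (hr : 0 < r) (hR : 1 ≤ R) (hrR : r * R ^ 3 ≤ 1) (hq : q ≤ R)
    (hp : 1 ≤ R * p) {Y : V L} (hY : ‖Y 0‖ < p * ‖Y 1‖ ∨ q * ‖Y 1‖ < ‖Y 0‖) :
    ∃ α β : ℝ, ∀ z : L, p ≤ ‖z‖ → ‖z‖ ≤ q → kU (nv L) r ![z, 1] Y = α * log ‖z‖ + β := by
  have hv : IsNonarchimedean (nv L) := fun x y => by
    simp only [nv_apply]; exact IsUltrametricDist.norm_add_le_max x y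
  have hp0 : 0 < p := by by_contra hc; nlinarith
  have y0 := norm_nonneg (Y 0)
  have y1 := norm_nonneg (Y 1)
  have hn : ∀ z : L, ‖z‖ ≤ q → nrm (nv L) ![z, 1] ≤ R := fun z hz => by
    simp only [nrm, nv_apply, Matrix.cons_val_zero, Matrix.cons_val_one, norm_one]
    exact max_le (hz.trans hq) hR
  have hw : ∀ z : L, wedge ![z, 1] Y = -Y 0 + z * Y 1 := fun z => by simp [wedge]; ring
  have hb : ∀ z : L, ‖z‖ ≤ q → ∀ c, 0 ≤ c → nrm (nv L) Y ≤ R ^ 2 * c →
      r * (nrm (nv L) ![z, 1] * nrm (nv L) Y) ≤ c := fun z hz c hc h =>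
    calc _ ≤ r * (R * (R ^ 2 * c)) := mul_le_mul_of_nonneg_left
          (mul_le_mul (hn z hz) h (nrm_nonneg _ _) (by linarith)) hr.le
      _ = r * R ^ 3 * c := by ring
      _ ≤ c := mul_le_of_le_one_left hc hrR
  have hR2 : R ≤ R ^ 2 := by nlinarith
  rcases hY with hY | hY
  · refine ⟨-1, - log ‖Y 1‖, fun z h1 h2 => ?_⟩
    have h3 : ‖Y 0‖ < ‖z‖ * ‖Y 1‖ := hY.trans_le (mul_le_mul_of_nonneg_right h1 y1)
    have h4 : nv L (wedge ![z, 1] Y) = ‖z‖ * ‖Y 1‖ := by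
      rw [hw, add_eq_of_lt hv (by simpa using h3), nv_apply, norm_mul]
    have h5 : 0 < ‖z‖ * ‖Y 1‖ := y0.trans_lt h3
    have h6 : 1 ≤ R * ‖z‖ := hp.trans (mul_le_mul_of_nonneg_left h1 (by linarith))
    rw [kU, h4, max_eq_left (hb z h2 _ h5.le ?_), log_mul (hp0.trans_le h1).ne'
      (right_ne_zero_of_mul h5.ne')]
    · ring
    · simp only [nrm, nv_apply]
      refine max_le (h3.le.trans (le_mul_of_one_le_left h5.le (by linarith))) ?_
      calc ‖Y 1‖ ≤ R * ‖z‖ * ‖Y 1‖ := le_mul_of_one_le_left y1 h6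
        _ = R * (‖z‖ * ‖Y 1‖) := by ring
        _ ≤ _ := mul_le_mul_of_nonneg_right hR2 h5.le
  · refine ⟨0, - log ‖Y 0‖, fun z h1 h2 => ?_⟩
    have h3 : ‖z‖ * ‖Y 1‖ < ‖Y 0‖ := (mul_le_mul_of_nonneg_right h2 y1).trans_lt hY
    have h4 : nv L (wedge ![z, 1] Y) = ‖Y 0‖ := by
      rw [hw, add_comm, add_eq_of_lt hv (by simpa using h3), nv_apply, norm_neg]
    have h6 : 1 ≤ R * ‖z‖ := hp.trans (mul_le_mul_of_nonneg_left h1 (by linarith))
    rw [kU, h4, max_eq_left (hb z h2 _ y0 ?_)]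
    · ring
    · simp only [nrm, nv_apply]
      refine max_le (le_mul_of_one_le_left y0 (by linarith)) ?_
      calc ‖Y 1‖ ≤ R * ‖z‖ * ‖Y 1‖ := le_mul_of_one_le_left y1 h6
        _ = R * (‖z‖ * ‖Y 1‖) := by ring
        _ ≤ _ := mul_le_mul hR2 h3.le (by positivity) (by positivity)

/-- Postcritical points of small energy exclude a gap. -/
theorem not_gap (hL : Big L) {d : ℕ} (hd : 2 ≤ d) {F : PM L} (hF : Normal d F)
    {X : ℕ → V L} (hX : Sep X) (hP : ∀ j, Post F (X j)) (h : Small (nv L) d F F X) :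
    ¬ Gap F (esc (nv L) d F) := by
  rintro ⟨M, z₁, z₂, z₃, hM, h0, h12, h23, hlt, hpost⟩
  let Y : ℕ → V L := fun j => M.adjugate.mulVec (X j)
  have hMY : ∀ j, M.mulVec (Y j) = X j := fun j => by
    simp only [Y, Matrix.mulVec_mulVec, Matrix.mul_adjugate, hM, one_smul, Matrix.one_mulVec]
  have hwY : ∀ j k, wedge (Y j) (Y k) = wedge (X j) (X k) := fun j k => by
    rw [← hMY, ← hMY, wedge_mulVec M, hM, one_mul]
  have hY : Sep Y := fun j k hjk => by rw [hwY]; exact hX j k hjk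
  have hY0 : ∀ j, Y j ≠ 0 := fun j hc => hY j (j + 1) (by omega) (by rw [hc, wedge_zero_left])
  have hF' := hF.conj (by omega) hM
  have hG : ∀ Z, Z ≠ 0 → esc (nv L) d (conj M F) Z = esc (nv L) d F (M.mulVec Z) := fun Z hZ =>
    ((dyn_esc place_nv_ultra hd hF).conj hM).esc_eq hZ
  have hen : ∀ N, en (nv L) d (conj M F) N Y = en (nv L) d F N X := fun N => by
    simp only [en, grn, hwY, hG _ (hY0 _), hMY]
  have hs : Small (nv L) d (conj M F) (conj M F) Y := fun δ hδ N₀ => by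
    simpa only [hen] using h δ hδ N₀
  have hw := wt_nonneg (nv L) d (conj M F)
  set w := wt (nv L) d (conj M F) + 1 with hwd
  set R := max 1 (max ‖z₃‖ ‖z₁‖⁻¹) with hR
  have hR1 : 1 ≤ R := le_max_left _ _
  have l12 := log_lt_log h0 h12
  have l23 := log_lt_log (h0.trans h12) h23
  rw [← hG _ (aff_ne_zero _), ← hG _ (aff_ne_zero _), ← hG _ (aff_ne_zero _), ← sub_pos] at hlt
  obtain ⟨l, hl, N, hN, key⟩ := osc_gen (w := w) place_nv_ultra hd hF' hF' (by linarith)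
    (by linarith) (by linarith) hY hs _ (fun l => ker_big hL d l (by linarith))
    (half_pos (div_pos hlt (show 0 < log ‖z₃‖ - log ‖z₁‖ by linarith))) ⌈R ^ 3⌉₊
  have hr : exp (-(rho d l * w)) * R ^ 3 ≤ 1 := by
    rw [exp_neg, inv_mul_le_iff₀ (exp_pos _), mul_one]
    have h1 : R ^ 3 ≤ l := (Nat.le_ceil _).trans (by exact_mod_cast hl)
    have h2 := le_rho d l
    have h3 : rho d l ≤ rho d l * w :=
      le_mul_of_one_le_right (by linarith [two_le_rho d l]) (by linarith)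
    linarith [add_one_le_exp (rho d l * w)]
  have h1 : ∀ j, (log ‖z₃‖ - log ‖z₁‖) * kU (nv L) (exp (-(rho d l * w))) ![z₂, 1] (Y j) =
      (log ‖z₃‖ - log ‖z₂‖) * kU (nv L) (exp (-(rho d l * w))) ![z₁, 1] (Y j) +
      (log ‖z₂‖ - log ‖z₁‖) * kU (nv L) (exp (-(rho d l * w))) ![z₃, 1] (Y j) := fun j => by
    obtain ⟨α, β, h2⟩ := kU_aff (exp_pos _) hR1 hr
      (le_max_of_le_right (le_max_left _ _)) (p := ‖z₁‖) (by
        rw [← div_le_iff₀ h0, one_div]
        exact le_max_of_le_right (le_max_right _ _)) (hpost (Y j) (by rw [hMY]; exact hP j))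
    rw [h2 z₁ le_rfl (h12.trans h23).le, h2 z₂ h12.le h23.le, h2 z₃ (h12.trans h23).le le_rfl]
    ring
  have h2 := sum_congr rfl fun j (_ : j ∈ range N) => h1 j
  rw [sum_add_distrib, ← mul_sum, ← mul_sum, ← mul_sum] at h2
  have h3 := congrArg (· / (N : ℝ)) h2
  simp only [add_div, mul_div_assoc] at h3
  have k1 := mul_le_mul_of_nonneg_left (key _ (Or.inl rfl) _ _ (aff_ne_zero z₁) (aff_ne_zero z₂))
    (sub_pos.2 l23).le
  have k2 := mul_le_mul_of_nonneg_left (key _ (Or.inl rfl) _ _ (aff_ne_zero z₃) (aff_ne_zero z₂))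
    (sub_pos.2 l12).le
  have hne : log ‖z₃‖ - log ‖z₁‖ ≠ 0 := by linarith
  generalize hγ : (log ‖z₃‖ - log ‖z₂‖) * esc (nv L) d (conj M F) ![z₁, 1] +
    (log ‖z₂‖ - log ‖z₁‖) * esc (nv L) d (conj M F) ![z₃, 1] -
    (log ‖z₃‖ - log ‖z₁‖) * esc (nv L) d (conj M F) ![z₂, 1] = γ at hlt k1 k2
  have e : (log ‖z₃‖ - log ‖z₂‖) * (γ / (log ‖z₃‖ - log ‖z₁‖) / 2) +
      (log ‖z₂‖ - log ‖z₁‖) * (γ / (log ‖z₃‖ - log ‖z₁‖) / 2) = γ / 2 := by
    field_simp; ring
  linarith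

end Pool.Agent.MP_3827f0_nt.H92
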