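import Mathlib

/-! Positive semidefinite kernels on finite index types. -/

set_option autoImplicit false

namespace Pool.Agent.MP_3827f0_nt.H92.PotAux

open Finset

/-- Positive semidefinite kernels. -/
def PSD {I : Type} [Fintype I] (k : I → I → ℝ) : Prop :=
  ∀ c : I → ℝ, 0 ≤ ∑ i, ∑ j, c i * c j * k i j

variable {I : Type} [Fintype I]

lemma PSD.add {k k' : I → I → ℝ} (h : PSD k) (h' : PSD k') : PSD fun i j => k i j + k' i j := by
  intro c
  simp only [mul_add, sum_add_distrib]
  exact add_nonneg (h c) (h' c)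

lemma PSD.const_mul {k : I → I → ℝ} (h : PSD k) {a : ℝ} (ha : 0 ≤ a) :
    PSD fun i j => a * k i j := by
  intro c
  have : ∑ i, ∑ j, c i * c j * (a * k i j) = a * ∑ i, ∑ j, c i * c j * k i j := by
    simp only [mul_sum]
    exact sum_congr rfl fun i _ => sum_congr rfl fun j _ => by ring
  rw [this]
  exact mul_nonneg ha (h c)

lemma PSD.mul_rank {k : I → I → ℝ} (h : PSD k) (φ : I → ℝ) :
    PSD fun i j => k i j * (φ i * φ j) := by
  intro c
  have := h fun i => c i * φ i
  refine this.trans_eq (sum_congr rfl fun i _ => sum_congr rfl fun j _ => by ring)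

lemma psd_one : PSD fun _ _ : I => (1 : ℝ) := by
  intro c
  simp only [mul_one, ← mul_sum, ← sum_mul]
  exact mul_self_nonneg _

lemma PSD.congr {k k' : I → I → ℝ} (h : PSD k) (e : ∀ i j, k' i j = k i j) : PSD k' := by
  intro c
  simp only [e]
  exact h c

lemma psd_sum {J : Type} (s : Finset J) {k : J → I → I → ℝ} (h : ∀ l ∈ s, PSD (k l)) :
    PSD fun i j => ∑ l ∈ s, k l i j := by
  classical
  induction s using Finset.induction_on with
  | empty => intro c; simp
  | insert a s ha ih =>
    refine ((h a (mem_insert_self _ _)).add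
      (ih fun l hl => h l (mem_insert_of_mem hl))).congr fun i j => ?_
    rw [sum_insert ha]

open Classical in
/-- The indicator of a symmetric transitive relation. -/
lemma psd_rel (R : I → I → Prop) (hs : ∀ i j, R i j → R j i)
    (ht : ∀ i j k, R i j → R j k → R i k) : PSD fun i j => if R i j then (1 : ℝ) else 0 := by
  let cl : I → Finset I := fun i => univ.filter (R i)
  let φ : Finset I → I → ℝ := fun S i => if R i i ∧ cl i = S then 1 else 0
  refine (psd_sum univ fun S _ => psd_one.mul_rank (φ S)).congr fun i j => ?_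
  rw [sum_eq_single (cl i)]
  · simp only [φ, and_true, one_mul]
    by_cases h : R i j
    · have h1 : R i i := ht _ _ _ h (hs _ _ h)
      have h2 : R j j := ht _ _ _ (hs _ _ h) h
      have h3 : cl j = cl i := by
        ext l
        simp only [cl, mem_filter, mem_univ, true_and]
        exact ⟨fun h' => ht _ _ _ h h', fun h' => ht _ _ _ (hs _ _ h) h'⟩
      simp [h, h1, h2, h3]
    · rw [if_neg h]
      by_cases h2 : R j j ∧ cl j = cl i
      · exfalso
        have : j ∈ cl i := by rw [← h2.2]; simp [cl, h2.1]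
        exact h (by simpa [cl] using this)
      · rw [if_neg h2, mul_zero]
  · intro S _ hS
    simp [φ, hS.symm]
  · intro h
    exact absurd (mem_univ _) h

/-- Ultrametric kernels. -/
lemma psd_ultra (s : I → I → ℝ) (h0 : ∀ i j, 0 ≤ s i j) (hs : ∀ i j, s i j = s j i)
    (ht : ∀ i j k, min (s i j) (s j k) ≤ s i k) : PSD s := by
  classical
  generalize hn : (univ.filter fun p : I × I => 0 < s p.1 p.2).card = n
  induction n using Nat.strong_induction_on generalizing s with
  | _ n ih =>
    by_cases hne : (univ.filter fun p : I × I => 0 < s p.1 p.2).Nonempty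
    · obtain ⟨p, hp, hmin⟩ := exists_min_image _ (fun p : I × I => s p.1 p.2) hne
      have hm : 0 < s p.1 p.2 := by simpa using hp
      set m := s p.1 p.2 with hmdef
      have h1 : PSD fun i j => max (s i j - m) 0 := by
        refine ih _ ?_ _ (fun i j => le_max_right _ _) (fun i j => by rw [hs]) ?_ rfl
        · rw [← hn]
          refine card_lt_card ⟨fun q hq => ?_, fun h => ?_⟩
          · simp only [mem_filter, mem_univ, true_and, lt_max_iff, lt_irrefl, or_false] at hq ⊢
            linarith
          · have := h hp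
            simp [← hmdef] at this
        · intro i j k
          have := ht i j k
          rcases le_total (s i j) (s j k) with h | h
          · rw [min_eq_left h] at this
            exact (min_le_left _ _).trans (max_le_max (by linarith) le_rfl)
          · rw [min_eq_right h] at this
            exact (min_le_right _ _).trans (max_le_max (by linarith) le_rfl)
      have h2 := (psd_rel (fun i j => m ≤ s i j) (fun i j h => by rwa [hs])
        (fun i j k h h' => (le_min h h').trans (ht i j k))).const_mul hm.le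
      refine (h1.add h2).congr fun i j => ?_
      by_cases h : m ≤ s i j
      · rw [if_pos h, max_eq_left (by linarith)]; ring
      · rw [if_neg h, max_eq_right (by linarith), mul_zero, add_zero]
        by_contra hc
        exact h (hmin (i, j) (by simpa using lt_of_le_of_ne (h0 i j) (Ne.symm hc)))
    · intro c
      refine sum_nonneg fun i _ => sum_nonneg fun j _ => ?_
      have : s i j = 0 := by
        by_contra hc
        exact hne ⟨(i, j), by simpa using lt_of_le_of_ne (h0 i j) (Ne.symm hc)⟩
      simp [this]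

/-- The logarithmic kernel of a Gram kernel. -/
lemma psd_log (t : I → I → ℝ) (ht : ∀ k : I → I → ℝ, PSD k → PSD fun i j => k i j * t i j)
    (h1 : ∀ i j, |t i j| < 1) : PSD fun i j => - Real.log (1 - t i j) := by
  have hp : ∀ n : ℕ, PSD fun i j => t i j ^ n := by
    intro n
    induction n with
    | zero => exact psd_one.congr fun i j => pow_zero _
    | succ n ih => exact (ht _ ih).congr fun i j => pow_succ _ _
  intro c
  have hs : HasSum (fun n : ℕ => ∑ i, ∑ j, c i * c j * (t i j ^ (n + 1) / (n + 1)))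
      (∑ i, ∑ j, c i * c j * (- Real.log (1 - t i j))) :=
    hasSum_sum fun i _ => hasSum_sum fun j _ =>
      (Real.hasSum_pow_div_log_of_abs_lt_one (h1 i j)).mul_left _
  refine hs.nonneg fun n => ?_
  have := ((hp (n + 1)).const_mul (a := 1 / ((n : ℝ) + 1)) (by positivity)) c
  exact this.trans_eq (sum_congr rfl fun i _ => sum_congr rfl fun j _ => by ring)

/-- Terms that depend on one variable do not matter for weights of total mass zero. -/
lemma cpd_of_psd {k s : I → I → ℝ} (h : PSD s) (u : I → ℝ) (e : ∀ i j, k i j = s i j + u i + u j)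
    (c : I → ℝ) (hc : ∑ i, c i = 0) : 0 ≤ ∑ i, ∑ j, c i * c j * k i j := by
  have h1 : ∑ i, ∑ j, c i * c j * u i = 0 := by
    refine sum_eq_zero fun i _ => ?_
    rw [← sum_mul, ← mul_sum, hc]; simp
  have h2 : ∑ i, ∑ j, c i * c j * u j = 0 := by
    simp only [mul_assoc, ← mul_sum, ← sum_mul, hc, zero_mul]
  simp only [e, mul_add, sum_add_distrib, h1, h2, add_zero]
  exact h c

/-- The basic inequality. -/
lemma basic {α : Type} (g : α → α → ℝ) (hs : ∀ x y, g x y = g y x)
    (hc : ∀ (I : Type) [Fintype I] (P : I → α) (c : I → ℝ), ∑ i, c i = 0 →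
      0 ≤ ∑ i, ∑ j, c i * c j * g (P i) (P j))
    {B ε : ℝ} (hB : ∀ x y, |g x y| ≤ B) {J : Type} [Fintype J] [Nonempty J] (m : J → α)
    (hm : ∀ x, |∑ j, g x (m j)| ≤ ε * Fintype.card J) [Nonempty I] (p : I → α) {t : ℝ}
    (ht : 0 ≤ t) (z z' : α) :
    2 * t * ((∑ i, g z (p i)) / Fintype.card I - (∑ i, g z' (p i)) / Fintype.card I) ≤
      (∑ i, ∑ j, g (p i) (p j)) / (Fintype.card I : ℝ) ^ 2 + (3 + 4 * t) * ε + 4 * B * t ^ 2 := by
  have hN : (0 : ℝ) < Fintype.card I := by exact_mod_cast Fintype.card_pos
  have hD : (0 : ℝ) < Fintype.card J := by exact_mod_cast Fintype.card_pos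
  set N : ℝ := (Fintype.card I : ℝ) with hNd
  set D : ℝ := (Fintype.card J : ℝ) with hDd
  have key := hc (I ⊕ J ⊕ Bool) (Sum.elim p (Sum.elim m fun b => if b then z else z'))
    (Sum.elim (fun _ => 1 / N) (Sum.elim (fun _ => -(1 / D)) fun b => if b then -t else t)) (by
      simp only [Fintype.sum_sum_type, Sum.elim_inl, Sum.elim_inr, sum_const, card_univ,
        nsmul_eq_mul, Fintype.sum_bool, ← hNd, ← hDd]
      field_simp
      simp)
  simp only [Fintype.sum_sum_type, Sum.elim_inl, Sum.elim_inr, Fintype.sum_bool, if_true,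
    Bool.false_eq_true, if_false, sum_add_distrib, ← mul_sum] at key
  have e1 : ∑ j, ∑ i, g (m j) (p i) = ∑ i, ∑ j, g (p i) (m j) := by
    rw [sum_comm]; simp only [hs (m _)]
  have e2 : ∑ i, g (p i) z = ∑ i, g z (p i) := by simp only [hs z]
  have e3 : ∑ i, g (p i) z' = ∑ i, g z' (p i) := by simp only [hs z']
  have e4 : ∑ i, g (m i) z = ∑ i, g z (m i) := by simp only [hs z]
  have e5 : ∑ i, g (m i) z' = ∑ i, g z' (m i) := by simp only [hs z']
  rw [e1, e2, e3, e4, e5] at key
  have b1 : -(ε * D * N) ≤ ∑ i, ∑ j, g (p i) (m j) := by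
    have := card_nsmul_le_sum univ (fun i => ∑ j, g (p i) (m j)) (-(ε * D))
      fun i _ => (abs_le.1 (hm (p i))).1
    rw [card_univ, nsmul_eq_mul, ← hNd] at this
    linarith
  have b2 : ∑ i, ∑ j, g (m i) (m j) ≤ ε * D * D := by
    have := sum_le_card_nsmul univ (fun i => ∑ j, g (m i) (m j)) (ε * D)
      fun i _ => (abs_le.1 (hm (m i))).2
    rw [card_univ, nsmul_eq_mul, ← hDd] at this
    linarith
  have b3 := (abs_le.1 (hm z)).2
  have b4 := (abs_le.1 (hm z')).1
  have c1 : -(1 / N * (1 / D) * ∑ i, ∑ j, g (p i) (m j)) ≤ ε := by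
    have := mul_le_mul_of_nonneg_left b1 (show 0 ≤ 1 / N * (1 / D) by positivity)
    have e : 1 / N * (1 / D) * -(ε * D * N) = -ε := by field_simp
    linarith
  have c2 : 1 / D * (1 / D) * ∑ i, ∑ j, g (m i) (m j) ≤ ε := by
    have := mul_le_mul_of_nonneg_left b2 (show 0 ≤ 1 / D * (1 / D) by positivity)
    have e : 1 / D * (1 / D) * (ε * D * D) = ε := by field_simp
    linarith
  have c3 : t * (1 / D) * ∑ j, g z (m j) ≤ t * ε := by
    have := mul_le_mul_of_nonneg_left b3 (show 0 ≤ t * (1 / D) by positivity)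
    have e : t * (1 / D) * (ε * D) = t * ε := by field_simp
    linarith
  have c4 : -(t * (1 / D) * ∑ j, g z' (m j)) ≤ t * ε := by
    have := mul_le_mul_of_nonneg_left b4 (show 0 ≤ t * (1 / D) by positivity)
    have e : t * (1 / D) * -(ε * D) = -(t * ε) := by field_simp
    linarith
  have c5 : t ^ 2 * (g z z - g z z' - g z' z + g z' z') ≤ t ^ 2 * (4 * B) := by
    refine mul_le_mul_of_nonneg_left ?_ (sq_nonneg t)
    have := abs_le.1 (hB z z)
    have := abs_le.1 (hB z z')
    have := abs_le.1 (hB z' z)
    have := abs_le.1 (hB z' z')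
    linarith
  have e6 : (∑ i, ∑ j, g (p i) (p j)) / N ^ 2 = 1 / N * (1 / N) * ∑ i, ∑ j, g (p i) (p j) := by
    field_simp
  rw [e6, div_eq_inv_mul, div_eq_inv_mul, ← one_div]
  nlinarith [key, c1, c2, c3, c4, c5]

end Pool.Agent.MP_3827f0_nt.H92.PotAux
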