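import Pool.Agent.MP_3827f0_nt.H92.Esc
import Pool.Agent.MP_3827f0_nt.H92.PotA

/-! Modulus of continuity of the escape rate, preimage measures, and the main inequality. -/

set_option autoImplicit false

namespace Pool.Agent.MP_3827f0_nt.H92.PotAux

open Finset Real MvPolynomial Filter Topology

variable {K : Type} [Field K] {v : AbsoluteValue K ℝ} {a : ℝ} {d : ℕ} {F : PM K}

lemma le_nrm (v : AbsoluteValue K ℝ) (Z : V K) (i : Fin 2) : v (Z i) ≤ nrm v Z := by
  fin_cases i
  · exact le_max_left _ _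
  · exact le_max_right _ _

lemma nrm_le {Z : V K} {c : ℝ} (h : ∀ i, v (Z i) ≤ c) : nrm v Z ≤ c := max_le (h 0) (h 1)

lemma nrm_nonneg (v : AbsoluteValue K ℝ) (Z : V K) : 0 ≤ nrm v Z :=
  (v.nonneg _).trans (le_nrm v Z 0)

lemma nrm_neg (v : AbsoluteValue K ℝ) (Z : V K) : nrm v (-Z) = nrm v Z := by
  simp [nrm]

lemma one_le_exp' (h : Place v a) : 1 ≤ exp a := one_le_exp h.nonneg

lemma nrm_add_le (h : Place v a) (X Y : V K) :
    nrm v (X + Y) ≤ exp a * max (nrm v X) (nrm v Y) :=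
  nrm_le fun i => (h.add_le _ _).trans (mul_le_mul_of_nonneg_left
    (max_le_max (le_nrm v X i) (le_nrm v Y i)) (exp_pos a).le)

lemma three (h : Place v a) (X Y Z : V K) :
    v (wedge Z X) * nrm v Y ≤ exp a * max (v (wedge X Y) * nrm v Z) (v (wedge Y Z) * nrm v X) := by
  have e : wedge Z X • Y = -(wedge X Y • Z + wedge Y Z • X) :=
    eq_neg_of_add_eq_zero_right (wedge_three X Y Z)
  rw [← nrm_smul, e, nrm_neg, ← nrm_smul, ← nrm_smul]
  exact nrm_add_le h _ _

lemma v_wedge_comm (v : AbsoluteValue K ℝ) (X Y : V K) : v (wedge X Y) = v (wedge Y X) := by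
  rw [wedge_comm, v.map_neg]

lemma sum_le (h : Place v a) (f : ℕ → K) {M : ℝ} (hM : 0 ≤ M) (n : ℕ) (hf : ∀ i < n, v (f i) ≤ M) :
    v (∑ i ∈ range n, f i) ≤ exp (a * n) * M := by
  induction n with
  | zero => simpa using hM
  | succ n ih =>
    rw [sum_range_succ]
    refine (h.add_le _ _).trans ?_
    have h1 : 1 ≤ exp (a * n) := one_le_exp (mul_nonneg h.nonneg n.cast_nonneg)
    have h2 : max (v (∑ i ∈ range n, f i)) (v (f n)) ≤ exp (a * n) * M :=
      max_le (ih fun i hi => hf i (by omega)) ((hf n (by omega)).trans (le_mul_of_one_le_left hM h1))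
    calc exp a * _ ≤ exp a * (exp (a * n) * M) := mul_le_mul_of_nonneg_left h2 (exp_pos a).le
      _ = _ := by rw [← mul_assoc, ← exp_add]; push_cast; ring_nf

/-- Two numbers of size at most A that are close. -/
def Cl (v : AbsoluteValue K ℝ) (δ A : ℝ) (x y : K) : Prop := v x ≤ A ∧ v y ≤ A ∧ v (x - y) ≤ δ * A

lemma Cl.mul (h : Place v a) {δ A B : ℝ} (hδ : 0 ≤ δ) {x y x' y' : K} (h1 : Cl v δ A x y)
    (h2 : Cl v δ B x' y') : Cl v (exp a * δ) (A * B) (x * x') (y * y') := by
  have hA : 0 ≤ A := (v.nonneg _).trans h1.1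
  have hB : 0 ≤ B := (v.nonneg _).trans h2.1
  refine ⟨?_, ?_, ?_⟩
  · rw [v.map_mul]; exact mul_le_mul h1.1 h2.1 (v.nonneg _) hA
  · rw [v.map_mul]; exact mul_le_mul h1.2.1 h2.2.1 (v.nonneg _) hA
  · have e : x * x' - y * y' = x * (x' - y') + (x - y) * y' := by ring
    rw [e, mul_assoc]
    refine (h.add_le _ _).trans (mul_le_mul_of_nonneg_left (max_le ?_ ?_) (exp_pos a).le)
    · rw [v.map_mul]
      exact (mul_le_mul h1.1 h2.2.2 (v.nonneg _) hA).trans_eq (by ring)
    · rw [v.map_mul]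
      exact (mul_le_mul h1.2.2 h2.2.1 (v.nonneg _) (mul_nonneg hδ hA)).trans_eq (by ring)

lemma Cl.mono {δ δ' A : ℝ} {x y : K} (h : Cl v δ A x y) (hδ : δ ≤ δ') : Cl v δ' A x y :=
  ⟨h.1, h.2.1, h.2.2.trans (mul_le_mul_of_nonneg_right hδ ((v.nonneg _).trans h.1))⟩

lemma Cl.pow (h : Place v a) {δ A : ℝ} (hδ : 0 ≤ δ) {x y : K} (h1 : Cl v δ A x y) (n : ℕ) :
    Cl v (exp (a * n) * δ) (A ^ n) (x ^ n) (y ^ n) := by
  induction n with
  | zero => simp [Cl, hδ]
  | succ n ih =>
    have h2 : 1 ≤ exp (a * n) := one_le_exp (mul_nonneg h.nonneg n.cast_nonneg)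
    have := ih.mul h (by positivity) (h1.mono (le_mul_of_one_le_left hδ h2))
    simp only [pow_succ]
    refine this.mono (le_of_eq ?_)
    rw [← mul_assoc, ← exp_add]; push_cast; ring_nf

lemma coeff_le {w : ℝ} (ha : 0 ≤ a) (hw : wt v d F + a ≤ w) (i : Fin 2) {k : ℕ} (hk : k < d + 1) :
    v (coeff (mo d k) (F i)) ≤ exp w := by
  have h1 : posLog (v (coeff (mo d k) (F i))) ≤ wt v d F := by
    refine le_trans ?_ (single_le_sum (f := fun i : Fin 2 => ∑ k ∈ range (d + 1),
      posLog (v (coeff (mo d k) (F i)))) (fun i _ => sum_nonneg fun _ _ => posLog_nonneg)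
      (mem_univ i))
    exact single_le_sum (f := fun k => posLog (v (coeff (mo d k) (F i))))
      (fun _ _ => posLog_nonneg) (mem_range.2 hk)
  have h2 : log (v (coeff (mo d k) (F i))) ≤ w := by
    have : log (v (coeff (mo d k) (F i))) ≤ posLog (v (coeff (mo d k) (F i))) := le_max_right _ _
    linarith
  rcases (v.nonneg (coeff (mo d k) (F i))).eq_or_lt with h0 | h0
  · rw [← h0]; exact (exp_pos w).le
  · exact (log_le_iff_le_exp h0).1 h2

/-- The loss in one step. -/
noncomputable def lip (d : ℕ) : ℝ := 3 * d + 3 + cst d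

lemma lip_step [IsAlgClosed K] (h : Place v a) (hd : 2 ≤ d) (hF : Normal d F) {w δ : ℝ}
    (hw : wt v d F + a ≤ w) (hδ : 0 ≤ δ) (hδ1 : δ ≤ 1) {X W : V K} (hX : X ≠ 0)
    (hW : nrm v (W - X) ≤ δ * nrm v X) :
    nrm v (app F W - app F X) ≤ exp (lip d * w) * δ * nrm v (app F X) := by
  have ha := h.nonneg
  have haw : a ≤ w := by have := wt_nonneg v d F; linarith
  have hx := nrm_pos v hX
  set M := exp a * nrm v X with hM
  have hXM : nrm v X ≤ M := le_mul_of_one_le_left hx.le (one_le_exp' h)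
  have hWM : nrm v W ≤ M := by
    have := nrm_add_le h (W - X) X
    rw [sub_add_cancel, max_eq_right (hW.trans (mul_le_of_le_one_left hx.le hδ1))] at this
    exact this
  have hcl : ∀ i, Cl v δ M (W i) (X i) := fun i =>
    ⟨(le_nrm v W i).trans hWM, (le_nrm v X i).trans hXM,
      ((le_nrm v (W - X) i).trans hW).trans (mul_le_mul_of_nonneg_left hXM hδ)⟩
  have hM0 : 0 ≤ M := hx.le.trans hXM
  have h1 : nrm v (app F W - app F X) ≤
      exp (a * (d + 1 : ℕ)) * (exp w * (exp a * (exp (a * d) * δ) * M ^ d)) := by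
    refine nrm_le fun i => ?_
    change v (eval W (F i) - eval X (F i)) ≤ _
    rw [eval_eq_sum_mo (hF.1 i), eval_eq_sum_mo (hF.1 i), ← sum_sub_distrib]
    refine sum_le h _ (by positivity) _ fun k hk => ?_
    have e1 : ∀ n ≤ d, exp (a * n) * δ ≤ exp (a * d) * δ := fun n hn =>
      mul_le_mul_of_nonneg_right (exp_le_exp.2 (mul_le_mul_of_nonneg_left (by exact_mod_cast hn) ha))
        hδ
    have h2 := (((hcl 0).pow h hδ k).mono (e1 k (by omega))).mul h (by positivity)
      (((hcl 1).pow h hδ (d - k)).mono (e1 _ (by omega)))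
    rw [← pow_add, show k + (d - k) = d by omega] at h2
    rw [mul_assoc, mul_assoc, ← mul_sub, v.map_mul]
    exact mul_le_mul (coeff_le ha hw i hk) h2.2.2 (v.nonneg _) (exp_pos w).le
  have h3 : nrm v X ^ d ≤ exp (cst d * w) * nrm v (app F X) := by
    have hp := nrm_pos v ((hF.nondeg (by omega)).app_ne hX)
    have := (abs_le.1 (log_nrm_app h hd hF hw hX)).1
    rw [← exp_log hp, ← exp_add, ← exp_log hx, ← exp_nat_mul, exp_le_exp]
    linarith
  refine h1.trans ?_
  have h4 : exp (a * (d + 1 : ℕ)) * (exp w * (exp a * (exp (a * d) * δ) * M ^ d)) =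
      exp (a * (3 * d + 2) + w) * δ * nrm v X ^ d := by
    have : exp (a * (3 * d + 2) + w) =
        exp (a * (d + 1 : ℕ)) * exp w * exp a * exp (a * d) * exp a ^ d := by
      rw [← exp_nat_mul, ← exp_add, ← exp_add, ← exp_add, ← exp_add]
      push_cast; ring_nf
    rw [this, hM, mul_pow]; ring
  rw [h4]
  calc _ ≤ exp (a * (3 * d + 2) + w) * δ * (exp (cst d * w) * nrm v (app F X)) :=
        mul_le_mul_of_nonneg_left h3 (by positivity)
    _ = exp (a * (3 * d + 2) + w + cst d * w) * (δ * nrm v (app F X)) := by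
        rw [exp_add _ (cst d * w)]; ring
    _ ≤ exp (lip d * w) * (δ * nrm v (app F X)) := by
        refine mul_le_mul_of_nonneg_right (exp_le_exp.2 ?_) (mul_nonneg hδ (nrm_nonneg _ _))
        have : a * (3 * d + 2) ≤ w * (3 * d + 2) :=
          mul_le_mul_of_nonneg_right haw (by positivity)
        unfold lip; linarith
    _ = _ := by ring

lemma lip_pos (d : ℕ) : 0 < lip d := by have := cst_pos d; unfold lip; positivity

/-- The radius exponent for k steps. -/
noncomputable def rho (d k : ℕ) : ℝ := k * lip d + 2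

lemma modulus [IsAlgClosed K] (h : Place v a) (hd : 2 ≤ d) (hF : Normal d F) {w : ℝ}
    (hw : wt v d F + a ≤ w) (hw0 : 0 < w) (k : ℕ) {X W : V K} (hX : X ≠ 0)
    (hW : nrm v (W - X) ≤ exp (-(rho d k * w)) * nrm v X) :
    W ≠ 0 ∧ esc v d F W - esc v d F X ≤ (2 * cst d + 1) * w / (d : ℝ) ^ k := by
  have ha := h.nonneg
  have haw : a ≤ w := by have := wt_nonneg v d F; linarith
  have hN := hF.nondeg (by omega)
  have hl := lip_pos d
  have key : ∀ j ≤ k, nrm v ((app F)^[j] W - (app F)^[j] X) ≤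
      exp ((j * lip d - rho d k) * w) * nrm v ((app F)^[j] X) := by
    intro j hj
    induction j with
    | zero => simpa using hW
    | succ j ih =>
      have h1 : exp ((j * lip d - rho d k) * w) ≤ 1 := by
        rw [exp_le_one_iff]
        refine mul_nonpos_of_nonpos_of_nonneg ?_ hw0.le
        have : (j : ℝ) * lip d ≤ k * lip d :=
          mul_le_mul_of_nonneg_right (by exact_mod_cast (by omega : j ≤ k)) hl.le
        unfold rho; linarith
      have := lip_step h hd hF hw (exp_pos _).le h1 (hN.iter_ne j hX) (ih (by omega))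
      rw [Function.iterate_succ_apply', Function.iterate_succ_apply']
      refine this.trans_eq ?_
      rw [← exp_add]; push_cast; ring_nf
  have hW0 : W ≠ 0 := by
    rintro rfl
    rw [zero_sub, nrm_neg] at hW
    have h1 : exp (-(rho d k * w)) < 1 := by
      rw [exp_lt_one_iff]
      have : 0 < rho d k := by unfold rho; positivity
      have := mul_pos this hw0
      linarith
    have := nrm_pos v hX
    nlinarith
  refine ⟨hW0, ?_⟩
  have h1 := key k le_rfl
  have h2 : exp ((k * lip d - rho d k) * w) ≤ 1 := by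
    rw [exp_le_one_iff]; unfold rho; linarith
  have hx := nrm_pos v (hN.iter_ne k hX)
  have h3 := nrm_add_le h ((app F)^[k] W - (app F)^[k] X) ((app F)^[k] X)
  rw [sub_add_cancel, max_eq_right (h1.trans (mul_le_of_le_one_left hx.le h2))] at h3
  have h4 := log_le_log (nrm_pos v (hN.iter_ne k hW0)) h3
  rw [log_mul (exp_pos a).ne' hx.ne', log_exp] at h4
  have h5 := (abs_le.1 (esc_approx h hd hF hw k hW0)).2
  have h6 := (abs_le.1 (esc_approx h hd hF hw k hX)).1
  have hD : (0 : ℝ) < (d : ℝ) ^ k := by positivity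
  have h7 : log (nrm v ((app F)^[k] W)) / (d : ℝ) ^ k ≤
      w / (d : ℝ) ^ k + log (nrm v ((app F)^[k] X)) / (d : ℝ) ^ k := by
    rw [← add_div]; exact div_le_div_of_nonneg_right (by linarith) hD.le
  have e : (2 * cst d + 1) * w / (d : ℝ) ^ k =
      2 * (cst d * w / (d : ℝ) ^ k) + w / (d : ℝ) ^ k := by ring
  linarith

lemma exists_pre [IsAlgClosed K] (h : Place v a) (hd : 2 ≤ d) (hF : Normal d F) (n : ℕ) {Y : V K}
    (hY : Y ≠ 0) : ∃ Ys : Fin (d ^ n) → V K, (∀ j, Ys j ≠ 0) ∧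
      (∀ X, wedge ((app F)^[n] X) Y = ∏ j, wedge X (Ys j)) ∧
      ∑ j, esc v d F (Ys j) = esc v d F Y := by
  induction n with
  | zero => exact ⟨fun _ => Y, fun _ => hY, fun X => by simp, by simp⟩
  | succ n ih =>
    obtain ⟨Ys, h0, h1, h2⟩ := ih
    choose Zs lam hf hl using fun j => hF.2 (Ys j) (h0 j)
    have hl0 : ∀ j i, lam j i ≠ 0 := fun j i hc => by
      have := hl j
      rw [prod_eq_zero (mem_univ i) hc] at this
      exact zero_ne_one this
    have hZ : ∀ j i, Zs j i ≠ 0 := fun j i hc => by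
      have h3 := (hf j).2 i
      have h4 := hF.1.app_smul 0 (Zs j i)
      rw [zero_smul, zero_pow (by omega), zero_smul, ← hc, h3] at h4
      exact smul_ne_zero (hl0 j i) (h0 j) (h4.trans hc)
    let e : Fin (d ^ n) × Fin d ≃ Fin (d ^ (n + 1)) := finProdFinEquiv
    refine ⟨fun j => Zs (e.symm j).1 (e.symm j).2, fun j => hZ _ _, fun X => ?_, ?_⟩
    · rw [Function.iterate_succ_apply, h1, ← e.prod_comp, Fintype.prod_prod_type]
      simp only [e.symm_apply_apply]
      exact prod_congr rfl fun j _ => (hf j).1 X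
    · rw [← e.sum_comp, Fintype.sum_prod_type, ← h2]
      simp only [e.symm_apply_apply]
      refine sum_congr rfl fun j _ => ?_
      have hd0 : (d : ℝ) ≠ 0 := by positivity
      apply mul_left_cancel₀ hd0
      rw [mul_sum]
      have h3 : ∀ i, d * esc v d F (Zs j i) = esc v d F (Ys j) + log (v (lam j i)) := fun i => by
        rw [← esc_app h hd hF (hZ j i), (hf j).2 i, esc_smul h hd hF (hl0 j i) (h0 j)]
      simp only [h3]
      rw [sum_add_distrib, ← log_prod fun i _ => v.ne_zero (hl0 j i), ← map_prod, hl j]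
      simp

lemma esc_iter [IsAlgClosed K] (h : Place v a) (hd : 2 ≤ d) (hF : Normal d F) (n : ℕ) {Z : V K}
    (hZ : Z ≠ 0) : esc v d F ((app F)^[n] Z) = (d : ℝ) ^ n * esc v d F Z := by
  induction n with
  | zero => simp
  | succ n ih =>
    rw [Function.iterate_succ_apply', esc_app h hd hF ((hF.nondeg (by omega)).iter_ne n hZ), ih]
    ring

lemma esc_log [IsAlgClosed K] (h : Place v a) (hd : 2 ≤ d) (hF : Normal d F) {w : ℝ}
    (hw : wt v d F + a ≤ w) {Z : V K} (hZ : Z ≠ 0) :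
    |esc v d F Z - log (nrm v Z)| ≤ cst d * w := by
  simpa using esc_approx h hd hF hw 0 hZ

/-- Points such that every point is close to at most one of them. -/
lemma exists_sep [IsAlgClosed K] (h : Place v a) (hd : 2 ≤ d) (hF : Normal d F) {w : ℝ}
    (hw : wt v d F + a ≤ w) (M : ℕ) : ∃ (Y : Fin M → V K) (C : ℝ), 0 ≤ C ∧ (∀ s, Y s ≠ 0) ∧
      ∀ W, W ≠ 0 → ∀ s t, s ≠ t → (wedge W (Y s) ≠ 0 ∧ grn v d F W (Y s) ≤ C) ∨
        (wedge W (Y t) ≠ 0 ∧ grn v d F W (Y t) ≤ C) := by
  let u := Infinite.natEmbedding K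
  let Y : Fin M → V K := fun s => ![u s, 1]
  have hY : ∀ s, Y s ≠ 0 := fun s => aff_ne_zero _
  have hYY : ∀ s t, s ≠ t → wedge (Y s) (Y t) ≠ 0 := fun s t hst => by
    rw [wedge_aff, sub_ne_zero]
    exact fun hc => hst (Fin.ext (u.injective hc))
  obtain ⟨C, hC⟩ := Finite.exists_le fun p : Fin M × Fin M =>
    a + log (nrm v (Y p.2)) - log (v (wedge (Y p.1) (Y p.2))) + cst d * w + esc v d F (Y p.1)
  have key : ∀ W, W ≠ 0 → ∀ s t, s ≠ t →
      v (wedge (Y s) (Y t)) * nrm v W ≤ exp a * (v (wedge W (Y s)) * nrm v (Y t)) →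
      wedge W (Y s) ≠ 0 ∧ grn v d F W (Y s) ≤ max C 0 := by
    intro W hW s t hst h1
    have p1 := v.pos (hYY s t hst)
    have p2 := nrm_pos v hW
    have p3 := nrm_pos v (hY t)
    have h2 : wedge W (Y s) ≠ 0 := by
      intro h0
      rw [h0, map_zero, zero_mul, mul_zero] at h1
      exact absurd h1 (not_le.2 (mul_pos p1 p2))
    have p4 := v.pos h2
    have h3 := log_le_log (mul_pos p1 p2) h1
    rw [log_mul p1.ne' p2.ne', log_mul (exp_pos a).ne' (mul_pos p4 p3).ne', log_mul p4.ne' p3.ne',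
      log_exp] at h3
    have h4 := (abs_le.1 (esc_log h hd hF hw hW)).2
    have h5 := hC (s, t)
    refine ⟨h2, le_trans ?_ (le_max_left _ _)⟩
    unfold grn
    simp only at h5
    linarith
  refine ⟨Y, max C 0, le_max_right _ _, hY, fun W hW s t hst => ?_⟩
  have h1 := three h (Y t) W (Y s)
  rcases le_total (v (wedge (Y t) W) * nrm v (Y s)) (v (wedge W (Y s)) * nrm v (Y t)) with h2 | h2
  · rw [max_eq_right h2] at h1
    exact Or.inl (key W hW s t hst h1)
  · rw [max_eq_left h2, v_wedge_comm v (Y s), v_wedge_comm v (Y t) W] at h1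
    exact Or.inr (key W hW t s hst.symm h1)

/-- The properties of a smoothed logarithmic kernel. -/
structure Ker (v : AbsoluteValue K ℝ) (B ε θ : ℝ) (k : V K → V K → ℝ) : Prop where
  symm : ∀ X Y, k X Y = k Y X
  cpd : ∀ (I : Type) [Fintype I] (P : I → V K) (c : I → ℝ), (∀ i, P i ≠ 0) → ∑ i, c i = 0 →
    0 ≤ ∑ i, ∑ j, c i * c j * k (P i) (P j)
  le : ∀ X Y, wedge X Y ≠ 0 → k X Y ≤ - log (v (wedge X Y))
  bd : ∀ X Y, X ≠ 0 → Y ≠ 0 → |k X Y + log (nrm v X) + log (nrm v Y)| ≤ B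
  gen : ∀ X, X ≠ 0 → ∀ (n : ℕ) (Y : Fin n → V K), (∀ j, Y j ≠ 0) →
    ∃ W, nrm v (W - X) ≤ ε * nrm v X ∧ (∀ j, wedge W (Y j) ≠ 0) ∧
      - ∑ j, log (v (wedge W (Y j))) ≤ ∑ j, k X (Y j) + n * θ

lemma Ker.bd' [IsAlgClosed K] (h : Place v a) (hd : 2 ≤ d) (hF : Normal d F) {w : ℝ}
    (hw : wt v d F + a ≤ w) {B ε θ : ℝ} {k : V K → V K → ℝ} (hk : Ker v B ε θ k) {X Y : V K}
    (hX : X ≠ 0) (hY : Y ≠ 0) : |k X Y + esc v d F X + esc v d F Y| ≤ B + 2 * cst d * w := by
  have h1 := abs_le.1 (hk.bd X Y hX hY)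
  have h2 := abs_le.1 (esc_log h hd hF hw hX)
  have h3 := abs_le.1 (esc_log h hd hF hw hY)
  rw [abs_le]
  constructor <;> linarith [h1.1, h1.2, h2.1, h2.2, h3.1, h3.2]

/-- An approximate equilibrium measure with finite support. -/
lemma exists_eq [IsAlgClosed K] (h : Place v a) (hd : 2 ≤ d) (hF : Normal d F) {w : ℝ}
    (hw : wt v d F + a ≤ w) (hw0 : 0 < w) (l : ℕ) {B θ : ℝ} (hθ : 0 ≤ θ) {k : V K → V K → ℝ}
    (hk : Ker v B (exp (-(rho d l * w))) θ k) : ∃ (M D : ℕ) (m : Fin (M + 1) × Fin D → V K),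
      0 < D ∧ (∀ j, m j ≠ 0) ∧ ∀ X, X ≠ 0 → |∑ j, (k X (m j) + esc v d F X + esc v d F (m j))| ≤
        (θ + (2 * cst d + 2) * w / (d : ℝ) ^ l) * ((M + 1 : ℕ) * D) := by
  classical
  have hc := cst_pos d
  have hd1 : (1 : ℝ) < d := by exact_mod_cast hd
  set η := w / (d : ℝ) ^ l with hη
  have hη0 : 0 < η := by positivity
  set B' := B + 2 * cst d * w with hB'
  obtain ⟨M, hM⟩ := exists_nat_ge (B' / η)
  obtain ⟨Y, C, hC, hY, hsep⟩ := exists_sep h hd hF hw (M + 1)
  obtain ⟨n, hn⟩ := pow_unbounded_of_one_lt ((C + 3 * cst d * w) / η) hd1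
  rw [div_lt_iff₀ hη0] at hn
  rw [div_le_iff₀ hη0] at hM
  choose Ys h0 h1 h2 using fun s => exists_pre h hd hF n (hY s)
  have hN := hF.nondeg (by omega)
  refine ⟨M, d ^ n, fun p => Ys p.1 p.2, by positivity, fun _ => h0 _ _, fun X hX => ?_⟩
  set D : ℝ := (d : ℝ) ^ n with hD
  have hD0 : 0 < D := by positivity
  have hsum : ∀ W, W ≠ 0 → ∀ s, (∀ j, wedge W (Ys s j) ≠ 0) →
      - ∑ j, log (v (wedge W (Ys s j))) + D * esc v d F W + esc v d F (Y s) =
        grn v d F ((app F)^[n] W) (Y s) := by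
    intro W hW s hj
    rw [grn, h1, map_prod, log_prod fun j _ => v.ne_zero (hj j), esc_iter h hd hF n hW]
  have hA : ∀ s, ∑ j, (k X (Ys s j) + esc v d F X + esc v d F (Ys s j)) =
      ∑ j, k X (Ys s j) + D * esc v d F X + esc v d F (Y s) := fun s => by
    rw [sum_add_distrib, sum_add_distrib, h2]
    simp [hD]
  have e : (2 * cst d + 2) * w / (d : ℝ) ^ l = (2 * cst d + 2) * η := by rw [hη]; ring
  rw [Fintype.sum_prod_type, e, abs_le]
  push_cast
  rw [← hD]
  constructor
  · have hlow : ∀ s, -((θ + (2 * cst d + 2) * η) * D) ≤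
        ∑ j, (k X (Ys s j) + esc v d F X + esc v d F (Ys s j)) := by
      intro s
      obtain ⟨W, hW1, hW2, hW3⟩ := hk.gen X hX _ (Ys s) (h0 s)
      obtain ⟨hW0, hW4⟩ := modulus h hd hF hw hw0 l hX hW1
      have h3 := hsum W hW0 s hW2
      have h4 := grn_ge h hd hF hw (X := (app F)^[n] W) (Y := Y s) (by
        rw [h1]; exact prod_ne_zero_iff.2 fun j _ => hW2 j)
      have e' : (2 * cst d + 1) * w / (d : ℝ) ^ l = (2 * cst d + 1) * η := by rw [hη]; ring
      rw [e'] at hW4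
      have h5 := mul_le_mul_of_nonneg_left hW4 hD0.le
      push_cast at hW3
      rw [← hD] at hW3
      rw [hA]
      nlinarith
    have := card_nsmul_le_sum univ _ _ fun s _ => hlow s
    simp only [card_univ, Fintype.card_fin, nsmul_eq_mul] at this
    push_cast at this
    linarith
  · let good : Fin (M + 1) → Prop := fun s =>
      wedge ((app F)^[n] X) (Y s) ≠ 0 ∧ grn v d F ((app F)^[n] X) (Y s) ≤ C
    have hB0 : 0 ≤ B' := (abs_nonneg _).trans (hk.bd' h hd hF hw hX hX)
    have hup : ∀ s, ∑ j, (k X (Ys s j) + esc v d F X + esc v d F (Ys s j)) ≤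
        C + if good s then 0 else B' * D := by
      intro s
      split_ifs with hg
      · have hj : ∀ j, wedge X (Ys s j) ≠ 0 := fun j =>
          prod_ne_zero_iff.1 (h1 s X ▸ hg.1) j (mem_univ j)
        have h3 := hsum X hX s hj
        have h4 : ∑ j, k X (Ys s j) ≤ ∑ j, - log (v (wedge X (Ys s j))) :=
          sum_le_sum fun j _ => hk.le _ _ (hj j)
        rw [sum_neg_distrib] at h4
        rw [hA]
        linarith [hg.2]
      · have := sum_le_card_nsmul univ _ _ fun j _ =>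
          (abs_le.1 (hk.bd' h hd hF hw hX (h0 s j))).2
        simp only [card_univ, Fintype.card_fin, nsmul_eq_mul] at this
        push_cast at this
        linarith
    have h3 := sum_le_sum fun s (_ : s ∈ univ) => hup s
    rw [sum_add_distrib, sum_ite] at h3
    simp only [sum_const, card_univ, Fintype.card_fin, nsmul_eq_mul, mul_zero, zero_add] at h3
    have h4 : (univ.filter fun s => ¬ good s).card ≤ 1 := by
      refine card_le_one.2 fun s hs t ht => ?_
      by_contra hst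
      exact (hsep _ (hN.iter_ne n hX) s t hst).elim (mem_filter.1 hs).2 (mem_filter.1 ht).2
    have h5 : ((univ.filter fun s => ¬ good s).card : ℝ) * (B' * D) ≤ B' * D :=
      mul_le_of_le_one_left (by positivity) (by exact_mod_cast h4)
    push_cast at h3
    have h6 : C ≤ D * η := by nlinarith [mul_pos hc hw0]
    have h7 : ((M : ℝ) + 1) * C ≤ (M + 1) * (D * η) :=
      mul_le_mul_of_nonneg_left h6 (by positivity)
    have h8 : B' * D ≤ (M + 1) * η * D :=
      mul_le_mul_of_nonneg_right (by linarith) hD0.le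
    have h9 : 0 ≤ (θ + 2 * cst d * η) * ((M + 1) * D) := by positivity
    nlinarith

/-- The main inequality. -/
lemma main [IsAlgClosed K] (h : Place v a) (hd : 2 ≤ d) (hF : Normal d F) {w : ℝ}
    (hw : wt v d F + a ≤ w) (hw0 : 0 < w) (l : ℕ) {B θ : ℝ} (hθ : 0 ≤ θ) {k : V K → V K → ℝ}
    (hk : Ker v B (exp (-(rho d l * w))) θ k) {N : ℕ} (hN : 2 ≤ N) {X : ℕ → V K}
    (hX : ∀ j < N, ∀ i < N, j ≠ i → wedge (X j) (X i) ≠ 0) {t : ℝ} (ht : 0 ≤ t) {Z Z' : V K}
    (hZ : Z ≠ 0) (hZ' : Z' ≠ 0) :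
    2 * t * (((∑ j ∈ range N, k Z (X j)) / N + esc v d F Z) -
      ((∑ j ∈ range N, k Z' (X j)) / N + esc v d F Z')) ≤
      en v d F N X / (N : ℝ) ^ 2 + (B + 2 * cst d * w) / N +
        (3 + 4 * t) * (θ + (2 * cst d + 2) * w / (d : ℝ) ^ l) +
        4 * (B + 2 * cst d * w) * t ^ 2 := by
  classical
  obtain ⟨M, D, m, hD, hm0, hm⟩ := exists_eq h hd hF hw hw0 l hθ hk
  have hX0 : ∀ j < N, X j ≠ 0 := fun j hj hc => by
    by_cases h0 : j = 0
    · exact hX j hj 1 (by omega) (by omega) (by rw [hc, wedge_zero_left])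
    · exact hX j hj 0 (by omega) h0 (by rw [hc, wedge_zero_left])
  have : Nonempty (Fin D) := ⟨⟨0, hD⟩⟩
  have : Nonempty (Fin N) := ⟨⟨0, by omega⟩⟩
  have hN0 : (0 : ℝ) < N := by positivity
  have key := basic (α := {X : V K // X ≠ 0})
    (fun x y => k x y + esc v d F x + esc v d F y) (fun x y => by rw [hk.symm]; ring)
    (fun I _ P c hc => by
      have h1 := hk.cpd I (fun i => P i) c (fun i => (P i).2) hc
      have h2 := cpd_of_psd (k := fun i j => esc v d F (P i) + esc v d F (P j))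
        (s := fun _ _ => 0) (fun c => by simp) (fun i => esc v d F (P i)) (by simp) c hc
      simp only [add_assoc, mul_add _ (k _ _), sum_add_distrib]
      exact add_nonneg h1 h2)
    (fun x y => hk.bd' h hd hF hw x.2 y.2) (fun j => ⟨m j, hm0 j⟩)
    (fun x => by simpa using hm x x.2) (fun j : Fin N => ⟨X j, hX0 j j.2⟩) ht ⟨Z, hZ⟩ ⟨Z', hZ'⟩
  simp only [Fintype.card_fin] at key
  have e1 : ∀ Z, (∑ j : Fin N, (k Z (X j) + esc v d F Z + esc v d F (X j))) / N =
      (∑ j ∈ range N, k Z (X j)) / N + esc v d F Z + (∑ j : Fin N, esc v d F (X j)) / N := by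
    intro Z
    rw [sum_add_distrib, sum_add_distrib, Fin.sum_univ_eq_sum_range (fun j => k Z (X j))]
    simp only [sum_const, card_univ, Fintype.card_fin, nsmul_eq_mul]
    field_simp
  rw [e1, e1] at key
  have e2 : ∑ i : Fin N, ∑ j : Fin N, (k (X i) (X j) + esc v d F (X i) + esc v d F (X j)) ≤
      en v d F N X + N * (B + 2 * cst d * w) := by
    rw [Fin.sum_univ_eq_sum_range (fun i => ∑ j : Fin N,
      (k (X i) (X j) + esc v d F (X i) + esc v d F (X j))), en]
    have : (N : ℝ) * (B + 2 * cst d * w) = ∑ _i ∈ range N, (B + 2 * cst d * w) := by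
      rw [sum_const, card_range, nsmul_eq_mul]
    rw [this, ← sum_add_distrib]
    refine sum_le_sum fun i hi => ?_
    rw [Fin.sum_univ_eq_sum_range (fun j => k (X i) (X j) + esc v d F (X i) + esc v d F (X j))]
    have h1 : B + 2 * cst d * w = ∑ j ∈ range N, if i = j then B + 2 * cst d * w else 0 := by
      rw [sum_ite_eq, if_pos hi]
    rw [h1, ← sum_add_distrib]
    refine sum_le_sum fun j hj => ?_
    rw [mem_range] at hi hj
    split_ifs with hij
    · rw [zero_add]
      exact (abs_le.1 (hk.bd' h hd hF hw (hX0 i hi) (hX0 j hj))).2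
    · have := hk.le _ _ (hX i hi j hj hij)
      unfold grn
      linarith
  have e3 := div_le_div_of_nonneg_right e2 (sq_nonneg (N : ℝ))
  have e4 : (en v d F N X + N * (B + 2 * cst d * w)) / (N : ℝ) ^ 2 =
      en v d F N X / (N : ℝ) ^ 2 + (B + 2 * cst d * w) / N := by field_simp
  linarith

end Pool.Agent.MP_3827f0_nt.H92.PotAux
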