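import Mathlib

/-! The area formula with multiplicities and the integrability of a quadratic differential. -/

set_option autoImplicit false

namespace Pool.Agent.MP_3827f0_nt.H92.THAnAux

open MeasureTheory Set Filter Topology Metric
open scoped ENNReal

theorem det_mul (a : ℂ) :
    ((ContinuousLinearMap.toSpanSingleton ℂ a).restrictScalars ℝ : ℂ →L[ℝ] ℂ).det = ‖a‖ ^ 2 := by
  simp [ContinuousLinearMap.det, LinearMap.det_restrictScalars,
      Algebra.norm_complex_eq, Complex.normSq_eq_norm_sq]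

theorem cover {U : Set ℂ} (hU : IsOpen U) {f f' : ℂ → ℂ}
    (hf : ∀ z ∈ U, HasStrictDerivAt f (f' z) z) (hne : ∀ z ∈ U, f' z ≠ 0) :
    ∃ A : ℕ → Set ℂ, (∀ n, MeasurableSet (A n)) ∧ Pairwise (Function.onFun Disjoint A) ∧
      (∀ n, InjOn f (A n)) ∧ ⋃ n, A n = U := by
  have h1 : ∀ z ∈ U, ∃ B : Set ℂ, IsOpen B ∧ z ∈ B ∧ B ⊆ U ∧ InjOn f B := by
    intro z hz
    have h := (hf z hz).hasStrictFDerivAt_equiv (hne z hz)
    refine ⟨(h.toOpenPartialHomeomorph f).source ∩ U,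
      (h.toOpenPartialHomeomorph f).open_source.inter hU,
      ⟨h.mem_toOpenPartialHomeomorph_source, hz⟩, inter_subset_right, ?_⟩
    exact ((h.toOpenPartialHomeomorph f).injOn).mono inter_subset_left
  choose! B hBo hBz hBU hBi using h1
  rcases U.eq_empty_or_nonempty with rfl | hUne
  · exact ⟨fun _ => ∅, fun _ => MeasurableSet.empty, fun _ _ _ => by simp [Function.onFun],
      fun _ => injOn_empty _, by simp⟩
  obtain ⟨t, htU, htc, hcov⟩ := TopologicalSpace.countable_cover_nhdsWithin (f := B) (s := U)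
    (fun z hz => mem_nhdsWithin_of_mem_nhds ((hBo z hz).mem_nhds (hBz z hz)))
  have htne : t.Nonempty := by
    obtain ⟨z, hz⟩ := hUne
    obtain ⟨x, hx, -⟩ := mem_iUnion₂.1 (hcov hz)
    exact ⟨x, hx⟩
  obtain ⟨e, he⟩ := htc.exists_eq_range htne
  have het : ∀ n, e n ∈ U := fun n => htU (he ▸ mem_range_self n)
  refine ⟨disjointed fun n => B (e n),
    MeasurableSet.disjointed fun n => (hBo _ (het n)).measurableSet, disjoint_disjointed _,
    fun n => (hBi _ (het n)).mono (disjointed_subset _ n), ?_⟩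
  rw [iUnion_disjointed]
  apply Subset.antisymm
  · exact iUnion_subset fun n => hBU _ (het n)
  · intro z hz
    obtain ⟨x, hx, hzx⟩ := mem_iUnion₂.1 (hcov hz)
    rw [he] at hx
    obtain ⟨n, rfl⟩ := hx
    exact mem_iUnion.2 ⟨n, hzx⟩

theorem area {U : Set ℂ} (hU : IsOpen U) {f f' : ℂ → ℂ}
    (hf : ∀ z ∈ U, HasStrictDerivAt f (f' z) z) (hne : ∀ z ∈ U, f' z ≠ 0)
    {g : ℂ → ℝ≥0∞} (hg : Measurable g) :
    ∃ Γ : ℂ → ℝ≥0∞, Measurable Γ ∧
      ∫⁻ z in U, ENNReal.ofReal (‖f' z‖ ^ 2) * g z = ∫⁻ w, Γ w ∧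
      ∀ (w : ℂ) (T : Finset ℂ), (∀ z, z ∈ T ↔ z ∈ U ∧ f z = w) → Γ w = ∑ z ∈ T, g z := by
  classical
  obtain ⟨A, hAm, hAd, hAi, hAU⟩ := cover hU hf hne
  have hAs : ∀ n, A n ⊆ U := fun n => hAU ▸ subset_iUnion A n
  set D : ℂ → ℂ →L[ℝ] ℂ := fun z =>
    (ContinuousLinearMap.toSpanSingleton ℂ (f' z)).restrictScalars ℝ with hD
  have hder : ∀ n, ∀ z ∈ A n, HasFDerivWithinAt f (D z) (A n) z := fun n z hz =>
    ((hf z (hAs n hz)).hasDerivAt.hasFDerivAt.restrictScalars ℝ).hasFDerivWithinAt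
  have hφ : ∀ n, ∃ φ : ℂ → ℂ, Measurable φ ∧ ∀ z ∈ A n, φ (f z) = z := by
    intro n
    obtain ⟨φ, hφm, hφ⟩ := (measurableEmbedding_of_fderivWithin (hAm n) (hder n)
      (hAi n)).exists_measurable_extend (g := Subtype.val) measurable_subtype_coe
      (fun _ => ⟨0⟩)
    exact ⟨φ, hφm, fun z hz => congrFun hφ ⟨z, hz⟩⟩
  choose φ hφm hφ using hφ
  have hIm : ∀ n, MeasurableSet (f '' A n) := fun n =>
    measurable_image_of_fderivWithin (hAm n) (hder n) (hAi n)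
  have hm : ∀ n, Measurable ((f '' A n).indicator fun w => g (φ n w)) := fun n =>
    (hg.comp (hφm n)).indicator (hIm n)
  refine ⟨fun w => ∑' n, (f '' A n).indicator (fun w => g (φ n w)) w,
    Measurable.tsum hm, ?_, ?_⟩
  · rw [lintegral_tsum fun n => (hm n).aemeasurable]
    conv_lhs => rw [← hAU]
    rw [lintegral_iUnion hAm hAd]
    refine tsum_congr fun n => ?_
    rw [lintegral_indicator (hIm n),
      lintegral_image_eq_lintegral_abs_det_fderiv_mul volume (hAm n) (hder n) (hAi n)]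
    refine setLIntegral_congr_fun (hAm n) fun z hz => ?_
    simp only [hD, det_mul, hφ n z hz]
    rw [abs_of_nonneg (by positivity)]
  · intro w T hT
    have h1 : ∀ n, (f '' A n).indicator (fun w => g (φ n w)) w =
        ∑ z ∈ T, (A n).indicator g z := by
      intro n
      by_cases hw : w ∈ f '' A n
      · obtain ⟨z, hz, rfl⟩ := hw
        rw [indicator_of_mem (mem_image_of_mem f hz), hφ n z hz,
          Finset.sum_eq_single z, indicator_of_mem hz]
        · intro y hy hyz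
          refine indicator_of_notMem (fun hyA => hyz ?_) _
          exact hAi n hyA hz ((hT y).1 hy).2
        · intro hzT
          exact absurd ((hT z).2 ⟨hAs n hz, rfl⟩) hzT
      · rw [indicator_of_notMem hw]
        refine (Finset.sum_eq_zero fun y hy => indicator_of_notMem (fun hyA => hw ?_) _).symm
        exact ⟨y, hyA, ((hT y).1 hy).2⟩
    simp only [h1]
    rw [Summable.tsum_finsetSum fun _ _ => ENNReal.summable]
    refine Finset.sum_congr rfl fun z hz => ?_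
    have hzU : z ∈ ⋃ n, A n := hAU ▸ ((hT z).1 hz).1
    obtain ⟨n, hn⟩ := mem_iUnion.1 hzU
    rw [tsum_eq_single n, indicator_of_mem hn]
    intro m hmn
    exact indicator_of_notMem (fun hm' => (Set.disjoint_left.1 (hAd hmn)) hm' hn) _

theorem locInt (p c : ℂ) : LocallyIntegrable (fun z : ℂ => c / (z - p)) volume := by
  have h0 : LocallyIntegrable (fun z : ℂ => c / z) volume := by
    refine locallyIntegrable_of_norm_le_rpow (C := ‖c‖) (α := 1) (by simp) (by simp)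
      (Eventually.of_forall fun z => ?_) (Measurable.aestronglyMeasurable (by fun_prop))
    rw [norm_div, Real.rpow_neg_one, div_eq_mul_inv]
  rw [locallyIntegrable_iff] at h0 ⊢
  intro K hK
  have h1 := h0 ((fun z => z - p) '' K) (hK.image (by fun_prop))
  have h2 := (measurePreserving_sub_right (volume : Measure ℂ) p).integrableOn_comp_preimage
    (MeasurableEquiv.subRight p).measurableEmbedding (f := fun z : ℂ => c / z)
    (s := (fun z => z - p) '' K)
  exact (h2.2 h1).mono_set (subset_preimage_image _ _)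

theorem integrable_rho (S : Finset ℂ) (r : ℂ → ℂ) (h : ∀ k < 3, ∑ p ∈ S, r p * p ^ k = 0) :
    Integrable (fun z : ℂ => ∑ p ∈ S, r p / (z - p)) volume := by
  have hloc : LocallyIntegrable (fun z : ℂ => ∑ p ∈ S, r p / (z - p)) volume :=
    locallyIntegrable_finsetSum _ fun p _ => locInt p (r p)
  have hg : Integrable (fun z : ℂ => (1 + ‖z‖) ^ (-(3 : ℝ))) volume :=
    integrable_one_add_norm (by simp; norm_num)
  refine hloc.integrable_of_isBigO_cocompact ?_ (hg.integrableAtFilter _)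
  obtain ⟨R, hR⟩ : ∃ R : ℝ, ∀ p ∈ S, ‖p‖ ≤ R :=
    ⟨∑ p ∈ S, ‖p‖, fun p hp => Finset.single_le_sum (f := fun p : ℂ => ‖p‖)
      (fun _ _ => norm_nonneg _) hp⟩
  refine Asymptotics.IsBigO.of_bound (8 * ∑ p ∈ S, ‖r p * p ^ 3‖) ?_
  have hev : ∀ᶠ z : ℂ in cocompact ℂ, max 1 (R + 1) ≤ ‖z‖ :=
    (tendsto_norm_cocompact_atTop (E := ℂ)).eventually (eventually_ge_atTop _)
  filter_upwards [hev] with z hz
  have hz1 : 1 ≤ ‖z‖ := le_trans (le_max_left _ _) hz
  have hzR : R + 1 ≤ ‖z‖ := le_trans (le_max_right _ _) hz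
  have hzp : ∀ p ∈ S, 1 ≤ ‖z - p‖ := fun p hp => by
    have := norm_sub_norm_le z p
    linarith [hR p hp]
  have hz0 : z ≠ 0 := fun h0 => by rw [h0, norm_zero] at hz1; linarith
  have key : z ^ 3 * ∑ p ∈ S, r p / (z - p) = ∑ p ∈ S, r p * p ^ 3 / (z - p) := by
    have e : ∀ p ∈ S, z ^ 3 * (r p / (z - p)) =
        z ^ 2 * (r p * p ^ 0) + z * (r p * p ^ 1) + r p * p ^ 2 + r p * p ^ 3 / (z - p) := by
      intro p hp
      have : z - p ≠ 0 := fun h0 => by
        have := hzp p hp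
        rw [h0, norm_zero] at this; linarith
      field_simp
      ring
    rw [Finset.mul_sum, Finset.sum_congr rfl e]
    simp only [Finset.sum_add_distrib, ← Finset.mul_sum]
    rw [h 0 (by norm_num), h 1 (by norm_num), h 2 (by norm_num)]
    ring
  have hb : ‖z‖ ^ 3 * ‖∑ p ∈ S, r p / (z - p)‖ ≤ ∑ p ∈ S, ‖r p * p ^ 3‖ := by
    rw [← norm_pow, ← norm_mul, key]
    refine (norm_sum_le _ _).trans (Finset.sum_le_sum fun p hp => ?_)
    rw [norm_div]
    exact div_le_self (norm_nonneg _) (hzp p hp)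
  have hpos : 0 < (1 + ‖z‖) ^ 3 := by positivity
  rw [Real.norm_of_nonneg (Real.rpow_nonneg (by positivity) _), Real.rpow_neg (by positivity),
    show (3 : ℝ) = ((3 : ℕ) : ℝ) by norm_num, Real.rpow_natCast, ← div_eq_mul_inv,
    le_div_iff₀ hpos]
  have h8 : (1 + ‖z‖) ^ 3 ≤ 8 * ‖z‖ ^ 3 := by
    calc (1 + ‖z‖) ^ 3 ≤ (2 * ‖z‖) ^ 3 := by gcongr; linarith
      _ = 8 * ‖z‖ ^ 3 := by ring
  calc ‖∑ p ∈ S, r p / (z - p)‖ * (1 + ‖z‖) ^ 3 ≤ ‖∑ p ∈ S, r p / (z - p)‖ * (8 * ‖z‖ ^ 3) := by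
        gcongr
    _ = 8 * (‖z‖ ^ 3 * ‖∑ p ∈ S, r p / (z - p)‖) := by ring
    _ ≤ _ := by gcongr

theorem ev_rho_ne (S : Finset ℂ) (r : ℂ → ℂ) {p : ℂ} (hp : p ∈ S) (hr : r p ≠ 0) :
    ∀ᶠ w in 𝓝[≠] p, ∑ q ∈ S, r q / (w - q) ≠ 0 := by
  classical
  have hc : ContinuousAt (fun w : ℂ => r p + (w - p) * ∑ q ∈ S.erase p, r q / (w - q)) p := by
    refine continuousAt_const.add ((continuousAt_id.sub continuousAt_const).mul ?_)
    refine tendsto_finsetSum _ fun q hq => ?_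
    exact continuousAt_const.div (continuousAt_id.sub continuousAt_const)
      (sub_ne_zero.2 (Finset.ne_of_mem_erase hq).symm)
  have h1 : ∀ᶠ w in 𝓝 p, r p + (w - p) * ∑ q ∈ S.erase p, r q / (w - q) ≠ 0 :=
    hc.eventually_ne (by simpa using hr)
  filter_upwards [mem_nhdsWithin_of_mem_nhds h1, self_mem_nhdsWithin] with w hw hwp h0
  apply hw
  have hne : w - p ≠ 0 := sub_ne_zero.2 hwp
  rw [← Finset.add_sum_erase S _ hp] at h0
  have : r p + (w - p) * ∑ q ∈ S.erase p, r q / (w - q) =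
      (w - p) * (r p / (w - p) + ∑ q ∈ S.erase p, r q / (w - q)) := by
    field_simp
  rw [this, h0, mul_zero]

theorem re_le (t s : ℂ) : (t * (starRingEnd ℂ) s / (‖s‖ : ℂ)).re ≤ ‖t‖ := by
  refine (Complex.re_le_norm _).trans ?_
  rw [norm_div, norm_mul, Complex.norm_conj, Complex.norm_real, norm_norm]
  by_cases h : ‖s‖ = 0
  · rw [h, div_zero]; exact norm_nonneg _
  · rw [mul_div_assoc, div_self h, mul_one]

theorem re_self (s : ℂ) : (s * (starRingEnd ℂ) s / (‖s‖ : ℂ)).re = ‖s‖ := by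
  rw [Complex.mul_conj, Complex.normSq_eq_norm_sq, ← Complex.ofReal_div, Complex.ofReal_re]
  by_cases h : ‖s‖ = 0
  · simp [h]
  · field_simp

theorem im_zero {t s : ℂ} (hs : s ≠ 0) (h : ‖t‖ = (t * (starRingEnd ℂ) s / (‖s‖ : ℂ)).re) :
    (t / s).im = 0 := by
  have hn : ‖s‖ ≠ 0 := norm_ne_zero_iff.2 hs
  have hc : (‖s‖ : ℂ) ≠ 0 := by exact_mod_cast hn
  set u := t * (starRingEnd ℂ) s / (‖s‖ : ℂ) with hu
  have h1 : ‖u‖ = ‖t‖ := by
    rw [hu, norm_div, norm_mul, Complex.norm_conj, Complex.norm_real, norm_norm]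
    field_simp
  have h2 : u.im = 0 := by
    have h3 := Complex.sq_norm u
    rw [h1, h, Complex.normSq_apply] at h3
    nlinarith [mul_self_nonneg u.im]
  have h4 : t / s = u / (‖s‖ : ℂ) := by
    have h5 : s * (starRingEnd ℂ) s = (‖s‖ : ℂ) ^ 2 := by
      rw [Complex.mul_conj, Complex.normSq_eq_norm_sq]; push_cast; ring
    rw [hu, div_div, ← sq, ← h5]
    have : (starRingEnd ℂ) s ≠ 0 := by simpa using hs
    field_simp
  rw [h4, Complex.div_ofReal_im, h2, zero_div]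

theorem core {U : Set ℂ} (hU : IsOpen U) {f f' ρ : ℂ → ℂ}
    (hf : ∀ z ∈ U, HasStrictDerivAt f (f' z) z) (hne : ∀ z ∈ U, f' z ≠ 0)
    (mf : Measurable f) (mf' : Measurable f') (mρ : Measurable ρ) (hρ : Integrable ρ volume)
    (hsum : ∀ᵐ w : ℂ, ∃ T : Finset ℂ, (∀ z, z ∈ T ↔ z ∈ U ∧ f z = w) ∧
      ∑ z ∈ T, ρ z / f' z ^ 2 = ρ w) :
    ∀ᵐ z ∂(volume.restrict U), ‖ρ z / f' z ^ 2‖ =
      (ρ z / f' z ^ 2 * (starRingEnd ℂ) (ρ (f z)) / (‖ρ (f z)‖ : ℂ)).re := by
  set t : ℂ → ℂ := fun z => ρ z / f' z ^ 2 with ht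
  set g : ℂ → ℝ := fun z => ‖t z‖ - (t z * (starRingEnd ℂ) (ρ (f z)) / (‖ρ (f z)‖ : ℂ)).re
    with hg
  have mt : Measurable t := mρ.div (mf'.pow_const 2)
  have mg : Measurable g := by
    refine mt.norm.sub (Complex.measurable_re.comp ((mt.mul ?_).div ?_))
    · exact Complex.continuous_conj.measurable.comp (mρ.comp mf)
    · exact Complex.measurable_ofReal.comp (mρ.comp mf).norm
  have g0 : ∀ z, 0 ≤ g z := fun z => sub_nonneg.2 (re_le _ _)
  obtain ⟨Γ₁, m1, i1, s1⟩ := area hU hf hne (g := fun z => ENNReal.ofReal (g z))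
    mg.ennreal_ofReal
  obtain ⟨Γ₂, m2, i2, s2⟩ := area hU hf hne (g := fun z => ENNReal.ofReal ‖t z‖)
    mt.norm.ennreal_ofReal
  have e1 : ∀ᵐ w : ℂ, Γ₂ w = Γ₁ w + ENNReal.ofReal ‖ρ w‖ := by
    filter_upwards [hsum] with w ⟨T, hT, hs⟩
    rw [s1 w T hT, s2 w T hT, ← ENNReal.ofReal_sum_of_nonneg fun _ _ => norm_nonneg _,
      ← ENNReal.ofReal_sum_of_nonneg fun _ _ => g0 _,
      ← ENNReal.ofReal_add (Finset.sum_nonneg fun _ _ => g0 _) (norm_nonneg _)]
    congr 1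
    have e : ∀ z ∈ T, g z = ‖t z‖ - (t z * (starRingEnd ℂ) (ρ w) / (‖ρ w‖ : ℂ)).re := by
      intro z hz
      simp only [hg, ((hT z).1 hz).2]
    rw [Finset.sum_congr rfl e, Finset.sum_sub_distrib, ← Complex.re_sum, ← Finset.sum_div,
      ← Finset.sum_mul]
    simp only [ht] at hs ⊢
    rw [hs, re_self]
    ring
  have hI : ∫⁻ w, ENNReal.ofReal ‖ρ w‖ ≠ ∞ := by
    have := hρ.2
    rw [hasFiniteIntegral_iff_norm] at this
    exact this.ne
  have e2 : ∫⁻ w, Γ₂ w ≤ ∫⁻ w, ENNReal.ofReal ‖ρ w‖ := by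
    rw [← i2]
    refine le_trans (le_of_eq ?_) (setLIntegral_le_lintegral U _)
    refine setLIntegral_congr_fun hU.measurableSet fun z hz => ?_
    have := hne z hz
    simp only [ht]
    rw [← ENNReal.ofReal_mul (by positivity), norm_div, norm_pow]
    congr 1
    have : ‖f' z‖ ≠ 0 := norm_ne_zero_iff.2 this
    field_simp
  have e3 : ∫⁻ w, Γ₁ w = 0 := by
    rw [lintegral_congr_ae e1, lintegral_add_left m1] at e2
    have : (∫⁻ w, Γ₁ w) + ∫⁻ w, ENNReal.ofReal ‖ρ w‖ ≤ 0 + ∫⁻ w, ENNReal.ofReal ‖ρ w‖ := by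
      rwa [zero_add]
    exact le_antisymm ((ENNReal.add_le_add_iff_right hI).1 this) bot_le
  have mm : Measurable fun z => ENNReal.ofReal (‖f' z‖ ^ 2) * ENNReal.ofReal (g z) :=
    (mf'.norm.pow_const 2).ennreal_ofReal.mul mg.ennreal_ofReal
  rw [← i1, lintegral_eq_zero_iff mm] at e3
  filter_upwards [e3, ae_restrict_mem hU.measurableSet] with z hz hzU
  have hpos : 0 < ‖f' z‖ ^ 2 := pow_pos (norm_pos_iff.2 (hne z hzU)) 2
  simp only [Pi.zero_apply, mul_eq_zero, ENNReal.ofReal_eq_zero] at hz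
  rcases hz with hz | hz
  · linarith
  · have := g0 z
    have h0 : g z = 0 := le_antisymm hz this
    exact sub_eq_zero.1 h0

theorem prop {U : Set ℂ} (hU : IsOpen U) (hc : IsPreconnected U) {t s : ℂ → ℂ}
    (ht : AnalyticOnNhd ℂ t U) (hs : AnalyticOnNhd ℂ s U) {z₀ : ℂ} (h0 : z₀ ∈ U) (hs0 : s z₀ ≠ 0)
    (h : ∀ᵐ z ∂(volume.restrict U),
      ‖t z‖ = (t z * (starRingEnd ℂ) (s z) / (‖s z‖ : ℂ)).re) :
    ∃ c : ℂ, ∀ z ∈ U, t z = c * s z := by
  have h1 : ∀ᶠ z in 𝓝 z₀, z ∈ U ∧ s z ≠ 0 :=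
    (hU.eventually_mem h0).and ((hs z₀ h0).continuousAt.eventually_ne hs0)
  obtain ⟨ε, hε, hb⟩ := Metric.eventually_nhds_iff_ball.1 h1
  have hsub : ball z₀ ε ⊆ U := fun z hz => (hb z hz).1
  have ha : AnalyticOnNhd ℂ (fun z => t z / s z) (ball z₀ ε) := fun z hz =>
    (ht z (hsub hz)).div (hs z (hsub hz)) (hb z hz).2
  have h2 : (fun z => (t z / s z).im) =ᵐ[volume.restrict (ball z₀ ε)] fun _ => (0 : ℝ) := by
    filter_upwards [ae_restrict_of_ae_restrict_of_subset hsub h,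
      ae_restrict_mem isOpen_ball.measurableSet] with z hz hzb
    exact im_zero (hb z hzb).2 hz
  have h3 := Measure.eqOn_open_of_ae_eq h2 isOpen_ball
    (Complex.continuous_im.comp_continuousOn ha.continuousOn) continuousOn_const
  obtain ⟨c, hc'⟩ := ha.eq_const_of_im_eq_const (c₀ := 0) (fun z hz => h3 hz) isOpen_ball
    (convex_ball z₀ ε |>.isConnected ⟨z₀, mem_ball_self hε⟩)
  refine ⟨c, ht.eqOn_of_preconnected_of_eventuallyEq (g := fun z => c * s z)
    (fun z hz => analyticAt_const.mul (hs z hz)) hc h0 ?_⟩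
  filter_upwards [ball_mem_nhds z₀ hε] with z hz
  have := hc' z hz
  rw [div_eq_iff (hb z hz).2] at this
  exact this

end Pool.Agent.MP_3827f0_nt.H92.THAnAux
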