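import Pool.Agent.MP_3827f0_nt.H92.THAlg
import Pool.Agent.MP_3827f0_nt.H92.THAnAux

/-! Infinitesimal rigidity: the area argument. -/

set_option autoImplicit false

namespace Pool.Agent.MP_3827f0_nt.H92

open Polynomial

namespace THAnAux

open MeasureTheory Set Filter Topology

variable {d : ℕ} {P Q : ℂ[X]} {S : Finset ℂ}

theorem wr_ne (h : THData d P Q S) : wr P Q ≠ 0 := by
  intro h0
  have h1 := h.degW
  have h2 := h.two
  rw [h0, natDegree_zero] at h1
  omega

theorem Q_ne (h : THData d P Q S) : Q ≠ 0 := by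
  intro h0
  apply wr_ne h
  simp [wr, h0]

theorem fib_ne {w : ℂ} (hw : P.coeff d - w * Q.coeff d ≠ 0) : P - C w * Q ≠ 0 := by
  intro h0
  apply hw
  have := congrArg (fun p : ℂ[X] => p.coeff d) h0
  simpa using this

theorem fib_deg (h : THData d P Q S) {w : ℂ} (hw : P.coeff d - w * Q.coeff d ≠ 0) :
    (P - C w * Q).natDegree = d := by
  refine natDegree_eq_of_le_of_coeff_ne_zero ?_ (by simpa using hw)
  exact (natDegree_sub_le _ _).trans (max_le h.degP ((natDegree_C_mul_le _ _).trans h.degQ))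

theorem fib_root (h : THData d P Q S) {w z : ℂ} :
    (P - C w * Q).IsRoot z ↔ Q.eval z ≠ 0 ∧ P.eval z / Q.eval z = w := by
  simp only [IsRoot.def, eval_sub, eval_mul, eval_C]
  constructor
  · intro h0
    have hQ : Q.eval z ≠ 0 := fun hQ => h.co z (by simpa [hQ] using h0) hQ
    exact ⟨hQ, by rw [div_eq_iff hQ]; linear_combination h0⟩
  · rintro ⟨hQ, rfl⟩
    field_simp
    ring

theorem fib_nodup (h : THData d P Q S) {w : ℂ} (hwS : w ∉ S)
    (hw : P.coeff d - w * Q.coeff d ≠ 0) : (P - C w * Q).roots.Nodup := by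
  classical
  rw [Multiset.nodup_iff_count_le_one]
  intro z
  rw [count_roots]
  by_contra hlt
  have hlt' : 1 < rootMultiplicity z (P - C w * Q) := not_le.1 hlt
  obtain ⟨h1, h2⟩ := (one_lt_rootMultiplicity_iff_isRoot (fib_ne hw)).1 hlt'
  obtain ⟨hQ, hf⟩ := (fib_root h).1 h1
  have hW : (wr P Q).eval z = 0 := by
    simp only [IsRoot.def, eval_sub, eval_mul, eval_C, derivative_sub, derivative_mul,
      derivative_C, zero_mul, zero_add] at h1 h2
    simp only [wr, eval_sub, eval_mul]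
    linear_combination Q.eval z * h2 - (derivative Q).eval z * h1
  exact hwS (hf ▸ (h.crit z hW).2)

theorem good_fin (h : THData d P Q S) :
    {w : ℂ | ¬ (w ∉ S ∧ P.coeff d - w * Q.coeff d ≠ 0)}.Finite := by
  have h1 : {w : ℂ | P.coeff d - w * Q.coeff d = 0}.Finite := by
    refine Set.Subsingleton.finite fun a ha b hb => ?_
    by_contra hab
    simp only [mem_ofPred_eq] at ha hb
    have hq : Q.coeff d = 0 := by
      have : (a - b) * Q.coeff d = 0 := by linear_combination hb - ha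
      exact (mul_eq_zero.1 this).resolve_left (sub_ne_zero.2 hab)
    have hp : P.coeff d = 0 := by simpa [hq] using ha
    have hd := h.two
    have dP : P.natDegree ≤ d - 1 := by
      refine natDegree_le_iff_coeff_eq_zero.2 fun n hn => ?_
      rcases eq_or_lt_of_le (show d ≤ n by omega) with rfl | hlt
      · exact hp
      · exact coeff_eq_zero_of_natDegree_lt (lt_of_le_of_lt h.degP hlt)
    have dQ : Q.natDegree ≤ d - 1 := by
      refine natDegree_le_iff_coeff_eq_zero.2 fun n hn => ?_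
      rcases eq_or_lt_of_le (show d ≤ n by omega) with rfl | hlt
      · exact hq
      · exact coeff_eq_zero_of_natDegree_lt (lt_of_le_of_lt h.degQ hlt)
    have dP' : (derivative P).natDegree ≤ d - 2 :=
      (natDegree_derivative_le _).trans (by omega)
    have dQ' : (derivative Q).natDegree ≤ d - 2 :=
      (natDegree_derivative_le _).trans (by omega)
    have dW : (wr P Q).natDegree ≤ 2 * d - 3 := by
      refine (natDegree_sub_le _ _).trans (max_le ?_ ?_)
      · exact natDegree_mul_le.trans (by omega)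
      · exact natDegree_mul_le.trans (by omega)
    rw [h.degW] at dW
    omega
  refine (S.finite_toSet.union h1).subset fun w hw => ?_
  simp only [mem_ofPred_eq, not_and, not_not] at hw
  by_cases hS : w ∈ S
  · exact Or.inl hS
  · exact Or.inr (hw hS)

theorem bad_fin (h : THData d P Q S) :
    {z : ℂ | Q.eval z ≠ 0 ∧ P.eval z / Q.eval z ∉ S}ᶜ.Finite := by
  have h1 : {z : ℂ | Q.IsRoot z}.Finite := finite_setOfPred_isRoot (Q_ne h)
  have h2 : (⋃ w ∈ S, {z : ℂ | (P - C w * Q).IsRoot z}).Finite :=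
    S.finite_toSet.biUnion fun w hw => finite_setOfPred_isRoot (fib_ne (h.top w hw))
  refine (h1.union h2).subset fun z hz => ?_
  simp only [mem_compl_iff, mem_ofPred_eq, not_and, not_not] at hz
  by_cases hQ : Q.eval z = 0
  · exact Or.inl hQ
  · exact Or.inr (mem_iUnion₂.2 ⟨_, hz hQ, (fib_root h).2 ⟨hQ, rfl⟩⟩)

end THAnAux

open THAnAux MeasureTheory Set Filter Topology in
theorem THData.pull {d : ℕ} {P Q : ℂ[X]} {S : Finset ℂ} (h : THData d P Q S) {r : ℂ → ℂ}
    (hr : THInv d P Q S r) (z : ℂ) (hz : z ∉ S) (hQ : Q.eval z ≠ 0)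
    (hf : P.eval z / Q.eval z ∉ S) :
    (∑ p ∈ S, r p / (P.eval z / Q.eval z - p)) * ((wr P Q).eval z / Q.eval z ^ 2) ^ 2 =
      d * ∑ p ∈ S, r p / (z - p) := by
  classical
  obtain ⟨⟨p, hp, hrp⟩, hmom, hinv⟩ := hr
  set U : Set ℂ := {z : ℂ | Q.eval z ≠ 0 ∧ P.eval z / Q.eval z ∉ S} with hUdef
  set f : ℂ → ℂ := fun z => P.eval z / Q.eval z with hfdef
  set f' : ℂ → ℂ := fun z => (wr P Q).eval z / Q.eval z ^ 2 with hf'def
  set ρ : ℂ → ℂ := fun z => ∑ p ∈ S, r p / (z - p) with hρdef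
  have hfin : Uᶜ.Finite := bad_fin h
  have hU : IsOpen U := by
    have := hfin.isClosed.isOpen_compl
    rwa [compl_compl] at this
  have hUc : IsPreconnected U := by
    have := (hfin.countable.isConnected_compl_of_one_lt_rank (by simp)).isPreconnected
    rwa [compl_compl] at this
  have hW : ∀ x ∈ U, (wr P Q).eval x ≠ 0 := fun x hx h0 => hx.2 (h.crit x h0).2
  have hS : ∀ x ∈ U, x ∉ S := fun x hx h0 => hx.2 (h.inv x h0).2
  have hder : ∀ x ∈ U, HasStrictDerivAt f (f' x) x := by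
    intro x hx
    have := (P.hasStrictDerivAt x).div (Q.hasStrictDerivAt x) hx.1
    simp only [hf'def, wr, eval_sub, eval_mul]
    exact this
  have hne : ∀ x ∈ U, f' x ≠ 0 := fun x hx => div_ne_zero (hW x hx) (pow_ne_zero _ hx.1)
  have mf : Measurable f := P.continuous.measurable.div Q.continuous.measurable
  have mf' : Measurable f' :=
    (wr P Q).continuous.measurable.div (Q.continuous.measurable.pow_const 2)
  have mρ : Measurable ρ := Finset.measurable_sum _ fun p _ => by fun_prop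
  have hgood : ∀ w, w ∉ S → P.coeff d - w * Q.coeff d ≠ 0 →
      ∃ T : Finset ℂ, T.card = d ∧ (∀ x, x ∈ T ↔ x ∈ U ∧ f x = w) ∧
        ∑ x ∈ T, ρ x / f' x ^ 2 = ρ w := by
    intro w hwS hw
    have hnd := fib_nodup h hwS hw
    have hmem : ∀ x, x ∈ (P - C w * Q).roots ↔ x ∈ U ∧ f x = w := by
      intro x
      rw [mem_roots (fib_ne hw), fib_root h]
      constructor
      · rintro ⟨h1, h2⟩
        exact ⟨⟨h1, h2 ▸ hwS⟩, h2⟩
      · rintro ⟨h1, h2⟩
        exact ⟨h1.1, h2⟩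
    refine ⟨⟨_, hnd⟩, ?_, hmem, ?_⟩
    · change Multiset.card (P - C w * Q).roots = d
      rw [IsAlgClosed.card_roots_eq_natDegree, fib_deg h hw]
    · refine Eq.trans ?_ (hinv w hwS hw)
      change (Multiset.map _ _).sum = _
      congr 1
      refine Multiset.map_congr rfl fun x hx => ?_
      have hxU := ((hmem x).1 hx).1
      have h1 := hW x hxU
      have h2 := hxU.1
      simp only [hf'def, hρdef]
      field_simp
  have hae : ∀ᵐ w : ℂ, ∃ T : Finset ℂ, (∀ x, x ∈ T ↔ x ∈ U ∧ f x = w) ∧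
      ∑ x ∈ T, ρ x / f' x ^ 2 = ρ w := by
    have h0 : ∀ᵐ w : ℂ, w ∉ S ∧ P.coeff d - w * Q.coeff d ≠ 0 :=
      (good_fin h).measure_zero _
    filter_upwards [h0] with w hw
    obtain ⟨T, -, h1, h2⟩ := hgood w hw.1 hw.2
    exact ⟨T, h1, h2⟩
  have hcore := core hU hder hne mf mf' mρ (integrable_rho S r hmom) hae
  have aρ : ∀ x, x ∉ S → AnalyticAt ℂ ρ x := fun x hx =>
    Finset.analyticAt_fun_sum _ fun q hq => analyticAt_const.div
      (analyticAt_id.sub analyticAt_const) (sub_ne_zero.2 fun e => hx (e ▸ hq))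
  have aP : ∀ (A : ℂ[X]) (x : ℂ), AnalyticAt ℂ (fun y => A.eval y) x := fun A x =>
    A.differentiable.analyticAt x
  have af : ∀ x ∈ U, AnalyticAt ℂ f x := fun x hx => (aP P x).div (aP Q x) hx.1
  have af' : ∀ x ∈ U, AnalyticAt ℂ f' x := fun x hx =>
    (aP _ x).div ((aP Q x).pow 2) (pow_ne_zero _ hx.1)
  obtain ⟨w₀, hw₀, hw₀S, hw₀t⟩ :
      ∃ w₀, ρ w₀ ≠ 0 ∧ w₀ ∉ S ∧ P.coeff d - w₀ * Q.coeff d ≠ 0 := by
    have h1 := ev_rho_ne S r hp hrp
    have h2 : ∀ᶠ w in 𝓝[≠] p, w ∉ S ∧ P.coeff d - w * Q.coeff d ≠ 0 :=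
      nhdsNE_le_cofinite p (good_fin h)
    exact (h1.and h2).exists
  obtain ⟨T, hTc, hT, hTs⟩ := hgood w₀ hw₀S hw₀t
  have hd := h.two
  obtain ⟨z₀, hz₀⟩ : T.Nonempty := Finset.card_pos.1 (by omega)
  obtain ⟨hz₀U, hz₀f⟩ := (hT z₀).1 hz₀
  obtain ⟨c, hc⟩ := prop hU hUc (t := fun x => ρ x / f' x ^ 2) (s := fun x => ρ (f x))
    (fun x hx => (aρ x (hS x hx)).div ((af' x hx).pow 2) (pow_ne_zero _ (hne x hx)))
    (fun x hx => (aρ (f x) hx.2).comp (af x hx)) hz₀U (by simpa only [hz₀f] using hw₀) hcore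
  have hcd : (d : ℂ) * c = 1 := by
    have e : ∀ x ∈ T, ρ x / f' x ^ 2 = c * ρ w₀ := fun x hx => by
      rw [hc x ((hT x).1 hx).1, ((hT x).1 hx).2]
    rw [Finset.sum_congr rfl e, Finset.sum_const, hTc, nsmul_eq_mul, ← mul_assoc] at hTs
    exact mul_right_cancel₀ hw₀ (by rw [hTs, one_mul])
  have hzU : z ∈ U := ⟨hQ, hf⟩
  have h1 := hc z hzU
  rw [div_eq_iff (pow_ne_zero _ (hne z hzU))] at h1
  change ρ (f z) * f' z ^ 2 = d * ρ z
  rw [h1]
  linear_combination (-(ρ (f z) * f' z ^ 2)) * hcd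

end Pool.Agent.MP_3827f0_nt.H92
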