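import Pool.Agent.MP_3827f0_nt.H92.Mult
import Pool.Agent.MP_3827f0_nt.H92.Emb
import Pool.Agent.MP_3827f0_nt.H92.THAn
import Pool.Agent.MP_3827f0_nt.H92.COrbAux

/-! Rigidity of postcritically finite maps. -/

set_option autoImplicit false

namespace Pool.Agent.MP_3827f0_nt.H92

namespace THAux

open COrbAux Classical

section Poly
open Polynomial

lemma der_alg (δ : Derivation ℤ ℂ ℂ) {x : ℂ} (hx : IsAlgebraic ℚ x) : δ x = 0 := by
  obtain ⟨f, hf, hfx⟩ := (IsFractionRing.isAlgebraic_iff ℤ ℚ ℂ).2 hx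
  induction hn : f.natDegree using Nat.strong_induction_on generalizing f with
  | _ n ih =>
    have h0 : f.natDegree ≠ 0 := fun h => by
      obtain ⟨c, rfl⟩ := natDegree_eq_zero.1 h
      rw [aeval_C, eq_intCast, Int.cast_eq_zero] at hfx
      exact hf (by rw [hfx, map_zero])
    by_cases h1 : aeval x (derivative f) = 0
    · exact ih _ (hn ▸ natDegree_derivative_lt h0) (derivative f)
        (fun h => h0 (derivative_eq_zero.1 h)) h1 rfl
    · have := δ.comp_aeval_eq x f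
      rw [hfx, map_zero, smul_eq_mul] at this
      exact (mul_eq_zero.1 this.symm).resolve_left h1

variable {S : Finset ℂ} {r : ℂ → ℂ}

/-- The numerator of the sum of simple fractions. -/
noncomputable def num (S : Finset ℂ) (r : ℂ → ℂ) : ℂ[X] :=
  ∑ p ∈ S, C (r p) * ∏ q ∈ S.erase p, (X - C q)

lemma eval_num {z : ℂ} (hz : z ∉ S) :
    (num S r).eval z = (∏ p ∈ S, (z - p)) * ∑ p ∈ S, r p / (z - p) := by
  rw [num, eval_finsetSum, Finset.mul_sum]
  refine Finset.sum_congr rfl fun p hp => ?_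
  have : z - p ≠ 0 := sub_ne_zero.2 fun h => hz (h ▸ hp)
  rw [← Finset.mul_prod_erase _ _ hp]
  simp only [eval_mul, eval_C, eval_prod, eval_sub, eval_X]
  field_simp

lemma num_ne {p : ℂ} (hp : p ∈ S) (h : r p ≠ 0) : num S r ≠ 0 := by
  intro h0
  have := congrArg (eval p) h0
  rw [num, eval_finsetSum, Finset.sum_eq_single_of_mem p hp, eval_zero] at this
  · simp only [eval_mul, eval_C, eval_prod, eval_sub, eval_X] at this
    exact mul_ne_zero h (Finset.prod_ne_zero_iff.2 fun q hq =>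
      sub_ne_zero.2 (Finset.ne_of_mem_erase hq).symm) this
  · intro q _ hq
    simp only [eval_mul, eval_C, eval_prod, eval_sub, eval_X]
    rw [Finset.prod_eq_zero (Finset.mem_erase.2 ⟨hq.symm, hp⟩) (sub_self p), mul_zero]

lemma natDegree_num_le (S : Finset ℂ) (r : ℂ → ℂ) : (num S r).natDegree ≤ S.card - 1 := by
  refine natDegree_sum_le_of_forall_le _ _ fun p hp => (natDegree_C_mul_le _ _).trans ?_
  rw [natDegree_finsetProd_X_sub_C_eq_card, Finset.card_erase_of_mem hp]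

lemma deg_num {p : ℂ} (hp : p ∈ S) (h : r p ≠ 0) (hm : ∀ k < 3, ∑ p ∈ S, r p * p ^ k = 0) :
    (num S r).natDegree + 4 ≤ S.card := by
  have e : X ^ 3 * num S r = num S fun p => r p * p ^ 3 := by
    have : X ^ 3 * num S r - num S (fun p => r p * p ^ 3)
        = (X ^ 2 * C (∑ p ∈ S, r p * p ^ 0) + X * C (∑ p ∈ S, r p * p ^ 1)
          + C (∑ p ∈ S, r p * p ^ 2)) * ∏ q ∈ S, (X - C q) := by
      simp only [num, map_sum, Finset.mul_sum, ← Finset.sum_sub_distrib, ← Finset.sum_add_distrib,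
        Finset.sum_mul]
      refine Finset.sum_congr rfl fun p hp => ?_
      rw [← Finset.mul_prod_erase _ _ hp]
      simp only [map_mul, map_pow]
      ring
    rw [hm 0 (by norm_num), hm 1 (by norm_num), hm 2 (by norm_num)] at this
    simpa [sub_eq_zero] using this
  have h1 := natDegree_num_le S fun p => r p * p ^ 3
  rw [← e, natDegree_X_pow_mul 3 (num_ne hp h)] at h1
  have := Finset.card_pos.2 ⟨p, hp⟩
  omega

end Poly

variable {d : ℕ} {F : PM ℂ} {S : Finset ℂ}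

lemma fin_par {α : Type} (g : α → V ℂ) (hg : ∀ a b, wedge (g a) (g b) = 0 → a = b)
    (T : Finset (V ℂ)) (hT : ∀ t ∈ T, t ≠ 0) : {a | ∃ t ∈ T, wedge (g a) t = 0}.Finite := by
  have : {a | ∃ t ∈ T, wedge (g a) t = 0} = ⋃ t ∈ T, {a | wedge (g a) t = 0} := by
    ext a
    simp
  rw [this]
  exact T.finite_toSet.biUnion fun t ht => Set.Subsingleton.finite fun a ha b hb =>
    hg a b (wedge_trans (hT t ht) ha (wedge_symm hb))

lemma aff_inj (a b : ℂ) (h : wedge ![a, 1] ![b, 1] = 0) : a = b := by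
  rwa [wedge_aff, sub_eq_zero] at h

lemma form_zero {m : ℕ} {φ : V ℂ → ℂ} (h : IsForm m φ) {B : Set ℂ} (hB : B.Finite)
    (h0 : ∀ z, z ∉ B → φ ![z, 1] = 0) (Z : V ℂ) : φ Z = 0 := by
  by_contra hZ
  obtain ⟨T, -, hT⟩ := h.aff_roots ⟨Z, hZ⟩
  exact hB.infinite_compl (T.finite_toSet.subset fun z hz => (hT z).1 (h0 z hz))

lemma app_aff (F : PM ℂ) (z : ℂ) :
    app F ![z, 1] = ![(deh (F 0)).eval z, (deh (F 1)).eval z] := by
  funext i
  fin_cases i <;> simp [app, eval_deh]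

lemma wedge_pair (a b w : ℂ) : wedge ![a, b] ![w, 1] = a - w * b := by
  simp [wedge, mul_comm]

lemma data_of (hd : 2 ≤ d) (hF : Hom d F) (hN : Nondeg F)
    (ha : ∀ p ∈ S, ∃ w ∈ S, wedge (app F ![p, 1]) ![w, 1] = 0)
    (hb : ∀ Z, Crit F Z → ∃ w ∈ S, wedge (app F Z) ![w, 1] = 0)
    (hc : ∀ w ∈ S, wedge (app F ![1, 0]) ![w, 1] ≠ 0) :
    THData d (deh (F 0)) (deh (F 1)) S := by
  have d0 : (d : ℂ) ≠ 0 := Nat.cast_ne_zero.2 (by omega)
  have co : ∀ z, (deh (F 0)).eval z = 0 → (deh (F 1)).eval z ≠ 0 := fun z h0 h1 =>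
    hN.app_ne (aff_ne_zero z) (by rw [app_aff, h0, h1]; simp)
  have key : ∀ z, (∃ w ∈ S, wedge (app F ![z, 1]) ![w, 1] = 0) →
      (deh (F 1)).eval z ≠ 0 ∧ (deh (F 0)).eval z / (deh (F 1)).eval z ∈ S := by
    rintro z ⟨w, hw, h⟩
    rw [app_aff, wedge_pair, sub_eq_zero] at h
    have h1 : (deh (F 1)).eval z ≠ 0 := fun h1 => co z (by rw [h, h1, mul_zero]) h1
    exact ⟨h1, by rwa [h, mul_div_cancel_right₀ _ h1]⟩
  refine ⟨hd, natDegree_deh_le (hF 0), natDegree_deh_le (hF 1), co, ?_, fun p hp => key p (ha p hp),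
    fun z hz => key z (hb _ ⟨aff_ne_zero z, by rw [jac_aff hF, hz, mul_zero]⟩), fun w hw => ?_⟩
  · rw [← Polynomial.natDegree_C_mul d0, ← deh_jacP hF]
    refine le_antisymm (natDegree_deh_le hF.jacP) (Polynomial.le_natDegree_of_ne_zero ?_)
    rw [coeff_deh_top hF.jacP]
    intro h0
    obtain ⟨w, hw, h⟩ := hb ![1, 0] ⟨fun h => by simpa using congrFun h 0, h0⟩
    exact hc w hw h
  · rw [coeff_deh_top (hF 0), coeff_deh_top (hF 1)]
    have := hc w hw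
    simpa [wedge, app, mul_comm] using this

lemma alg_case (hd : 2 ≤ d) (hF : Hom d F) (hN : Nondeg F)
    (D : THData d (deh (F 0)) (deh (F 1)) S) (h3 : 3 ≤ S.card) (hS : ∀ p ∈ S, IsAlgebraic ℚ p) :
    ∃ c : ℂ, c ≠ 0 ∧ ∀ i m, IsAlgebraic ℚ (MvPolynomial.coeff m ((c • F) i)) := by
  set a := (deh (F 0)).leadingCoeff with ha
  have a0 : a ≠ 0 := Polynomial.leadingCoeff_ne_zero.2 (deh_ne_zero (by omega) hF hN 0)
  have key : ∀ i k, IsAlgebraic ℚ ((deh (F i)).coeff k / a) := by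
    intro i k
    by_contra hx
    obtain ⟨δ, hδ⟩ := exists_derivation hx
    obtain ⟨c, hc⟩ := D.coeff_prop δ h3 fun p hp => der_alg δ (hS p hp)
    have h1 : δ a = c * a := (hc _).1
    have h2 : δ ((deh (F i)).coeff k) = c * (deh (F i)).coeff k := by
      fin_cases i
      exacts [(hc k).1, (hc k).2]
    refine hδ ?_
    rw [δ.leibniz_div, h1, h2]
    simp only [smul_eq_mul]
    ring
  refine ⟨a⁻¹, inv_ne_zero a0, fun i m => ?_⟩
  rw [Pi.smul_apply, MvPolynomial.coeff_smul, smul_eq_mul]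
  by_cases h0 : MvPolynomial.coeff m (F i) = 0
  · rw [h0, mul_zero]
    exact isAlgebraic_zero
  · obtain ⟨k, hk, rfl⟩ := exists_mo (hF i) h0
    rw [← coeff_deh (hF i) hk, ← div_eq_inv_mul]
    exact key i k

/-- The homogeneous form of the invariance of the quadratic differential. -/
lemma exists_form (hF : Hom d F) (hN : Nondeg F) (D : THData d (deh (F 0)) (deh (F 1)) S)
    {r : ℂ → ℂ} (hr : THInv d (deh (F 0)) (deh (F 1)) S r) :
    ∃ (n : ℕ) (φ : V ℂ → ℂ), IsForm n φ ∧ (∃ Z, φ Z ≠ 0) ∧ ∀ Z,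
      φ (app F Z) * jac F Z ^ 2 * ∏ p ∈ S, wedge Z ![p, 1] =
        (d : ℂ) ^ 3 * ((∏ p ∈ S, wedge (app F Z) ![p, 1]) * φ Z) := by
  have hd := D.two
  obtain ⟨⟨p, hp, hp0⟩, hm, -⟩ := id hr
  have h1 := deg_num hp hp0 hm
  obtain ⟨n, hn⟩ : ∃ n, S.card = n + 4 := ⟨S.card - 4, by omega⟩
  have h2 : (num S r).natDegree ≤ n := by omega
  set φ : V ℂ → ℂ := fun Z => MvPolynomial.eval Z ((num S r).homogenize n) with hφ
  have fφ : IsForm n φ := ⟨_, Polynomial.isHomogeneous_homogenize _, fun _ => rfl⟩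
  have ev : ∀ a b : ℂ, b ≠ 0 → φ ![a, b] = (num S r).eval (a / b) * b ^ n := fun a b hb =>
    Polynomial.eval_homogenize h2 _ hb
  have fP : IsForm (n + 4) fun Z : V ℂ => ∏ p ∈ S, wedge Z ![p, 1] := by
    have := IsForm.prod S (n := fun _ => 1) fun p _ => IsForm.wedge ![p, 1]
    rwa [Finset.sum_const, smul_eq_mul, mul_one, hn] at this
  refine ⟨n, φ, fφ, ?_, fun Z => ?_⟩
  · obtain ⟨z, hz⟩ := Infinite.exists_notMem_finset (num S r).roots.toFinset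
    refine ⟨![z, 1], ?_⟩
    rw [ev z 1 one_ne_zero, div_one, one_pow, mul_one]
    exact fun h => hz (Multiset.mem_toFinset.2 ((Polynomial.mem_roots (num_ne hp hp0)).2 h))
  have f1 := ((fφ.comp hF).mul (hF.isForm_jac.pow 2)).mul fP
  have f2 := ((fP.comp hF).mul fφ).const_mul ((d : ℂ) ^ 3)
  have e : n * d + (2 * d - 2) * 2 + (n + 4) = (n + 4) * d + n := by
    obtain ⟨c, rfl⟩ : ∃ c, d = c + 1 := ⟨d - 1, by omega⟩
    rw [show 2 * (c + 1) - 2 = 2 * c by omega]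
    ring
  rw [e] at f1
  set S' : Finset (V ℂ) := insert ![1, 0] (S.image fun p => ![p, 1]) with hS'
  have n' : ∀ s ∈ S', s ≠ 0 := by
    intro s hs
    rcases Finset.mem_insert.1 hs with rfl | hs
    · exact fun h => by simpa using congrFun h 0
    · obtain ⟨p, -, rfl⟩ := Finset.mem_image.1 hs
      exact aff_ne_zero p
  obtain ⟨T, -, t1, t2⟩ := exists_preimages (by omega) hF hN 1 S' n'
  refine sub_eq_zero.1 (form_zero (f1.sub f2) ((fin_par _ aff_inj T t1).union S.finite_toSet)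
    (fun z hz => ?_) Z)
  rw [Set.mem_union, not_or] at hz
  have hz' : ∀ s ∈ S', wedge (app F ![z, 1]) s ≠ 0 := fun s hs h => hz.1 (t2 _ ⟨s, hs, h⟩)
  have hQ : (deh (F 1)).eval z ≠ 0 := fun h => hz' ![1, 0] (Finset.mem_insert_self _ _) (by
    rw [app_aff, h]; simp [wedge])
  have hf : (deh (F 0)).eval z / (deh (F 1)).eval z ∉ S := fun h =>
    hz' _ (Finset.mem_insert_of_mem (Finset.mem_image_of_mem _ h)) (by
      rw [app_aff, wedge_pair, div_mul_cancel₀ _ hQ, sub_self])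
  have key := D.pull hr z hz.2 hQ hf
  have e1 : ∏ p ∈ S, wedge (app F ![z, 1]) ![p, 1] = (deh (F 1)).eval z ^ (n + 4) *
      ∏ p ∈ S, ((deh (F 0)).eval z / (deh (F 1)).eval z - p) := by
    rw [← hn, ← Finset.prod_const, ← Finset.prod_mul_distrib]
    refine Finset.prod_congr rfl fun p _ => ?_
    rw [app_aff, wedge_pair]
    field_simp
  simp only [wedge_aff]
  rw [e1, jac_aff hF, app_aff, ev _ _ hQ, ev z 1 one_ne_zero, div_one, eval_num hf, eval_num hz.2,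
    sub_eq_zero]
  generalize ∑ p ∈ S, r p / ((deh (F 0)).eval z / (deh (F 1)).eval z - p) = s1 at key ⊢
  generalize ∑ p ∈ S, r p / (z - p) = s2 at key ⊢
  generalize ∏ p ∈ S, ((deh (F 0)).eval z / (deh (F 1)).eval z - p) = p1
  generalize ∏ p ∈ S, (z - p) = p2
  generalize (wr (deh (F 0)) (deh (F 1))).eval z = w at key ⊢
  generalize (deh (F 1)).eval z = q at key hQ ⊢
  have k2 : s1 * w ^ 2 = d * s2 * q ^ 4 := by
    rw [← key]
    field_simp
  linear_combination p1 * p2 * q ^ n * (d : ℂ) ^ 2 * k2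

lemma orb_of_form (hd : 2 ≤ d) (hF : Hom d F) (hN : Nondeg F) {n : ℕ} {φ : V ℂ → ℂ}
    (fφ : IsForm n φ) (h0 : ∃ Z, φ Z ≠ 0)
    (h : ∀ Z, φ (app F Z) * jac F Z ^ 2 * ∏ p ∈ S, wedge Z ![p, 1] =
      (d : ℂ) ^ 3 * ((∏ p ∈ S, wedge (app F Z) ![p, 1]) * φ Z)) : Orb F 2 := by
  have d0 : 0 < d := by omega
  choose! m m1 m2 using fun (X : V ℂ) (hX : X ≠ 0) => fφ.exists_mult h0 hX
  set b : V ℂ → ℕ := fun X => (S.filter fun p => wedge ![p, 1] X = 0).card with hb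
  have b1 : ∀ X, X ≠ 0 → b X ≤ 1 := fun X hX => Finset.card_le_one.2 fun p hp q hq =>
    aff_inj p q (wedge_trans hX (Finset.mem_filter.1 hp).2 (wedge_symm (Finset.mem_filter.1 hq).2))
  have b2 : ∀ X, X ≠ 0 → Mult (fun Z => ∏ p ∈ S, wedge Z ![p, 1]) X (b X) := fun X hX => by
    have := mult_prod S (fun p => ![p, 1]) (fun _ => 1) (fun p _ => aff_ne_zero p) hX
    simpa only [pow_one, Finset.sum_const, smul_eq_mul, mul_one] using this
  set a : V ℂ → ℕ := fun X => 2 + m X - b X with ha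
  have a1 : ∀ X, X ≠ 0 → 1 ≤ a X := fun X hX => by
    have := b1 X hX
    simp only [ha]
    omega
  have ainv : ∀ X Y, X ≠ 0 → Y ≠ 0 → wedge X Y = 0 → a X = a Y := fun X Y hX hY hXY => by
    simp only [ha]
    rw [Mult.unique hY ((m2 X hX).of_wedge hX hY hXY) (m2 Y hY),
      Mult.unique hY ((b2 X hX).of_wedge hX hY hXY) (b2 Y hY)]
  have arel : ∀ X, X ≠ 0 → ∀ e, Ram F X e → a X = e * a (app F X) := by
    intro X hX e he
    have hFX := hN.app_ne hX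
    have e1 := ((Mult.comp hF hN hX he (m2 _ hFX)).mul
      ((he.mult_jac d0 hF hN hX).pow 2)).mul (b2 X hX)
    have e2 := ((Mult.comp hF hN hX he (b2 _ hFX)).mul (m2 X hX)).const_mul
      (c := (d : ℂ) ^ 3) (pow_ne_zero _ (Nat.cast_ne_zero.2 d0.ne'))
    rw [funext h] at e1
    have e3 := Mult.unique hX e1 e2
    have l1 : b X ≤ 2 + m X := (b1 X hX).trans (by omega)
    have l2 : b (app F X) ≤ 2 + m (app F X) := (b1 _ hFX).trans (by omega)
    have l3 : 1 ≤ e := ram_pos he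
    simp only [ha]
    zify [l1, l2, l3] at e3 ⊢
    linear_combination -e3
  have a2 : ∀ j, (∀ X, X ≠ 0 → a X ≤ 2 + j) → ∀ X, X ≠ 0 → a X ≤ 2 := by
    intro j
    induction j with
    | zero => exact fun h => h
    | succ j ih =>
      intro hj
      refine ih fun X hX => ?_
      by_contra hlt
      obtain ⟨R, -, r1, r2⟩ := fφ.roots h0
      have hfin : {Y : V ℂ | nr Y = Y ∧ a Y = 3 + j}.Finite := by
        refine (R.finite_toSet.image nr).subset ?_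
        rintro Y ⟨h1, h2⟩
        have hY : Y ≠ 0 := h1 ▸ nr_ne Y
        obtain ⟨s, hs, h3⟩ := r2 Y ((m2 Y hY).eq_zero_iff.2 (by simp only [ha] at h2; omega))
        exact ⟨s, hs, by rw [← h1]; exact (nr_eq hY (r1 s hs).1 h3).symm⟩
      have c1 := card_le d0 hF hN hfin.toFinset hfin.toFinset
        (fun Y hY => (hfin.mem_toFinset.1 hY).1) fun Y hY Z hZ hw => by
          obtain ⟨h1, h2⟩ := hfin.mem_toFinset.1 hY
          obtain ⟨e, e0, -, he⟩ := exists_ram d0 hF hN hZ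
          have h3 := arel Z hZ e he
          rw [ainv _ _ (hN.app_ne hZ) (h1 ▸ nr_ne Y) hw, h2] at h3
          have h4 := hj Z hZ
          have h5 : e = 1 := by
            by_contra h5
            have : 2 * (3 + j) ≤ e * (3 + j) := Nat.mul_le_mul_right _ (by omega)
            omega
          refine ⟨(he.eq_one_iff d0 hF hN hZ).1 h5, hfin.mem_toFinset.2 ⟨nr_nr hZ, ?_⟩⟩
          rw [ainv _ _ (nr_ne Z) hZ (wedge_nr Z), h3, h5, one_mul]
      have c2 : 0 < hfin.toFinset.card := Finset.card_pos.2 ⟨nr X, hfin.mem_toFinset.2 ⟨nr_nr hX, by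
        have := hj X hX
        rw [ainv _ _ (nr_ne X) hX (wedge_nr X)]
        omega⟩⟩
      have : 2 * hfin.toFinset.card ≤ d * hfin.toFinset.card := Nat.mul_le_mul_right _ hd
      omega
  have a3 := a2 n fun X hX => by
    have := m1 X hX
    simp only [ha]
    omega
  refine orb_of_weights hd hF hN two_pos (S.image fun p => ![p, 1]) ?_ ?_ (fun X => 2 - a X)
    (fun X Y hX hY hXY => by rw [ainv X Y hX hY hXY]) (fun X _ hX => ?_) (fun X hX e he => ?_) ?_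
  · simp only [Finset.mem_image]
    rintro _ ⟨p, -, rfl⟩
    exact aff_ne_zero p
  · simp only [Finset.mem_image]
    rintro _ ⟨p, -, rfl⟩ _ ⟨q, -, rfl⟩ hne h
    exact hne (by rw [aff_inj p q h])
  · have : b X = 0 := Finset.card_eq_zero.2 (Finset.filter_eq_empty_iff.2 fun p hp h =>
      hX _ (Finset.mem_image_of_mem _ hp) (wedge_symm h))
    simp only [ha]
    omega
  · have l1 := a3 X hX
    have l2 := a3 _ (hN.app_ne hX)
    have l3 : 1 ≤ e := ram_pos he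
    have l4 := arel X hX e he
    zify [l1, l2, l3] at l4 ⊢
    linear_combination l4
  · simp only [Finset.mem_image]
    rintro _ ⟨p, -, rfl⟩
    have := a1 _ (aff_ne_zero p)
    omega

lemma orb_of_conj {M : Mat ℂ} (hM : M.det = 1) {k : ℕ} (h : Orb (conj M F) k) : Orb F k := by
  obtain ⟨k0, A, c, c0, a0, a1, a2⟩ := h
  have e : ∀ X Y, wedge (M.mulVec X) (M.mulVec Y) = wedge X Y := fun X Y => by
    rw [wedge_mulVec, hM, one_mul]
  refine ⟨k0, fun i => M.mulVec (A i), c, c0,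
    fun i => mulVec_ne_zero (by rw [hM]; exact one_ne_zero) (a0 i), by simpa only [e] using a1,
    fun Z => ?_⟩
  obtain ⟨W, rfl⟩ : ∃ W, M.mulVec W = Z := ⟨M.adjugate.mulVec Z, by
    rw [Matrix.mulVec_mulVec, Matrix.mul_adjugate, hM, one_smul, Matrix.one_mulVec]⟩
  have := a2 W
  rw [jac_conj, hM, one_pow, one_mul] at this
  simpa only [← mulVec_app_conj hM, e] using this

lemma orbit_fin (hF : Hom d F) (hN : Nondeg F) {X : V ℂ} (hX : X ≠ 0) (h : Preper F X) :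
    ∃ T : Finset (V ℂ), (∀ t ∈ T, t ≠ 0) ∧ ∀ m, ∃ t ∈ T, wedge ((app F)^[m] X) t = 0 := by
  obtain ⟨n, hn⟩ := h.orbit hF hN hX
  refine ⟨(Finset.range n).image fun j => (app F)^[j] X, fun t ht => ?_, fun m => ?_⟩
  · obtain ⟨j, -, rfl⟩ := Finset.mem_image.1 ht
    exact hN.iter_ne j hX
  · obtain ⟨j, hj, h⟩ := hn m
    exact ⟨_, Finset.mem_image_of_mem _ (Finset.mem_range.2 hj), h⟩

/-- A finite invariant set with three points that contains the critical values. -/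
lemma exists_inv_set (hd : 2 ≤ d) (hF : Hom d F) (hN : Nondeg F) (h : PCF F) :
    ∃ (I : V ℂ → Prop) (T : Finset (V ℂ)) (A B E : V ℂ), (∀ t ∈ T, t ≠ 0) ∧
      (∀ Y, I Y → Y ≠ 0 ∧ I (app F Y) ∧ ∃ t ∈ T, wedge Y t = 0) ∧
      (∀ Z, Crit F Z → I (app F Z)) ∧ wedge A B ≠ 0 ∧ wedge A E ≠ 0 ∧ wedge B E ≠ 0 ∧
      I A ∧ I B ∧ I E := by
  obtain ⟨P, p1, p2⟩ := h
  obtain ⟨A, B, E, hAB, hAE, hBE, hA, hB, hE⟩ := exists_three_preper hd hF hN
  have A0 : A ≠ 0 := fun h => hAB (by rw [h, wedge_zero_left])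
  have B0 : B ≠ 0 := fun h => hAB (by rw [h, wedge_zero_right])
  have E0 : E ≠ 0 := fun h => hAE (by rw [h, wedge_zero_right])
  obtain ⟨TA, a1, a2⟩ := orbit_fin hF hN A0 hA
  obtain ⟨TB, b1, b2⟩ := orbit_fin hF hN B0 hB
  obtain ⟨TE, e1, e2⟩ := orbit_fin hF hN E0 hE
  refine ⟨fun Y => Post F Y ∨ ∃ m, Y = (app F)^[m] A ∨ Y = (app F)^[m] B ∨ Y = (app F)^[m] E,
    P ∪ (TA ∪ (TB ∪ TE)), A, B, E, ?_, ?_, fun Z hZ => Or.inl ⟨Z, 0, hZ, rfl⟩, hAB, hAE, hBE,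
    Or.inr ⟨0, Or.inl rfl⟩, Or.inr ⟨0, Or.inr (Or.inl rfl)⟩, Or.inr ⟨0, Or.inr (Or.inr rfl)⟩⟩
  · simp only [Finset.mem_union]
    rintro t (h | h | h | h)
    exacts [p1 t h, a1 t h, b1 t h, e1 t h]
  · simp only [Finset.mem_union]
    rintro Y (hY | ⟨m, rfl | rfl | rfl⟩)
    · obtain ⟨t, ht, h⟩ := p2 Y hY
      obtain ⟨Z, n, hZ, rfl⟩ := hY
      exact ⟨hN.iter_ne _ hZ.1, Or.inl ⟨Z, n + 1, hZ, (Function.iterate_succ_apply' _ _ _).symm⟩,
        t, Or.inl ht, h⟩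
    · obtain ⟨t, ht, h⟩ := a2 m
      exact ⟨hN.iter_ne _ A0, Or.inr ⟨m + 1, Or.inl (Function.iterate_succ_apply' _ _ _).symm⟩,
        t, Or.inr (Or.inl ht), h⟩
    · obtain ⟨t, ht, h⟩ := b2 m
      exact ⟨hN.iter_ne _ B0,
        Or.inr ⟨m + 1, Or.inr (Or.inl (Function.iterate_succ_apply' _ _ _).symm)⟩,
        t, Or.inr (Or.inr (Or.inl ht)), h⟩
    · obtain ⟨t, ht, h⟩ := e2 m
      exact ⟨hN.iter_ne _ E0,
        Or.inr ⟨m + 1, Or.inr (Or.inr (Function.iterate_succ_apply' _ _ _).symm)⟩,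
        t, Or.inr (Or.inr (Or.inr ht)), h⟩

lemma exists_data (hd : 2 ≤ d) (hF : Hom d F) (hN : Nondeg F) (h : PCF F) :
    ∃ (M : Mat ℂ) (S : Finset ℂ) (q : ℕ), M.det = 1 ∧ 2 ≤ q ∧
      THData d (deh (conj M F 0)) (deh (conj M F 1)) S ∧
      0 ∈ S ∧ (q : ℂ)⁻¹ ∈ S ∧ ((q : ℂ) - 1)⁻¹ ∈ S := by
  obtain ⟨I, T, A, B, E, t0, hI, hC, hAB, hAE, hBE, iA, iB, iE⟩ := exists_inv_set hd hF hN h
  obtain ⟨N, hN1, nA, nB, nE⟩ := exists_frame hAB hAE hBE
  obtain ⟨T', -, t1, t2⟩ := exists_preimages (by omega) hF hN 1 T t0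
  have hfin := fin_par (fun q : ℕ => N.mulVec ![(q : ℂ), 1]) (fun a b h => by
    rw [wedge_mulVec, hN1, one_mul] at h
    exact_mod_cast aff_inj _ _ h) (T ∪ T') fun t ht => (Finset.mem_union.1 ht).elim (t0 t) (t1 t)
  obtain ⟨q, hq⟩ := (hfin.union (Set.finite_lt_nat 2)).infinite_compl.nonempty
  rw [Set.mem_compl_iff, Set.mem_union, not_or] at hq
  have q2 : 2 ≤ q := not_lt.1 hq.2
  set M : Mat ℂ := N * !![(q : ℂ), -1; 1, 0] with hM
  have hM1 : M.det = 1 := by rw [hM, Matrix.det_mul, hN1, Matrix.det_fin_two_of]; ring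
  have hM0 : M.det ≠ 0 := by rw [hM1]; exact one_ne_zero
  have mv : ∀ x y : ℂ, M.mulVec ![x, y] = N.mulVec ![q * x - y, x] := fun x y => by
    rw [hM, ← Matrix.mulVec_mulVec]
    congr 1
    funext i
    fin_cases i <;> simp [Matrix.mulVec, dotProduct, Fin.sum_univ_two, sub_eq_add_neg]
  have inf : ∀ t ∈ T ∪ T', wedge (M.mulVec ![1, 0]) t ≠ 0 := fun t ht h =>
    hq.1 ⟨t, ht, by rwa [mv, mul_one, sub_zero] at h⟩
  have e : ∀ X Y, wedge (M.mulVec X) (M.mulVec Y) = wedge X Y := fun X Y => by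
    rw [wedge_mulVec, hM1, one_mul]
  have hS : {z : ℂ | ∃ Y, I Y ∧ wedge (M.mulVec ![z, 1]) Y = 0}.Finite := by
    refine (fin_par (fun z : ℂ => M.mulVec ![z, 1]) (fun a b h => aff_inj a b (by rwa [e] at h))
      T t0).subset ?_
    rintro z ⟨Y, h1, h2⟩
    obtain ⟨h3, -, t, ht, h4⟩ := hI Y h1
    exact ⟨t, ht, wedge_trans h3 h2 h4⟩
  have key : ∀ Z Y, Z ≠ 0 → I Y → wedge (M.mulVec Z) Y = 0 →
      ∃ w ∈ hS.toFinset, wedge Z ![w, 1] = 0 := by
    intro Z Y hZ h1 h2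
    have hMZ := mulVec_ne_zero hM0 hZ
    by_cases h0 : Z 1 = 0
    · obtain ⟨h3, -, t, ht, h4⟩ := hI Y h1
      refine absurd (wedge_trans hMZ ?_ (wedge_trans h3 h2 h4)) (inf t (Finset.mem_union_left _ ht))
      rw [e]
      simp [wedge, h0]
    · have h3 : wedge ![Z 0 / Z 1, 1] Z = 0 := by
        have := wedge_nr Z
        rwa [nr, if_neg h0] at this
      exact ⟨Z 0 / Z 1, hS.mem_toFinset.2 ⟨Y, h1, wedge_trans hMZ (by rwa [e]) h2⟩, wedge_symm h3⟩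
  have hN' := hN.conj hM0
  have q0 : (q : ℂ) ≠ 0 := Nat.cast_ne_zero.2 (by omega)
  have q1 : (q : ℂ) - 1 ≠ 0 := sub_ne_zero.2 (by exact_mod_cast (by omega : q ≠ 1))
  refine ⟨M, hS.toFinset, q, hM1, q2, data_of hd (hF.conj M) hN' (fun p hp => ?_) (fun Z hZ => ?_)
    fun w hw h0 => ?_, hS.mem_toFinset.2 ⟨A, iA, ?_⟩, hS.mem_toFinset.2 ⟨B, iB, ?_⟩,
    hS.mem_toFinset.2 ⟨E, iE, ?_⟩⟩
  · obtain ⟨Y, h1, h2⟩ := hS.mem_toFinset.1 hp
    refine key _ _ (hN'.app_ne (aff_ne_zero p)) (hI Y h1).2.1 ?_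
    rw [mulVec_app_conj hM1]
    exact hF.wedge_app h2 (mulVec_ne_zero hM0 (aff_ne_zero p)) (hI Y h1).1
  · refine key _ _ (hN'.app_ne hZ.1) (hC (M.mulVec Z) ⟨mulVec_ne_zero hM0 hZ.1, ?_⟩) ?_
    · have := hZ.2
      rwa [jac_conj, hM1, one_pow, one_mul] at this
    · rw [mulVec_app_conj hM1, wedge_self]
  · obtain ⟨Y, h1, h2⟩ := hS.mem_toFinset.1 hw
    obtain ⟨h3, -, t, ht, h4⟩ := hI Y h1
    rw [← e, mulVec_app_conj hM1] at h0
    obtain ⟨t', ht', h5⟩ := t2 (M.mulVec ![1, 0]) ⟨t, ht,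
      wedge_trans (mulVec_ne_zero hM0 (aff_ne_zero w)) h0 (wedge_trans h3 h2 h4)⟩
    exact inf t' (Finset.mem_union_right _ ht') h5
  · rw [mv, show (![(q : ℂ) * 0 - 1, 0] : V ℂ) = (-1 : ℂ) • ![1, 0] by simp, Matrix.mulVec_smul,
      wedge_smul_left, nA, mul_zero]
  · rw [mv, show (![(q : ℂ) * (q : ℂ)⁻¹ - 1, (q : ℂ)⁻¹] : V ℂ) = (q : ℂ)⁻¹ • ![0, 1] by
      simp [mul_inv_cancel₀ q0], Matrix.mulVec_smul, wedge_smul_left, nB, mul_zero]
  · rw [mv, show (![(q : ℂ) * ((q : ℂ) - 1)⁻¹ - 1, ((q : ℂ) - 1)⁻¹] : V ℂ)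
        = ((q : ℂ) - 1)⁻¹ • ![1, 1] by
      rw [show (q : ℂ) * ((q : ℂ) - 1)⁻¹ - 1 = ((q : ℂ) - 1)⁻¹ by field_simp; ring]
      simp, Matrix.mulVec_smul, wedge_smul_left, nE, mul_zero]

end THAux

open MvPolynomial THAux

theorem orb_or_alg {d : ℕ} (hd : 2 ≤ d) {F : PM ℂ} (hF : Hom d F) (hN : Nondeg F) (h : PCF F) :
    Orb F 2 ∨ ∃ (M : Mat ℂ) (c : ℂ), M.det ≠ 0 ∧ c ≠ 0 ∧
      ∀ i m, IsAlgebraic ℚ (coeff m ((c • conj M F) i)) := by
  obtain ⟨M, S, q, hM, q2, D, s1, s2, s3⟩ := exists_data hd hF hN h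
  have hM0 : M.det ≠ 0 := by rw [hM]; exact one_ne_zero
  have q0 : (q : ℂ) ≠ 0 := Nat.cast_ne_zero.2 (by omega)
  have q1 : (q : ℂ) - 1 ≠ 0 := sub_ne_zero.2 (by exact_mod_cast (by omega : q ≠ 1))
  have n1 : (0 : ℂ) ≠ (q : ℂ)⁻¹ := (inv_ne_zero q0).symm
  have n2 : (0 : ℂ) ≠ ((q : ℂ) - 1)⁻¹ := (inv_ne_zero q1).symm
  have n3 : (q : ℂ)⁻¹ ≠ ((q : ℂ) - 1)⁻¹ := fun h => by
    have := inv_injective h
    exact one_ne_zero (by linear_combination this : (1 : ℂ) = 0)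
  by_cases hS : ∀ p ∈ S, IsAlgebraic ℚ p
  · obtain ⟨c, c0, hc⟩ := alg_case hd (hF.conj M) (hN.conj hM0) D
      (Finset.two_lt_card.2 ⟨_, s1, _, s2, _, s3, n1, n2, n3⟩) hS
    exact Or.inr ⟨M, c, hM0, c0, hc⟩
  · push Not at hS
    obtain ⟨p, hp, hp'⟩ := hS
    obtain ⟨δ, hδ⟩ := exists_derivation hp'
    obtain ⟨r, hr⟩ := D.exists_inv δ s1 s2 s3 hp n1 n2 n3 (map_zero δ)
      (by rw [δ.leibniz_inv, δ.map_natCast, smul_zero])
      (by rw [δ.leibniz_inv, map_sub, δ.map_natCast, δ.map_one_eq_zero, sub_zero, smul_zero]) hδ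
    obtain ⟨n, φ, f1, f2, f3⟩ := exists_form (hF.conj M) (hN.conj hM0) D hr
    exact Or.inl (orb_of_conj hM (orb_of_form hd (hF.conj M) (hN.conj hM0) f1 f2 f3))

end Pool.Agent.MP_3827f0_nt.H92
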