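import Pool.Agent.MP_3827f0_nt.H92.Defs

/-! Infinitesimal rigidity: the algebraic part. -/

set_option autoImplicit false

namespace Pool.Agent.MP_3827f0_nt.H92

open Polynomial

variable {K : Type} [Field K]

/-- A rational function P / Q of degree d with a finite invariant set S of finite points that
contains the critical values and misses the image of infinity. -/
structure THData (d : ℕ) (P Q : K[X]) (S : Finset K) : Prop where
  two : 2 ≤ d
  degP : P.natDegree ≤ d
  degQ : Q.natDegree ≤ d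
  co : ∀ z, P.eval z = 0 → Q.eval z ≠ 0
  degW : (wr P Q).natDegree = 2 * d - 2
  inv : ∀ p ∈ S, Q.eval p ≠ 0 ∧ P.eval p / Q.eval p ∈ S
  crit : ∀ z, (wr P Q).eval z = 0 → Q.eval z ≠ 0 ∧ P.eval z / Q.eval z ∈ S
  top : ∀ w ∈ S, P.coeff d - w * Q.coeff d ≠ 0

/-- The quadratic differential with residues r is invariant under push forward. -/
def THInv (d : ℕ) (P Q : K[X]) (S : Finset K) (r : K → K) : Prop :=
  (∃ p ∈ S, r p ≠ 0) ∧ (∀ k < 3, ∑ p ∈ S, r p * p ^ k = 0) ∧
    ∀ w, w ∉ S → P.coeff d - w * Q.coeff d ≠ 0 →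
      ((P - C w * Q).roots.map fun z =>
        (∑ p ∈ S, r p / (z - p)) * Q.eval z ^ 4 / (wr P Q).eval z ^ 2).sum =
        ∑ p ∈ S, r p / (w - p)

namespace THAlgAux

open Classical

/-- The monic polynomial with simple roots at the points of S. -/
noncomputable def nd (S : Finset K) : K[X] := Lagrange.nodal S id

lemma nd_monic (S : Finset K) : (nd S).Monic := Lagrange.nodal_monic

lemma nd_deg (S : Finset K) : (nd S).natDegree = S.card := Lagrange.natDegree_nodal

lemma nd_erase {S : Finset K} {p : K} (hp : p ∈ S) : nd S = (X - C p) * nd (S.erase p) :=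
  Lagrange.nodal_eq_mul_nodal_erase hp

lemma nd_eval_ne {S : Finset K} {z : K} (hz : z ∉ S) : (nd S).eval z ≠ 0 :=
  Lagrange.eval_nodal_not_at_node fun _ hi e => hz (e ▸ hi)

lemma nd_eval_zero {S : Finset K} {z : K} (hz : z ∈ S) : (nd S).eval z = 0 :=
  Lagrange.eval_nodal_at_node (v := id) hz

lemma nd_dvd {S : Finset K} {A : K[X]} (h : ∀ p ∈ S, A.eval p = 0) : nd S ∣ A := by
  refine Finset.prod_dvd_of_coprime (fun a _ b _ hab => ?_) fun p hp => dvd_iff_isRoot.2 (h p hp)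
  exact isCoprime_X_sub_C_of_isUnit_sub (sub_ne_zero.2 hab).isUnit

lemma coprime_pow {U : K[X]} {p : K} (h : U.eval p ≠ 0) (m : ℕ) : IsCoprime ((X - C p) ^ m) U :=
  ((irreducible_X_sub_C p).coprime_iff_not_dvd.2 fun e => h (dvd_iff_isRoot.1 e)).pow_left

lemma dvd_of_local [IsAlgClosed K] {A B : K[X]} (hB : B ≠ 0)
    (h : ∀ p, B.eval p = 0 → ∃ (j : ℕ) (U : K[X]), B = (X - C p) ^ j * U ∧ U.eval p ≠ 0 ∧
      (X - C p) ^ j ∣ A) : B ∣ A := by
  rcases eq_or_ne A 0 with rfl | hA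
  · exact dvd_zero _
  rw [IsAlgClosed.dvd_iff_roots_le_roots hB hA, Multiset.le_iff_count]
  intro p
  rw [count_roots, count_roots]
  by_cases hp : B.eval p = 0
  · obtain ⟨j, U, e, hU, hd⟩ := h p hp
    rw [le_rootMultiplicity_iff hA]
    refine Dvd.dvd.trans ?_ hd
    refine (coprime_pow hU _).dvd_of_dvd_mul_right ?_
    rw [← e]
    exact pow_rootMultiplicity_dvd B p
  · rw [rootMultiplicity_eq_zero hp]
    exact Nat.zero_le _

lemma coprime_of_roots [IsAlgClosed K] {A B : K[X]} (h : ∀ z, A.eval z = 0 → B.eval z ≠ 0) :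
    IsCoprime A B := by
  rw [Polynomial.isCoprime_iff_aeval_ne_zero_of_isAlgClosed K K]
  intro a
  by_cases ha : A.eval a = 0
  · exact Or.inr (by simpa using h a ha)
  · exact Or.inl (by simpa using ha)

/-- The total residue functional of a denominator B. -/
lemma exists_lam {B : K[X]} (hB : B ≠ 0) : ∃ lam : K[X] →ₗ[K] K, (∀ E, B ∣ E → lam E = 0) ∧
    ∀ E : K[X], E.natDegree < B.natDegree → lam E = E.coeff (B.natDegree - 1) := by
  have hm := monic_mul_leadingCoeff_inv hB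
  refine ⟨(lcoeff K (B.natDegree - 1)).comp (modByMonicHom (B * C B.leadingCoeff⁻¹)),
    fun E hE => ?_, fun E hE => ?_⟩
  · have : E %ₘ (B * C B.leadingCoeff⁻¹) = 0 := by
      rw [modByMonic_eq_zero_iff_dvd hm]
      obtain ⟨c, rfl⟩ := hE
      refine ⟨C B.leadingCoeff * c, ?_⟩
      rw [mul_assoc, ← mul_assoc (C _), ← C_mul, inv_mul_cancel₀ (leadingCoeff_ne_zero.2 hB), C_1,
        one_mul]
    simp [modByMonicHom, this]
  · have : E %ₘ (B * C B.leadingCoeff⁻¹) = E := by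
      rw [modByMonic_eq_self_iff hm, degree_mul_leadingCoeff_inv B hB]
      exact degree_lt_degree hE
    simp [modByMonicHom, this]

/-- The derivation acting on coefficients. -/
lemma exists_der (δ : Derivation ℤ K K) : ∃ D : Derivation ℤ K[X] K[X],
    (∀ p i, (D p).coeff i = δ (p.coeff i)) ∧ D X = 0 ∧ ∀ a, D (C a) = C (δ a) := by
  let _ : Differential K := ⟨δ⟩
  exact ⟨Differential.mapCoeffs, Differential.coeff_mapCoeffs, Differential.mapCoeffs_X,
    Differential.mapCoeffs_C⟩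

lemma deg_der {δ : Derivation ℤ K K} {D : Derivation ℤ K[X] K[X]}
    (hD : ∀ p i, (D p).coeff i = δ (p.coeff i)) (p : K[X]) : (D p).natDegree ≤ p.natDegree := by
  rw [natDegree_le_iff_coeff_eq_zero]
  intro N hN
  rw [hD, coeff_eq_zero_of_natDegree_lt hN, map_zero]

/-- The numerator of the sum of simple fractions. -/
noncomputable def num (S : Finset K) (r : K → K) : K[X] := ∑ p ∈ S, C (r p) * nd (S.erase p)

lemma deg_erase {S : Finset K} {p : K} (hp : p ∈ S) : (nd (S.erase p)).natDegree + 1 = S.card := by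
  rw [nd_deg, Finset.card_erase_add_one hp]

lemma deg_num_le (S : Finset K) (r : K → K) : (num S r).natDegree ≤ S.card - 1 := by
  refine natDegree_sum_le_of_forall_le _ _ fun p hp => (natDegree_C_mul_le _ _).trans ?_
  have := deg_erase hp
  omega

lemma deg_num {S : Finset K} {r : K → K} (h : ∀ k < 3, ∑ p ∈ S, r p * p ^ k = 0) :
    num S r = 0 ∨ (num S r).natDegree + 4 ≤ S.card := by
  rcases eq_or_ne (num S r) 0 with h0 | h0
  · exact Or.inl h0
  right
  have key : X ^ 3 * num S r = num S (fun p => r p * p ^ 3) + nd S *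
      (C (∑ p ∈ S, r p * p ^ 0) * X ^ 2 + C (∑ p ∈ S, r p * p ^ 1) * X +
        C (∑ p ∈ S, r p * p ^ 2)) := by
    simp only [num, map_sum, Finset.sum_mul, Finset.mul_sum, ← Finset.sum_add_distrib]
    refine Finset.sum_congr rfl fun p hp => ?_
    rw [nd_erase hp]
    simp only [map_mul, map_pow]
    ring
  rw [h 0 (by norm_num), h 1 (by norm_num), h 2 (by norm_num)] at key
  simp only [map_zero, zero_mul, add_zero, mul_zero] at key
  have h1 := deg_num_le S fun p => r p * p ^ 3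
  rw [← key, natDegree_X_pow_mul 3 h0] at h1
  omega

lemma eval_num {S : Finset K} (r : K → K) {z : K} (hz : z ∉ S) :
    ∑ p ∈ S, r p / (z - p) = (num S r).eval z / (nd S).eval z := by
  rw [num, eval_finsetSum, Finset.sum_div]
  refine Finset.sum_congr rfl fun p hp => ?_
  have h1 : z - p ≠ 0 := sub_ne_zero.2 fun e => hz (e ▸ hp)
  have h2 := nd_eval_ne (S := S.erase p) (z := z) fun e => hz (Finset.mem_of_mem_erase e)
  rw [nd_erase hp]
  simp only [eval_mul, eval_C, eval_sub, eval_X]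
  field_simp

lemma fix (S : Finset K) (t : K → K → K) (v : K → K)
    (H1 : ∀ r : K → K, (∀ k < 3, ∑ p ∈ S, r p * p ^ k = 0) →
      ∀ k < 3, ∑ w ∈ S, (∑ p ∈ S, r p * t p w) * w ^ k = 0)
    (H2 : ∀ r : K → K, (∀ k < 3, ∑ p ∈ S, r p * p ^ k = 0) →
      ∑ w ∈ S, (∑ p ∈ S, r p * t p w) * v w = ∑ p ∈ S, r p * v p)
    (H3 : ∃ r : K → K, (∀ k < 3, ∑ p ∈ S, r p * p ^ k = 0) ∧ ∑ p ∈ S, r p * v p ≠ 0) :
    ∃ r : K → K, (∃ p ∈ S, r p ≠ 0) ∧ (∀ k < 3, ∑ p ∈ S, r p * p ^ k = 0) ∧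
      ∀ w ∈ S, ∑ p ∈ S, r p * t p w = r w := by
  let ex : (S → K) → K → K := fun r p => if h : p ∈ S then r ⟨p, h⟩ else 0
  have hex : ∀ (r : S → K) (u : K → K), ∑ p ∈ S, ex r p * u p = ∑ p : S, r p * u p := by
    intro r u
    rw [← Finset.sum_coe_sort S]
    exact Finset.sum_congr rfl fun p _ => by simp [ex]
  let fn : (K → K) → (S → K) →ₗ[K] K := fun u =>
    { toFun := fun r => ∑ p : S, r p * u p
      map_add' := fun r s => by simp [add_mul, Finset.sum_add_distrib]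
      map_smul' := fun c r => by simp [Finset.mul_sum, mul_assoc] }
  let T : (S → K) →ₗ[K] (S → K) := LinearMap.pi fun w : S => fn fun p => t p w
  let M : Submodule K (S → K) := ⨅ k : Fin 3, LinearMap.ker (fn fun p => p ^ (k : ℕ))
  have hM : ∀ r, r ∈ M ↔ ∀ k < 3, ∑ p ∈ S, ex r p * p ^ k = 0 := fun r => by
    simp only [M, Submodule.mem_iInf, LinearMap.mem_ker, hex]
    exact ⟨fun h k hk => h ⟨k, hk⟩, fun h k => h k k.2⟩
  have hT : ∀ (r : S → K) (u : K → K),
      fn u (T r) = ∑ w ∈ S, (∑ p ∈ S, ex r p * t p w) * u w := fun r u => by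
    rw [← Finset.sum_coe_sort S]
    exact Finset.sum_congr rfl fun w _ => by rw [hex r fun p => t p w]; rfl
  have hTM : ∀ r ∈ M, (T - 1) r ∈ M := fun r hr => by
    refine M.sub_mem ?_ hr
    simp only [M, Submodule.mem_iInf, LinearMap.mem_ker]
    intro k
    exact (hT r _).trans (H1 _ ((hM r).1 hr) k k.2)
  by_contra hc
  have hinj : Function.Injective ((T - 1).restrict hTM) := by
    rw [injective_iff_map_eq_zero]
    rintro ⟨r, hr⟩ e
    by_contra hne
    refine hc ⟨ex r, ?_, (hM r).1 hr, fun w hw => ?_⟩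
    · by_contra h0
      refine hne (Subtype.ext (funext fun p => ?_))
      by_contra h1
      exact h0 ⟨p, p.2, by simpa [ex] using h1⟩
    · have e1 : T r - r = 0 := congrArg Subtype.val e
      have e2 := congrFun (sub_eq_zero.1 e1) ⟨w, hw⟩
      rw [hex r fun p => t p w]
      simp only [ex, hw, dif_pos]
      exact e2
  obtain ⟨r₀, h0, h1⟩ := H3
  have hr : ∀ u : K → K, ∑ p ∈ S, ex (fun p => r₀ p) p * u p = ∑ p ∈ S, r₀ p * u p := fun u =>
    Finset.sum_congr rfl fun p hp => by simp [ex, hp]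
  obtain ⟨⟨r, hr'⟩, e⟩ := LinearMap.injective_iff_surjective.1 hinj
    ⟨fun p => r₀ p, (hM _).2 fun k hk => by rw [hr fun p => p ^ k]; exact h0 k hk⟩
  have e1 : T r - r = fun p : S => r₀ p := congrArg Subtype.val e
  have e2 := congrArg (fn v) e1
  rw [map_sub, hT, H2 _ ((hM r).1 hr'), hex] at e2
  refine h1 ?_
  rw [← hr]
  exact (hex (fun p => r₀ p) v).trans (e2.symm.trans (sub_self _))

lemma four {S : Finset K} (v : K → K) {p₁ p₂ p₃ p₄ : K}
    (h1 : p₁ ∈ S) (h2 : p₂ ∈ S) (h3 : p₃ ∈ S) (h4 : p₄ ∈ S) (h12 : p₁ ≠ p₂) (h13 : p₁ ≠ p₃)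
    (h23 : p₂ ≠ p₃) (d1 : v p₁ = 0) (d2 : v p₂ = 0) (d3 : v p₃ = 0) (d4 : v p₄ ≠ 0) :
    ∃ r : K → K, (∀ k < 3, ∑ p ∈ S, r p * p ^ k = 0) ∧ ∑ p ∈ S, r p * v p ≠ 0 := by
  have key : ∀ (a b c : K) (u : K → K), ∑ p ∈ S, ((if p = p₁ then a else 0) +
      (if p = p₂ then b else 0) + (if p = p₃ then c else 0) + if p = p₄ then 1 else 0) * u p =
      a * u p₁ + b * u p₂ + c * u p₃ + u p₄ := by
    intro a b c u
    simp [add_mul, Finset.sum_add_distrib, h1, h2, h3, h4]
  have e12 := sub_ne_zero.2 h12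
  have e13 := sub_ne_zero.2 h13
  have e23 := sub_ne_zero.2 h23
  refine ⟨fun p => (if p = p₁ then -((p₄ - p₂) * (p₄ - p₃) / ((p₁ - p₂) * (p₁ - p₃))) else 0) +
      (if p = p₂ then (p₄ - p₁) * (p₄ - p₃) / ((p₁ - p₂) * (p₂ - p₃)) else 0) +
      (if p = p₃ then -((p₄ - p₁) * (p₄ - p₂) / ((p₁ - p₃) * (p₂ - p₃))) else 0) +
      if p = p₄ then 1 else 0, fun k hk => ?_, ?_⟩
  · rw [key _ _ _ fun p => p ^ k]
    interval_cases k <;> field_simp <;> ring
  · rw [key, d1, d2, d3]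
    simpa using d4

variable [IsAlgClosed K] [CharZero K] {d : ℕ} {P Q : K[X]} {S : Finset K}

omit [IsAlgClosed K] [CharZero K] in
lemma wr_ne (h : THData d P Q S) : wr P Q ≠ 0 := fun e => by
  have h1 := h.degW
  have h2 := h.two
  rw [e, natDegree_zero] at h1
  omega

omit [IsAlgClosed K] [CharZero K] in
lemma den_ne (h : THData d P Q S) : nd S * wr P Q ≠ 0 := mul_ne_zero (nd_monic S).ne_zero (wr_ne h)

omit [IsAlgClosed K] [CharZero K] in
lemma den_deg (h : THData d P Q S) : (nd S * wr P Q).natDegree + 2 = S.card + 2 * d := by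
  rw [natDegree_mul (nd_monic S).ne_zero (wr_ne h), nd_deg, h.degW]
  have := h.two
  omega

omit [IsAlgClosed K] [CharZero K] in
lemma den_root (h : THData d P Q S) {p : K} (hp : (nd S * wr P Q).eval p = 0) :
    Q.eval p ≠ 0 ∧ P.eval p / Q.eval p ∈ S := by
  rw [eval_mul, mul_eq_zero] at hp
  rcases hp with hp | hp
  · exact h.inv p (by_contra fun hn => nd_eval_ne hn hp)
  · exact h.crit p hp

omit [IsAlgClosed K] in
lemma loc (h : THData d P Q S) {δ : Derivation ℤ K K} {D : Derivation ℤ K[X] K[X]}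
    (hX : D X = 0) (hC : ∀ a, D (C a) = C (δ a)) {g : K[X]} (hg : ∀ p ∈ S, g.eval p = δ p)
    {p : K} (hp : (nd S * wr P Q).eval p = 0) :
    ∃ (j : ℕ) (U : K[X]), nd S * wr P Q = (X - C p) ^ j * U ∧ U.eval p ≠ 0 ∧
      (X - C p) ^ j ∣ P - C (P.eval p / Q.eval p) * Q ∧
      (X - C p) ^ j ∣ C (δ (P.eval p / Q.eval p)) * Q ^ 2 - (D P * Q - P * D Q) - g * wr P Q := by
  obtain ⟨hQ, hw⟩ := den_root h hp
  set w := P.eval p / Q.eval p with hwdef
  have hne : P - C w * Q ≠ 0 := fun e => h.top w hw (by simpa using congrArg (coeff · d) e)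
  obtain ⟨R, hR, hR'⟩ := exists_eq_pow_rootMultiplicity_mul_and_not_dvd _ hne p
  have hroot : (P - C w * Q).IsRoot p := by
    simp only [IsRoot, eval_sub, eval_mul, eval_C, hwdef]
    field_simp
    ring
  obtain ⟨k, hk⟩ := Nat.exists_eq_add_one_of_ne_zero ((rootMultiplicity_pos hne).2 hroot).ne'
  rw [hk] at hR
  have hRp : R.eval p ≠ 0 := fun e => hR' (dvd_iff_isRoot.2 e)
  have hP : P = C w * Q + (X - C p) ^ (k + 1) * R := by rw [← hR]; ring
  have hW : wr P Q = (X - C p) ^ k * (((k : K[X]) + 1) * R * Q + (X - C p) * wr R Q) := by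
    conv_lhs => rw [hP]
    simp only [wr, derivative_mul, derivative_C, derivative_X_sub_C_pow,
      Nat.add_sub_cancel, map_add, map_natCast, map_one, Nat.cast_add, Nat.cast_one]
    ring
  have hW1 : (((k : K[X]) + 1) * R * Q + (X - C p) * wr R Q).eval p ≠ 0 := by
    simp only [eval_add, eval_mul, eval_natCast, eval_one, eval_sub, eval_X, eval_C, sub_self,
      zero_mul, add_zero]
    exact mul_ne_zero (mul_ne_zero (Nat.cast_add_one_ne_zero k) hRp) hQ
  have hDP : D P = C (δ w) * Q + C w * D Q + (X - C p) ^ (k + 1) * D R -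
      ((k : K[X]) + 1) * (X - C p) ^ k * C (δ p) * R := by
    conv_lhs => rw [hP]
    simp only [map_add, Derivation.leibniz, Derivation.leibniz_pow, map_sub, hX, hC, smul_eq_mul,
      nsmul_eq_mul, Nat.add_sub_cancel, Nat.cast_add, Nat.cast_one]
    ring
  have key : C (δ w) * Q ^ 2 - (D P * Q - P * D Q) - g * wr P Q =
      (X - C p) ^ k * ((C (δ p) - g) * (((k : K[X]) + 1) * R * Q)) +
      (X - C p) ^ (k + 1) * (R * D Q - D R * Q - g * wr R Q) := by
    rw [hW, hDP]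
    nth_rw 1 [hP]
    ring
  by_cases hpS : p ∈ S
  · refine ⟨k + 1, nd (S.erase p) * (((k : K[X]) + 1) * R * Q + (X - C p) * wr R Q), ?_, ?_,
      ⟨R, hR⟩, ?_⟩
    · rw [hW, nd_erase hpS]; ring
    · rw [eval_mul]
      exact mul_ne_zero (nd_eval_ne (Finset.notMem_erase p S)) hW1
    · rw [key]
      refine dvd_add ?_ (dvd_mul_right _ _)
      rw [pow_succ]
      refine mul_dvd_mul_left _ (Dvd.dvd.mul_right (dvd_iff_isRoot.2 ?_) _)
      simp [hg p hpS]
  · refine ⟨k, nd S * (((k : K[X]) + 1) * R * Q + (X - C p) * wr R Q), ?_, ?_, ?_, ?_⟩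
    · rw [hW]; ring
    · rw [eval_mul]
      exact mul_ne_zero (nd_eval_ne hpS) hW1
    · rw [hR]
      exact (pow_dvd_pow _ k.le_succ).mul_right _
    · rw [key]
      exact dvd_add (dvd_mul_right _ _) ((pow_dvd_pow _ k.le_succ).mul_right _)


omit [CharZero K] in
lemma cop_PQ (h : THData d P Q S) : IsCoprime P Q := coprime_of_roots h.co

omit [CharZero K] in
lemma cop_den (h : THData d P Q S) : IsCoprime (nd S * wr P Q) Q :=
  coprime_of_roots fun _ hz => (den_root h hz).1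

omit [CharZero K] in
lemma exists_phi (h : THData d P Q S) : ∃ Φ : K[X], nd S * wr P Q ∣ Φ * Q - P := by
  obtain ⟨a, b, e⟩ := cop_den h
  exact ⟨b * P, -(a * P), by linear_combination P * e⟩

lemma dvd_comp (h : THData d P Q S) {Φ : K[X]} (hΦ : nd S * wr P Q ∣ Φ * Q - P) {g : K[X]}
    (hg : ∀ w ∈ S, g.eval w = 0) : nd S * wr P Q ∣ g.comp Φ := by
  obtain ⟨D, -, hX, hC⟩ := exists_der (0 : Derivation ℤ K K)
  refine dvd_of_local (den_ne h) fun p hp => ?_
  obtain ⟨j, U, e, hU, h1, -⟩ := loc h hX hC (g := 0) (by simp) hp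
  obtain ⟨hQ, hw⟩ := den_root h hp
  refine ⟨j, U, e, hU, ?_⟩
  obtain ⟨g₁, rfl⟩ := dvd_iff_isRoot.2 (hg _ hw)
  rw [mul_comp, sub_comp, X_comp, C_comp]
  refine Dvd.dvd.mul_right ((coprime_pow hQ j).dvd_of_dvd_mul_right ?_) _
  have h2 : (X - C p) ^ j ∣ Φ * Q - P := Dvd.dvd.trans ⟨U, e⟩ hΦ
  have h3 := dvd_add h1 h2
  rwa [show P - C (P.eval p / Q.eval p) * Q + (Φ * Q - P) =
    (Φ - C (P.eval p / Q.eval p)) * Q by ring] at h3

lemma dvd_der (h : THData d P Q S) {Φ : K[X]} (hΦ : nd S * wr P Q ∣ Φ * Q - P)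
    {δ : Derivation ℤ K K} {D : Derivation ℤ K[X] K[X]}
    (hX : D X = 0) (hC : ∀ a, D (C a) = C (δ a)) {g : K[X]} (hg : ∀ p ∈ S, g.eval p = δ p) :
    nd S * wr P Q ∣ g.comp Φ * Q ^ 2 - (D P * Q - P * D Q) - g * wr P Q := by
  refine dvd_of_local (den_ne h) fun p hp => ?_
  obtain ⟨j, U, e, hU, h1, h4⟩ := loc h hX hC hg hp
  obtain ⟨hQ, hw⟩ := den_root h hp
  refine ⟨j, U, e, hU, ?_⟩
  set w := P.eval p / Q.eval p
  have h2 : (X - C p) ^ j ∣ Φ * Q - P := Dvd.dvd.trans ⟨U, e⟩ hΦ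
  have h3 := dvd_add h1 h2
  rw [show P - C w * Q + (Φ * Q - P) = (Φ - C w) * Q by ring] at h3
  obtain ⟨g₁, e1⟩ : X - C w ∣ g - C (δ w) := dvd_iff_isRoot.2 (by simp [hg w hw])
  have e2 := congrArg (·.comp Φ) e1
  simp only [mul_comp, sub_comp, X_comp, C_comp] at e2
  have h5 := dvd_add h4 (h3.mul_right (g₁.comp Φ * Q))
  rwa [show C (δ w) * Q ^ 2 - (D P * Q - P * D Q) - g * wr P Q +
      (Φ - C w) * Q * (g₁.comp Φ * Q) = g.comp Φ * Q ^ 2 - (D P * Q - P * D Q) - g * wr P Q by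
    linear_combination (-Q ^ 2) * e2] at h5

omit [IsAlgClosed K] [CharZero K] in
lemma deg_N (h : THData d P Q S) {δ : Derivation ℤ K K} {D : Derivation ℤ K[X] K[X]}
    (hD : ∀ p i, (D p).coeff i = δ (p.coeff i)) : (D P * Q - P * D Q).natDegree ≤ 2 * d := by
  have h1 := deg_der hD P
  have h2 := deg_der hD Q
  have h3 := h.degP
  have h4 := h.degQ
  refine (natDegree_sub_le _ _).trans (max_le (natDegree_mul_le.trans ?_)
    (natDegree_mul_le.trans ?_)) <;> omega

omit [IsAlgClosed K] [CharZero K] in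
lemma lam_small (h : THData d P Q S) {lam : K[X] →ₗ[K] K}
    (hl : ∀ E : K[X], E.natDegree < (nd S * wr P Q).natDegree →
      lam E = E.coeff ((nd S * wr P Q).natDegree - 1))
    {r : K → K} (hr : ∀ k < 3, ∑ p ∈ S, r p * p ^ k = 0) {E : K[X]} (hE : E.natDegree ≤ 2 * d) :
    lam (num S r * E) = 0 := by
  rcases deg_num hr with h0 | h0
  · rw [h0, zero_mul, map_zero]
  have h1 := den_deg h
  have h2 : (num S r * E).natDegree ≤ (num S r).natDegree + E.natDegree := natDegree_mul_le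
  rw [hl _ (by omega)]
  exact coeff_eq_zero_of_natDegree_lt (by omega)

omit [IsAlgClosed K] [CharZero K] in
lemma lam_wr (h : THData d P Q S) {lam : K[X] →ₗ[K] K}
    (h0 : ∀ E, nd S * wr P Q ∣ E → lam E = 0)
    (hl : ∀ E : K[X], E.natDegree < (nd S * wr P Q).natDegree →
      lam E = E.coeff ((nd S * wr P Q).natDegree - 1)) (r : K → K) (g : K[X]) :
    lam (num S r * (g * wr P Q)) = (wr P Q).leadingCoeff * ∑ p ∈ S, r p * g.eval p := by
  rw [num, Finset.sum_mul, map_sum, Finset.mul_sum]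
  refine Finset.sum_congr rfl fun p hp => ?_
  obtain ⟨g₁, e1⟩ : X - C p ∣ g - C (g.eval p) := X_sub_C_dvd_sub_C_eval
  have e2 : C (r p) * nd (S.erase p) * (g * wr P Q) =
      (r p * g.eval p) • (nd (S.erase p) * wr P Q) + nd S * wr P Q * (C (r p) * g₁) := by
    rw [nd_erase hp, smul_eq_C_mul, C_mul]
    linear_combination (C (r p) * nd (S.erase p) * wr P Q) * e1
  have h1 := den_deg h
  have h2 := deg_erase hp
  have h3 := h.degW
  have h4 := h.two
  have h5 : (nd (S.erase p) * wr P Q).natDegree = (nd S * wr P Q).natDegree - 1 := by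
    rw [natDegree_mul (nd_monic _).ne_zero (wr_ne h)]; omega
  rw [e2, map_add, h0 _ (dvd_mul_right _ _), add_zero, map_smul, hl _ (by omega), ← h5,
    coeff_natDegree, leadingCoeff_monic_mul (nd_monic _), smul_eq_mul, mul_comm]

lemma lam_push (h : THData d P Q S) {Φ : K[X]} (hΦ : nd S * wr P Q ∣ Φ * Q - P)
    {lam : K[X] →ₗ[K] K} (h0 : ∀ E, nd S * wr P Q ∣ E → lam E = 0)
    (hl : ∀ E : K[X], E.natDegree < (nd S * wr P Q).natDegree →
      lam E = E.coeff ((nd S * wr P Q).natDegree - 1))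
    {r : K → K} (hr : ∀ k < 3, ∑ p ∈ S, r p * p ^ k = 0) {w : K} (hw : w ∉ S)
    (hc : P.coeff d - w * Q.coeff d ≠ 0) {g : K[X]} (hg : ∀ p ∈ S, g.eval p = (w - p)⁻¹) :
    lam (num S r * (g.comp Φ * Q ^ 2)) = (wr P Q).leadingCoeff *
      ((P - C w * Q).roots.map fun z =>
        (∑ p ∈ S, r p / (z - p)) * Q.eval z ^ 4 / (wr P Q).eval z ^ 2).sum := by
  rcases deg_num hr with hz | hdeg
  · rw [hz, zero_mul, map_zero, eq_comm]
    refine mul_eq_zero_of_right _ (Multiset.sum_eq_zero fun x hx => ?_)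
    obtain ⟨z, hz', rfl⟩ := Multiset.mem_map.1 hx
    by_cases hzS : z ∈ S
    · exfalso
      have e := (mem_roots'.1 hz').2
      simp only [IsRoot, eval_sub, eval_mul, eval_C] at e
      obtain ⟨hQ, hm⟩ := h.inv z hzS
      rw [sub_eq_zero.1 e, mul_div_cancel_right₀ _ hQ] at hm
      exact hw hm
    · rw [eval_num r hzS, hz]; simp
  set B := nd S * wr P Q with hB
  set Dw := P - C w * Q with hDw
  set c := P.coeff d - w * Q.coeff d with hcdef
  have hcoef : Dw.coeff d = c := by simp [hDw, hcdef]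
  have hle : Dw.natDegree ≤ d := (natDegree_sub_le _ _).trans
    (max_le h.degP ((natDegree_C_mul_le _ _).trans h.degQ))
  have hdD : Dw.natDegree = d := natDegree_eq_of_le_of_coeff_ne_zero hle (hcoef ▸ hc)
  have hD0 : Dw ≠ 0 := fun e => hc (by rw [← hcoef, e, coeff_zero])
  have hlc : Dw.leadingCoeff = c := by rw [leadingCoeff, hdD, hcoef]
  have hroot : ∀ z, Dw.eval z = 0 → Q.eval z ≠ 0 ∧ z ∉ S ∧ (wr P Q).eval z ≠ 0 ∧
      (derivative Dw).eval z * Q.eval z = (wr P Q).eval z := fun z e => by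
    simp only [hDw, eval_sub, eval_mul, eval_C] at e
    have e' := sub_eq_zero.1 e
    have hQ : Q.eval z ≠ 0 := fun q => h.co z (by rw [e', q, mul_zero]) q
    have hf : P.eval z / Q.eval z = w := by rw [e', mul_div_cancel_right₀ _ hQ]
    refine ⟨hQ, fun m => hw (hf ▸ (h.inv z m).2), fun m => hw (hf ▸ (h.crit z m).2), ?_⟩
    simp only [hDw, wr, derivative_sub, derivative_mul, derivative_C, eval_sub, eval_mul, eval_C,
      zero_mul, zero_add, e']
    ring
  have hnd : Dw.roots.Nodup := by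
    rw [Multiset.nodup_iff_count_le_one]
    intro z
    rw [count_roots]
    by_contra hlt
    obtain ⟨e1, e2⟩ := (one_lt_rootMultiplicity_iff_isRoot hD0).1 (not_le.1 hlt)
    obtain ⟨-, -, h3, h4⟩ := hroot z e1
    rw [e2.eq_zero, zero_mul] at h4
    exact h3 h4.symm
  let Z : Finset K := ⟨Dw.roots, hnd⟩
  have hZ : ∀ z ∈ Z, Dw.eval z = 0 := fun z hz => (mem_roots'.1 hz).2
  have hDZ : Dw = C c * nd Z := by
    rw [← hlc]; exact (IsAlgClosed.splits Dw).eq_prod_roots
  have hcard : Z.card = d := by rw [← hdD]; exact IsAlgClosed.card_roots_eq_natDegree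
  have hder : ∀ z ∈ Z, (derivative Dw).eval z = c * (nd (Z.erase z)).eval z := fun z hz => by
    rw [hDZ, nd_erase hz]
    simp [derivative_mul]
  let a : K → K := fun z => (∑ p ∈ S, r p / (z - p)) * Q.eval z ^ 4 / (wr P Q).eval z ^ 2
  have hdv : nd Z ∣ num S r * Q ^ 3 - B * (C c * num Z a) := by
    refine nd_dvd fun z hz => ?_
    obtain ⟨h1, h2, h3, h4⟩ := hroot z (hZ z hz)
    have h5 : (num Z a).eval z = a z * (nd (Z.erase z)).eval z := by
      rw [num, eval_finsetSum, Finset.sum_eq_single z, eval_mul, eval_C]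
      · intro y _ hy
        rw [eval_mul, nd_eval_zero (Finset.mem_erase.2 ⟨hy.symm, hz⟩), mul_zero]
      · exact fun hn => absurd hz hn
    have h6 := nd_eval_ne h2
    rw [hder z hz] at h4
    simp only [hB, eval_sub, eval_mul, eval_pow, eval_C, h5, a, eval_num r h2]
    field_simp
    rw [← h4]
    ring
  obtain ⟨E₀, hE₀⟩ := hdv
  obtain ⟨E, hE⟩ : ∃ E, num S r * Q ^ 3 - B * (C c * num Z a) = Dw * E :=
    ⟨C c⁻¹ * E₀, by
      rw [hE₀, hDZ, mul_comm (C c), mul_assoc, ← mul_assoc (C c), ← C_mul, mul_inv_cancel₀ hc, C_1,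
        one_mul]⟩
  have hn := den_deg h
  rw [← hB] at hn
  have h2 := h.two
  have dU : (num S r * Q ^ 3).natDegree + 2 ≤ B.natDegree + d := by
    have h1 : (num S r * Q ^ 3).natDegree ≤ _ := natDegree_mul_le
    have h3 : (Q ^ 3).natDegree ≤ _ := natDegree_pow_le
    have h4 := h.degQ
    omega
  have dn : (C c * num Z a).natDegree ≤ d - 1 :=
    (natDegree_C_mul_le _ _).trans (hcard ▸ deg_num_le Z a)
  have dE : E.natDegree ≤ B.natDegree - 1 := by
    rcases eq_or_ne E 0 with rfl | hE0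
    · simp
    have h1 : (Dw * E).natDegree = d + E.natDegree := by rw [natDegree_mul hD0 hE0, hdD]
    have h3 : (B * (C c * num Z a)).natDegree ≤ _ := natDegree_mul_le
    have h4 := natDegree_sub_le (num S r * Q ^ 3) (B * (C c * num Z a))
    rw [hE, h1] at h4
    omega
  have cn : (num Z a).coeff (d - 1) = ∑ z ∈ Z, a z := by
    rw [num, finsetSum_coeff]
    refine Finset.sum_congr rfl fun z hz => ?_
    have := deg_erase hz
    rw [coeff_C_mul, show d - 1 = (nd (Z.erase z)).natDegree by omega, (nd_monic _).coeff_natDegree,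
      mul_one]
  have hco := congrArg (coeff · (B.natDegree + (d - 1))) hE
  simp only [coeff_sub] at hco
  rw [coeff_eq_zero_of_natDegree_lt (by omega), coeff_mul_add_eq_of_natDegree_le le_rfl dn,
    show B.natDegree + (d - 1) = d + (B.natDegree - 1) by omega,
    coeff_mul_add_eq_of_natDegree_le hle dE, coeff_C_mul, cn, hcoef, coeff_natDegree,
    ← hl E (by omega), hB, leadingCoeff_monic_mul (nd_monic _)] at hco
  have hlE : lam E = -((wr P Q).leadingCoeff * ∑ z ∈ Z, a z) :=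
    mul_left_cancel₀ hc (by linear_combination -hco)
  have i1 : B ∣ ((C w - X) * g - 1).comp Φ := dvd_comp h hΦ fun p hp => by
    have : w - p ≠ 0 := sub_ne_zero.2 fun e => hw (e ▸ hp)
    simp [hg p hp, this]
  simp only [sub_comp, mul_comp, C_comp, X_comp, one_comp] at i1
  have i2 : B ∣ (Φ - C w) * E - num S r * Q ^ 2 := by
    refine (cop_den h).dvd_of_dvd_mul_right ?_
    have := dvd_sub (hΦ.mul_right E) (dvd_mul_right B (C c * num Z a))
    rwa [show (Φ * Q - P) * E - B * (C c * num Z a) =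
      ((Φ - C w) * E - num S r * Q ^ 2) * Q by linear_combination hE] at this
  have i3 : B ∣ num S r * (g.comp Φ * Q ^ 2) + E := by
    have := dvd_add (i1.mul_right E) (i2.mul_right (g.comp Φ))
    rw [← dvd_neg]
    rwa [show ((C w - Φ) * g.comp Φ - 1) * E + ((Φ - C w) * E - num S r * Q ^ 2) * g.comp Φ =
      -(num S r * (g.comp Φ * Q ^ 2) + E) by ring] at this
  have i4 := h0 _ i3
  rw [map_add, hlE] at i4
  exact add_neg_eq_zero.1 i4

end THAlgAux

variable [IsAlgClosed K] [CharZero K] {d : ℕ} {P Q : K[X]} {S : Finset K}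

open THAlgAux in
theorem THData.exists_inv (h : THData d P Q S) (δ : Derivation ℤ K K) {p₁ p₂ p₃ p₄ : K}
    (h1 : p₁ ∈ S) (h2 : p₂ ∈ S) (h3 : p₃ ∈ S) (h4 : p₄ ∈ S) (h12 : p₁ ≠ p₂) (h13 : p₁ ≠ p₃)
    (h23 : p₂ ≠ p₃) (d1 : δ p₁ = 0) (d2 : δ p₂ = 0) (d3 : δ p₃ = 0) (d4 : δ p₄ ≠ 0) :
    ∃ r, THInv d P Q S r := by
  classical
  obtain ⟨D, hD, hX, hC⟩ := exists_der δ
  obtain ⟨Φ, hΦ⟩ := exists_phi h
  obtain ⟨lam, h0, hl⟩ := exists_lam (den_ne h)
  have hℓ : (wr P Q).leadingCoeff ≠ 0 := leadingCoeff_ne_zero.2 (wr_ne h)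
  let t : K → K → K := fun p w =>
    lam (nd (S.erase p) * ((Lagrange.basis S id w).comp Φ * Q ^ 2)) / (wr P Q).leadingCoeff
  have hint : ∀ u : K → K, ∀ p ∈ S, (Lagrange.interpolate S id u).eval p = u p := fun u p hp =>
    Lagrange.eval_interpolate_at_node (v := id) u (Set.injOn_id _) hp
  have key : ∀ (r u : K → K) (g : K[X]), (∀ p ∈ S, g.eval p = u p) →
      (wr P Q).leadingCoeff * ∑ w ∈ S, (∑ p ∈ S, r p * t p w) * u w =
        lam (num S r * (g.comp Φ * Q ^ 2)) := fun r u g hg => by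
    have e1 : lam (num S r * (g.comp Φ * Q ^ 2)) =
        lam (num S r * ((Lagrange.interpolate S id u).comp Φ * Q ^ 2)) := by
      rw [← sub_eq_zero, ← map_sub, ← mul_sub, ← sub_mul, ← sub_comp]
      refine h0 _ (Dvd.dvd.mul_left (Dvd.dvd.mul_right (dvd_comp h hΦ fun p hp => ?_) _) _)
      rw [eval_sub, hg p hp, hint u p hp, sub_self]
    rw [e1, Lagrange.interpolate_apply, sum_comp, Finset.sum_mul, Finset.mul_sum, Finset.mul_sum,
      map_sum]
    refine Finset.sum_congr rfl fun w _ => ?_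
    rw [num, Finset.sum_mul, Finset.sum_mul, Finset.mul_sum, map_sum]
    refine Finset.sum_congr rfl fun p _ => ?_
    have e2 : C (r p) * nd (S.erase p) * ((C (u w) * Lagrange.basis S id w).comp Φ * Q ^ 2) =
        (r p * u w) • (nd (S.erase p) * ((Lagrange.basis S id w).comp Φ * Q ^ 2)) := by
      rw [smul_eq_C_mul, C_mul, mul_comp, C_comp]; ring
    rw [e2, map_smul, smul_eq_mul]
    simp only [t]
    field_simp
  obtain ⟨r, hr0, hr1, hr2⟩ := fix S t δ (fun r hr k hk => by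
      refine mul_left_cancel₀ hℓ ?_
      rw [key r (fun w => w ^ k) (X ^ k) (by simp), mul_zero, pow_comp, X_comp]
      have e : nd S * wr P Q ∣ Φ ^ k * Q ^ 2 - P ^ k * Q ^ (2 - k) := by
        have := (hΦ.trans (sub_dvd_pow_sub_pow _ _ k)).mul_right (Q ^ (2 - k))
        rwa [sub_mul, mul_pow, mul_assoc, ← pow_add, show k + (2 - k) = 2 by omega] at this
      have e1 := h0 _ (e.mul_left (num S r))
      rw [mul_sub, map_sub, sub_eq_zero] at e1
      rw [e1]
      refine lam_small h hl hr (natDegree_mul_le.trans ?_)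
      have a1 : (P ^ k).natDegree ≤ k * d :=
        natDegree_pow_le.trans (Nat.mul_le_mul_left _ h.degP)
      have a2 : (Q ^ (2 - k)).natDegree ≤ (2 - k) * d :=
        natDegree_pow_le.trans (Nat.mul_le_mul_left _ h.degQ)
      refine (add_le_add a1 a2).trans ?_
      rw [← add_mul, show k + (2 - k) = 2 by omega])
    (fun r hr => by
      refine mul_left_cancel₀ hℓ ?_
      rw [key r δ _ (hint δ)]
      have e1 := h0 _ ((dvd_der h hΦ hX hC (hint δ)).mul_left (num S r))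
      rw [mul_sub, mul_sub, map_sub, map_sub, lam_small h hl hr (deg_N h hD), sub_zero,
        sub_eq_zero, lam_wr h h0 hl] at e1
      rw [e1]
      exact congrArg _ (Finset.sum_congr rfl fun p hp => by rw [hint δ p hp]))
    (four δ h1 h2 h3 h4 h12 h13 h23 d1 d2 d3 d4)
  refine ⟨r, hr0, hr1, fun w hw hc => mul_left_cancel₀ hℓ ?_⟩
  rw [← lam_push h hΦ h0 hl hr1 hw hc (hint fun p => (w - p)⁻¹), ← key r _ _ (hint _)]
  exact congrArg _ (Finset.sum_congr rfl fun p hp => by rw [hr2 p hp, div_eq_mul_inv])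

open THAlgAux in
theorem THData.coeff_prop (h : THData d P Q S) (δ : Derivation ℤ K K) (h3 : 3 ≤ S.card)
    (hδ : ∀ p ∈ S, δ p = 0) :
    ∃ c : K, ∀ i, δ (P.coeff i) = c * P.coeff i ∧ δ (Q.coeff i) = c * Q.coeff i := by
  obtain ⟨D, hD, hX, hC⟩ := exists_der δ
  obtain ⟨Φ, hΦ⟩ := exists_phi h
  have e := dvd_der h hΦ hX hC (g := 0) fun p hp => by rw [hδ p hp, eval_zero]
  simp only [zero_comp, zero_mul, sub_zero, zero_sub, dvd_neg] at e
  have hN : D P * Q - P * D Q = 0 := by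
    refine eq_zero_of_dvd_of_natDegree_lt e ?_
    have := deg_N h hD
    have := den_deg h
    omega
  have hP : P ≠ 0 := fun z => wr_ne h (by simp [wr, z])
  obtain ⟨E, hE⟩ : P ∣ D P := (cop_PQ h).dvd_of_dvd_mul_right ⟨D Q, sub_eq_zero.1 hN⟩
  have hE0 : E.natDegree = 0 := by
    rcases eq_or_ne E 0 with rfl | hE0
    · simp
    have := deg_der hD P
    rw [hE, natDegree_mul hP hE0] at this
    omega
  rw [eq_C_of_natDegree_eq_zero hE0] at hE
  have hQ : D Q = Q * C (E.coeff 0) := mul_left_cancel₀ hP (by linear_combination Q * hE - hN)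
  refine ⟨E.coeff 0, fun i => ⟨?_, ?_⟩⟩
  · rw [← hD, hE, coeff_mul_C, mul_comm]
  · rw [← hD, hQ, coeff_mul_C, mul_comm]

end Pool.Agent.MP_3827f0_nt.H92
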