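import Pool.Agent.MP_3827f0_nt.H92.Glob
import Pool.Agent.MP_3827f0_nt.H92.Adel
import Pool.Agent.MP_3827f0_nt.H92.NARel
import Pool.Agent.MP_3827f0_nt.H92.NAAxis
import Pool.Agent.MP_3827f0_nt.H92.NAGap
import Pool.Agent.MP_3827f0_nt.H92.NADirac
import Pool.Agent.MP_3827f0_nt.H92.CWig
import Pool.Agent.MP_3827f0_nt.H92.CZoom
import Pool.Agent.MP_3827f0_nt.H92.CGlob
import Pool.Agent.MP_3827f0_nt.H92.COrb
import Pool.Agent.MP_3827f0_nt.H92.TH

/-! Many common preperiodic points force one of the algebraic conditions. -/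

set_option autoImplicit false

namespace Pool.Agent.MP_3827f0_nt.H92

open Filter Cardinal

theorem cond_complex {d : ℕ} {F F' : PM ℂ} {G : V ℂ → ℝ} (h : Dyn d F G) {c : ℝ}
    (h' : Dyn d F' fun Z => G Z + c) : ∃ N, Cond d N F F' := by
  obtain ⟨D, x, R, -, hL, hb⟩ := h.exists_lin
  have hd : 0 < d := by have := h.two; omega
  rcases rel_or_wiggle h h' D hL hb with ⟨n, k, hr⟩ | hw
  · exact ⟨max n k, Or.inl ⟨n, le_max_left _ _, n, le_max_left _ _, k, le_max_right _ _,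
      hr.rel hd h.hom h.nondeg h'.hom h'.nondeg⟩⟩
  · obtain ⟨c₀, hc₀, hs⟩ := D.sym h 0
    have hR := rigid_of_wiggle D.r_pos (D.continuousOn h) D.μ_ne D.μ_lt
      (pow_pos (by exact_mod_cast hd) D.N) (D.scale h) (D.not_harm h) hc₀ hs
      (by simpa using D.θ_ne) (by simpa using D.θ_mem) hw
    obtain ⟨E, ν, h1, h2, h3, h4, h5⟩ := exists_nu h h' D hR
    rcases exc_of_nu h h'.hom h'.nondeg E ν h1 h2 h3 h4 h5 with ⟨k, hk⟩ | hp | hc
    · exact ⟨k, Or.inr (Or.inl ⟨k, le_rfl, k, le_rfl, hk⟩)⟩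
    · exact ⟨0, Or.inr (Or.inr (Or.inl hp))⟩
    · exact ⟨0, Or.inr (Or.inr (Or.inr hc))⟩

namespace ThmAAux

variable {K B T : Type} [Field K] [Field B] [Field T] {d : ℕ} {F G : PM K}

lemma comp_eq {κ : K →+* B} {e : K →+* T} {j : B →+* T} (hj : ∀ x, j (κ x) = e x) (H : PM K) :
    mapF j (mapF κ H) = mapF e H := by
  rw [mapF_mapF]; congr 1; ext x; exact hj x

lemma push [Countable K] [IsAlgClosed K] [IsAlgClosed B] [IsAlgClosed T] (hd : 0 < d)
    (hF : Normal d F) (hG : Normal d G) (κ : K →+* B) (e : K →+* T)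
    (hB : Cardinal.mk B ≤ continuum) (hT : Cardinal.mk T = continuum) {N : ℕ}
    (h : Cond d N (mapF κ F) (mapF κ G)) : Cond d N (mapF e F) (mapF e G) := by
  obtain ⟨j, hj⟩ := exists_emb κ e (hT ▸ hB) (hT ▸ aleph0_lt_continuum)
  have := h.mapF hd (hF.mapF hd κ) (hG.mapF hd κ) j
  rwa [comp_eq hj, comp_eq hj] at this

lemma sep_map {X : ℕ → V K} (h : Sep X) (φ : K →+* B) : Sep fun j => mapV φ (X j) := by
  intro j k hjk
  rw [wedge_mapV]
  exact (map_ne_zero φ).2 (h j k hjk)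

lemma gen_and (𝒢 : GV d F G) {P Q : AbsoluteValue K ℝ → Prop} (hP : 𝒢.Gen P) (hQ : 𝒢.Gen Q) :
    𝒢.Gen fun v => P v ∧ Q v := by
  have := 𝒢.inter (fun n v => if n = 0 then P v else Q v) fun n => by
    by_cases hn : n = 0
    · simpa [hn] using hP
    · simpa [hn] using hQ
  exact 𝒢.mono _ _ (fun v h => ⟨by simpa using h 0, by simpa using h 1⟩) this

lemma exists_gt {v : AbsoluteValue K ℝ} (h : wt v d F + wt v d G = 1) : ∃ x, 1 < v x := by
  by_contra hc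
  push Not at hc
  have h0 : ∀ H : PM K, wt v d H = 0 := fun H => by
    unfold wt
    refine Finset.sum_eq_zero fun i _ => Finset.sum_eq_zero fun k _ => ?_
    rw [Real.posLog_eq_zero_iff, abs_of_nonneg (v.nonneg _)]
    exact hc _
  rw [h0, h0] at h
  norm_num at h

section Shift
variable {L : Type} [NormedField L] {G₁ G₂ : V L → ℝ} {c : ℝ}

lemma axis_shift (h : Axis G₁) (e : ∀ Z, Z ≠ 0 → G₂ Z = G₁ Z + c) : Axis G₂ := by
  obtain ⟨M, hM, h⟩ := h
  refine ⟨M, hM, fun Z W hZ h0 h1 => ?_⟩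
  have hW : W ≠ 0 := by
    rintro rfl
    apply hZ
    ext i
    fin_cases i
    · simpa using h0
    · simpa using h1
  have hM' : M.det ≠ 0 := by rw [hM]; exact one_ne_zero
  rw [e _ (mulVec_ne_zero hM' hZ), e _ (mulVec_ne_zero hM' hW), h Z W hZ h0 h1]

lemma dirac_shift (h : Dirac G₁) (e : ∀ Z, Z ≠ 0 → G₂ Z = G₁ Z + c) : Dirac G₂ := by
  obtain ⟨M, c', hM, h⟩ := h
  have hM' : M.det ≠ 0 := by rw [hM]; exact one_ne_zero
  exact ⟨M, c' + c, hM, fun Z hZ => by rw [e _ (mulVec_ne_zero hM' hZ), h Z hZ, add_assoc]⟩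

end Shift

/-- What good reduction at a limit place gives for one map. -/
def DP (d : ℕ) (H : PM K) (v : AbsoluteValue K ℝ) : Prop :=
  (∀ X Y, wedge X Y ≠ 0 → 0 ≤ grn v d H X Y) ∧
    (grn v d H ![1, 0] ![0, 1] ≤ 0 → grn v d H ![1, 0] ![1, 1] ≤ 0 →
      grn v d H ![0, 1] ![1, 1] ≤ 0 → wt v d H = 0)

lemma dp_of_dirac [IsAlgClosed K] {L : Type} [NormedField L] [IsUltrametricDist L] [IsAlgClosed L]
    [CharZero L] (hL : Big L) (hd : 2 ≤ d) {H : PM K} (hH : Normal d H) (φ : K →+* L)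
    {v : AbsoluteValue K ℝ} (hφ : ∀ x, ‖φ x‖ = v x) (h : Dirac (esc (nv L) d (mapF φ H))) :
    DP d H v := by
  have hv : ∀ x, nv L (φ x) = v x := fun x => by rw [nv_apply, hφ]
  have hH' := hH.mapF (by omega) φ
  have hdyn := dyn_esc place_nv_ultra hd hH'
  refine ⟨fun X Y hXY => ?_, fun h1 h2 h3 => ?_⟩
  · rw [← grn_mapF φ hv]
    have := h.green hL hdyn hH' (X := mapV φ X) (Y := mapV φ Y)
      (by rw [wedge_mapV]; exact (map_ne_zero φ).2 hXY)
    simpa [grn] using this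
  · rw [← grn_mapF φ hv] at h1 h2 h3
    rw [← wt_mapF φ hv]
    simp only [mapV_aff, map_one, map_zero, grn, wedge] at h1 h2 h3
    refine h.wt_eq_zero hL hdyn hH' ?_ ?_ ?_
    · simpa using h1
    · simpa using h2
    · simpa using h3

/-- The conditions on a limit absolute value that hold generically from the start. -/
def Good (d : ℕ) (F G : PM K) (X : ℕ → V K) (v : AbsoluteValue K ℝ) : Prop :=
  (IsNonarchimedean v ∧ (∀ n : ℕ, n ≠ 0 → v n = 1) ∧ wt v d F + wt v d G = 1) ∧ Small v d F G X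

lemma local_axis [Countable K] [IsAlgClosed K] [IsAlgClosed T] (hd : 2 ≤ d) (hF : Normal d F)
    (hG : Normal d G) (e : K →+* T) (hT : Cardinal.mk T = continuum)
    (hno : ∀ N, ¬ Cond d N (mapF e F) (mapF e G)) {X : ℕ → V K} (hX : Sep X)
    {v : AbsoluteValue K ℝ} (hv : Good d F G X v) :
    ∃ (L : Type) (_ : NormedField L) (_ : IsUltrametricDist L) (_ : IsAlgClosed L)
      (_ : CompleteSpace L) (_ : CharZero L) (φ : K →+* L), Big L ∧ (∀ x, ‖φ x‖ = v x) ∧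
      Cardinal.mk L = continuum ∧
      (∀ H, (H = F ∨ H = G) → Axis (esc (nv L) d (mapF φ H))) ∧
      ∀ H, (H = F ∨ H = G) → Dirac (esc (nv L) d (mapF φ H)) → DP d F v ∧ DP d G v := by
  obtain ⟨⟨h1, h2, h3⟩, hs⟩ := hv
  have hd0 : 0 < d := by omega
  obtain ⟨L, i1, i2, i3, i4, i5, φ, hL, hφ, hc⟩ := exists_big K v h1 (exists_gt h3) h2
  have hv : ∀ x, nv L (φ x) = v x := fun x => by rw [nv_apply, hφ]
  have hF' := hF.mapF hd0 φ
  have hG' := hG.mapF hd0 φ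
  obtain ⟨c, he⟩ := osc_ultra hL hd hF' hG' (sep_map hX φ) (hs.mapF φ hv)
  have hdF := dyn_esc place_nv_ultra hd hF'
  have hdG := dyn_esc place_nv_ultra hd hG'
  have he' : ∀ Z, Z ≠ 0 → esc (nv L) d (mapF φ F) Z = esc (nv L) d (mapF φ G) Z + - c :=
    fun Z hZ => by rw [he Z hZ]; ring
  have hA : Axis (esc (nv L) d (mapF φ F)) := by
    refine axis_of_not_spread hL hdF fun hS => ?_
    obtain ⟨n, m, k, hr⟩ := relInf_of_spread hL hdF (c := c)
      (hdG.congr fun Z hZ => (he Z hZ).symm) hS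
    refine hno (max n (max m k)) (push hd0 hF hG φ e hc.le hT (Or.inl ⟨n, le_max_left _ _, m, ?_,
      k, ?_, hr.rel hd0 hdF.hom hdF.nondeg hdG.hom hdG.nondeg⟩)) <;> omega
  refine ⟨L, i1, i2, i3, i4, i5, φ, hL, hφ, hc, ?_, ?_⟩
  · rintro H (rfl | rfl)
    · exact hA
    · exact axis_shift hA he
  · rintro H (rfl | rfl) hD
    · exact ⟨dp_of_dirac hL hd hF φ hφ hD, dp_of_dirac hL hd hG φ hφ (dirac_shift hD he)⟩
    · exact ⟨dp_of_dirac hL hd hF φ hφ (dirac_shift hD he'), dp_of_dirac hL hd hG φ hφ hD⟩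

lemma zero_iter (𝒢 : GV d F G) {H : PM K} (hH : H = F ∨ H = G) (hN : Nondeg H) {Z : V K}
    (hZ : Z ≠ 0) (h : 𝒢.Zero H Z) (n : ℕ) : 𝒢.Zero H ((app H)^[n] Z) := by
  induction n with
  | zero => exact h
  | succ n ih =>
    rw [Function.iterate_succ_apply']
    exact 𝒢.zero_app H hH _ (hN.iter_ne n hZ) ih

lemma orb_or_dp [Countable K] [IsAlgClosed K] [CharZero K] [IsAlgClosed T] (hd : 2 ≤ d)
    (hF : Normal d F) (hG : Normal d G) (e : K →+* T) (hT : Cardinal.mk T = continuum)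
    (hno : ∀ N, ¬ Cond d N (mapF e F) (mapF e G)) {X : ℕ → V K} (hX : Sep X) (𝒢 : GV d F G)
    (hgood : 𝒢.Gen (Good d F G X)) {H : PM K} (hH : H = F ∨ H = G) :
    Orb (mapF e H) 2 ∨ 𝒢.Gen fun v => DP d F v ∧ DP d G v := by
  have hd0 : 0 < d := by omega
  have hHn : Normal d H := by rcases hH with rfl | rfl <;> assumption
  have hN := hHn.nondeg hd0
  by_cases hp : PCF H
  · obtain ⟨κ, -⟩ := exists_emb (algebraMap ℚ K) (algebraMap ℚ ℂ)
      (by rw [Cardinal.mk_complex]; exact mk_le_aleph0.trans aleph0_le_continuum)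
      (by rw [Cardinal.mk_complex]; exact aleph0_lt_continuum)
    have hκ := hHn.mapF hd0 κ
    rcases orb_or_alg hd hκ.1 (hκ.nondeg hd0) (hp.mapF hd hHn.1 hN κ) with ho | ⟨M, c, hM, hc, ha⟩
    · left
      obtain ⟨j, hj⟩ := exists_emb κ e (by rw [Cardinal.mk_complex, hT])
        (hT ▸ aleph0_lt_continuum)
      have := ho.mapF j
      rwa [comp_eq hj] at this
    · right
      refine 𝒢.mono _ _ (fun v hv => ?_) hgood
      obtain ⟨L, i1, i2, i3, i4, i5, φ, hL, hφ, hc', -, hD⟩ := local_axis hd hF hG e hT hno hX hv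
      obtain ⟨j, hj⟩ := exists_emb κ φ (by rw [Cardinal.mk_complex, hc'])
        (hc' ▸ aleph0_lt_continuum)
      refine hD H hH (dirac_of_alg hL (dyn_esc place_nv_ultra hd (hHn.mapF hd0 φ))
        (M := M.map j) (c := j c) ?_ ((map_ne_zero j).2 hc) fun i m => ?_)
      · rw [← RingHom.mapMatrix_apply, ← RingHom.map_det]
        exact (map_ne_zero j).2 hM
      · rw [← comp_eq hj, ← mapF_conj, ← mapF_smul]
        simp only [mapF, MvPolynomial.coeff_map]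
        exact (ha i m).algHom j.toRatAlgHom
  · right
    obtain ⟨Cs, hC0, hC⟩ := exists_jac_factor hd hHn.1 hN
    have hz : ∀ j, 𝒢.Zero H (Cs j) := by
      refine 𝒢.lyap H hH Cs hC (𝒢.mono _ _ (fun v hv => ?_) hgood)
      obtain ⟨L, i1, i2, i3, i4, i5, φ, hL, hφ, -, hA, -⟩ := local_axis hd hF hG e hT hno hX hv
      have hv : ∀ x, nv L (φ x) = v x := fun x => by rw [nv_apply, hφ]
      have hH' := hHn.mapF hd0 φ
      have hdyn := dyn_esc place_nv_ultra hd hH'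
      have hl : LyapLE d (mapF φ H) (esc (nv L) d (mapF φ H)) := by
        rcases dirac_or_gap hL hdyn hH' (hA H hH) with hD | hD
        · exact hD.lyap hL hdyn hH'
        · exact hD.2
      have := hl (fun j => mapV φ (Cs j)) (jac_factor_mapF φ Cs hC)
      simpa only [esc_mapF φ hv] using this
    obtain ⟨Y, hY, hP⟩ := exists_seq_of_not_pcf hN hp
    have hex : ∀ j, ∃ W, W ≠ 0 ∧ wedge (Y j) W = 0 ∧ Post H W ∧ 𝒢.Zero H W := fun j => by
      obtain ⟨Z, n, ⟨hZ0, hZ⟩, hYj⟩ := hP j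
      rw [hC, Finset.prod_eq_zero_iff] at hZ
      obtain ⟨i, -, hi⟩ := hZ
      refine ⟨(app H)^[n + 1] (Cs i), hN.iter_ne _ (hC0 i), ?_, ⟨Cs i, n, ⟨hC0 i, ?_⟩, rfl⟩,
        zero_iter 𝒢 hH hN (hC0 i) (hz i) _⟩
      · rw [hYj]; exact hHn.1.wedge_iter _ hi hZ0 (hC0 i)
      · rw [hC]; exact Finset.prod_eq_zero (Finset.mem_univ i) (wedge_self _)
    choose W hW0 hW hWP hWZ using hex
    have hWs : Sep W := fun j k hjk h0 => hY j k hjk <| by
      have h1 := wedge_trans (hW0 j) (hW j) h0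
      have h2 : wedge (W k) (Y k) = 0 := by rw [wedge_comm, hW k, neg_zero]
      exact wedge_trans (hW0 k) h1 h2
    have hsm := 𝒢.small H H hH hH W hWs fun j => ⟨hWZ j, hWZ j⟩
    refine 𝒢.mono _ _ (fun v hv => ?_) (gen_and 𝒢 hgood hsm)
    obtain ⟨L, i1, i2, i3, i4, i5, φ, hL, hφ, -, hA, hD⟩ := local_axis hd hF hG e hT hno hX hv.1
    have hv' : ∀ x, nv L (φ x) = v x := fun x => by rw [nv_apply, hφ]
    have hH' := hHn.mapF hd0 φ
    rcases dirac_or_gap hL (dyn_esc place_nv_ultra hd hH') hH' (hA H hH) with h | h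
    · exact hD H hH h
    · exact absurd h.1 (not_gap hL hd hH' (sep_map hWs φ) (fun j => (hWP j).mapF φ)
        (hv.2.mapF φ hv'))

lemma cond_of_gv [Countable K] [IsAlgClosed K] [CharZero K] [IsAlgClosed T] (hd : 2 ≤ d)
    (hF : Normal d F) (hG : Normal d G) (e : K →+* T) (hT : Cardinal.mk T = continuum)
    {X : ℕ → V K} (hX : Sep X) (h0 : X 0 = ![1, 0]) (h1 : X 1 = ![0, 1]) (h2 : X 2 = ![1, 1])
    (𝒢 : GV d F G) (hz : ∀ j, 𝒢.Zero F (X j) ∧ 𝒢.Zero G (X j)) :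
    ∃ N, Cond d N (mapF e F) (mapF e G) := by
  by_contra hno
  push Not at hno
  have hgood : 𝒢.Gen (Good d F G X) :=
    gen_and 𝒢 𝒢.basic (𝒢.small F G (Or.inl rfl) (Or.inr rfl) X hX hz)
  have hdp : 𝒢.Gen fun v => DP d F v ∧ DP d G v := by
    rcases orb_or_dp hd hF hG e hT hno hX 𝒢 hgood (Or.inl rfl) with hf | hf
    · rcases orb_or_dp hd hF hG e hT hno hX 𝒢 hgood (Or.inr rfl) with hg | hg
      · exact absurd (Or.inr (Or.inl ⟨2, le_rfl, 2, le_rfl, hf, hg⟩)) (hno 2)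
      · exact hg
    · exact hf
  have key : ∀ H, (H = F ∨ H = G) → (∀ j, 𝒢.Zero H (X j)) → (𝒢.Gen fun v => DP d H v) →
      𝒢.Gen fun v => wt v d H = 0 := fun H hH hz hd => by
    have g : ∀ j k, j ≠ k → 𝒢.Gen fun v => grn v d H (X j) (X k) ≤ 0 := fun j k hjk =>
      𝒢.green H hH _ _ (hX j k hjk) (hz j) (hz k)
        (𝒢.mono _ _ (fun v hv => hv.1 _ _ (hX j k hjk)) hd)
    have := gen_and 𝒢 hd (gen_and 𝒢 (g 0 1 (by omega))
      (gen_and 𝒢 (g 0 2 (by omega)) (g 1 2 (by omega))))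
    rw [h0, h1, h2] at this
    exact 𝒢.mono _ _ (fun v hv => hv.1.2 hv.2.1 hv.2.2.1 hv.2.2.2) this
  obtain ⟨v, hv1, hv2, hv3⟩ := 𝒢.ex _ (gen_and 𝒢 𝒢.basic (gen_and 𝒢
    (key F (Or.inl rfl) (fun j => (hz j).1) (𝒢.mono _ _ (fun v hv => hv.1) hdp))
    (key G (Or.inr rfl) (fun j => (hz j).2) (𝒢.mono _ _ (fun v hv => hv.2) hdp))))
  have := hv1.2.2
  rw [hv2, hv3] at this
  norm_num at this

end ThmAAux

open ThmAAux in
theorem cond_seq {d : ℕ} (hd : 2 ≤ d) (Fs Gs : ℕ → PM (AlgebraicClosure ℚ))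
    (hF : ∀ l, Normal d (Fs l)) (hG : ∀ l, Normal d (Gs l))
    (Xs : ℕ → ℕ → V (AlgebraicClosure ℚ)) (h0 : ∀ l, Xs 0 l = ![1, 0]) (h1 : ∀ l, Xs 1 l = ![0, 1])
    (h2 : ∀ l, Xs 2 l = ![1, 1]) (haff : ∀ j l, 1 ≤ j → Xs j l 1 = 1)
    (hsep : ∀ j k, j ≠ k → ∀ᶠ l in uf, wedge (Xs j l) (Xs k l) ≠ 0)
    (hp : ∀ j, ∀ᶠ l in uf, Preper (Fs l) (Xs j l) ∧ Preper (Gs l) (Xs j l)) :
    ∃ N, ∀ᶠ l in uf, Cond d N (Fs l) (Gs l) := by
  obtain ⟨A⟩ := nonempty_adelic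
  have hd0 : 0 < d := by omega
  haveI : Countable (AlgebraicClosure ℚ) := by
    rw [← Cardinal.mk_le_aleph0_iff]
    exact (@Algebra.IsAlgebraic.cardinalMk_le_max ℚ _ _ (AlgebraicClosure ℚ) _ _
      (AlgebraicClosure.instAlgebra ℚ) inferInstance (AlgebraicClosure.isAlgebraic ℚ)).trans
      (by simp)
  haveI := isAlgClosed_up (AlgebraicClosure ℚ)
  have hT := card_up (AlgebraicClosure ℚ)
  obtain ⟨K₀, i1, i2, i3, i4, e, F, G, X, rF, rG, nF, nG, hX, x0, x1, x2, hcase⟩ :=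
    exists_limit A hd Fs Gs hF hG Xs h0 h1 h2 haff hsep hp
  have key : ∃ N, Cond d N (mapF e F) (mapF e G) := by
    rcases hcase with ⟨ι, hs⟩ | ⟨𝒢, hz⟩
    · have hF' := nF.mapF hd0 ι
      have hG' := nG.mapF hd0 ι
      obtain ⟨c, he⟩ := osc_complex hd hF' hG' (sep_map hX ι) hs
      obtain ⟨N, hN⟩ := cond_complex (dyn_esc place_nv_complex hd hF') (c := c)
        ((dyn_esc place_nv_complex hd hG').congr fun Z hZ => (he Z hZ).symm)
      exact ⟨N, push hd0 nF nG ι e Cardinal.mk_complex.le hT hN⟩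
    · exact cond_of_gv hd nF nG e hT hX x0 x1 x2 𝒢 hz
  obtain ⟨N, hN⟩ := key
  exact ⟨N, (rF.cond_iff (fun l => (hF l).1) rG (fun l => (hG l).1) N).1 hN⟩

end Pool.Agent.MP_3827f0_nt.H92
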